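import Pool.Agent.Work.MP_3d425c_gt.AAMain

/-! The presented group satisfies the abstract hypotheses. -/

namespace Pool.Agent.Work.MP_3d425c_gt

namespace Diag

variable {d : Diag}

/-- adjacent regions -/
def Adj (d : Diag) (a j : ℕ) : Prop :=
  ∃ c ∈ (d.u, d.f, d.v, d.g) :: d.cr, (a = c.1 ∨ a = c.2.2.1) ∧ (j = c.2.1 ∨ j = c.2.2.2)

theorem mem_arcs {s : FreeGroup (ℕ ⊕ ℕ)} : s ∈ d.arcs ↔ ∃ a j, d.Adj a j ∧ s = mer a j := by
  simp only [arcs, List.mem_flatMap, Adj]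
  constructor
  · rintro ⟨c, hc, h⟩
    simp only [List.mem_cons, List.not_mem_nil, or_false] at h
    rcases h with rfl | rfl | rfl | rfl
    · exact ⟨_, _, ⟨c, hc, Or.inl rfl, Or.inl rfl⟩, rfl⟩
    · exact ⟨_, _, ⟨c, hc, Or.inr rfl, Or.inl rfl⟩, rfl⟩
    · exact ⟨_, _, ⟨c, hc, Or.inr rfl, Or.inr rfl⟩, rfl⟩
    · exact ⟨_, _, ⟨c, hc, Or.inl rfl, Or.inr rfl⟩, rfl⟩
  · rintro ⟨a, j, ⟨c, hc, rfl | rfl, rfl | rfl⟩, rfl⟩ <;> exact ⟨c, hc, by simp⟩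

theorem mk_mer (R : Set (FreeGroup (ℕ ⊕ ℕ))) (a j : ℕ) : PresentedGroup.mk R (mer a j) =
    PresentedGroup.of (Sum.inl a) * (PresentedGroup.of (Sum.inr j))⁻¹ := by
  simp only [mer, white, map_mul, map_inv]; rfl

theorem mk_rel {R : Set (FreeGroup (ℕ ⊕ ℕ))} {r : FreeGroup (ℕ ⊕ ℕ)} (h : r ∈ R) :
    PresentedGroup.mk R r = 1 := PresentedGroup.one_of_mem h

theorem rep (w : Wf d) (a : ℤ) (b : ℕ) :
    Rep d (fun i => (PresentedGroup.of (Sum.inl i) : PresentedGroup (d.rels a b)))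
      (fun j => PresentedGroup.of (Sum.inr j)) (d.Cover a b) d.Adj where
  one := mk_rel (R := d.rels a b) (Or.inl rfl)
  dn c hc := by
    have := mk_rel (R := d.rels a b) (Or.inr (Or.inl ⟨c, hc, rfl⟩))
    rwa [map_mul, mk_mer, mk_mer] at this
  iv i j h := by
    have := mk_rel (R := d.rels a b)
      (Or.inr (Or.inr (Or.inl ⟨_, mem_arcs.mpr ⟨i, j, h, rfl⟩, rfl⟩)))
    rwa [map_mul, mk_mer] at this
  lt i j := by
    rintro ⟨c, hc, h1, h2⟩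
    rcases List.mem_cons.mp hc with rfl | hc
    · exact ⟨by rcases h1 with rfl | rfl; exacts [w.bu, w.bv],
        by rcases h2 with rfl | rfl; exacts [w.bf, w.bg]⟩
    · have := w.bc c hc
      omega
  cr c hc := ⟨⟨c, hc, Or.inl rfl, Or.inl rfl⟩, ⟨c, hc, Or.inr rfl, Or.inl rfl⟩,
    ⟨c, hc, Or.inr rfl, Or.inr rfl⟩, ⟨c, hc, Or.inl rfl, Or.inr rfl⟩⟩
  mem i j i' j' h h' := Subgroup.subset_closure ⟨_, mem_arcs.mpr ⟨i, j, h, rfl⟩, _,
    mem_arcs.mpr ⟨i', j', h', rfl⟩, by rw [map_mul, mk_mer, mk_mer]⟩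
  gen H h := (Subgroup.closure_le H).mpr (by
    rintro _ ⟨s, hs, t, ht, rfl⟩
    obtain ⟨i, j, h1, rfl⟩ := mem_arcs.mp hs
    obtain ⟨i', j', h2, rfl⟩ := mem_arcs.mp ht
    rw [map_mul, mk_mer, mk_mer]
    exact h i j i' j' h1 h2)

theorem cover_not_leftOrderable (hd : Built d) (hs : ∃ i, 3 ≤ d.sigma i) (a : ℤ) (b : ℕ)
    (hb : 0 < b) (hab : (d.twoGenus - 1) * b ≤ a) : ¬ IsLeftOrderable (d.Cover a b) := by
  refine (rep hd.wf a b).main hd hs hb hab ?_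
  have := mk_rel (R := d.rels a b) (Or.inr (Or.inr (Or.inr rfl)))
  simp only [mu, lam, map_mul, map_zpow, map_pow, map_inv, mk_mer] at this
  exact this

end Diag

end Pool.Agent.Work.MP_3d425c_gt
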