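import Pool.Agent.Work.MP_3d425c_gt.BorQ1
import Mathlib

-- merged part: Pool.Agent.Work.MP_3d425c_gt.ZQ1
section
-- merged part: Pool.Agent.Work.MP_3d425c_gt.PAP
section
/-! Pretrees given by a direction function: weak betweenness, medians, heights. -/

namespace Pool.Agent.Work.MP_3d425c_gt.Bor
open Classical

section defs
variable {V : Type} (dir : V → V → ℤ)

/-- `m` lies on the segment from `a` to `b`. -/
def Wb (a m b : V) : Prop := a = m ∨ b = m ∨ dir m a ≠ dir m b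

/-- All turns between `a` and `b` are small. -/
def Small (a b : V) : Prop := ∀ u, a ≠ u → b ≠ u → |dir u b - dir u a| ≤ 1

/-- Finitely many big turns. -/
def FinB : Prop := ∀ a b, {u | a ≠ u ∧ b ≠ u ∧ ¬ |dir u b - dir u a| ≤ 1}.Finite

/-- Parity along straight segments. -/
def Par : Prop := ∀ a b, a ≠ b → Small dir a b → Odd (dir a b + dir b a)

/-- Medians exist. -/
def Med : Prop := ∀ a b c, ∃ m, Wb dir a m b ∧ Wb dir b m c ∧ Wb dir c m a

/-- Even directions go up, odd directions go down. -/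
def Mono (y : V → ℝ) (a b : V) : Prop := (Even (dir a b) ↔ y a < y b) ∧ y a ≠ y b

/-- Heights are monotone along straight segments. -/
def MonoAll (y : V → ℝ) : Prop := ∀ a b, a ≠ b → Small dir a b → Mono dir y a b

end defs

variable {V : Type} {dir : V → V → ℤ}

theorem wb_iff {a m b : V} : Wb dir a m b ↔ a = m ∨ b = m ∨ Btw dir a m b := by
  unfold Wb Btw
  tauto

theorem Wb.symm {a m b : V} (h : Wb dir a m b) : Wb dir b m a := by
  rcases h with h | h | h
  exacts [Or.inr (Or.inl h), Or.inl h, Or.inr (Or.inr (Ne.symm h))]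

theorem wb_left (a b : V) : Wb dir a a b := Or.inl rfl

theorem wb_right (a b : V) : Wb dir a b b := Or.inr (Or.inl rfl)

theorem Btw.wb {a m b : V} (h : Btw dir a m b) : Wb dir a m b := Or.inr (Or.inr h.2.2)

theorem Wb.btw {a m b : V} (h : Wb dir a m b) (h1 : a ≠ m) (h2 : b ≠ m) : Btw dir a m b :=
  ⟨h1, h2, (h.resolve_left h1).resolve_left h2⟩

theorem Wb.self {a m : V} (h : Wb dir a m a) : a = m := by
  rcases h with h | h | h
  exacts [h, h, absurd rfl h]

theorem not_wb {a m b : V} : ¬ Wb dir a m b ↔ a ≠ m ∧ b ≠ m ∧ dir m a = dir m b := by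
  unfold Wb
  push Not
  rfl

/-- The direction from `a` towards a point of the segment. -/
theorem Wb.dir_eq (t : T1 dir) {a m b : V} (h : Wb dir a m b) (h1 : a ≠ m) :
    dir a b = dir a m := by
  by_cases e : b = m
  · rw [e]
  · exact t.btw (h.btw h1 e)

theorem Wb.ne {a m b : V} (h : Wb dir a m b) (h1 : a ≠ m) : a ≠ b := fun e => by
  subst e
  exact h1 h.self

theorem Wb.trans_left (t : T1 dir) {a m u x : V} (h : Wb dir a m u) (h' : Wb dir a u x) :
    Wb dir a m x := by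
  by_cases e1 : a = m
  · exact Or.inl e1
  by_cases e2 : u = m
  · exact e2 ▸ h'
  by_cases e3 : x = u
  · exact e3 ▸ h
  have hb := h.btw e1 e2
  have h1 := h'.btw hb.ne e3
  have h2 : dir u a = dir u m := t.btw hb.symm
  have h3 := t m u x (Ne.symm e2) e3 (h2 ▸ h1.2.2)
  exact Or.inr (Or.inr (h3 ▸ hb.2.2))

theorem Wb.trans_right (t : T1 dir) {a m u x : V} (h : Wb dir a m u) (h' : Wb dir a u x) :
    Wb dir m u x := by
  by_cases e1 : a = m
  · exact e1 ▸ h'
  by_cases e2 : u = m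
  · exact Or.inl e2.symm
  by_cases e3 : x = u
  · exact Or.inr (Or.inl e3)
  have hb := h.btw e1 e2
  have h1 := h'.btw hb.ne e3
  have h2 : dir u a = dir u m := t.btw hb.symm
  exact Or.inr (Or.inr (h2 ▸ h1.2.2))

theorem Wb.antisymm (t : T1 dir) {a m u : V} (h : Wb dir a m u) (h' : Wb dir a u m) : m = u :=
  (h.trans_right t h').self

theorem Wb.total (t : T1 dir) {a x x' b : V} (h : Wb dir a x b) (h' : Wb dir a x' b) :
    Wb dir a x x' ∨ Wb dir a x' x := by
  by_contra hn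
  rw [not_or, not_wb, not_wb] at hn
  obtain ⟨⟨h1, h2, h3⟩, h4, h5, h6⟩ := hn
  have e1 : b ≠ x := fun e => by
    subst e
    exact (h'.btw h4 h5).2.2 h6
  have hb := h.btw h1 e1
  have e2 : b ≠ x' := fun e => hb.2.2 (e ▸ h3)
  have := t x' x b h2 e1 (h3 ▸ hb.2.2)
  exact (h'.btw h4 e2).2.2 (h6.trans this.symm)

theorem Wb.split (t : T1 dir) {a x m b : V} (h : Wb dir a x b) (h' : Wb dir a m b) :
    Wb dir a m x ∨ Wb dir x m b :=
  (h'.total t h).imp id fun k => k.trans_right t h'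

/-- Concatenation at an inner point. -/
theorem Wb.concat (t : T1 dir) {a u v x : V} (h : Wb dir a u v) (h' : Wb dir u v x)
    (huv : u ≠ v) : Wb dir a u x ∧ Wb dir a v x := by
  have h1 : dir u x = dir u v := h'.dir_eq t huv
  have h2 : dir v a = dir v u := h.symm.dir_eq t huv.symm
  constructor
  · rcases h with h | h | h
    exacts [Or.inl h, absurd h.symm huv, Or.inr (Or.inr (h1 ▸ h))]
  · rcases h' with h' | h' | h'
    exacts [absurd h' huv, Or.inr (Or.inl h'), Or.inr (Or.inr (h2 ▸ h'))]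

theorem Small.symm {a b : V} (h : Small dir a b) : Small dir b a := fun u h1 h2 => by
  rw [abs_sub_comm]
  exact h u h2 h1

theorem small_self (a : V) : Small dir a a := fun u _ _ => by simp

theorem Small.left (t : T1 dir) {a m b : V} (h : Small dir a b) (hm : Wb dir a m b) :
    Small dir a m := by
  intro u h1 h2
  by_cases e1 : a = m
  · simp [e1]
  by_cases e2 : b = m
  · exact e2 ▸ h u h1 (e2 ▸ h2)
  rcases t.split (hm.btw e1 e2) h2.symm with k | k
  · simp [k.2]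
  · exact k.2 ▸ h u h1 k.1

theorem Small.sub (t : T1 dir) {a x x' b : V} (h : Small dir a b) (hx : Wb dir a x b)
    (hx' : Wb dir a x' b) : Small dir x x' := by
  rcases hx.total t hx' with k | k
  · exact ((h.left t hx').symm.left t k.symm).symm
  · exact (h.left t hx).symm.left t k.symm

theorem MonoAll.par {y : V → ℝ} (h : MonoAll dir y) : Par dir := by
  intro a b hab hs
  obtain ⟨h1, h2⟩ := h a b hab hs
  obtain ⟨h3, -⟩ := h b a hab.symm hs.symm
  rw [Int.odd_add', ← Int.not_even_iff_odd, h1, h3]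
  exact ⟨fun k => lt_of_le_of_ne (not_lt.1 k) h2, fun k => not_lt.2 k.le⟩

end Pool.Agent.Work.MP_3d425c_gt.Bor
end

-- merged part: Pool.Agent.Work.MP_3d425c_gt.PAP2
section
/-! Geodesics, medians from edges, heights along segments. -/

namespace Pool.Agent.Work.MP_3d425c_gt.Bor
open Classical

variable {V : Type} {dir : V → V → ℤ}

/-- Induction on the number of big turns. -/
theorem pap2_ind (t : T1 dir) (hf : FinB dir) (P : V → V → Prop)
    (h0 : ∀ a b, Small dir a b → P a b) (h1 : ∀ a u b, Btw dir a u b → P a u → P u b → P a b)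
    (a b : V) : P a b := by
  generalize hn : {u | a ≠ u ∧ b ≠ u ∧ ¬ |dir u b - dir u a| ≤ 1}.ncard = n
  induction n using Nat.strong_induction_on generalizing a b with
  | _ n ih =>
    by_cases hs : Small dir a b
    · exact h0 a b hs
    unfold Small at hs
    push Not at hs
    obtain ⟨u, hu1, hu2, hu3⟩ := hs
    have hb : Btw dir a u b := ⟨hu1, hu2, fun e => by
      rw [e, sub_self, abs_zero] at hu3
      omega⟩
    refine h1 a u b hb (ih _ ?_ a u rfl) (ih _ ?_ u b rfl)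
    · rw [← hn]
      refine Set.ncard_lt_ncard ⟨fun x hx => ?_, fun hx => ?_⟩ (hf a b)
      · rcases t.split hb hx.2.1.symm with k | k
        · exact absurd (by simp [k.2]) hx.2.2
        · exact ⟨hx.1, k.1, k.2 ▸ hx.2.2⟩
      · exact (hx (show u ∈ _ from ⟨hu1, hu2, not_le.2 hu3⟩)).2.1 rfl
    · rw [← hn]
      refine Set.ncard_lt_ncard ⟨fun x hx => ?_, fun hx => ?_⟩ (hf a b)
      · rcases t.split hb hx.1.symm with k | k
        · exact ⟨k.1, hx.2.1, k.2 ▸ hx.2.2⟩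
        · exact absurd (by simp [k.2]) hx.2.2
      · exact (hx (show u ∈ _ from ⟨hu1, hu2, not_le.2 hu3⟩)).1 rfl

theorem pap2_geo_trans (t : T1 dir) {a w b : V} (h : Geo dir a w) (h' : Geo dir w b)
    (hb : Btw dir a w b) : Geo dir a b := by
  induction h' with
  | base k => exact Geo.step h k hb
  | @step w' b _ k2 k3 ih =>
    have h1 : Btw dir a w w' := ⟨hb.1, k3.1.symm, t.btw k3 ▸ hb.2.2⟩
    exact Geo.step (ih h1) k2 ((h1.wb.concat t k3.wb k3.1).2.btw h1.ne k3.2.1)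

theorem geo_of_fin (t : T1 dir) (hf : FinB dir) (hp : Par dir) {a b : V} (h : a ≠ b) :
    Geo dir a b :=
  pap2_ind t hf (fun a b => a ≠ b → Geo dir a b)
    (fun a b hs hab => Geo.base ⟨hab, hp a b hab hs, hs⟩)
    (fun _ _ _ hb k1 k2 _ => pap2_geo_trans t (k1 hb.1) (k2 hb.2.1.symm) hb) a b h

theorem exists_sub_pair (t : T1 dir) (hf : FinB dir) {a b : V} (A : V → Prop) (ha : A a)
    (hb : ¬ A b) : ∃ p q, Wb dir a p b ∧ Wb dir a q b ∧ Small dir p q ∧ A p ∧ ¬ A q := by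
  refine pap2_ind t hf (fun a b => A a → ¬ A b →
    ∃ p q, Wb dir a p b ∧ Wb dir a q b ∧ Small dir p q ∧ A p ∧ ¬ A q) ?_ ?_ a b ha hb
  · intro a b hs ha hb
    exact ⟨a, b, wb_left a b, wb_right a b, hs, ha, hb⟩
  · intro a u b hu k1 k2 ha hb
    by_cases e : A u
    · obtain ⟨p, q, h1, h2, h3⟩ := k2 e hb
      exact ⟨p, q, (h1.symm.trans_left t hu.wb.symm).symm, (h2.symm.trans_left t hu.wb.symm).symm,
        h3⟩
    · obtain ⟨p, q, h1, h2, h3⟩ := k1 ha e
      exact ⟨p, q, h1.trans_left t hu.wb, h2.trans_left t hu.wb, h3⟩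

theorem pap2_par {k l : ℤ} (h : |k - l| ≤ 1) (h' : l ≠ k) : Even k ↔ ¬ Even l := by
  rw [abs_le] at h
  rw [Int.even_iff, Int.even_iff]
  omega

theorem mono_seg (t : T1 dir) {y : V → ℝ} (hm : MonoAll dir y) {p q x x' : V}
    (hs : Small dir p q) (h1 : Wb dir p x x') (h2 : Wb dir p x' q) (hx : x ≠ x') :
    (y x < y x' ↔ y p < y q) ∧ y x ≠ y x' ∧ y p ≠ y q := by
  have h3 : Wb dir p x q := h1.trans_left t h2
  have h4 : Wb dir x x' q := h1.trans_right t h2
  have hpq : p ≠ q := fun e => by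
    subst e
    exact hx (h3.self.symm.trans h2.self)
  obtain ⟨a1, a2⟩ := hm x x' hx (hs.sub t h3 h2)
  obtain ⟨b1, b2⟩ := hm p q hpq hs
  refine ⟨?_, a2, b2⟩
  rw [← a1, ← b1, ← h4.dir_eq t hx]
  by_cases e : p = x
  · rw [e]
  have e' : q ≠ x := (h4.ne hx).symm
  obtain ⟨c1, c2⟩ := hm p x e (hs.left t h3)
  obtain ⟨d1, -⟩ := hm x p (Ne.symm e) (hs.left t h3).symm
  rw [h3.dir_eq t e, c1, pap2_par (hs x e e') (h3.btw e e').2.2, d1]
  exact ⟨fun k => lt_of_le_of_ne (not_lt.1 k) c2, fun k => not_lt.2 k.le⟩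

theorem height_bound (t : T1 dir) (hf : FinB dir) {y : V → ℝ} (hm : MonoAll dir y) (a b : V) :
    ∃ C, ∀ m, Wb dir a m b → |y m - y a| ≤ C := by
  refine pap2_ind t hf (fun a b => ∃ C, ∀ m, Wb dir a m b → |y m - y a| ≤ C) ?_ ?_ a b
  · intro a b hs
    refine ⟨|y b - y a|, fun m h => ?_⟩
    by_cases e1 : a = m
    · rw [← e1, sub_self, abs_zero]
      exact abs_nonneg _
    by_cases e2 : m = b
    · rw [e2]
    obtain ⟨a1, a2, a3⟩ := mono_seg t hm hs (wb_left a m) h e1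
    obtain ⟨b1, b2, -⟩ := mono_seg t hm hs h (wb_right a b) e2
    rcases lt_or_gt_of_ne a3 with k | k
    · have c1 := a1.2 k
      have c2 := b1.2 k
      rw [abs_of_pos (by linarith), abs_of_pos (by linarith)]
      linarith
    · have c1 : y m ≤ y a := not_lt.1 fun c => lt_asymm k (a1.1 c)
      have c2 : y b ≤ y m := not_lt.1 fun c => lt_asymm k (b1.1 c)
      rw [abs_of_nonpos (by linarith), abs_of_nonpos (by linarith)]
      linarith
  · rintro a u b hu ⟨C, k1⟩ ⟨C', k2⟩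
    refine ⟨C + C', fun m h => ?_⟩
    rcases hu.wb.split t h with k | k
    · have c1 := k1 m k
      have c2 := k2 u (wb_left u b)
      have c3 := abs_nonneg (y u - y u)
      linarith
    · have c1 := k1 u (wb_right a u)
      have c2 := k2 m k
      have c3 := abs_sub_le (y m) (y u) (y a)
      linarith

theorem pap2_med (t : T1 dir) {a b x x' m n : V} (h1 : Wb dir a m x) (h2 : Wb dir x m x')
    (h3 : Wb dir x' n b) (h4 : Wb dir x n m) (h5 : m ≠ n) : Wb dir a m b ∧ Wb dir x' m b :=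
  have k : Wb dir x' m n := (h4.trans_right t h2).symm
  ⟨((h4.trans_right t h1.symm).symm.concat t (k.trans_right t h3) h5).1, k.trans_left t h3⟩

theorem med_of_edges (t : T1 dir) (E : V → V → Prop)
    (conn : ∀ a b, Relation.ReflTransGen E a b)
    (hE : ∀ a p q, E p q → ∃ m, Wb dir a m p ∧ Wb dir p m q ∧ Wb dir q m a) : Med dir := by
  intro a b c
  induction conn b c with
  | refl => exact ⟨b, wb_right a b, wb_left b b, wb_left b a⟩
  | @tail x x' _ he ih =>
    obtain ⟨l, l1, l2, l3⟩ := ih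
    obtain ⟨m, m1, m2, m3⟩ := hE a x x' he
    obtain ⟨n, n1, n2, n3⟩ := hE b x x' he
    by_cases e : m = n
    · subst e
      by_cases k : Wb dir a m b
      · exact ⟨m, k, n3.symm, m3⟩
      · have k1 : Wb dir a l m :=
          (l3.symm.total t m1).resolve_right fun k' => k (k'.trans_left t l1)
        have k2 : Wb dir b l m :=
          (l2.total t n1).resolve_right fun k' => k (k'.trans_left t l1.symm).symm
        exact ⟨l, l1, k2.trans_left t n3.symm, (k1.trans_left t m3.symm).symm⟩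
    · rcases m2.total t n2 with k | k
      · obtain ⟨k1, k2⟩ := pap2_med t n1 n2 m3 k (Ne.symm e)
        exact ⟨n, k1.symm, n3.symm, k2⟩
      · obtain ⟨k1, k2⟩ := pap2_med t m1 m2 n3 k e
        exact ⟨m, k1, k2.symm, m3⟩

theorem mono_of_edges (t : T1 dir) (hmed : Med dir) (y : V → ℝ) (E : V → V → Prop)
    (conn : ∀ a b, Relation.ReflTransGen E a b)
    (hE : ∀ p q, E p q → ∀ m m', Wb dir p m q → Wb dir p m' q → m ≠ m' → Mono dir y m m') :
    MonoAll dir y := by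
  have key : ∀ a x, ∀ m, Wb dir a m x → a ≠ m → Small dir a m →
      Mono dir y a m ∧ Mono dir y m a := by
    intro a x
    induction conn a x with
    | refl => exact fun m h h' => absurd h.self h'
    | @tail x x' _ he ih =>
      intro m h h' hs
      obtain ⟨u, u1, u2, u3⟩ := hmed a x x'
      by_cases k : Wb dir a m u
      · exact ih m (k.trans_left t u1) h' hs
      have k1 : Wb dir a u m := (h.total t u3.symm).resolve_left k
      have e : u ≠ m := (not_wb.1 k).2.1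
      have k2 : Wb dir x m x' := ((k1.trans_right t h).symm.trans_left t u2.symm).symm
      have a1 := hE x x' he u m u2 k2 e
      have a2 := hE x x' he m u k2 u2 e.symm
      by_cases e' : a = u
      · exact e' ▸ ⟨a1, a2⟩
      obtain ⟨b1, b2⟩ := ih u u1 e' (hs.left t k1)
      have c := pap2_par (hs u e' e.symm) (k1.btw e' e.symm).2.2
      rw [a1.1, b2.1] at c
      unfold Mono
      rw [k1.dir_eq t e', k1.symm.dir_eq t e.symm, b1.1, a2.1]
      rcases lt_or_gt_of_ne a1.2 with d | d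
      · have d' : y a < y u := lt_of_le_of_ne (not_lt.1 (c.1 d)) b1.2
        exact ⟨⟨iff_of_true d' (d'.trans d), (d'.trans d).ne⟩,
          iff_of_false (lt_asymm d) (lt_asymm (d'.trans d)), (d'.trans d).ne'⟩
      · have d' : y u < y a := by_contra fun n => lt_asymm d (c.2 n)
        exact ⟨⟨iff_of_false (lt_asymm d') (lt_asymm (d.trans d')), (d.trans d').ne'⟩,
          iff_of_true d (d.trans d'), (d.trans d').ne⟩
  exact fun a b hab hs => (key a b b (wb_right a b) hab hs).1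

end Pool.Agent.Work.MP_3d425c_gt.Bor
end

-- merged part: Pool.Agent.Work.MP_3d425c_gt.PAQ0
section
/-! Trees with integral directions and several types of rotation centres: definitions. -/

namespace Pool.Agent.Work.MP_3d425c_gt.Bor
open Classical

/-- A group acting on a tree whose directions at each point form a copy of `ℤ`, with a
rotating family. -/
structure QM (Γ V : Type) [Group Γ] [MulAction Γ V] where
  dir : V → V → ℤ
  c : Γ → V → ℤ
  e : Γ → ℤ
  n : V → ℤ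
  j : V → ℤ
  rot : V → Γ
  t1 : T1 dir
  geo : ∀ a b, a ≠ b → Geo dir a b
  equiv : ∀ (g : Γ) u v, v ≠ u → dir (g • u) (g • v) = dir u v + c g u
  c_mul : ∀ (g h : Γ) u, c (g * h) u = c g (h • u) + c h u
  e_mul : ∀ g h, e (g * h) = e g + e h
  par : ∀ g u, Even (e g - c g u)
  n_smul : ∀ (g : Γ) u, n (g • u) = n u
  j_smul : ∀ (g : Γ) u, j (g • u) = j u
  rot_smul : ∀ (g : Γ) w, rot (g • w) = g * rot w * g⁻¹
  rot_fix : ∀ w, rot w • w = w
  c_rot : ∀ w, c (rot w) w = n w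
  e_rot : ∀ w, e (rot w) = n w - 2 * j w
  j_pos : ∀ w, 0 < j w
  j_lt : ∀ w, j w < n w
  h3 : ∀ w, 3 ≤ n w
  cop : ∀ w, IsCoprime (n w) (j w)

/-- No turn between `a` and `b` is a nonzero multiple of the local number of prongs. -/
def RedN {V : Type} (dir : V → V → ℤ) (n : V → ℤ) (a b : V) : Prop :=
  ∀ u, a ≠ u → b ≠ u → n u ∣ dir u b - dir u a → dir u b = dir u a

/-- Automorphisms of a tree with rotations, together with a lift of the parity. -/
def IsAut {V : Type} (dir : V → V → ℤ) (n j : V → ℤ) (rot : V → Equiv.Perm V)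
    (σ : Equiv.Perm V) (m : ℤ) : Prop :=
  (∀ u, ∃ k, Even (m - k) ∧ ∀ v, v ≠ u → dir (σ u) (σ v) = dir u v + k) ∧
    (∀ u, n (σ u) = n u ∧ j (σ u) = j u) ∧ ∀ u, rot (σ u) = σ * rot u * σ⁻¹

section
variable {V : Type} {dir : V → V → ℤ} {n j : V → ℤ} {rot : V → Equiv.Perm V}

theorem IsAut.one : IsAut dir n j rot 1 0 :=
  ⟨fun _ => ⟨0, by simp, fun _ _ => by simp⟩, fun _ => ⟨rfl, rfl⟩, fun _ => by simp⟩

theorem IsAut.mul {σ τ : Equiv.Perm V} {m m' : ℤ} (h : IsAut dir n j rot σ m)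
    (h' : IsAut dir n j rot τ m') : IsAut dir n j rot (σ * τ) (m + m') := by
  refine ⟨fun u => ?_, fun u => ?_, fun u => ?_⟩
  · obtain ⟨k, h1, h2⟩ := h.1 (τ u)
    obtain ⟨k', h3, h4⟩ := h'.1 u
    refine ⟨k + k', by rw [show m + m' - (k + k') = m - k + (m' - k') by ring]; exact h1.add h3,
      fun v hv => ?_⟩
    rw [Equiv.Perm.mul_apply, Equiv.Perm.mul_apply, h2 _ (τ.injective.ne hv), h4 v hv]
    ring
  · rw [Equiv.Perm.mul_apply, (h.2.1 _).1, (h.2.1 _).2]
    exact h'.2.1 u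
  · rw [Equiv.Perm.mul_apply, h.2.2, h'.2.2]
    group

theorem IsAut.inv {σ : Equiv.Perm V} {m : ℤ} (h : IsAut dir n j rot σ m) :
    IsAut dir n j rot σ⁻¹ (-m) := by
  have hh : ∀ x, σ (σ⁻¹ x) = x := fun x => by simp
  refine ⟨fun u => ?_, fun u => ?_, fun u => ?_⟩
  · obtain ⟨k, h1, h2⟩ := h.1 (σ⁻¹ u)
    refine ⟨-k, by rw [show -m - -k = -(m - k) by ring]; exact h1.neg, fun v hv => ?_⟩
    have := h2 (σ⁻¹ v) (σ⁻¹.injective.ne hv)
    simp only [hh] at this
    omega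
  · have := h.2.1 (σ⁻¹ u)
    simp only [hh] at this
    exact ⟨this.1.symm, this.2.symm⟩
  · have := h.2.2 (σ⁻¹ u)
    simp only [hh] at this
    rw [this]
    group

end

end Pool.Agent.Work.MP_3d425c_gt.Bor
end

-- merged part: Pool.Agent.Work.MP_3d425c_gt.PAQ1
section
/-! The counting function of a tree with several types of rotation centres. -/

namespace Pool.Agent.Work.MP_3d425c_gt.Bor
open Classical

/-- An invariant counting function with small defect gives an action on a linear order. -/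
theorem order_of_count' {Γ M : Type} [Group Γ] [MulAction Γ M] (W : M → M → ℤ)
    (inv : ∀ (x : Γ) g h, W (x • g) (x • h) = W g h) (anti : ∀ g h, W h g = -W g h)
    (defect : ∀ g h m, W g h + W h m + W m g ≤ 1)
    (zero : ∀ g h, W g h = 0 → ∀ x, W g x = W h x) :
    ∃ (Ω : Type) (_ : LinearOrder Ω) (ρ : Γ →* (Ω ≃o Ω)),
      ∀ g, ρ g = 1 ↔ ∀ h, W h (g • h) = 0 := by
  have self : ∀ g, W g g = 0 := fun g => by have := anti g g; omega
  let s : Setoid M := ⟨fun g h => W g h = 0, self, fun {g h} e => by rw [anti, e, neg_zero],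
    fun {g h m} e e' => by rw [zero g h e, e']⟩
  have wd : ∀ g h g' h', W g g' = 0 → W h h' = 0 → W g h = W g' h' := fun g h g' h' e e' => by
    rw [zero g g' e, anti h g', zero h h' e', ← anti]
  let lt : Quotient s → Quotient s → Prop :=
    Quotient.lift₂ (fun g h => 0 < W g h) fun g h g' h' e e' => by rw [wd g h g' h' e e']
  haveI : IsStrictTotalOrder (Quotient s) lt :=
    { trichotomous := fun a b => Quotient.inductionOn₂ a b fun g h h1 h2 => Quotient.sound (by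
        have h1' : ¬ 0 < W g h := h1
        have h2' : ¬ 0 < W h g := h2
        have := anti g h
        show W g h = 0
        omega)
      irrefl := fun a => Quotient.inductionOn a fun g h => by
        have h' : 0 < W g g := h
        rw [self] at h'
        exact lt_irrefl _ h'
      trans := fun a b c => Quotient.inductionOn₃ a b c fun g h m h1 h2 => by
        have h1' : 0 < W g h := h1
        have h2' : 0 < W h m := h2
        have := defect g h m
        have := anti g m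
        show 0 < W g m
        omega }
  letI : LinearOrder (Quotient s) := linearOrderOfSTO lt
  let act : Γ → Quotient s → Quotient s := fun x =>
    Quotient.map (fun g => x • g) fun g h (e : W g h = 0) => (inv x g h).trans e
  have act_mul : ∀ x y a, act (x * y) a = act x (act y a) := fun x y a =>
    Quotient.inductionOn a fun g => congrArg (Quotient.mk s) (mul_smul x y g)
  have act_one : ∀ a, act 1 a = a := fun a =>
    Quotient.inductionOn a fun g => congrArg (Quotient.mk s) (one_smul Γ g)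
  have mono : ∀ x, StrictMono (act x) := fun x a b =>
    Quotient.inductionOn₂ a b fun g h (e : 0 < W g h) => (show 0 < W (x • g) (x • h) by
      rw [inv]; exact e)
  let iso : Γ → Quotient s ≃o Quotient s := fun x => (mono x).orderIsoOfRightInverse _ (act x⁻¹)
    fun a => by rw [← act_mul, mul_inv_cancel, act_one]
  refine ⟨Quotient s, inferInstance, MonoidHom.mk' iso fun x y => ?_, fun g => ⟨fun e h => ?_,
    fun e => ?_⟩⟩
  · ext a
    exact act_mul x y a
  · have : act g (Quotient.mk s h) = Quotient.mk s h := DFunLike.congr_fun e (Quotient.mk s h)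
    exact Quotient.exact this.symm
  · ext a
    exact Quotient.inductionOn a fun h => (Quotient.sound (e h)).symm

namespace QM
variable {Γ V : Type} [Group Γ] [MulAction Γ V] (S : QM Γ V)

theorem e_one : S.e 1 = 0 := by have := S.e_mul 1 1; rw [mul_one] at this; omega

theorem c_one (u : V) : S.c 1 u = 0 := by
  have := S.c_mul 1 1 u
  rw [mul_one, one_smul] at this
  omega

/-- Marked points. -/
structure Mk (_S : QM Γ V) where
  pos : V
  a : ℤ
  b : ℤ

instance : MulAction Γ S.Mk where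
  smul g m := ⟨g • m.pos, S.e g + m.a, S.c g m.pos + m.b⟩
  one_smul m := by
    show (⟨1 • m.pos, S.e 1 + m.a, S.c 1 m.pos + m.b⟩ : S.Mk) = m
    rw [one_smul, S.e_one, S.c_one, zero_add, zero_add]
  mul_smul g h m := by
    show (⟨(g * h) • m.pos, S.e (g * h) + m.a, S.c (g * h) m.pos + m.b⟩ : S.Mk) =
      ⟨g • h • m.pos, S.e g + (S.e h + m.a), S.c g (h • m.pos) + (S.c h m.pos + m.b)⟩
    rw [mul_smul, S.e_mul, S.c_mul, add_assoc, add_assoc]

theorem smul_pos (g : Γ) (m : S.Mk) : (g • m).pos = g • m.pos := rfl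

theorem smul_a (g : Γ) (m : S.Mk) : (g • m).a = S.e g + m.a := rfl

theorem smul_b (g : Γ) (m : S.Mk) : (g • m).b = S.c g m.pos + m.b := rfl

theorem exists_mk (w : V) : ∃ m : S.Mk, m.pos = w := ⟨⟨w, 0, 0⟩, rfl⟩

/-- Position of the marked point `g` seen from `u`. -/
noncomputable def P (u : V) (g : S.Mk) : ℤ :=
  if g.pos = u then 2 * (S.n u * g.a - (S.n u - 2 * S.j u) * g.b)
  else 4 * S.j u * S.dir u g.pos + 1

/-- Index of the marked point `g` seen from `u`. -/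
noncomputable def idx (u : V) (g : S.Mk) : ℤ :=
  if g.pos = u then g.a else S.dir u g.pos

/-- Local contribution. -/
noncomputable def loc (u : V) (g h : S.Mk) : ℤ :=
  rr (4 * S.n u) (S.P u h - S.P u g) - (S.idx u h - S.idx u g)

/-- The counting function. -/
noncomputable def W (g h : S.Mk) : ℤ := h.a - g.a + ∑ᶠ u, S.loc u g h

/-- Both points are seen in one direction. -/
def Same (u : V) (g h : S.Mk) : Prop :=
  g.pos ≠ u ∧ h.pos ≠ u ∧ S.dir u g.pos = S.dir u h.pos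

theorem n3 (u : V) : 3 ≤ S.n u := S.h3 u

theorem L_pos (u : V) : 0 < 4 * S.n u := by have := S.n3 u; omega

theorem P_at {u : V} {g : S.Mk} (h : g.pos = u) :
    S.P u g = 2 * (S.n u * g.a - (S.n u - 2 * S.j u) * g.b) := if_pos h

theorem P_off {u : V} {g : S.Mk} (h : g.pos ≠ u) :
    S.P u g = 4 * S.j u * S.dir u g.pos + 1 := if_neg h

theorem idx_at {u : V} {g : S.Mk} (h : g.pos = u) : S.idx u g = g.a := if_pos h

theorem idx_off {u : V} {g : S.Mk} (h : g.pos ≠ u) : S.idx u g = S.dir u g.pos := if_neg h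

variable {S}

theorem Same.P_eq {u : V} {g h : S.Mk} (s : S.Same u g h) : S.P u g = S.P u h := by
  rw [S.P_off s.1, S.P_off s.2.1, s.2.2]

theorem Same.idx_eq {u : V} {g h : S.Mk} (s : S.Same u g h) : S.idx u g = S.idx u h := by
  rw [S.idx_off s.1, S.idx_off s.2.1, s.2.2]

theorem Same.symm {u : V} {g h : S.Mk} (s : S.Same u g h) : S.Same u h g :=
  ⟨s.2.1, s.1, s.2.2.symm⟩

variable (S)

theorem loc_anti (u : V) (g h : S.Mk) : S.loc u h g = -S.loc u g h := by
  unfold loc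
  rw [← neg_sub (S.P u h), rr_neg]
  ring

theorem loc_small {u : V} {g h : S.Mk} (h1 : g.pos ≠ u) (h2 : h.pos ≠ u)
    (h3 : |S.dir u h.pos - S.dir u g.pos| ≤ 1) : S.loc u g h = 0 := by
  unfold loc
  rw [S.P_off h1, S.P_off h2, S.idx_off h1, S.idx_off h2]
  have r1 : rr (4 * S.n u) (4 * S.j u) = 1 :=
    rr_of_mem (by have := S.j_pos u; omega) (by have := S.j_lt u; omega)
  rw [show ∀ x y : ℤ, 4 * S.j u * x + 1 - (4 * S.j u * y + 1) =
    4 * S.j u * (x - y) by intro x y; ring]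
  generalize S.dir u h.pos - S.dir u g.pos = t at h3 ⊢
  obtain rfl | rfl | rfl : t = -1 ∨ t = 0 ∨ t = 1 := by have := abs_le.1 h3; omega
  · rw [mul_neg, mul_one, rr_neg, r1]; rfl
  · rw [mul_zero, rr_zero]; rfl
  · rw [mul_one, r1]; rfl

theorem loc_finite (g h : S.Mk) : (Function.support fun u => S.loc u g h).Finite := by
  have key : {u | g.pos ≠ u ∧ h.pos ≠ u ∧
      ¬ |S.dir u h.pos - S.dir u g.pos| ≤ 1}.Finite := by
    by_cases e : g.pos = h.pos
    · exact Set.Finite.subset Set.finite_empty fun u hu => hu.2.2 (by rw [e]; simp)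
    · exact (S.geo _ _ e).finite S.t1
  refine ((key.insert g.pos).insert h.pos).subset fun u hu => ?_
  by_contra hn
  simp only [Set.mem_insert_iff, Set.mem_setOf_eq, not_or, not_and, not_not] at hn
  exact hu (S.loc_small (Ne.symm hn.2.1) (Ne.symm hn.1) (hn.2.2 (Ne.symm hn.2.1) (Ne.symm hn.1)))

theorem W_anti (g h : S.Mk) : S.W h g = -S.W g h := by
  unfold W
  simp only [S.loc_anti _ g h, finsum_neg_distrib]
  ring

theorem loc_smul (x : Γ) (u : V) (g h : S.Mk) : S.loc (x • u) (x • g) (x • h) = S.loc u g h := by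
  obtain ⟨r, hr⟩ := S.par x u
  have key : ∀ g : S.Mk, S.P (x • u) (x • g) = S.P u g + 4 * S.j u * S.c x u +
      4 * S.n u * (if g.pos = u then r else 0) ∧
      S.idx (x • u) (x • g) = S.idx u g + S.c x u + 2 * (if g.pos = u then r else 0) := by
    intro g
    by_cases e : g.pos = u
    · have e' : (x • g).pos = x • u := by rw [S.smul_pos, e]
      rw [S.P_at e, S.P_at e', S.idx_at e, S.idx_at e', if_pos e, S.smul_a, S.smul_b, e,
        S.n_smul, S.j_smul, show S.e x = S.c x u + 2 * r by omega]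
      constructor <;> ring
    · have e' : (x • g).pos ≠ x • u := fun h => e (MulAction.injective x h)
      rw [S.P_off e, S.P_off e', S.idx_off e, S.idx_off e', if_neg e, S.smul_pos,
        S.equiv x u _ e, S.j_smul]
      constructor <;> ring
  unfold loc
  rw [(key g).1, (key g).2, (key h).1, (key h).2, S.n_smul]
  generalize (if g.pos = u then r else 0) = a
  generalize (if h.pos = u then r else 0) = b
  rw [show ∀ x y z : ℤ, x + z + 4 * S.n u * b - (y + z + 4 * S.n u * a) =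
    x - y + 4 * S.n u * (b - a) by intro x y z; ring, rr_add_mul (S.L_pos u)]
  ring

theorem W_smul (x : Γ) (g h : S.Mk) : S.W (x • g) (x • h) = S.W g h := by
  unfold W
  rw [S.smul_a, S.smul_a, ← finsum_comp_equiv (MulAction.toPerm x)]
  simp only [MulAction.toPerm_apply, S.loc_smul]
  ring

/-- The local defect. -/
noncomputable def df (u : V) (g h m : S.Mk) : ℤ :=
  rr (4 * S.n u) (S.P u h - S.P u g) + rr (4 * S.n u) (S.P u m - S.P u h) +
    rr (4 * S.n u) (S.P u g - S.P u m)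

theorem W_sum (g h m : S.Mk) : S.W g h + S.W h m + S.W m g = ∑ᶠ u, S.df u g h m := by
  have : ∀ u, S.df u g h m = S.loc u g h + S.loc u h m + S.loc u m g := fun u => by
    unfold df loc
    ring
  simp only [this]
  rw [finsum_add_distrib _ (S.loc_finite m g), finsum_add_distrib (S.loc_finite g h)
    (S.loc_finite h m)]
  · unfold W
    ring
  · exact ((S.loc_finite g h).union (S.loc_finite h m)).subset (Function.support_add _ _)

theorem df_eq_zero {u : V} {g h m : S.Mk} (s : S.Same u g h ∨ S.Same u h m ∨ S.Same u m g) :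
    S.df u g h m = 0 := by
  unfold df
  rcases s with s | s | s <;> rw [s.P_eq, sub_self, rr_zero]
  · rw [← neg_sub (S.P u m), rr_neg]; ring
  · rw [← neg_sub (S.P u m), rr_neg]; ring
  · rw [← neg_sub (S.P u g), rr_neg]; ring

theorem same_of_active {w u : V} {g h m : S.Mk} (h1 : ¬ S.Same w g h) (h2 : ¬ S.Same w h m)
    (h3 : ¬ S.Same w m g) (hu : u ≠ w) : S.Same u g h ∨ S.Same u h m ∨ S.Same u m g := by
  have key : ∀ x y : S.Mk, (x.pos = w ∨ S.dir w x.pos ≠ S.dir w u) →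
      (y.pos = w ∨ S.dir w y.pos ≠ S.dir w u) → S.Same u x y := fun x y hx hy =>
    ⟨(S.t1.key hu hx).1, (S.t1.key hu hy).1, (S.t1.key hu hx).2.trans (S.t1.key hu hy).2.symm⟩
  have k2 : ∀ x y : S.Mk, ¬ S.Same w x y → ¬ (x.pos = w ∨ S.dir w x.pos ≠ S.dir w u) →
      (y.pos = w ∨ S.dir w y.pos ≠ S.dir w u) := fun x y hs hx => by
    by_contra hy
    push Not at hx hy
    exact hs ⟨hx.1, hy.1, hx.2.trans hy.2.symm⟩
  by_cases a : g.pos = w ∨ S.dir w g.pos ≠ S.dir w u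
  · by_cases b : h.pos = w ∨ S.dir w h.pos ≠ S.dir w u
    · exact Or.inl (key g h a b)
    · exact Or.inr (Or.inr (key m g (k2 h m h2 b) a))
  · exact Or.inr (Or.inl (key h m (k2 g h h1 a) (k2 g m (fun s => h3 s.symm) a)))

theorem W_active {w : V} {g h m : S.Mk} (h1 : ¬ S.Same w g h) (h2 : ¬ S.Same w h m)
    (h3 : ¬ S.Same w m g) : S.W g h + S.W h m + S.W m g = S.df w g h m := by
  rw [S.W_sum]
  exact finsum_eq_single _ w fun u hu => S.df_eq_zero (S.same_of_active h1 h2 h3 hu)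

theorem W_defect (g h m : S.Mk) : S.W g h + S.W h m + S.W m g ≤ 1 := by
  by_cases e : ∃ w, ¬ S.Same w g h ∧ ¬ S.Same w h m ∧ ¬ S.Same w m g
  · obtain ⟨w, h1, h2, h3⟩ := e
    rw [S.W_active h1 h2 h3]
    exact rr_defect (S.L_pos w) (by ring)
  · rw [S.W_sum, finsum_eq_zero_of_forall_eq_zero fun u => S.df_eq_zero (by
      by_contra hn
      push Not at hn
      exact e ⟨u, hn⟩)]
    exact zero_le_one

theorem W_same {g h : S.Mk} (e : g.pos = h.pos) :
    S.W g h = rr (4 * S.n g.pos) (S.P g.pos h - S.P g.pos g) := by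
  unfold W
  rw [finsum_eq_single _ g.pos fun u hu => S.loc_small (Ne.symm hu) (e ▸ Ne.symm hu)
    (by rw [e]; simp)]
  unfold loc
  rw [S.idx_at rfl, S.idx_at e.symm]
  ring

/-- Changing the second point without changing its position. -/
theorem W_congr (g : S.Mk) {h h' : S.Mk} (e : h.pos = h'.pos)
    (hP : S.P h.pos h = S.P h.pos h') : S.W g h = S.W g h' := by
  have h1 : S.W h h' = 0 := by rw [S.W_same e, hP, sub_self, rr_zero]
  have h2 : S.W g h + S.W h h' + S.W h' g = 0 := by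
    rw [S.W_sum]
    refine finsum_eq_zero_of_forall_eq_zero fun u => ?_
    by_cases hu : h.pos = u
    · unfold df
      rw [← hu, hP, sub_self, rr_zero, ← neg_sub (S.P _ h'), rr_neg]
      ring
    · exact S.df_eq_zero (Or.inr (Or.inl ⟨hu, e ▸ hu, by rw [e]⟩))
  have := S.W_anti g h'
  omega

theorem rr_odd_of_parity (u : V) {x : ℤ} (h : Odd x) : Odd (rr (4 * S.n u) x) :=
  rr_odd (S.L_pos u) fun ⟨k, hk⟩ => by
    obtain ⟨j, hj⟩ := h
    have : x = 2 * (2 * S.n u * k) := by rw [hk]; ring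
    omega

theorem P_diff_odd {u : V} {g h : S.Mk} (h1 : g.pos = u) (h2 : h.pos ≠ u) :
    Odd (S.P u h - S.P u g) := by
  rw [S.P_at h1, S.P_off h2]
  exact ⟨2 * S.j u * S.dir u h.pos - (S.n u * g.a - (S.n u - 2 * S.j u) * g.b), by ring⟩

/-- No turn between `a` and `b` is a nonzero multiple of `n`. -/
def Red (a b : V) : Prop := RedN S.dir S.n a b

theorem Red.left {a w b : V} (h : S.Red a b) (hw : Btw S.dir a w b) : S.Red a w := by
  intro u h1 h2 h3
  rcases S.t1.split hw (Ne.symm h2) with k | k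
  · exact k.2.symm
  · rw [← k.2] at h3 ⊢
    exact h u h1 k.1 h3

theorem W_odd {a b : V} (hg : Geo S.dir a b) : S.Red a b → ∀ g h : S.Mk, g.pos = a →
    h.pos = b → Odd (S.W g h) := by
  have base : ∀ {a b : V}, Str S.dir a b → ∀ g h : S.Mk, g.pos = a → h.pos = b →
      Odd (S.W g h) := by
    intro a b hs g h e1 e2
    have n1 : h.pos ≠ a := e2 ▸ hs.1.symm
    have n2 : g.pos ≠ b := e1 ▸ hs.1
    unfold W
    rw [finsum_eq_sum_of_support_subset (s := {a, b}) _ fun u hu => by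
      by_contra hn
      simp only [Finset.coe_insert, Finset.coe_singleton, Set.mem_insert_iff,
        Set.mem_singleton_iff, not_or] at hn
      refine hu (S.loc_small (e1 ▸ Ne.symm hn.1) (e2 ▸ Ne.symm hn.2) ?_)
      rw [e1, e2]
      exact hs.2.2 u (Ne.symm hn.1) (Ne.symm hn.2), Finset.sum_pair hs.1]
    unfold loc
    obtain ⟨i, hi⟩ := S.rr_odd_of_parity a (S.P_diff_odd e1 n1)
    obtain ⟨j, hj⟩ := S.rr_odd_of_parity b (S.P_diff_odd e2 n2)
    obtain ⟨k, hk⟩ := hs.2.1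
    rw [← neg_sub (S.P b g), rr_neg, hi, hj, S.idx_at e1, S.idx_at e2, S.idx_off n1, S.idx_off n2,
      e1, e2, Int.odd_iff]
    omega
  induction hg with
  | base h => exact fun _ => base h
  | @step w b _ h2 h3 ih =>
    intro hr g h e1 e2
    obtain ⟨m, e3⟩ := S.exists_mk w
    have n1 : g.pos ≠ w := e1 ▸ h3.1
    have n2 : h.pos ≠ w := e2 ▸ h3.2.1
    have key := S.W_active (w := w) (g := g) (h := m) (m := h) (fun s => s.2.1 e3)
      (fun s => s.1 e3) fun s => h3.2.2 (by rw [← e1, ← e2]; exact s.2.2.symm)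
    obtain ⟨i, hi⟩ := ih (hr.left S h3) g m e1 e3
    obtain ⟨j, hj⟩ := base h2 m h e3 e2
    obtain ⟨k, hk⟩ := S.rr_odd_of_parity w (S.P_diff_odd e3 n1)
    obtain ⟨l, hl⟩ := S.rr_odd_of_parity w (S.P_diff_odd e3 n2)
    obtain ⟨o, ho⟩ : Odd (rr (4 * S.n w) (S.P w g - S.P w h)) := by
      refine rr_odd (S.L_pos w) fun hd => h3.2.2 (hr w h3.1 h3.2.1 ?_).symm
      rw [S.P_off n1, S.P_off n2, e1, e2, show ∀ x y : ℤ, 4 * S.j w * x + 1 -
        (4 * S.j w * y + 1) = 4 * (S.j w * -(y - x)) by intro x y; ring] at hd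
      exact (dvd_neg.1 ((S.cop w).dvd_of_dvd_mul_left
        (Int.dvd_of_mul_dvd_mul_left (by norm_num) hd)))
    unfold df at key
    rw [← neg_sub (S.P w g), rr_neg, hi, hj, hk, hl, ho, S.W_anti g h] at key
    rw [Int.odd_iff]
    omega

end QM

end Pool.Agent.Work.MP_3d425c_gt.Bor
end

-- merged part: Pool.Agent.Work.MP_3d425c_gt.PAQ2
section
/-! The quotient order for several types of rotation centres. -/

namespace Pool.Agent.Work.MP_3d425c_gt.Bor
open Classical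

namespace QM
variable {Γ V : Type} [Group Γ] [MulAction Γ V] (S : QM Γ V)

theorem rot_spec (w : V) (i : ℤ) : S.rot w ^ i • w = w ∧ S.c (S.rot w ^ i) w = i * S.n w ∧
    S.e (S.rot w ^ i) = i * (S.n w - 2 * S.j w) := by
  have h1 := S.rot_fix w
  have h2 := S.c_rot w
  have h3 := S.e_rot w
  induction i using Int.induction_on with
  | zero => simp [S.c_one, S.e_one]
  | succ i ih =>
    rw [zpow_add_one, mul_smul, S.c_mul, S.e_mul, h1, h2, h3, ih.1, ih.2.1, ih.2.2]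
    exact ⟨rfl, by ring, by ring⟩
  | pred i ih =>
    have e : S.rot w ^ (-(i : ℤ)) = S.rot w ^ (-(i : ℤ) - 1) * S.rot w := by
      rw [← zpow_add_one]; simp
    rw [e, mul_smul, S.c_mul, S.e_mul, h1, h2, h3] at ih
    exact ⟨ih.1, by linarith [ih.2.1], by linarith [ih.2.2]⟩

theorem rot_ne {w y : V} (i : ℤ) (h : y ≠ w) : S.rot w ^ i • y ≠ w := fun e =>
  h (MulAction.injective (S.rot w ^ i) (e.trans (S.rot_spec w i).1.symm))

theorem dir_rot {w y : V} (i : ℤ) (h : y ≠ w) :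
    S.dir w (S.rot w ^ i • y) = S.dir w y + i * S.n w := by
  conv_lhs => rw [← (S.rot_spec w i).1]
  rw [(S.rot_spec w i).1, ← (S.rot_spec w i).2.1, ← S.equiv _ _ _ h, (S.rot_spec w i).1]

theorem W_rot_right (g h : S.Mk) (i : ℤ) : S.W g (S.rot h.pos ^ i • h) = S.W g h := by
  have e : (S.rot h.pos ^ i • h).pos = h.pos := (S.rot_spec _ i).1
  refine (S.W_congr g e.symm ?_).symm
  rw [S.P_at rfl, S.P_at e, S.smul_a, S.smul_b, (S.rot_spec _ i).2.1, (S.rot_spec _ i).2.2]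
  ring

theorem W_rot_left (g h : S.Mk) (i : ℤ) : S.W g (S.rot g.pos ^ i • h) = S.W g h := by
  rw [← S.W_smul (S.rot g.pos ^ (-i)), ← mul_smul, ← zpow_add, neg_add_cancel, zpow_zero,
    one_smul, S.W_anti, S.W_rot_right, ← S.W_anti]

theorem W_rot_btw {g h : S.Mk} {w : V} {i : ℤ} (h1 : Btw S.dir g.pos w h.pos)
    (h2 : S.dir w g.pos ≠ S.dir w h.pos + i * S.n w) :
    S.W g (S.rot w ^ i • h) = S.W g h := by
  obtain ⟨m, rfl⟩ := S.exists_mk w
  have n1 : (S.rot m.pos ^ i • h).pos ≠ m.pos := S.rot_ne i h1.2.1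
  have d1 : S.dir m.pos (S.rot m.pos ^ i • h).pos =
      S.dir m.pos h.pos + i * S.n m.pos := S.dir_rot i h1.2.1
  have k1 := S.W_active (w := m.pos) (g := g) (h := m) (m := h) (fun s => s.2.1 rfl)
    (fun s => s.1 rfl) fun s => h1.2.2 s.2.2.symm
  have k2 := S.W_active (w := m.pos) (g := g) (h := m) (m := S.rot m.pos ^ i • h)
    (fun s => s.2.1 rfl) (fun s => s.1 rfl) fun s => h2 (s.2.2.symm.trans d1)
  have k3 : S.P m.pos (S.rot m.pos ^ i • h) =
      S.P m.pos h + 4 * S.n m.pos * (S.j m.pos * i) := by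
    rw [S.P_off n1, S.P_off h1.2.1, d1]
    ring
  unfold df at k1 k2
  rw [k3, S.W_rot_left, show ∀ x y z : ℤ, x + z - y = x - y + z by intro x y z; ring,
    show ∀ x y z : ℤ, x - (y + 4 * S.n m.pos * z) = x - y + 4 * S.n m.pos * -z by
      intro x y z; ring,
    rr_add_mul (S.L_pos _), rr_add_mul (S.L_pos _)] at k2
  rw [S.W_anti, S.W_anti h g]
  omega

/-- The subgroup generated by all rotations. -/
def N : Subgroup Γ := Subgroup.closure (Set.range S.rot)

theorem rot_mem (w : V) (i : ℤ) : S.rot w ^ i ∈ S.N :=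
  S.N.zpow_mem (Subgroup.subset_closure ⟨w, rfl⟩) i

theorem conj_mem (x : Γ) {k : Γ} (h : k ∈ S.N) : x * k * x⁻¹ ∈ S.N := by
  induction h using Subgroup.closure_induction with
  | mem k hk =>
    obtain ⟨w, rfl⟩ := hk
    rw [← S.rot_smul]
    exact Subgroup.subset_closure ⟨_, rfl⟩
  | one => simp
  | mul a b _ _ ha hb =>
    rw [show x * (a * b) * x⁻¹ = x * a * x⁻¹ * (x * b * x⁻¹) by group]
    exact S.N.mul_mem ha hb
  | inv a _ ha =>
    rw [show x * a⁻¹ * x⁻¹ = (x * a * x⁻¹)⁻¹ by group]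
    exact S.N.inv_mem ha

/-- The window of directions at `w` for the root `a`. -/
def win (a w : V) (t : ℤ) : Prop :=
  (if w = a then 0 else S.dir w a - 1) ≤ t ∧ t < (if w = a then 0 else S.dir w a - 1) + S.n w

/-- The fundamental domain. -/
def D (a y : V) : Prop := ∀ u, y ≠ u → S.win a u (S.dir u y)

theorem exists_win (a w : V) (t : ℤ) : ∃ i : ℤ, S.win a w (t + i * S.n w) := by
  unfold win
  generalize (if w = a then 0 else S.dir w a - 1) = l
  have h := S.n3 w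
  have h1 := Int.emod_add_mul_ediv (t - l) (S.n w)
  have h2 := Int.emod_nonneg (t - l) (show S.n w ≠ 0 by omega)
  have h3 := Int.emod_lt_of_pos (t - l) (show 0 < S.n w by omega)
  refine ⟨-((t - l) / S.n w), ?_, ?_⟩ <;> linarith

theorem win_eq {a w : V} {t t' : ℤ} (h : S.win a w t) (h' : S.win a w t')
    (hd : S.n w ∣ t' - t) : t' = t := by
  have := Int.eq_zero_of_abs_lt_dvd hd (abs_lt.2 ⟨by linarith [h.2, h'.1], by linarith [h.1, h'.2]⟩)
  omega

theorem win_near {a w : V} (h : w ≠ a) {t : ℤ} (ht : |t - S.dir w a| ≤ 1) : S.win a w t := by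
  have := S.n3 w
  have := abs_le.1 ht
  unfold win
  rw [if_neg h]
  omega

theorem D_root (a : V) : S.D a a := fun u hu => S.win_near hu.symm (by simp)

theorem D.red {a y y' : V} (h : S.D a y) (h' : S.D a y') : S.Red y y' := fun u h1 h2 h3 =>
  S.win_eq (h u h1) (h' u h2) h3

theorem D.btw {a u y : V} (h : S.D a y) (hb : Btw S.dir a u y) : S.D a u := by
  intro x hx
  rcases S.t1.split hb hx.symm with k | k
  · exact S.win_near k.1.symm (by rw [k.2]; simp)
  · exact k.2 ▸ h x k.1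

theorem Str_smul (g : Γ) {a b : V} (h : Str S.dir a b) : Str S.dir (g • a) (g • b) := by
  refine ⟨fun e => h.1 (MulAction.injective g e), ?_, fun u h1 h2 => ?_⟩
  · rw [S.equiv g a b h.1.symm, S.equiv g b a h.1]
    obtain ⟨i, hi⟩ := h.2.1
    obtain ⟨j, hj⟩ := S.par g a
    obtain ⟨k, hk⟩ := S.par g b
    rw [Int.odd_iff]
    omega
  · obtain ⟨u, rfl⟩ := MulAction.surjective g u
    have h3 : a ≠ u := fun e => h1 (by rw [e])
    have h4 : b ≠ u := fun e => h2 (by rw [e])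
    simp only at *
    rw [S.equiv g u a h3, S.equiv g u b h4, add_sub_add_right_eq_sub]
    exact h.2.2 u h3 h4

theorem Btw_smul (g : Γ) {a u b : V} (h : Btw S.dir a u b) :
    Btw S.dir (g • a) (g • u) (g • b) :=
  ⟨fun e => h.1 (MulAction.injective g e), fun e => h.2.1 (MulAction.injective g e), by
    rw [S.equiv g u a h.1, S.equiv g u b h.2.1]
    exact fun e => h.2.2 (add_right_cancel e)⟩

/-- A point with small turns from a point of the domain, leaving it in an outward direction. -/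
theorem D_of_out {a u x : V} (hu : S.D a u) (hx : x ≠ u) (hw : S.win a u (S.dir u x))
    (hb : u = a ∨ S.dir u a ≠ S.dir u x)
    (hs : ∀ v, u ≠ v → x ≠ v → |S.dir v x - S.dir v u| ≤ 1) : S.D a x := by
  intro v hv
  by_cases e : v = u
  · exact e ▸ hw
  by_cases e' : u = a
  · subst e'
    exact S.win_near e (hs v (Ne.symm e) hv)
  rcases S.t1.split ⟨Ne.symm e', hx, hb.resolve_left e'⟩ e with k | k
  · exact S.win_near k.1.symm (k.2 ▸ hs v (Ne.symm e) hv)
  · exact k.2 ▸ hu v (Ne.symm e)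

theorem small_rot {y u x : V} (hs : Str S.dir y x) (hb : Btw S.dir y u x) (i : ℤ) :
    ∀ v, u ≠ v → S.rot u ^ i • x ≠ v → |S.dir v (S.rot u ^ i • x) - S.dir v u| ≤ 1 := by
  intro v h1 h2
  obtain ⟨v, rfl⟩ := MulAction.surjective (S.rot u ^ i) v
  have h3 : u ≠ v := fun e => h1 (by rw [← e]; exact (S.rot_spec u i).1.symm)
  have h4 : x ≠ v := fun e => h2 (by rw [e])
  simp only at *
  have h5 := S.equiv (S.rot u ^ i) v u h3
  rw [(S.rot_spec u i).1] at h5
  rw [S.equiv _ v x h4, h5, add_sub_add_right_eq_sub]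
  rcases S.t1.split hb h3.symm with k | k
  · exact k.2 ▸ hs.2.2 v k.1 h4
  · rw [k.2]; simp

/-- The subgroup generated by the rotations about points of the domain. -/
def ND (a : V) : Subgroup Γ := Subgroup.closure (S.rot '' {w | S.D a w})

theorem rot_mem_ND {a w : V} (h : S.D a w) (i : ℤ) : S.rot w ^ i ∈ S.ND a :=
  (S.ND a).zpow_mem (Subgroup.subset_closure ⟨w, h, rfl⟩) i

theorem exists_D_step {a y x : V} (hy : S.D a y) (hs : Str S.dir y x) :
    ∃ k ∈ S.ND a, S.D a (k • x) := by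
  obtain ⟨i, hi⟩ := S.exists_win a y (S.dir y x)
  have s1 := S.Str_smul (S.rot y ^ i) hs
  rw [(S.rot_spec y i).1] at s1
  rw [← S.dir_rot i hs.1.symm] at hi
  by_cases hD : S.D a (S.rot y ^ i • x)
  · exact ⟨_, S.rot_mem_ND hy i, hD⟩
  simp only [D, not_forall] at hD
  obtain ⟨u, h1, h2⟩ := hD
  have h3 : y ≠ u := fun e => h2 (e ▸ hi)
  have hb : Btw S.dir y u (S.rot y ^ i • x) := ⟨h3, h1, fun e => h2 (e ▸ hy u h3)⟩
  have h4 := abs_le.1 (s1.2.2 u h3 h1)
  obtain ⟨j, hj⟩ := S.exists_win a u (S.dir u (S.rot y ^ i • x))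
  have hu : S.D a u ∧ (u = a ∨ S.dir u a ≠ S.dir u (S.rot y ^ i • x) + j * S.n u) := by
    by_cases e : u = a
    · exact ⟨e ▸ S.D_root a, Or.inl e⟩
    have h5 : S.dir u a ≠ S.dir u y := fun e' => h2 (S.win_near e (e' ▸ s1.2.2 u h3 h1))
    refine ⟨hy.btw S ⟨Ne.symm e, h3, h5⟩, Or.inr fun e' => h2 ?_⟩
    have h6 := hy u h3
    have h7 := S.n3 u
    unfold win at h6
    rw [if_neg e] at h6
    have := Int.eq_zero_of_abs_lt_dvd (m := S.n u) (x := S.dir u (S.rot y ^ i • x) - S.dir u a)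
      ⟨-j, by rw [e']; ring⟩ (abs_lt.2 ⟨by omega, by omega⟩)
    exact S.win_near e (by rw [this]; simp)
  refine ⟨S.rot u ^ j * S.rot y ^ i, (S.ND a).mul_mem (S.rot_mem_ND hu.1 j) (S.rot_mem_ND hy i), ?_⟩
  rw [mul_smul]
  rw [← S.dir_rot j h1] at hj hu
  exact S.D_of_out hu.1 (S.rot_ne j h1) hj hu.2 (S.small_rot s1 hb j)

theorem exists_D (a x : V) : ∃ k ∈ S.ND a, S.D a (k • x) := by
  by_cases e : a = x
  · exact ⟨1, one_mem _, by rw [one_smul, ← e]; exact S.D_root a⟩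
  have h := S.geo a x e
  clear e
  induction h with
  | base h => exact S.exists_D_step (S.D_root a) h
  | step _ h _ ih =>
    obtain ⟨k, h1, h2⟩ := ih
    obtain ⟨k', h3, h4⟩ := S.exists_D_step h2 (S.Str_smul k h)
    exact ⟨k' * k, mul_mem h3 h1, by rw [mul_smul]; exact h4⟩

theorem ND_eq (a : V) : S.ND a = S.N := by
  refine le_antisymm (Subgroup.closure_mono (Set.image_subset_range _ _))
    ((Subgroup.closure_le _).2 ?_)
  rintro _ ⟨v, rfl⟩
  obtain ⟨k, h1, h2⟩ := S.exists_D a v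
  have := S.rot_mem_ND h2 1
  rw [zpow_one, S.rot_smul] at this
  have h3 := mul_mem (mul_mem (inv_mem h1) this) h1
  rwa [show k⁻¹ * (k * S.rot v * k⁻¹) * k = S.rot v by group] at h3

/-- Reduced products of rotations, with first and last centre. -/
inductive PP (a : V) : Γ → V → V → Prop
  | base {w : V} {j : ℤ} : S.D a w → j ≠ 0 → PP a (S.rot w ^ j) w w
  | step {w w' z : V} {j : ℤ} {k : Γ} : S.D a w → j ≠ 0 → w ≠ w' → PP a k w' z →
      PP a (S.rot w ^ j * k) w z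

theorem PP.left {a w z : V} {k : Γ} (h : S.PP a k w z) : S.D a w := by
  cases h <;> assumption

theorem PP.right {a w z : V} {k : Γ} (h : S.PP a k w z) : S.D a z := by
  induction h <;> assumption

theorem out_rot {a w y : V} {j : ℤ} (hj : j ≠ 0) (h1 : y ≠ w) (h2 : S.win a w (S.dir w y)) :
    S.rot w ^ j • y ≠ w ∧ ¬ S.win a w (S.dir w (S.rot w ^ j • y)) := by
  refine ⟨S.rot_ne j h1, fun h => ?_⟩
  rw [S.dir_rot j h1] at h
  have := S.win_eq h2 h ⟨j, by ring⟩
  have h3 := S.n3 w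
  have : j * S.n w = 0 := by omega
  rcases mul_eq_zero.1 this with h | h <;> omega

theorem out_step {a w w' y : V} {j : ℤ} (hw : S.D a w) (hw' : S.D a w') (hj : j ≠ 0)
    (hn : w ≠ w') (h : y ≠ w' ∧ ¬ S.win a w' (S.dir w' y)) :
    S.rot w ^ j • y ≠ w ∧ ¬ S.win a w (S.dir w (S.rot w ^ j • y)) := by
  have hb : Btw S.dir w w' y := ⟨hn, h.1, fun e => h.2 (e ▸ hw w' hn)⟩
  exact S.out_rot hj hb.ne.symm (S.t1.btw hb ▸ hw' w hn.symm)

theorem PP.out {a w z : V} {k : Γ} (h : S.PP a k w z) {y : V} (hy : S.D a y) :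
    (y = z ∧ w = z ∧ ∃ j : ℤ, k = S.rot z ^ j) ∨ (k • y ≠ w ∧ ¬ S.win a w (S.dir w (k • y))) := by
  induction h with
  | @base w j _ hj =>
    by_cases e : y = w
    · exact Or.inl ⟨e, rfl, j, rfl⟩
    · exact Or.inr (S.out_rot hj e (hy w e))
  | @step w w' z j k hw hj hn hk ih =>
    right
    rw [mul_smul]
    rcases ih with ⟨e1, e2, i, e3⟩ | ih
    · rw [e3, e1, (S.rot_spec z i).1]
      exact S.out_rot hj (e2 ▸ hn.symm) (hk.right S w (e2 ▸ hn.symm))
    · exact S.out_step hw (hk.left S) hj hn ih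

theorem exists_PP {a : V} {k : Γ} (h : k ∈ S.ND a) : k = 1 ∨ ∃ w z, S.PP a k w z := by
  have key : ∀ x, S.D a x → ∀ (j : ℤ) (k : Γ), (k = 1 ∨ ∃ w z, S.PP a k w z) →
      (S.rot x ^ j * k = 1 ∨ ∃ w z, S.PP a (S.rot x ^ j * k) w z) := by
    intro x hx j k hk
    by_cases hj : j = 0
    · simpa [hj] using hk
    rcases hk with rfl | ⟨w, z, hk⟩
    · exact Or.inr ⟨x, x, by rw [mul_one]; exact PP.base hx hj⟩
    by_cases e : x = w
    · subst e
      cases hk with
      | @base _ i h1 h2 =>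
        rw [← zpow_add]
        by_cases e : j + i = 0
        · exact Or.inl (by rw [e, zpow_zero])
        · exact Or.inr ⟨x, x, PP.base hx e⟩
      | @step _ w' _ i k h1 h2 h3 h4 =>
        rw [← mul_assoc, ← zpow_add]
        by_cases e : j + i = 0
        · exact Or.inr ⟨w', z, by rw [e, zpow_zero, one_mul]; exact h4⟩
        · exact Or.inr ⟨x, z, PP.step hx e h3 h4⟩
    · exact Or.inr ⟨x, z, PP.step hx hj e hk⟩
  induction h using Subgroup.closure_induction_left with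
  | one => exact Or.inl rfl
  | mul_left x hx k _ ih =>
    obtain ⟨w, hw, rfl⟩ := hx
    simpa using key w hw 1 k ih
  | inv_mul_cancel x hx k _ ih =>
    obtain ⟨w, hw, rfl⟩ := hx
    simpa using key w hw (-1) k ih

theorem W_eq_of_D {g h : S.Mk} {k : Γ} (hk : k ∈ S.N) (h1 : S.D g.pos h.pos)
    (h2 : S.D g.pos (k • h.pos)) : S.W g (k • h) = S.W g h := by
  rw [← S.ND_eq g.pos] at hk
  rcases S.exists_PP hk with rfl | ⟨w, z, hp⟩
  · rw [one_smul]
  rcases hp.out S h1 with ⟨e1, -, j, e⟩ | ⟨e1, e2⟩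
  · rw [e, ← e1, S.W_rot_right]
  · exact absurd (h2 w e1) e2

theorem normalise {g : S.Mk} {b : V} (hg : Geo S.dir g.pos b) : S.Red g.pos b →
    ∃ k ∈ S.N, S.D g.pos (k • b) ∧ g.pos ≠ k • b ∧
      S.dir (k • b) g.pos = S.dir (k • b) (k • g.pos) ∧
      ∀ h : S.Mk, (h.pos = b ∨ Btw S.dir g.pos b h.pos) → S.W g (k • h) = S.W g h := by
  induction hg with
  | @base b h =>
    intro _
    obtain ⟨i, hi⟩ := S.exists_win g.pos g.pos (S.dir g.pos b)
    have s1 := S.Str_smul (S.rot g.pos ^ i) h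
    rw [(S.rot_spec _ i).1] at s1
    rw [← S.dir_rot i h.1.symm] at hi
    exact ⟨_, S.rot_mem _ i, S.D_of_out (S.D_root _) s1.1.symm hi (Or.inl rfl) s1.2.2, s1.1,
      by rw [(S.rot_spec _ i).1], fun h _ => S.W_rot_left g h i⟩
  | @step w b _ hs hb ih =>
    intro hr
    obtain ⟨k, k1, k2, k3, k4, k5⟩ := ih (hr.left S hb)
    have s0 := S.Str_smul k hs
    obtain ⟨i, hi⟩ := S.exists_win g.pos (k • w) (S.dir (k • w) (k • b))
    have s1 := S.Str_smul (S.rot (k • w) ^ i) s0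
    rw [(S.rot_spec _ i).1] at s1
    have hne : ∀ j : ℤ, S.dir (k • w) g.pos ≠ S.dir (k • w) (k • b) + j * S.n (k • w) := by
      intro j e
      rw [k4, S.equiv k w _ hb.1, S.equiv k w _ hb.2.1, S.n_smul] at e
      exact hb.2.2 (hr w hb.1 hb.2.1 ⟨-j, by linarith⟩).symm
    have hd := S.dir_rot i s0.1.symm
    rw [← hd] at hi
    have b1 : Btw S.dir g.pos (k • w) (S.rot (k • w) ^ i • k • b) :=
      ⟨k3, s1.1.symm, hd ▸ hne i⟩
    refine ⟨S.rot (k • w) ^ i * k, mul_mem (S.rot_mem _ i) k1, ?_, ?_, ?_, fun h hh => ?_⟩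
    · rw [mul_smul]
      exact S.D_of_out k2 s1.1.symm hi (Or.inr b1.2.2) s1.2.2
    · rw [mul_smul]
      exact b1.ne
    · have b2 := S.Btw_smul (S.rot (k • w) ^ i * k) hb
      rw [S.t1.btw b2.symm, mul_smul, mul_smul, (S.rot_spec _ i).1, S.t1.btw b1.symm]
    · have b3 : h.pos ≠ w ∧ S.dir w h.pos = S.dir w b := by
        rcases hh with hh | hh
        · rw [hh]
          exact ⟨hb.2.1, rfl⟩
        · exact S.t1.key hs.1 (Or.inr fun e => hh.2.2 ((S.t1.btw hb.symm).trans e.symm))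
      have b4 : S.dir (k • w) (k • h).pos = S.dir (k • w) (k • b) := by
        rw [S.smul_pos, S.equiv k w _ b3.1, S.equiv k w _ hb.2.1, b3.2]
      rw [mul_smul, S.W_rot_btw ⟨k3, fun e => b3.1 (MulAction.injective k e), by
          rw [b4]
          simpa using hne 0⟩ (b4 ▸ hne i)]
      exact k5 h (Or.inr ⟨hb.1, b3.1, b3.2 ▸ hb.2.2⟩)

theorem exists_W_D {g h : S.Mk} (hr : S.Red g.pos h.pos) :
    ∃ k ∈ S.N, S.D g.pos (k • h.pos) ∧ S.W g (k • h) = S.W g h := by
  by_cases e : g.pos = h.pos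
  · exact ⟨1, one_mem _, by rw [one_smul, ← e]; exact S.D_root _, by rw [one_smul]⟩
  · obtain ⟨k, k1, k2, -, -, k5⟩ := S.normalise (S.geo _ _ e) hr
    exact ⟨k, k1, k2, k5 h (Or.inl rfl)⟩

theorem exists_D' (a x : V) : ∃ k, k ∈ S.N ∧ S.D a (k • x) := S.ND_eq a ▸ S.exists_D a x

/-- The counting function on the quotient. -/
noncomputable def Ws (g h : S.Mk) : ℤ := S.W g ((S.exists_D' g.pos h.pos).choose • h)

theorem Ws_eq {g h : S.Mk} {k : Γ} (hk : k ∈ S.N) (hr : S.Red g.pos (k • h.pos)) :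
    S.Ws g h = S.W g (k • h) := by
  obtain ⟨h1, h2⟩ := (S.exists_D' g.pos h.pos).choose_spec
  unfold Ws
  generalize (S.exists_D' g.pos h.pos).choose = k0 at h1 h2
  rw [← S.smul_pos] at hr h2
  obtain ⟨k', k1, k2, k3⟩ := S.exists_W_D hr
  have e : k' • k • h = (k' * k * k0⁻¹) • k0 • h := by rw [mul_smul, mul_smul, inv_smul_smul]
  rw [← k3, e, S.W_eq_of_D (mul_mem (mul_mem k1 hk) (inv_mem h1)) h2]
  rwa [← S.smul_pos, ← e, S.smul_pos]

theorem Red_smul (x : Γ) {a b : V} (h : S.Red a b) : S.Red (x • a) (x • b) := by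
  intro u h1 h2
  obtain ⟨u, rfl⟩ := MulAction.surjective x u
  have h3 : a ≠ u := fun e => h1 (by rw [e])
  have h4 : b ≠ u := fun e => h2 (by rw [e])
  simp only at *
  rw [S.equiv x u a h3, S.equiv x u b h4, add_sub_add_right_eq_sub, S.n_smul]
  exact fun hd => by rw [h u h3 h4 hd]

theorem Red.symm {a b : V} (h : S.Red a b) : S.Red b a := fun u h1 h2 h3 =>
  (h u h2 h1 (by rw [← dvd_neg, neg_sub]; exact h3)).symm

theorem exists_Red (g h : S.Mk) : ∃ k ∈ S.N, S.Red g.pos (k • h.pos) :=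
  let ⟨k, h1, h2⟩ := S.exists_D' g.pos h.pos
  ⟨k, h1, (S.D_root _).red S h2⟩

theorem Ws_smul (x : Γ) (g h : S.Mk) : S.Ws (x • g) (x • h) = S.Ws g h := by
  obtain ⟨k, h1, h2⟩ := S.exists_Red g h
  rw [S.Ws_eq h1 h2, S.Ws_eq (S.conj_mem x h1), ← S.W_smul x g]
  · rw [mul_smul, mul_smul, inv_smul_smul]
  · have := S.Red_smul x h2
    simpa [mul_smul, S.smul_pos] using this

theorem Ws_right {k : Γ} (hk : k ∈ S.N) (g h : S.Mk) : S.Ws g (k • h) = S.Ws g h := by
  obtain ⟨k', h1, h2⟩ := S.exists_Red g (k • h)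
  rw [S.Ws_eq h1 h2, S.Ws_eq (mul_mem h1 hk), mul_smul]
  simpa [mul_smul, S.smul_pos] using h2

theorem Ws_left {k : Γ} (hk : k ∈ S.N) (g h : S.Mk) : S.Ws (k • g) h = S.Ws g h := by
  rw [← S.Ws_smul k⁻¹, inv_smul_smul, S.Ws_right (inv_mem hk)]

theorem Ws_of_red {g h : S.Mk} (hr : S.Red g.pos h.pos) : S.Ws g h = S.W g h := by
  rw [S.Ws_eq (one_mem _) (by rwa [one_smul]), one_smul]

theorem Ws_anti (g h : S.Mk) : S.Ws h g = -S.Ws g h := by
  obtain ⟨k, h1, h2⟩ := S.exists_Red g h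
  rw [← S.smul_pos] at h2
  rw [← S.Ws_left h1, ← S.Ws_right h1 g h, S.Ws_of_red h2, S.Ws_of_red (h2.symm S), S.W_anti]

theorem Ws_defect (g h m : S.Mk) : S.Ws g h + S.Ws h m + S.Ws m g ≤ 1 := by
  obtain ⟨k, h1, h2⟩ := S.exists_D' g.pos h.pos
  obtain ⟨k', h3, h4⟩ := S.exists_D' g.pos m.pos
  rw [← S.smul_pos] at h2 h4
  rw [← S.Ws_right h1 g h, ← S.Ws_left h1 h m, ← S.Ws_right h3 (k • h) m, ← S.Ws_left h3 m g,
    S.Ws_of_red ((S.D_root _).red S h2), S.Ws_of_red (h2.red S h4),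
    S.Ws_of_red (h4.red S (S.D_root _))]
  exact S.W_defect _ _ _

theorem Ws_zero (g h : S.Mk) (h0 : S.Ws g h = 0) (x : S.Mk) : S.Ws g x = S.Ws h x := by
  obtain ⟨k, h1, h2⟩ := S.exists_Red g h
  rw [← S.smul_pos] at h2
  rw [← S.Ws_right h1, S.Ws_of_red h2] at h0
  rw [← S.Ws_left h1 h, S.Ws_anti x g, S.Ws_anti x (k • h)]
  generalize k • h = h' at h0 h2
  have e : g.pos = h'.pos := by
    by_contra e
    have := S.W_odd (S.geo _ _ e) h2 g h' rfl rfl
    rw [h0] at this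
    simp at this
  rw [S.W_same e] at h0
  have h3 := rr_eq_zero (S.L_pos _) h0
  obtain ⟨k', h4, h5⟩ := S.exists_Red g x
  rw [← S.smul_pos] at h5
  rw [← S.Ws_left h4 x g, ← S.Ws_left h4 x h', S.Ws_of_red (h5.symm S),
    S.Ws_of_red (e ▸ h5.symm S), S.W_congr _ e (by omega)]

end QM

theorem QM.exists_order {Γ V : Type} [Group Γ] [MulAction Γ V] (S : QM Γ V) :
    ∃ (Ω : Type) (_ : LinearOrder Ω) (ρ : Γ →* (Ω ≃o Ω)), (∀ w, ρ (S.rot w) = 1) ∧
      (∀ (g : Γ) (v : V), g • v ≠ v → RedN S.dir S.n v (g • v) → ρ g ≠ 1) ∧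
      ∀ (g : Γ) (v : V), ρ g = 1 → ∃ k ∈ Subgroup.closure (Set.range S.rot), k • g • v = v := by
  obtain ⟨Ω, _, ρ, h⟩ := order_of_count' S.Ws S.Ws_smul S.Ws_anti S.Ws_defect S.Ws_zero
  refine ⟨Ω, inferInstance, ρ, fun w => (h _).2 fun g => ?_, fun g v h1 h2 h3 => ?_,
    fun g v h3 => ?_⟩
  · have : S.rot w ∈ S.N := Subgroup.subset_closure ⟨w, rfl⟩
    rw [S.Ws_right this]
    have := S.Ws_anti g g
    omega
  · obtain ⟨m, rfl⟩ := S.exists_mk v
    have h5 := (h g).1 h3 m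
    rw [S.Ws_of_red (g := m) (h := g • m) h2] at h5
    have := S.W_odd (S.geo _ _ h1.symm) h2 m (g • m) rfl rfl
    rw [h5] at this
    simp at this
  · obtain ⟨m, rfl⟩ := S.exists_mk v
    have h5 := (h g).1 h3 m
    obtain ⟨k, k1, k2⟩ := S.exists_Red m (g • m)
    refine ⟨k, k1, ?_⟩
    by_contra hn
    rw [S.Ws_eq k1 k2] at h5
    have := S.W_odd (S.geo _ _ (Ne.symm hn)) k2 m (k • g • m) rfl rfl
    rw [h5] at this
    simp at this

end Pool.Agent.Work.MP_3d425c_gt.Bor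
end

-- merged part: Pool.Agent.Work.MP_3d425c_gt.PAQ3
section
/-! The quotient order for a group of automorphisms. -/

namespace Pool.Agent.Work.MP_3d425c_gt.Bor
open Classical

/-- The group of automorphisms together with a lift of the parity. -/
def paq3G {V : Type} (dir : V → V → ℤ) (n j : V → ℤ) (rot : V → Equiv.Perm V) :
    Subgroup (Equiv.Perm V × Multiplicative ℤ) where
  carrier := {x | IsAut dir n j rot x.1 x.2.toAdd}
  one_mem' := IsAut.one
  mul_mem' := fun {_ _} ha hb => IsAut.mul ha hb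
  inv_mem' := fun {_} ha => IsAut.inv ha

instance paq3Act {V : Type} (dir : V → V → ℤ) (n j : V → ℤ) (rot : V → Equiv.Perm V) :
    MulAction (paq3G dir n j rot) V where
  smul x v := x.1.1 v
  one_smul _ := rfl
  mul_smul _ _ _ := rfl

theorem paq3_smul {V : Type} {dir : V → V → ℤ} {n j : V → ℤ} {rot : V → Equiv.Perm V}
    (x : paq3G dir n j rot) (v : V) : x • v = x.1.1 v := rfl

theorem paq3_aut {V : Type} {dir : V → V → ℤ} {n j : V → ℤ} {rot : V → Equiv.Perm V}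
    (x : paq3G dir n j rot) : IsAut dir n j rot x.1.1 x.1.2.toAdd := x.2

/-- The shift of directions. -/
noncomputable def paq3c {V : Type} {dir : V → V → ℤ} {n j : V → ℤ} {rot : V → Equiv.Perm V}
    (x : paq3G dir n j rot) (u : V) : ℤ := ((paq3_aut x).1 u).choose

theorem paq3c_even {V : Type} {dir : V → V → ℤ} {n j : V → ℤ} {rot : V → Equiv.Perm V}
    (x : paq3G dir n j rot) (u : V) : Even (x.1.2.toAdd - paq3c x u) :=
  ((paq3_aut x).1 u).choose_spec.1

theorem paq3c_equiv {V : Type} {dir : V → V → ℤ} {n j : V → ℤ} {rot : V → Equiv.Perm V}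
    (x : paq3G dir n j rot) (u v : V) (hv : v ≠ u) :
    dir (x • u) (x • v) = dir u v + paq3c x u :=
  ((paq3_aut x).1 u).choose_spec.2 v hv

theorem qp_main {V : Type} [Nontrivial V] (dir : V → V → ℤ) (n j : V → ℤ)
    (rot : V → Equiv.Perm V) (t1 : T1 dir) (hf : FinB dir) (hp : Par dir)
    (hrot : ∀ w, IsAut dir n j rot (rot w) (n w - 2 * j w)) (hfix : ∀ w, rot w w = w)
    (hdir : ∀ w v, v ≠ w → dir w (rot w v) = dir w v + n w)
    (hj : ∀ w, 0 < j w ∧ j w < n w) (h3 : ∀ w, 3 ≤ n w) (cop : ∀ w, IsCoprime (n w) (j w))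
    {Γ : Type} [Group Γ] (φ : Γ →* Equiv.Perm V) (e : Γ → ℤ)
    (e_mul : ∀ g h, e (g * h) = e g + e h) (aut : ∀ g, IsAut dir n j rot (φ g) (e g)) :
    ∃ (Ω : Type) (_ : LinearOrder Ω) (ρ : Γ →* (Ω ≃o Ω)),
      (∀ g w (k : ℤ), φ g = rot w ^ k → e g = k * (n w - 2 * j w) → ρ g = 1) ∧
      (∀ g v, φ g v ≠ v → RedN dir n v (φ g v) → ρ g ≠ 1) ∧
      ∀ (F : V → Prop), (∀ w v, F (rot w v) ↔ F v) → ∀ g v, ρ g = 1 → F v → F (φ g v) := by
  let R : V → paq3G dir n j rot := fun w =>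
    ⟨(rot w, Multiplicative.ofAdd (n w - 2 * j w)), hrot w⟩
  let S : QM (paq3G dir n j rot) V :=
    { dir := dir
      c := paq3c
      e := fun x => x.1.2.toAdd
      n := n
      j := j
      rot := R
      t1 := t1
      geo := fun a b hab => geo_of_fin t1 hf hp hab
      equiv := fun g u v hv => paq3c_equiv g u v hv
      c_mul := fun g h u => by
        obtain ⟨v, hv⟩ := exists_ne u
        have h1 := paq3c_equiv (g * h) u v hv
        have h2 := paq3c_equiv h u v hv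
        have h4 := paq3c_equiv g (h • u) (h • v) (fun hh => hv (MulAction.injective h hh))
        rw [mul_smul, mul_smul] at h1
        omega
      e_mul := fun g h => rfl
      par := fun g u => paq3c_even g u
      n_smul := fun g u => ((paq3_aut g).2.1 u).1
      j_smul := fun g u => ((paq3_aut g).2.1 u).2
      rot_smul := fun g w => by
        apply Subtype.ext
        apply Prod.ext
        · exact (paq3_aut g).2.2 w
        · change Multiplicative.ofAdd (n (g.1.1 w) - 2 * j (g.1.1 w)) =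
            g.1.2 * Multiplicative.ofAdd (n w - 2 * j w) * g.1.2⁻¹
          rw [((paq3_aut g).2.1 w).1, ((paq3_aut g).2.1 w).2, mul_inv_cancel_comm]
      rot_fix := fun w => hfix w
      c_rot := fun w => by
        obtain ⟨v, hv⟩ := exists_ne w
        have h1 := paq3c_equiv (R w) w v hv
        have h2 := hdir w v hv
        have h4 : R w • w = w := hfix w
        have h5 : R w • v = rot w v := rfl
        rw [h4, h5] at h1
        omega
      e_rot := fun w => rfl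
      j_pos := fun w => (hj w).1
      j_lt := fun w => (hj w).2
      h3 := h3
      cop := cop }
  obtain ⟨Ω, inst, ρ, h1, h2, hk⟩ := S.exists_order
  let ψ : Γ →* paq3G dir n j rot :=
    MonoidHom.mk' (fun g => ⟨(φ g, Multiplicative.ofAdd (e g)), aut g⟩) (fun g h => by
      apply Subtype.ext
      apply Prod.ext
      · exact map_mul φ g h
      · change Multiplicative.ofAdd (e (g * h)) =
          Multiplicative.ofAdd (e g) * Multiplicative.ofAdd (e h)
        rw [e_mul, ofAdd_add])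
  refine ⟨Ω, inst, ρ.comp ψ, fun g w k hk he => ?_, fun g v hv hr => h2 (ψ g) v hv hr,
    fun F hF g v hg hv => ?_⟩
  swap
  · obtain ⟨k, k1, k2⟩ := hk (ψ g) v hg
    have key : ∀ x, F (k • x) ↔ F x := by
      clear k2
      induction k1 using Subgroup.closure_induction with
      | mem k hk =>
        obtain ⟨w, rfl⟩ := hk
        exact hF w
      | one => exact fun x => by rw [one_smul]
      | mul a b _ _ ha hb => exact fun x => by rw [mul_smul, ha, hb]
      | inv a _ ha => exact fun x => by rw [← ha, smul_inv_smul]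
    exact (key (ψ g • v)).1 (k2.symm ▸ hv)
  have hψ : ψ g = R w ^ k := by
    apply Subtype.ext
    rw [Subgroup.coe_zpow]
    apply Prod.ext
    · exact hk
    · change Multiplicative.ofAdd (e g) = Multiplicative.ofAdd (n w - 2 * j w) ^ k
      rw [he, ← ofAdd_zsmul, smul_eq_mul]
  have h6 : ρ (R w) = 1 := h1 w
  rw [MonoidHom.comp_apply, hψ, map_zpow, h6, one_zpow]

end Pool.Agent.Work.MP_3d425c_gt.Bor
end

-- merged part: Pool.Agent.Work.MP_3d425c_gt.PAU0
section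
/-! Unfolding: definitions. -/

namespace Pool.Agent.Work.MP_3d425c_gt.Bor
open Classical

/-- A tree with real vertices, filling elements and cut points along the rays. -/
structure RQ (Γ P : Type) [Group Γ] [MulAction Γ P] where
  dir : P → P → ℤ
  c : Γ → P → ℤ
  e : Γ → ℤ
  deg : Γ → ℤ
  real : P → Prop
  γ : P → Γ
  cut : P → ℤ → ℤ → P
  t1 : T1 dir
  fin : FinB dir
  par : Par dir
  equiv : ∀ (g : Γ) u v, v ≠ u → dir (g • u) (g • v) = dir u v + c g u
  c_mul : ∀ (g h : Γ) u, c (g * h) u = c g (h • u) + c h u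
  e_mul : ∀ g h, e (g * h) = e g + e h
  deg_mul : ∀ g h, deg (g * h) = deg g + deg h
  epar : ∀ g u, Even (e g - c g u)
  real_smul : ∀ (g : Γ) p, real p → real (g • p)
  nreal_small : ∀ u a b, ¬ real u → a ≠ u → b ≠ u → |dir u b - dir u a| ≤ 1
  γ_fix : ∀ w, real w → γ w • w = w
  γ_smul : ∀ (g : Γ) w, real w → γ (g • w) = g * γ w * g⁻¹
  he0 : ∀ w, real w → e (γ w) ≠ 0
  he1 : ∀ w, real w → |e (γ w)| < c (γ w) w
  prim : ∀ w, real w → ∀ (g : Γ) (k l : ℤ), g • w = w → k * c g w = l * c (γ w) w →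
    k * deg g = l * deg (γ w) → k ∣ l
  cut_smul : ∀ (g : Γ) w i l, real w → g • cut w i l = cut (g • w) (i + c g w) (l + deg g)
  cut_inj : ∀ w i l w' i' l', real w → real w' → cut w i l = cut w' i' l' → w = w'
  cut_nreal : ∀ w i l, real w → ¬ real (cut w i l)
  dir_cut : ∀ w i l, real w → dir w (cut w i l) = i
  cut_small : ∀ w i l, real w → Small dir w (cut w i l)
  cut_btw : ∀ w i l, real w → Btw dir w (cut w i l) (cut w i (l + 1))
  low : ∀ w p, real w → p ≠ w → ∃ l, Btw dir w (cut w (dir w p) l) p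
  high : ∀ w i p, real w → ∃ l, ¬ Wb dir w (cut w i l) p
  nt : ∃ (g : Γ) (v : P), real v ∧ g • v ≠ v ∧ Small dir v (g • v)

/-- Addresses in the unfolded tree. -/
inductive Ad (P : Type) : Type
  | pt (p : P) : Ad P
  | sw (w : P) (t : ℤ) (r : Ad P) : Ad P

namespace Ad
variable {P : Type}

/-- The first point of an address. -/
def head : Ad P → P
  | pt p => p
  | sw w _ _ => w

/-- The last point of an address. -/
def last : Ad P → P
  | pt p => p
  | sw _ _ r => r.last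

/-- Applying a map to all points of an address. -/
def map (f : P → P) : Ad P → Ad P
  | pt p => pt (f p)
  | sw w t r => sw (f w) t (r.map f)

instance {Γ : Type} [Group Γ] [MulAction Γ P] : MulAction Γ (Ad P) where
  smul g a := a.map (g • ·)
  one_smul a := by
    show a.map _ = a
    induction a with
    | pt p => simp [map]
    | sw w t r ih => rw [map, ih, one_smul]
  mul_smul g h a := by
    show a.map _ = (a.map _).map _
    induction a with
    | pt p => simp [map, mul_smul]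
    | sw w t r ih => rw [map, map, map, ih, mul_smul]

variable {Γ : Type} [Group Γ] [MulAction Γ P]

@[simp] theorem smul_pt (g : Γ) (p : P) : g • pt p = pt (g • p) := rfl

@[simp] theorem smul_sw (g : Γ) (w : P) (t : ℤ) (r : Ad P) :
    g • sw w t r = sw (g • w) t (g • r) := rfl

/-- The address does not start with a switch at `w`. -/
def Free (w : P) (a : Ad P) : Prop := ∀ t r, a ≠ sw w t r

/-- Splitting off a switch at `w`. -/
noncomputable def split (w : P) : Ad P → ℤ × Ad P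
  | pt p => (0, pt p)
  | sw w' t r => if w' = w then (t, r) else (0, sw w' t r)

end Ad

namespace RQ
variable {Γ P : Type} [Group Γ] [MulAction Γ P] (S : RQ Γ P)
open Ad

/-- Number of prongs after filling. -/
def n (w : P) : ℤ := S.c (S.γ w) w

/-- The step of the recalibration. -/
def j (w : P) : ℤ := (S.n w - S.e (S.γ w)) / 2

/-- The order of the folding. -/
def d (w : P) : ℤ := Int.gcd (S.n w) (S.j w)

/-- Number of prongs after folding. -/
def n' (w : P) : ℤ := S.n w / S.d w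

/-- The step after folding. -/
def j' (w : P) : ℤ := S.j w / S.d w

/-- The degree of the filling element. -/
def D (w : P) : ℤ := S.deg (S.γ w)

/-- The level of `p` seen from `w`. -/
noncomputable def lev (w p : P) : ℤ :=
  Classical.epsilon fun L => ∀ l, Wb S.dir w (S.cut w (S.dir w p) l) p ↔ l ≤ L

/-- The properties of the block positions. -/
def BetaSpec (β : P → ℤ → ℤ → ℤ) : Prop :=
  (∀ w i, S.real w → StrictMono (β w i)) ∧
  (∀ (g : Γ) w i l, S.real w →
    β (g • w) (i + S.c g w) (l + S.deg g) = β w i l + S.d w * S.d w * S.deg g) ∧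
  ∀ w i l l' t, S.real w → β w i l + t * (S.d w * S.D w) = β w (i + t * S.n' w) l' → S.d w ∣ t

/-- Block positions. -/
noncomputable def beta : P → ℤ → ℤ → ℤ := Classical.epsilon S.BetaSpec

/-- The first block after the position `B`. -/
noncomputable def MM (w : P) (I B : ℤ) : ℤ :=
  Classical.epsilon fun M => ∀ l, B < S.beta w I l ↔ M ≤ l

/-- Valid addresses. -/
def Val : Ad P → Prop
  | pt _ => True
  | sw w t r => S.real w ∧ 0 < t ∧ t < S.d w ∧ r.head ≠ w ∧ Val r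

/-- The projection of an address to the base copy. -/
noncomputable def loc : Ad P → P
  | pt p => p
  | sw w t r => S.cut w (S.dir w (loc r) + t * S.n' w)
      (S.MM w (S.dir w (loc r) + t * S.n' w)
        (S.beta w (S.dir w (loc r)) (S.lev w (loc r)) + t * (S.d w * S.D w)))

/-- Adding a switch at `w`, in normal form. -/
noncomputable def join (w : P) (s : ℤ) (r : Ad P) : Ad P :=
  if r = pt w then pt w else
  if s % S.d w = 0 then S.γ w ^ (s / S.d w) • r else sw w (s % S.d w) (S.γ w ^ (s / S.d w) • r)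

/-- The `s`-th power of the root of the filling element at `w`. -/
noncomputable def R (w : P) (s : ℤ) (a : Ad P) : Ad P :=
  S.join w (s + (split w a).1) (split w a).2

/-- The direction of an address seen from `w`. -/
noncomputable def II (w : P) (a : Ad P) : ℤ := S.dir w (S.loc a)

/-- The block position of an address seen from `w`. -/
noncomputable def BB (w : P) (a : Ad P) : ℤ :=
  S.beta w (S.dir w (S.loc (split w a).2)) (S.lev w (S.loc (split w a).2)) +
    (split w a).1 * (S.d w * S.D w)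

/-- Directions in the unfolded tree. -/
noncomputable def dirA : Ad P → Ad P → ℤ
  | pt p, a => S.dir p (S.loc a)
  | sw w t r, a => dirA r (S.R w (-t) a) + t * S.n' w

/-- Vertices of the unfolded tree. -/
def VV : Type := {a : Ad P // S.Val a ∧ S.real a.last}

/-- Directions between vertices of the unfolded tree. -/
noncomputable def dir' (a b : S.VV) : ℤ := S.dirA a.1 b.1

end RQ

end Pool.Agent.Work.MP_3d425c_gt.Bor
end

-- merged part: Pool.Agent.Work.MP_3d425c_gt.PAU1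
section
/-! Unfolding: arithmetic, levels and block positions. -/

namespace Pool.Agent.Work.MP_3d425c_gt.Bor
open Classical

/-- A function on the integers with constant increments is linear. -/
theorem PAU1_lin (F : ℤ → ℤ) (a : ℤ) (h0 : F 0 = 0) (h : ∀ q, F (q + 1) = F q + a) (q : ℤ) :
    F q = q * a := by
  induction q using Int.induction_on with
  | zero => rw [h0, zero_mul]
  | succ q ih => rw [h, ih]; ring
  | pred q ih =>
    have := h (-(q : ℤ) - 1)
    rw [sub_add_cancel, ih] at this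
    linarith

theorem PAU1_grow {f : ℤ → ℤ} (hf : StrictMono f) (l : ℤ) (k : ℕ) : f l + k ≤ f (l + k) := by
  induction k with
  | zero => simp
  | succ k ih =>
    have := hf (show l + k < l + ((k + 1 : ℕ) : ℤ) by push_cast; omega)
    push_cast at this ⊢
    omega

theorem PAU1_least {f : ℤ → ℤ} (hf : StrictMono f) (B : ℤ) : ∃ M, ∀ l, B < f l ↔ M ≤ l := by
  obtain ⟨M, h1, h2⟩ := Int.exists_least_of_bdd (P := fun l => B < f l)
    ⟨-((f 0 - B).natAbs : ℤ), fun z hz => by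
      by_contra h
      have h3 := PAU1_grow hf (-((f 0 - B).natAbs : ℤ)) (f 0 - B).natAbs
      rw [neg_add_cancel] at h3
      have h4 := hf (not_le.1 h)
      omega⟩
    ⟨0 + (((B - f 0).natAbs + 1 : ℕ) : ℤ), by
      have h3 := PAU1_grow hf 0 ((B - f 0).natAbs + 1)
      omega⟩
  exact ⟨M, fun l => ⟨h2 l, fun h => h1.trans_le (hf.monotone h)⟩⟩

/-- A cocycle with values in cyclic groups on an equivalence relation is a coboundary. -/
theorem PAU1_cob {X : Type} (Rel : X → X → ℤ → Prop) (m : X → ℤ) (h0 : ∀ x, Rel x x 0)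
    (h1 : ∀ x y s, Rel x y s → Rel y x (-s))
    (h2 : ∀ x y z s s', Rel x y s → Rel y z s' → Rel x z (s + s'))
    (h3 : ∀ x s, Rel x x s → m x ∣ s) :
    ∃ K : X → ℤ, ∀ x y s, Rel x y s → m x ∣ K y - K x - s := by
  let r : Setoid X := ⟨fun x y => ∃ s, Rel x y s, fun x => ⟨0, h0 x⟩,
    fun ⟨s, h⟩ => ⟨-s, h1 _ _ _ h⟩, fun ⟨s, h⟩ ⟨s', h'⟩ => ⟨s + s', h2 _ _ _ _ _ h h'⟩⟩
  have h4 : ∀ x, ∃ s, Rel (Quotient.mk r x).out x s := fun x => Quotient.mk_out (s := r) x
  choose K hK using h4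
  refine ⟨K, fun x y s h => ?_⟩
  have e : Quotient.mk r x = Quotient.mk r y := Quotient.sound (s := r) ⟨s, h⟩
  have h5 := hK y
  rw [← e] at h5
  have h6 := h3 _ _ (h2 _ _ _ _ _ (h2 _ _ _ _ _ (h1 _ _ _ (hK x)) h5) (h1 _ _ _ h))
  rwa [show -K x + K y + -s = K y - K x - s by ring] at h6

namespace RQ
variable {Γ P : Type} [Group Γ] [MulAction Γ P] (S : RQ Γ P)

theorem e_one : S.e 1 = 0 := by have := S.e_mul 1 1; rw [mul_one] at this; omega

theorem deg_one : S.deg 1 = 0 := by have := S.deg_mul 1 1; rw [mul_one] at this; omega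

theorem c_one (u : P) : S.c 1 u = 0 := by
  have := S.c_mul 1 1 u
  rw [mul_one, one_smul] at this
  omega

theorem real_smul_iff (g : Γ) (p : P) : S.real (g • p) ↔ S.real p :=
  ⟨fun h => by simpa using S.real_smul g⁻¹ _ h, S.real_smul g p⟩

theorem PAU1_c_inv (g : Γ) (u : P) : S.c g⁻¹ (g • u) = -S.c g u := by
  have := S.c_mul g⁻¹ g u
  rw [inv_mul_cancel, S.c_one] at this
  omega

theorem PAU1_e_inv (g : Γ) : S.e g⁻¹ = -S.e g := by
  have := S.e_mul g⁻¹ g
  rw [inv_mul_cancel, S.e_one] at this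
  omega

theorem PAU1_deg_inv (g : Γ) : S.deg g⁻¹ = -S.deg g := by
  have := S.deg_mul g⁻¹ g
  rw [inv_mul_cancel, S.deg_one] at this
  omega

theorem wb_smul (g : Γ) (a m b : P) : Wb S.dir (g • a) (g • m) (g • b) ↔ Wb S.dir a m b := by
  by_cases e1 : a = m
  · subst e1
    exact iff_of_true (wb_left _ _) (wb_left _ _)
  by_cases e2 : b = m
  · subst e2
    exact iff_of_true (wb_right _ _) (wb_right _ _)
  unfold Wb
  rw [smul_left_cancel_iff, smul_left_cancel_iff, S.equiv g m a e1, S.equiv g m b e2,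
    add_ne_add_left]

theorem inv_smul {w : P} (hw : S.real w) (g : Γ) : S.n (g • w) = S.n w ∧ S.j (g • w) = S.j w ∧
    S.d (g • w) = S.d w ∧ S.n' (g • w) = S.n' w ∧ S.j' (g • w) = S.j' w ∧
    S.D (g • w) = S.D w := by
  have h1 : S.n (g • w) = S.n w := by
    unfold n
    rw [S.γ_smul g w hw, S.c_mul, S.c_mul, inv_smul_smul, S.γ_fix w hw, S.PAU1_c_inv]
    ring
  have h2 : S.e (S.γ (g • w)) = S.e (S.γ w) := by
    rw [S.γ_smul g w hw, S.e_mul, S.e_mul, S.PAU1_e_inv]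
    ring
  have h3 : S.j (g • w) = S.j w := by
    unfold j
    rw [h1, h2]
  have h4 : S.d (g • w) = S.d w := by
    unfold d
    rw [h1, h3]
  refine ⟨h1, h3, h4, ?_, ?_, ?_⟩
  · unfold n'
    rw [h1, h4]
  · unfold j'
    rw [h3, h4]
  · unfold D
    rw [S.γ_smul g w hw, S.deg_mul, S.deg_mul, S.PAU1_deg_inv]
    ring

theorem arith {w : P} (hw : S.real w) : 0 < S.d w ∧ S.n w = S.d w * S.n' w ∧
    S.e (S.γ w) = S.d w * (S.n' w - 2 * S.j' w) ∧ 0 < S.j' w ∧ S.j' w < S.n' w ∧ 3 ≤ S.n' w ∧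
    IsCoprime (S.n' w) (S.j' w) := by
  have h0 := S.he0 w hw
  have h1 : |S.e (S.γ w)| < S.n w := S.he1 w hw
  obtain ⟨r, hr⟩ : Even (S.e (S.γ w) - S.n w) := S.epar (S.γ w) w
  rw [abs_lt] at h1
  have h2 : 2 * S.j w = S.n w - S.e (S.γ w) := by
    unfold j
    omega
  have hj0 : 0 < S.j w := by omega
  have hj1 : S.j w < S.n w := by omega
  have hg : 0 < Int.gcd (S.n w) (S.j w) := Int.gcd_pos_of_ne_zero_right _ hj0.ne'
  have hd : 0 < S.d w := by
    unfold d
    exact_mod_cast hg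
  have h3 : S.n w = S.d w * S.n' w := (Int.mul_ediv_cancel' (Int.gcd_dvd_left _ _)).symm
  have h4 : S.j w = S.d w * S.j' w := (Int.mul_ediv_cancel' (Int.gcd_dvd_right _ _)).symm
  have h5 : S.e (S.γ w) = S.d w * (S.n' w - 2 * S.j' w) := by linarith
  have h6 : 0 < S.j' w := by
    rw [h4] at hj0
    exact (mul_pos_iff_of_pos_left hd).1 hj0
  have h7 : S.j' w < S.n' w := by
    rw [h3, h4] at hj1
    exact lt_of_mul_lt_mul_left hj1 hd.le
  refine ⟨hd, h3, h5, h6, h7, ?_, ?_⟩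
  · by_contra h8
    apply h0
    rw [h5, show S.n' w - 2 * S.j' w = 0 by omega, mul_zero]
  · exact Int.isCoprime_iff_gcd_eq_one.2 (Int.gcd_div_gcd_div_gcd hg)

theorem γ_zpow {w : P} (hw : S.real w) (q : ℤ) : S.γ w ^ q • w = w ∧
    S.c (S.γ w ^ q) w = q * S.n w ∧ S.e (S.γ w ^ q) = q * S.e (S.γ w) ∧
    S.deg (S.γ w ^ q) = q * S.D w := by
  have h1 : ∀ q : ℤ, S.γ w ^ q • w = w := fun q =>
    (MulAction.stabilizer Γ w).zpow_mem (MulAction.mem_stabilizer_iff.2 (S.γ_fix w hw)) q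
  refine ⟨h1 q, PAU1_lin (fun q => S.c (S.γ w ^ q) w) _ ?_ (fun q => ?_) q,
    PAU1_lin (fun q => S.e (S.γ w ^ q)) _ ?_ (fun q => ?_) q,
    PAU1_lin (fun q => S.deg (S.γ w ^ q)) _ ?_ (fun q => ?_) q⟩
  · simp only [zpow_zero, S.c_one]
  · simp only [zpow_add_one, S.c_mul, S.γ_fix w hw, n]
  · simp only [zpow_zero, S.e_one]
  · simp only [zpow_add_one, S.e_mul]
  · simp only [zpow_zero, S.deg_one]
  · simp only [zpow_add_one, S.deg_mul, D]

theorem cut_ne {w : P} (hw : S.real w) (i l : ℤ) : S.cut w i l ≠ w := fun e =>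
  S.cut_nreal w i l hw (e.symm ▸ hw)

theorem PAU1_wb_le {w : P} (hw : S.real w) (i : ℤ) {l l' : ℤ} (h : l ≤ l') :
    Wb S.dir w (S.cut w i l) (S.cut w i l') := by
  induction l', h using Int.leInduction with
  | base => exact wb_right _ _
  | succ k _ ih => exact ih.trans_left S.t1 (S.cut_btw w i k hw).wb

theorem PAU1_btw_lt {w : P} (hw : S.real w) (i : ℤ) {l l' : ℤ} (h : l < l') :
    Btw S.dir w (S.cut w i l) (S.cut w i l') := by
  refine (S.PAU1_wb_le hw i h.le).btw (S.cut_ne hw i l).symm fun e => ?_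
  have h1 := S.PAU1_wb_le hw i (show l + 1 ≤ l' from h)
  rw [e] at h1
  exact (S.cut_btw w i l hw).2.1 (h1.antisymm S.t1 (S.cut_btw w i l hw).wb)

theorem PAU1_dir {w p : P} (hw : S.real w) {i l : ℤ} (h : Wb S.dir w (S.cut w i l) p) :
    i = S.dir w p := by
  rw [h.dir_eq S.t1 (S.cut_ne hw i l).symm, S.dir_cut w i l hw]

theorem btw_cut_cut {w : P} (hw : S.real w) (i l i' l' : ℤ) :
    Btw S.dir w (S.cut w i l) (S.cut w i' l') ↔ i = i' ∧ l < l' := by
  constructor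
  · intro h
    have e : i = i' := by rw [S.PAU1_dir hw h.wb, S.dir_cut w i' l' hw]
    subst e
    refine ⟨rfl, not_le.1 fun hl => h.2.1 ?_⟩
    exact (S.PAU1_wb_le hw i hl).antisymm S.t1 h.wb
  · rintro ⟨rfl, h⟩
    exact S.PAU1_btw_lt hw i h

theorem wb_cut_cut {w : P} (hw : S.real w) (i l i' l' : ℤ) :
    Wb S.dir w (S.cut w i l) (S.cut w i' l') ↔ i = i' ∧ l ≤ l' := by
  constructor
  · intro h
    have e : i = i' := by rw [S.PAU1_dir hw h, S.dir_cut w i' l' hw]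
    subst e
    refine ⟨rfl, not_lt.1 fun hl => (S.PAU1_btw_lt hw i hl).2.1 ?_⟩
    exact h.antisymm S.t1 (S.PAU1_btw_lt hw i hl).wb
  · rintro ⟨rfl, h⟩
    exact S.PAU1_wb_le hw i h

theorem lev_spec {w p : P} (hw : S.real w) (hp : p ≠ w) (i l : ℤ) :
    Wb S.dir w (S.cut w i l) p ↔ i = S.dir w p ∧ l ≤ S.lev w p := by
  have h1 : ∃ L, ∀ l, Wb S.dir w (S.cut w (S.dir w p) l) p ↔ l ≤ L := by
    obtain ⟨l0, h0⟩ := S.low w p hw hp
    obtain ⟨l1, h1⟩ := S.high w (S.dir w p) p hw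
    obtain ⟨L, h2, h3⟩ := Int.exists_greatest_of_bdd
      (P := fun l => Wb S.dir w (S.cut w (S.dir w p) l) p)
      ⟨l1, fun z hz => not_lt.1 fun h => h1 ((S.PAU1_wb_le hw _ h.le).trans_left S.t1 hz)⟩
      ⟨l0, h0.wb⟩
    exact ⟨L, fun l => ⟨h3 l, fun h => (S.PAU1_wb_le hw _ h).trans_left S.t1 h2⟩⟩
  have h2 : ∀ l, Wb S.dir w (S.cut w (S.dir w p) l) p ↔ l ≤ S.lev w p :=
    Classical.epsilon_spec h1
  constructor
  · intro h
    have e := S.PAU1_dir hw h
    subst e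
    exact ⟨rfl, (h2 l).1 h⟩
  · rintro ⟨rfl, h⟩
    exact (h2 l).2 h

theorem lev_smul {w p : P} (hw : S.real w) (hp : p ≠ w) (g : Γ) :
    S.lev (g • w) (g • p) = S.lev w p + S.deg g := by
  have hp' : g • p ≠ g • w := fun e => hp ((smul_left_cancel_iff g).1 e)
  refine eq_of_forall_le_iff fun l => ?_
  have h1 := S.lev_spec (S.real_smul g w hw) hp' (S.dir w p + S.c g w) (l - S.deg g + S.deg g)
  rw [← S.cut_smul g w _ _ hw, S.wb_smul, S.lev_spec hw hp, S.equiv g w p hp, sub_add_cancel] at h1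
  simp only [true_and] at h1
  rw [← h1]
  omega

theorem PAU1_beta : ∃ β, S.BetaSpec β := by
  obtain ⟨K, hK⟩ := PAU1_cob (X := {w // S.real w} × ℤ × ℤ)
    (fun x y s => ∃ g : Γ, y.1.1 = g • x.1.1 ∧ y.2.1 = x.2.1 + S.c g x.1.1 + s * S.n' x.1.1 ∧
      y.2.2 = x.2.2 + S.d x.1.1 * S.deg g + s * S.D x.1.1)
    (fun x => S.d x.1.1)
    (fun x => ⟨1, by rw [one_smul], by rw [S.c_one]; ring, by rw [S.deg_one]; ring⟩)
    (by
      rintro x y s ⟨g, e1, e2, e3⟩
      obtain ⟨-, -, a3, a4, -, a6⟩ := S.inv_smul x.1.2 g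
      refine ⟨g⁻¹, by rw [e1, inv_smul_smul], ?_, ?_⟩
      · rw [e1, e2, a4, S.PAU1_c_inv]; ring
      · rw [e1, e3, a3, a6, S.PAU1_deg_inv]; ring)
    (by
      rintro x y z s s' ⟨g, e1, e2, e3⟩ ⟨h, f1, f2, f3⟩
      obtain ⟨-, -, a3, a4, -, a6⟩ := S.inv_smul x.1.2 g
      refine ⟨h * g, by rw [f1, e1, mul_smul], ?_, ?_⟩
      · rw [f2, e1, e2, a4, S.c_mul]; ring
      · rw [f3, e1, e3, a3, a6, S.deg_mul]; ring)
    (by
      rintro x s ⟨g, e1, e2, e3⟩
      obtain ⟨-, a2, -⟩ := S.arith x.1.2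
      refine (dvd_neg).1 (S.prim _ x.1.2 g _ (-s) e1.symm ?_ ?_)
      · change _ = -s * S.n x.1.1
        rw [a2, show S.c g x.1.1 = -(s * S.n' x.1.1) by linarith]
        ring
      · change _ = -s * S.D x.1.1
        linarith)
  refine ⟨fun w i l => if h : S.real w then
    S.d w * (S.d w * l) + (-K (⟨w, h⟩, i, S.d w * l)) % S.d w else 0, ?_, ?_, ?_⟩
  · intro w i hw
    have hd := (S.arith hw).1
    refine strictMono_int_of_lt_succ fun l => ?_
    simp only [dif_pos hw]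
    have h1 := Int.emod_lt_of_pos (-K (⟨w, hw⟩, i, S.d w * l)) hd
    have h2 := Int.emod_nonneg (-K (⟨w, hw⟩, i, S.d w * (l + 1))) hd.ne'
    have h3 : S.d w ≤ S.d w * S.d w := by nlinarith
    nlinarith
  · intro g w i l hw
    have hgw := S.real_smul g w hw
    simp only [dif_pos hw, dif_pos hgw]
    obtain ⟨-, -, a3, -⟩ := S.inv_smul hw g
    have h1 := hK (⟨w, hw⟩, i, S.d w * l) (⟨g • w, hgw⟩, i + S.c g w, S.d w * (l + S.deg g)) 0
      ⟨g, rfl, by simp, by dsimp only; ring⟩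
    dsimp only at h1
    have h2 : (-K (⟨g • w, hgw⟩, i + S.c g w, S.d w * (l + S.deg g))) % S.d w =
        (-K (⟨w, hw⟩, i, S.d w * l)) % S.d w := by
      refine (Int.modEq_iff_dvd.2 ?_ : Int.ModEq _ _ _)
      convert h1 using 1
      ring
    rw [a3, h2]
    ring
  · intro w i l l' t hw h
    have hd := (S.arith hw).1
    simp only [dif_pos hw] at h
    have h1 := Int.emod_lt_of_pos (-K (⟨w, hw⟩, i, S.d w * l)) hd
    have h2 := Int.emod_nonneg (-K (⟨w, hw⟩, i, S.d w * l)) hd.ne'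
    have h3 := Int.emod_lt_of_pos (-K (⟨w, hw⟩, i + t * S.n' w, S.d w * l')) hd
    have h4 := Int.emod_nonneg (-K (⟨w, hw⟩, i + t * S.n' w, S.d w * l')) hd.ne'
    have h5 : S.d w * l + t * S.D w = S.d w * l' := by
      have h6 : S.d w * (S.d w * l + t * S.D w - S.d w * l') < S.d w * 1 := by linarith
      have h7 : S.d w * (-1) < S.d w * (S.d w * l + t * S.D w - S.d w * l') := by linarith
      have h8 := lt_of_mul_lt_mul_left h6 hd.le
      have h9 := lt_of_mul_lt_mul_left h7 hd.le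
      omega
    have h6 : (-K (⟨w, hw⟩, i, S.d w * l)) % S.d w =
        (-K (⟨w, hw⟩, i + t * S.n' w, S.d w * l')) % S.d w := by
      have h7 : S.d w * (S.d w * l) + t * (S.d w * S.D w) = S.d w * (S.d w * l') := by
        rw [← h5]; ring
      linarith
    have h7 := hK (⟨w, hw⟩, i, S.d w * l) (⟨w, hw⟩, i + t * S.n' w, S.d w * l') t
      ⟨1, by rw [one_smul], by rw [S.c_one]; dsimp only; ring,
        by rw [S.deg_one]; dsimp only; rw [← h5]; ring⟩
    dsimp only at h7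
    have h8 := Int.ModEq.dvd h6
    have h9 := dvd_add h7 h8
    rw [show ∀ a b : ℤ, a - b - t + (-a - -b) = -t from fun a b => by ring] at h9
    exact dvd_neg.1 h9

theorem beta_spec : S.BetaSpec S.beta := by
  exact Classical.epsilon_spec S.PAU1_beta

theorem MM_spec {w : P} (hw : S.real w) (I B l : ℤ) : B < S.beta w I l ↔ S.MM w I B ≤ l := by
  exact Classical.epsilon_spec (PAU1_least (S.beta_spec.1 w I hw) B) l

theorem MM_smul {w : P} (hw : S.real w) (g : Γ) (I B : ℤ) :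
    S.MM (g • w) (I + S.c g w) (B + S.d w * S.d w * S.deg g) = S.MM w I B + S.deg g := by
  refine eq_of_forall_ge_iff fun l => ?_
  have h1 := S.beta_spec.2.1 g w I (l - S.deg g) hw
  rw [sub_add_cancel] at h1
  rw [← S.MM_spec (S.real_smul g w hw), h1, add_lt_add_iff_right, S.MM_spec hw]
  omega

end RQ

end Pool.Agent.Work.MP_3d425c_gt.Bor
end

-- merged part: Pool.Agent.Work.MP_3d425c_gt.PAU2
section
/-! Unfolding: the roots of the filling elements acting on addresses. -/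

namespace Pool.Agent.Work.MP_3d425c_gt.Bor
open Classical

namespace RQ
variable {Γ P : Type} [Group Γ] [MulAction Γ P] (S : RQ Γ P)
open Ad

theorem head_smul (g : Γ) (a : Ad P) : (g • a).head = g • a.head := by
  cases a <;> rfl

theorem last_smul (g : Γ) (a : Ad P) : (g • a).last = g • a.last := by
  induction a with
  | pt p => rfl
  | sw w t r ih => exact ih

theorem val_smul (g : Γ) {a : Ad P} (ha : S.Val a) : S.Val (g • a) := by
  induction a with
  | pt p => trivial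
  | sw w t r ih =>
    obtain ⟨h1, h2, h3, h4, h5⟩ := ha
    refine ⟨S.real_smul g w h1, h2, ?_, ?_, ih h5⟩
    · rw [(S.inv_smul h1 g).2.2.1]
      exact h3
    · rw [show (r.map (g • ·)).head = g • r.head from head_smul g r]
      exact fun h => h4 (smul_left_cancel g h)

theorem free_smul (g : Γ) {w : P} {a : Ad P} : Free (g • w) (g • a) ↔ Free w a := by
  refine ⟨fun h t r e => h t (g • r) (by rw [e, smul_sw]), fun h t r e => h t (g⁻¹ • r) ?_⟩
  rw [← inv_smul_smul g a, e, smul_sw, inv_smul_smul]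

theorem free_of_head {w : P} {a : Ad P} (h : a.head ≠ w) : Free w a := by
  rintro t r rfl
  exact h rfl

theorem split_free {w : P} {a : Ad P} (h : Free w a) : split w a = (0, a) := by
  cases a with
  | pt p => rfl
  | sw w' t r => exact if_neg fun e => h t r (by rw [e])

theorem split_sw (w : P) (t : ℤ) (r : Ad P) : split w (sw w t r) = (t, r) := by
  simp [split]

theorem R_pt (w : P) (s : ℤ) : S.R w s (pt w) = pt w := by
  exact if_pos rfl

theorem U2_decomp {w : P} {a : Ad P} (ha : S.Val a) (h : a ≠ pt w) :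
    ∃ (t : ℤ) (r : Ad P), split w a = (t, r) ∧ S.Val r ∧ r.head ≠ w ∧ r.last = a.last ∧
      (t = 0 ∧ a = r ∨ 0 < t ∧ t < S.d w ∧ a = sw w t r) := by
  cases a with
  | pt p => exact ⟨0, pt p, rfl, ha, fun e => h (congrArg pt e), rfl, Or.inl ⟨rfl, rfl⟩⟩
  | sw w' t r =>
    by_cases e : w' = w
    · subst e
      exact ⟨t, r, split_sw _ _ _, ha.2.2.2.2, ha.2.2.2.1, rfl, Or.inr ⟨ha.2.1, ha.2.2.1, rfl⟩⟩
    · exact ⟨0, _, if_neg e, ha, e, rfl, Or.inl ⟨rfl, rfl⟩⟩

theorem U2_ne_pt {w : P} {r : Ad P} (h : r.head ≠ w) : r ≠ pt w := by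
  rintro rfl
  exact h rfl

theorem U2_head {w : P} (hw : S.real w) (q : ℤ) {r : Ad P} (h : r.head ≠ w) :
    (S.γ w ^ q • r).head ≠ w := by
  rw [head_smul]
  exact fun e => h (smul_left_cancel (S.γ w ^ q) (e.trans (S.γ_zpow hw q).1.symm))

theorem U2_join {w : P} {r : Ad P} (h : r.head ≠ w) (s : ℤ) : S.join w s r =
    if s % S.d w = 0 then S.γ w ^ (s / S.d w) • r else
      sw w (s % S.d w) (S.γ w ^ (s / S.d w) • r) := if_neg (U2_ne_pt h)

theorem U2_join_add {w : P} (hw : S.real w) (s q : ℤ) {r : Ad P} (h : r.head ≠ w) :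
    S.join w (s + S.d w * q) r = S.join w s (S.γ w ^ q • r) := by
  rw [S.U2_join h, S.U2_join (S.U2_head hw q h), Int.add_mul_emod_self_left,
    Int.add_mul_ediv_left _ _ (S.arith hw).1.ne', zpow_add, mul_smul]

theorem U2_split_join {w : P} (hw : S.real w) (s : ℤ) {r : Ad P} (h : r.head ≠ w) :
    split w (S.join w s r) = (s % S.d w, S.γ w ^ (s / S.d w) • r) := by
  rw [S.U2_join h]
  split_ifs with e
  · rw [split_free (free_of_head (S.U2_head hw _ h)), e]
  · exact split_sw _ _ _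

theorem U2_join_small {w : P} {t : ℤ} (h0 : 0 < t) (h1 : t < S.d w) {r : Ad P}
    (h : r.head ≠ w) : S.join w t r = sw w t r := by
  rw [S.U2_join h, Int.emod_eq_of_lt h0.le h1, if_neg h0.ne', Int.ediv_eq_zero_of_lt h0.le h1,
    zpow_zero, one_smul]

theorem U2_join_zero {w : P} {r : Ad P} (h : r.head ≠ w) : S.join w 0 r = r := by
  rw [S.U2_join h, Int.zero_emod, if_pos rfl, Int.zero_ediv, zpow_zero, one_smul]

theorem U2_R {w : P} {a r : Ad P} {t : ℤ} (h : split w a = (t, r)) (s : ℤ) :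
    S.R w s a = S.join w (s + t) r := by
  rw [R, h]

theorem val_R {w : P} (hw : S.real w) (s : ℤ) {a : Ad P} (ha : S.Val a) : S.Val (S.R w s a) := by
  by_cases h : a = pt w
  · rw [h, R_pt]
    trivial
  obtain ⟨t, r, h1, h2, h3, -, -⟩ := S.U2_decomp ha h
  rw [S.U2_R h1, S.U2_join h3]
  have hd := (S.arith hw).1
  split_ifs with e
  · exact S.val_smul _ h2
  · exact ⟨hw, lt_of_le_of_ne (Int.emod_nonneg _ hd.ne') (Ne.symm e), Int.emod_lt_of_pos _ hd,
      S.U2_head hw _ h3, S.val_smul _ h2⟩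

theorem R_zero {w : P} (hw : S.real w) {a : Ad P} (ha : S.Val a) : S.R w 0 a = a := by
  by_cases h : a = pt w
  · rw [h, R_pt]
  obtain ⟨t, r, h1, -, h3, -, h4⟩ := S.U2_decomp ha h
  rw [S.U2_R h1, zero_add]
  rcases h4 with ⟨rfl, rfl⟩ | ⟨h4, h5, rfl⟩
  · exact S.U2_join_zero h3
  · exact S.U2_join_small h4 h5 h3

theorem R_add {w : P} (hw : S.real w) (s s' : ℤ) {a : Ad P} (ha : S.Val a) :
    S.R w s (S.R w s' a) = S.R w (s + s') a := by
  by_cases h : a = pt w
  · rw [h, R_pt, R_pt, R_pt]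
  obtain ⟨t, r, h1, -, h3, -, -⟩ := S.U2_decomp ha h
  rw [S.U2_R h1, S.U2_R h1, S.U2_R (S.U2_split_join hw _ h3), ← S.U2_join_add hw _ _ h3,
    add_assoc, Int.emod_add_mul_ediv, add_assoc]

theorem R_gamma {w : P} (hw : S.real w) (q : ℤ) {a : Ad P} (ha : S.Val a) :
    S.R w (S.d w * q) a = S.γ w ^ q • a := by
  by_cases h : a = pt w
  · rw [h, R_pt, smul_pt, (S.γ_zpow hw q).1]
  obtain ⟨t, r, h1, -, h3, -, h4⟩ := S.U2_decomp ha h
  rw [S.U2_R h1, add_comm, S.U2_join_add hw _ _ h3]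
  rcases h4 with ⟨rfl, rfl⟩ | ⟨h4, h5, rfl⟩
  · exact S.U2_join_zero (S.U2_head hw q h3)
  · rw [S.U2_join_small h4 h5 (S.U2_head hw q h3), smul_sw, (S.γ_zpow hw q).1]

theorem R_smul {w : P} (hw : S.real w) (g : Γ) (s : ℤ) (a : Ad P) :
    g • S.R w s a = S.R (g • w) s (g • a) := by
  have h1 : split (g • w) (g • a) = ((split w a).1, g • (split w a).2) := by
    cases a with
    | pt p => rfl
    | sw w' t r =>
      by_cases e : w' = w
      · rw [e, smul_sw, split_sw, split_sw]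
      · have e' : g • w' ≠ g • w := fun h => e (smul_left_cancel g h)
        simp only [smul_sw, split, if_neg e, if_neg e']
  rw [S.U2_R h1, R]
  generalize s + (split w a).1 = k
  generalize (split w a).2 = r
  have h2 : ∀ q : ℤ, S.γ (g • w) ^ q • g • r = g • S.γ w ^ q • r := fun q => by
    rw [S.γ_smul g w hw, conj_zpow, mul_smul, mul_smul, inv_smul_smul]
  by_cases h : r = pt w
  · rw [h, smul_pt, join, join, if_pos rfl, if_pos rfl, smul_pt]
  · have h' : g • r ≠ pt (g • w) := fun e => h (smul_left_cancel g e)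
    rw [join, join, if_neg h, if_neg h', (S.inv_smul hw g).2.2.1, h2]
    split_ifs <;> rfl

theorem R_sw {w : P} {t : ℤ} {r : Ad P} (h : S.Val (sw w t r)) : S.R w t r = sw w t r := by
  rw [S.U2_R (split_free (free_of_head h.2.2.2.1)), add_zero,
    S.U2_join_small h.2.1 h.2.2.1 h.2.2.2.1]

theorem R_neg_sw {w : P} {t : ℤ} {r : Ad P} (h : S.Val (sw w t r)) :
    S.R w (-t) (sw w t r) = r := by
  rw [S.U2_R (split_sw w t r), neg_add_cancel, S.U2_join_zero h.2.2.2.1]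

theorem R_inj {w : P} (hw : S.real w) (s : ℤ) {a b : Ad P} (ha : S.Val a) (hb : S.Val b)
    (h : S.R w s a = S.R w s b) : a = b := by
  rw [← S.R_zero hw ha, ← S.R_zero hw hb, ← neg_add_cancel s, ← S.R_add hw _ _ ha,
    ← S.R_add hw _ _ hb, h]

/-- The normal form of `R w s a`. -/
theorem R_form {w : P} (hw : S.real w) (s : ℤ) {a : Ad P} (ha : S.Val a) (h : a ≠ pt w) :
    ∃ (t q m : ℤ) (r : Ad P), split w a = (t, r) ∧ S.Val r ∧ r.head ≠ w ∧ r.last = a.last ∧
      (t = 0 ∧ a = r ∨ 0 < t ∧ t < S.d w ∧ a = sw w t r) ∧ s + t = S.d w * q + m ∧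
      (m = 0 ∧ S.R w s a = S.γ w ^ q • r ∨
        0 < m ∧ m < S.d w ∧ S.R w s a = sw w m (S.γ w ^ q • r)) := by
  obtain ⟨t, r, h1, h2, h3, h4, h5⟩ := S.U2_decomp ha h
  have hd := (S.arith hw).1
  refine ⟨t, (s + t) / S.d w, (s + t) % S.d w, r, h1, h2, h3, h4, h5,
    (Int.mul_ediv_add_emod _ _).symm, ?_⟩
  rw [S.U2_R h1, S.U2_join h3]
  by_cases e : (s + t) % S.d w = 0
  · exact Or.inl ⟨e, if_pos e⟩
  · exact Or.inr ⟨lt_of_le_of_ne (Int.emod_nonneg _ hd.ne') (Ne.symm e), Int.emod_lt_of_pos _ hd,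
      if_neg e⟩

theorem last_R {w : P} (hw : S.real w) (s : ℤ) {a : Ad P} (ha : S.Val a) :
    ∃ q : ℤ, (S.R w s a).last = S.γ w ^ q • a.last := by
  by_cases h : a = pt w
  · exact ⟨0, by rw [h, R_pt, zpow_zero, one_smul]⟩
  obtain ⟨t, q, m, r, -, -, -, h1, -, -, h2⟩ := S.R_form hw s ha h
  refine ⟨q, ?_⟩
  rcases h2 with ⟨-, h2⟩ | ⟨-, -, h2⟩
  · rw [h2, last_smul, h1]
  · rw [h2, last, last_smul, h1]

/-- Unless the switch cancels, the new address starts at `w`. -/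
theorem head_R {w : P} {t : ℤ} (hw : S.real w) (h0 : 0 < t) (h1 : t < S.d w) {a : Ad P}
    (ha : S.Val a) (h : ∀ r, a ≠ sw w t r) :
    S.R w (-t) a = pt w ∨ ∃ m r, S.R w (-t) a = sw w m r := by
  by_cases e : a = pt w
  · exact Or.inl (by rw [e, R_pt])
  obtain ⟨t', q, m, r, -, -, -, -, h2, h3, h4⟩ := S.R_form hw (-t) ha e
  rcases h4 with ⟨rfl, -⟩ | ⟨-, -, h4⟩
  · have h5 : 0 ≤ t' ∧ t' < S.d w := by
      rcases h2 with ⟨h2, -⟩ | ⟨h2, h2', -⟩ <;> omega
    have h6 : q = 0 := by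
      by_contra hq
      rcases lt_or_gt_of_ne hq with hq | hq <;> nlinarith [h5.1, h5.2]
    rw [h6] at h3
    rcases h2 with ⟨h2, -⟩ | ⟨-, -, h2⟩
    · omega
    · exact absurd (by rw [h2, show t' = t by omega]) (h r)
  · exact Or.inr ⟨_, _, h4⟩

end RQ

end Pool.Agent.Work.MP_3d425c_gt.Bor
end

-- merged part: Pool.Agent.Work.MP_3d425c_gt.PAU3
section
/-! Unfolding: projection to the base copy. -/

namespace Pool.Agent.Work.MP_3d425c_gt.Bor
open Classical

namespace RQ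
variable {Γ P : Type} [Group Γ] [MulAction Γ P] (S : RQ Γ P)
open Ad

theorem loc_real {a : Ad P} (ha : S.Val a) (h : S.real (S.loc a)) : a = pt (S.loc a) := by
  cases a with
  | pt p => rfl
  | sw w t r => exact absurd h (S.cut_nreal w _ _ ha.1)

theorem loc_ne {w : P} (hw : S.real w) {a : Ad P} (ha : S.Val a) (h : a ≠ pt w) :
    S.loc a ≠ w := fun e => h (e ▸ S.loc_real ha (e.symm ▸ hw))

theorem loc_smul (g : Γ) {a : Ad P} (ha : S.Val a) : S.loc (g • a) = g • S.loc a := by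
  induction a with
  | pt p => rfl
  | sw w t r ih =>
    obtain ⟨hw, -, -, hh, hr⟩ := ha
    have hne : S.loc r ≠ w := S.loc_ne hw hr fun e => hh (by rw [e]; rfl)
    obtain ⟨-, -, e1, e2, -, e3⟩ := S.inv_smul hw g
    rw [smul_sw, loc, loc, ih hr, S.equiv g w _ hne, S.lev_smul hw hne, S.beta_spec.2.1 g w _ _ hw,
      e1, e2, e3, S.cut_smul g w _ _ hw, ← S.MM_smul hw g, add_right_comm,
      add_right_comm (S.beta w _ _)]

theorem BB_free {w : P} {a : Ad P} (h : Free w a) :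
    S.BB w a = S.beta w (S.II w a) (S.lev w (S.loc a)) := by
  rw [BB, split_free h, zero_mul, add_zero]
  rfl

theorem PAU3_II {w : P} (hw : S.real w) (t : ℤ) (r : Ad P) :
    S.II w (sw w t r) = S.dir w (S.loc r) + t * S.n' w := S.dir_cut w _ _ hw

theorem PAU3_BB (w : P) (t : ℤ) (r : Ad P) : S.BB w (sw w t r) =
    S.beta w (S.dir w (S.loc r)) (S.lev w (S.loc r)) + t * (S.d w * S.D w) := by
  rw [BB, split_sw]

theorem PAU3_form {w : P} (hw : S.real w) {t : ℤ} {r a : Ad P} (hh : r.head ≠ w)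
    (h : t = 0 ∧ a = r ∨ a = sw w t r) : S.II w a = S.dir w (S.loc r) + t * S.n' w ∧
      S.BB w a = S.beta w (S.dir w (S.loc r)) (S.lev w (S.loc r)) + t * (S.d w * S.D w) := by
  rcases h with ⟨rfl, rfl⟩ | rfl
  · rw [S.BB_free (free_of_head hh), zero_mul, zero_mul, add_zero, add_zero]
    exact ⟨rfl, rfl⟩
  · exact ⟨S.PAU3_II hw t r, S.PAU3_BB w t r⟩

theorem PAU3_nfree {w : P} {a : Ad P} (h : ¬ Free w a) : ∃ t r, a = sw w t r := by
  by_contra k
  exact h fun t r e => k ⟨t, r, e⟩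

theorem loc_sw {w : P} {t : ℤ} {r : Ad P} (h : S.Val (sw w t r)) :
    S.loc (sw w t r) = S.cut w (S.II w (sw w t r))
      (S.MM w (S.II w (sw w t r)) (S.BB w (sw w t r))) := by
  rw [S.PAU3_II h.1, S.PAU3_BB]
  rfl

theorem BB_sw_ne {w : P} {t : ℤ} {r : Ad P} (h : S.Val (sw w t r)) (l : ℤ) :
    S.BB w (sw w t r) ≠ S.beta w (S.II w (sw w t r)) l := by
  intro e
  rw [S.PAU3_II h.1, S.PAU3_BB] at e
  exact absurd (Int.le_of_dvd h.2.1 (S.beta_spec.2.2 w _ _ _ t h.1 e)) (not_le.2 h.2.2.1)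

theorem II_BB_R {w : P} (hw : S.real w) (s : ℤ) {a : Ad P} (ha : S.Val a) (h : a ≠ pt w) :
    S.II w (S.R w s a) = S.II w a + s * S.n' w ∧
      S.BB w (S.R w s a) = S.BB w a + s * (S.d w * S.D w) := by
  obtain ⟨t, q, m, r, -, hr, hh, -, hc, hs, hc'⟩ := S.R_form hw s ha h
  obtain ⟨g1, g2, -, g3⟩ := S.γ_zpow hw q
  have hne : S.loc r ≠ w := S.loc_ne hw hr fun e => hh (by rw [e]; rfl)
  have hh' : (S.γ w ^ q • r).head ≠ w := by
    rw [head_smul]
    intro e
    exact hh (MulAction.injective _ (e.trans g1.symm))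
  obtain ⟨a1, a2⟩ := S.PAU3_form hw hh (hc.imp id fun k => k.2.2)
  obtain ⟨b1, b2⟩ := S.PAU3_form hw hh' (hc'.imp id fun k => k.2.2)
  have c1 := S.equiv (S.γ w ^ q) w _ hne
  have c2 := S.lev_smul hw hne (S.γ w ^ q)
  have c3 := S.beta_spec.2.1 (S.γ w ^ q) w (S.dir w (S.loc r)) (S.lev w (S.loc r)) hw
  rw [g1] at c1 c2 c3
  rw [S.loc_smul _ hr, c1] at b1 b2
  rw [c2, c3] at b2
  rw [a1, a2, b1, b2, g2, g3, (S.arith hw).2.1]
  constructor
  · linear_combination (-S.n' w) * hs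
  · linear_combination (-(S.d w * S.D w)) * hs

/-- Addresses in one block have the same projection unless the block is a base block. -/
theorem loc_eq_of_block {w : P} {t : ℤ} {r a : Ad P} (h : S.Val (sw w t r)) (ha : S.Val a)
    (hw : a ≠ pt w) (h1 : S.II w a = S.II w (sw w t r)) (h2 : S.BB w a = S.BB w (sw w t r)) :
    S.loc a = S.loc (sw w t r) := by
  have _ := hw
  by_cases hf : Free w a
  · rw [S.BB_free hf, h1] at h2
    exact absurd h2.symm (S.BB_sw_ne h _)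
  · obtain ⟨t', r', rfl⟩ := PAU3_nfree hf
    rw [S.loc_sw ha, S.loc_sw h, h1, h2]

theorem wb_loc {w : P} (hw : S.real w) {a : Ad P} (ha : S.Val a) (h : a ≠ pt w) (i l : ℤ) :
    Wb S.dir w (S.cut w i l) (S.loc a) ↔ i = S.II w a ∧ S.beta w i (l - 1) < S.BB w a := by
  by_cases hf : Free w a
  · rw [S.lev_spec hw (S.loc_ne hw ha h), S.BB_free hf]
    refine and_congr_right fun e => ?_
    rw [show S.II w a = i from e.symm, (S.beta_spec.1 w i hw).lt_iff_lt]
    omega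
  · obtain ⟨t, r, rfl⟩ := PAU3_nfree hf
    rw [S.loc_sw ha, S.wb_cut_cut hw]
    refine and_congr_right fun e => ?_
    have h1 := S.MM_spec hw (S.II w (sw w t r)) (S.BB w (sw w t r)) (l - 1)
    have h2 := S.BB_sw_ne ha (l - 1)
    rw [e]
    omega

theorem btw_loc {w : P} (hw : S.real w) {a : Ad P} (ha : S.Val a) (h : a ≠ pt w) (i l : ℤ)
    (hf : Free w a → S.loc a ≠ S.cut w i l) :
    Btw S.dir w (S.cut w i l) (S.loc a) ↔ i = S.II w a ∧ S.beta w i l ≤ S.BB w a := by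
  by_cases hf' : Free w a
  · have e0 : Btw S.dir w (S.cut w i l) (S.loc a) ↔ Wb S.dir w (S.cut w i l) (S.loc a) :=
      ⟨Btw.wb, fun k => k.btw (S.cut_ne hw i l).symm (hf hf')⟩
    rw [e0, S.lev_spec hw (S.loc_ne hw ha h), S.BB_free hf']
    refine and_congr_right fun e => ?_
    rw [show S.II w a = i from e.symm, (S.beta_spec.1 w i hw).le_iff_le]
  · obtain ⟨t, r, rfl⟩ := PAU3_nfree hf'
    rw [S.loc_sw ha, S.btw_cut_cut hw]
    refine and_congr_right fun e => ?_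
    have h1 := S.MM_spec hw (S.II w (sw w t r)) (S.BB w (sw w t r)) l
    rw [e]
    omega

theorem free_loc_ne {w : P} (hw : S.real w) {a : Ad P} (ha : S.Val a) (hr : S.real a.last)
    (hf : Free w a) (i l : ℤ) : S.loc a ≠ S.cut w i l := by
  cases a with
  | pt p =>
    intro e
    exact S.cut_nreal w i l hw (e ▸ hr)
  | sw w' t r =>
    intro e
    exact hf t r (by rw [S.cut_inj w' _ _ w i l ha.1 hw e])

/-- For a free address only the projection matters. -/
theorem loc_R_free {w : P} {t : ℤ} (hw : S.real w) (h0 : 0 < t) (h1 : t < S.d w) {a : Ad P}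
    (ha : S.Val a) (hf : Free w a) : S.loc (S.R w (-t) a) = S.loc (S.R w (-t) (pt (S.loc a))) := by
  by_cases h : a = pt w
  · rw [h]
    rfl
  have hne : pt (S.loc a) ≠ pt w := fun e => S.loc_ne hw ha h (Ad.pt.inj e)
  have hv : S.Val (pt (S.loc a)) := trivial
  have key : ∀ b, S.Val b → b ≠ pt w → S.R w (-t) b ≠ pt w := fun b hb hb' e =>
    hb' (S.R_inj hw (-t) hb (b := pt w) trivial (e.trans (S.R_pt w _).symm))
  obtain ⟨a1, a2⟩ := S.II_BB_R hw (-t) ha h
  obtain ⟨b1, b2⟩ := S.II_BB_R hw (-t) hv hne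
  have hf' : Free w (pt (S.loc a)) := fun _ _ e => nomatch e
  rcases S.head_R hw h0 h1 hv (fun r => hf' t r) with e | ⟨m, r, e⟩
  · exact absurd e (key _ hv hne)
  · have hv' := S.val_R hw (-t) hv
    rw [e] at hv' b1 b2 ⊢
    refine S.loc_eq_of_block hv' (S.val_R hw _ ha) (key a ha h) (a1.trans b1.symm) ?_
    rw [a2, b2, S.BB_free hf, S.BB_free hf']
    rfl

end RQ

end Pool.Agent.Work.MP_3d425c_gt.Bor
end

-- merged part: Pool.Agent.Work.MP_3d425c_gt.PAU4
section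
/-! Unfolding: equivariance of directions and the tree property. -/

namespace Pool.Agent.Work.MP_3d425c_gt.Bor
open Classical

namespace RQ
variable {Γ P : Type} [Group Γ] [MulAction Γ P] (S : RQ Γ P)
open Ad

theorem U4_ne {w : P} {t : ℤ} {r a : Ad P} (h : S.Val (sw w t r)) (ha : S.Val a)
    (hne : a ≠ sw w t r) : S.R w (-t) a ≠ r := fun e =>
  hne (S.R_inj h.1 (-t) ha h (e.trans (S.R_neg_sw h).symm))

theorem U4_real {w : P} (hw : S.real w) (s : ℤ) {a : Ad P} (ha : S.Val a) (hr : S.real a.last) :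
    S.real (S.R w s a).last := by
  obtain ⟨q, hq⟩ := S.last_R hw s ha
  rw [hq]
  exact S.real_smul _ _ hr

theorem U4_pt {w : P} (hw : S.real w) (s : ℤ) {a : Ad P} (ha : S.Val a) (h : a ≠ pt w) :
    S.R w s a ≠ pt w := fun e =>
  h (S.R_inj hw s ha (b := pt w) trivial (e.trans (S.R_pt w s).symm))

theorem dirA_smul (g : Γ) {a b : Ad P} (hb : S.Val b) (hr : S.real b.last) (ha : S.Val a)
    (h : a ≠ b) : S.dirA (g • b) (g • a) = S.dirA b a + S.c g b.last := by
  induction b generalizing a with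
  | pt p =>
    rw [smul_pt, dirA, dirA, S.loc_smul g ha]
    exact S.equiv g _ _ (S.loc_ne hr ha h)
  | sw w t r ih =>
    rw [smul_sw, dirA, dirA, ← S.R_smul hb.1, (S.inv_smul hb.1 g).2.2.2.1,
      ih hb.2.2.2.2 hr (S.val_R hb.1 _ ha) (S.U4_ne hb ha h), last]
    ring

theorem dirA_R {w : P} (hw : S.real w) (s : ℤ) {b : Ad P} (hb : S.Val b) (hr : S.real b.last) :
    ∃ k, Even (s * S.n' w - k) ∧ ∀ a, S.Val a → a ≠ b →
      S.dirA (S.R w s b) (S.R w s a) = S.dirA b a + k := by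
  by_cases hbw : b = pt w
  · subst hbw
    refine ⟨s * S.n' w, by simp, fun a ha h => ?_⟩
    rw [S.R_pt]
    exact (S.II_BB_R hw s ha h).1
  obtain ⟨t, q, m, r, -, hv, hh, hl, h1, h2, h3⟩ := S.R_form hw s hb hbw
  refine ⟨S.c (S.γ w ^ q) r.last + (m - t) * S.n' w, ?_, fun a ha h => ?_⟩
  · have e1 := S.epar (S.γ w ^ q) r.last
    rw [(S.γ_zpow hw q).2.2.1, (S.arith hw).2.2.1] at e1
    have e2 : s * S.n' w - (S.c (S.γ w ^ q) r.last + (m - t) * S.n' w) =
        q * (S.d w * (S.n' w - 2 * S.j' w)) - S.c (S.γ w ^ q) r.last +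
          2 * (q * S.d w * S.j' w) := by
      linear_combination S.n' w * h2
    rw [e2]
    exact e1.add (even_two_mul _)
  have f1 : S.dirA b a = S.dirA r (S.R w (-t) a) + t * S.n' w ∧ S.R w (-t) a ≠ r := by
    rcases h1 with ⟨rfl, rfl⟩ | ⟨-, -, rfl⟩
    · rw [neg_zero, S.R_zero hw ha, zero_mul, add_zero]
      exact ⟨rfl, h⟩
    · exact ⟨rfl, S.U4_ne hb ha h⟩
  have f2 : S.dirA (S.R w s b) (S.R w s a) =
      S.dirA (S.γ w ^ q • r) (S.R w (-m) (S.R w s a)) + m * S.n' w := by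
    rcases h3 with ⟨rfl, e⟩ | ⟨-, -, e⟩
    · rw [neg_zero, S.R_zero hw (S.val_R hw s ha), zero_mul, add_zero, e]
    · rw [e]
      rfl
  have f3 : S.R w (-m) (S.R w s a) = S.γ w ^ q • S.R w (-t) a := by
    rw [S.R_add hw _ _ ha, ← S.R_gamma hw q (S.val_R hw _ ha), S.R_add hw _ _ ha]
    congr 1
    omega
  rw [f2, f3, S.dirA_smul _ hv (hl ▸ hr) (S.val_R hw _ ha) f1.2, f1.1]
  ring

theorem off_path {a b : Ad P} (hb : S.Val b) (ha : S.Val a)
    (h : ∀ w t r, b = sw w t r → Free w a) : S.dirA b a = S.dirA b (pt (S.loc a)) := by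
  induction b generalizing a with
  | pt p => rfl
  | sw w t r ih =>
    have hf := h w t r rfl
    have key : ∀ z, S.Val z → (∀ r', z ≠ sw w t r') →
        S.dirA r (S.R w (-t) z) = S.dirA r (pt (S.loc (S.R w (-t) z))) := fun z hz hz' => by
      refine ih hb.2.2.2.2 (S.val_R hb.1 _ hz) ?_
      rintro w' t' r' rfl
      refine free_of_head ?_
      rcases S.head_R hb.1 hb.2.1 hb.2.2.1 hz hz' with e | ⟨m, r₁, e⟩ <;> rw [e] <;>
        exact hb.2.2.2.1.symm
    rw [dirA, dirA, key a ha (hf t), key (pt _) trivial (fun _ e => by cases e),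
      S.loc_R_free hb.1 hb.2.1 hb.2.2.1 ha hf]

theorem U4_below {w : P} (hw : S.real w) {z : Ad P} (hz : S.Val z) (hr : S.real z.last) {I l : ℤ}
    (h : z = pt w ∨ S.II w z ≠ I ∨ S.BB w z < S.beta w I l) :
    S.loc z = S.cut w I l ∨ S.dir (S.cut w I l) w = S.dir (S.cut w I l) (S.loc z) := by
  by_cases e : z = pt w
  · rw [e]
    exact Or.inr rfl
  by_contra hn
  rw [not_or] at hn
  have h1 := (S.btw_loc hw hz e I l fun hf => S.free_loc_ne hw hz hr hf I l).1
    ⟨(S.cut_ne hw I l).symm, hn.1, hn.2⟩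
  rcases h.resolve_left e with h | h
  exacts [h h1.1.symm, h.not_ge h1.2]

theorem U4_above {w : P} (hw : S.real w) {z : Ad P} (hz : S.Val z) {I l : ℤ} (h : z ≠ pt w)
    (h1 : S.II w z = I) (h2 : S.beta w I (l - 1) < S.BB w z) :
    S.loc z = S.cut w I l ∨ S.dir (S.cut w I l) w ≠ S.dir (S.cut w I l) (S.loc z) :=
  ((S.wb_loc hw hz h I l).2 ⟨h1.symm, h2⟩).resolve_left (S.cut_ne hw I l).symm

theorem wb_of_dirA {v a b : Ad P} (hv : S.Val v) (hr : S.real v.last) (ha : S.Val a)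
    (har : S.real a.last) (hb : S.Val b) (hbr : S.real b.last) (h1 : a ≠ v) (h2 : b ≠ v)
    (h : S.dirA v a ≠ S.dirA v b) : Wb S.dir (S.loc a) (S.loc v) (S.loc b) := by
  induction v generalizing a b with
  | pt p => exact Or.inr (Or.inr h)
  | sw w t r ih =>
    have hw := hv.1
    have hvr := hv.2.2.2.2
    have IH := ih hvr hr (S.val_R hw (-t) ha) (S.U4_real hw _ ha har) (S.val_R hw (-t) hb)
      (S.U4_real hw _ hb hbr) (S.U4_ne hv ha h1) (S.U4_ne hv hb h2)
      fun e => h (by rw [dirA, dirA, e])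
    have hrw : r ≠ pt w := fun e => hv.2.2.2.1 (e ▸ rfl)
    have hfr : Free w r := free_of_head hv.2.2.2.1
    have e1 := S.II_BB_R hw (-t) hv fun e => by cases e
    rw [S.R_neg_sw hv] at e1
    have e2 := S.BB_free hfr
    have e3 := S.loc_sw hv
    have e4 := S.MM_spec hw (S.II w (sw w t r)) (S.BB w (sw w t r))
    have e5 := S.BB_sw_ne hv
    have e6 := fun z => S.loc_eq_of_block (a := z) hv
    generalize S.MM w (S.II w (sw w t r)) (S.BB w (sw w t r)) = M at e3 e4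
    generalize S.II w (sw w t r) = I at e1 e3 e4 e5 e6
    generalize S.BB w (sw w t r) = B at e1 e4 e5 e6
    generalize S.lev w (S.loc r) = l at e2
    have b1 : B < S.beta w I M := (e4 M).2 le_rfl
    have b2 : S.beta w I (M - 1) < B :=
      lt_of_le_of_ne (not_lt.1 fun e => by have := (e4 _).1 e; omega) (e5 _).symm
    have k0 := ((S.btw_loc hw hvr hrw (S.II w r) l
      fun hf => S.free_loc_ne hw hvr hr hf _ _).2 ⟨rfl, e2.ge⟩).2
    have k1 := (not_wb.1 fun e => ((S.wb_loc hw hvr hrw (S.II w r) (l + 1)).1 e).2.ne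
      (by rw [add_sub_cancel_right, e2])).2
    have cls : ∀ z, S.Val z → S.real z.last → S.loc z = S.cut w I M ∨
        (S.dir (S.cut w I M) w = S.dir (S.cut w I M) (S.loc z) ∧
          S.loc (S.R w (-t) z) ≠ S.loc r ∧ S.dir (S.loc r) (S.loc (S.R w (-t) z)) =
            S.dir (S.loc r) (S.cut w (S.II w r) l)) ∨
        (S.dir (S.cut w I M) w ≠ S.dir (S.cut w I M) (S.loc z) ∧
          S.loc (S.R w (-t) z) ≠ S.loc r ∧ S.dir (S.loc r) (S.loc (S.R w (-t) z)) =
            S.dir (S.loc r) (S.cut w (S.II w r) (l + 1))) := fun z hz hzr => by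
      have hz' := S.val_R hw (-t) hz
      by_cases c1 : z = pt w ∨ S.II w z ≠ I ∨ S.BB w z < B
      · refine (S.U4_below hw hz hzr (c1.imp_right (Or.imp_right fun e => e.trans b1))).imp_right
          fun e => Or.inl ⟨e, S.t1.key k0.1 ?_⟩
        refine (S.U4_below hw hz' (S.U4_real hw _ hz hzr) ?_).imp_right
          fun e' e'' => k0.2 (e'.trans e'')
        by_cases c2 : z = pt w
        · exact Or.inl (by rw [c2, S.R_pt])
        have e7 := S.II_BB_R hw (-t) hz c2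
        rcases c1.resolve_left c2 with c | c
        · exact Or.inr (Or.inl (by omega))
        · exact Or.inr (Or.inr (by omega))
      simp only [not_or, not_not, not_lt] at c1
      obtain ⟨c1, c2, c3⟩ := c1
      rcases c3.eq_or_lt with c3 | c3
      · exact Or.inl ((e6 z hz c1 c2 c3.symm).trans e3)
      have e7 := S.II_BB_R hw (-t) hz c1
      refine (S.U4_above hw hz c1 c2 (b2.trans c3)).imp_right
        fun e => Or.inr ⟨e, S.t1.key k1.1 ?_⟩
      refine (S.U4_above hw hz' (S.U4_pt hw _ hz c1) (by omega) ?_).imp_right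
        fun e' => (k1.2 ▸ e').symm
      rw [add_sub_cancel_right]
      omega
    rw [e3]
    rcases cls a ha har with ca | ca | ca
    · exact Or.inl ca
    all_goals
      rcases cls b hb hbr with cb | cb | cb
      · exact Or.inr (Or.inl cb)
    · exact absurd IH (not_wb.2 ⟨ca.2.1, cb.2.1, ca.2.2.trans cb.2.2.symm⟩)
    · exact Or.inr (Or.inr (ca.1 ▸ cb.1))
    · exact Or.inr (Or.inr (cb.1 ▸ ca.1).symm)
    · exact absurd IH (not_wb.2 ⟨ca.2.1, cb.2.1, ca.2.2.trans cb.2.2.symm⟩)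

theorem U4_t1 {a v b : Ad P} (ha : S.Val a) (har : S.real a.last) (hv : S.Val v)
    (hr : S.real v.last) (hb : S.Val b) (hbr : S.real b.last) (h1 : a ≠ v) (h2 : b ≠ v)
    (h : S.dirA v a ≠ S.dirA v b) : S.dirA a b = S.dirA a v := by
  induction a generalizing v b with
  | pt x =>
    exact (S.wb_of_dirA hv hr ha har hb hbr h1 h2 h).dir_eq S.t1 (S.loc_ne har hv h1.symm).symm
  | sw w t r ih =>
    obtain ⟨k, -, hk⟩ := S.dirA_R ha.1 (-t) hv hr
    have e := hk _ ha h1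
    rw [S.R_neg_sw ha] at e
    rw [dirA, dirA, ih ha.2.2.2.2 har (S.val_R ha.1 _ hv) (S.U4_real ha.1 _ hv hr)
      (S.val_R ha.1 _ hb) (S.U4_real ha.1 _ hb hbr) (S.U4_ne ha hv h1.symm).symm
      (fun e => h2 (S.R_inj ha.1 _ hb hv e)) (by rw [e, hk _ hb h2]; omega)]

theorem t1' : T1 S.dir' := fun a v b h1 h2 h =>
  S.U4_t1 a.2.1 a.2.2 v.2.1 v.2.2 b.2.1 b.2.2 (fun e => h1 (Subtype.ext e))
    (fun e => h2 (Subtype.ext e)) h

end RQ

end Pool.Agent.Work.MP_3d425c_gt.Bor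
end

-- merged part: Pool.Agent.Work.MP_3d425c_gt.PAU5
section
/-! Unfolding: finiteness of big turns and parity. -/

namespace Pool.Agent.Work.MP_3d425c_gt.Bor
open Classical

namespace RQ
variable {Γ P : Type} [Group Γ] [MulAction Γ P] (S : RQ Γ P)
open Ad

/-- The point `w` and its cut points. -/
def Star (w x : P) : Prop := x = w ∨ ∃ i l, x = S.cut w i l

theorem PAU5_base {w p x y : P} (hw : S.real w) (hp : S.real p) (h : p ≠ w) (hx : S.Star w x)
    (hy : S.Star w y) : |S.dir p y - S.dir p x| ≤ 1 := by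
  have hc : ∀ i l, S.cut w i l ≠ p := fun i l e => S.cut_nreal w i l hw (e ▸ hp)
  have h1 : ∀ i l, |S.dir p (S.cut w i l) - S.dir p w| ≤ 1 := fun i l =>
    S.cut_small w i l hw p h.symm (hc i l)
  rcases hx with rfl | ⟨i, l, rfl⟩ <;> rcases hy with rfl | ⟨i', l', rfl⟩
  · simp
  · exact h1 _ _
  · rw [abs_sub_comm]; exact h1 _ _
  · by_cases e : i = i'
    · subst e
      rcases le_total l l' with k | k
      · exact (S.cut_small w i l' hw).sub S.t1 ((S.wb_cut_cut hw _ _ _ _).2 ⟨rfl, k⟩)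
          (wb_right _ _) p (hc _ _) (hc _ _)
      · exact (S.cut_small w i l hw).sub S.t1 (wb_right _ _)
          ((S.wb_cut_cut hw _ _ _ _).2 ⟨rfl, k⟩) p (hc _ _) (hc _ _)
    · have hb : Btw S.dir (S.cut w i l) w (S.cut w i' l') :=
        ⟨S.cut_ne hw _ _, S.cut_ne hw _ _, by rwa [S.dir_cut _ _ _ hw, S.dir_cut _ _ _ hw]⟩
      rcases S.t1.split hb h with k | k <;> rw [k.2]
      · exact h1 _ _
      · rw [abs_sub_comm]; exact h1 _ _

theorem PAU5_star {w : P} {t : ℤ} {r a : Ad P} (hu : S.Val (sw w t r)) (ha : S.Val a)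
    (h : ∀ r', a ≠ sw w t r') : S.Star w (S.loc (S.R w (-t) a)) := by
  rcases S.head_R hu.1 hu.2.1 hu.2.2.1 ha h with e | ⟨m, r', e⟩ <;> rw [e]
  · exact Or.inl rfl
  · exact Or.inr ⟨_, _, rfl⟩

theorem PAU5_key {w : P} {t : ℤ} {r a : Ad P} (hu : S.Val (sw w t r)) (ha : S.Val a)
    (h : ∀ r', a ≠ sw w t r') :
    S.dirA (sw w t r) a = S.dirA r (pt (S.loc (S.R w (-t) a))) + t * S.n' w := by
  rw [dirA, S.off_path hu.2.2.2.2 (S.val_R hu.1 _ ha)]
  rintro w' t' r' rfl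
  refine free_of_head fun e => hu.2.2.2.1 ?_
  rcases S.head_R hu.1 hu.2.1 hu.2.2.1 ha h with e' | ⟨m, r'', e'⟩ <;> rw [e'] at e <;>
    exact e.symm

theorem PAU5_self {w : P} {t : ℤ} {r r' : Ad P} (h : S.Val (sw w t r')) :
    S.dirA (sw w t r) (sw w t r') = S.dirA r r' + t * S.n' w := by
  rw [dirA, S.R_neg_sw h]

theorem small_star {u : Ad P} (hu : S.Val u) (hr : S.real u.last) {w x y : P} (hw : S.real w)
    (h : u.head ≠ w) (hx : S.Star w x) (hy : S.Star w y) :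
    |S.dirA u (pt y) - S.dirA u (pt x)| ≤ 1 := by
  induction u generalizing w x y with
  | pt p => exact S.PAU5_base hw hr h hx hy
  | sw w' t r ih =>
    rw [S.PAU5_key hu (a := pt y) trivial nofun, S.PAU5_key hu (a := pt x) trivial nofun,
      add_sub_add_right_eq_sub]
    exact ih hu.2.2.2.2 hr hu.1 hu.2.2.2.1 (S.PAU5_star hu trivial nofun)
      (S.PAU5_star hu trivial nofun)

theorem small_sw {w : P} {t : ℤ} {r : Ad P} (hu : S.Val (sw w t r)) (hr : S.real r.last)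
    {a b : Ad P} (ha : S.Val a) (hb : S.Val b) (h1 : ∀ r', a ≠ sw w t r')
    (h2 : ∀ r', b ≠ sw w t r') : |S.dirA (sw w t r) b - S.dirA (sw w t r) a| ≤ 1 := by
  rw [S.PAU5_key hu ha h1, S.PAU5_key hu hb h2, add_sub_add_right_eq_sub]
  exact S.small_star hu.2.2.2.2 hr hu.1 hu.2.2.2.1 (S.PAU5_star hu ha h1) (S.PAU5_star hu hb h2)

theorem PAU5_real_R {w : P} (hw : S.real w) (s : ℤ) {a : Ad P} (ha : S.Val a)
    (hr : S.real a.last) : S.real (S.R w s a).last := by
  obtain ⟨q, e⟩ := S.last_R hw s ha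
  rw [e]
  exact S.real_smul _ _ hr

theorem PAU5_ne {w z : P} (hw : S.real w) (hz : S.Star w z) {u : Ad P} (hr : S.real u.last)
    (h : u.head ≠ w) : pt z ≠ u := by
  rintro rfl
  rcases hz with rfl | ⟨i, l, rfl⟩
  · exact h rfl
  · exact S.cut_nreal w i l hw hr

/-- The vertices with a big turn. -/
def PAU5_big (a b : Ad P) : Set (Ad P) :=
  {u | S.Val u ∧ S.real u.last ∧ a ≠ u ∧ b ≠ u ∧ ¬ |S.dirA u b - S.dirA u a| ≤ 1}

theorem PAU5_fin0 (x y : P) : (S.PAU5_big (pt x) (pt y)).Finite := by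
  refine ((S.fin x y).image pt).subset ?_
  rintro (p | ⟨w, t, r⟩) ⟨h1, h2, h3, h4, h5⟩
  · exact ⟨p, ⟨fun e => h3 (e ▸ rfl), fun e => h4 (e ▸ rfl), h5⟩, rfl⟩
  · exact (h5 (S.small_sw h1 h2 trivial trivial nofun nofun)).elim

theorem PAU5_fin1 {b : Ad P} (hb : S.Val b) (x : P) : (S.PAU5_big (pt x) b).Finite := by
  induction b generalizing x with
  | pt y => exact S.PAU5_fin0 x y
  | sw w t r ih =>
    refine (((ih hb.2.2.2.2 (S.loc (S.R w (-t) (pt x)))).image (sw w t)).union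
      (S.PAU5_fin0 x (S.loc (sw w t r)))).subset ?_
    rintro u ⟨h1, h2, h3, h4, h5⟩
    by_cases hf : Free w u
    · refine Or.inr ⟨h1, h2, h3, ?_, ?_⟩
      · rintro rfl
        exact S.cut_nreal _ _ _ hb.1 h2
      · rwa [← S.off_path h1 hb]
        rintro w' t' r' rfl
        exact free_of_head fun e => hf t' r' (congrArg (sw · t' r') e.symm)
    · simp only [Free, not_forall, not_not] at hf
      obtain ⟨t', u', rfl⟩ := hf
      by_cases e : t' = t
      · subst e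
        rw [S.PAU5_self hb, S.PAU5_key h1 (a := pt x) trivial nofun, add_sub_add_right_eq_sub] at h5
        exact Or.inl ⟨u', ⟨h1.2.2.2.2, h2, S.PAU5_ne h1.1
          (S.PAU5_star h1 (a := pt x) trivial nofun) h2 h1.2.2.2.1, fun e => h4 (e ▸ rfl), h5⟩, rfl⟩
      · exact (h5 (S.small_sw h1 h2 trivial hb nofun fun r' e' => e (by cases e'; rfl))).elim

theorem PAU5_fin2 {a b : Ad P} (ha : S.Val a) (hb : S.Val b) : (S.PAU5_big a b).Finite := by
  induction a generalizing b with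
  | pt x => exact S.PAU5_fin1 hb x
  | sw w t r ih =>
    refine Set.Finite.of_finite_image (f := S.R w (-t))
      ((ih ha.2.2.2.2 (S.val_R ha.1 (-t) hb)).subset ?_)
      fun u hu u' hu' e => S.R_inj ha.1 _ hu.1 hu'.1 e
    rintro _ ⟨u, ⟨h1, h2, h3, h4, h5⟩, rfl⟩
    obtain ⟨k, -, hk⟩ := S.dirA_R ha.1 (-t) h1 h2
    have e := hk _ ha h3
    rw [S.R_neg_sw ha] at e
    refine ⟨S.val_R ha.1 _ h1, S.PAU5_real_R ha.1 _ h1 h2,
      fun e' => h3 (S.R_inj ha.1 _ ha h1 ((S.R_neg_sw ha).trans e')),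
      fun e' => h4 (S.R_inj ha.1 _ hb h1 e'), ?_⟩
    rwa [e, hk _ hb h4, add_sub_add_right_eq_sub]

theorem fin' : FinB S.dir' := by
  intro a b
  refine ((S.PAU5_fin2 a.2.1 b.2.1).preimage Subtype.val_injective.injOn).subset ?_
  rintro u ⟨h1, h2, h3⟩
  exact ⟨u.2.1, u.2.2, fun e => h1 (Subtype.ext e), fun e => h2 (Subtype.ext e), h3⟩

/-- All turns are small. -/
def PAU5_sm (a b : Ad P) : Prop :=
  ∀ u, S.Val u → S.real u.last → a ≠ u → b ≠ u → |S.dirA u b - S.dirA u a| ≤ 1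

theorem PAU5_small {x : P} {b : Ad P} (h : S.PAU5_sm (pt x) b) :
    Small S.dir x (S.loc b) := fun p h1 h2 => by
  by_cases hp : S.real p
  · exact h (pt p) trivial hp (fun e => h1 (by cases e; rfl)) fun e => h2 (by rw [e]; rfl)
  · exact S.nreal_small p _ _ hp h1 h2

theorem PAU5_cut {w p : P} (hw : S.real w) (i l : ℤ) (h : p ≠ S.cut w i l) :
    (Btw S.dir w (S.cut w i l) p ↔ (S.dir (S.cut w i l) p + i) % 2 = 0) := by
  have h0 := (S.cut_ne hw i l).symm
  have h1 := S.par _ _ h0 (S.cut_small w i l hw)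
  have h2 := S.nreal_small _ _ _ (S.cut_nreal w i l hw) h0 h
  rw [S.dir_cut _ _ _ hw, Int.odd_iff] at h1
  rw [abs_le] at h2
  refine ⟨fun k => ?_, fun k => ⟨h0, h, ?_⟩⟩
  · have := k.2.2
    omega
  · omega

theorem PAU5_btw {w : P} {t : ℤ} {r a : Ad P} (hb : S.Val (sw w t r)) (ha : S.Val a)
    (h : a.head ≠ w) (hne : S.loc a ≠ S.loc (sw w t r)) :
    ((S.dir (S.loc (sw w t r)) (S.loc a) + S.II w (sw w t r)) % 2 = 0 ↔
      S.II w (sw w t r) = S.II w a ∧ S.BB w (sw w t r) < S.BB w a) := by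
  rw [S.loc_sw hb] at hne ⊢
  rw [← S.PAU5_cut hb.1 _ _ hne, S.btw_loc hb.1 ha (fun e => h (e ▸ rfl)) _ _ fun _ => hne,
    S.BB_free (free_of_head h)]
  refine and_congr_right fun e => ?_
  rw [← e, S.MM_spec hb.1, (S.beta_spec.1 w _ hb.1).le_iff_le]

theorem PAU5_par1 {b : Ad P} (hb : S.Val b) (hr : S.real b.last) {x : P} (hx : x ≠ S.loc b)
    (h : S.PAU5_sm (pt x) b) : Odd (S.dir x (S.loc b) + S.dirA b (pt x)) := by
  induction b generalizing x with
  | pt y => exact S.par x y hx (S.PAU5_small h)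
  | sw w t r ih =>
    obtain ⟨hw, t0, t1, hh, hv⟩ := id hb
    have hst := S.PAU5_star hb (a := pt x) trivial nofun
    have hrw : r ≠ pt w := fun e => hh (e ▸ rfl)
    have hk : S.loc (S.R w (-t) (pt x)) ≠ S.loc r := by
      rcases hst with e | ⟨i, l, e⟩ <;> rw [e]
      · exact (S.loc_ne hw hv hrw).symm
      · exact (S.free_loc_ne hw hv hr (free_of_head hh) i l).symm
    have hR := S.II_BB_R hw (-t) hb nofun
    rw [S.R_neg_sw hb] at hR
    have hturn : x ≠ w → |S.II w (sw w t r) - S.II w (pt x)| ≤ 1 := fun e =>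
      h (pt w) trivial hw (fun e' => e (by cases e'; rfl)) nofun
    have h1 := ih hv hr hk fun u hu hur h1 h2 => by
      by_cases e : u.head = w
      · rcases u with p | ⟨w', t', u'⟩
        · obtain rfl : p = w := e
          have e1 : x ≠ p := fun e' => h1 (by rw [e', S.R_pt]; rfl)
          have e2 := (S.II_BB_R hw (-t) (a := pt x) trivial fun e' => e1 (by cases e'; rfl)).1
          have e3 := hturn e1
          change |S.II p r - S.II p (S.R p (-t) (pt x))| ≤ 1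
          rwa [hR.1, e2, add_sub_add_right_eq_sub]
        · obtain rfl : w' = w := e
          exact S.small_sw hu hur trivial hv nofun fun r' e' => hh (e' ▸ rfl)
      · have hu' : S.Val (sw w t u) := ⟨hw, t0, t1, e, hu⟩
        have e1 := h _ hu' hur nofun fun e' => h2 (by cases e'; rfl)
        rwa [S.PAU5_self hb, S.PAU5_key hu' (a := pt x) trivial nofun,
          add_sub_add_right_eq_sub] at e1
    rw [S.PAU5_key hb (a := pt x) trivial nofun]
    rw [Int.odd_iff] at h1 ⊢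
    by_cases e : x = w
    · subst e
      rw [S.R_pt] at h1 ⊢
      have e1 : S.dir x (S.loc r) = S.dir x (S.loc (sw x t r)) + -t * S.n' x := hR.1
      change (S.dir x (S.loc r) + _) % 2 = 1 at h1
      rw [neg_mul] at e1
      omega
    · have hxw : pt x ≠ pt w := fun e' => e (by cases e'; rfl)
      have hR' := S.II_BB_R hw (-t) (a := pt x) trivial hxw
      have hva := S.val_R hw (-t) (a := pt x) trivial
      obtain ⟨m, r', e'⟩ := (S.head_R hw t0 t1 (a := pt x) trivial nofun).resolve_left fun e' =>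
        hxw (S.R_inj hw (-t) trivial trivial (e'.trans (S.R_pt w _).symm))
      rw [e'] at hR' hva hk h1 ⊢
      have c1 := S.PAU5_btw hb (a := pt x) trivial e hx
      have c2 := S.PAU5_btw hva hv hh hk.symm
      have c3 := S.par _ _ hx (S.PAU5_small h)
      have c4 := hturn e
      have c5 : S.II w (sw w t r) = S.II w (pt x) → S.BB w (sw w t r) ≠ S.BB w (pt x) :=
        fun e₁ => by
          rw [S.BB_free (a := pt x) (free_of_head e), ← e₁]
          exact S.BB_sw_ne hb _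
      rw [Int.odd_iff] at c3
      rw [abs_le] at c4
      rw [hR.1, hR.2, hR'.1, hR'.2] at c2
      change (S.dir _ x + _) % 2 = 0 ↔ _ at c1
      simp only [neg_mul] at c2
      (clear * - c1 c2 c3 c4 c5 h1; lia)

theorem PAU5_par2 {a b : Ad P} (ha : S.Val a) (har : S.real a.last) (hb : S.Val b)
    (hbr : S.real b.last) (hab : a ≠ b) (h : S.PAU5_sm a b) :
    Odd (S.dirA a b + S.dirA b a) := by
  induction a generalizing b with
  | pt x => exact S.PAU5_par1 hb hbr (S.loc_ne har hb hab.symm).symm h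
  | sw w t r ih =>
    have hw := ha.1
    obtain ⟨k, hk, e⟩ := S.dirA_R hw (-t) hb hbr
    have e1 := e _ ha hab
    rw [S.R_neg_sw ha] at e1
    have h1 := ih ha.2.2.2.2 har (S.val_R hw (-t) hb) (S.PAU5_real_R hw _ hb hbr)
      (fun e' => hab (S.R_inj hw _ ha hb ((S.R_neg_sw ha).trans e'))) fun u hu hur h1 h2 => by
        have hu' := S.val_R hw t hu
        have e2 : S.R w (-t) (S.R w t u) = u := by
          rw [S.R_add hw _ _ hu, neg_add_cancel, S.R_zero hw hu]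
        have n1 : sw w t r ≠ S.R w t u := fun e' => h1 (by rw [← e2, ← e', S.R_neg_sw ha])
        have n2 : b ≠ S.R w t u := fun e' => h2 (by rw [e', e2])
        obtain ⟨k', -, e3⟩ := S.dirA_R hw (-t) hu' (S.PAU5_real_R hw t hu hur)
        have e4 := e3 _ ha n1
        have e5 := e3 _ hb n2
        rw [e2] at e4 e5
        rw [S.R_neg_sw ha] at e4
        rw [e4, e5, add_sub_add_right_eq_sub]
        exact h _ hu' (S.PAU5_real_R hw t hu hur) n1 n2
    rw [e1, Int.odd_iff] at h1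
    rw [Int.even_iff, neg_mul] at hk
    rw [dirA, Int.odd_iff]
    omega

theorem par' : Par S.dir' := by
  intro a b hab h
  exact S.PAU5_par2 a.2.1 a.2.2 b.2.1 b.2.2 (fun e => hab (Subtype.ext e)) fun u hu hr h1 h2 =>
    h ⟨u, hu, hr⟩ (fun e => h1 (congrArg Subtype.val e)) fun e => h2 (congrArg Subtype.val e)

end RQ

end Pool.Agent.Work.MP_3d425c_gt.Bor
end

-- merged part: Pool.Agent.Work.MP_3d425c_gt.PAU6
section
/-! Unfolding: the ordered quotient. -/

namespace Pool.Agent.Work.MP_3d425c_gt.Bor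
open Classical

namespace RQ
variable {Γ P : Type} [Group Γ] [MulAction Γ P] (S : RQ Γ P)
open Ad

/-- The action of the group on the vertices of the unfolded tree. -/
def u6Act (g : Γ) (a : S.VV) : S.VV :=
  ⟨g • a.1, S.val_smul g a.2.1, by rw [last_smul]; exact S.real_smul g _ a.2.2⟩

/-- The action as a homomorphism to permutations. -/
def u6Phi : Γ →* Equiv.Perm S.VV where
  toFun g :=
    { toFun := S.u6Act g
      invFun := S.u6Act g⁻¹
      left_inv := fun a => Subtype.ext (inv_smul_smul g a.1)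
      right_inv := fun a => Subtype.ext (smul_inv_smul g a.1) }
  map_one' := Equiv.ext fun a => Subtype.ext (one_smul Γ a.1)
  map_mul' g h := Equiv.ext fun a => Subtype.ext (mul_smul g h a.1)

theorem u6Phi_val (g : Γ) (a : S.VV) : (S.u6Phi g a).1 = g • a.1 := rfl

theorem u6_real_R {w : P} (hw : S.real w) (s : ℤ) {a : Ad P} (ha : S.Val a)
    (hr : S.real a.last) : S.real (S.R w s a).last := by
  obtain ⟨q, e⟩ := S.last_R hw s ha
  rw [e]
  exact S.real_smul _ _ hr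

/-- The roots of the filling elements acting on vertices. -/
noncomputable def u6RV {w : P} (hw : S.real w) (s : ℤ) (a : S.VV) : S.VV :=
  ⟨S.R w s a.1, S.val_R hw s a.2.1, S.u6_real_R hw s a.2.1 a.2.2⟩

/-- The roots of the filling elements as permutations. -/
noncomputable def u6RP (w : P) (s : ℤ) : Equiv.Perm S.VV :=
  if hw : S.real w then
    { toFun := S.u6RV hw s
      invFun := S.u6RV hw (-s)
      left_inv := fun a => Subtype.ext (by
        show S.R w (-s) (S.R w s a.1) = a.1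
        rw [S.R_add hw _ _ a.2.1, neg_add_cancel, S.R_zero hw a.2.1])
      right_inv := fun a => Subtype.ext (by
        show S.R w s (S.R w (-s) a.1) = a.1
        rw [S.R_add hw _ _ a.2.1, add_neg_cancel, S.R_zero hw a.2.1]) }
  else 1

theorem u6RP_val {w : P} (hw : S.real w) (s : ℤ) (a : S.VV) :
    (S.u6RP w s a).1 = S.R w s a.1 := by
  rw [u6RP, dif_pos hw]
  rfl

theorem u6RP_nreal {w : P} (hw : ¬ S.real w) (s : ℤ) : S.u6RP w s = 1 := dif_neg hw

theorem u6RP_add (w : P) (s s' : ℤ) : S.u6RP w (s + s') = S.u6RP w s * S.u6RP w s' := by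
  by_cases hw : S.real w
  · refine Equiv.ext fun a => Subtype.ext ?_
    rw [Equiv.Perm.mul_apply, S.u6RP_val hw, S.u6RP_val hw, S.u6RP_val hw, S.R_add hw _ _ a.2.1]
  · simp only [S.u6RP_nreal hw, mul_one]

theorem u6RP_zero (w : P) : S.u6RP w 0 = 1 := by
  have := S.u6RP_add w 0 0
  rwa [add_zero, left_eq_mul] at this

theorem u6RP_neg (w : P) (s : ℤ) : S.u6RP w (-s) = (S.u6RP w s)⁻¹ :=
  eq_inv_of_mul_eq_one_left (by rw [← u6RP_add, neg_add_cancel, u6RP_zero])

theorem u6RP_zpow (w : P) (s : ℤ) : S.u6RP w 1 ^ s = S.u6RP w s := by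
  induction s using Int.induction_on with
  | zero => rw [zpow_zero, u6RP_zero]
  | succ k ih => rw [zpow_add_one, ih, u6RP_add]
  | pred k ih => rw [zpow_sub_one, ih, sub_eq_add_neg, u6RP_add, S.u6RP_neg w 1]

theorem u6RP_gamma {w : P} (hw : S.real w) (q : ℤ) :
    S.u6RP w (S.d w * q) = S.u6Phi (S.γ w ^ q) :=
  Equiv.ext fun a => Subtype.ext (by rw [S.u6RP_val hw, S.R_gamma hw q a.2.1, u6Phi_val])

theorem u6RP_smul (g : Γ) (w : P) (s : ℤ) :
    S.u6RP (g • w) s = S.u6Phi g * S.u6RP w s * (S.u6Phi g)⁻¹ := by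
  by_cases hw : S.real w
  · rw [eq_mul_inv_iff_mul_eq]
    refine Equiv.ext fun a => Subtype.ext ?_
    rw [Equiv.Perm.mul_apply, Equiv.Perm.mul_apply, S.u6RP_val (S.real_smul g w hw), u6Phi_val,
      u6Phi_val, S.u6RP_val hw, S.R_smul hw]
  · rw [S.u6RP_nreal hw, S.u6RP_nreal fun h => hw ((S.real_smul_iff g w).1 h), mul_one,
      mul_inv_cancel]

/-- The rotation at an address. -/
noncomputable def u6Rot : Ad P → Equiv.Perm S.VV
  | pt p => S.u6RP p 1
  | sw w t r => S.u6RP w t * u6Rot r * (S.u6RP w t)⁻¹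

theorem u6Rot_smul (g : Γ) (a : Ad P) :
    S.u6Rot (g • a) = S.u6Phi g * S.u6Rot a * (S.u6Phi g)⁻¹ := by
  induction a with
  | pt p => exact S.u6RP_smul g p 1
  | sw w t r ih =>
    rw [smul_sw, u6Rot, u6Rot, ih, u6RP_smul]
    group

theorem u6Rot_R {w : P} (hw : S.real w) (s : ℤ) {a : Ad P} (ha : S.Val a) :
    S.u6Rot (S.R w s a) = S.u6RP w s * S.u6Rot a * (S.u6RP w s)⁻¹ := by
  by_cases h : a = pt w
  · rw [h, R_pt, u6Rot, ← u6RP_add, add_comm, u6RP_add, mul_inv_cancel_right]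
  obtain ⟨t, q, m, r, -, -, -, -, h1, h2, h3⟩ := S.R_form hw s ha h
  have e1 : S.u6Rot a = S.u6RP w t * S.u6Rot r * (S.u6RP w t)⁻¹ := by
    rcases h1 with ⟨h1, h1'⟩ | ⟨-, -, h1⟩
    · rw [h1, h1', u6RP_zero, one_mul, inv_one, mul_one]
    · rw [h1, u6Rot]
  have e2 : S.u6Rot (S.R w s a) =
      S.u6RP w m * S.u6Rot (S.γ w ^ q • r) * (S.u6RP w m)⁻¹ := by
    rcases h3 with ⟨h3, h3'⟩ | ⟨-, -, h3⟩
    · rw [h3, h3', u6RP_zero, one_mul, inv_one, mul_one]
    · rw [h3, u6Rot]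
  have e3 : S.u6RP w m * S.u6RP w (S.d w * q) = S.u6RP w s * S.u6RP w t := by
    rw [← u6RP_add, ← u6RP_add, h2, add_comm]
  rw [e2, e1, u6Rot_smul, ← S.u6RP_gamma hw]
  calc _ = (S.u6RP w m * S.u6RP w (S.d w * q)) * S.u6Rot r *
        (S.u6RP w m * S.u6RP w (S.d w * q))⁻¹ := by group
    _ = _ := by rw [e3]; group

/-- Automorphisms of the unfolded tree. -/
def U6Aut (σ : Equiv.Perm S.VV) (m : ℤ) : Prop :=
  IsAut S.dir' (fun a => S.n' a.1.last) (fun a => S.j' a.1.last) (fun a => S.u6Rot a.1) σ m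

theorem u6Aut_phi (g : Γ) : S.U6Aut (S.u6Phi g) (S.e g) := by
  refine ⟨fun u => ⟨S.c g u.1.last, S.epar _ _, fun v hv => ?_⟩, fun u => ?_, fun u => ?_⟩
  · exact S.dirA_smul g u.2.1 u.2.2 v.2.1 fun e => hv (Subtype.ext e)
  · have := S.inv_smul u.2.2 g
    simp only [u6Phi_val, last_smul]
    exact ⟨this.2.2.2.1, this.2.2.2.2.1⟩
  · exact S.u6Rot_smul g u.1

theorem u6Aut_RP {w : P} (hw : S.real w) (s : ℤ) :
    S.U6Aut (S.u6RP w s) (s * (S.n' w - 2 * S.j' w)) := by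
  refine ⟨fun u => ?_, fun u => ?_, fun u => ?_⟩
  · obtain ⟨k, h1, h2⟩ := S.dirA_R hw s u.2.1 u.2.2
    refine ⟨k, ?_, fun v hv => ?_⟩
    · rw [show s * (S.n' w - 2 * S.j' w) - k = s * S.n' w - k - 2 * (s * S.j' w) by ring]
      exact h1.sub (even_two_mul _)
    · rw [dir', S.u6RP_val hw, S.u6RP_val hw]
      exact h2 _ v.2.1 fun e => hv (Subtype.ext e)
  · obtain ⟨q, e⟩ := S.last_R hw s u.2.1
    have := S.inv_smul u.2.2 (S.γ w ^ q)
    simp only [S.u6RP_val hw, e]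
    exact ⟨this.2.2.2.1, this.2.2.2.2.1⟩
  · simp only [S.u6RP_val hw]
    exact S.u6Rot_R hw s u.2.1

theorem u6Aut_rot {a : Ad P} (ha : S.Val a) (hr : S.real a.last) :
    S.U6Aut (S.u6Rot a) (S.n' a.last - 2 * S.j' a.last) := by
  induction a with
  | pt p =>
    have := S.u6Aut_RP hr 1
    rwa [one_mul] at this
  | sw w t r ih =>
    have h1 := S.u6Aut_RP ha.1 t
    have := (IsAut.mul h1 (ih ha.2.2.2.2 hr)).mul (IsAut.inv h1)
    rwa [add_comm, neg_add_cancel_left] at this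

theorem u6_inv_apply (σ : Equiv.Perm S.VV) (x : S.VV) : σ⁻¹ (σ x) = x := σ.symm_apply_apply x

theorem u6_apply_inv (σ : Equiv.Perm S.VV) (x : S.VV) : σ (σ⁻¹ x) = x := σ.apply_symm_apply x

theorem u6RP_sw {w : P} {t : ℤ} {r : Ad P} {x y : S.VV} (hx : x.1 = sw w t r) (hy : y.1 = r) :
    S.u6RP w t y = x := by
  have ha : S.Val (sw w t r) := hx ▸ x.2.1
  exact Subtype.ext (by rw [S.u6RP_val ha.1, hx, hy, S.R_sw ha])

theorem u6Rot_fix (a : Ad P) (x : S.VV) (hx : x.1 = a) : S.u6Rot a x = x := by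
  induction a generalizing x with
  | pt p =>
    have hr : S.real (pt p).last := hx ▸ x.2.2
    exact Subtype.ext (by rw [u6Rot, S.u6RP_val (w := p) hr, hx, R_pt])
  | sw w t r ih =>
    have ha : S.Val (sw w t r) := hx ▸ x.2.1
    have hr : S.real (sw w t r).last := hx ▸ x.2.2
    obtain ⟨y, hy⟩ : ∃ y : S.VV, y.1 = r := ⟨⟨r, ha.2.2.2.2, hr⟩, rfl⟩
    rw [u6Rot, ← S.u6RP_sw hx hy, Equiv.Perm.mul_apply, Equiv.Perm.mul_apply, u6_inv_apply,
      ih y hy]

theorem u6Rot_dir {a : Ad P} (ha : S.Val a) (hr : S.real a.last) (v : S.VV) (hv : v.1 ≠ a) :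
    S.dirA a (S.u6Rot a v).1 = S.dirA a v.1 + S.n' a.last := by
  induction a generalizing v with
  | pt p =>
    have := (S.II_BB_R hr 1 v.2.1 hv).1
    rw [one_mul] at this
    rw [u6Rot, S.u6RP_val (w := p) hr]
    exact this
  | sw w t r ih =>
    obtain ⟨x, hx⟩ : ∃ x : S.VV, x.1 = sw w t r := ⟨⟨_, ha, hr⟩, rfl⟩
    have h1 := ih ha.2.2.2.2 hr ((S.u6RP w t)⁻¹ v) fun e => hv (by
      rw [← hx, ← S.u6RP_sw hx e, u6_apply_inv])
    rw [dirA, dirA, ← S.u6RP_val ha.1, ← S.u6RP_val ha.1, u6RP_neg, u6Rot, Equiv.Perm.mul_apply,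
      Equiv.Perm.mul_apply, u6_inv_apply, h1, last]
    ring

theorem u6_small {x y : P} (hs : Small S.dir x y) {u : Ad P} (hu : S.Val u) (hr : S.real u.last)
    (h1 : pt x ≠ u) (h2 : pt y ≠ u) : |S.dirA u (pt y) - S.dirA u (pt x)| ≤ 1 := by
  cases u with
  | pt p => exact hs p (fun e => h1 (by rw [e])) fun e => h2 (by rw [e])
  | sw w t r =>
    exact S.small_sw hu hr (a := pt x) (b := pt y) trivial trivial (fun _ e => by cases e)
      fun _ e => by cases e

theorem u6_last (N : Subgroup Γ) (hN : ∀ w, S.real w → S.γ w ∈ N) (p : P) {a : Ad P}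
    (ha : S.Val a) (hr : S.real a.last) (x : S.VV) :
    (∃ h ∈ N, h • p = (S.u6Rot a x).1.last) ↔ ∃ h ∈ N, h • p = x.1.last := by
  have key : ∀ w, S.real w → ∀ (s : ℤ) (x : S.VV),
      (∃ h ∈ N, h • p = (S.u6RP w s x).1.last) ↔ ∃ h ∈ N, h • p = x.1.last := by
    intro w hw s x
    obtain ⟨q, e⟩ := S.last_R hw s x.2.1
    rw [S.u6RP_val hw, e]
    constructor
    · rintro ⟨h, h1, h2⟩
      exact ⟨(S.γ w ^ q)⁻¹ * h, N.mul_mem (N.inv_mem (N.zpow_mem (hN w hw) q)) h1, by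
        rw [mul_smul, h2, inv_smul_smul]⟩
    · rintro ⟨h, h1, h2⟩
      exact ⟨S.γ w ^ q * h, N.mul_mem (N.zpow_mem (hN w hw) q) h1, by rw [mul_smul, h2]⟩
  induction a generalizing x with
  | pt w => exact key w hr 1 x
  | sw w t r ih =>
    rw [u6Rot, Equiv.Perm.mul_apply, Equiv.Perm.mul_apply, ← u6RP_neg]
    exact (key w ha.1 _ _).trans ((ih ha.2.2.2.2 hr _).trans (key w ha.1 _ _))

end RQ

theorem RQ.exists_order {Γ P : Type} [Group Γ] [MulAction Γ P] (S : RQ Γ P) :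
    ∃ (Ω : Type) (_ : LinearOrder Ω) (ρ : Γ →* (Ω ≃o Ω)), (∀ w, S.real w → ρ (S.γ w) = 1) ∧
      (∀ (g : Γ) (v : P), S.real v → g • v ≠ v → Small S.dir v (g • v) → ρ g ≠ 1) ∧
      ∀ (g : Γ) (w : P), S.real w → ρ g = 1 →
        ∃ h ∈ Subgroup.normalClosure (S.γ '' {w | S.real w}), h • w = g • w := by
  obtain ⟨g, v, hv, hne, hs⟩ := S.nt
  let v' : S.VV := ⟨Ad.pt v, trivial, hv⟩
  have hne' : S.u6Phi g v' ≠ v' := fun e => hne (Ad.pt.inj (congrArg Subtype.val e))
  have : Nontrivial S.VV := ⟨_, _, hne'⟩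
  clear hs hne'
  clear_value v'
  clear hv hne v' g v
  obtain ⟨Ω, _, ρ, h1, h2, h3⟩ := qp_main S.dir' (fun a => S.n' a.1.last) (fun a => S.j' a.1.last)
    (fun a => S.u6Rot a.1) S.t1' S.fin' S.par' (fun a => S.u6Aut_rot a.2.1 a.2.2)
    (fun a => S.u6Rot_fix a.1 a rfl)
    (fun a b h => S.u6Rot_dir a.2.1 a.2.2 b fun e => h (Subtype.ext e))
    (fun a => ⟨(S.arith a.2.2).2.2.2.1, (S.arith a.2.2).2.2.2.2.1⟩)
    (fun a => (S.arith a.2.2).2.2.2.2.2.1) (fun a => (S.arith a.2.2).2.2.2.2.2.2)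
    S.u6Phi S.e S.e_mul S.u6Aut_phi
  refine ⟨Ω, inferInstance, ρ,
    fun w hw => h1 _ ⟨Ad.pt w, trivial, hw⟩ (S.d w) ?_ (S.arith hw).2.2.1,
    fun g v hv hne hs => h2 g ⟨Ad.pt v, trivial, hv⟩
      (fun e => hne (Ad.pt.inj (congrArg Subtype.val e))) fun u a b c => ?_,
    fun g w hw hg => h3 (fun x => ∃ h ∈ Subgroup.normalClosure (S.γ '' {w | S.real w}),
      h • w = x.1.last) (fun a x => S.u6_last _ (fun w hw =>
        Subgroup.subset_normalClosure (Set.mem_image_of_mem _ hw)) w a.2.1 a.2.2 x) g ⟨Ad.pt w, trivial, hw⟩ hg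
      ⟨1, one_mem _, one_smul _ _⟩⟩
  swap
  · have k1 := S.u6_small hs u.2.1 u.2.2 (fun e => a (Subtype.ext e)) fun e => b (Subtype.ext e)
    have k2 := (S.arith u.2.2).2.2.2.2.2.1
    exact sub_eq_zero.1 (Int.eq_zero_of_abs_lt_dvd c
      (lt_of_le_of_lt k1 (lt_of_lt_of_le (by norm_num) k2)))
  · have := S.u6RP_gamma hw 1
    rw [mul_one, zpow_one] at this
    rw [← this]
    exact (S.u6RP_zpow w _).symm

end Pool.Agent.Work.MP_3d425c_gt.Bor
end

-- merged part: Pool.Agent.Work.MP_3d425c_gt.PAC0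
section
/-! Trees with heights and cut points on the rays: definitions. -/

namespace Pool.Agent.Work.MP_3d425c_gt.Bor
open Classical

/-- A group acting by homotheties on a tree with integral directions and heights. -/
structure MT (Γ V : Type) [Group Γ] [MulAction Γ V] where
  dir : V → V → ℤ
  y : V → ℝ
  c : Γ → V → ℤ
  e : Γ → ℤ
  deg : Γ → ℤ
  lam : ℝ
  γ : V → Γ
  t1 : T1 dir
  fin : FinB dir
  med : Med dir
  mono : MonoAll dir y
  equiv : ∀ (g : Γ) u v, v ≠ u → dir (g • u) (g • v) = dir u v + c g u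
  e_mul : ∀ g h, e (g * h) = e g + e h
  deg_mul : ∀ g h, deg (g * h) = deg g + deg h
  lam_gt : 1 < lam
  y_smul : ∀ g : Γ, ∃ t, ∀ v, y (g • v) = (-1) ^ e g * lam ^ deg g * y v + t
  surj : ∀ w i, ∃ v, v ≠ w ∧ dir w v = i
  free : ∀ (g : Γ) w, g • w = w → c g w = 0 → deg g = 0 → g = 1
  hyp : ∀ w, ∃ g : Γ, g • w = w ∧ c g w = 0 ∧ 0 < deg g
  γ_fix : ∀ w, γ w • w = w
  γ_smul : ∀ (g : Γ) w, γ (g • w) = g * γ w * g⁻¹
  he0 : ∀ w, e (γ w) ≠ 0
  he1 : ∀ w, |e (γ w)| < c (γ w) w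
  prim : ∀ w (s : Γ) (k l : ℤ), s • w = w → s ^ k = γ w ^ l → k ∣ l
  cnt : Countable V
  ne : Nonempty V

namespace MT
variable {Γ V : Type} [Group Γ] [MulAction Γ V] (S : MT Γ V)

theorem c_mul (g h : Γ) (u : V) : S.c (g * h) u = S.c g (h • u) + S.c h u := by
  obtain ⟨v, hv, -⟩ := S.surj u 0
  have h1 := S.equiv (g * h) u v hv
  have h2 : h • v ≠ h • u := fun e => hv (MulAction.injective h e)
  rw [mul_smul, mul_smul, S.equiv g _ _ h2, S.equiv h u v hv] at h1
  omega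

theorem e_one : S.e 1 = 0 := by have := S.e_mul 1 1; rw [mul_one] at this; omega

theorem deg_one : S.deg 1 = 0 := by have := S.deg_mul 1 1; rw [mul_one] at this; omega

theorem c_one (u : V) : S.c 1 u = 0 := by
  have := S.c_mul 1 1 u
  rw [mul_one, one_smul] at this
  omega

/-- Triples: a vertex, a direction and a level. -/
structure Tr (_S : MT Γ V) : Type where
  w : V
  i : ℤ
  l : ℤ

instance : MulAction Γ S.Tr where
  smul g x := ⟨g • x.w, x.i + S.c g x.w, x.l + S.deg g⟩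
  one_smul x := by
    show (⟨_, _, _⟩ : S.Tr) = x
    rw [one_smul, S.c_one, S.deg_one, add_zero, add_zero]
  mul_smul g h x := by
    show (⟨_, _, _⟩ : S.Tr) = ⟨g • h • x.w, x.i + S.c h x.w + S.c g (h • x.w),
      x.l + S.deg h + S.deg g⟩
    rw [mul_smul, S.c_mul, S.deg_mul]
    congr 1 <;> ring

theorem smul_tr (g : Γ) (x : S.Tr) : g • x = ⟨g • x.w, x.i + S.c g x.w, x.l + S.deg g⟩ := rfl

/-- The distance in height. -/
def ht (w m : V) : ℝ := |S.y m - S.y w|

/-- The vertices on the invariant ray from `w` in direction `i`. -/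
def Ray (w : V) (i : ℤ) (a : V) : Prop :=
  a ≠ w ∧ S.dir w a = i ∧ Small S.dir w a ∧
    ∃ T : Γ, T • w = w ∧ S.c T w = 0 ∧ 0 < S.deg T ∧ Wb S.dir w a (T • a)

/-- Generic scale factors. -/
def ThetaSpec (θ : S.Tr → ℝ) : Prop :=
  (∀ x, 1 < θ x ∧ θ x < S.lam) ∧ (∀ (g : Γ) x, θ (g • x) = θ x) ∧
  (∀ x v, S.y x.w + (-1) ^ x.i * (θ x * S.lam ^ x.l) ≠ S.y v) ∧
  ∀ x x', S.y x.w + (-1) ^ x.i * (θ x * S.lam ^ x.l) =
      S.y x'.w + (-1) ^ x'.i * (θ x' * S.lam ^ x'.l) →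
    (∃ g : Γ, g • x = x') ∧ x.l = x'.l ∧ Even (x.i - x'.i) ∧ S.y x.w = S.y x'.w

/-- The scale factors. -/
noncomputable def theta : S.Tr → ℝ := Classical.epsilon S.ThetaSpec

/-- The distance of the cut point from its vertex. -/
noncomputable def s (x : S.Tr) : ℝ := S.theta x * S.lam ^ x.l

/-- The height of the cut point. -/
noncomputable def eta (x : S.Tr) : ℝ := S.y x.w + (-1) ^ x.i * S.s x

/-- The vertices beyond the cut point. -/
def A (x : S.Tr) : Set V := {v | ∃ m, S.Ray x.w x.i m ∧ Wb S.dir x.w m v ∧ S.s x < S.ht x.w m}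

/-- The cut point separates `u` from `v`. -/
def Opp (x : S.Tr) (u v : V) : Prop := u ∈ S.A x ↔ v ∉ S.A x

/-- `p` is an end of a straight segment through `x'`, on the far side from the height of `x`. -/
def Far (x x' : S.Tr) (p : V) : Prop :=
  ∃ q, Small S.dir p q ∧ S.Opp x' p q ∧ (S.y p - S.eta x') * (S.eta x - S.eta x') ≤ 0

/-- The cut point `x'` lies beyond the cut point `x`. -/
def Ah (x x' : S.Tr) : Prop := ∃ p, S.Far x x' p ∧ p ∈ S.A x

/-- A vertex on the ray beyond the cut point. -/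
noncomputable def zz (x : S.Tr) : V :=
  @Classical.epsilon V ⟨x.w⟩ fun z => S.Ray x.w x.i z ∧ S.s x < S.ht x.w z

/-- Directions between vertices and cut points. -/
noncomputable def dirP : V ⊕ S.Tr → V ⊕ S.Tr → ℤ
  | .inl u, .inl v => S.dir u v
  | .inl u, .inr x => if u ∈ S.A x then S.dir u x.w else S.dir u (S.zz x)
  | .inr x, .inl v => if v ∈ S.A x then x.i else x.i + 1
  | .inr x, .inr x' => if S.Ah x x' then x.i else x.i + 1

end MT

end Pool.Agent.Work.MP_3d425c_gt.Bor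
end

-- merged part: Pool.Agent.Work.MP_3d425c_gt.PAC1
section
/-! Invariant rays. -/

namespace Pool.Agent.Work.MP_3d425c_gt.Bor
open Classical

namespace MT
variable {Γ V : Type} [Group Γ] [MulAction Γ V] (S : MT Γ V)

theorem wb_smul (g : Γ) (a m b : V) : Wb S.dir (g • a) (g • m) (g • b) ↔ Wb S.dir a m b := by
  by_cases h1 : a = m
  · exact iff_of_true (Or.inl (by rw [h1])) (Or.inl h1)
  by_cases h2 : b = m
  · exact iff_of_true (Or.inr (Or.inl (by rw [h2]))) (Or.inr (Or.inl h2))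
  unfold Wb
  rw [S.equiv g m a h1, S.equiv g m b h2, smul_left_cancel_iff, smul_left_cancel_iff]
  simp

theorem small_smul (g : Γ) {a b : V} (h : Small S.dir a b) : Small S.dir (g • a) (g • b) := by
  intro u h1 h2
  obtain ⟨u, rfl⟩ := MulAction.surjective g u
  have h3 : a ≠ u := fun e => h1 (by rw [e])
  have h4 : b ≠ u := fun e => h2 (by rw [e])
  rw [S.equiv g u a h3, S.equiv g u b h4, add_sub_add_right_eq_sub]
  exact h u h3 h4

theorem y_sub_smul (g : Γ) (a b : V) :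
    S.y (g • a) - S.y (g • b) = (-1) ^ S.e g * S.lam ^ S.deg g * (S.y a - S.y b) := by
  obtain ⟨t, ht⟩ := S.y_smul g
  rw [ht, ht]
  ring

theorem PAC1_lam (k : ℤ) : 0 < S.lam ^ k := zpow_pos (zero_lt_one.trans S.lam_gt) k

theorem ht_smul (g : Γ) (w a : V) : S.ht (g • w) (g • a) = S.lam ^ S.deg g * S.ht w a := by
  rw [ht, ht, y_sub_smul, abs_mul, abs_mul, abs_zpow, abs_neg, abs_one, one_zpow, one_mul,
    abs_of_pos (S.PAC1_lam _)]

theorem PAC1_small (w : V) (i : ℤ) : ∃ q, q ≠ w ∧ S.dir w q = i ∧ Small S.dir w q := by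
  obtain ⟨v, hv, hi⟩ := S.surj w i
  obtain ⟨p, q, -, h2, h3, rfl, h5⟩ := exists_sub_pair S.t1 S.fin (· = w) (a := w) (b := v) rfl hv
  exact ⟨q, h5, (h2.dir_eq S.t1 (Ne.symm h5)).symm.trans hi, h3⟩

theorem epar (g : Γ) (u : V) : Even (S.e g - S.c g u) := by
  obtain ⟨q, hq, -, hs⟩ := S.PAC1_small u 0
  obtain ⟨h1, h2⟩ := S.mono u q hq.symm hs
  obtain ⟨h3, -⟩ := S.mono (g • u) (g • q) (fun e => hq.symm (MulAction.injective g e))
    (S.small_smul g hs)
  have h5 := S.y_sub_smul g q u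
  have h6 := S.PAC1_lam (S.deg g)
  rw [S.equiv g u q hq, Int.even_add, ← sub_pos, h5, h1] at h3
  rw [Int.even_sub]
  rcases Int.even_or_odd (S.e g) with he | he
  · rw [he.neg_one_zpow, one_mul, mul_pos_iff_of_pos_left h6, sub_pos] at h3
    tauto
  · rw [he.neg_one_zpow, neg_one_mul, neg_mul, ← mul_neg, mul_pos_iff_of_pos_left h6, neg_sub,
      sub_pos] at h3
    have h7 : S.y q < S.y u ↔ ¬ S.y u < S.y q :=
      ⟨fun k => not_lt.2 k.le, fun k => lt_of_le_of_ne (not_lt.1 k) h2.symm⟩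
    have h8 := Int.not_even_iff_odd.2 he
    (clear * - h1 h3 h7 h8; tauto)

theorem fix_zpow {g : Γ} {w : V} (h : g • w = w) (k : ℤ) :
    g ^ k • w = w ∧ S.c (g ^ k) w = k * S.c g w ∧ S.deg (g ^ k) = k * S.deg g := by
  have h1 : ∀ k : ℤ, S.c (g ^ (k + 1)) w = S.c (g ^ k) w + S.c g w := fun k => by
    rw [zpow_add_one, S.c_mul, h]
  have h2 : ∀ k : ℤ, S.deg (g ^ (k + 1)) = S.deg (g ^ k) + S.deg g := fun k => by
    rw [zpow_add_one, S.deg_mul]
  refine ⟨(MulAction.stabilizer Γ w).zpow_mem h k, ?_⟩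
  induction k using Int.induction_on with
  | zero => rw [zpow_zero, S.c_one, S.deg_one, zero_mul, zero_mul]; exact ⟨rfl, rfl⟩
  | succ k ih => rw [h1, h2, ih.1, ih.2]; constructor <;> ring
  | pred k ih =>
    have h3 := h1 (-k - 1)
    have h4 := h2 (-k - 1)
    rw [sub_add_cancel] at h3 h4
    rw [ih.1] at h3
    rw [ih.2] at h4
    constructor <;> linarith

theorem seg_le {w z p q : V} (hs : Small S.dir w z) (hp : Wb S.dir w p z) (hq : Wb S.dir w q z)
    (h : S.ht w p ≤ S.ht w q) : Wb S.dir w p q := by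
  rcases hp.total S.t1 hq with k | k
  · exact k
  by_cases e1 : q = p
  · exact Or.inr (Or.inl e1)
  have hs' := hs.left S.t1 hp
  obtain ⟨a1, a2, a3⟩ := mono_seg S.t1 S.mono hs' k (wb_right _ _) e1
  exfalso
  unfold ht at h
  by_cases e2 : w = q
  · rw [← e2, sub_self, abs_zero, abs_nonpos_iff, sub_eq_zero] at h
    exact a3 h.symm
  obtain ⟨b1, b2, -⟩ := mono_seg S.t1 S.mono hs' (wb_left _ _) k e2
  rcases lt_or_gt_of_ne a3 with l | l
  · have l1 := a1.2 l
    have l2 := b1.2 l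
    rw [abs_of_pos (sub_pos.2 l), abs_of_pos (sub_pos.2 l2)] at h
    linarith
  · have l1 : S.y p < S.y q := lt_of_le_of_ne (not_lt.1 fun k => l.not_gt (a1.1 k)) a2.symm
    have l2 : S.y q < S.y w := lt_of_le_of_ne (not_lt.1 fun k => l.not_gt (b1.1 k)) b2.symm
    rw [abs_of_neg (sub_neg.2 l), abs_of_neg (sub_neg.2 l2)] at h
    linarith

theorem ray_y {w a : V} {i : ℤ} (h : S.Ray w i a) :
    S.y a - S.y w = (-1) ^ i * S.ht w a ∧ 0 < S.ht w a := by
  obtain ⟨h1, rfl, h3, -⟩ := h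
  obtain ⟨h4, h5⟩ := S.mono w a h1.symm h3
  refine ⟨?_, abs_pos.2 (sub_ne_zero.2 h5.symm)⟩
  unfold ht
  rcases Int.even_or_odd (S.dir w a) with he | he
  · rw [he.neg_one_zpow, one_mul, abs_of_pos (sub_pos.2 (h4.1 he))]
  · have : S.y a ≤ S.y w := not_lt.1 fun k => Int.not_even_iff_odd.2 he (h4.2 k)
    rw [he.neg_one_zpow, abs_of_nonpos (sub_nonpos.2 this), neg_one_mul, neg_neg]

theorem ray_smul (g : Γ) {w a : V} {i : ℤ} (h : S.Ray w i a) :
    S.Ray (g • w) (i + S.c g w) (g • a) := by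
  obtain ⟨h1, rfl, h3, T, t1, t2, t3, t4⟩ := h
  have e : ∀ v : V, (g * T * g⁻¹) • g • v = g • T • v := fun v => by
    rw [mul_smul, inv_smul_smul, mul_smul]
  refine ⟨fun e => h1 (MulAction.injective g e), S.equiv g w a h1, S.small_smul g h3,
    g * T * g⁻¹, by rw [e, t1], ?_, ?_, by rw [e, S.wb_smul]; exact t4⟩
  · have := S.c_mul (g * T * g⁻¹) g w
    rw [inv_mul_cancel_right, S.c_mul, t1, t2] at this
    omega
  · have := S.deg_mul (g * T * g⁻¹) g
    rw [inv_mul_cancel_right, S.deg_mul] at this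
    omega

theorem PAC1_wb {T : Γ} {w m z : V} (t1 : T • w = w) (h : Wb S.dir w m z) :
    Wb S.dir w (T • m) (T • z) := by
  have := (S.wb_smul T w m z).2 h
  rwa [t1] at this

theorem PAC1_sm {T : Γ} {w z : V} (t1 : T • w = w) (h : Small S.dir w z) :
    Small S.dir w (T • z) := by
  have := S.small_smul T h
  rwa [t1] at this

theorem PAC1_ht {T : Γ} {w : V} (t1 : T • w = w) (m : V) :
    S.ht w (T • m) = S.lam ^ S.deg T * S.ht w m := by
  have := S.ht_smul T w m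
  rwa [t1] at this

theorem PAC1_step {T : Γ} {w m z : V} (t1 : T • w = w) (t3 : 0 < S.deg T) (hs : Small S.dir w z)
    (h1 : Wb S.dir w m z) (h2 : Wb S.dir w m (T • z)) : Wb S.dir w m (T • m) := by
  refine S.seg_le (S.PAC1_sm t1 hs) h2 (S.PAC1_wb t1 h1) ?_
  rw [S.PAC1_ht t1]
  exact le_mul_of_one_le_left (abs_nonneg _) (one_le_zpow₀ S.lam_gt.le t3.le)

theorem ray_sub {w z m : V} {i : ℤ} (h : S.Ray w i z) (hm : Wb S.dir w m z) (hw : m ≠ w) :
    S.Ray w i m := by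
  obtain ⟨-, h2, h3, T, t1, t2, t3, t4⟩ := h
  exact ⟨hw, (hm.dir_eq S.t1 hw.symm).symm.trans h2, h3.left S.t1 hm, T, t1, t2, t3,
    S.PAC1_step t1 t3 h3 hm (hm.trans_left S.t1 t4)⟩

theorem PAC1_med {w a b : V} (ha : a ≠ w) (hb : b ≠ w) (h : S.dir w a = S.dir w b) :
    ∃ m, m ≠ w ∧ Wb S.dir w m a ∧ Wb S.dir w m b := by
  obtain ⟨m, h1, h2, h3⟩ := S.med w a b
  refine ⟨m, fun e => ?_, h1, h3.symm⟩
  rw [e] at h2
  exact not_wb.2 ⟨ha, hb, h⟩ h2

theorem PAC1_unb {T : Γ} {w m : V} (t1 : T • w = w) (t3 : 0 < S.deg T) (h : 0 < S.ht w m)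
    (C : ℝ) : ∃ k : ℕ, C < S.ht w (T ^ k • m) := by
  obtain ⟨k, hk⟩ := pow_unbounded_of_one_lt (C / S.ht w m) S.lam_gt
  obtain ⟨f1, -, f3⟩ := S.fix_zpow t1 k
  rw [zpow_natCast] at f1 f3
  refine ⟨k, ?_⟩
  rw [S.PAC1_ht f1, f3, ← div_lt_iff₀ h]
  refine hk.trans_le ?_
  rw [← zpow_natCast]
  exact zpow_le_zpow_right₀ S.lam_gt.le (le_mul_of_one_le_right (Int.natCast_nonneg k) t3)

theorem ray_far (w : V) (i : ℤ) (C : ℝ) : ∃ z, S.Ray w i z ∧ C < S.ht w z := by
  obtain ⟨q, h1, h2, h3⟩ := S.PAC1_small w i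
  obtain ⟨T, t1, t2, t3⟩ := S.hyp w
  have h4 := S.equiv T w q h1
  rw [t1, t2, add_zero] at h4
  obtain ⟨m, m1, m2, m3⟩ := S.PAC1_med h1 (b := T • q)
    (fun e => h1 (MulAction.injective T (e.trans t1.symm))) h4.symm
  have hm : S.Ray w i m := ⟨m1, (m2.dir_eq S.t1 m1.symm).symm.trans h2, h3.left S.t1 m2, T, t1, t2,
    t3, S.PAC1_step t1 t3 h3 m2 m3⟩
  obtain ⟨k, hk⟩ := S.PAC1_unb t1 t3 (S.ray_y hm).2 C
  obtain ⟨f1, f2, -⟩ := S.fix_zpow t1 k
  rw [zpow_natCast] at f1 f2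
  have := S.ray_smul (T ^ k) hm
  rw [f1, f2, t2, mul_zero, add_zero] at this
  exact ⟨_, this, hk⟩

theorem PAC1_pow {T : Γ} {w a : V} (t1 : T • w = w) (h : Wb S.dir w a (T • a)) (k : ℕ) :
    Wb S.dir w a (T ^ k • a) := by
  induction k with
  | zero => rw [pow_zero, one_smul]; exact wb_right _ _
  | succ k ih => rw [pow_succ', mul_smul]; exact h.trans_left S.t1 (S.PAC1_wb t1 ih)

theorem ray_wb {w a a' : V} {i : ℤ} (h : S.Ray w i a) (h' : S.Ray w i a')
    (hh : S.ht w a ≤ S.ht w a') : Wb S.dir w a a' := by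
  obtain ⟨m, m1, m2, m3⟩ := S.PAC1_med h.1 h'.1 (h.2.1.trans h'.2.1.symm)
  have hm := (S.ray_y (S.ray_sub h m2 m1)).2
  obtain ⟨-, -, h3, T, t1, t2, t3, t4⟩ := h
  obtain ⟨-, -, h3', T', t1', t2', t3', t4'⟩ := h'
  obtain ⟨n, hn⟩ := Int.eq_ofNat_of_zero_le t3.le
  obtain ⟨n', hn'⟩ := Int.eq_ofNat_of_zero_le t3'.le
  obtain ⟨f1, f2, f3⟩ := S.fix_zpow t1 n'
  obtain ⟨g1, g2, g3⟩ := S.fix_zpow t1' n
  rw [zpow_natCast] at f1 f2 f3 g1 g2 g3
  have hZ : T ^ n' = T' ^ n := by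
    have e1 : ((T ^ n')⁻¹ * T' ^ n) • w = w := by rw [mul_smul, g1, inv_smul_eq_iff, f1]
    have e2 := S.c_mul (T ^ n') ((T ^ n')⁻¹ * T' ^ n) w
    have e3 := S.deg_mul (T ^ n') ((T ^ n')⁻¹ * T' ^ n)
    rw [mul_inv_cancel_left, e1, f2, g2, t2, t2'] at e2
    rw [mul_inv_cancel_left, f3, g3, hn, hn'] at e3
    exact inv_mul_eq_one.1 (S.free _ w e1 (by linarith) (by linarith))
  obtain ⟨k, hk⟩ := S.PAC1_unb f1 (by rw [f3, ← hn']; exact mul_pos t3' t3) hm (S.ht w a)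
  have z1 : (T ^ n') ^ k • w = w := (MulAction.stabilizer Γ w).pow_mem f1 k
  have a1 : Wb S.dir w a ((T ^ n') ^ k • a) := by
    rw [← pow_mul]
    exact S.PAC1_pow t1 t4 _
  have a2 : Wb S.dir w a' ((T ^ n') ^ k • a') := by
    rw [hZ, ← pow_mul]
    exact S.PAC1_pow t1' t4' _
  have a3 := S.seg_le (S.PAC1_sm z1 h3) a1 (S.PAC1_wb z1 m2) hk.le
  exact S.seg_le (S.PAC1_sm z1 h3') (a3.trans_left S.t1 (S.PAC1_wb z1 m3)) a2 hh

end MT

end Pool.Agent.Work.MP_3d425c_gt.Bor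
end

-- merged part: Pool.Agent.Work.MP_3d425c_gt.PAC2
section
/-! Generic scale factors. -/

namespace Pool.Agent.Work.MP_3d425c_gt.Bor
open Classical

theorem PAC2_gen {C : Set ℝ} (hC : C.Countable) : ∃ τ : ℝ, 0 < τ ∧ ∀ a ∈ C, ∀ b ∈ C, ∀ b' ∈ C,
    ∀ n n' : ℕ, a + b * τ ^ (n + 1) = b' * τ ^ (n' + 1) →
      a = 0 ∧ ((n = n' ∧ b = b') ∨ (b = 0 ∧ b' = 0)) := by
  let P : ℝ → ℝ → ℝ → ℕ → ℕ → Polynomial ℝ := fun a b b' n n' =>
    Polynomial.C a + Polynomial.monomial (n + 1) b - Polynomial.monomial (n' + 1) b'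
  have hbad : (⋃ a ∈ C, ⋃ b ∈ C, ⋃ b' ∈ C, ⋃ n : ℕ, ⋃ n' : ℕ,
      ((P a b b' n n').roots.toFinset : Set ℝ)).Countable :=
    hC.biUnion fun _ _ => hC.biUnion fun _ _ => hC.biUnion fun _ _ =>
      Set.countable_iUnion fun _ => Set.countable_iUnion fun _ => (Finset.finite_toSet _).countable
  obtain ⟨τ, hτ, hτ0⟩ := (hbad.dense_compl ℝ).exists_mem_open isOpen_Ioi
    (Set.nonempty_Ioi (a := (0 : ℝ)))
  refine ⟨τ, hτ0, fun a ha b hb b' hb' n n' h => ?_⟩
  have hP : P a b b' n n' = 0 := by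
    by_contra hP
    apply hτ
    simp only [Set.mem_iUnion]
    refine ⟨a, ha, b, hb, b', hb', n, n', ?_⟩
    rw [Finset.mem_coe, Multiset.mem_toFinset, Polynomial.mem_roots hP, Polynomial.IsRoot.def]
    simp only [P, Polynomial.eval_sub, Polynomial.eval_add, Polynomial.eval_C,
      Polynomial.eval_monomial]
    rw [h, sub_self]
  have h0 := congrArg (fun p => p.coeff 0) hP
  have h1 := congrArg (fun p => p.coeff (n + 1)) hP
  have h2 := congrArg (fun p => p.coeff (n' + 1)) hP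
  simp only [P, Polynomial.coeff_sub, Polynomial.coeff_add, Polynomial.coeff_C,
    Polynomial.coeff_monomial, Polynomial.coeff_zero] at h0 h1 h2
  refine ⟨by simpa using h0, ?_⟩
  by_cases hn : n = n'
  · subst hn
    left
    refine ⟨rfl, ?_⟩
    simpa [sub_eq_zero] using h1
  · right
    have hn' : n' ≠ n := fun e => hn e.symm
    exact ⟨by simpa [hn'] using h1, by simpa [hn] using h2⟩

theorem PAC2_par {i i' : ℤ} (h : (-1 : ℝ) ^ i = (-1) ^ i') : Even (i - i') := by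
  rw [Int.even_sub]
  rcases Int.even_or_odd i with hi | hi <;> rcases Int.even_or_odd i' with hi' | hi'
  · exact iff_of_true hi hi'
  · rw [hi.neg_one_zpow, hi'.neg_one_zpow] at h
    norm_num at h
  · rw [hi.neg_one_zpow, hi'.neg_one_zpow] at h
    norm_num at h
  · exact iff_of_false (Int.not_even_iff_odd.2 hi) (Int.not_even_iff_odd.2 hi')

theorem PAC2_par' {i i' : ℤ} (h : Even (i - i')) : (-1 : ℝ) ^ i = (-1) ^ i' := by
  have e : i = i' + (i - i') := by ring
  rw [e, zpow_add₀ (by norm_num), h.neg_one_zpow, mul_one]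

namespace MT
variable {Γ V : Type} [Group Γ] [MulAction Γ V] (S : MT Γ V)

theorem theta_spec : S.ThetaSpec S.theta := by
  refine Classical.epsilon_spec (p := S.ThetaSpec) ?_
  have := S.cnt
  have hl : 0 < S.lam := one_pos.trans S.lam_gt
  have : Countable S.Tr := by
    have hi : Function.Injective fun x : S.Tr => (x.w, x.i, x.l) := by
      rintro ⟨a, b, c⟩ ⟨a', b', c'⟩ h
      simp only [Prod.mk.injEq] at h
      obtain ⟨rfl, rfl, rfl⟩ := h
      rfl
    exact hi.countable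
  obtain ⟨f, hf⟩ := exists_injective_nat (MulAction.orbitRel.Quotient Γ S.Tr)
  let N : S.Tr → ℕ := fun x => f (Quotient.mk _ x)
  have hN : ∀ x x', N x = N x' ↔ ∃ g : Γ, g • x = x' := fun x x' => by
    constructor
    · intro h
      exact Quotient.exact (hf h.symm)
    · intro h
      exact (congrArg f (Quotient.sound h)).symm
  let C : Set ℝ := (Set.range fun p : V × V => S.y p.1 - S.y p.2) ∪
    Set.range fun p : ℤ × ℤ × ℚ => (-1) ^ p.1 * (p.2.2 * S.lam ^ p.2.1)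
  obtain ⟨τ, hτ, hgen⟩ := PAC2_gen (C := C) ((Set.countable_range _).union (Set.countable_range _))
  have hq : ∀ n : ℕ, ∃ q : ℚ, 1 < q * τ ^ (n + 1) ∧ q * τ ^ (n + 1) < S.lam := fun n => by
    have hp : 0 < τ ^ (n + 1) := pow_pos hτ _
    obtain ⟨q, h1, h2⟩ := exists_rat_btwn (div_lt_div_of_pos_right S.lam_gt hp)
    exact ⟨q, (div_lt_iff₀ hp).1 h1, (lt_div_iff₀ hp).1 h2⟩
  choose q hq1 hq2 using hq
  have hq0 : ∀ n, (q n : ℝ) ≠ 0 := fun n h => by
    have := hq1 n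
    rw [h, zero_mul] at this
    exact absurd this (by norm_num)
  have hb : ∀ (i l : ℤ) n, (-1 : ℝ) ^ i * (q n * S.lam ^ l) ≠ 0 := fun i l n =>
    mul_ne_zero (zpow_ne_zero _ (by norm_num)) (mul_ne_zero (hq0 n) (zpow_ne_zero _ hl.ne'))
  refine ⟨fun x => q (N x) * τ ^ (N x + 1), fun x => ⟨hq1 _, hq2 _⟩, fun g x => ?_,
    fun x v h => ?_, fun x x' h => ?_⟩
  · have e : N (g • x) = N x := ((hN _ _).2 ⟨g, rfl⟩).symm
    simp only [e]
  · have := (hgen (S.y x.w - S.y v) (Or.inl ⟨(x.w, v), rfl⟩)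
      ((-1) ^ x.i * (q (N x) * S.lam ^ x.l)) (Or.inr ⟨(x.i, x.l, q (N x)), rfl⟩)
      0 (Or.inr ⟨(0, 0, 0), by simp⟩) (N x) (N x) (by rw [← h]; ring)).2
    rcases this with ⟨-, h'⟩ | ⟨h', -⟩ <;> exact hb _ _ _ h'
  · obtain ⟨h1, h2⟩ := hgen (S.y x.w - S.y x'.w) (Or.inl ⟨(x.w, x'.w), rfl⟩)
      ((-1) ^ x.i * (q (N x) * S.lam ^ x.l)) (Or.inr ⟨(x.i, x.l, q (N x)), rfl⟩)
      ((-1) ^ x'.i * (q (N x') * S.lam ^ x'.l)) (Or.inr ⟨(x'.i, x'.l, q (N x')), rfl⟩)
      (N x) (N x') (by linear_combination h)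
    rcases h2 with ⟨h2, h3⟩ | ⟨h2, -⟩
    · rw [← h2] at h3
      have h4 : S.lam ^ x.l = S.lam ^ x'.l := by
        have := congrArg abs h3
        simp only [abs_mul, abs_zpow, abs_neg, abs_one, one_zpow, one_mul, abs_of_pos hl] at this
        exact mul_left_cancel₀ (abs_ne_zero.2 (hq0 _)) this
      have h5 : x.l = x'.l := zpow_right_injective₀ hl S.lam_gt.ne' h4
      rw [h4] at h3
      exact ⟨(hN _ _).1 h2, h5, PAC2_par (mul_right_cancel₀
        (mul_ne_zero (hq0 _) (zpow_ne_zero _ hl.ne')) h3), sub_eq_zero.1 h1⟩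
    · exact absurd h2 (hb _ _ _)

theorem PAC2_lo (x : S.Tr) : S.lam ^ x.l < S.s x :=
  lt_mul_of_one_lt_left (zpow_pos (one_pos.trans S.lam_gt) _) (S.theta_spec.1 x).1

theorem PAC2_hi (x : S.Tr) : S.s x < S.lam ^ (x.l + 1) := by
  have hl : 0 < S.lam := one_pos.trans S.lam_gt
  rw [zpow_add_one₀ hl.ne', mul_comm]
  exact mul_lt_mul_of_pos_right (S.theta_spec.1 x).2 (zpow_pos hl _)

theorem s_pos (x : S.Tr) : 0 < S.s x := by
  exact (zpow_pos (one_pos.trans S.lam_gt) _).trans (S.PAC2_lo x)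

theorem s_lt (w : V) (i l : ℤ) : S.s ⟨w, i, l⟩ < S.s ⟨w, i, l + 1⟩ := by
  exact (S.PAC2_hi ⟨w, i, l⟩).trans (S.PAC2_lo ⟨w, i, l + 1⟩)

theorem s_small (w : V) (i : ℤ) {r : ℝ} (hr : 0 < r) : ∃ l, ∀ l' ≤ l, S.s ⟨w, i, l'⟩ < r := by
  obtain ⟨n, hn, -⟩ := exists_mem_Ioc_zpow hr S.lam_gt
  refine ⟨n - 1, fun l' hl' => (S.PAC2_hi ⟨w, i, l'⟩).trans (lt_of_le_of_lt ?_ hn)⟩
  exact zpow_le_zpow_right₀ S.lam_gt.le (by change l' + 1 ≤ n; omega)

theorem s_big (w : V) (i : ℤ) (r : ℝ) : ∃ l, ∀ l', l ≤ l' → r < S.s ⟨w, i, l'⟩ := by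
  obtain ⟨n, -, hn⟩ := exists_mem_Ioc_zpow (lt_max_of_lt_right one_pos : 0 < max r 1) S.lam_gt
  refine ⟨n + 1, fun l' hl' => lt_of_le_of_lt ?_ (S.PAC2_lo ⟨w, i, l'⟩)⟩
  exact ((le_max_left _ _).trans hn).trans (zpow_le_zpow_right₀ S.lam_gt.le hl')

theorem s_smul (g : Γ) (x : S.Tr) : S.s (g • x) = S.lam ^ S.deg g * S.s x := by
  have hl : 0 < S.lam := one_pos.trans S.lam_gt
  rw [s, s, S.theta_spec.2.1, S.smul_tr, zpow_add₀ hl.ne']
  ring

theorem eta_smul (g : Γ) (x : S.Tr) (v : V) :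
    S.y (g • v) - S.eta (g • x) = (-1) ^ S.e g * S.lam ^ S.deg g * (S.y v - S.eta x) := by
  have h1 := S.y_sub_smul g v x.w
  have h2 : (-1 : ℝ) ^ S.e g = (-1) ^ S.c g x.w := PAC2_par' (S.epar g x.w)
  have h3 : (-1 : ℝ) ^ (g • x).i = (-1) ^ x.i * (-1) ^ S.e g := by
    rw [S.smul_tr, zpow_add₀ (by norm_num), h2]
  have h4 : (g • x).w = g • x.w := rfl
  rw [eta, eta, S.s_smul, h3, h4]
  linear_combination h1

theorem eta_ne (x : S.Tr) (v : V) : S.eta x ≠ S.y v := S.theta_spec.2.2.1 x v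

theorem eta_eq {x x' : S.Tr} (h : S.eta x = S.eta x') :
    (∃ g : Γ, g • x = x') ∧ x.l = x'.l ∧ Even (x.i - x'.i) ∧ S.y x.w = S.y x'.w :=
  S.theta_spec.2.2.2 x x' h

end MT

end Pool.Agent.Work.MP_3d425c_gt.Bor
end

-- merged part: Pool.Agent.Work.MP_3d425c_gt.PAC3
section
/-! The two sides of a cut point. -/

namespace Pool.Agent.Work.MP_3d425c_gt.Bor
open Classical

namespace MT
variable {Γ V : Type} [Group Γ] [MulAction Γ V] (S : MT Γ V)

theorem zz_spec (x : S.Tr) : S.Ray x.w x.i (S.zz x) ∧ S.s x < S.ht x.w (S.zz x) :=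
  Classical.epsilon_spec (S.ray_far x.w x.i (S.s x))

theorem zz_mem (x : S.Tr) : S.zz x ∈ S.A x := ⟨_, (S.zz_spec x).1, wb_right _ _, (S.zz_spec x).2⟩

theorem w_not_mem (x : S.Tr) : x.w ∉ S.A x := fun ⟨_, h1, h2, _⟩ => h1.1 h2.self.symm

theorem Opp.symm {S : MT Γ V} {x : S.Tr} {u v : V} (h : S.Opp x u v) : S.Opp x v u := by
  unfold Opp at *
  tauto

theorem Opp.ne {S : MT Γ V} {x : S.Tr} {u v : V} (h : S.Opp x u v) : u ≠ v := by
  rintro rfl
  unfold Opp at h
  tauto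

theorem c3_dir_ray {x : S.Tr} {u v m : V} (hu : u ∉ S.A x) (h1 : S.Ray x.w x.i m)
    (h2 : Wb S.dir x.w m v) (h3 : S.s x < S.ht x.w m) : S.dir u v = S.dir u m := by
  obtain ⟨k1, k2, k3⟩ := not_wb.1 fun k : Wb S.dir x.w m u => hu ⟨m, h1, k, h3⟩
  by_cases e : v = m
  · rw [e]
  · exact S.t1 u m v k2 e (k3 ▸ (h2.btw k1 e).2.2)

theorem opp_dir {x : S.Tr} {u v : V} (h : S.Opp x u v) :
    S.dir u v = S.dirP (.inl u) (.inr x) := by
  show _ = if u ∈ S.A x then S.dir u x.w else S.dir u (S.zz x)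
  by_cases hu : u ∈ S.A x
  · rw [if_pos hu]
    by_contra hn
    obtain ⟨m, h1, h2, h3⟩ := id hu
    exact h.1 hu ⟨m, h1, h2.trans_left S.t1 (Or.inr (Or.inr (Ne.symm hn))), h3⟩
  · rw [if_neg hu]
    obtain ⟨m, h1, h2, h3⟩ : v ∈ S.A x := by
      by_contra hv
      exact hu (h.2 hv)
    obtain ⟨h4, h5⟩ := S.zz_spec x
    rw [S.c3_dir_ray hu h1 h2 h3]
    rcases le_total (S.ht x.w m) (S.ht x.w (S.zz x)) with k | k
    · exact (S.c3_dir_ray hu h1 (S.ray_wb h1 h4 k) h3).symm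
    · exact S.c3_dir_ray hu h4 (S.ray_wb h4 h1 k) h5

theorem convex {x : S.Tr} {u v m : V} (h : u ∈ S.A x ↔ v ∈ S.A x) (hm : Wb S.dir u m v) :
    m ∈ S.A x ↔ u ∈ S.A x := by
  by_contra hn
  have h1 : S.Opp x m u := by
    unfold Opp
    tauto
  have h2 : S.Opp x m v := by
    unfold Opp
    tauto
  exact (hm.btw h1.ne.symm h2.ne.symm).2.2 ((S.opp_dir h1).trans (S.opp_dir h2).symm)

theorem c3_sign (i : ℤ) : ((-1 : ℝ)) ^ i = 1 ∨ ((-1 : ℝ)) ^ i = -1 := by
  rcases Int.even_or_odd i with h | h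
  exacts [Or.inl h.neg_one_zpow, Or.inr h.neg_one_zpow]

theorem c3_ray_eta {x : S.Tr} {m : V} (h : S.Ray x.w x.i m) :
    (-1) ^ x.i * (S.y m - S.eta x) = S.ht x.w m - S.s x := by
  have h1 := (S.ray_y h).1
  unfold eta
  rcases c3_sign x.i with k | k <;> rw [k] at h1 ⊢ <;> linarith

theorem straight_sep {x : S.Tr} {p q : V} (hs : Small S.dir p q) (hp : p ∉ S.A x)
    (hq : q ∈ S.A x) :
    (-1) ^ x.i * (S.y p - S.eta x) < 0 ∧ 0 < (-1) ^ x.i * (S.y q - S.eta x) := by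
  obtain ⟨m, h1, h2, h3⟩ := hq
  obtain ⟨mu, k1, k2, k3⟩ := S.med x.w m p
  have a1 : (-1) ^ x.i * (S.y mu - S.eta x) < 0 := by
    by_cases e : mu = x.w
    · have := S.s_pos x
      rw [e]
      unfold eta
      rcases c3_sign x.i with k | k <;> rw [k] <;> linarith
    · have b1 := S.ray_sub h1 k1 e
      have b2 : ¬ S.s x < S.ht x.w mu := fun k => hp ⟨mu, b1, k3.symm, k⟩
      have b3 := S.c3_ray_eta b1
      refine lt_of_le_of_ne (by rw [b3]; linarith [not_lt.1 b2]) ?_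
      exact mul_ne_zero (zpow_ne_zero _ (by norm_num)) (sub_ne_zero.2 (S.eta_ne x mu).symm)
  have a2 : 0 < (-1) ^ x.i * (S.y m - S.eta x) := by
    rw [S.c3_ray_eta h1]
    linarith
  have a3 : mu ≠ m := by
    rintro rfl
    linarith
  have a4 : Wb S.dir p m q := by
    obtain ⟨b1, b2, b3⟩ := not_wb.1 fun k : Wb S.dir x.w m p => hp ⟨m, h1, k, h3⟩
    by_cases e : q = m
    · exact Or.inr (Or.inl e)
    · exact Or.inr (Or.inr (b3 ▸ (h2.btw b1 e).2.2))
  have a5 := (mono_seg S.t1 S.mono hs k2.symm a4 a3).1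
  have a6 : (S.y p < S.y q → S.y p ≤ S.y mu) ∧ (¬ S.y p < S.y q → S.y mu ≤ S.y p) := by
    by_cases e : p = mu
    · rw [e]
      exact ⟨fun _ => le_rfl, fun _ => le_rfl⟩
    · have := (mono_seg S.t1 S.mono hs (wb_left p mu) (k2.symm.trans_left S.t1 a4) e).1
      exact ⟨fun k => (this.2 k).le, fun k => not_lt.1 fun k' => k (this.1 k')⟩
  have a7 : (S.y p < S.y q → S.y m ≤ S.y q) ∧ (¬ S.y p < S.y q → S.y q ≤ S.y m) := by
    by_cases e : m = q
    · rw [e]
      exact ⟨fun _ => le_rfl, fun _ => le_rfl⟩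
    · have := (mono_seg S.t1 S.mono hs a4 (wb_right p q) e).1
      exact ⟨fun k => (this.2 k).le, fun k => not_lt.1 fun k' => k (this.1 k')⟩
  rcases c3_sign x.i with k | k <;> rw [k] at a1 a2 ⊢
  · have b := a5.1 (by linarith)
    constructor <;> linarith [a6.1 b, a7.1 b]
  · have b : ¬ S.y p < S.y q := fun k' => by linarith [a5.2 k']
    constructor <;> linarith [a6.2 b, a7.2 b]

theorem c3_A_smul (g : Γ) (x : S.Tr) {v : V} (h : v ∈ S.A x) : g • v ∈ S.A (g • x) := by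
  obtain ⟨m, h1, h2, h3⟩ := h
  refine ⟨g • m, S.ray_smul g h1, (S.wb_smul g _ _ _).2 h2, ?_⟩
  rw [S.s_smul]
  show _ < S.ht (g • x.w) (g • m)
  rw [S.ht_smul]
  exact mul_lt_mul_of_pos_left h3 (zpow_pos (by linarith [S.lam_gt]) _)

theorem A_smul (g : Γ) (x : S.Tr) (v : V) : g • v ∈ S.A (g • x) ↔ v ∈ S.A x := by
  refine ⟨fun h => ?_, S.c3_A_smul g x⟩
  have := S.c3_A_smul g⁻¹ _ h
  rwa [inv_smul_smul, inv_smul_smul] at this

theorem c3_side {x : S.Tr} {p q v mu : V} (hs : Small S.dir p q) (hp : p ∉ S.A x)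
    (hq : q ∈ S.A x) (k1 : Wb S.dir p mu q) (k2 : Wb S.dir q mu v) (k3 : Wb S.dir v mu p) :
    v ∈ S.A x ↔ 0 < (-1) ^ x.i * (S.y mu - S.eta x) := by
  by_cases hv : v ∈ S.A x
  · have h1 : mu ∈ S.A x := (S.convex (iff_of_true hq hv) k2).2 hq
    exact iff_of_true hv (S.straight_sep (hs.left S.t1 k1) hp h1).2
  · have h1 : mu ∉ S.A x := fun k => hv ((S.convex (iff_of_false hv hp) k3).1 k)
    exact iff_of_false hv
      (not_lt.2 (S.straight_sep (hs.symm.left S.t1 k1.symm).symm h1 hq).1.le)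

theorem c3_tie {x x' : S.Tr} (he : S.eta x = S.eta x') {p q : V} (hs : Small S.dir p q)
    (hp : p ∉ S.A x) (hq : q ∈ S.A x) (h' : S.Opp x' p q) : x = x' := by
  obtain ⟨⟨g, hg⟩, h1, h2, h3⟩ := S.eta_eq he
  have e1 : x'.w = g • x.w := by rw [← hg]; rfl
  have e2 : x'.i = x.i + S.c g x.w := by rw [← hg]; rfl
  have e3 : x'.l = x.l + S.deg g := by rw [← hg]; rfl
  have hd : S.deg g = 0 := by omega
  have hc : Even (S.c g x.w) := by
    have : S.c g x.w = -(x.i - x'.i) := by omega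
    rw [this]
    exact h2.neg
  have hE : Even (S.e g) := by
    have := (S.epar g x.w).add hc
    rwa [sub_add_cancel] at this
  have hy : ∀ v, S.y (g • v) = S.y v := fun v => by
    have := S.y_sub_smul g v x.w
    rw [hE.neg_one_zpow, hd, zpow_zero, ← e1] at this
    linarith
  have hsg : ((-1 : ℝ)) ^ x'.i = (-1) ^ x.i := by
    rw [e2, zpow_add₀ (by norm_num), hc.neg_one_zpow, mul_one]
  have hp' : p ∉ S.A x' := fun k => by
    have b1 := (S.straight_sep hs.symm (h'.1 k) k).2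
    have b2 := (S.straight_sep hs hp hq).1
    rw [hsg, ← he] at b1
    linarith
  have hq' : q ∈ S.A x' := by
    by_contra k
    exact hp' (h'.2 k)
  have hA : ∀ v, v ∈ S.A x ↔ v ∈ S.A x' := fun v => by
    obtain ⟨mu, k1, k2, k3⟩ := S.med p q v
    rw [S.c3_side hs hp hq k1 k2 k3, S.c3_side hs hp' hq' k1 k2 k3, hsg, he]
  have hz := S.zz_mem x
  have hz' : g • S.zz x ∈ S.A x := (hA _).2 (hg ▸ S.c3_A_smul g x hz)
  obtain ⟨u, k1, k2, k3⟩ := S.med x.w x'.w (S.zz x)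
  have hw' : x'.w ∉ S.A x := fun k => S.w_not_mem x' ((hA _).1 k)
  have hu : u ∉ S.A x := fun k =>
    S.w_not_mem x ((S.convex (iff_of_false (S.w_not_mem x) hw') k1).1 k)
  have o1 : S.Opp x u (S.zz x) := iff_of_false hu (not_not.2 hz)
  have o2 : S.Opp x u (g • S.zz x) := iff_of_false hu (not_not.2 hz')
  have hdir : S.dir u (S.zz x) = S.dir u (g • S.zz x) := (S.opp_dir o1).trans (S.opp_dir o2).symm
  have b1 : Wb S.dir x'.w u (g • S.zz x) := by
    rcases k2 with k | k | k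
    exacts [Or.inl k, absurd k o1.ne.symm, Or.inr (Or.inr (hdir ▸ k))]
  have b2 : Wb S.dir x'.w (g • u) (g • S.zz x) := e1 ▸ (S.wb_smul g _ _ _).2 k3.symm
  have b3 : Small S.dir x'.w (g • S.zz x) := e1 ▸ S.small_smul g (S.zz_spec x).1.2.2.1
  have b4 : g • u = u := by
    by_contra hn
    rcases b1.total S.t1 b2 with k | k
    · exact (mono_seg S.t1 S.mono b3 k b2 (Ne.symm hn)).2.1 (hy u).symm
    · exact (mono_seg S.t1 S.mono b3 k b1 hn).2.1 (hy u)
  have b5 := S.equiv g u (S.zz x) o1.ne.symm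
  rw [b4, ← hdir] at b5
  rw [← hg, S.free g u b4 (by omega) hd, one_smul]

theorem tie {x x' : S.Tr} (he : S.eta x = S.eta x') {p q : V} (hs : Small S.dir p q)
    (h : S.Opp x p q) (h' : S.Opp x' p q) : x = x' := by
  by_cases hp : p ∈ S.A x
  · exact S.c3_tie he hs.symm (h.1 hp) hp h'.symm
  · refine S.c3_tie he hs hp ?_ h'
    by_contra k
    exact hp (h.2 k)

end MT

end Pool.Agent.Work.MP_3d425c_gt.Bor
end

-- merged part: Pool.Agent.Work.MP_3d425c_gt.ZQ0
section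
/-! Trees with integral directions, rotation centres and invariant labels: definitions. -/

namespace Pool.Agent.Work.MP_3d425c_gt.Bor
open Classical

/-- A group acting on a tree whose directions at each point form a copy of `ℤ`, with a
rotating family and invariant labels of the directions. -/
structure QZ (Γ V : Type) [Group Γ] [MulAction Γ V] where
  dir : V → V → ℤ
  c : Γ → V → ℤ
  e : Γ → ℤ
  n : V → ℤ
  j : V → ℤ
  pi : V → ℤ → ℤ
  rot : V → Γ
  t1 : T1 dir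
  geo : ∀ a b, a ≠ b → Geo dir a b
  equiv : ∀ (g : Γ) u v, v ≠ u → dir (g • u) (g • v) = dir u v + c g u
  c_mul : ∀ (g h : Γ) u, c (g * h) u = c g (h • u) + c h u
  e_mul : ∀ g h, e (g * h) = e g + e h
  par : ∀ g u, Even (e g - c g u)
  n_smul : ∀ (g : Γ) u, n (g • u) = n u
  j_smul : ∀ (g : Γ) u, j (g • u) = j u
  rot_smul : ∀ (g : Γ) w, rot (g • w) = g * rot w * g⁻¹
  rot_fix : ∀ w, rot w • w = w
  c_rot : ∀ w, c (rot w) w = n w
  e_rot : ∀ w, e (rot w) = n w - 2 * j w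
  j_pos : ∀ w, 0 < j w
  j_lt : ∀ w, j w < n w
  h3 : ∀ w, 3 ≤ n w
  pi_smul : ∀ (g : Γ) u i, pi (g • u) (i + c g u) = pi u i
  pi_nonneg : ∀ u i, 0 ≤ pi u i
  pi_lt : ∀ u i, pi u i < n u
  sep : ∀ u i i', pi u i = pi u i' → n u ∣ j u * (i' - i) → n u ∣ i' - i

/-- Automorphisms of a labelled tree with rotations, together with a lift of the parity. -/
def IsAutZ {V : Type} (dir : V → V → ℤ) (n j : V → ℤ) (pi : V → ℤ → ℤ) (rot : V → Equiv.Perm V)
    (σ : Equiv.Perm V) (m : ℤ) : Prop :=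
  (∀ u, ∃ k, Even (m - k) ∧ (∀ v, v ≠ u → dir (σ u) (σ v) = dir u v + k) ∧
      ∀ i, pi (σ u) (i + k) = pi u i) ∧
    (∀ u, n (σ u) = n u ∧ j (σ u) = j u) ∧ ∀ u, rot (σ u) = σ * rot u * σ⁻¹

section
variable {V : Type} {dir : V → V → ℤ} {n j : V → ℤ} {pi : V → ℤ → ℤ} {rot : V → Equiv.Perm V}

theorem IsAutZ.one : IsAutZ dir n j pi rot 1 0 :=
  ⟨fun _ => ⟨0, by simp, fun _ _ => by simp, fun _ => by simp⟩, fun _ => ⟨rfl, rfl⟩,
    fun _ => by simp⟩

theorem IsAutZ.mul {σ τ : Equiv.Perm V} {m m' : ℤ} (h : IsAutZ dir n j pi rot σ m)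
    (h' : IsAutZ dir n j pi rot τ m') : IsAutZ dir n j pi rot (σ * τ) (m + m') := by
  refine ⟨fun u => ?_, fun u => ?_, fun u => ?_⟩
  · obtain ⟨k, h1, h2, h5⟩ := h.1 (τ u)
    obtain ⟨k', h3, h4, h6⟩ := h'.1 u
    refine ⟨k + k', by rw [show m + m' - (k + k') = m - k + (m' - k') by ring]; exact h1.add h3,
      fun v hv => ?_, fun i => ?_⟩
    · rw [Equiv.Perm.mul_apply, Equiv.Perm.mul_apply, h2 _ (τ.injective.ne hv), h4 v hv]
      ring
    · rw [Equiv.Perm.mul_apply, show i + (k + k') = i + k' + k by ring, h5, h6]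
  · rw [Equiv.Perm.mul_apply, (h.2.1 _).1, (h.2.1 _).2]
    exact h'.2.1 u
  · rw [Equiv.Perm.mul_apply, h.2.2, h'.2.2]
    group

theorem IsAutZ.inv {σ : Equiv.Perm V} {m : ℤ} (h : IsAutZ dir n j pi rot σ m) :
    IsAutZ dir n j pi rot σ⁻¹ (-m) := by
  have hh : ∀ x, σ (σ⁻¹ x) = x := fun x => by simp
  refine ⟨fun u => ?_, fun u => ?_, fun u => ?_⟩
  · obtain ⟨k, h1, h2, h3⟩ := h.1 (σ⁻¹ u)
    refine ⟨-k, by rw [show -m - -k = -(m - k) by ring]; exact h1.neg, fun v hv => ?_,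
      fun i => ?_⟩
    · have := h2 (σ⁻¹ v) (σ⁻¹.injective.ne hv)
      simp only [hh] at this
      omega
    · have := h3 (i + -k)
      rw [hh, neg_add_cancel_right] at this
      exact this.symm
  · have := h.2.1 (σ⁻¹ u)
    simp only [hh] at this
    exact ⟨this.1.symm, this.2.symm⟩
  · have := h.2.2 (σ⁻¹ u)
    simp only [hh] at this
    rw [this]
    group

end

end Pool.Agent.Work.MP_3d425c_gt.Bor
end

-- merged part: Pool.Agent.Work.MP_3d425c_gt.ZQ1
section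
/-! The counting function of a tree with several types of rotation centres. -/

namespace Pool.Agent.Work.MP_3d425c_gt.Bor
open Classical

namespace QZ
variable {Γ V : Type} [Group Γ] [MulAction Γ V] (S : QZ Γ V)

theorem e_one : S.e 1 = 0 := by have := S.e_mul 1 1; rw [mul_one] at this; omega

theorem c_one (u : V) : S.c 1 u = 0 := by
  have := S.c_mul 1 1 u
  rw [mul_one, one_smul] at this
  omega

/-- Marked points. -/
structure Mk (_S : QZ Γ V) where
  pos : V
  a : ℤ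
  b : ℤ

instance : MulAction Γ S.Mk where
  smul g m := ⟨g • m.pos, S.e g + m.a, S.c g m.pos + m.b⟩
  one_smul m := by
    show (⟨1 • m.pos, S.e 1 + m.a, S.c 1 m.pos + m.b⟩ : S.Mk) = m
    rw [one_smul, S.e_one, S.c_one, zero_add, zero_add]
  mul_smul g h m := by
    show (⟨(g * h) • m.pos, S.e (g * h) + m.a, S.c (g * h) m.pos + m.b⟩ : S.Mk) =
      ⟨g • h • m.pos, S.e g + (S.e h + m.a), S.c g (h • m.pos) + (S.c h m.pos + m.b)⟩
    rw [mul_smul, S.e_mul, S.c_mul, add_assoc, add_assoc]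

theorem smul_pos (g : Γ) (m : S.Mk) : (g • m).pos = g • m.pos := rfl

theorem smul_a (g : Γ) (m : S.Mk) : (g • m).a = S.e g + m.a := rfl

theorem smul_b (g : Γ) (m : S.Mk) : (g • m).b = S.c g m.pos + m.b := rfl

theorem exists_mk (w : V) : ∃ m : S.Mk, m.pos = w := ⟨⟨w, 0, 0⟩, rfl⟩

/-- The length of the circle of positions. -/
def L (u : V) : ℤ := 4 * S.n u * S.n u

/-- The position of a direction. -/
def Q (u : V) (i : ℤ) : ℤ := 4 * S.n u * S.j u * i + 2 * S.pi u i + 1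

/-- Position of the marked point `g` seen from `u`. -/
noncomputable def P (u : V) (g : S.Mk) : ℤ :=
  if g.pos = u then 2 * S.n u * (S.n u * g.a - (S.n u - 2 * S.j u) * g.b)
  else S.Q u (S.dir u g.pos)

/-- Index of the marked point `g` seen from `u`. -/
noncomputable def idx (u : V) (g : S.Mk) : ℤ :=
  if g.pos = u then g.a else S.dir u g.pos

/-- Local contribution. -/
noncomputable def loc (u : V) (g h : S.Mk) : ℤ :=
  rr (S.L u) (S.P u h - S.P u g) - (S.idx u h - S.idx u g)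

/-- The counting function. -/
noncomputable def W (g h : S.Mk) : ℤ := h.a - g.a + ∑ᶠ u, S.loc u g h

/-- Both points are seen in one direction. -/
def Same (u : V) (g h : S.Mk) : Prop :=
  g.pos ≠ u ∧ h.pos ≠ u ∧ S.dir u g.pos = S.dir u h.pos

theorem n3 (u : V) : 3 ≤ S.n u := S.h3 u

theorem L_pos (u : V) : 0 < S.L u := by
  have := S.n3 u
  unfold L
  positivity

theorem Q_step (u : V) (i : ℤ) : rr (S.L u) (S.Q u (i + 1) - S.Q u i) = 1 := by
  have h1 := S.j_pos u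
  have h2 := S.j_lt u
  have h3 := S.pi_nonneg u i
  have h4 := S.pi_lt u i
  have h5 := S.pi_nonneg u (i + 1)
  have h6 := S.pi_lt u (i + 1)
  have h7 : S.n u * 1 ≤ S.n u * S.j u := mul_le_mul_of_nonneg_left (by omega) (by omega)
  have h8 : S.n u * (S.j u + 1) ≤ S.n u * S.n u := mul_le_mul_of_nonneg_left (by omega) (by omega)
  refine rr_of_mem ?_ ?_
  · unfold Q
    linarith
  · unfold Q L
    linarith

theorem Q_smul (g : Γ) (u : V) (i : ℤ) :
    S.Q (g • u) (i + S.c g u) = S.Q u i + 4 * S.n u * S.j u * S.c g u := by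
  unfold Q
  rw [S.pi_smul, S.n_smul, S.j_smul]
  ring

theorem Q_sep {u : V} {i i' : ℤ} (h : S.L u ∣ S.Q u i - S.Q u i') : S.n u ∣ i' - i := by
  obtain ⟨k, hk⟩ := h
  have h1 := S.n3 u
  have h3 := S.pi_nonneg u i
  have h4 := S.pi_lt u i
  have h5 := S.pi_nonneg u i'
  have h6 := S.pi_lt u i'
  unfold Q L at hk
  have h7 : S.pi u i - S.pi u i' = S.n u * (2 * (S.n u * k + S.j u * (i' - i))) := by linarith
  have h8 : S.pi u i - S.pi u i' = 0 :=
    Int.eq_zero_of_abs_lt_dvd ⟨_, h7⟩ (abs_lt.2 ⟨by omega, by omega⟩)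
  rw [h8] at h7
  have h9 : S.n u * k + S.j u * (i' - i) = 0 := by
    rcases mul_eq_zero.1 h7.symm with h | h <;> omega
  exact S.sep u i i' (by omega) ⟨-k, by linarith⟩

theorem P_at {u : V} {g : S.Mk} (h : g.pos = u) :
    S.P u g = 2 * S.n u * (S.n u * g.a - (S.n u - 2 * S.j u) * g.b) := if_pos h

theorem P_off {u : V} {g : S.Mk} (h : g.pos ≠ u) :
    S.P u g = S.Q u (S.dir u g.pos) := if_neg h

theorem idx_at {u : V} {g : S.Mk} (h : g.pos = u) : S.idx u g = g.a := if_pos h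

theorem idx_off {u : V} {g : S.Mk} (h : g.pos ≠ u) : S.idx u g = S.dir u g.pos := if_neg h

variable {S}

theorem Same.P_eq {u : V} {g h : S.Mk} (s : S.Same u g h) : S.P u g = S.P u h := by
  rw [S.P_off s.1, S.P_off s.2.1, s.2.2]

theorem Same.idx_eq {u : V} {g h : S.Mk} (s : S.Same u g h) : S.idx u g = S.idx u h := by
  rw [S.idx_off s.1, S.idx_off s.2.1, s.2.2]

theorem Same.symm {u : V} {g h : S.Mk} (s : S.Same u g h) : S.Same u h g :=
  ⟨s.2.1, s.1, s.2.2.symm⟩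

variable (S)

theorem loc_anti (u : V) (g h : S.Mk) : S.loc u h g = -S.loc u g h := by
  unfold loc
  rw [← neg_sub (S.P u h), rr_neg]
  ring

theorem loc_small {u : V} {g h : S.Mk} (h1 : g.pos ≠ u) (h2 : h.pos ≠ u)
    (h3 : |S.dir u h.pos - S.dir u g.pos| ≤ 1) : S.loc u g h = 0 := by
  unfold loc
  rw [S.P_off h1, S.P_off h2, S.idx_off h1, S.idx_off h2]
  generalize S.dir u h.pos = a at h3 ⊢
  generalize S.dir u g.pos = b at h3 ⊢
  obtain rfl | rfl | rfl : b = a + 1 ∨ a = b ∨ a = b + 1 := by have := abs_le.1 h3; omega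
  · rw [← neg_sub (S.Q u (a + 1)), rr_neg, S.Q_step]
    ring
  · rw [sub_self, rr_zero, sub_self, sub_self]
  · rw [S.Q_step]
    ring

theorem loc_finite (g h : S.Mk) : (Function.support fun u => S.loc u g h).Finite := by
  have key : {u | g.pos ≠ u ∧ h.pos ≠ u ∧
      ¬ |S.dir u h.pos - S.dir u g.pos| ≤ 1}.Finite := by
    by_cases e : g.pos = h.pos
    · exact Set.Finite.subset Set.finite_empty fun u hu => hu.2.2 (by rw [e]; simp)
    · exact (S.geo _ _ e).finite S.t1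
  refine ((key.insert g.pos).insert h.pos).subset fun u hu => ?_
  by_contra hn
  simp only [Set.mem_insert_iff, Set.mem_setOf_eq, not_or, not_and, not_not] at hn
  exact hu (S.loc_small (Ne.symm hn.2.1) (Ne.symm hn.1) (hn.2.2 (Ne.symm hn.2.1) (Ne.symm hn.1)))

theorem W_anti (g h : S.Mk) : S.W h g = -S.W g h := by
  unfold W
  simp only [S.loc_anti _ g h, finsum_neg_distrib]
  ring

theorem loc_smul (x : Γ) (u : V) (g h : S.Mk) : S.loc (x • u) (x • g) (x • h) = S.loc u g h := by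
  obtain ⟨r, hr⟩ := S.par x u
  have key : ∀ g : S.Mk, S.P (x • u) (x • g) =
      S.P u g + 4 * S.n u * S.j u * S.c x u + S.L u * (if g.pos = u then r else 0) ∧
      S.idx (x • u) (x • g) = S.idx u g + S.c x u + 2 * (if g.pos = u then r else 0) := by
    intro g
    by_cases e : g.pos = u
    · have e' : (x • g).pos = x • u := by rw [S.smul_pos, e]
      rw [S.P_at e, S.P_at e', S.idx_at e, S.idx_at e', if_pos e, S.smul_a, S.smul_b, e,
        S.n_smul, S.j_smul, show S.e x = S.c x u + 2 * r by omega, L]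
      constructor <;> ring
    · have e' : (x • g).pos ≠ x • u := fun h => e (MulAction.injective x h)
      rw [S.P_off e, S.P_off e', S.idx_off e, S.idx_off e', if_neg e, S.smul_pos,
        S.equiv x u _ e, S.Q_smul]
      constructor <;> ring
  unfold loc
  rw [(key g).1, (key g).2, (key h).1, (key h).2, show S.L (x • u) = S.L u by
    rw [L, L, S.n_smul]]
  generalize (if g.pos = u then r else 0) = a
  generalize (if h.pos = u then r else 0) = b
  rw [show ∀ x y z : ℤ, x + z + S.L u * b - (y + z + S.L u * a) =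
    x - y + S.L u * (b - a) by intro x y z; ring, rr_add_mul (S.L_pos u)]
  ring

theorem W_smul (x : Γ) (g h : S.Mk) : S.W (x • g) (x • h) = S.W g h := by
  unfold W
  rw [S.smul_a, S.smul_a, ← finsum_comp_equiv (MulAction.toPerm x)]
  simp only [MulAction.toPerm_apply, S.loc_smul]
  ring

/-- The local defect. -/
noncomputable def df (u : V) (g h m : S.Mk) : ℤ :=
  rr (S.L u) (S.P u h - S.P u g) + rr (S.L u) (S.P u m - S.P u h) +
    rr (S.L u) (S.P u g - S.P u m)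

theorem W_sum (g h m : S.Mk) : S.W g h + S.W h m + S.W m g = ∑ᶠ u, S.df u g h m := by
  have : ∀ u, S.df u g h m = S.loc u g h + S.loc u h m + S.loc u m g := fun u => by
    unfold df loc
    ring
  simp only [this]
  rw [finsum_add_distrib _ (S.loc_finite m g), finsum_add_distrib (S.loc_finite g h)
    (S.loc_finite h m)]
  · unfold W
    ring
  · exact ((S.loc_finite g h).union (S.loc_finite h m)).subset (Function.support_add _ _)

theorem df_eq_zero {u : V} {g h m : S.Mk} (s : S.Same u g h ∨ S.Same u h m ∨ S.Same u m g) :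
    S.df u g h m = 0 := by
  unfold df
  rcases s with s | s | s <;> rw [s.P_eq, sub_self, rr_zero]
  · rw [← neg_sub (S.P u m), rr_neg]; ring
  · rw [← neg_sub (S.P u m), rr_neg]; ring
  · rw [← neg_sub (S.P u g), rr_neg]; ring

theorem same_of_active {w u : V} {g h m : S.Mk} (h1 : ¬ S.Same w g h) (h2 : ¬ S.Same w h m)
    (h3 : ¬ S.Same w m g) (hu : u ≠ w) : S.Same u g h ∨ S.Same u h m ∨ S.Same u m g := by
  have key : ∀ x y : S.Mk, (x.pos = w ∨ S.dir w x.pos ≠ S.dir w u) →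
      (y.pos = w ∨ S.dir w y.pos ≠ S.dir w u) → S.Same u x y := fun x y hx hy =>
    ⟨(S.t1.key hu hx).1, (S.t1.key hu hy).1, (S.t1.key hu hx).2.trans (S.t1.key hu hy).2.symm⟩
  have k2 : ∀ x y : S.Mk, ¬ S.Same w x y → ¬ (x.pos = w ∨ S.dir w x.pos ≠ S.dir w u) →
      (y.pos = w ∨ S.dir w y.pos ≠ S.dir w u) := fun x y hs hx => by
    by_contra hy
    push Not at hx hy
    exact hs ⟨hx.1, hy.1, hx.2.trans hy.2.symm⟩
  by_cases a : g.pos = w ∨ S.dir w g.pos ≠ S.dir w u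
  · by_cases b : h.pos = w ∨ S.dir w h.pos ≠ S.dir w u
    · exact Or.inl (key g h a b)
    · exact Or.inr (Or.inr (key m g (k2 h m h2 b) a))
  · exact Or.inr (Or.inl (key h m (k2 g h h1 a) (k2 g m (fun s => h3 s.symm) a)))

theorem W_active {w : V} {g h m : S.Mk} (h1 : ¬ S.Same w g h) (h2 : ¬ S.Same w h m)
    (h3 : ¬ S.Same w m g) : S.W g h + S.W h m + S.W m g = S.df w g h m := by
  rw [S.W_sum]
  exact finsum_eq_single _ w fun u hu => S.df_eq_zero (S.same_of_active h1 h2 h3 hu)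

theorem W_defect (g h m : S.Mk) : S.W g h + S.W h m + S.W m g ≤ 1 := by
  by_cases e : ∃ w, ¬ S.Same w g h ∧ ¬ S.Same w h m ∧ ¬ S.Same w m g
  · obtain ⟨w, h1, h2, h3⟩ := e
    rw [S.W_active h1 h2 h3]
    exact rr_defect (S.L_pos w) (by ring)
  · rw [S.W_sum, finsum_eq_zero_of_forall_eq_zero fun u => S.df_eq_zero (by
      by_contra hn
      push Not at hn
      exact e ⟨u, hn⟩)]
    exact zero_le_one

theorem W_same {g h : S.Mk} (e : g.pos = h.pos) :
    S.W g h = rr (S.L g.pos) (S.P g.pos h - S.P g.pos g) := by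
  unfold W
  rw [finsum_eq_single _ g.pos fun u hu => S.loc_small (Ne.symm hu) (e ▸ Ne.symm hu)
    (by rw [e]; simp)]
  unfold loc
  rw [S.idx_at rfl, S.idx_at e.symm]
  ring

/-- Changing the second point without changing its position. -/
theorem W_congr (g : S.Mk) {h h' : S.Mk} (e : h.pos = h'.pos)
    (hP : S.P h.pos h = S.P h.pos h') : S.W g h = S.W g h' := by
  have h1 : S.W h h' = 0 := by rw [S.W_same e, hP, sub_self, rr_zero]
  have h2 : S.W g h + S.W h h' + S.W h' g = 0 := by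
    rw [S.W_sum]
    refine finsum_eq_zero_of_forall_eq_zero fun u => ?_
    by_cases hu : h.pos = u
    · unfold df
      rw [← hu, hP, sub_self, rr_zero, ← neg_sub (S.P _ h'), rr_neg]
      ring
    · exact S.df_eq_zero (Or.inr (Or.inl ⟨hu, e ▸ hu, by rw [e]⟩))
  have := S.W_anti g h'
  omega

theorem rr_odd_of_parity (u : V) {x : ℤ} (h : Odd x) : Odd (rr (S.L u) x) :=
  rr_odd (S.L_pos u) fun ⟨k, hk⟩ => by
    obtain ⟨j, hj⟩ := h
    have : x = 2 * (2 * S.n u * S.n u * k) := by rw [hk, L]; ring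
    omega

theorem P_diff_odd {u : V} {g h : S.Mk} (h1 : g.pos = u) (h2 : h.pos ≠ u) :
    Odd (S.P u h - S.P u g) := by
  rw [S.P_at h1, S.P_off h2, Q]
  exact ⟨2 * S.n u * S.j u * S.dir u h.pos + S.pi u (S.dir u h.pos) -
    S.n u * (S.n u * g.a - (S.n u - 2 * S.j u) * g.b), by ring⟩

/-- No turn between `a` and `b` is a nonzero multiple of `n`. -/
def Red (a b : V) : Prop := RedN S.dir S.n a b

theorem Red.left {a w b : V} (h : S.Red a b) (hw : Btw S.dir a w b) : S.Red a w := by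
  intro u h1 h2 h3
  rcases S.t1.split hw (Ne.symm h2) with k | k
  · exact k.2.symm
  · rw [← k.2] at h3 ⊢
    exact h u h1 k.1 h3

theorem W_odd {a b : V} (hg : Geo S.dir a b) : S.Red a b → ∀ g h : S.Mk, g.pos = a →
    h.pos = b → Odd (S.W g h) := by
  have base : ∀ {a b : V}, Str S.dir a b → ∀ g h : S.Mk, g.pos = a → h.pos = b →
      Odd (S.W g h) := by
    intro a b hs g h e1 e2
    have n1 : h.pos ≠ a := e2 ▸ hs.1.symm
    have n2 : g.pos ≠ b := e1 ▸ hs.1
    unfold W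
    rw [finsum_eq_sum_of_support_subset (s := {a, b}) _ fun u hu => by
      by_contra hn
      simp only [Finset.coe_insert, Finset.coe_singleton, Set.mem_insert_iff,
        Set.mem_singleton_iff, not_or] at hn
      refine hu (S.loc_small (e1 ▸ Ne.symm hn.1) (e2 ▸ Ne.symm hn.2) ?_)
      rw [e1, e2]
      exact hs.2.2 u (Ne.symm hn.1) (Ne.symm hn.2), Finset.sum_pair hs.1]
    unfold loc
    obtain ⟨i, hi⟩ := S.rr_odd_of_parity a (S.P_diff_odd e1 n1)
    obtain ⟨j, hj⟩ := S.rr_odd_of_parity b (S.P_diff_odd e2 n2)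
    obtain ⟨k, hk⟩ := hs.2.1
    rw [← neg_sub (S.P b g), rr_neg, hi, hj, S.idx_at e1, S.idx_at e2, S.idx_off n1, S.idx_off n2,
      e1, e2, Int.odd_iff]
    omega
  induction hg with
  | base h => exact fun _ => base h
  | @step w b _ h2 h3 ih =>
    intro hr g h e1 e2
    obtain ⟨m, e3⟩ := S.exists_mk w
    have n1 : g.pos ≠ w := e1 ▸ h3.1
    have n2 : h.pos ≠ w := e2 ▸ h3.2.1
    have key := S.W_active (w := w) (g := g) (h := m) (m := h) (fun s => s.2.1 e3)
      (fun s => s.1 e3) fun s => h3.2.2 (by rw [← e1, ← e2]; exact s.2.2.symm)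
    obtain ⟨i, hi⟩ := ih (hr.left S h3) g m e1 e3
    obtain ⟨j, hj⟩ := base h2 m h e3 e2
    obtain ⟨k, hk⟩ := S.rr_odd_of_parity w (S.P_diff_odd e3 n1)
    obtain ⟨l, hl⟩ := S.rr_odd_of_parity w (S.P_diff_odd e3 n2)
    obtain ⟨o, ho⟩ : Odd (rr (S.L w) (S.P w g - S.P w h)) := by
      refine rr_odd (S.L_pos w) fun hd => h3.2.2 (hr w h3.1 h3.2.1 ?_).symm
      rw [S.P_off n1, S.P_off n2, e1, e2] at hd
      exact S.Q_sep hd
    unfold df at key
    rw [← neg_sub (S.P w g), rr_neg, hi, hj, hk, hl, ho, S.W_anti g h] at key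
    rw [Int.odd_iff]
    omega

end QZ

end Pool.Agent.Work.MP_3d425c_gt.Bor
end
end

-- merged part: Pool.Agent.Work.MP_3d425c_gt.PBDefs
section
-- merged part: Pool.Agent.Work.MP_3d425c_gt.PAC4
section
/-! The tree property after adding the cut points. -/

namespace Pool.Agent.Work.MP_3d425c_gt.Bor
open Classical

namespace MT
variable {Γ V : Type} [Group Γ] [MulAction Γ V] (S : MT Γ V)

theorem c4_sign (i : ℤ) : (-1 : ℝ) ^ i = 1 ∨ (-1 : ℝ) ^ i = -1 := by
  rcases Int.even_or_odd i with h | h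
  exacts [Or.inl h.neg_one_zpow, Or.inr h.neg_one_zpow]

theorem c4_side {x : S.Tr} {p q : V} (hs : Small S.dir p q) (h : S.Opp x p q) :
    (p ∈ S.A x ∧ 0 < (-1) ^ x.i * (S.y p - S.eta x)) ∨
      (p ∉ S.A x ∧ (-1) ^ x.i * (S.y p - S.eta x) < 0) := by
  by_cases hp : p ∈ S.A x
  · exact Or.inl ⟨hp, (S.straight_sep hs.symm (h.1 hp) hp).2⟩
  · exact Or.inr ⟨hp, (S.straight_sep hs hp (not_not.1 fun hq => hp (h.2 hq))).1⟩

theorem c4_same {x : S.Tr} {p q p' q' : V} (hs : Small S.dir p q) (h : S.Opp x p q)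
    (hs' : Small S.dir p' q') (h' : S.Opp x p' q') (e : p ∈ S.A x ↔ p' ∈ S.A x) :
    0 < (S.y p - S.eta x) * (S.y p' - S.eta x) := by
  rcases S.c4_side hs h with ⟨a, b⟩ | ⟨a, b⟩ <;> rcases S.c4_side hs' h' with ⟨a', b'⟩ | ⟨a', b'⟩
  · rcases c4_sign x.i with k | k <;> rw [k] at b b' <;> nlinarith
  · exact absurd (e.1 a) a'
  · exact absurd (e.2 a') a
  · rcases c4_sign x.i with k | k <;> rw [k] at b b' <;> nlinarith

theorem c4_diff {x : S.Tr} {p q p' q' : V} (hs : Small S.dir p q) (h : S.Opp x p q)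
    (hs' : Small S.dir p' q') (h' : S.Opp x p' q') (e : S.Opp x p p') :
    (S.y p - S.eta x) * (S.y p' - S.eta x) < 0 := by
  rcases S.c4_side hs h with ⟨a, b⟩ | ⟨a, b⟩ <;> rcases S.c4_side hs' h' with ⟨a', b'⟩ | ⟨a', b'⟩
  · exact absurd a' (e.1 a)
  · rcases c4_sign x.i with k | k <;> rw [k] at b b' <;> nlinarith
  · rcases c4_sign x.i with k | k <;> rw [k] at b b' <;> nlinarith
  · exact absurd (e.2 a') a

theorem c4_sep {x : S.Tr} {p q : V} (hs : Small S.dir p q) (h : S.Opp x p q) :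
    (S.y p - S.eta x) * (S.y q - S.eta x) < 0 := S.c4_diff hs h hs.symm h.symm h

theorem c4_far_or (x : S.Tr) {x' : S.Tr} {p q : V} (hs : Small S.dir p q) (h : S.Opp x' p q) :
    S.Far x x' p ∨ S.Far x x' q := by
  have h1 := S.c4_sep hs h
  by_cases h2 : (S.y p - S.eta x') * (S.eta x - S.eta x') ≤ 0
  · exact Or.inl ⟨q, hs, h, h2⟩
  · refine Or.inr ⟨p, hs.symm, h.symm, not_lt.1 fun h3 => ?_⟩
    have h4 := mul_pos (not_le.1 h2) h3
    nlinarith [sq_nonneg (S.eta x - S.eta x')]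

theorem c4_opp_base (x : S.Tr) : S.Opp x x.w (S.zz x) :=
  ⟨fun h => absurd h (S.w_not_mem x), fun h => absurd (S.zz_mem x) h⟩

theorem c4_small_base (x : S.Tr) : Small S.dir x.w (S.zz x) := (S.zz_spec x).1.2.2.1

theorem c4_num {a b D : ℝ} (h1 : 0 < a * b) (h2 : a * D ≤ 0) : ¬ (a - D) * (b - D) < 0 := by
  have h3 : b * D ≤ 0 := by
    by_contra h4
    have h5 := mul_pos h1 (not_le.1 h4)
    nlinarith [sq_nonneg b]
  nlinarith [sq_nonneg D]

theorem c4_core {x x' : S.Tr} {p q p' q' : V} (hs : Small S.dir p q) (h : S.Opp x' p q)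
    (hs' : Small S.dir p' q') (h' : S.Opp x' p' q') (e : p ∈ S.A x' ↔ p' ∈ S.A x')
    (n : (S.y p - S.eta x') * (S.eta x - S.eta x') ≤ 0)
    (n' : (S.y p' - S.eta x') * (S.eta x - S.eta x') ≤ 0) : p ∈ S.A x ↔ p' ∈ S.A x := by
  obtain ⟨m, m1, m2, m3⟩ := S.med p p' q
  have hm := S.convex e m1
  have o1 : S.Opp x' m q := hm.trans h
  have o2 : S.Opp x' m q' := (hm.trans e).trans h'
  have m4 : Wb S.dir p' m q' := by
    rcases m2 with k | k | k
    · exact Or.inl k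
    · exact absurd k.symm o1.ne
    · exact Or.inr (Or.inr (by rwa [S.opp_dir o2, ← S.opp_dir o1]))
  have s1 : Small S.dir p m := hs.left S.t1 m3.symm
  have s2 : Small S.dir m q := (hs.symm.left S.t1 m3).symm
  have s3 : Small S.dir p' m := hs'.left S.t1 m4
  have k1 := c4_num (S.c4_same hs h s2 o1 hm.symm) n
  have k2 := c4_num (S.c4_same hs' h' s2 o1 (hm.trans e).symm) n'
  rw [sub_sub_sub_cancel_right, sub_sub_sub_cancel_right] at k1 k2
  have j1 : ¬ S.Opp x p m := fun o => k1 (S.c4_sep s1 o)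
  have j2 : ¬ S.Opp x p' m := fun o => k2 (S.c4_sep s3 o)
  unfold Opp at j1 j2
  (clear * - e hm j1 j2; grind)

theorem c4_far_same {x x' : S.Tr} (hx : x ≠ x') {p p' : V} (hp : S.Far x x' p)
    (hp' : S.Far x x' p') : p ∈ S.A x ↔ p' ∈ S.A x := by
  obtain ⟨q, hs, h, n⟩ := hp
  obtain ⟨q', hs', h', n'⟩ := hp'
  by_cases e : p ∈ S.A x' ↔ p' ∈ S.A x'
  · exact S.c4_core hs h hs' h' e n n'
  · have e1 : S.Opp x' p p' := by
      unfold Opp
      tauto
    have e2 := S.c4_diff hs h hs' h' e1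
    have e3 : S.eta x = S.eta x' := by
      by_contra e4
      have h1 := mul_nonneg_of_nonpos_of_nonpos n n'
      have h2 := mul_pos_of_neg_of_neg e2 (neg_lt_zero.2 (sq_pos_of_ne_zero (sub_ne_zero.2 e4)))
      nlinarith
    have e4 : ¬ S.Opp x p' q' := fun o => hx (S.tie e3 hs' o h')
    have e5 := S.c4_core (x := x) hs h hs'.symm h'.symm (by
      unfold Opp at h' e1
      (clear * - e e1 h'; tauto)) n (by rw [e3, sub_self, mul_zero])
    unfold Opp at e4
    (clear * - e e4 e5; tauto)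

theorem exists_far (x x' : S.Tr) : S.Far x x' x'.w ∨ S.Far x x' (S.zz x') := by
  exact S.c4_far_or x (S.c4_small_base x') (S.c4_opp_base x')

theorem far_iff {x x' : S.Tr} (h : x ≠ x') {p : V} (hp : S.Far x x' p) :
    p ∈ S.A x ↔ S.Ah x x' := by
  exact ⟨fun h1 => ⟨p, hp, h1⟩, fun ⟨_, hp', h1⟩ => (S.c4_far_same h hp hp').2 h1⟩

theorem c4_pair (x : S.Tr) {v f : V} (h : ¬ (f ∈ S.A x ↔ v ∈ S.A x)) :
    ∃ p q, Wb S.dir v p f ∧ Wb S.dir v q f ∧ Small S.dir p q ∧ S.Opp x p q ∧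
      (p ∈ S.A x ↔ v ∈ S.A x) := by
  obtain ⟨p, q, h1, h2, h3, h4, h5⟩ :=
    exists_sub_pair S.t1 S.fin (fun u => u ∈ S.A x ↔ v ∈ S.A x) Iff.rfl h
  refine ⟨p, q, h1, h2, h3, ?_, h4⟩
  unfold Opp
  tauto

theorem cover {x x' : S.Tr} (h : x ≠ x') (v : V) :
    (v ∈ S.A x ↔ S.Ah x x') ∨ (v ∈ S.A x' ↔ S.Ah x' x) := by
  by_contra hn
  obtain ⟨n1, n2⟩ := not_or.1 hn
  obtain ⟨f, hf⟩ : ∃ f, S.Far x x' f := (S.exists_far x x').elim (fun k => ⟨_, k⟩) fun k => ⟨_, k⟩
  obtain ⟨p, q, -, -, hs, ho, hp⟩ :=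
    S.c4_pair x (v := v) (f := f) fun e => n1 (e.symm.trans (S.far_iff h hf))
  by_cases e : p ∈ S.A x' ↔ v ∈ S.A x'
  · rcases S.c4_far_or x' hs ho with k | k
    · exact n2 (e.symm.trans (S.far_iff h.symm k))
    · have k1 := S.far_iff h.symm k
      have ho' : S.Opp x' p q := by
        unfold Opp
        (clear * - e hn hp k1 n1 n2; grind)
      have he : S.eta x ≠ S.eta x' := fun e1 => h (S.tie e1 hs ho ho')
      obtain ⟨-, -, -, k2⟩ := k
      have k3 := S.c4_sep hs ho'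
      refine n1 (hp.symm.trans (S.far_iff h ⟨q, hs, ho', not_lt.1 fun k4 => ?_⟩))
      have k5 : 0 < (S.y q - S.eta x') * (S.eta x - S.eta x') := by
        nlinarith [sq_pos_of_ne_zero (sub_ne_zero.2 he)]
      have k6 := mul_pos k4 k5
      nlinarith [sq_nonneg (S.eta x - S.eta x')]
  · obtain ⟨p₁, q₁, w1, w2, hs₁, ho₁, -⟩ := S.c4_pair x' e
    rcases S.c4_far_or x hs₁ ho₁ with k | k
    · exact n1 ((S.convex hp.symm w1).symm.trans (S.far_iff h k))
    · exact n1 ((S.convex hp.symm w2).symm.trans (S.far_iff h k))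

theorem c4_Ah_smul (g : Γ) {x x' : S.Tr} (h : S.Ah x x') : S.Ah (g • x) (g • x') := by
  obtain ⟨p, ⟨q, hs, ho, n⟩, hp⟩ := h
  refine ⟨g • p, ⟨g • q, S.small_smul g hs, ?_, ?_⟩, (S.A_smul g x p).2 hp⟩
  · unfold Opp
    rw [S.A_smul, S.A_smul]
    exact ho
  · have e : S.eta (g • x) - S.eta (g • x') =
        (S.y (g • p) - S.eta (g • x')) - (S.y (g • p) - S.eta (g • x)) := by ring
    rw [e, S.eta_smul, S.eta_smul]
    generalize (-1 : ℝ) ^ S.e g * S.lam ^ S.deg g = κ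
    nlinarith [mul_nonneg (sq_nonneg κ) (neg_nonneg.2 n)]

theorem Ah_smul (g : Γ) (x x' : S.Tr) : S.Ah (g • x) (g • x') ↔ S.Ah x x' := by
  refine ⟨fun h => ?_, S.c4_Ah_smul g⟩
  have := S.c4_Ah_smul g⁻¹ h
  rwa [inv_smul_smul, inv_smul_smul] at this

theorem c4_exists (x : S.Tr) (P : Prop) : ∃ z, ¬ (z ∈ S.A x ↔ P) := by
  by_cases h : P
  · exact ⟨x.w, fun e => S.w_not_mem x (e.2 h)⟩
  · exact ⟨S.zz x, fun e => h (e.1 (S.zz_mem x))⟩

theorem c4_both {x x' : S.Tr} (h : x ≠ x') {a : V} (n : ¬ (a ∈ S.A x ↔ S.Ah x x')) :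
    S.dirP (.inl a) (.inr x') = S.dirP (.inl a) (.inr x) := by
  obtain ⟨z, hz⟩ := S.c4_exists x' (S.Ah x' x)
  have h1 := (S.cover h a).resolve_left n
  have h2 := (S.cover h z).resolve_right hz
  have o1 : S.Opp x a z := by
    unfold Opp
    (clear * - h1 h2 hz n; grind)
  have o2 : S.Opp x' a z := by
    unfold Opp
    (clear * - h1 h2 hz n; grind)
  rw [← S.opp_dir o1, ← S.opp_dir o2]

theorem c4_not_far {x x' : S.Tr} (h : x ≠ x') {p q : V} (hs : Small S.dir p q)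
    (ho : S.Opp x' p q) (n : ¬ (p ∈ S.A x ↔ S.Ah x x')) :
    0 < (S.y p - S.eta x') * (S.eta x - S.eta x') :=
  not_le.1 fun k => n (S.far_iff h ⟨q, hs, ho, k⟩)

theorem c4_num3 {p q a b c : ℝ} (h1 : 0 < (q - b) * (a - b)) (h2 : 0 < (p - c) * (a - c))
    (h3 : 0 < (q - c) * (b - c)) (h4 : (p - b) * (q - b) < 0) (h5 : (p - c) * (q - c) < 0) :
    False := by
  rcases mul_pos_iff.1 h1 with ⟨a1, a2⟩ | ⟨a1, a2⟩ <;>
    rcases mul_pos_iff.1 h2 with ⟨b1, b2⟩ | ⟨b1, b2⟩ <;>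
    rcases mul_pos_iff.1 h3 with ⟨c1, c2⟩ | ⟨c1, c2⟩ <;>
    rcases mul_neg_iff.1 h4 with ⟨d1, d2⟩ | ⟨d1, d2⟩ <;>
    rcases mul_neg_iff.1 h5 with ⟨e1, e2⟩ | ⟨e1, e2⟩ <;> linarith

theorem c4_three {k k' k'' : S.Tr} (h1 : k ≠ k') (h2 : k ≠ k'')
    (n : ¬ (S.Ah k k' ↔ S.Ah k k'')) : S.Ah k' k'' ↔ S.Ah k' k := by
  by_contra n'
  have h3 : k' ≠ k'' := fun e => n (e ▸ Iff.rfl)
  have c : ∀ u, ((u ∈ S.A k ↔ S.Ah k k') ∧ (u ∈ S.A k'' ↔ S.Ah k'' k)) ∨
      (¬ (u ∈ S.A k ↔ S.Ah k k') ∧ (u ∈ S.A k' ↔ S.Ah k' k) ∧ (u ∈ S.A k'' ↔ S.Ah k'' k')) :=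
    fun u => by
      have c1 := S.cover h1 u
      have c2 := S.cover h2 u
      have c3 := S.cover h3 u
      by_cases e : u ∈ S.A k ↔ S.Ah k k'
      · exact Or.inl ⟨e, c2.resolve_left fun e' => n (e.symm.trans e')⟩
      · have e1 := c1.resolve_left e
        exact Or.inr ⟨e, e1, c3.resolve_left fun e' => n' (e'.symm.trans e1)⟩
  have r : ¬ (S.Ah k'' k ↔ S.Ah k'' k') := fun e => by
    obtain ⟨z, hz⟩ := S.c4_exists k'' (S.Ah k'' k)
    rcases c z with k | k
    · exact hz k.2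
    · exact hz (k.2.2.trans e.symm)
  have key : ∀ p q, Small S.dir p q → (p ∈ S.A k ↔ S.Ah k k') → ¬ (q ∈ S.A k ↔ S.Ah k k') →
      False := fun p q hs hp hq => by
    have a1 := ((c p).resolve_right fun e => e.1 hp).2
    obtain ⟨-, a2, a3⟩ := (c q).resolve_left fun e => hq e.1
    have a4 := (S.cover h3 p).resolve_right fun e => r (a1.symm.trans e)
    have o1 : S.Opp k' p q := by
      unfold Opp
      rw [a4, a2]
      (clear * - a1 a2 a3 a4 hp hq n n' r; grind)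
    have o2 : S.Opp k'' p q := by
      unfold Opp
      rw [a1, a3]
      (clear * - a1 a2 a3 a4 hp hq n n' r; grind)
    exact c4_num3 (S.c4_not_far h1 hs.symm o1.symm hq)
      (S.c4_not_far h2 hs o2 fun e => n (hp.symm.trans e))
      (S.c4_not_far h3 hs.symm o2.symm fun e => n' (e.symm.trans a2)) (S.c4_sep hs o1)
      (S.c4_sep hs o2)
  by_cases e : S.Ah k k'
  · exact key _ _ (S.c4_small_base k).symm (iff_of_true (S.zz_mem k) e)
      fun e' => S.w_not_mem k (e'.2 e)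
  · exact key _ _ (S.c4_small_base k) (iff_of_false (S.w_not_mem k) e)
      fun e' => e (e'.1 (S.zz_mem k))

theorem t1P : T1 S.dirP := by
  rintro (a | a) (v | v) (b | b) h1 h2 h
  · exact S.t1 a v b (fun e => h1 (congrArg _ e)) (fun e => h2 (congrArg _ e)) h
  · by_cases o : S.Opp b a v
    · exact (S.opp_dir o).symm
    · obtain ⟨z, hz⟩ := S.c4_exists b (v ∈ S.A b)
      have o1 : S.Opp b v z := by
        unfold Opp
        tauto
      have o2 : S.Opp b a z := by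
        unfold Opp at o ⊢
        tauto
      rw [← S.opp_dir o1] at h
      rw [← S.opp_dir o2]
      exact S.t1 a v z (fun e => h1 (congrArg _ e)) o1.ne.symm h
  · refine S.opp_dir ?_
    have n : ¬ (a ∈ S.A v ↔ b ∈ S.A v) := fun e => h (if_congr e rfl rfl)
    unfold Opp
    tauto
  · exact S.c4_both (fun e => h2 (congrArg _ e.symm)) fun e => h (if_congr e rfl rfl)
  · refine if_congr ?_ rfl rfl
    have n : ¬ S.Opp a v b := fun o => h (S.opp_dir o).symm
    unfold Opp at n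
    tauto
  · refine if_congr ?_ rfl rfl
    by_contra n
    exact h (S.c4_both (fun e => h (by rw [e])) fun e => n e.symm).symm
  · exact if_congr ((S.cover (fun e => h1 (congrArg _ e)) b).resolve_right
      fun e => h (if_congr e.symm rfl rfl)) rfl rfl
  · exact if_congr (S.c4_three (fun e => h1 (congrArg _ e.symm)) (fun e => h2 (congrArg _ e.symm))
      fun e => h (if_congr e rfl rfl)) rfl rfl

end MT

end Pool.Agent.Work.MP_3d425c_gt.Bor
end

-- merged part: Pool.Agent.Work.MP_3d425c_gt.PAC5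
section
/-! Big turns, parity and exhaustion after adding the cut points. -/

namespace Pool.Agent.Work.MP_3d425c_gt.Bor
open Classical

namespace MT
variable {Γ V : Type} [Group Γ] [MulAction Γ V] (S : MT Γ V)

theorem PAC5_val (x : S.Tr) (a : V ⊕ S.Tr) :
    S.dirP (.inr x) a = x.i ∨ S.dirP (.inr x) a = x.i + 1 := by
  rcases a with v | x'
  · show (if _ then _ else _) = _ ∨ (if _ then _ else _) = _
    split_ifs
    exacts [Or.inl rfl, Or.inr rfl]
  · show (if _ then _ else _) = _ ∨ (if _ then _ else _) = _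
    split_ifs
    exacts [Or.inl rfl, Or.inr rfl]

theorem smallP (x : S.Tr) (a b : V ⊕ S.Tr) :
    |S.dirP (.inr x) b - S.dirP (.inr x) a| ≤ 1 := by
  rw [abs_le]
  rcases S.PAC5_val x a with h | h <;> rcases S.PAC5_val x b with k | k <;> omega

/-- The first anchor. -/
def PAC5_a1 : V ⊕ S.Tr → V
  | .inl v => v
  | .inr x => x.w

/-- The second anchor. -/
noncomputable def PAC5_a2 : V ⊕ S.Tr → V
  | .inl v => v
  | .inr x => S.zz x

theorem PAC5_anchor (u : V) (p : V ⊕ S.Tr) (h : p ≠ .inl u) :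
    ∃ p', (p' = S.PAC5_a1 p ∨ p' = S.PAC5_a2 p) ∧ p' ≠ u ∧ S.dirP (.inl u) p = S.dir u p' := by
  rcases p with v | x
  · exact ⟨v, Or.inl rfl, fun e => h (by rw [e]), rfl⟩
  · by_cases hu : u ∈ S.A x
    · exact ⟨x.w, Or.inl rfl, fun e => S.w_not_mem x (e ▸ hu), if_pos hu⟩
    · exact ⟨S.zz x, Or.inr rfl, fun e => hu (e ▸ S.zz_mem x), if_neg hu⟩

theorem finP : FinB S.dirP := by
  intro a b
  have h := (((S.fin (S.PAC5_a1 a) (S.PAC5_a1 b)).union (S.fin (S.PAC5_a1 a) (S.PAC5_a2 b))).union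
    ((S.fin (S.PAC5_a2 a) (S.PAC5_a1 b)).union (S.fin (S.PAC5_a2 a) (S.PAC5_a2 b)))).image
      (Sum.inl : V → V ⊕ S.Tr)
  refine h.subset ?_
  rintro (u | x) ⟨h1, h2, h3⟩
  · obtain ⟨a', ha, ha1, ha2⟩ := S.PAC5_anchor u a h1
    obtain ⟨b', hb, hb1, hb2⟩ := S.PAC5_anchor u b h2
    rw [ha2, hb2] at h3
    refine ⟨u, ?_, rfl⟩
    rcases ha with rfl | rfl <;> rcases hb with rfl | rfl
    exacts [Or.inl (Or.inl ⟨ha1, hb1, h3⟩), Or.inl (Or.inr ⟨ha1, hb1, h3⟩),
      Or.inr (Or.inl ⟨ha1, hb1, h3⟩), Or.inr (Or.inr ⟨ha1, hb1, h3⟩)]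
  · exact absurd (S.smallP x a b) h3

theorem PAC5_zz_small (x : S.Tr) : Small S.dir x.w (S.zz x) := (S.zz_spec x).1.2.2.1

theorem PAC5_pair (x : S.Tr) (P : Prop) :
    ∃ p q, Small S.dir p q ∧ S.Opp x p q ∧ (p ∈ S.A x ↔ P) := by
  have h1 := S.w_not_mem x
  have h2 := S.zz_mem x
  by_cases hP : P
  · exact ⟨S.zz x, x.w, (S.PAC5_zz_small x).symm, iff_of_true h2 h1, iff_of_true h2 hP⟩
  · exact ⟨x.w, S.zz x, S.PAC5_zz_small x, iff_of_false h1 (not_not.2 h2), iff_of_false h1 hP⟩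

theorem PAC5_even {x : S.Tr} {p q : V} (hs : Small S.dir p q) (h : S.Opp x p q) :
    Even (S.dirP (.inr x) (.inl q)) ↔ S.y p < S.y q := by
  by_cases hq : q ∈ S.A x
  · have hp : p ∉ S.A x := fun k => h.1 k hq
    obtain ⟨h1, h2⟩ := S.straight_sep hs hp hq
    have e : S.dirP (.inr x) (.inl q) = x.i := if_pos hq
    rw [e]
    rcases Int.even_or_odd x.i with k | k
    · rw [k.neg_one_zpow] at h1 h2
      exact iff_of_true k (by linarith)
    · rw [k.neg_one_zpow] at h1 h2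
      exact iff_of_false (Int.not_even_iff_odd.2 k) (by linarith)
  · have hp : p ∈ S.A x := h.2 hq
    obtain ⟨h1, h2⟩ := S.straight_sep hs.symm hq hp
    have e : S.dirP (.inr x) (.inl q) = x.i + 1 := if_neg hq
    rw [e]
    rcases Int.even_or_odd x.i with k | k
    · rw [k.neg_one_zpow] at h1 h2
      exact iff_of_false (Int.not_even_iff_odd.2 k.add_one) (by linarith)
    · rw [k.neg_one_zpow] at h1 h2
      exact iff_of_true k.add_one (by linarith)

theorem PAC5_odd {m n : ℤ} {a b : ℝ} (h1 : Even m ↔ a < b) (h2 : Even n ↔ b < a) (h : a ≠ b) :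
    Odd (m + n) := by
  rw [Int.odd_add', ← Int.not_even_iff_odd, h1, h2]
  exact ⟨fun k => lt_of_le_of_ne (not_lt.1 k) h, fun k => not_lt.2 k.le⟩

theorem PAC5_par1 (u : V) (x : S.Tr) (hs : Small S.dirP (.inl u) (.inr x)) :
    Odd (S.dirP (.inl u) (.inr x) + S.dirP (.inr x) (.inl u)) := by
  obtain ⟨p, q, h1, h2, h3⟩ := S.PAC5_pair x (u ∈ S.A x)
  have o1 : S.Opp x u q := by unfold Opp at *; tauto
  have s1 : Small S.dir u q := by
    intro t t1 t2
    by_cases ht : t ∈ S.A x ↔ u ∈ S.A x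
    · have o2 : S.Opp x t q := by unfold Opp at *; (clear * - h2 h3 ht o1; grind)
      rw [S.opp_dir o2]
      exact hs (.inl t) (fun e => t1 (Sum.inl.inj e)) (by simp)
    · have o2 : S.Opp x t u := by unfold Opp at *; (clear * - h2 h3 ht o1; grind)
      have o3 : S.Opp x t p := by unfold Opp at *; (clear * - h2 h3 ht o1 o2; grind)
      rw [S.opp_dir o2, ← S.opp_dir o3]
      exact h1 t o3.ne.symm t2
  obtain ⟨m1, m2⟩ := S.mono u q o1.ne s1
  rw [← S.opp_dir o1]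
  exact PAC5_odd m1 (S.PAC5_even s1.symm o1.symm) m2

theorem PAC5_l1 {a b P : Prop} (h1 : a ↔ P) (h2 : b ↔ ¬ P) : a ↔ ¬ b := by tauto

theorem PAC5_l2 {a b P : Prop} (h1 : ¬ (a ↔ P)) (h2 : b ↔ P) : a ↔ ¬ b := by tauto

theorem PAC5_l3 {a b c P : Prop} (h1 : ¬ (a ↔ P)) (h2 : b ↔ ¬ P) (h3 : b ↔ ¬ c) : a ↔ ¬ c := by
  tauto

theorem PAC5_l4 {a P : Prop} (h1 : a ↔ ¬ P) : ¬ (a ↔ P) := by tauto

theorem PAC5_par2 {x x' : S.Tr} (hx : x ≠ x') (hs : Small S.dirP (.inr x) (.inr x')) :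
    Odd (S.dirP (.inr x) (.inr x') + S.dirP (.inr x') (.inr x)) := by
  obtain ⟨p, q, h1, h2, h3⟩ := S.PAC5_pair x (¬ S.Ah x x')
  obtain ⟨p', q', k1, k2, k3⟩ := S.PAC5_pair x' (¬ S.Ah x' x)
  have c1 : p ∈ S.A x' ↔ S.Ah x' x := (S.cover hx p).resolve_left (PAC5_l4 h3)
  have c2 : p' ∈ S.A x ↔ S.Ah x x' := (S.cover hx p').resolve_right (PAC5_l4 k3)
  have o1 : S.Opp x p p' := PAC5_l2 (PAC5_l4 h3) c2
  have o2 : S.Opp x' p' p := PAC5_l2 (PAC5_l4 k3) c1
  have s1 : Small S.dir p p' := by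
    intro t t1 t2
    by_cases ht : t ∈ S.A x ↔ S.Ah x x'
    · by_cases ht' : t ∈ S.A x' ↔ S.Ah x' x
      · have o3 : S.Opp x t p := PAC5_l1 ht h3
        have o4 : S.Opp x' t p' := PAC5_l1 ht' k3
        rw [S.opp_dir o3, S.opp_dir o4]
        exact hs (.inl t) (by simp) (by simp)
      · have o3 : S.Opp x' t p := PAC5_l2 ht' c1
        have o4 : S.Opp x' t q' := PAC5_l3 ht' k3 k2
        rw [S.opp_dir o3, ← S.opp_dir o4]
        exact k1.symm t o4.ne.symm t2
    · have o3 : S.Opp x t p' := PAC5_l2 ht c2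
      have o4 : S.Opp x t q := PAC5_l3 ht h3 h2
      rw [S.opp_dir o3, ← S.opp_dir o4]
      exact h1 t t1 o4.ne.symm
  have e1 : S.dirP (.inr x) (.inr x') = S.dirP (.inr x) (.inl p') := if_congr c2.symm rfl rfl
  have e2 : S.dirP (.inr x') (.inr x) = S.dirP (.inr x') (.inl p) := if_congr c1.symm rfl rfl
  rw [e1, e2]
  exact PAC5_odd (S.PAC5_even s1 o1) (S.PAC5_even s1.symm o2) (S.mono p p' o1.ne s1).2

theorem parP : Par S.dirP := by
  rintro (u | x) (v | x') h hs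
  · refine S.mono.par u v (fun e => h (by rw [e])) fun t t1 t2 => ?_
    exact hs (.inl t) (fun e => t1 (Sum.inl.inj e)) (fun e => t2 (Sum.inl.inj e))
  · exact S.PAC5_par1 u x' hs
  · rw [add_comm]
    exact S.PAC5_par1 v x hs.symm
  · exact S.PAC5_par2 (fun e => h (by rw [e])) hs

theorem cut_smallP (x : S.Tr) : Small S.dirP (.inl x.w) (.inr x) := by
  rintro (t | x') h1 h2
  · by_cases ht : t ∈ S.A x
    · have e : S.dirP (.inl t) (.inr x) = S.dirP (.inl t) (.inl x.w) := if_pos ht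
      simp [e]
    · have e : S.dirP (.inl t) (.inr x) = S.dir t (S.zz x) := if_neg ht
      rw [e]
      exact S.PAC5_zz_small x t (fun k => h1 (by rw [k])) fun k => ht (k ▸ S.zz_mem x)
  · exact S.smallP x' _ _

theorem PAC5_w (x : S.Tr) : S.dirP (.inr x) (.inl x.w) = x.i + 1 := if_neg (S.w_not_mem x)

theorem PAC5_btw {x x' : S.Tr} (h : x' ≠ x) (k : S.Ah x x') :
    Btw S.dirP (.inl x.w) (.inr x) (.inr x') := by
  refine ⟨by simp, fun e => h (Sum.inr.inj e), ?_⟩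
  have e : S.dirP (.inr x) (.inr x') = x.i := if_pos k
  rw [e, S.PAC5_w]
  omega

theorem cut_btwP (w : V) (i l : ℤ) :
    Btw S.dirP (.inl w) (.inr ⟨w, i, l⟩) (.inr ⟨w, i, l + 1⟩) := by
  refine S.PAC5_btw (x := ⟨w, i, l⟩) (fun e => ?_) ?_
  · have := congrArg Tr.l e
    simp at this
  · obtain ⟨h1, h2⟩ := S.zz_spec ⟨w, i, l + 1⟩
    have h3 := S.s_lt w i l
    refine ⟨S.zz ⟨w, i, l + 1⟩, ⟨w, (S.PAC5_zz_small _).symm,
      iff_of_true (S.zz_mem _) (S.w_not_mem ⟨w, i, l + 1⟩), ?_⟩, _, h1, wb_right _ _, h3.trans h2⟩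
    have h4 := (S.ray_y h1).1
    unfold eta
    dsimp only at h2 h4 ⊢
    rcases Int.even_or_odd i with k | k
    · rw [k.neg_one_zpow] at h4 ⊢
      exact mul_nonpos_of_nonneg_of_nonpos (by linarith) (by linarith)
    · rw [k.neg_one_zpow] at h4 ⊢
      exact mul_nonpos_of_nonpos_of_nonneg (by linarith) (by linarith)

theorem PAC5_mem {w v : V} (h : v ≠ w) :
    ∃ l, ∀ l' ≤ l, v ∈ S.A ⟨w, S.dir w v, l'⟩ := by
  obtain ⟨z, hz, -⟩ := S.ray_far w (S.dir w v) 0
  obtain ⟨m, m1, m2, m3⟩ := S.med w z v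
  have hm : m ≠ w := by
    rintro rfl
    exact not_wb.2 ⟨hz.1, h, hz.2.1⟩ m2
  have r := S.ray_sub hz m1 hm
  obtain ⟨l, hl⟩ := S.s_small w (S.dir w v) (S.ray_y r).2
  exact ⟨l, fun l' k => ⟨m, r, m3.symm, hl l' k⟩⟩

theorem PAC5_sep {x : S.Tr} {p q : V} (hs : Small S.dir p q) (h : S.Opp x p q) :
    S.y p < S.eta x ∧ S.eta x < S.y q ∨ S.y q < S.eta x ∧ S.eta x < S.y p := by
  by_cases hq : q ∈ S.A x
  · obtain ⟨h1, h2⟩ := S.straight_sep hs (fun k => h.1 k hq) hq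
    rcases Int.even_or_odd x.i with k | k
    · rw [k.neg_one_zpow] at h1 h2
      exact Or.inl ⟨by linarith, by linarith⟩
    · rw [k.neg_one_zpow] at h1 h2
      exact Or.inr ⟨by linarith, by linarith⟩
  · obtain ⟨h1, h2⟩ := S.straight_sep hs.symm hq (h.2 hq)
    rcases Int.even_or_odd x.i with k | k
    · rw [k.neg_one_zpow] at h1 h2
      exact Or.inr ⟨by linarith, by linarith⟩
    · rw [k.neg_one_zpow] at h1 h2
      exact Or.inl ⟨by linarith, by linarith⟩

theorem PAC5_far (x : S.Tr) {x' : S.Tr} {p q : V} (hs : Small S.dir p q) (h : S.Opp x' p q) :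
    S.Far x x' p ∨ S.Far x x' q := by
  rcases le_total (S.eta x) (S.eta x') with k | k <;> rcases S.PAC5_sep hs h with s | s
  · exact Or.inr ⟨p, hs.symm, h.symm,
      mul_nonpos_of_nonneg_of_nonpos (by linarith [s.2]) (by linarith)⟩
  · exact Or.inl ⟨q, hs, h, mul_nonpos_of_nonneg_of_nonpos (by linarith [s.2]) (by linarith)⟩
  · exact Or.inl ⟨q, hs, h, mul_nonpos_of_nonpos_of_nonneg (by linarith [s.1]) (by linarith)⟩
  · exact Or.inr ⟨p, hs.symm, h.symm,
      mul_nonpos_of_nonpos_of_nonneg (by linarith [s.1]) (by linarith)⟩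

theorem lowP (w : V) (p : V ⊕ S.Tr) (h : p ≠ .inl w) :
    ∃ l, Btw S.dirP (.inl w) (.inr ⟨w, S.dirP (.inl w) p, l⟩) p := by
  rcases p with v | x'
  · obtain ⟨l, hl⟩ := S.PAC5_mem (w := w) (v := v) fun e => h (by rw [e])
    refine ⟨l, by simp, by simp, ?_⟩
    have e : S.dirP (.inr ⟨w, S.dir w v, l⟩) (.inl v) = S.dir w v := if_pos (hl l le_rfl)
    have e' := S.PAC5_w ⟨w, S.dir w v, l⟩
    show S.dirP (.inr ⟨w, S.dir w v, l⟩) (.inl w) ≠ S.dirP (.inr ⟨w, S.dir w v, l⟩) (.inl v)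
    dsimp only at e'
    omega
  obtain ⟨p, q, h1, h2, h3⟩ := S.PAC5_pair x' (w ∈ S.A x')
  have o1 : S.Opp x' w q := by unfold Opp at *; tauto
  rw [← S.opp_dir o1]
  obtain ⟨l, hl⟩ := S.PAC5_mem o1.ne.symm
  by_cases hw : Wb S.dir p w q
  · have s1 : Small S.dir w q := (h1.symm.left S.t1 hw.symm).symm
    obtain ⟨m1, m2⟩ := S.mono w q o1.ne s1
    have sep := S.PAC5_sep s1 o1
    have hr : 0 < (-1) ^ S.dir w q * (S.eta x' - S.y w) := by
      rcases Int.even_or_odd (S.dir w q) with k | k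
      · have := m1.1 k
        rw [k.neg_one_zpow]
        rcases sep with s | s <;> linarith [s.1, s.2]
      · have := mt m1.2 (Int.not_even_iff_odd.2 k)
        rw [k.neg_one_zpow]
        rcases sep with s | s <;> linarith [s.1, s.2]
    obtain ⟨l', hl'⟩ := S.s_small w (S.dir w q) hr
    have b1 := hl (min l l') (min_le_left _ _)
    have b2 := hl' (min l l') (min_le_right _ _)
    refine ⟨min l l', S.PAC5_btw (x := ⟨w, S.dir w q, min l l'⟩) (fun e => ?_)
      ⟨q, ⟨w, s1.symm, o1.symm, ?_⟩, b1⟩⟩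
    · rw [e] at b2
      unfold eta at b2
      dsimp only at b2
      rcases Int.even_or_odd (S.dir w q) with k | k
      · rw [k.neg_one_zpow] at b2
        linarith
      · rw [k.neg_one_zpow] at b2
        linarith
    · have e : S.eta ⟨w, S.dir w q, min l l'⟩ =
          S.y w + (-1) ^ S.dir w q * S.s ⟨w, S.dir w q, min l l'⟩ := rfl
      rw [e]
      rcases Int.even_or_odd (S.dir w q) with k | k
      · rw [k.neg_one_zpow] at b2 hr ⊢
        rcases sep with s | s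
        · exact mul_nonpos_of_nonneg_of_nonpos (by linarith [s.2]) (by linarith)
        · linarith [s.2]
      · rw [k.neg_one_zpow] at b2 hr ⊢
        rcases sep with s | s
        · linarith [s.1]
        · exact mul_nonpos_of_nonpos_of_nonneg (by linarith [s.1]) (by linarith)
  · obtain ⟨n1, -, n3⟩ := not_wb.1 hw
    obtain ⟨l', hl'⟩ := S.PAC5_mem n1
    rw [n3] at hl'
    have b1 := hl (min l l') (min_le_left _ _)
    have b2 := hl' (min l l') (min_le_right _ _)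
    refine ⟨min l l', S.PAC5_btw (x := ⟨w, S.dir w q, min l l'⟩) (fun e => ?_) ?_⟩
    · rw [← e] at b1 b2
      exact h2.1 b2 b1
    · rcases S.PAC5_far ⟨w, S.dir w q, min l l'⟩ h1 h2 with k | k
      exacts [⟨p, k, b2⟩, ⟨q, k, b1⟩]

theorem PAC5_not_mem (w : V) (i : ℤ) (v : V) : ∃ l, ∀ l', l ≤ l' → v ∉ S.A ⟨w, i, l'⟩ := by
  obtain ⟨C, hC⟩ := height_bound S.t1 S.fin S.mono w v
  obtain ⟨l, hl⟩ := S.s_big w i C
  refine ⟨l, fun l' k ⟨m, _, m2, m3⟩ => ?_⟩
  have h1 := hC m m2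
  have h2 := hl l' k
  unfold ht at m3
  dsimp only at m3
  linarith

theorem highP (w : V) (i : ℤ) (p : V ⊕ S.Tr) :
    ∃ l, ¬ Wb S.dirP (.inl w) (.inr ⟨w, i, l⟩) p := by
  rcases p with v | x'
  · obtain ⟨l, hl⟩ := S.PAC5_not_mem w i v
    exact ⟨l, not_wb.2 ⟨by simp, by simp,
      (S.PAC5_w ⟨w, i, l⟩).trans (if_neg (hl l le_rfl)).symm⟩⟩
  · obtain ⟨l, hl⟩ := S.PAC5_not_mem w i x'.w
    obtain ⟨l', hl'⟩ := S.PAC5_not_mem w i (S.zz x')
    have b1 := hl (max l l') (le_max_left _ _)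
    have b2 := hl' (max l l') (le_max_right _ _)
    have hx : (⟨w, i, max l l'⟩ : S.Tr) ≠ x' := fun e => b2 (e ▸ S.zz_mem _)
    have hA : ¬ S.Ah ⟨w, i, max l l'⟩ x' := fun k => by
      rcases S.exists_far ⟨w, i, max l l'⟩ x' with f | f
      exacts [b1 ((S.far_iff hx f).2 k), b2 ((S.far_iff hx f).2 k)]
    exact ⟨max l l', not_wb.2 ⟨by simp, fun e => hx (Sum.inr.inj e).symm,
      (S.PAC5_w ⟨w, i, max l l'⟩).trans (if_neg hA).symm⟩⟩

end MT

end Pool.Agent.Work.MP_3d425c_gt.Bor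
end

-- merged part: Pool.Agent.Work.MP_3d425c_gt.PAC6
section
/-! The ordered quotient for trees with heights. -/

namespace Pool.Agent.Work.MP_3d425c_gt.Bor
open Classical

namespace MT
variable {Γ V : Type} [Group Γ] [MulAction Γ V] (S : MT Γ V)

theorem PAC6_equiv (g : Γ) (u v : V ⊕ S.Tr) (h : v ≠ u) :
    S.dirP (g • u) (g • v) =
      S.dirP u v + Sum.elim (S.c g) (fun x : S.Tr => S.c g x.w) u := by
  rcases u with u | x <;> rcases v with v | x'
  · exact S.equiv g u v fun e => h (congrArg _ e)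
  · change S.dirP (.inl (g • u)) (.inr (g • x')) = S.dirP (.inl u) (.inr x') + S.c g u
    by_cases hu : u ∈ S.A x'
    · have h1 : S.Opp x' u x'.w := ⟨fun _ => S.w_not_mem x', fun _ => hu⟩
      have h2 : S.Opp (g • x') (g • u) (g • x'.w) := by
        unfold Opp
        rw [S.A_smul, S.A_smul]
        exact h1
      rw [← S.opp_dir h1, ← S.opp_dir h2, S.equiv g _ _ h1.ne.symm]
    · have h1 : S.Opp x' u (S.zz x') :=
        ⟨fun k => absurd k hu, fun k => absurd (S.zz_mem x') k⟩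
      have h2 : S.Opp (g • x') (g • u) (g • S.zz x') := by
        unfold Opp
        rw [S.A_smul, S.A_smul]
        exact h1
      rw [← S.opp_dir h1, ← S.opp_dir h2, S.equiv g _ _ h1.ne.symm]
  · change (if g • v ∈ S.A (g • x) then x.i + S.c g x.w else x.i + S.c g x.w + 1) =
      (if v ∈ S.A x then x.i else x.i + 1) + S.c g x.w
    rw [S.A_smul]
    split_ifs <;> ring
  · change (if S.Ah (g • x) (g • x') then x.i + S.c g x.w else x.i + S.c g x.w + 1) =
      (if S.Ah x x' then x.i else x.i + 1) + S.c g x.w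
    rw [S.Ah_smul]
    split_ifs <;> ring

theorem PAC6_prim (w : V) (g : Γ) (k l : ℤ) (hg : g • w = w)
    (hc : k * S.c g w = l * S.c (S.γ w) w) (hd : k * S.deg g = l * S.deg (S.γ w)) : k ∣ l := by
  obtain ⟨h1, h2, h3⟩ := S.fix_zpow hg k
  obtain ⟨h4, h5, h6⟩ := S.fix_zpow (S.γ_fix w) (-l)
  have h7 : g ^ k * S.γ w ^ (-l) = 1 := by
    refine S.free _ w ?_ ?_ ?_
    · rw [mul_smul, h4, h1]
    · rw [S.c_mul, h4, h2, h5, hc]
      ring
    · rw [S.deg_mul, h3, h6, hd]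
      ring
  rw [zpow_neg, mul_inv_eq_one] at h7
  exact S.prim w g k l hg h7

theorem PAC6_nt : ∃ (g : Γ) (v : V), g • v ≠ v ∧
    Small S.dirP (.inl v) (.inl (g • v)) := by
  obtain ⟨w⟩ := S.ne
  obtain ⟨z, hz, hpos⟩ := S.ray_far w 0 0
  obtain ⟨-, -, hs, T, hT, -, hd, hw⟩ := hz
  refine ⟨T, z, fun e => ?_, ?_⟩
  · have h1 := S.ht_smul T w z
    rw [hT, e] at h1
    have h2 : 1 < S.lam ^ S.deg T := one_lt_zpow₀ S.lam_gt hd
    nlinarith
  · have h1 := S.small_smul T hs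
    rw [hT] at h1
    have h2 : Small S.dir z (T • z) := h1.sub S.t1 hw (wb_right _ _)
    rintro (u | x) h3 h4
    · exact h2 u (fun e => h3 (congrArg _ e)) fun e => h4 (congrArg _ e)
    · exact S.smallP x _ _

/-- The tree with the cut points added. -/
noncomputable def PAC6_rq : RQ Γ (V ⊕ S.Tr) where
  dir := S.dirP
  c g := Sum.elim (S.c g) fun x => S.c g x.w
  e := S.e
  deg := S.deg
  real p := ∃ v, p = .inl v
  γ := Sum.elim S.γ fun _ => 1
  cut p i l := Sum.elim (fun w => .inr ⟨w, i, l⟩) (fun x => .inr x) p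
  t1 := S.t1P
  fin := S.finP
  par := S.parP
  equiv := S.PAC6_equiv
  c_mul g h u := by
    rcases u with u | x
    · exact S.c_mul g h u
    · exact S.c_mul g h x.w
  e_mul := S.e_mul
  deg_mul := S.deg_mul
  epar g u := by
    rcases u with u | x
    · exact S.epar g u
    · exact S.epar g x.w
  real_smul := by
    rintro g _ ⟨v, rfl⟩
    exact ⟨g • v, rfl⟩
  nreal_small u a b hu _ _ := by
    rcases u with u | x
    · exact absurd ⟨u, rfl⟩ hu
    · exact S.smallP x a b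
  γ_fix := by
    rintro _ ⟨v, rfl⟩
    exact congrArg Sum.inl (S.γ_fix v)
  γ_smul := by
    rintro g _ ⟨v, rfl⟩
    exact S.γ_smul g v
  he0 := by
    rintro _ ⟨v, rfl⟩
    exact S.he0 v
  he1 := by
    rintro _ ⟨v, rfl⟩
    exact S.he1 v
  prim := by
    rintro _ ⟨v, rfl⟩ g k l hg hc hd
    exact S.PAC6_prim v g k l (Sum.inl_injective hg) hc hd
  cut_smul := by
    rintro g _ i l ⟨v, rfl⟩
    rfl
  cut_inj := by
    rintro _ i l _ i' l' ⟨v, rfl⟩ ⟨v', rfl⟩ h
    exact congrArg (fun x : S.Tr => Sum.inl x.w) (Sum.inr_injective h)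
  cut_nreal := by
    rintro _ i l ⟨v, rfl⟩ ⟨v', h⟩
    exact Sum.inr_ne_inl h
  dir_cut := by
    rintro _ i l ⟨v, rfl⟩
    have h1 : S.Opp ⟨v, i, l⟩ v (S.zz ⟨v, i, l⟩) :=
      ⟨fun k => absurd k (S.w_not_mem ⟨v, i, l⟩), fun k => absurd (S.zz_mem _) k⟩
    exact (S.opp_dir h1).symm.trans (S.zz_spec ⟨v, i, l⟩).1.2.1
  cut_small := by
    rintro _ i l ⟨v, rfl⟩
    exact S.cut_smallP ⟨v, i, l⟩
  cut_btw := by
    rintro _ i l ⟨v, rfl⟩
    exact S.cut_btwP v i l
  low := by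
    rintro _ p ⟨v, rfl⟩ h
    exact S.lowP v p h
  high := by
    rintro _ i p ⟨v, rfl⟩
    exact S.highP v i p
  nt := by
    obtain ⟨g, v, h1, h2⟩ := S.PAC6_nt
    exact ⟨g, .inl v, ⟨v, rfl⟩, fun e => h1 (Sum.inl_injective e), h2⟩

end MT

theorem MT.exists_order {Γ V : Type} [Group Γ] [MulAction Γ V] (S : MT Γ V) :
    ∃ (Ω : Type) (_ : LinearOrder Ω) (ρ : Γ →* (Ω ≃o Ω)), ρ ≠ 1 ∧
      ∀ g, ρ g = 1 ↔ g ∈ Subgroup.normalClosure (Set.range S.γ) := by
  obtain ⟨Ω, i, ρ, h1, h2, h3⟩ := S.PAC6_rq.exists_order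
  have hγ : ∀ w, ρ (S.γ w) = 1 := fun w => h1 (.inl w) ⟨w, rfl⟩
  have hT : ∀ (T : Γ) (w : V), T • w = w → S.c T w = 0 → 0 < S.deg T → ρ T ≠ 1 := by
    intro T w hT hc hd
    obtain ⟨z, hz, hpos⟩ := S.ray_far w 0 0
    have hz' := S.ray_smul T hz
    rw [hT, hc, add_zero] at hz'
    have k1 := S.ht_smul T w z
    rw [hT] at k1
    have k2 : 1 < S.lam ^ S.deg T := one_lt_zpow₀ S.lam_gt hd
    have k3 : Small S.dir z (T • z) :=
      hz'.2.2.1.sub S.t1 (S.ray_wb hz hz' (by nlinarith)) (wb_right _ _)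
    refine h2 T (.inl z) ⟨z, rfl⟩ (fun e => ?_) ?_
    · have e' : T • z = z := Sum.inl_injective e
      rw [e'] at k1
      nlinarith
    · rintro (u | x) h3 h4
      · exact k3 u (fun e => h3 (congrArg _ e)) fun e => h4 (congrArg _ e)
      · exact S.smallP x (.inl z) (.inl (T • z))
  have hle : Subgroup.normalClosure (Set.range S.γ) ≤ ρ.ker :=
    Subgroup.normalClosure_le_normal (by rintro _ ⟨w, rfl⟩; exact hγ w)
  obtain ⟨w⟩ := S.ne
  refine ⟨Ω, i, ρ, fun e => ?_, fun g => ⟨fun hg => ?_, fun hg => hle hg⟩⟩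
  · obtain ⟨T, k1, k2, k3⟩ := S.hyp w
    exact hT T w k1 k2 k3 (by rw [e]; rfl)
  obtain ⟨h, k1, k2⟩ := h3 g (.inl w) ⟨w, rfl⟩ hg
  have k3 : h ∈ Subgroup.normalClosure (Set.range S.γ) := by
    refine Subgroup.normalClosure_mono ?_ k1
    rintro _ ⟨_, ⟨v, rfl⟩, rfl⟩
    exact ⟨v, rfl⟩
  have k4 : (h⁻¹ * g) • w = w := by
    rw [mul_smul, inv_smul_eq_iff]
    exact (Sum.inl_injective k2).symm
  have k5 : ρ (h⁻¹ * g) = 1 := by rw [map_mul, map_inv, hg, hle k3, inv_one, one_mul]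
  suffices k6 : h⁻¹ * g ∈ Subgroup.normalClosure (Set.range S.γ) by
    simpa using Subgroup.mul_mem _ k3 k6
  generalize h⁻¹ * g = s at k4 k5
  have hn : 0 < S.c (S.γ w) w := (abs_nonneg _).trans_lt (S.he1 w)
  have fz := fun k l : ℤ => And.intro (S.fix_zpow k4 k) (S.fix_zpow (S.γ_fix w) l)
  have hd : S.c (S.γ w) w * S.deg s = S.c s w * S.deg (S.γ w) := by
    by_contra hne
    rcases lt_or_gt_of_ne hne with k | k
    · obtain ⟨⟨a1, a2, a3⟩, b1, b2, b3⟩ := fz (-S.c (S.γ w) w) (S.c s w)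
      refine hT (s ^ (-S.c (S.γ w) w) * S.γ w ^ S.c s w) w (by rw [mul_smul, b1, a1])
        (by rw [S.c_mul, b1, a2, b2]; ring) (by rw [S.deg_mul, a3, b3]; linarith) ?_
      rw [map_mul, map_zpow, map_zpow, k5, hγ, one_zpow, one_zpow, one_mul]
    · obtain ⟨⟨a1, a2, a3⟩, b1, b2, b3⟩ := fz (S.c (S.γ w) w) (-S.c s w)
      refine hT (s ^ S.c (S.γ w) w * S.γ w ^ (-S.c s w)) w (by rw [mul_smul, b1, a1])
        (by rw [S.c_mul, b1, a2, b2]; ring) (by rw [S.deg_mul, a3, b3]; linarith) ?_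
      rw [map_mul, map_zpow, map_zpow, k5, hγ, one_zpow, one_zpow, one_mul]
  obtain ⟨q, hq⟩ := S.PAC6_prim w s _ _ k4 (mul_comm _ _) hd
  obtain ⟨b1, b2, b3⟩ := S.fix_zpow (S.γ_fix w) (-q)
  have k7 : s * S.γ w ^ (-q) = 1 := by
    refine S.free _ w (by rw [mul_smul, b1, k4]) (by rw [S.c_mul, b1, b2, hq]; ring) ?_
    rw [S.deg_mul, b3]
    rw [hq, mul_assoc] at hd
    have := mul_left_cancel₀ hn.ne' hd
    linarith
  rw [zpow_neg, mul_inv_eq_one] at k7
  rw [k7]
  exact Subgroup.zpow_mem _ (Subgroup.subset_normalClosure (Set.mem_range_self w)) q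

end Pool.Agent.Work.MP_3d425c_gt.Bor
end

-- merged part: Pool.Agent.Work.MP_3d425c_gt.PADefs
section
/-! Ideal triangulations of a circularly ordered set, with a height function. -/

namespace Pool.Agent.Work.MP_3d425c_gt.PA

variable {V : Type} [LinearOrder V]

/-- The circular order of three distinct points. -/
def cyc (a b c : V) : Prop := (a < b ∧ b < c) ∨ (b < c ∧ c < a) ∨ (c < a ∧ a < b)

/-- `E` is the edge relation of an ideal triangulation with vertex set `V`. -/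
structure IdealTri (E : V → V → Prop) : Prop where
  symm : ∀ a b, E a b → E b a
  nocross : ∀ a b c d, E a b → E c d → cyc a c b → cyc b d a → False
  apex : ∀ a b, E a b → ∃ c, cyc a c b ∧ E a c ∧ E c b
  fin : ∀ u v, {p : V × V | E p.1 p.2 ∧ cyc p.1 u p.2 ∧ cyc p.2 v p.1}.Finite
  ne : ∃ a b, E a b

/-- The edges `(a, b)` crossed by the horizontal half-leaf (prong) that leaves `w` through
the triangle `(w, a₀, b₀)`. -/
inductive Leaf (E : V → V → Prop) (y : V → ℝ) (w a₀ b₀ : V) : V → V → Prop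
  | base : E w a₀ → E w b₀ → E a₀ b₀ → cyc w a₀ b₀ → (y a₀ - y w) * (y b₀ - y w) < 0 →
      Leaf E y w a₀ b₀ a₀ b₀
  | left {a b c : V} : Leaf E y w a₀ b₀ a b → cyc a c b → E a c → E c b →
      (y a - y w) * (y c - y w) < 0 → Leaf E y w a₀ b₀ a c
  | right {a b c : V} : Leaf E y w a₀ b₀ a b → cyc a c b → E a c → E c b →
      (y c - y w) * (y b - y w) < 0 → Leaf E y w a₀ b₀ c b

/-- `S` is the set of vertices on the left of a prong at `w`. -/
def Prong (E : V → V → Prop) (y : V → ℝ) (w : V) (S : Set V) : Prop :=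
  ∃ a₀ b₀, Leaf E y w a₀ b₀ a₀ b₀ ∧
    S = {u | ∃ a b, Leaf E y w a₀ b₀ a b ∧ (u = a ∨ cyc w u a)}

/-- The number of prongs at `w` that separate `u` from `v`. -/
noncomputable def prongs (E : V → V → Prop) (y : V → ℝ) (w u v : V) : ℕ :=
  {S | Prong E y w S ∧ (u ∈ S ↔ v ∉ S)}.ncard

end Pool.Agent.Work.MP_3d425c_gt.PA
end

-- merged part: Pool.Agent.Work.MP_3d425c_gt.PAT1
section
/-! Ideal triangulations: circular order, descent and fans. -/

namespace Pool.Agent.Work.MP_3d425c_gt.Bor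
open Classical PA

variable {V : Type} [LinearOrder V]

/-- The linear order on the complement of `w`. -/
def cle (w u v : V) : Prop := u = v ∨ cyc w u v

theorem cyc_rot {a b c : V} (h : cyc a b c) : cyc b c a := by unfold cyc at *; grind

theorem cyc_ne {a b c : V} (h : cyc a b c) : a ≠ b ∧ b ≠ c ∧ a ≠ c := by unfold cyc at *; grind

theorem cyc_asymm {a b c : V} (h : cyc a b c) : ¬ cyc a c b := by unfold cyc at *; grind

theorem cyc_total {a b c : V} (h1 : a ≠ b) (h2 : b ≠ c) (h3 : a ≠ c) :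
    cyc a b c ∨ cyc a c b := by unfold cyc at *; grind

theorem cyc_trans {w a b c : V} (h : cyc w a b) (h' : cyc w b c) : cyc w a c := by
  unfold cyc at *; grind

theorem cyc_mid {w a b c : V} (h : cyc w a b) (h' : cyc w b c) : cyc a b c := by
  unfold cyc at *; grind

theorem PAT1_a {p c q z : V} (h : cyc p c q) (h' : cyc q z p) : cyc c z p := by
  unfold cyc at *; grind

theorem PAT1_b {p c q z : V} (h : cyc p c q) (h' : cyc q z p) : cyc q z c := by
  unfold cyc at *; grind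

theorem PAT1_c {p c q x : V} (h : cyc p c q) (h' : cyc p x c) : cyc p x q := by
  unfold cyc at *; grind

theorem PAT1_d {p c q x : V} (h : cyc p c q) (h' : cyc c x q) : cyc p x q := by
  unfold cyc at *; grind

theorem PAT1_e {p c q w : V} (h : cyc p w q) (h' : cyc p c q) :
    w = c ∨ cyc p w c ∨ cyc c w q := by
  unfold cyc at *; grind

/-- An ideal triangulation with heights and without horizontal saddle connections. -/
structure TH (V : Type) [LinearOrder V] where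
  E : V → V → Prop
  y : V → ℝ
  tri : IdealTri E
  hy : ∀ a b, E a b → y a ≠ y b
  nos : ∀ w a₀ b₀ a b c, Leaf E y w a₀ b₀ a b → cyc a c b → E a c → E c b → y c ≠ y w

namespace TH
variable (S : TH V)

/-- A positively oriented triangle with first vertex `w`. -/
def Tri (w a b : V) : Prop := S.E w a ∧ S.E w b ∧ S.E a b ∧ cyc w a b

theorem E_ne {a b : V} (h : S.E a b) : a ≠ b := by
  obtain ⟨c, hc, -⟩ := S.tri.apex a b h
  exact (cyc_ne hc).2.2

theorem apex_unique {a b c c' : V} (h1 : cyc a c b) (h2 : S.E a c) (h3 : S.E c b)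
    (h4 : cyc a c' b) (h5 : S.E a c') (h6 : S.E c' b) : c = c' := by
  by_contra hne
  rcases cyc_total (cyc_ne h1).1 hne (cyc_ne h4).1 with k | k
  · exact S.tri.nocross a c' c b h5 h3 k (cyc_rot h4)
  · exact S.tri.nocross a c c' b h2 h6 k (cyc_rot h1)

theorem desc (w : V) (Q : V → V → Prop)
    (h : ∀ p q c, S.E p q → cyc p w q → cyc p c q → S.E p c → S.E c q →
      (cyc p w c → Q p c) → (cyc c w q → Q c q) → Q p q) :
    ∀ p q, S.E p q → cyc p w q → Q p q := by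
  intro p₀ q₀ hE₀ hc₀
  obtain ⟨z, hz, -⟩ := S.tri.apex q₀ p₀ (S.tri.symm _ _ hE₀)
  obtain ⟨A, hA⟩ : ∃ A : V → V → Set (V × V), ∀ p q, A p q =
      {x | (S.E x.1 x.2 ∧ cyc x.1 w x.2 ∧ cyc x.2 z x.1) ∧
        (x.1 = p ∨ cyc p x.1 q) ∧ (x.2 = q ∨ cyc p x.2 q)} := ⟨_, fun _ _ => rfl⟩
  have hfin : ∀ p q, (A p q).Finite := fun p q =>
    (S.tri.fin w z).subset (by rw [hA]; exact fun x hx => hx.1)
  have key : ∀ n p q, S.E p q → cyc p w q → cyc q z p → (A p q).ncard = n → Q p q := by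
    intro n
    induction n using Nat.strong_induction_on with
    | _ n ih =>
      intro p q hE h1 h2 hn
      obtain ⟨c, hc, e1, e2⟩ := S.tri.apex p q hE
      have hm : (p, q) ∈ A p q := by
        rw [hA]
        exact ⟨⟨hE, h1, h2⟩, Or.inl rfl, Or.inl rfl⟩
      refine h p q c hE h1 hc e1 e2 (fun k => ?_) fun k => ?_
      · refine ih _ ?_ p c e1 k (PAT1_a hc h2) rfl
        rw [← hn]
        refine Set.ncard_lt_ncard ⟨fun x hx => ?_, fun hs => ?_⟩ (hfin p q)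
        · rw [hA] at hx ⊢
          exact ⟨hx.1, hx.2.1.imp id (PAT1_c hc), Or.inr (hx.2.2.elim (· ▸ hc) (PAT1_c hc))⟩
        · have := hs hm
          rw [hA] at this
          exact this.2.2.elim (fun e => (cyc_ne hc).2.1 e.symm) (cyc_asymm hc)
      · refine ih _ ?_ c q e2 k (PAT1_b hc h2) rfl
        rw [← hn]
        refine Set.ncard_lt_ncard ⟨fun x hx => ?_, fun hs => ?_⟩ (hfin p q)
        · rw [hA] at hx ⊢
          exact ⟨hx.1, Or.inr (hx.2.1.elim (· ▸ hc) (PAT1_d hc)), hx.2.2.imp id (PAT1_d hc)⟩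
        · have := hs hm
          rw [hA] at this
          exact this.2.1.elim (cyc_ne hc).1 (cyc_asymm (cyc_rot hc))
  exact key _ p₀ q₀ hE₀ hc₀ hz rfl

theorem exists_nbr (w : V) : ∃ a, S.E w a := by
  obtain ⟨p, q, hE⟩ := S.tri.ne
  have key := S.desc w (fun _ _ => ∃ a, S.E w a) fun p q c _ h1 h2 e1 _ k1 k2 => by
    rcases PAT1_e h1 h2 with k | k | k
    exacts [⟨p, k ▸ S.tri.symm _ _ e1⟩, k1 k, k2 k]
  by_cases e1 : p = w
  · exact ⟨q, e1 ▸ hE⟩
  by_cases e2 : w = q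
  · exact ⟨p, e2 ▸ S.tri.symm _ _ hE⟩
  rcases cyc_total e1 e2 (S.E_ne hE) with k | k
  exacts [key p q hE k, key q p (S.tri.symm _ _ hE) (cyc_rot k)]

theorem conn (a b : V) : Relation.ReflTransGen S.E a b := by
  obtain ⟨q, hE⟩ := S.exists_nbr a
  have key := S.desc b (fun p _ => Relation.ReflTransGen S.E p b)
    fun p q c _ h1 h2 e1 _ k1 k2 => by
      rcases PAT1_e h1 h2 with k | k | k
      exacts [k ▸ .single e1, k1 k, .head e1 (k2 k)]
  by_cases e1 : a = b
  · exact e1 ▸ .refl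
  by_cases e2 : b = q
  · exact e2 ▸ .single hE
  rcases cyc_total e1 e2 (S.E_ne hE) with k | k
  exacts [key a q hE k, .head hE (key q a (S.tri.symm _ _ hE) (cyc_rot k))]

theorem tri_order {w a b a' b' : V} (h : S.Tri w a b) (h' : S.Tri w a' b') :
    (a = a' ∧ b = b') ∨ cle w b a' ∨ cle w b' a := by
  have key : ∀ {a b a' b' : V}, S.Tri w a b → S.Tri w a' b' → cyc w a a' → cle w b a' := by
    intro a b a' b' h h' k
    by_cases e : b = a'
    · exact Or.inl e
    rcases cyc_total (cyc_ne h.2.2.2).2.2 e (cyc_ne k).2.2 with l | l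
    · exact Or.inr l
    · exact (S.tri.nocross a b a' w h.2.2.1 (S.tri.symm _ _ h'.1) (cyc_mid k l)
        (cyc_rot (cyc_rot h.2.2.2))).elim
  by_cases e : a = a'
  · subst e
    exact Or.inl ⟨rfl, S.apex_unique (cyc_rot h.2.2.2) h.2.2.1 (S.tri.symm _ _ h.2.1)
      (cyc_rot h'.2.2.2) h'.2.2.1 (S.tri.symm _ _ h'.2.1)⟩
  rcases cyc_total (cyc_ne h.2.2.2).1 e (cyc_ne h'.2.2.2).1 with k | k
  exacts [Or.inr (Or.inl (key h h' k)), Or.inr (Or.inr (key h' h k))]

theorem fan_ind {w a : V} (Q : V → Prop) (ha : S.E w a) (h0 : Q a)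
    (h : ∀ b b', S.Tri w b b' → Q b → Q b') {a' : V} (ha' : S.E w a') (hle : cle w a a') :
    Q a' := by
  obtain ⟨A, hA⟩ : ∃ A : V → Set V, ∀ a', A a' = {x | S.E w x ∧ cyc w a x ∧ cyc w x a'} :=
    ⟨_, fun _ => rfl⟩
  have hfin : ∀ a', (A a').Finite := fun a' => by
    refine ((S.tri.fin a a').preimage (f := fun x => (w, x))
      fun x _ y _ e => (Prod.ext_iff.1 e).2).subset ?_
    rw [hA]
    exact fun x hx => ⟨hx.1, hx.2.1, cyc_rot hx.2.2⟩
  have key : ∀ n a', S.E w a' → cle w a a' → (A a').ncard = n → Q a' := by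
    intro n
    induction n using Nat.strong_induction_on with
    | _ n ih =>
      intro a' hE hl hn
      rcases hl with rfl | hl
      · exact h0
      obtain ⟨b, hb, e1, e2⟩ := S.tri.apex w a' hE
      refine h b a' ⟨e1, hE, e2, hb⟩ ?_
      by_cases e : a = b
      · exact e ▸ h0
      rcases cyc_total (cyc_ne hl).1 e (cyc_ne hb).1 with k | k
      · refine ih _ ?_ b e1 (Or.inr k) rfl
        rw [← hn]
        refine Set.ncard_lt_ncard ⟨fun x hx => ?_, fun hs => ?_⟩ (hfin a')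
        · rw [hA] at hx ⊢
          exact ⟨hx.1, hx.2.1, cyc_trans hx.2.2 hb⟩
        · have := hs (show b ∈ A a' by rw [hA]; exact ⟨e1, k, hb⟩)
          rw [hA] at this
          exact (cyc_ne this.2.2).2.1 rfl
      · exact (S.tri.nocross b a' a w e2 (S.tri.symm _ _ ha) (cyc_mid k hl)
          (cyc_rot (cyc_rot hb))).elim
  exact key _ a' ha' hle rfl

end TH

end Pool.Agent.Work.MP_3d425c_gt.Bor
end

-- merged part: Pool.Agent.Work.MP_3d425c_gt.PBDefs
section
/-! The geometric realisation of an ideal triangulation and its height function. -/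

namespace Pool.Agent.Work.MP_3d425c_gt.PA

variable {V : Type} [LinearOrder V]

/-- The union of the closed triangles of `E`, in barycentric coordinates. -/
def Disc (E : V → V → Prop) : Set (V → ℝ) :=
  {x | ∃ a b c, E a b ∧ E b c ∧ E c a ∧
    x ∈ convexHull ℝ {Pi.single a 1, Pi.single b 1, Pi.single c 1}}

/-- The affine extension of the heights of the vertices. -/
noncomputable def ht (y : V → ℝ) (x : V → ℝ) : ℝ := ∑ᶠ v, x v * y v

end Pool.Agent.Work.MP_3d425c_gt.PA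
end

-- merged part: Pool.Agent.Work.MP_3d425c_gt.ZC0
section
/-! Trees with heights and cut points on the rays: definitions. -/

namespace Pool.Agent.Work.MP_3d425c_gt.Bor
open Classical

/-- A group acting by homotheties on a tree with integral directions and heights. -/
structure MU (Γ V : Type) [Group Γ] [MulAction Γ V] where
  dir : V → V → ℤ
  y : V → ℝ
  c : Γ → V → ℤ
  e : Γ → ℤ
  deg : Γ → ℤ
  lam : ℝ
  t1 : T1 dir
  fin : FinB dir
  med : Med dir
  mono : MonoAll dir y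
  equiv : ∀ (g : Γ) u v, v ≠ u → dir (g • u) (g • v) = dir u v + c g u
  e_mul : ∀ g h, e (g * h) = e g + e h
  deg_mul : ∀ g h, deg (g * h) = deg g + deg h
  lam_gt : 1 < lam
  y_smul : ∀ g : Γ, ∃ t, ∀ v, y (g • v) = (-1) ^ e g * lam ^ deg g * y v + t
  surj : ∀ w i, ∃ v, v ≠ w ∧ dir w v = i
  free : ∀ (g : Γ) w, g • w = w → c g w = 0 → deg g = 0 → g = 1
  hyp : ∀ w, ∃ g : Γ, g • w = w ∧ c g w = 0 ∧ 0 < deg g
  cnt : Countable V
  ne : Nonempty V

namespace MU
variable {Γ V : Type} [Group Γ] [MulAction Γ V] (S : MU Γ V)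

theorem c_mul (g h : Γ) (u : V) : S.c (g * h) u = S.c g (h • u) + S.c h u := by
  obtain ⟨v, hv, -⟩ := S.surj u 0
  have h1 := S.equiv (g * h) u v hv
  have h2 : h • v ≠ h • u := fun e => hv (MulAction.injective h e)
  rw [mul_smul, mul_smul, S.equiv g _ _ h2, S.equiv h u v hv] at h1
  omega

theorem e_one : S.e 1 = 0 := by have := S.e_mul 1 1; rw [mul_one] at this; omega

theorem deg_one : S.deg 1 = 0 := by have := S.deg_mul 1 1; rw [mul_one] at this; omega

theorem c_one (u : V) : S.c 1 u = 0 := by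
  have := S.c_mul 1 1 u
  rw [mul_one, one_smul] at this
  omega

/-- Triples: a vertex, a direction and a level. -/
structure Tr (_S : MU Γ V) : Type where
  w : V
  i : ℤ
  l : ℤ

instance : MulAction Γ S.Tr where
  smul g x := ⟨g • x.w, x.i + S.c g x.w, x.l + S.deg g⟩
  one_smul x := by
    show (⟨_, _, _⟩ : S.Tr) = x
    rw [one_smul, S.c_one, S.deg_one, add_zero, add_zero]
  mul_smul g h x := by
    show (⟨_, _, _⟩ : S.Tr) = ⟨g • h • x.w, x.i + S.c h x.w + S.c g (h • x.w),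
      x.l + S.deg h + S.deg g⟩
    rw [mul_smul, S.c_mul, S.deg_mul]
    congr 1 <;> ring

theorem smul_tr (g : Γ) (x : S.Tr) : g • x = ⟨g • x.w, x.i + S.c g x.w, x.l + S.deg g⟩ := rfl

/-- The distance in height. -/
def ht (w m : V) : ℝ := |S.y m - S.y w|

/-- The vertices on the invariant ray from `w` in direction `i`. -/
def Ray (w : V) (i : ℤ) (a : V) : Prop :=
  a ≠ w ∧ S.dir w a = i ∧ Small S.dir w a ∧
    ∃ T : Γ, T • w = w ∧ S.c T w = 0 ∧ 0 < S.deg T ∧ Wb S.dir w a (T • a)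

/-- Generic scale factors. -/
def ThetaSpec (θ : S.Tr → ℝ) : Prop :=
  (∀ x, 1 < θ x ∧ θ x < S.lam) ∧ (∀ (g : Γ) x, θ (g • x) = θ x) ∧
  (∀ x v, S.y x.w + (-1) ^ x.i * (θ x * S.lam ^ x.l) ≠ S.y v) ∧
  ∀ x x', S.y x.w + (-1) ^ x.i * (θ x * S.lam ^ x.l) =
      S.y x'.w + (-1) ^ x'.i * (θ x' * S.lam ^ x'.l) →
    (∃ g : Γ, g • x = x') ∧ x.l = x'.l ∧ Even (x.i - x'.i) ∧ S.y x.w = S.y x'.w

/-- The scale factors. -/
noncomputable def theta : S.Tr → ℝ := Classical.epsilon S.ThetaSpec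

/-- The distance of the cut point from its vertex. -/
noncomputable def s (x : S.Tr) : ℝ := S.theta x * S.lam ^ x.l

/-- The height of the cut point. -/
noncomputable def eta (x : S.Tr) : ℝ := S.y x.w + (-1) ^ x.i * S.s x

/-- The vertices beyond the cut point. -/
def A (x : S.Tr) : Set V := {v | ∃ m, S.Ray x.w x.i m ∧ Wb S.dir x.w m v ∧ S.s x < S.ht x.w m}

/-- The cut point separates `u` from `v`. -/
def Opp (x : S.Tr) (u v : V) : Prop := u ∈ S.A x ↔ v ∉ S.A x

/-- `p` is an end of a straight segment through `x'`, on the far side from the height of `x`. -/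
def Far (x x' : S.Tr) (p : V) : Prop :=
  ∃ q, Small S.dir p q ∧ S.Opp x' p q ∧ (S.y p - S.eta x') * (S.eta x - S.eta x') ≤ 0

/-- The cut point `x'` lies beyond the cut point `x`. -/
def Ah (x x' : S.Tr) : Prop := ∃ p, S.Far x x' p ∧ p ∈ S.A x

/-- A vertex on the ray beyond the cut point. -/
noncomputable def zz (x : S.Tr) : V :=
  @Classical.epsilon V ⟨x.w⟩ fun z => S.Ray x.w x.i z ∧ S.s x < S.ht x.w z

/-- Directions between vertices and cut points. -/
noncomputable def dirP : V ⊕ S.Tr → V ⊕ S.Tr → ℤ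
  | .inl u, .inl v => S.dir u v
  | .inl u, .inr x => if u ∈ S.A x then S.dir u x.w else S.dir u (S.zz x)
  | .inr x, .inl v => if v ∈ S.A x then x.i else x.i + 1
  | .inr x, .inr x' => if S.Ah x x' then x.i else x.i + 1

end MU

end Pool.Agent.Work.MP_3d425c_gt.Bor
end

-- merged part: Pool.Agent.Work.MP_3d425c_gt.ZC1
section
/-! Invariant rays. -/

namespace Pool.Agent.Work.MP_3d425c_gt.Bor
open Classical

namespace MU
variable {Γ V : Type} [Group Γ] [MulAction Γ V] (S : MU Γ V)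

theorem wb_smul (g : Γ) (a m b : V) : Wb S.dir (g • a) (g • m) (g • b) ↔ Wb S.dir a m b := by
  by_cases h1 : a = m
  · exact iff_of_true (Or.inl (by rw [h1])) (Or.inl h1)
  by_cases h2 : b = m
  · exact iff_of_true (Or.inr (Or.inl (by rw [h2]))) (Or.inr (Or.inl h2))
  unfold Wb
  rw [S.equiv g m a h1, S.equiv g m b h2, smul_left_cancel_iff, smul_left_cancel_iff]
  simp

theorem small_smul (g : Γ) {a b : V} (h : Small S.dir a b) : Small S.dir (g • a) (g • b) := by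
  intro u h1 h2
  obtain ⟨u, rfl⟩ := MulAction.surjective g u
  have h3 : a ≠ u := fun e => h1 (by rw [e])
  have h4 : b ≠ u := fun e => h2 (by rw [e])
  rw [S.equiv g u a h3, S.equiv g u b h4, add_sub_add_right_eq_sub]
  exact h u h3 h4

theorem y_sub_smul (g : Γ) (a b : V) :
    S.y (g • a) - S.y (g • b) = (-1) ^ S.e g * S.lam ^ S.deg g * (S.y a - S.y b) := by
  obtain ⟨t, ht⟩ := S.y_smul g
  rw [ht, ht]
  ring

theorem PAC1_lam (k : ℤ) : 0 < S.lam ^ k := zpow_pos (zero_lt_one.trans S.lam_gt) k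

theorem ht_smul (g : Γ) (w a : V) : S.ht (g • w) (g • a) = S.lam ^ S.deg g * S.ht w a := by
  rw [ht, ht, y_sub_smul, abs_mul, abs_mul, abs_zpow, abs_neg, abs_one, one_zpow, one_mul,
    abs_of_pos (S.PAC1_lam _)]

theorem PAC1_small (w : V) (i : ℤ) : ∃ q, q ≠ w ∧ S.dir w q = i ∧ Small S.dir w q := by
  obtain ⟨v, hv, hi⟩ := S.surj w i
  obtain ⟨p, q, -, h2, h3, rfl, h5⟩ := exists_sub_pair S.t1 S.fin (· = w) (a := w) (b := v) rfl hv
  exact ⟨q, h5, (h2.dir_eq S.t1 (Ne.symm h5)).symm.trans hi, h3⟩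

theorem epar (g : Γ) (u : V) : Even (S.e g - S.c g u) := by
  obtain ⟨q, hq, -, hs⟩ := S.PAC1_small u 0
  obtain ⟨h1, h2⟩ := S.mono u q hq.symm hs
  obtain ⟨h3, -⟩ := S.mono (g • u) (g • q) (fun e => hq.symm (MulAction.injective g e))
    (S.small_smul g hs)
  have h5 := S.y_sub_smul g q u
  have h6 := S.PAC1_lam (S.deg g)
  rw [S.equiv g u q hq, Int.even_add, ← sub_pos, h5, h1] at h3
  rw [Int.even_sub]
  rcases Int.even_or_odd (S.e g) with he | he
  · rw [he.neg_one_zpow, one_mul, mul_pos_iff_of_pos_left h6, sub_pos] at h3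
    tauto
  · rw [he.neg_one_zpow, neg_one_mul, neg_mul, ← mul_neg, mul_pos_iff_of_pos_left h6, neg_sub,
      sub_pos] at h3
    have h7 : S.y q < S.y u ↔ ¬ S.y u < S.y q :=
      ⟨fun k => not_lt.2 k.le, fun k => lt_of_le_of_ne (not_lt.1 k) h2.symm⟩
    have h8 := Int.not_even_iff_odd.2 he
    tauto

theorem fix_zpow {g : Γ} {w : V} (h : g • w = w) (k : ℤ) :
    g ^ k • w = w ∧ S.c (g ^ k) w = k * S.c g w ∧ S.deg (g ^ k) = k * S.deg g := by
  have h1 : ∀ k : ℤ, S.c (g ^ (k + 1)) w = S.c (g ^ k) w + S.c g w := fun k => by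
    rw [zpow_add_one, S.c_mul, h]
  have h2 : ∀ k : ℤ, S.deg (g ^ (k + 1)) = S.deg (g ^ k) + S.deg g := fun k => by
    rw [zpow_add_one, S.deg_mul]
  refine ⟨(MulAction.stabilizer Γ w).zpow_mem h k, ?_⟩
  induction k using Int.induction_on with
  | zero => rw [zpow_zero, S.c_one, S.deg_one, zero_mul, zero_mul]; exact ⟨rfl, rfl⟩
  | succ k ih => rw [h1, h2, ih.1, ih.2]; constructor <;> ring
  | pred k ih =>
    have h3 := h1 (-k - 1)
    have h4 := h2 (-k - 1)
    rw [sub_add_cancel] at h3 h4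
    rw [ih.1] at h3
    rw [ih.2] at h4
    constructor <;> linarith

theorem seg_le {w z p q : V} (hs : Small S.dir w z) (hp : Wb S.dir w p z) (hq : Wb S.dir w q z)
    (h : S.ht w p ≤ S.ht w q) : Wb S.dir w p q := by
  rcases hp.total S.t1 hq with k | k
  · exact k
  by_cases e1 : q = p
  · exact Or.inr (Or.inl e1)
  have hs' := hs.left S.t1 hp
  obtain ⟨a1, a2, a3⟩ := mono_seg S.t1 S.mono hs' k (wb_right _ _) e1
  exfalso
  unfold ht at h
  by_cases e2 : w = q
  · rw [← e2, sub_self, abs_zero, abs_nonpos_iff, sub_eq_zero] at h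
    exact a3 h.symm
  obtain ⟨b1, b2, -⟩ := mono_seg S.t1 S.mono hs' (wb_left _ _) k e2
  rcases lt_or_gt_of_ne a3 with l | l
  · have l1 := a1.2 l
    have l2 := b1.2 l
    rw [abs_of_pos (sub_pos.2 l), abs_of_pos (sub_pos.2 l2)] at h
    linarith
  · have l1 : S.y p < S.y q := lt_of_le_of_ne (not_lt.1 fun k => l.not_gt (a1.1 k)) a2.symm
    have l2 : S.y q < S.y w := lt_of_le_of_ne (not_lt.1 fun k => l.not_gt (b1.1 k)) b2.symm
    rw [abs_of_neg (sub_neg.2 l), abs_of_neg (sub_neg.2 l2)] at h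
    linarith

theorem ray_y {w a : V} {i : ℤ} (h : S.Ray w i a) :
    S.y a - S.y w = (-1) ^ i * S.ht w a ∧ 0 < S.ht w a := by
  obtain ⟨h1, rfl, h3, -⟩ := h
  obtain ⟨h4, h5⟩ := S.mono w a h1.symm h3
  refine ⟨?_, abs_pos.2 (sub_ne_zero.2 h5.symm)⟩
  unfold ht
  rcases Int.even_or_odd (S.dir w a) with he | he
  · rw [he.neg_one_zpow, one_mul, abs_of_pos (sub_pos.2 (h4.1 he))]
  · have : S.y a ≤ S.y w := not_lt.1 fun k => Int.not_even_iff_odd.2 he (h4.2 k)
    rw [he.neg_one_zpow, abs_of_nonpos (sub_nonpos.2 this), neg_one_mul, neg_neg]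

theorem ray_smul (g : Γ) {w a : V} {i : ℤ} (h : S.Ray w i a) :
    S.Ray (g • w) (i + S.c g w) (g • a) := by
  obtain ⟨h1, rfl, h3, T, t1, t2, t3, t4⟩ := h
  have e : ∀ v : V, (g * T * g⁻¹) • g • v = g • T • v := fun v => by
    rw [mul_smul, inv_smul_smul, mul_smul]
  refine ⟨fun e => h1 (MulAction.injective g e), S.equiv g w a h1, S.small_smul g h3,
    g * T * g⁻¹, by rw [e, t1], ?_, ?_, by rw [e, S.wb_smul]; exact t4⟩
  · have := S.c_mul (g * T * g⁻¹) g w
    rw [inv_mul_cancel_right, S.c_mul, t1, t2] at this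
    omega
  · have := S.deg_mul (g * T * g⁻¹) g
    rw [inv_mul_cancel_right, S.deg_mul] at this
    omega

theorem PAC1_wb {T : Γ} {w m z : V} (t1 : T • w = w) (h : Wb S.dir w m z) :
    Wb S.dir w (T • m) (T • z) := by
  have := (S.wb_smul T w m z).2 h
  rwa [t1] at this

theorem PAC1_sm {T : Γ} {w z : V} (t1 : T • w = w) (h : Small S.dir w z) :
    Small S.dir w (T • z) := by
  have := S.small_smul T h
  rwa [t1] at this

theorem PAC1_ht {T : Γ} {w : V} (t1 : T • w = w) (m : V) :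
    S.ht w (T • m) = S.lam ^ S.deg T * S.ht w m := by
  have := S.ht_smul T w m
  rwa [t1] at this

theorem PAC1_step {T : Γ} {w m z : V} (t1 : T • w = w) (t3 : 0 < S.deg T) (hs : Small S.dir w z)
    (h1 : Wb S.dir w m z) (h2 : Wb S.dir w m (T • z)) : Wb S.dir w m (T • m) := by
  refine S.seg_le (S.PAC1_sm t1 hs) h2 (S.PAC1_wb t1 h1) ?_
  rw [S.PAC1_ht t1]
  exact le_mul_of_one_le_left (abs_nonneg _) (one_le_zpow₀ S.lam_gt.le t3.le)

theorem ray_sub {w z m : V} {i : ℤ} (h : S.Ray w i z) (hm : Wb S.dir w m z) (hw : m ≠ w) :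
    S.Ray w i m := by
  obtain ⟨-, h2, h3, T, t1, t2, t3, t4⟩ := h
  exact ⟨hw, (hm.dir_eq S.t1 hw.symm).symm.trans h2, h3.left S.t1 hm, T, t1, t2, t3,
    S.PAC1_step t1 t3 h3 hm (hm.trans_left S.t1 t4)⟩

theorem PAC1_med {w a b : V} (ha : a ≠ w) (hb : b ≠ w) (h : S.dir w a = S.dir w b) :
    ∃ m, m ≠ w ∧ Wb S.dir w m a ∧ Wb S.dir w m b := by
  obtain ⟨m, h1, h2, h3⟩ := S.med w a b
  refine ⟨m, fun e => ?_, h1, h3.symm⟩
  rw [e] at h2
  exact not_wb.2 ⟨ha, hb, h⟩ h2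

theorem PAC1_unb {T : Γ} {w m : V} (t1 : T • w = w) (t3 : 0 < S.deg T) (h : 0 < S.ht w m)
    (C : ℝ) : ∃ k : ℕ, C < S.ht w (T ^ k • m) := by
  obtain ⟨k, hk⟩ := pow_unbounded_of_one_lt (C / S.ht w m) S.lam_gt
  obtain ⟨f1, -, f3⟩ := S.fix_zpow t1 k
  rw [zpow_natCast] at f1 f3
  refine ⟨k, ?_⟩
  rw [S.PAC1_ht f1, f3, ← div_lt_iff₀ h]
  refine hk.trans_le ?_
  rw [← zpow_natCast]
  exact zpow_le_zpow_right₀ S.lam_gt.le (le_mul_of_one_le_right (Int.natCast_nonneg k) t3)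

theorem ray_far (w : V) (i : ℤ) (C : ℝ) : ∃ z, S.Ray w i z ∧ C < S.ht w z := by
  obtain ⟨q, h1, h2, h3⟩ := S.PAC1_small w i
  obtain ⟨T, t1, t2, t3⟩ := S.hyp w
  have h4 := S.equiv T w q h1
  rw [t1, t2, add_zero] at h4
  obtain ⟨m, m1, m2, m3⟩ := S.PAC1_med h1 (b := T • q)
    (fun e => h1 (MulAction.injective T (e.trans t1.symm))) h4.symm
  have hm : S.Ray w i m := ⟨m1, (m2.dir_eq S.t1 m1.symm).symm.trans h2, h3.left S.t1 m2, T, t1, t2,
    t3, S.PAC1_step t1 t3 h3 m2 m3⟩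
  obtain ⟨k, hk⟩ := S.PAC1_unb t1 t3 (S.ray_y hm).2 C
  obtain ⟨f1, f2, -⟩ := S.fix_zpow t1 k
  rw [zpow_natCast] at f1 f2
  have := S.ray_smul (T ^ k) hm
  rw [f1, f2, t2, mul_zero, add_zero] at this
  exact ⟨_, this, hk⟩

theorem PAC1_pow {T : Γ} {w a : V} (t1 : T • w = w) (h : Wb S.dir w a (T • a)) (k : ℕ) :
    Wb S.dir w a (T ^ k • a) := by
  induction k with
  | zero => rw [pow_zero, one_smul]; exact wb_right _ _
  | succ k ih => rw [pow_succ', mul_smul]; exact h.trans_left S.t1 (S.PAC1_wb t1 ih)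

theorem ray_wb {w a a' : V} {i : ℤ} (h : S.Ray w i a) (h' : S.Ray w i a')
    (hh : S.ht w a ≤ S.ht w a') : Wb S.dir w a a' := by
  obtain ⟨m, m1, m2, m3⟩ := S.PAC1_med h.1 h'.1 (h.2.1.trans h'.2.1.symm)
  have hm := (S.ray_y (S.ray_sub h m2 m1)).2
  obtain ⟨-, -, h3, T, t1, t2, t3, t4⟩ := h
  obtain ⟨-, -, h3', T', t1', t2', t3', t4'⟩ := h'
  obtain ⟨n, hn⟩ := Int.eq_ofNat_of_zero_le t3.le
  obtain ⟨n', hn'⟩ := Int.eq_ofNat_of_zero_le t3'.le
  obtain ⟨f1, f2, f3⟩ := S.fix_zpow t1 n'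
  obtain ⟨g1, g2, g3⟩ := S.fix_zpow t1' n
  rw [zpow_natCast] at f1 f2 f3 g1 g2 g3
  have hZ : T ^ n' = T' ^ n := by
    have e1 : ((T ^ n')⁻¹ * T' ^ n) • w = w := by rw [mul_smul, g1, inv_smul_eq_iff, f1]
    have e2 := S.c_mul (T ^ n') ((T ^ n')⁻¹ * T' ^ n) w
    have e3 := S.deg_mul (T ^ n') ((T ^ n')⁻¹ * T' ^ n)
    rw [mul_inv_cancel_left, e1, f2, g2, t2, t2'] at e2
    rw [mul_inv_cancel_left, f3, g3, hn, hn'] at e3
    exact inv_mul_eq_one.1 (S.free _ w e1 (by linarith) (by linarith))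
  obtain ⟨k, hk⟩ := S.PAC1_unb f1 (by rw [f3, ← hn']; exact mul_pos t3' t3) hm (S.ht w a)
  have z1 : (T ^ n') ^ k • w = w := (MulAction.stabilizer Γ w).pow_mem f1 k
  have a1 : Wb S.dir w a ((T ^ n') ^ k • a) := by
    rw [← pow_mul]
    exact S.PAC1_pow t1 t4 _
  have a2 : Wb S.dir w a' ((T ^ n') ^ k • a') := by
    rw [hZ, ← pow_mul]
    exact S.PAC1_pow t1' t4' _
  have a3 := S.seg_le (S.PAC1_sm z1 h3) a1 (S.PAC1_wb z1 m2) hk.le
  exact S.seg_le (S.PAC1_sm z1 h3') (a3.trans_left S.t1 (S.PAC1_wb z1 m3)) a2 hh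

end MU

end Pool.Agent.Work.MP_3d425c_gt.Bor
end

-- merged part: Pool.Agent.Work.MP_3d425c_gt.PBStmt
section
/-! Pseudo-Anosov mapping tori and their Dehn fillings.

Take a pseudo-Anosov map of a closed surface, puncture all singular points (and any further
periodic points), and triangulate by saddle connections.  `Disc E` is the universal cover of the
punctured fibre with its cone points `V` added, `ht y` is the vertical coordinate of the
developing map, `Γ` is the fundamental group of the mapping torus acting by lifts of powers of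
the monodromy, `deg` is the fibration class, `e` is an integral lift of the orientation character
of the horizontal foliation, `p` is the universal covering of the mapping torus, the `N i` are
the filling solid tori, and `γ w` is the filling slope in the peripheral subgroup fixing `w`.
The number `prongs E y w u (γ w • u)` is the intersection number of the filling slope with the
degeneracy locus. -/

namespace Pool.Agent.Work.MP_3d425c_gt.PA

variable {V Γ M ι : Type} [LinearOrder V] [Group Γ] [MulAction Γ V] [TopologicalSpace M]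

/-- The realisation without its vertices, times the flow direction. -/
abbrev Cyl (E : V → V → Prop) : Type := {x : Disc E // ∀ w, x.1 w < 1} × ℝ

/-- `g` moves the point `a` of `Cyl E` to `b`. -/
def Moves (E : V → V → Prop) [MulAction Γ (Disc E)] (deg : Γ → ℤ) (g : Γ) (a b : Cyl E) : Prop :=
  b.1.1 = g • a.1.1 ∧ b.2 = a.2 + deg g

/-- `Γ` acts on the flat disc `Disc E` with stretch factor `lam`, as the fundamental group of a
pseudo-Anosov mapping torus whose singular orbits are drilled. -/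
structure Affine (E : V → V → Prop) [MulAction Γ (Disc E)] (y : V → ℝ) (deg e : Γ → ℤ)
    (lam : ℝ) : Prop where
  tri : IdealTri E
  edge : ∀ a b, E a b → y a ≠ y b
  nosaddle : ∀ w a₀ b₀ a b c, Leaf E y w a₀ b₀ a b → cyc a c b → E a c → E c b → y c ≠ y w
  orient : ∀ (g : Γ) (a b c : V), cyc a b c → cyc (g • a) (g • b) (g • c)
  vert : ∀ (g : Γ) (w : V) (x : Disc E), x.1 w = 1 → (g • x).1 (g • w) = 1
  deg_mul : ∀ g h, deg (g * h) = deg g + deg h
  e_mul : ∀ g h, e (g * h) = e g + e h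
  one_lt : 1 < lam
  stretch : ∀ g : Γ, ∃ t : ℝ, ∀ x : Disc E,
    ht y (g • x).1 = (-1) ^ e g * lam ^ deg g * ht y x.1 + t
  simplicial : ∀ g : Γ, deg g = 0 → ∀ (x : Disc E) (v : V), (g • x).1 (g • v) = x.1 v
  free : ∀ g : Γ, deg g = 0 → ∀ x : Disc E, (∀ w, x.1 w < 1) → g • x = x → g = 1
  periodic : ∀ w : V, ∃ g : Γ, g • w = w ∧ deg g ≠ 0
  cusp : ∀ w : V, ∃ g : Γ, g ≠ 1 ∧ g • w = w ∧ deg g = 0

/-- `γ` is an equivariant choice of primitive peripheral elements (filling slopes). -/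
structure Slopes (γ : V → Γ) : Prop where
  fix : ∀ w : V, γ w • w = w
  conj : ∀ (g : Γ) (w : V), γ (g • w) = g * γ w * g⁻¹
  prim : ∀ (w : V) (s : Γ) (k l : ℤ), s • w = w → s ^ k = γ w ^ l → k ∣ l

/-- `M` is the union of the mapping torus `Cyl E / Γ` and of open solid tori `N i` glued along
the complements of their cores, whose meridians are the slopes `γ w`. -/
structure Filling (E : V → V → Prop) [MulAction Γ (Disc E)] (deg : Γ → ℤ) (γ : V → Γ)
    (p : Cyl E → M) (N : ι → ℂ × Circle → M) : Prop where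
  loc : IsLocalHomeomorph p
  fibre : ∀ a b, p a = p b ↔ ∃ g : Γ, Moves E deg g a b
  emb : ∀ i, Topology.IsOpenEmbedding (N i)
  disj : ∀ i j a b, N i a = N j b → i = j
  core : ∀ i z s, N i (z, s) ∈ Set.range p ↔ z ≠ 0
  cover : ∀ m, m ∈ Set.range p ∨ ∃ i, m ∈ Set.range (N i)
  meridian : ∀ g : Γ, g ∈ Set.range γ ↔ ∃ (i : ι) (l : C(ℝ, Cyl E)),
    (∀ t, p (l t) = N i (Circle.exp (2 * Real.pi * t), 1)) ∧ Moves E deg g (l 0) (l 1)

end Pool.Agent.Work.MP_3d425c_gt.PA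
end
end

-- merged part: Pool.Agent.Work.MP_3d425c_gt.ZC5
section
-- merged part: Pool.Agent.Work.MP_3d425c_gt.ZC2
section
/-! Generic scale factors. -/

namespace Pool.Agent.Work.MP_3d425c_gt.Bor
open Classical

namespace MU
variable {Γ V : Type} [Group Γ] [MulAction Γ V] (S : MU Γ V)

theorem theta_spec : S.ThetaSpec S.theta := by
  refine Classical.epsilon_spec (p := S.ThetaSpec) ?_
  have := S.cnt
  have hl : 0 < S.lam := one_pos.trans S.lam_gt
  have : Countable S.Tr := by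
    have hi : Function.Injective fun x : S.Tr => (x.w, x.i, x.l) := by
      rintro ⟨a, b, c⟩ ⟨a', b', c'⟩ h
      simp only [Prod.mk.injEq] at h
      obtain ⟨rfl, rfl, rfl⟩ := h
      rfl
    exact hi.countable
  obtain ⟨f, hf⟩ := exists_injective_nat (MulAction.orbitRel.Quotient Γ S.Tr)
  let N : S.Tr → ℕ := fun x => f (Quotient.mk _ x)
  have hN : ∀ x x', N x = N x' ↔ ∃ g : Γ, g • x = x' := fun x x' => by
    constructor
    · intro h
      exact Quotient.exact (hf h.symm)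
    · intro h
      exact (congrArg f (Quotient.sound h)).symm
  let C : Set ℝ := (Set.range fun p : V × V => S.y p.1 - S.y p.2) ∪
    Set.range fun p : ℤ × ℤ × ℚ => (-1) ^ p.1 * (p.2.2 * S.lam ^ p.2.1)
  obtain ⟨τ, hτ, hgen⟩ := PAC2_gen (C := C) ((Set.countable_range _).union (Set.countable_range _))
  have hq : ∀ n : ℕ, ∃ q : ℚ, 1 < q * τ ^ (n + 1) ∧ q * τ ^ (n + 1) < S.lam := fun n => by
    have hp : 0 < τ ^ (n + 1) := pow_pos hτ _
    obtain ⟨q, h1, h2⟩ := exists_rat_btwn (div_lt_div_of_pos_right S.lam_gt hp)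
    exact ⟨q, (div_lt_iff₀ hp).1 h1, (lt_div_iff₀ hp).1 h2⟩
  choose q hq1 hq2 using hq
  have hq0 : ∀ n, (q n : ℝ) ≠ 0 := fun n h => by
    have := hq1 n
    rw [h, zero_mul] at this
    exact absurd this (by norm_num)
  have hb : ∀ (i l : ℤ) n, (-1 : ℝ) ^ i * (q n * S.lam ^ l) ≠ 0 := fun i l n =>
    mul_ne_zero (zpow_ne_zero _ (by norm_num)) (mul_ne_zero (hq0 n) (zpow_ne_zero _ hl.ne'))
  refine ⟨fun x => q (N x) * τ ^ (N x + 1), fun x => ⟨hq1 _, hq2 _⟩, fun g x => ?_,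
    fun x v h => ?_, fun x x' h => ?_⟩
  · have e : N (g • x) = N x := ((hN _ _).2 ⟨g, rfl⟩).symm
    simp only [e]
  · have := (hgen (S.y x.w - S.y v) (Or.inl ⟨(x.w, v), rfl⟩)
      ((-1) ^ x.i * (q (N x) * S.lam ^ x.l)) (Or.inr ⟨(x.i, x.l, q (N x)), rfl⟩)
      0 (Or.inr ⟨(0, 0, 0), by simp⟩) (N x) (N x) (by rw [← h]; ring)).2
    rcases this with ⟨-, h'⟩ | ⟨h', -⟩ <;> exact hb _ _ _ h'
  · obtain ⟨h1, h2⟩ := hgen (S.y x.w - S.y x'.w) (Or.inl ⟨(x.w, x'.w), rfl⟩)
      ((-1) ^ x.i * (q (N x) * S.lam ^ x.l)) (Or.inr ⟨(x.i, x.l, q (N x)), rfl⟩)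
      ((-1) ^ x'.i * (q (N x') * S.lam ^ x'.l)) (Or.inr ⟨(x'.i, x'.l, q (N x')), rfl⟩)
      (N x) (N x') (by linear_combination h)
    rcases h2 with ⟨h2, h3⟩ | ⟨h2, -⟩
    · rw [← h2] at h3
      have h4 : S.lam ^ x.l = S.lam ^ x'.l := by
        have := congrArg abs h3
        simp only [abs_mul, abs_zpow, abs_neg, abs_one, one_zpow, one_mul, abs_of_pos hl] at this
        exact mul_left_cancel₀ (abs_ne_zero.2 (hq0 _)) this
      have h5 : x.l = x'.l := zpow_right_injective₀ hl S.lam_gt.ne' h4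
      rw [h4] at h3
      exact ⟨(hN _ _).1 h2, h5, PAC2_par (mul_right_cancel₀
        (mul_ne_zero (hq0 _) (zpow_ne_zero _ hl.ne')) h3), sub_eq_zero.1 h1⟩
    · exact absurd h2 (hb _ _ _)

theorem PAC2_lo (x : S.Tr) : S.lam ^ x.l < S.s x :=
  lt_mul_of_one_lt_left (zpow_pos (one_pos.trans S.lam_gt) _) (S.theta_spec.1 x).1

theorem PAC2_hi (x : S.Tr) : S.s x < S.lam ^ (x.l + 1) := by
  have hl : 0 < S.lam := one_pos.trans S.lam_gt
  rw [zpow_add_one₀ hl.ne', mul_comm]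
  exact mul_lt_mul_of_pos_right (S.theta_spec.1 x).2 (zpow_pos hl _)

theorem s_pos (x : S.Tr) : 0 < S.s x := by
  exact (zpow_pos (one_pos.trans S.lam_gt) _).trans (S.PAC2_lo x)

theorem s_lt (w : V) (i l : ℤ) : S.s ⟨w, i, l⟩ < S.s ⟨w, i, l + 1⟩ := by
  exact (S.PAC2_hi ⟨w, i, l⟩).trans (S.PAC2_lo ⟨w, i, l + 1⟩)

theorem s_small (w : V) (i : ℤ) {r : ℝ} (hr : 0 < r) : ∃ l, ∀ l' ≤ l, S.s ⟨w, i, l'⟩ < r := by
  obtain ⟨n, hn, -⟩ := exists_mem_Ioc_zpow hr S.lam_gt
  refine ⟨n - 1, fun l' hl' => (S.PAC2_hi ⟨w, i, l'⟩).trans (lt_of_le_of_lt ?_ hn)⟩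
  exact zpow_le_zpow_right₀ S.lam_gt.le (by change l' + 1 ≤ n; omega)

theorem s_big (w : V) (i : ℤ) (r : ℝ) : ∃ l, ∀ l', l ≤ l' → r < S.s ⟨w, i, l'⟩ := by
  obtain ⟨n, -, hn⟩ := exists_mem_Ioc_zpow (lt_max_of_lt_right one_pos : 0 < max r 1) S.lam_gt
  refine ⟨n + 1, fun l' hl' => lt_of_le_of_lt ?_ (S.PAC2_lo ⟨w, i, l'⟩)⟩
  exact ((le_max_left _ _).trans hn).trans (zpow_le_zpow_right₀ S.lam_gt.le hl')

theorem s_smul (g : Γ) (x : S.Tr) : S.s (g • x) = S.lam ^ S.deg g * S.s x := by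
  have hl : 0 < S.lam := one_pos.trans S.lam_gt
  rw [s, s, S.theta_spec.2.1, S.smul_tr, zpow_add₀ hl.ne']
  ring

theorem eta_smul (g : Γ) (x : S.Tr) (v : V) :
    S.y (g • v) - S.eta (g • x) = (-1) ^ S.e g * S.lam ^ S.deg g * (S.y v - S.eta x) := by
  have h1 := S.y_sub_smul g v x.w
  have h2 : (-1 : ℝ) ^ S.e g = (-1) ^ S.c g x.w := PAC2_par' (S.epar g x.w)
  have h3 : (-1 : ℝ) ^ (g • x).i = (-1) ^ x.i * (-1) ^ S.e g := by
    rw [S.smul_tr, zpow_add₀ (by norm_num), h2]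
  have h4 : (g • x).w = g • x.w := rfl
  rw [eta, eta, S.s_smul, h3, h4]
  linear_combination h1

theorem eta_ne (x : S.Tr) (v : V) : S.eta x ≠ S.y v := S.theta_spec.2.2.1 x v

theorem eta_eq {x x' : S.Tr} (h : S.eta x = S.eta x') :
    (∃ g : Γ, g • x = x') ∧ x.l = x'.l ∧ Even (x.i - x'.i) ∧ S.y x.w = S.y x'.w :=
  S.theta_spec.2.2.2 x x' h

end MU

end Pool.Agent.Work.MP_3d425c_gt.Bor
end

-- merged part: Pool.Agent.Work.MP_3d425c_gt.ZC3
section
/-! The two sides of a cut point. -/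

namespace Pool.Agent.Work.MP_3d425c_gt.Bor
open Classical

namespace MU
variable {Γ V : Type} [Group Γ] [MulAction Γ V] (S : MU Γ V)

theorem zz_spec (x : S.Tr) : S.Ray x.w x.i (S.zz x) ∧ S.s x < S.ht x.w (S.zz x) :=
  Classical.epsilon_spec (S.ray_far x.w x.i (S.s x))

theorem zz_mem (x : S.Tr) : S.zz x ∈ S.A x := ⟨_, (S.zz_spec x).1, wb_right _ _, (S.zz_spec x).2⟩

theorem w_not_mem (x : S.Tr) : x.w ∉ S.A x := fun ⟨_, h1, h2, _⟩ => h1.1 h2.self.symm

theorem Opp.symm {S : MU Γ V} {x : S.Tr} {u v : V} (h : S.Opp x u v) : S.Opp x v u := by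
  unfold Opp at *
  tauto

theorem Opp.ne {S : MU Γ V} {x : S.Tr} {u v : V} (h : S.Opp x u v) : u ≠ v := by
  rintro rfl
  unfold Opp at h
  tauto

theorem c3_dir_ray {x : S.Tr} {u v m : V} (hu : u ∉ S.A x) (h1 : S.Ray x.w x.i m)
    (h2 : Wb S.dir x.w m v) (h3 : S.s x < S.ht x.w m) : S.dir u v = S.dir u m := by
  obtain ⟨k1, k2, k3⟩ := not_wb.1 fun k : Wb S.dir x.w m u => hu ⟨m, h1, k, h3⟩
  by_cases e : v = m
  · rw [e]
  · exact S.t1 u m v k2 e (k3 ▸ (h2.btw k1 e).2.2)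

theorem opp_dir {x : S.Tr} {u v : V} (h : S.Opp x u v) :
    S.dir u v = S.dirP (.inl u) (.inr x) := by
  show _ = if u ∈ S.A x then S.dir u x.w else S.dir u (S.zz x)
  by_cases hu : u ∈ S.A x
  · rw [if_pos hu]
    by_contra hn
    obtain ⟨m, h1, h2, h3⟩ := id hu
    exact h.1 hu ⟨m, h1, h2.trans_left S.t1 (Or.inr (Or.inr (Ne.symm hn))), h3⟩
  · rw [if_neg hu]
    obtain ⟨m, h1, h2, h3⟩ : v ∈ S.A x := by
      by_contra hv
      exact hu (h.2 hv)
    obtain ⟨h4, h5⟩ := S.zz_spec x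
    rw [S.c3_dir_ray hu h1 h2 h3]
    rcases le_total (S.ht x.w m) (S.ht x.w (S.zz x)) with k | k
    · exact (S.c3_dir_ray hu h1 (S.ray_wb h1 h4 k) h3).symm
    · exact S.c3_dir_ray hu h4 (S.ray_wb h4 h1 k) h5

theorem convex {x : S.Tr} {u v m : V} (h : u ∈ S.A x ↔ v ∈ S.A x) (hm : Wb S.dir u m v) :
    m ∈ S.A x ↔ u ∈ S.A x := by
  by_contra hn
  have h1 : S.Opp x m u := by
    unfold Opp
    tauto
  have h2 : S.Opp x m v := by
    unfold Opp
    tauto
  exact (hm.btw h1.ne.symm h2.ne.symm).2.2 ((S.opp_dir h1).trans (S.opp_dir h2).symm)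

theorem c3_sign (i : ℤ) : ((-1 : ℝ)) ^ i = 1 ∨ ((-1 : ℝ)) ^ i = -1 := by
  rcases Int.even_or_odd i with h | h
  exacts [Or.inl h.neg_one_zpow, Or.inr h.neg_one_zpow]

theorem c3_ray_eta {x : S.Tr} {m : V} (h : S.Ray x.w x.i m) :
    (-1) ^ x.i * (S.y m - S.eta x) = S.ht x.w m - S.s x := by
  have h1 := (S.ray_y h).1
  unfold eta
  rcases c3_sign x.i with k | k <;> rw [k] at h1 ⊢ <;> linarith

theorem straight_sep {x : S.Tr} {p q : V} (hs : Small S.dir p q) (hp : p ∉ S.A x)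
    (hq : q ∈ S.A x) :
    (-1) ^ x.i * (S.y p - S.eta x) < 0 ∧ 0 < (-1) ^ x.i * (S.y q - S.eta x) := by
  obtain ⟨m, h1, h2, h3⟩ := hq
  obtain ⟨mu, k1, k2, k3⟩ := S.med x.w m p
  have a1 : (-1) ^ x.i * (S.y mu - S.eta x) < 0 := by
    by_cases e : mu = x.w
    · have := S.s_pos x
      rw [e]
      unfold eta
      rcases c3_sign x.i with k | k <;> rw [k] <;> linarith
    · have b1 := S.ray_sub h1 k1 e
      have b2 : ¬ S.s x < S.ht x.w mu := fun k => hp ⟨mu, b1, k3.symm, k⟩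
      have b3 := S.c3_ray_eta b1
      refine lt_of_le_of_ne (by rw [b3]; linarith [not_lt.1 b2]) ?_
      exact mul_ne_zero (zpow_ne_zero _ (by norm_num)) (sub_ne_zero.2 (S.eta_ne x mu).symm)
  have a2 : 0 < (-1) ^ x.i * (S.y m - S.eta x) := by
    rw [S.c3_ray_eta h1]
    linarith
  have a3 : mu ≠ m := by
    rintro rfl
    linarith
  have a4 : Wb S.dir p m q := by
    obtain ⟨b1, b2, b3⟩ := not_wb.1 fun k : Wb S.dir x.w m p => hp ⟨m, h1, k, h3⟩
    by_cases e : q = m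
    · exact Or.inr (Or.inl e)
    · exact Or.inr (Or.inr (b3 ▸ (h2.btw b1 e).2.2))
  have a5 := (mono_seg S.t1 S.mono hs k2.symm a4 a3).1
  have a6 : (S.y p < S.y q → S.y p ≤ S.y mu) ∧ (¬ S.y p < S.y q → S.y mu ≤ S.y p) := by
    by_cases e : p = mu
    · rw [e]
      exact ⟨fun _ => le_rfl, fun _ => le_rfl⟩
    · have := (mono_seg S.t1 S.mono hs (wb_left p mu) (k2.symm.trans_left S.t1 a4) e).1
      exact ⟨fun k => (this.2 k).le, fun k => not_lt.1 fun k' => k (this.1 k')⟩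
  have a7 : (S.y p < S.y q → S.y m ≤ S.y q) ∧ (¬ S.y p < S.y q → S.y q ≤ S.y m) := by
    by_cases e : m = q
    · rw [e]
      exact ⟨fun _ => le_rfl, fun _ => le_rfl⟩
    · have := (mono_seg S.t1 S.mono hs a4 (wb_right p q) e).1
      exact ⟨fun k => (this.2 k).le, fun k => not_lt.1 fun k' => k (this.1 k')⟩
  rcases c3_sign x.i with k | k <;> rw [k] at a1 a2 ⊢
  · have b := a5.1 (by linarith)
    constructor <;> linarith [a6.1 b, a7.1 b]
  · have b : ¬ S.y p < S.y q := fun k' => by linarith [a5.2 k']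
    constructor <;> linarith [a6.2 b, a7.2 b]

theorem c3_A_smul (g : Γ) (x : S.Tr) {v : V} (h : v ∈ S.A x) : g • v ∈ S.A (g • x) := by
  obtain ⟨m, h1, h2, h3⟩ := h
  refine ⟨g • m, S.ray_smul g h1, (S.wb_smul g _ _ _).2 h2, ?_⟩
  rw [S.s_smul]
  show _ < S.ht (g • x.w) (g • m)
  rw [S.ht_smul]
  exact mul_lt_mul_of_pos_left h3 (zpow_pos (by linarith [S.lam_gt]) _)

theorem A_smul (g : Γ) (x : S.Tr) (v : V) : g • v ∈ S.A (g • x) ↔ v ∈ S.A x := by
  refine ⟨fun h => ?_, S.c3_A_smul g x⟩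
  have := S.c3_A_smul g⁻¹ _ h
  rwa [inv_smul_smul, inv_smul_smul] at this

theorem c3_side {x : S.Tr} {p q v mu : V} (hs : Small S.dir p q) (hp : p ∉ S.A x)
    (hq : q ∈ S.A x) (k1 : Wb S.dir p mu q) (k2 : Wb S.dir q mu v) (k3 : Wb S.dir v mu p) :
    v ∈ S.A x ↔ 0 < (-1) ^ x.i * (S.y mu - S.eta x) := by
  by_cases hv : v ∈ S.A x
  · have h1 : mu ∈ S.A x := (S.convex (iff_of_true hq hv) k2).2 hq
    exact iff_of_true hv (S.straight_sep (hs.left S.t1 k1) hp h1).2
  · have h1 : mu ∉ S.A x := fun k => hv ((S.convex (iff_of_false hv hp) k3).1 k)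
    exact iff_of_false hv
      (not_lt.2 (S.straight_sep (hs.symm.left S.t1 k1.symm).symm h1 hq).1.le)

theorem c3_tie {x x' : S.Tr} (he : S.eta x = S.eta x') {p q : V} (hs : Small S.dir p q)
    (hp : p ∉ S.A x) (hq : q ∈ S.A x) (h' : S.Opp x' p q) : x = x' := by
  obtain ⟨⟨g, hg⟩, h1, h2, h3⟩ := S.eta_eq he
  have e1 : x'.w = g • x.w := by rw [← hg]; rfl
  have e2 : x'.i = x.i + S.c g x.w := by rw [← hg]; rfl
  have e3 : x'.l = x.l + S.deg g := by rw [← hg]; rfl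
  have hd : S.deg g = 0 := by omega
  have hc : Even (S.c g x.w) := by
    have : S.c g x.w = -(x.i - x'.i) := by omega
    rw [this]
    exact h2.neg
  have hE : Even (S.e g) := by
    have := (S.epar g x.w).add hc
    rwa [sub_add_cancel] at this
  have hy : ∀ v, S.y (g • v) = S.y v := fun v => by
    have := S.y_sub_smul g v x.w
    rw [hE.neg_one_zpow, hd, zpow_zero, ← e1] at this
    linarith
  have hsg : ((-1 : ℝ)) ^ x'.i = (-1) ^ x.i := by
    rw [e2, zpow_add₀ (by norm_num), hc.neg_one_zpow, mul_one]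
  have hp' : p ∉ S.A x' := fun k => by
    have b1 := (S.straight_sep hs.symm (h'.1 k) k).2
    have b2 := (S.straight_sep hs hp hq).1
    rw [hsg, ← he] at b1
    linarith
  have hq' : q ∈ S.A x' := by
    by_contra k
    exact hp' (h'.2 k)
  have hA : ∀ v, v ∈ S.A x ↔ v ∈ S.A x' := fun v => by
    obtain ⟨mu, k1, k2, k3⟩ := S.med p q v
    rw [S.c3_side hs hp hq k1 k2 k3, S.c3_side hs hp' hq' k1 k2 k3, hsg, he]
  have hz := S.zz_mem x
  have hz' : g • S.zz x ∈ S.A x := (hA _).2 (hg ▸ S.c3_A_smul g x hz)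
  obtain ⟨u, k1, k2, k3⟩ := S.med x.w x'.w (S.zz x)
  have hw' : x'.w ∉ S.A x := fun k => S.w_not_mem x' ((hA _).1 k)
  have hu : u ∉ S.A x := fun k =>
    S.w_not_mem x ((S.convex (iff_of_false (S.w_not_mem x) hw') k1).1 k)
  have o1 : S.Opp x u (S.zz x) := iff_of_false hu (not_not.2 hz)
  have o2 : S.Opp x u (g • S.zz x) := iff_of_false hu (not_not.2 hz')
  have hdir : S.dir u (S.zz x) = S.dir u (g • S.zz x) := (S.opp_dir o1).trans (S.opp_dir o2).symm
  have b1 : Wb S.dir x'.w u (g • S.zz x) := by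
    rcases k2 with k | k | k
    exacts [Or.inl k, absurd k o1.ne.symm, Or.inr (Or.inr (hdir ▸ k))]
  have b2 : Wb S.dir x'.w (g • u) (g • S.zz x) := e1 ▸ (S.wb_smul g _ _ _).2 k3.symm
  have b3 : Small S.dir x'.w (g • S.zz x) := e1 ▸ S.small_smul g (S.zz_spec x).1.2.2.1
  have b4 : g • u = u := by
    by_contra hn
    rcases b1.total S.t1 b2 with k | k
    · exact (mono_seg S.t1 S.mono b3 k b2 (Ne.symm hn)).2.1 (hy u).symm
    · exact (mono_seg S.t1 S.mono b3 k b1 hn).2.1 (hy u)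
  have b5 := S.equiv g u (S.zz x) o1.ne.symm
  rw [b4, ← hdir] at b5
  rw [← hg, S.free g u b4 (by omega) hd, one_smul]

theorem tie {x x' : S.Tr} (he : S.eta x = S.eta x') {p q : V} (hs : Small S.dir p q)
    (h : S.Opp x p q) (h' : S.Opp x' p q) : x = x' := by
  by_cases hp : p ∈ S.A x
  · exact S.c3_tie he hs.symm (h.1 hp) hp h'.symm
  · refine S.c3_tie he hs hp ?_ h'
    by_contra k
    exact hp (h.2 k)

end MU

end Pool.Agent.Work.MP_3d425c_gt.Bor
end

-- merged part: Pool.Agent.Work.MP_3d425c_gt.ZC4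
section
/-! The tree property after adding the cut points. -/

namespace Pool.Agent.Work.MP_3d425c_gt.Bor
open Classical

namespace MU
variable {Γ V : Type} [Group Γ] [MulAction Γ V] (S : MU Γ V)

theorem c4_sign (i : ℤ) : (-1 : ℝ) ^ i = 1 ∨ (-1 : ℝ) ^ i = -1 := by
  rcases Int.even_or_odd i with h | h
  exacts [Or.inl h.neg_one_zpow, Or.inr h.neg_one_zpow]

theorem c4_side {x : S.Tr} {p q : V} (hs : Small S.dir p q) (h : S.Opp x p q) :
    (p ∈ S.A x ∧ 0 < (-1) ^ x.i * (S.y p - S.eta x)) ∨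
      (p ∉ S.A x ∧ (-1) ^ x.i * (S.y p - S.eta x) < 0) := by
  by_cases hp : p ∈ S.A x
  · exact Or.inl ⟨hp, (S.straight_sep hs.symm (h.1 hp) hp).2⟩
  · exact Or.inr ⟨hp, (S.straight_sep hs hp (not_not.1 fun hq => hp (h.2 hq))).1⟩

theorem c4_same {x : S.Tr} {p q p' q' : V} (hs : Small S.dir p q) (h : S.Opp x p q)
    (hs' : Small S.dir p' q') (h' : S.Opp x p' q') (e : p ∈ S.A x ↔ p' ∈ S.A x) :
    0 < (S.y p - S.eta x) * (S.y p' - S.eta x) := by
  rcases S.c4_side hs h with ⟨a, b⟩ | ⟨a, b⟩ <;> rcases S.c4_side hs' h' with ⟨a', b'⟩ | ⟨a', b'⟩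
  · rcases c4_sign x.i with k | k <;> rw [k] at b b' <;> nlinarith
  · exact absurd (e.1 a) a'
  · exact absurd (e.2 a') a
  · rcases c4_sign x.i with k | k <;> rw [k] at b b' <;> nlinarith

theorem c4_diff {x : S.Tr} {p q p' q' : V} (hs : Small S.dir p q) (h : S.Opp x p q)
    (hs' : Small S.dir p' q') (h' : S.Opp x p' q') (e : S.Opp x p p') :
    (S.y p - S.eta x) * (S.y p' - S.eta x) < 0 := by
  rcases S.c4_side hs h with ⟨a, b⟩ | ⟨a, b⟩ <;> rcases S.c4_side hs' h' with ⟨a', b'⟩ | ⟨a', b'⟩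
  · exact absurd a' (e.1 a)
  · rcases c4_sign x.i with k | k <;> rw [k] at b b' <;> nlinarith
  · rcases c4_sign x.i with k | k <;> rw [k] at b b' <;> nlinarith
  · exact absurd (e.2 a') a

theorem c4_sep {x : S.Tr} {p q : V} (hs : Small S.dir p q) (h : S.Opp x p q) :
    (S.y p - S.eta x) * (S.y q - S.eta x) < 0 := S.c4_diff hs h hs.symm h.symm h

theorem c4_far_or (x : S.Tr) {x' : S.Tr} {p q : V} (hs : Small S.dir p q) (h : S.Opp x' p q) :
    S.Far x x' p ∨ S.Far x x' q := by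
  have h1 := S.c4_sep hs h
  by_cases h2 : (S.y p - S.eta x') * (S.eta x - S.eta x') ≤ 0
  · exact Or.inl ⟨q, hs, h, h2⟩
  · refine Or.inr ⟨p, hs.symm, h.symm, not_lt.1 fun h3 => ?_⟩
    have h4 := mul_pos (not_le.1 h2) h3
    nlinarith [sq_nonneg (S.eta x - S.eta x')]

theorem c4_opp_base (x : S.Tr) : S.Opp x x.w (S.zz x) :=
  ⟨fun h => absurd h (S.w_not_mem x), fun h => absurd (S.zz_mem x) h⟩

theorem c4_small_base (x : S.Tr) : Small S.dir x.w (S.zz x) := (S.zz_spec x).1.2.2.1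

theorem c4_num {a b D : ℝ} (h1 : 0 < a * b) (h2 : a * D ≤ 0) : ¬ (a - D) * (b - D) < 0 := by
  have h3 : b * D ≤ 0 := by
    by_contra h4
    have h5 := mul_pos h1 (not_le.1 h4)
    nlinarith [sq_nonneg b]
  nlinarith [sq_nonneg D]

theorem c4_core {x x' : S.Tr} {p q p' q' : V} (hs : Small S.dir p q) (h : S.Opp x' p q)
    (hs' : Small S.dir p' q') (h' : S.Opp x' p' q') (e : p ∈ S.A x' ↔ p' ∈ S.A x')
    (n : (S.y p - S.eta x') * (S.eta x - S.eta x') ≤ 0)
    (n' : (S.y p' - S.eta x') * (S.eta x - S.eta x') ≤ 0) : p ∈ S.A x ↔ p' ∈ S.A x := by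
  obtain ⟨m, m1, m2, m3⟩ := S.med p p' q
  have hm := S.convex e m1
  have o1 : S.Opp x' m q := hm.trans h
  have o2 : S.Opp x' m q' := (hm.trans e).trans h'
  have m4 : Wb S.dir p' m q' := by
    rcases m2 with k | k | k
    · exact Or.inl k
    · exact absurd k.symm o1.ne
    · exact Or.inr (Or.inr (by rwa [S.opp_dir o2, ← S.opp_dir o1]))
  have s1 : Small S.dir p m := hs.left S.t1 m3.symm
  have s2 : Small S.dir m q := (hs.symm.left S.t1 m3).symm
  have s3 : Small S.dir p' m := hs'.left S.t1 m4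
  have k1 := c4_num (S.c4_same hs h s2 o1 hm.symm) n
  have k2 := c4_num (S.c4_same hs' h' s2 o1 (hm.trans e).symm) n'
  rw [sub_sub_sub_cancel_right, sub_sub_sub_cancel_right] at k1 k2
  have j1 : ¬ S.Opp x p m := fun o => k1 (S.c4_sep s1 o)
  have j2 : ¬ S.Opp x p' m := fun o => k2 (S.c4_sep s3 o)
  unfold Opp at j1 j2
  (clear * - e hm j1 j2; tauto)

theorem c4_far_same {x x' : S.Tr} (hx : x ≠ x') {p p' : V} (hp : S.Far x x' p)
    (hp' : S.Far x x' p') : p ∈ S.A x ↔ p' ∈ S.A x := by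
  obtain ⟨q, hs, h, n⟩ := hp
  obtain ⟨q', hs', h', n'⟩ := hp'
  by_cases e : p ∈ S.A x' ↔ p' ∈ S.A x'
  · exact S.c4_core hs h hs' h' e n n'
  · have e1 : S.Opp x' p p' := by
      unfold Opp
      tauto
    have e2 := S.c4_diff hs h hs' h' e1
    have e3 : S.eta x = S.eta x' := by
      by_contra e4
      have h1 := mul_nonneg_of_nonpos_of_nonpos n n'
      have h2 := mul_pos_of_neg_of_neg e2 (neg_lt_zero.2 (sq_pos_of_ne_zero (sub_ne_zero.2 e4)))
      nlinarith
    have e4 : ¬ S.Opp x p' q' := fun o => hx (S.tie e3 hs' o h')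
    have e5 := S.c4_core (x := x) hs h hs'.symm h'.symm (by
      unfold Opp at h' e1
      tauto) n (by rw [e3, sub_self, mul_zero])
    unfold Opp at e4
    tauto

theorem exists_far (x x' : S.Tr) : S.Far x x' x'.w ∨ S.Far x x' (S.zz x') := by
  exact S.c4_far_or x (S.c4_small_base x') (S.c4_opp_base x')

theorem far_iff {x x' : S.Tr} (h : x ≠ x') {p : V} (hp : S.Far x x' p) :
    p ∈ S.A x ↔ S.Ah x x' := by
  exact ⟨fun h1 => ⟨p, hp, h1⟩, fun ⟨_, hp', h1⟩ => (S.c4_far_same h hp hp').2 h1⟩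

theorem c4_pair (x : S.Tr) {v f : V} (h : ¬ (f ∈ S.A x ↔ v ∈ S.A x)) :
    ∃ p q, Wb S.dir v p f ∧ Wb S.dir v q f ∧ Small S.dir p q ∧ S.Opp x p q ∧
      (p ∈ S.A x ↔ v ∈ S.A x) := by
  obtain ⟨p, q, h1, h2, h3, h4, h5⟩ :=
    exists_sub_pair S.t1 S.fin (fun u => u ∈ S.A x ↔ v ∈ S.A x) Iff.rfl h
  refine ⟨p, q, h1, h2, h3, ?_, h4⟩
  unfold Opp
  tauto

theorem cover {x x' : S.Tr} (h : x ≠ x') (v : V) :
    (v ∈ S.A x ↔ S.Ah x x') ∨ (v ∈ S.A x' ↔ S.Ah x' x) := by
  by_contra hn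
  obtain ⟨n1, n2⟩ := not_or.1 hn
  obtain ⟨f, hf⟩ : ∃ f, S.Far x x' f := (S.exists_far x x').elim (fun k => ⟨_, k⟩) fun k => ⟨_, k⟩
  obtain ⟨p, q, -, -, hs, ho, hp⟩ :=
    S.c4_pair x (v := v) (f := f) fun e => n1 (e.symm.trans (S.far_iff h hf))
  by_cases e : p ∈ S.A x' ↔ v ∈ S.A x'
  · rcases S.c4_far_or x' hs ho with k | k
    · exact n2 (e.symm.trans (S.far_iff h.symm k))
    · have k1 := S.far_iff h.symm k
      have ho' : S.Opp x' p q := by
        unfold Opp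
        (clear * - e hn hp k1 n1 n2; grind)
      have he : S.eta x ≠ S.eta x' := fun e1 => h (S.tie e1 hs ho ho')
      obtain ⟨-, -, -, k2⟩ := k
      have k3 := S.c4_sep hs ho'
      refine n1 (hp.symm.trans (S.far_iff h ⟨q, hs, ho', not_lt.1 fun k4 => ?_⟩))
      have k5 : 0 < (S.y q - S.eta x') * (S.eta x - S.eta x') := by
        nlinarith [sq_pos_of_ne_zero (sub_ne_zero.2 he)]
      have k6 := mul_pos k4 k5
      nlinarith [sq_nonneg (S.eta x - S.eta x')]
  · obtain ⟨p₁, q₁, w1, w2, hs₁, ho₁, -⟩ := S.c4_pair x' e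
    rcases S.c4_far_or x hs₁ ho₁ with k | k
    · exact n1 ((S.convex hp.symm w1).symm.trans (S.far_iff h k))
    · exact n1 ((S.convex hp.symm w2).symm.trans (S.far_iff h k))

theorem c4_Ah_smul (g : Γ) {x x' : S.Tr} (h : S.Ah x x') : S.Ah (g • x) (g • x') := by
  obtain ⟨p, ⟨q, hs, ho, n⟩, hp⟩ := h
  refine ⟨g • p, ⟨g • q, S.small_smul g hs, ?_, ?_⟩, (S.A_smul g x p).2 hp⟩
  · unfold Opp
    rw [S.A_smul, S.A_smul]
    exact ho
  · have e : S.eta (g • x) - S.eta (g • x') =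
        (S.y (g • p) - S.eta (g • x')) - (S.y (g • p) - S.eta (g • x)) := by ring
    rw [e, S.eta_smul, S.eta_smul]
    generalize (-1 : ℝ) ^ S.e g * S.lam ^ S.deg g = κ
    nlinarith [mul_nonneg (sq_nonneg κ) (neg_nonneg.2 n)]

theorem Ah_smul (g : Γ) (x x' : S.Tr) : S.Ah (g • x) (g • x') ↔ S.Ah x x' := by
  refine ⟨fun h => ?_, S.c4_Ah_smul g⟩
  have := S.c4_Ah_smul g⁻¹ h
  rwa [inv_smul_smul, inv_smul_smul] at this

theorem c4_exists (x : S.Tr) (P : Prop) : ∃ z, ¬ (z ∈ S.A x ↔ P) := by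
  by_cases h : P
  · exact ⟨x.w, fun e => S.w_not_mem x (e.2 h)⟩
  · exact ⟨S.zz x, fun e => h (e.1 (S.zz_mem x))⟩

theorem c4_both {x x' : S.Tr} (h : x ≠ x') {a : V} (n : ¬ (a ∈ S.A x ↔ S.Ah x x')) :
    S.dirP (.inl a) (.inr x') = S.dirP (.inl a) (.inr x) := by
  obtain ⟨z, hz⟩ := S.c4_exists x' (S.Ah x' x)
  have h1 := (S.cover h a).resolve_left n
  have h2 := (S.cover h z).resolve_right hz
  have o1 : S.Opp x a z := by
    unfold Opp
    (clear * - h1 h2 hz n; grind)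
  have o2 : S.Opp x' a z := by
    unfold Opp
    (clear * - h1 h2 hz n; grind)
  rw [← S.opp_dir o1, ← S.opp_dir o2]

theorem c4_not_far {x x' : S.Tr} (h : x ≠ x') {p q : V} (hs : Small S.dir p q)
    (ho : S.Opp x' p q) (n : ¬ (p ∈ S.A x ↔ S.Ah x x')) :
    0 < (S.y p - S.eta x') * (S.eta x - S.eta x') :=
  not_le.1 fun k => n (S.far_iff h ⟨q, hs, ho, k⟩)

theorem c4_num3 {p q a b c : ℝ} (h1 : 0 < (q - b) * (a - b)) (h2 : 0 < (p - c) * (a - c))
    (h3 : 0 < (q - c) * (b - c)) (h4 : (p - b) * (q - b) < 0) (h5 : (p - c) * (q - c) < 0) :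
    False := by
  rcases mul_pos_iff.1 h1 with ⟨a1, a2⟩ | ⟨a1, a2⟩ <;>
    rcases mul_pos_iff.1 h2 with ⟨b1, b2⟩ | ⟨b1, b2⟩ <;>
    rcases mul_pos_iff.1 h3 with ⟨c1, c2⟩ | ⟨c1, c2⟩ <;>
    rcases mul_neg_iff.1 h4 with ⟨d1, d2⟩ | ⟨d1, d2⟩ <;>
    rcases mul_neg_iff.1 h5 with ⟨e1, e2⟩ | ⟨e1, e2⟩ <;> linarith

theorem c4_three {k k' k'' : S.Tr} (h1 : k ≠ k') (h2 : k ≠ k'')
    (n : ¬ (S.Ah k k' ↔ S.Ah k k'')) : S.Ah k' k'' ↔ S.Ah k' k := by
  by_contra n'
  have h3 : k' ≠ k'' := fun e => n (e ▸ Iff.rfl)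
  have c : ∀ u, ((u ∈ S.A k ↔ S.Ah k k') ∧ (u ∈ S.A k'' ↔ S.Ah k'' k)) ∨
      (¬ (u ∈ S.A k ↔ S.Ah k k') ∧ (u ∈ S.A k' ↔ S.Ah k' k) ∧ (u ∈ S.A k'' ↔ S.Ah k'' k')) :=
    fun u => by
      have c1 := S.cover h1 u
      have c2 := S.cover h2 u
      have c3 := S.cover h3 u
      by_cases e : u ∈ S.A k ↔ S.Ah k k'
      · exact Or.inl ⟨e, c2.resolve_left fun e' => n (e.symm.trans e')⟩
      · have e1 := c1.resolve_left e
        exact Or.inr ⟨e, e1, c3.resolve_left fun e' => n' (e'.symm.trans e1)⟩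
  have r : ¬ (S.Ah k'' k ↔ S.Ah k'' k') := fun e => by
    obtain ⟨z, hz⟩ := S.c4_exists k'' (S.Ah k'' k)
    rcases c z with k | k
    · exact hz k.2
    · exact hz (k.2.2.trans e.symm)
  have key : ∀ p q, Small S.dir p q → (p ∈ S.A k ↔ S.Ah k k') → ¬ (q ∈ S.A k ↔ S.Ah k k') →
      False := fun p q hs hp hq => by
    have a1 := ((c p).resolve_right fun e => e.1 hp).2
    obtain ⟨-, a2, a3⟩ := (c q).resolve_left fun e => hq e.1
    have a4 := (S.cover h3 p).resolve_right fun e => r (a1.symm.trans e)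
    have o1 : S.Opp k' p q := by
      unfold Opp
      rw [a4, a2]
      (clear * - a1 a2 a3 a4 hp hq n n' r; grind)
    have o2 : S.Opp k'' p q := by
      unfold Opp
      rw [a1, a3]
      (clear * - a1 a2 a3 a4 hp hq n n' r; grind)
    exact c4_num3 (S.c4_not_far h1 hs.symm o1.symm hq)
      (S.c4_not_far h2 hs o2 fun e => n (hp.symm.trans e))
      (S.c4_not_far h3 hs.symm o2.symm fun e => n' (e.symm.trans a2)) (S.c4_sep hs o1)
      (S.c4_sep hs o2)
  by_cases e : S.Ah k k'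
  · exact key _ _ (S.c4_small_base k).symm (iff_of_true (S.zz_mem k) e)
      fun e' => S.w_not_mem k (e'.2 e)
  · exact key _ _ (S.c4_small_base k) (iff_of_false (S.w_not_mem k) e)
      fun e' => e (e'.1 (S.zz_mem k))

theorem t1P : T1 S.dirP := by
  rintro (a | a) (v | v) (b | b) h1 h2 h
  · exact S.t1 a v b (fun e => h1 (congrArg _ e)) (fun e => h2 (congrArg _ e)) h
  · by_cases o : S.Opp b a v
    · exact (S.opp_dir o).symm
    · obtain ⟨z, hz⟩ := S.c4_exists b (v ∈ S.A b)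
      have o1 : S.Opp b v z := by
        unfold Opp
        tauto
      have o2 : S.Opp b a z := by
        unfold Opp at o ⊢
        tauto
      rw [← S.opp_dir o1] at h
      rw [← S.opp_dir o2]
      exact S.t1 a v z (fun e => h1 (congrArg _ e)) o1.ne.symm h
  · refine S.opp_dir ?_
    have n : ¬ (a ∈ S.A v ↔ b ∈ S.A v) := fun e => h (if_congr e rfl rfl)
    unfold Opp
    tauto
  · exact S.c4_both (fun e => h2 (congrArg _ e.symm)) fun e => h (if_congr e rfl rfl)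
  · refine if_congr ?_ rfl rfl
    have n : ¬ S.Opp a v b := fun o => h (S.opp_dir o).symm
    unfold Opp at n
    tauto
  · refine if_congr ?_ rfl rfl
    by_contra n
    exact h (S.c4_both (fun e => h (by rw [e])) fun e => n e.symm).symm
  · exact if_congr ((S.cover (fun e => h1 (congrArg _ e)) b).resolve_right
      fun e => h (if_congr e.symm rfl rfl)) rfl rfl
  · exact if_congr (S.c4_three (fun e => h1 (congrArg _ e.symm)) (fun e => h2 (congrArg _ e.symm))
      fun e => h (if_congr e rfl rfl)) rfl rfl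

end MU

end Pool.Agent.Work.MP_3d425c_gt.Bor
end

-- merged part: Pool.Agent.Work.MP_3d425c_gt.ZC5
section
/-! Big turns, parity and exhaustion after adding the cut points. -/

namespace Pool.Agent.Work.MP_3d425c_gt.Bor
open Classical

namespace MU
variable {Γ V : Type} [Group Γ] [MulAction Γ V] (S : MU Γ V)

theorem PAC5_val (x : S.Tr) (a : V ⊕ S.Tr) :
    S.dirP (.inr x) a = x.i ∨ S.dirP (.inr x) a = x.i + 1 := by
  rcases a with v | x'
  · show (if _ then _ else _) = _ ∨ (if _ then _ else _) = _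
    split_ifs
    exacts [Or.inl rfl, Or.inr rfl]
  · show (if _ then _ else _) = _ ∨ (if _ then _ else _) = _
    split_ifs
    exacts [Or.inl rfl, Or.inr rfl]

theorem smallP (x : S.Tr) (a b : V ⊕ S.Tr) :
    |S.dirP (.inr x) b - S.dirP (.inr x) a| ≤ 1 := by
  rw [abs_le]
  rcases S.PAC5_val x a with h | h <;> rcases S.PAC5_val x b with k | k <;> omega

/-- The first anchor. -/
def PAC5_a1 : V ⊕ S.Tr → V
  | .inl v => v
  | .inr x => x.w

/-- The second anchor. -/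
noncomputable def PAC5_a2 : V ⊕ S.Tr → V
  | .inl v => v
  | .inr x => S.zz x

theorem PAC5_anchor (u : V) (p : V ⊕ S.Tr) (h : p ≠ .inl u) :
    ∃ p', (p' = S.PAC5_a1 p ∨ p' = S.PAC5_a2 p) ∧ p' ≠ u ∧ S.dirP (.inl u) p = S.dir u p' := by
  rcases p with v | x
  · exact ⟨v, Or.inl rfl, fun e => h (by rw [e]), rfl⟩
  · by_cases hu : u ∈ S.A x
    · exact ⟨x.w, Or.inl rfl, fun e => S.w_not_mem x (e ▸ hu), if_pos hu⟩
    · exact ⟨S.zz x, Or.inr rfl, fun e => hu (e ▸ S.zz_mem x), if_neg hu⟩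

theorem finP : FinB S.dirP := by
  intro a b
  have h := (((S.fin (S.PAC5_a1 a) (S.PAC5_a1 b)).union (S.fin (S.PAC5_a1 a) (S.PAC5_a2 b))).union
    ((S.fin (S.PAC5_a2 a) (S.PAC5_a1 b)).union (S.fin (S.PAC5_a2 a) (S.PAC5_a2 b)))).image
      (Sum.inl : V → V ⊕ S.Tr)
  refine h.subset ?_
  rintro (u | x) ⟨h1, h2, h3⟩
  · obtain ⟨a', ha, ha1, ha2⟩ := S.PAC5_anchor u a h1
    obtain ⟨b', hb, hb1, hb2⟩ := S.PAC5_anchor u b h2
    rw [ha2, hb2] at h3
    refine ⟨u, ?_, rfl⟩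
    rcases ha with rfl | rfl <;> rcases hb with rfl | rfl
    exacts [Or.inl (Or.inl ⟨ha1, hb1, h3⟩), Or.inl (Or.inr ⟨ha1, hb1, h3⟩),
      Or.inr (Or.inl ⟨ha1, hb1, h3⟩), Or.inr (Or.inr ⟨ha1, hb1, h3⟩)]
  · exact absurd (S.smallP x a b) h3

theorem PAC5_zz_small (x : S.Tr) : Small S.dir x.w (S.zz x) := (S.zz_spec x).1.2.2.1

theorem PAC5_pair (x : S.Tr) (P : Prop) :
    ∃ p q, Small S.dir p q ∧ S.Opp x p q ∧ (p ∈ S.A x ↔ P) := by
  have h1 := S.w_not_mem x
  have h2 := S.zz_mem x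
  by_cases hP : P
  · exact ⟨S.zz x, x.w, (S.PAC5_zz_small x).symm, iff_of_true h2 h1, iff_of_true h2 hP⟩
  · exact ⟨x.w, S.zz x, S.PAC5_zz_small x, iff_of_false h1 (not_not.2 h2), iff_of_false h1 hP⟩

theorem PAC5_even {x : S.Tr} {p q : V} (hs : Small S.dir p q) (h : S.Opp x p q) :
    Even (S.dirP (.inr x) (.inl q)) ↔ S.y p < S.y q := by
  by_cases hq : q ∈ S.A x
  · have hp : p ∉ S.A x := fun k => h.1 k hq
    obtain ⟨h1, h2⟩ := S.straight_sep hs hp hq
    have e : S.dirP (.inr x) (.inl q) = x.i := if_pos hq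
    rw [e]
    rcases Int.even_or_odd x.i with k | k
    · rw [k.neg_one_zpow] at h1 h2
      exact iff_of_true k (by linarith)
    · rw [k.neg_one_zpow] at h1 h2
      exact iff_of_false (Int.not_even_iff_odd.2 k) (by linarith)
  · have hp : p ∈ S.A x := h.2 hq
    obtain ⟨h1, h2⟩ := S.straight_sep hs.symm hq hp
    have e : S.dirP (.inr x) (.inl q) = x.i + 1 := if_neg hq
    rw [e]
    rcases Int.even_or_odd x.i with k | k
    · rw [k.neg_one_zpow] at h1 h2
      exact iff_of_false (Int.not_even_iff_odd.2 k.add_one) (by linarith)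
    · rw [k.neg_one_zpow] at h1 h2
      exact iff_of_true k.add_one (by linarith)

theorem PAC5_odd {m n : ℤ} {a b : ℝ} (h1 : Even m ↔ a < b) (h2 : Even n ↔ b < a) (h : a ≠ b) :
    Odd (m + n) := by
  rw [Int.odd_add', ← Int.not_even_iff_odd, h1, h2]
  exact ⟨fun k => lt_of_le_of_ne (not_lt.1 k) h, fun k => not_lt.2 k.le⟩

theorem PAC5_par1 (u : V) (x : S.Tr) (hs : Small S.dirP (.inl u) (.inr x)) :
    Odd (S.dirP (.inl u) (.inr x) + S.dirP (.inr x) (.inl u)) := by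
  obtain ⟨p, q, h1, h2, h3⟩ := S.PAC5_pair x (u ∈ S.A x)
  have o1 : S.Opp x u q := by unfold Opp at *; tauto
  have s1 : Small S.dir u q := by
    intro t t1 t2
    by_cases ht : t ∈ S.A x ↔ u ∈ S.A x
    · have o2 : S.Opp x t q := by unfold Opp at *; (clear * - h2 h3 ht o1; grind)
      rw [S.opp_dir o2]
      exact hs (.inl t) (fun e => t1 (Sum.inl.inj e)) (by simp)
    · have o2 : S.Opp x t u := by unfold Opp at *; (clear * - h2 h3 ht o1; grind)
      have o3 : S.Opp x t p := by unfold Opp at *; (clear * - h2 h3 ht o1 o2; grind)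
      rw [S.opp_dir o2, ← S.opp_dir o3]
      exact h1 t o3.ne.symm t2
  obtain ⟨m1, m2⟩ := S.mono u q o1.ne s1
  rw [← S.opp_dir o1]
  exact PAC5_odd m1 (S.PAC5_even s1.symm o1.symm) m2

theorem PAC5_l1 {a b P : Prop} (h1 : a ↔ P) (h2 : b ↔ ¬ P) : a ↔ ¬ b := by tauto

theorem PAC5_l2 {a b P : Prop} (h1 : ¬ (a ↔ P)) (h2 : b ↔ P) : a ↔ ¬ b := by tauto

theorem PAC5_l3 {a b c P : Prop} (h1 : ¬ (a ↔ P)) (h2 : b ↔ ¬ P) (h3 : b ↔ ¬ c) : a ↔ ¬ c := by
  tauto

theorem PAC5_l4 {a P : Prop} (h1 : a ↔ ¬ P) : ¬ (a ↔ P) := by tauto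

theorem PAC5_par2 {x x' : S.Tr} (hx : x ≠ x') (hs : Small S.dirP (.inr x) (.inr x')) :
    Odd (S.dirP (.inr x) (.inr x') + S.dirP (.inr x') (.inr x)) := by
  obtain ⟨p, q, h1, h2, h3⟩ := S.PAC5_pair x (¬ S.Ah x x')
  obtain ⟨p', q', k1, k2, k3⟩ := S.PAC5_pair x' (¬ S.Ah x' x)
  have c1 : p ∈ S.A x' ↔ S.Ah x' x := (S.cover hx p).resolve_left (PAC5_l4 h3)
  have c2 : p' ∈ S.A x ↔ S.Ah x x' := (S.cover hx p').resolve_right (PAC5_l4 k3)
  have o1 : S.Opp x p p' := PAC5_l2 (PAC5_l4 h3) c2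
  have o2 : S.Opp x' p' p := PAC5_l2 (PAC5_l4 k3) c1
  have s1 : Small S.dir p p' := by
    intro t t1 t2
    by_cases ht : t ∈ S.A x ↔ S.Ah x x'
    · by_cases ht' : t ∈ S.A x' ↔ S.Ah x' x
      · have o3 : S.Opp x t p := PAC5_l1 ht h3
        have o4 : S.Opp x' t p' := PAC5_l1 ht' k3
        rw [S.opp_dir o3, S.opp_dir o4]
        exact hs (.inl t) (by simp) (by simp)
      · have o3 : S.Opp x' t p := PAC5_l2 ht' c1
        have o4 : S.Opp x' t q' := PAC5_l3 ht' k3 k2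
        rw [S.opp_dir o3, ← S.opp_dir o4]
        exact k1.symm t o4.ne.symm t2
    · have o3 : S.Opp x t p' := PAC5_l2 ht c2
      have o4 : S.Opp x t q := PAC5_l3 ht h3 h2
      rw [S.opp_dir o3, ← S.opp_dir o4]
      exact h1 t t1 o4.ne.symm
  have e1 : S.dirP (.inr x) (.inr x') = S.dirP (.inr x) (.inl p') := if_congr c2.symm rfl rfl
  have e2 : S.dirP (.inr x') (.inr x) = S.dirP (.inr x') (.inl p) := if_congr c1.symm rfl rfl
  rw [e1, e2]
  exact PAC5_odd (S.PAC5_even s1 o1) (S.PAC5_even s1.symm o2) (S.mono p p' o1.ne s1).2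

theorem parP : Par S.dirP := by
  rintro (u | x) (v | x') h hs
  · refine S.mono.par u v (fun e => h (by rw [e])) fun t t1 t2 => ?_
    exact hs (.inl t) (fun e => t1 (Sum.inl.inj e)) (fun e => t2 (Sum.inl.inj e))
  · exact S.PAC5_par1 u x' hs
  · rw [add_comm]
    exact S.PAC5_par1 v x hs.symm
  · exact S.PAC5_par2 (fun e => h (by rw [e])) hs

theorem cut_smallP (x : S.Tr) : Small S.dirP (.inl x.w) (.inr x) := by
  rintro (t | x') h1 h2
  · by_cases ht : t ∈ S.A x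
    · have e : S.dirP (.inl t) (.inr x) = S.dirP (.inl t) (.inl x.w) := if_pos ht
      simp [e]
    · have e : S.dirP (.inl t) (.inr x) = S.dir t (S.zz x) := if_neg ht
      rw [e]
      exact S.PAC5_zz_small x t (fun k => h1 (by rw [k])) fun k => ht (k ▸ S.zz_mem x)
  · exact S.smallP x' _ _

theorem PAC5_w (x : S.Tr) : S.dirP (.inr x) (.inl x.w) = x.i + 1 := if_neg (S.w_not_mem x)

theorem PAC5_btw {x x' : S.Tr} (h : x' ≠ x) (k : S.Ah x x') :
    Btw S.dirP (.inl x.w) (.inr x) (.inr x') := by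
  refine ⟨by simp, fun e => h (Sum.inr.inj e), ?_⟩
  have e : S.dirP (.inr x) (.inr x') = x.i := if_pos k
  rw [e, S.PAC5_w]
  omega

theorem cut_btwP (w : V) (i l : ℤ) :
    Btw S.dirP (.inl w) (.inr ⟨w, i, l⟩) (.inr ⟨w, i, l + 1⟩) := by
  refine S.PAC5_btw (x := ⟨w, i, l⟩) (fun e => ?_) ?_
  · have := congrArg Tr.l e
    simp at this
  · obtain ⟨h1, h2⟩ := S.zz_spec ⟨w, i, l + 1⟩
    have h3 := S.s_lt w i l
    refine ⟨S.zz ⟨w, i, l + 1⟩, ⟨w, (S.PAC5_zz_small _).symm,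
      iff_of_true (S.zz_mem _) (S.w_not_mem ⟨w, i, l + 1⟩), ?_⟩, _, h1, wb_right _ _, h3.trans h2⟩
    have h4 := (S.ray_y h1).1
    unfold eta
    dsimp only at h2 h4 ⊢
    rcases Int.even_or_odd i with k | k
    · rw [k.neg_one_zpow] at h4 ⊢
      exact mul_nonpos_of_nonneg_of_nonpos (by linarith) (by linarith)
    · rw [k.neg_one_zpow] at h4 ⊢
      exact mul_nonpos_of_nonpos_of_nonneg (by linarith) (by linarith)

theorem PAC5_mem {w v : V} (h : v ≠ w) :
    ∃ l, ∀ l' ≤ l, v ∈ S.A ⟨w, S.dir w v, l'⟩ := by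
  obtain ⟨z, hz, -⟩ := S.ray_far w (S.dir w v) 0
  obtain ⟨m, m1, m2, m3⟩ := S.med w z v
  have hm : m ≠ w := by
    rintro rfl
    exact not_wb.2 ⟨hz.1, h, hz.2.1⟩ m2
  have r := S.ray_sub hz m1 hm
  obtain ⟨l, hl⟩ := S.s_small w (S.dir w v) (S.ray_y r).2
  exact ⟨l, fun l' k => ⟨m, r, m3.symm, hl l' k⟩⟩

theorem PAC5_sep {x : S.Tr} {p q : V} (hs : Small S.dir p q) (h : S.Opp x p q) :
    S.y p < S.eta x ∧ S.eta x < S.y q ∨ S.y q < S.eta x ∧ S.eta x < S.y p := by
  by_cases hq : q ∈ S.A x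
  · obtain ⟨h1, h2⟩ := S.straight_sep hs (fun k => h.1 k hq) hq
    rcases Int.even_or_odd x.i with k | k
    · rw [k.neg_one_zpow] at h1 h2
      exact Or.inl ⟨by linarith, by linarith⟩
    · rw [k.neg_one_zpow] at h1 h2
      exact Or.inr ⟨by linarith, by linarith⟩
  · obtain ⟨h1, h2⟩ := S.straight_sep hs.symm hq (h.2 hq)
    rcases Int.even_or_odd x.i with k | k
    · rw [k.neg_one_zpow] at h1 h2
      exact Or.inr ⟨by linarith, by linarith⟩
    · rw [k.neg_one_zpow] at h1 h2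
      exact Or.inl ⟨by linarith, by linarith⟩

theorem PAC5_far (x : S.Tr) {x' : S.Tr} {p q : V} (hs : Small S.dir p q) (h : S.Opp x' p q) :
    S.Far x x' p ∨ S.Far x x' q := by
  rcases le_total (S.eta x) (S.eta x') with k | k <;> rcases S.PAC5_sep hs h with s | s
  · exact Or.inr ⟨p, hs.symm, h.symm,
      mul_nonpos_of_nonneg_of_nonpos (by linarith [s.2]) (by linarith)⟩
  · exact Or.inl ⟨q, hs, h, mul_nonpos_of_nonneg_of_nonpos (by linarith [s.2]) (by linarith)⟩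
  · exact Or.inl ⟨q, hs, h, mul_nonpos_of_nonpos_of_nonneg (by linarith [s.1]) (by linarith)⟩
  · exact Or.inr ⟨p, hs.symm, h.symm,
      mul_nonpos_of_nonpos_of_nonneg (by linarith [s.1]) (by linarith)⟩

theorem lowP (w : V) (p : V ⊕ S.Tr) (h : p ≠ .inl w) :
    ∃ l, Btw S.dirP (.inl w) (.inr ⟨w, S.dirP (.inl w) p, l⟩) p := by
  rcases p with v | x'
  · obtain ⟨l, hl⟩ := S.PAC5_mem (w := w) (v := v) fun e => h (by rw [e])
    refine ⟨l, by simp, by simp, ?_⟩
    have e : S.dirP (.inr ⟨w, S.dir w v, l⟩) (.inl v) = S.dir w v := if_pos (hl l le_rfl)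
    have e' := S.PAC5_w ⟨w, S.dir w v, l⟩
    show S.dirP (.inr ⟨w, S.dir w v, l⟩) (.inl w) ≠ S.dirP (.inr ⟨w, S.dir w v, l⟩) (.inl v)
    dsimp only at e'
    omega
  obtain ⟨p, q, h1, h2, h3⟩ := S.PAC5_pair x' (w ∈ S.A x')
  have o1 : S.Opp x' w q := by unfold Opp at *; tauto
  rw [← S.opp_dir o1]
  obtain ⟨l, hl⟩ := S.PAC5_mem o1.ne.symm
  by_cases hw : Wb S.dir p w q
  · have s1 : Small S.dir w q := (h1.symm.left S.t1 hw.symm).symm
    obtain ⟨m1, m2⟩ := S.mono w q o1.ne s1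
    have sep := S.PAC5_sep s1 o1
    have hr : 0 < (-1) ^ S.dir w q * (S.eta x' - S.y w) := by
      rcases Int.even_or_odd (S.dir w q) with k | k
      · have := m1.1 k
        rw [k.neg_one_zpow]
        rcases sep with s | s <;> linarith [s.1, s.2]
      · have := mt m1.2 (Int.not_even_iff_odd.2 k)
        rw [k.neg_one_zpow]
        rcases sep with s | s <;> linarith [s.1, s.2]
    obtain ⟨l', hl'⟩ := S.s_small w (S.dir w q) hr
    have b1 := hl (min l l') (min_le_left _ _)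
    have b2 := hl' (min l l') (min_le_right _ _)
    refine ⟨min l l', S.PAC5_btw (x := ⟨w, S.dir w q, min l l'⟩) (fun e => ?_)
      ⟨q, ⟨w, s1.symm, o1.symm, ?_⟩, b1⟩⟩
    · rw [e] at b2
      unfold eta at b2
      dsimp only at b2
      rcases Int.even_or_odd (S.dir w q) with k | k
      · rw [k.neg_one_zpow] at b2
        linarith
      · rw [k.neg_one_zpow] at b2
        linarith
    · have e : S.eta ⟨w, S.dir w q, min l l'⟩ =
          S.y w + (-1) ^ S.dir w q * S.s ⟨w, S.dir w q, min l l'⟩ := rfl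
      rw [e]
      rcases Int.even_or_odd (S.dir w q) with k | k
      · rw [k.neg_one_zpow] at b2 hr ⊢
        rcases sep with s | s
        · exact mul_nonpos_of_nonneg_of_nonpos (by linarith [s.2]) (by linarith)
        · linarith [s.2]
      · rw [k.neg_one_zpow] at b2 hr ⊢
        rcases sep with s | s
        · linarith [s.1]
        · exact mul_nonpos_of_nonpos_of_nonneg (by linarith [s.1]) (by linarith)
  · obtain ⟨n1, -, n3⟩ := not_wb.1 hw
    obtain ⟨l', hl'⟩ := S.PAC5_mem n1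
    rw [n3] at hl'
    have b1 := hl (min l l') (min_le_left _ _)
    have b2 := hl' (min l l') (min_le_right _ _)
    refine ⟨min l l', S.PAC5_btw (x := ⟨w, S.dir w q, min l l'⟩) (fun e => ?_) ?_⟩
    · rw [← e] at b1 b2
      exact h2.1 b2 b1
    · rcases S.PAC5_far ⟨w, S.dir w q, min l l'⟩ h1 h2 with k | k
      exacts [⟨p, k, b2⟩, ⟨q, k, b1⟩]

theorem PAC5_not_mem (w : V) (i : ℤ) (v : V) : ∃ l, ∀ l', l ≤ l' → v ∉ S.A ⟨w, i, l'⟩ := by
  obtain ⟨C, hC⟩ := height_bound S.t1 S.fin S.mono w v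
  obtain ⟨l, hl⟩ := S.s_big w i C
  refine ⟨l, fun l' k ⟨m, _, m2, m3⟩ => ?_⟩
  have h1 := hC m m2
  have h2 := hl l' k
  unfold ht at m3
  dsimp only at m3
  linarith

theorem highP (w : V) (i : ℤ) (p : V ⊕ S.Tr) :
    ∃ l, ¬ Wb S.dirP (.inl w) (.inr ⟨w, i, l⟩) p := by
  rcases p with v | x'
  · obtain ⟨l, hl⟩ := S.PAC5_not_mem w i v
    exact ⟨l, not_wb.2 ⟨by simp, by simp,
      (S.PAC5_w ⟨w, i, l⟩).trans (if_neg (hl l le_rfl)).symm⟩⟩
  · obtain ⟨l, hl⟩ := S.PAC5_not_mem w i x'.w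
    obtain ⟨l', hl'⟩ := S.PAC5_not_mem w i (S.zz x')
    have b1 := hl (max l l') (le_max_left _ _)
    have b2 := hl' (max l l') (le_max_right _ _)
    have hx : (⟨w, i, max l l'⟩ : S.Tr) ≠ x' := fun e => b2 (e ▸ S.zz_mem _)
    have hA : ¬ S.Ah ⟨w, i, max l l'⟩ x' := fun k => by
      rcases S.exists_far ⟨w, i, max l l'⟩ x' with f | f
      exacts [b1 ((S.far_iff hx f).2 k), b2 ((S.far_iff hx f).2 k)]
    exact ⟨max l l', not_wb.2 ⟨by simp, fun e => hx (Sum.inr.inj e).symm,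
      (S.PAC5_w ⟨w, i, max l l'⟩).trans (if_neg hA).symm⟩⟩

end MU

end Pool.Agent.Work.MP_3d425c_gt.Bor
end
end
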