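import Pool.Agent.Work.MP_3d425c_gt.W.SC1
import Mathlib
import Pool.Agent.Work.MP_3d425c_gt.ZQ1
import Pool.Agent.Work.MP_5036cb_gt.Rep

-- merged part: Pool.Agent.Work.MP_3d425c_gt.Vr4
section
/-! Layered veering triangulations: the group action and the degeneracy slopes. -/

namespace Pool.Agent.Work.MP_3d425c_gt.Bor
open Classical PA Filter

theorem anti_far {f : ℤ → ℤ} (h : ∀ l, f (l + 1) < f l) (T : ℤ) :
    (∃ n : ℕ, f n < T) ∧ ∃ n : ℕ, T < f (-n) := by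
  have h1 : ∀ n : ℕ, f n ≤ f 0 - n ∧ f 0 + n ≤ f (-n) := fun n => by
    induction n with
    | zero => simp
    | succ n ih =>
      have a1 := h n
      have a2 := h (-(n + 1 : ℕ))
      rw [show -((n + 1 : ℕ) : ℤ) + 1 = -n by push_cast; ring] at a2
      push_cast at a2 ⊢
      omega
  constructor
  · obtain ⟨n, hn⟩ := Int.eq_ofNat_of_zero_le (abs_nonneg (f 0 - T))
    have := (h1 (n + 1)).1
    exact ⟨n + 1, by have := le_abs_self (f 0 - T); push_cast at *; omega⟩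
  · obtain ⟨n, hn⟩ := Int.eq_ofNat_of_zero_le (abs_nonneg (f 0 - T))
    have := (h1 (n + 1)).2
    exact ⟨n + 1, by have := neg_abs_le (f 0 - T); push_cast at *; omega⟩

/-- A group acting on a layered veering triangulation. -/
structure VG (Γ V : Type) [LinearOrder V] [Group Γ] [MulAction Γ V] extends VU V where
  e : Γ → ℤ
  cyc_smul : ∀ (g : Γ) (a b c : V), cyc a b c → cyc (g • a) (g • b) (g • c)
  face_smul : ∀ (g : Γ) a b c, toVC.Face a b c → toVC.Face (g • a) (g • b) (g • c)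
  red_smul : ∀ (g : Γ) a b, toVC.E a b → (red (g • a) (g • b) ↔ red a b)
  up_smul : ∀ (g : Γ) a b, toVC.E a b → (up (g • a) (g • b) ↔ (up a b ↔ Even (e g)))
  e_mul : ∀ g h, e (g * h) = e g + e h
  free : ∀ (g : Γ) a b, toVC.E a b → g • a = a → g • b = b → g = 1
  cocompact : ∃ F : Set (V × V), F.Finite ∧ ∀ a b, toVC.E a b → ∃ g : Γ, (g • a, g • b) ∈ F
  turn : ∀ w : V, ∃ (g : Γ) (u : V), g • w = w ∧ u ≠ w ∧ toVC.prongs w u (g • u) ≠ 0

namespace VG
open VC VU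
variable {Γ V : Type} [LinearOrder V] [Group Γ] [MulAction Γ V] (S : VG Γ V)

/-- The rotation cocycle. -/
noncomputable def c (g : Γ) (w : V) : ℤ := S.dir (g • w) (g • S.o w) - S.dir w (S.o w)

/-- The elements that fix `w` and its prongs. -/
def G (w : V) (g : Γ) : Prop := g • w = w ∧ S.c g w = 0

/-- `g` moves the neighbour `x` of `w` down. -/
def Dec (g : Γ) (w x : V) : Prop :=
  (S.red w x → cyc w x (g • x)) ∧ (¬ S.red w x → cyc w (g • x) x)

/-- The degeneracy slope. -/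
def IsD (w : V) (g : Γ) : Prop :=
  S.G w g ∧ (∀ x, S.E w x → S.Dec g w x) ∧ ∀ h, S.G w h → h ∈ Subgroup.zpowers g

variable {S}

theorem E_smul (g : Γ) {a b : V} (h : S.E a b) : S.E (g • a) (g • b) := by
  obtain ⟨k, h⟩ := h
  obtain ⟨x, h1, h2, h3⟩ := (S.layer k).apex a b h
  exact (S.face_smul g a x b ⟨k, h2, h, h3, h1⟩).e2

include S in
theorem cle_smul (g : Γ) {w a b : V} (h : cle w a b) : cle (g • w) (g • a) (g • b) :=
  h.imp (congrArg _) (S.cyc_smul g _ _ _)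

theorem Lf_smul (g : Γ) (w b : V) : S.Lf (g • w) (g • b) = (g • ·) '' S.Lf w b := by
  have key : ∀ (g : Γ) {w b u : V}, u ∈ S.Lf w b → g • u ∈ S.Lf (g • w) (g • b) := by
    rintro g w b u ⟨a, a1, a2, a3, a4⟩
    exact ⟨g • a, E_smul g a1, mt (S.red_smul g _ _ a1).1 a2, S.cyc_smul g _ _ _ a3,
      cle_smul (S := S) g a4⟩
  ext u
  refine ⟨fun h => ⟨g⁻¹ • u, ?_, smul_inv_smul g u⟩, ?_⟩
  · simpa using key g⁻¹ h
  · rintro ⟨u, h, rfl⟩
    exact key g h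

theorem prong_smul (g : Γ) (w : V) (X : Set V) :
    S.Prong (g • w) ((g • ·) '' X) ↔ S.Prong w X := by
  have key : ∀ (g : Γ) w X, S.Prong w X → S.Prong (g • w) ((g • ·) '' X) := by
    rintro g w _ ⟨b, b1, b2, rfl⟩
    exact ⟨g • b, E_smul g b1, (S.red_smul g _ _ b1).2 b2, (Lf_smul g w b).symm⟩
  refine ⟨fun k => ?_, key g w X⟩
  simpa [Set.image_image] using key g⁻¹ _ _ k

theorem N_smul (g : Γ) (w u v : V) : S.N (g • w) (g • u) (g • v) = S.N w u v := by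
  unfold N
  rw [← finsum_comp_equiv (Equiv.Set.congr (MulAction.toPerm g : V ≃ V))]
  refine finsum_congr fun X => ?_
  have e : Equiv.Set.congr (MulAction.toPerm g : V ≃ V) X = (g • ·) '' X := rfl
  have e' : ∀ x, g • x ∈ (g • ·) '' X ↔ x ∈ X := fun x => (MulAction.injective g).mem_set_image
  simp only [e, e', prong_smul]

theorem equiv (g : Γ) (u v : V) (hv : v ≠ u) :
    S.dir (g • u) (g • v) = S.dir u v + S.c g u := by
  have h0 := (S.o_spec u).ne.symm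
  have h1 := dir_sub (S := S.toVU) (PAT5_ne g h0) (PAT5_ne g hv)
  have h2 := dir_sub (S := S.toVU) h0 hv
  rw [N_smul] at h1
  unfold c
  omega

theorem epar (g : Γ) (u : V) : Even (S.e g - S.c g u) := by
  have h0 := S.o_spec u
  have h1 := nbr_par (S := S.toVU) (E_smul g h0)
  rw [equiv g u _ h0.ne.symm, Int.even_add, nbr_par h0, S.up_smul g _ _ h0] at h1
  rw [Int.even_sub]
  grind

theorem equiv_fix {g : Γ} {w v : V} (hg : g • w = w) (hv : v ≠ w) :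
    S.dir w (g • v) = S.dir w v + S.c g w := by
  have := equiv (S := S) g w v hv
  rwa [hg] at this

theorem c_mul (g g' : Γ) (u : V) : S.c (g * g') u = S.c g (g' • u) + S.c g' u := by
  have h0 := (S.o_spec u).ne.symm
  have h1 := equiv (S := S) (g * g') u _ h0
  rw [mul_smul, mul_smul, equiv g _ _ (PAT5_ne g' h0), equiv g' _ _ h0] at h1
  omega

theorem c_zpow {g : Γ} {w : V} (hg : g • w = w) (k : ℤ) :
    g ^ k • w = w ∧ S.c (g ^ k) w = k * S.c g w :=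
  ⟨(MulAction.stabilizer Γ w).zpow_mem hg k,
    PAT5_zpow (MulAction.stabilizer Γ w) (fun g => S.c g w) (fun g _ g' hg' => by
      rw [c_mul, MulAction.mem_stabilizer_iff.1 hg']) hg k⟩

theorem E_fix {g : Γ} {w x : V} (hg : g • w = w) (h : S.E w x) :
    S.E w (g • x) ∧ (S.red w (g • x) ↔ S.red w x) := by
  have h1 := E_smul g h
  have h2 := S.red_smul g _ _ h
  rw [hg] at h1 h2
  exact ⟨h1, h2⟩

include S in
theorem cyc_fix {g : Γ} {w x y : V} (hg : g • w = w) (h : cyc w x y) : cyc w (g • x) (g • y) := by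
  have := S.cyc_smul g _ _ _ h
  rwa [hg] at this

theorem surj (w : V) (i : ℤ) : ∃ v, S.E w v ∧ S.dir w v = i := by
  obtain ⟨g, hg, hc⟩ : ∃ g : Γ, g • w = w ∧ 0 < S.c g w := by
    obtain ⟨g, u, h1, h2, h3⟩ := S.turn w
    have h4 := abs_dir (S := S.toVU) h2 (PAT5_ne' h1 h2)
    rw [equiv_fix h1 h2, add_sub_cancel_left] at h4
    rcases lt_trichotomy 0 (S.c g w) with t | t | t
    · exact ⟨g, h1, t⟩
    · rw [← t, abs_zero] at h4
      exact absurd (Int.natCast_eq_zero.1 h4.symm) h3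
    · obtain ⟨a1, a2⟩ := c_zpow (S := S) h1 (-1)
      exact ⟨_, a1, by omega⟩
  have ho := S.o_spec w
  obtain ⟨a1, a2⟩ := c_zpow (S := S) hg (-|i - S.dir w (S.o w)|)
  have h1 : S.dir w (g ^ (-|i - S.dir w (S.o w)|) • S.o w) ≤ i := by
    rw [equiv_fix a1 ho.ne.symm, a2]
    nlinarith [abs_nonneg (i - S.dir w (S.o w)), neg_abs_le (i - S.dir w (S.o w))]
  refine Int.leInduction (motive := fun n _ => ∃ v, S.E w v ∧ S.dir w v = n)
    ⟨_, (E_fix a1 ho).1, rfl⟩ ?_ i h1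
  rintro n - ⟨v, hv, rfl⟩
  refine unit_step hv.ne.symm (E_fix hg hv).1 ?_
  rw [equiv_fix hg hv.ne.symm]
  omega

theorem G.zpow {w : V} {g : Γ} (h : S.G w g) (k : ℤ) : S.G w (g ^ k) :=
  ⟨(c_zpow (S := S) h.1 k).1, by rw [(c_zpow h.1 k).2, h.2, mul_zero]⟩

theorem G.inv {w : V} {g : Γ} (h : S.G w g) : S.G w g⁻¹ := by simpa using h.zpow (-1)

theorem G.mul {w : V} {g g' : Γ} (h : S.G w g) (h' : S.G w g') : S.G w (g * g') :=
  ⟨by rw [mul_smul, h'.1, h.1], by rw [c_mul, h'.1, h.2, h'.2, add_zero]⟩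

theorem G.dir {w x : V} {g : Γ} (h : S.G w g) (hx : x ≠ w) : S.dir w (g • x) = S.dir w x := by
  rw [equiv_fix h.1 hx, h.2, add_zero]

theorem revLf {w b b' : V} (hb : S.E w b) (hb' : S.E w b') (r : ¬ S.red w b) (r' : ¬ S.red w b')
    (h : S.dir w b = S.dir w b') : S.rev.Lf w b = S.rev.Lf w b' := by
  have key : ∀ {b b' : V}, S.E w b' → ¬ S.red w b' → S.dir w b = S.dir w b' →
      S.rev.Lf w b ⊆ S.rev.Lf w b' := by
    rintro b b' hb' r' h u ⟨x, x1, x2, x3, x4⟩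
    have x1 := rev_E.1 x1
    have x2 : S.red w x := not_not.1 x2
    refine ⟨x, rev_E.2 x1, not_not.2 x2, ?_, x4⟩
    rcases cyc_total x1.ne (fun e : x = b' => r' (e ▸ x2)) hb'.ne with t | t
    · exact t
    · have h1 := ((mem_Lf x1 x2).1 ⟨b', hb', r', t, Or.inl rfl⟩).2
      have h2 := dir_le (S := S.toVU) x3
      omega
  exact (key hb' r' h).antisymm (key hb r h.symm)

theorem dec_face {w a b : V} {g : Γ} (hg : S.G w g) (h1 : g ≠ 1) (f : S.Face w a b) :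
    S.Dec g w a ↔ S.Dec g w b := by
  have f' := S.face_smul g _ _ _ f
  rw [hg.1] at f'
  obtain ⟨a1, a2⟩ := E_fix hg.1 f.e1
  obtain ⟨b1, b2⟩ := E_fix hg.1 f.e2
  have a3 : g • a ≠ a := fun e => h1 (S.free g w a f.e1 hg.1 e)
  have b3 : g • b ≠ b := fun e => h1 (S.free g w b f.e2 hg.1 e)
  have c1 := f.cyc
  have c2 := f'.cyc
  have key : (S.red w a ↔ S.red w b) ∨ (cle w a (g • a) ∧ cle w (g • b) b) ∨
      (cle w (g • a) a ∧ cle w b (g • b)) := by
    obtain ⟨k, t⟩ := f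
    obtain ⟨k', t'⟩ := f'
    by_cases ra : S.red w a <;> by_cases rb : S.red w b
    · exact Or.inl (iff_of_true ra rb)
    · have e := revLf b1 ⟨k, t.2.1⟩ (mt b2.1 rb) rb (hg.dir (cyc_ne c1).2.2.symm)
      have p : S.rev.Hf (-k) w a b := ⟨show T3 (S.K (- -k)) w a b by rwa [neg_neg],
        not_not.2 ra, rb⟩
      have p' : S.rev.Hf (-k') w (g • a) (g • b) :=
        ⟨show T3 (S.K (- -k')) w _ _ by rwa [neg_neg], not_not.2 (a2.2 ra), mt b2.1 rb⟩
      rcases le_total (-k) (-k') with l | l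
      · exact Or.inr (Or.inl ((chain p p' l e).imp Nx_cle Nx_cle))
      · exact Or.inr (Or.inr ((chain p' p l e.symm).imp Nx_cle Nx_cle))
    · have e := Lf_eq (S := S.toVU) b1 (b2.2 rb) ⟨k, t.2.1⟩ rb (hg.dir (cyc_ne c1).2.2.symm)
      rcases le_total k k' with l | l
      · exact Or.inr (Or.inl ((chain ⟨t, ra, rb⟩ ⟨t', mt a2.1 ra, b2.2 rb⟩ l e).imp Nx_cle Nx_cle))
      · exact Or.inr (Or.inr
          ((chain ⟨t', mt a2.1 ra, b2.2 rb⟩ ⟨t, ra, rb⟩ l e.symm).imp Nx_cle Nx_cle))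
    · exact Or.inl (iff_of_false ra rb)
  by_cases r : S.red w a ↔ S.red w b
  · have d1 := consec f r a1
    have d2 := consec f r b1
    have d3 := consec f' (a2.trans (r.trans b2.symm)) f.e1
    have d4 := consec f' (a2.trans (r.trans b2.symm)) f.e2
    have e1 : cyc w a (g • a) ↔ cyc w b (g • b) := by
      clear key
      unfold cle cyc at *
      grind
    have e2 : cyc w (g • a) a ↔ cyc w (g • b) b := by
      clear key
      unfold cle cyc at *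
      grind
    rw [Dec, Dec, r, e1, e2]
  · have e : (cyc w a (g • a) ↔ cyc w (g • b) b) ∧ (cyc w (g • a) a ↔ cyc w b (g • b)) := by
      have := key.resolve_left r
      clear key r a2 b2
      unfold cle cyc at *
      grind
    rw [Dec, Dec, e.1, e.2]
    clear key e
    grind

theorem dec_total {w x : V} {g : Γ} (hg : S.G w g) (h1 : g ≠ 1) (hx : S.E w x) :
    S.Dec g w x ∨ S.Dec g⁻¹ w x := by
  have a3 : x ≠ g • x := fun e => h1 (S.free g w x hx hg.1 e.symm)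
  rcases cyc_total hx.ne a3 (E_fix hg.1 hx).1.ne with t | t
  · have t' := cyc_fix (S := S) hg.inv.1 t
    rw [inv_smul_smul] at t'
    by_cases r : S.red w x
    exacts [Or.inl ⟨fun _ => t, fun n => absurd r n⟩, Or.inr ⟨fun n => absurd n r, fun _ => t'⟩]
  · have t' := cyc_fix (S := S) hg.inv.1 t
    rw [inv_smul_smul] at t'
    by_cases r : S.red w x
    exacts [Or.inr ⟨fun _ => t', fun n => absurd r n⟩, Or.inl ⟨fun n => absurd n r, fun _ => t⟩]

theorem bt_lt {w x y : V} (hx : S.E w x) (hy : S.E w y) (r : S.red w x ↔ S.red w y)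
    (d : S.dir w x = S.dir w y) :
    S.bt w x < S.bt w y ↔ (S.red w x → cyc w y x) ∧ (¬ S.red w x → cyc w x y) := by
  by_cases rx : S.red w x
  · simp only [rx, true_imp_iff, not_true, false_imp_iff, and_true]
    exact ⟨fun h => (red_le hx hy rx (r.1 rx) d h.le).1.resolve_left fun e => h.ne (by rw [e]),
      fun h => not_le.1 fun k => (cyc_ne (cyc_cle h (red_le hy hx (r.1 rx) rx d.symm k).1)).2.1 rfl⟩
  · simp only [rx, false_imp_iff, not_false_iff, true_imp_iff, true_and]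
    exact ⟨fun h => (blue_le hx hy rx (mt r.2 rx) d h.le).1.resolve_left fun e => h.ne (by rw [e]),
      fun h => not_le.1 fun k =>
        (cyc_ne (cyc_cle h (blue_le hy hx (mt r.2 rx) rx d.symm k).1)).2.1 rfl⟩

theorem dec_bt {w x : V} {g : Γ} (hg : S.G w g) (hx : S.E w x) :
    S.Dec g w x ↔ S.bt w (g • x) < S.bt w x := by
  obtain ⟨a1, a2⟩ := E_fix hg.1 hx
  rw [bt_lt a1 hx a2 (hg.dir hx.ne.symm), a2, Dec]

theorem bt_smul {w x y : V} {g : Γ} (hg : S.G w g) (hx : S.E w x) (hy : S.E w y)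
    (r : S.red w x ↔ S.red w y) (d : S.dir w x = S.dir w y) (h : S.bt w x < S.bt w y) :
    S.bt w (g • x) < S.bt w (g • y) := by
  obtain ⟨a1, a2⟩ := E_fix hg.1 hx
  obtain ⟨b1, b2⟩ := E_fix hg.1 hy
  rw [bt_lt hx hy r d] at h
  rw [bt_lt a1 b1 (a2.trans (r.trans b2.symm)) (by rw [hg.dir hx.ne.symm, hg.dir hy.ne.symm, d]),
    a2]
  exact ⟨fun k => cyc_fix (S := S) hg.1 (h.1 k), fun k => cyc_fix (S := S) hg.1 (h.2 k)⟩

theorem exists_G (w : V) : ∃ g : Γ, g ≠ 1 ∧ S.G w g := by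
  obtain ⟨b, -, -, b1, -, b2⟩ := birth (S.o_spec w)
  have b1 : S.E w b := ⟨_, b1.2.1⟩
  have hinf : {x | S.E w x ∧ S.dir w x = S.dir w b}.Infinite := fun hf => by
    obtain ⟨j, hj⟩ := ((eventually_all_finite hf).2 fun x _ => mortal (S := S.toVC) w x).exists
    obtain ⟨a', b', h1, h2⟩ := exists_H b1 b2 j
    exact hj b' ⟨⟨j, h1.1.2.1⟩, eq_of_Lf ⟨j, h1.1.2.1⟩ h1.2.2 b1 b2 h2⟩ h1.1.2.1
  obtain ⟨F, hF, h⟩ := S.cocompact
  have h' : ∀ x, ∃ g : Γ, S.E w x → (g • w, g • x) ∈ F := fun x => by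
    by_cases e : S.E w x
    · exact (h w x e).imp fun _ k _ => k
    · exact ⟨1, fun k => absurd k e⟩
  choose k hk using h'
  obtain ⟨x, hx, y, hy, hne, e⟩ := hinf.exists_ne_map_eq_of_mapsTo
    (f := fun x => (k x • w, k x • x)) (fun x hx => hk x hx.1) hF
  obtain ⟨e1, e2⟩ := Prod.ext_iff.1 e
  simp only at e1 e2
  have f1 : ((k y)⁻¹ * k x) • w = w := by rw [mul_smul, e1, inv_smul_smul]
  have f2 : ((k y)⁻¹ * k x) • x = y := by rw [mul_smul, e2, inv_smul_smul]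
  refine ⟨_, fun n => hne (by rw [← f2, n, one_smul]), f1, ?_⟩
  have := equiv_fix (S := S) f1 hx.1.ne.symm
  rw [f2, hx.2, hy.2] at this
  omega

theorem dec_all {w x y : V} {g : Γ} (hg : S.G w g) (hx : S.E w x) (hy : S.E w y)
    (h : S.Dec g w x) : S.Dec g w y := by
  have h1 : g ≠ 1 := fun e => by
    rw [dec_bt hg hx, e, one_smul] at h
    exact h.ne rfl
  exact (nbr_ind (S.Dec g w) (fun _ _ f => dec_face hg h1 f) hx hy).1 h

theorem dec_anti {w x : V} {g : Γ} (hg : S.G w g) (h : ∀ x, S.E w x → S.Dec g w x) (hx : S.E w x)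
    (l : ℤ) : S.bt w (g ^ (l + 1) • x) < S.bt w (g ^ l • x) := by
  have h1 := (E_fix (hg.zpow l).1 hx).1
  rw [add_comm, zpow_one_add, mul_smul, ← dec_bt hg h1]
  exact h _ h1

theorem dec_sa {w x : V} {g : Γ} (hg : S.G w g) (h : ∀ x, S.E w x → S.Dec g w x) (hx : S.E w x) :
    StrictAnti fun l : ℤ => S.bt w (g ^ l • x) := strictAnti_int_of_succ_lt (dec_anti hg h hx)

theorem exists_D (w : V) : ∃ g, S.IsD w g := by
  have ha := S.o_spec w
  obtain ⟨T, ⟨δ, d1, d2, rfl⟩, hT⟩ := Int.exists_greatest_of_bdd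
    (P := fun t => ∃ g, S.G w g ∧ S.Dec g w (S.o w) ∧ S.bt w (g • S.o w) = t)
    ⟨S.bt w (S.o w), by
      rintro _ ⟨g, g1, g2, rfl⟩
      exact ((dec_bt g1 ha).1 g2).le⟩ (by
      obtain ⟨g, g1, g2⟩ := exists_G (S := S) w
      rcases dec_total g2 g1 ha with t | t
      exacts [⟨_, g, g2, t, rfl⟩, ⟨_, g⁻¹, g2.inv, t, rfl⟩])
  have d3 : ∀ x, S.E w x → S.Dec δ w x := fun x hx => dec_all d1 ha hx d2
  refine ⟨δ, d1, d3, fun g hg => ?_⟩
  have an := dec_anti d1 d3 ha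
  obtain ⟨⟨n, hn⟩, m, hm⟩ := anti_far (f := fun l => S.bt w (δ ^ l • S.o w)) an (S.bt w (g • S.o w))
  obtain ⟨l, l1, l2⟩ := Int.exists_greatest_of_bdd
    (P := fun l => S.bt w (g • S.o w) ≤ S.bt w (δ ^ l • S.o w)) ⟨n, fun l hl => not_lt.1 fun k =>
      absurd (hl.trans_lt ((dec_sa d1 d3 ha k).trans hn)) (lt_irrefl _)⟩ ⟨_, hm.le⟩
  have l3 : S.bt w (δ ^ (l + 1) • S.o w) < S.bt w (g • S.o w) :=
    not_le.1 fun k => by have := l2 _ k; omega
  have hh := (d1.zpow (-l)).mul hg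
  have E : ∀ {g}, S.G w g → S.E w (g • S.o w) ∧ (S.red w (g • S.o w) ↔ S.red w (S.o w)) ∧
      S.dir w (g • S.o w) = S.dir w (S.o w) := fun hg =>
    ⟨(E_fix hg.1 ha).1, (E_fix hg.1 ha).2, hg.dir ha.ne.symm⟩
  obtain ⟨a1, a2, a3⟩ := E hg
  obtain ⟨b1, b2, b3⟩ := E (d1.zpow (l + 1))
  obtain ⟨c1, c2, c3⟩ := E hh
  have k1 := bt_smul (d1.zpow (-l)) b1 a1 (b2.trans a2.symm) (b3.trans a3.symm) l3
  rw [← mul_smul, ← mul_smul, ← zpow_add, neg_add_cancel_left, zpow_one] at k1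
  by_contra hn
  have h1 : δ ^ (-l) * g ≠ 1 := fun e => hn ⟨l, by
    rw [zpow_neg, inv_mul_eq_one] at e
    exact e⟩
  rcases dec_total hh h1 ha with t | t
  · exact absurd (hT _ ⟨_, hh, t, rfl⟩) k1.not_ge
  · obtain ⟨e1, e2, e3⟩ := E hh.inv
    have k2 := bt_smul ((d1.zpow l).mul hh) e1 ha e2 e3 ((dec_bt hh.inv ha).1 t)
    rw [← mul_smul, mul_inv_cancel_right, ← mul_assoc, ← zpow_add, add_neg_cancel, zpow_zero,
      one_mul] at k2
    exact absurd l1 k2.not_ge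

theorem IsD.uniq {w : V} {g g' : Γ} (h : S.IsD w g) (h' : S.IsD w g') : g = g' := by
  have ha := S.o_spec w
  have key : ∀ {g g' : Γ} {m : ℤ}, S.IsD w g → S.IsD w g' → g ^ m = g' → 0 < m := by
    intro g g' m h h' e
    have h1 := (dec_bt h'.1 ha).1 (h'.2.1 _ ha)
    refine (dec_sa h.1 h.2.1 ha).lt_iff_gt.1 ?_
    simpa only [e, zpow_zero, one_smul] using h1
  obtain ⟨m, hm⟩ := h.2.2 g' h'.1
  obtain ⟨n, hn⟩ := h'.2.2 g h.1
  simp only at hm hn
  have h1 := key h h' hm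
  have h2 : m * n = 1 := (dec_sa h.1 h.2.1 ha).injective (by
    simp only [zpow_mul, hm, hn, zpow_one])
  rw [← hm, Int.eq_one_of_mul_eq_one_right h1.le h2, zpow_one]

theorem G.conj {w : V} {g : Γ} (h : S.G w g) (k : Γ) : S.G (k • w) (k * g * k⁻¹) := by
  refine ⟨by rw [mul_smul, inv_smul_smul, mul_smul, h.1], ?_⟩
  have := c_mul (S := S) (k * g * k⁻¹) k w
  rw [inv_mul_cancel_right, c_mul, h.1, h.2] at this
  omega

theorem IsD.conj {w : V} {g : Γ} (h : S.IsD w g) (k : Γ) : S.IsD (k • w) (k * g * k⁻¹) := by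
  refine ⟨h.1.conj k, fun x hx => ?_, fun g' hg' => ?_⟩
  · obtain ⟨x, rfl⟩ := MulAction.surjective k x
    have h1 := E_smul k⁻¹ hx
    rw [inv_smul_smul, inv_smul_smul] at h1
    obtain ⟨a1, a2⟩ := h.2.1 x h1
    rw [Dec, S.red_smul k _ _ h1, mul_smul, inv_smul_smul, mul_smul]
    exact ⟨fun r => S.cyc_smul k _ _ _ (a1 r), fun r => S.cyc_smul k _ _ _ (a2 r)⟩
  · have := hg'.conj k⁻¹
    rw [inv_smul_smul] at this
    obtain ⟨m, hm⟩ := h.2.2 _ this
    refine ⟨m, ?_⟩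
    simp only at hm ⊢
    rw [conj_zpow, hm]
    group

variable (S) in
/-- The degeneracy slope. -/
noncomputable def δ (w : V) : Γ := (exists_D (S := S) w).choose

theorem δ_spec (w : V) : S.IsD w (S.δ w) := (exists_D w).choose_spec

theorem δ_conj (g : Γ) (w : V) : S.δ (g • w) = g * S.δ w * g⁻¹ :=
  (δ_spec _).uniq ((δ_spec w).conj g)

theorem mem_δ (g : Γ) (w : V) : g ∈ Subgroup.zpowers (S.δ w) ↔ g • w = w ∧ S.c g w = 0 :=
  ⟨fun ⟨k, hk⟩ => hk ▸ (δ_spec w).1.zpow k, (δ_spec w).2.2 g⟩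

theorem δ_far {w x : V} (hx : S.E w x) (T : ℤ) : (∃ n : ℕ, S.bt w (S.δ w ^ n • x) < T) ∧
    ∃ n : ℕ, T < S.bt w ((S.δ w ^ n)⁻¹ • x) := by
  simpa only [zpow_natCast, zpow_neg] using
    anti_far (f := fun l => S.bt w (S.δ w ^ l • x)) (dec_anti (δ_spec w).1 (δ_spec w).2.1 hx) T

end VG

end Pool.Agent.Work.MP_3d425c_gt.Bor
end

-- merged part: Pool.Agent.Work.MP_3d425c_gt.ZDefs
section
/-! Trees of stable leaves and Dehn fillings.

Model: a veering triangulation of a cusped 3-manifold, equivalently a pseudo-Anosov flow without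
perfect fits on the complement of finitely many closed orbits that include the singular ones.
`Γ` is the fundamental group.  It acts on the flow space (loom space) of the universal cover `Y`.
A point `w` of `V` is a cusp together with the stable leaves that end at it; these leaves cut the
flow space into sectors numbered by `ℤ` in the order given by the orientation, and each sector
contains one unstable leaf (prong) ending at `w`.  A point `x` of `X` is a marked non-periodic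
stable leaf; it crosses a prong of the cusp `own x`, and its two sides carry consecutive numbers.
`dir u v` is the number of the sector or side of `u` that contains `v`; even numbers are on the
positive side of a co-orientation of the stable foliation.  `δ w` is the degeneracy slope of the
cusp, oriented so that it expands the prongs, `e` is an integral lift of the co-orientation
character, `γ w` is the filling slope, and `|dir w (γ w • v) - dir w v|` is its intersection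
number with the degeneracy locus. -/

namespace Pool.Agent.Work.MP_3d425c_gt.PT

/-- `u` separates `a` from `b`. -/
def Sep {P : Type} (dir : P → P → ℤ) (a u b : P) : Prop := a ≠ u ∧ b ≠ u ∧ dir u a ≠ dir u b

/-- Every third point sees `a` and `b` in equal or adjacent sectors. -/
def Straight {P : Type} (dir : P → P → ℤ) (a b : P) : Prop :=
  ∀ u, a ≠ u → b ≠ u → |dir u b - dir u a| ≤ 1

variable {V X Γ Y M ι : Type} [Group Γ] [MulAction Γ V] [MulAction Γ X] [MulAction Γ Y]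
  [TopologicalSpace Y] [TopologicalSpace M]

/-- `Γ` acts on the planar tree of cusps `V` and marked stable leaves `X`. -/
structure ProngTree (dir : V ⊕ X → V ⊕ X → ℤ) (own : X → V) (δ : V → Γ) (e : Γ → ℤ) : Prop where
  two : Nontrivial V
  tree : ∀ a u b, Sep dir a u b → dir a b = dir a u
  finite : ∀ a b, {u | a ≠ u ∧ b ≠ u ∧ 1 < |dir u b - dir u a|}.Finite
  parity : ∀ a b, a ≠ b → Straight dir a b → Odd (dir a b + dir b a)
  sides : ∀ x a b, a ≠ .inr x → b ≠ .inr x → |dir (.inr x) b - dir (.inr x) a| ≤ 1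
  e_mul : ∀ g h, e (g * h) = e g + e h
  shift : ∀ (g : Γ) u, ∃ k, Even (e g - k) ∧ ∀ v, v ≠ u → dir (g • u) (g • v) = dir u v + k
  own_smul : ∀ (g : Γ) x, own (g • x) = g • own x
  δ_conj : ∀ (g : Γ) w, δ (g • w) = g * δ w * g⁻¹
  δ_gen : ∀ (g : Γ) w, g ∈ Subgroup.zpowers (δ w) ↔
    g • w = w ∧ ∀ v, v ≠ .inl w → dir (.inl w) (g • v) = dir (.inl w) v
  onto : ∀ w i, ∃ x, own x = w ∧ dir (.inl w) (.inr x) = i
  straight : ∀ x, Straight dir (.inl (own x)) (.inr x)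
  push : ∀ x, Sep dir (.inl (own x)) (.inr x) (.inr (δ (own x) • x))
  low : ∀ x v, v ≠ .inl (own x) → dir (.inl (own x)) v = dir (.inl (own x)) (.inr x) →
    ∃ l : ℤ, Sep dir (.inl (own x)) (.inr (δ (own x) ^ l • x)) v
  high : ∀ x v, ∃ l : ℤ, ¬ Sep dir (.inl (own x)) (.inr (δ (own x) ^ l • x)) v

/-- `γ` is an equivariant choice of primitive peripheral elements (filling slopes). -/
structure Slopes (γ : V → Γ) : Prop where
  fix : ∀ w : V, γ w • w = w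
  conj : ∀ (g : Γ) (w : V), γ (g • w) = g * γ w * g⁻¹
  prim : ∀ (w : V) (s : Γ) (k l : ℤ), s • w = w → s ^ k = γ w ^ l → k ∣ l

/-- `M` is the union of `Y / Γ` and of open solid tori `N i` glued along the complements of their
cores, whose meridians are the slopes `γ w`. -/
structure Filling (γ : V → Γ) (p : Y → M) (N : ι → ℂ × Circle → M) : Prop where
  loc : IsLocalHomeomorph p
  fibre : ∀ a b, p a = p b ↔ ∃ g : Γ, b = g • a
  free : ∀ (g : Γ) (a : Y), g • a = a → g = 1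
  emb : ∀ i, Topology.IsOpenEmbedding (N i)
  disj : ∀ i j a b, N i a = N j b → i = j
  core : ∀ i z s, N i (z, s) ∈ Set.range p ↔ z ≠ 0
  cover : ∀ m, m ∈ Set.range p ∨ ∃ i, m ∈ Set.range (N i)
  meridian : ∀ g : Γ, g ∈ Set.range γ ↔ ∃ (i : ι) (l : C(ℝ, Y)),
    (∀ t, p (l t) = N i (Circle.exp (2 * Real.pi * t), 1)) ∧ l 1 = g • l 0

end Pool.Agent.Work.MP_3d425c_gt.PT
end

-- merged part: Pool.Agent.Work.MP_3d425c_gt.VrH1
section
/-! Trees with half-spaces on the rays: definitions and the order of coinciding marks. -/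

namespace Pool.Agent.Work.MP_3d425c_gt.Bor
open Classical

/-- Convex sets. -/
def Cvx {V : Type} (dir : V → V → ℤ) (A : Set V) : Prop :=
  ∀ u ∈ A, ∀ v ∈ A, ∀ m, Wb dir u m v → m ∈ A

theorem Cvx.nest {V : Type} {dir : V → V → ℤ} (t : T1 dir) (hm : Med dir) {A B : Set V}
    (a1 : Cvx dir A) (a2 : Cvx dir Aᶜ) (b1 : Cvx dir B) (b2 : Cvx dir Bᶜ) :
    A ⊆ B ∨ B ⊆ A ∨ A ⊆ Bᶜ ∨ Aᶜ ⊆ B := by
  by_contra hn
  simp only [not_or, Set.not_subset] at hn
  obtain ⟨⟨p, p1, p2⟩, ⟨q, q1, q2⟩, ⟨u, u1, u2⟩, v, v1, v2⟩ := hn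
  have u2 : u ∈ B := not_not.1 u2
  obtain ⟨m, m1, m2, m3⟩ := hm u p v
  obtain ⟨n, n1, n2, n3⟩ := hm u q v
  rcases m3.symm.total t n3.symm with k | k
  · exact b2 p p2 v v2 m m2 (b1 u u2 n (b1 u u2 q q1 n n1) m k)
  · exact a2 q q2 v v1 n n2 (a1 u u1 m (a1 u u1 p p1 m m1) n k)

/-- A group acting on a planar tree, with half-spaces chosen on the invariant rays. -/
structure HV (Γ V : Type) [Group Γ] [MulAction Γ V] where
  dir : V → V → ℤ
  c : Γ → V → ℤ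
  e : Γ → ℤ
  δ : V → Γ
  ord : V → V → V → Prop
  A₀ : V → ℤ → Set V
  z₀ : V → ℤ → V
  t1 : T1 dir
  fin : FinB dir
  med : Med dir
  par : Par dir
  equiv : ∀ (g : Γ) u v, v ≠ u → dir (g • u) (g • v) = dir u v + c g u
  e_mul : ∀ g h, e (g * h) = e g + e h
  epar : ∀ g u, Even (e g - c g u)
  two : Nontrivial V
  δ_conj : ∀ (g : Γ) w, δ (g • w) = g * δ w * g⁻¹
  mem_δ : ∀ (g : Γ) w, g ∈ Subgroup.zpowers (δ w) ↔ g • w = w ∧ c g w = 0
  cvx : ∀ w i, Cvx dir (A₀ w i)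
  cvx' : ∀ w i, Cvx dir (A₀ w i)ᶜ
  base : ∀ w i, w ∉ A₀ w i
  z_mem : ∀ w i, z₀ w i ∈ A₀ w i
  z_small : ∀ w i, Small dir w (z₀ w i)
  z_dir : ∀ w i, dir w (z₀ w i) = i
  z_push : ∀ w i, δ w • z₀ w i ∈ A₀ w i
  gap : ∀ w i m, ∃ p q, p ∉ A₀ w i ∧ q ∈ A₀ w i ∧ ¬ Wb dir p m q
  low : ∀ w v, v ≠ w → ∃ n : ℕ, δ w ^ n • v ∈ A₀ w (dir w v)
  high : ∀ w i v, ∃ n : ℕ, (δ w ^ n)⁻¹ • v ∉ A₀ w i
  ord_smul : ∀ (g : Γ) a b c, ord a b c → ord (g • a) (g • b) (g • c)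
  ord_trans : ∀ z a b c, ord z a b → ord z b c → ord z a c
  ord_irr : ∀ z a, ¬ ord z a a
  ord_tot : ∀ w i, ∀ a ∈ A₀ w i, ∀ b ∈ A₀ w i, a ≠ b →
    (∀ z ∉ A₀ w i, ord z a b) ∨ ∀ z ∉ A₀ w i, ord z b a
  faith : ∀ w i (g : Γ), (∀ v ∈ A₀ w i, g • v = v) → g = 1

namespace HV
variable {Γ V : Type} [Group Γ] [MulAction Γ V] (S : HV Γ V)

/-- Marks. -/
structure Mk (_S : HV Γ V) : Type where
  g : Γ
  w : V
  i : ℤ

instance : MulAction Γ S.Mk where
  smul h x := ⟨h * x.g, x.w, x.i⟩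
  one_smul x := by
    show (⟨_, _, _⟩ : S.Mk) = x
    rw [one_mul]
  mul_smul g h x := by
    show (⟨_, _, _⟩ : S.Mk) = ⟨g * (h * x.g), x.w, x.i⟩
    rw [mul_assoc]

/-- The far side of a mark. -/
def A (x : S.Mk) : Set V := {v | x.g⁻¹ • v ∈ S.A₀ x.w x.i}

/-- The cusp of a mark. -/
def own (x : S.Mk) : V := x.g • x.w

/-- The direction of a mark. -/
def idx (x : S.Mk) : ℤ := x.i + S.c x.g x.w

/-- A point on the far side. -/
def zz (x : S.Mk) : V := x.g • S.z₀ x.w x.i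

/-- The order of marks with the same far side. -/
def lt (x x' : S.Mk) : Prop :=
  WellOrderingRel (x.w, x.i) (x'.w, x'.i) ∨ ((x.w, x.i) = (x'.w, x'.i) ∧
    ∃ v ∈ S.A₀ x.w x.i, (∀ z ∉ S.A x, S.ord z (x.g • v) (x'.g • v)) ∧
      ∀ u ∈ S.A₀ x.w x.i, WellOrderingRel u v → x.g • u = x'.g • u)

/-- The mark `x'` lies beyond the mark `x`. -/
def Ah (x x' : S.Mk) : Prop :=
  S.A x' ⊂ S.A x ∨ (S.A x')ᶜ ⊂ S.A x ∨ (S.A x' = S.A x ∧ S.lt x x')

/-- The mark separates `u` from `v`. -/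
def Opp (x : S.Mk) (u v : V) : Prop := u ∈ S.A x ↔ v ∉ S.A x

/-- Directions between vertices and marks. -/
noncomputable def dirP : V ⊕ S.Mk → V ⊕ S.Mk → ℤ
  | .inl u, .inl v => S.dir u v
  | .inl u, .inr x => if u ∈ S.A x then S.dir u (S.own x) else S.dir u (S.zz x)
  | .inr x, .inl v => if v ∈ S.A x then S.idx x else S.idx x + 1
  | .inr x, .inr x' => if S.Ah x x' then S.idx x else S.idx x + 1

theorem c_mul (g h : Γ) (u : V) : S.c (g * h) u = S.c g (h • u) + S.c h u := by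
  have := S.two
  obtain ⟨v, hv⟩ := exists_ne u
  have h1 := S.equiv (g * h) u v hv
  have h2 : h • v ≠ h • u := fun e => hv (MulAction.injective h e)
  rw [mul_smul, mul_smul, S.equiv g _ _ h2, S.equiv h u v hv] at h1
  omega

theorem c_one (u : V) : S.c 1 u = 0 := by
  have := S.c_mul 1 1 u
  rw [mul_one, one_smul] at this
  omega

theorem wb_smul (g : Γ) (a m b : V) : Wb S.dir (g • a) (g • m) (g • b) ↔ Wb S.dir a m b := by
  by_cases h1 : a = m
  · exact iff_of_true (Or.inl (by rw [h1])) (Or.inl h1)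
  by_cases h2 : b = m
  · exact iff_of_true (Or.inr (Or.inl (by rw [h2]))) (Or.inr (Or.inl h2))
  unfold Wb
  rw [S.equiv g m a h1, S.equiv g m b h2, smul_left_cancel_iff, smul_left_cancel_iff]
  simp

theorem small_smul (g : Γ) {a b : V} (h : Small S.dir a b) : Small S.dir (g • a) (g • b) := by
  intro u h1 h2
  obtain ⟨u, rfl⟩ := MulAction.surjective g u
  have h3 : a ≠ u := fun e => h1 (by rw [e])
  have h4 : b ≠ u := fun e => h2 (by rw [e])
  rw [S.equiv g u a h3, S.equiv g u b h4, add_sub_add_right_eq_sub]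
  exact h u h3 h4

theorem A_smul (g : Γ) (x : S.Mk) (v : V) : g • v ∈ S.A (g • x) ↔ v ∈ S.A x := by
  show (g * x.g)⁻¹ • g • v ∈ S.A₀ x.w x.i ↔ x.g⁻¹ • v ∈ S.A₀ x.w x.i
  rw [mul_inv_rev, mul_smul, inv_smul_smul]

theorem mem_A (x : S.Mk) (v : V) : x.g • v ∈ S.A x ↔ v ∈ S.A₀ x.w x.i := by
  show x.g⁻¹ • x.g • v ∈ S.A₀ x.w x.i ↔ _
  rw [inv_smul_smul]

theorem own_smul (g : Γ) (x : S.Mk) : S.own (g • x) = g • S.own x := mul_smul g x.g x.w

theorem zz_smul (g : Γ) (x : S.Mk) : S.zz (g • x) = g • S.zz x := mul_smul g x.g _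

theorem idx_smul (g : Γ) (x : S.Mk) : S.idx (g • x) = S.idx x + S.c g (S.own x) := by
  show x.i + S.c (g * x.g) x.w = x.i + S.c x.g x.w + S.c g (x.g • x.w)
  rw [S.c_mul]
  ring

theorem zz_mem (x : S.Mk) : S.zz x ∈ S.A x := (S.mem_A x _).2 (S.z_mem _ _)

theorem w_not_mem (x : S.Mk) : S.own x ∉ S.A x := fun h => S.base _ _ ((S.mem_A x _).1 h)

theorem zz_small (x : S.Mk) : Small S.dir (S.own x) (S.zz x) := S.small_smul _ (S.z_small _ _)

theorem zz_dir (x : S.Mk) : S.dir (S.own x) (S.zz x) = S.idx x := by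
  have h : S.z₀ x.w x.i ≠ x.w := fun e => S.base _ _ (e ▸ S.z_mem x.w x.i)
  rw [own, zz, S.equiv _ _ _ h, S.z_dir, idx]

theorem cvxA (x : S.Mk) : Cvx S.dir (S.A x) := fun _ hu _ hv _ h =>
  S.cvx _ _ _ hu _ hv _ ((S.wb_smul _ _ _ _).2 h)

theorem cvxA' (x : S.Mk) : Cvx S.dir (S.A x)ᶜ := fun _ hu _ hv _ h =>
  S.cvx' _ _ _ hu _ hv _ ((S.wb_smul _ _ _ _).2 h)

theorem nest (x x' : S.Mk) : S.A x ⊆ S.A x' ∨ S.A x' ⊆ S.A x ∨ S.A x ⊆ (S.A x')ᶜ ∨
    (S.A x)ᶜ ⊆ S.A x' :=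
  Cvx.nest S.t1 S.med (S.cvxA x) (S.cvxA' x) (S.cvxA x') (S.cvxA' x')

theorem gapA (x : S.Mk) (m : V) : ∃ p q, p ∉ S.A x ∧ q ∈ S.A x ∧ ¬ Wb S.dir p m q := by
  obtain ⟨p, q, h1, h2, h3⟩ := S.gap x.w x.i (x.g⁻¹ • m)
  refine ⟨x.g • p, x.g • q, by rwa [S.mem_A], by rwa [S.mem_A], fun k => h3 ?_⟩
  rwa [← S.wb_smul x.g, smul_inv_smul]

theorem lt_irr (x : S.Mk) : ¬ S.lt x x := by
  rintro (h | ⟨-, v, -, h, -⟩)
  exacts [irrefl _ h, S.ord_irr _ _ (h _ (S.w_not_mem x))]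

theorem lt_trans {x y z : S.Mk} (e : S.A y = S.A x) (h : S.lt x y) (h' : S.lt y z) :
    S.lt x z := by
  rcases h with h | ⟨h0, v, v1, v2, v3⟩
  · rcases h' with h' | ⟨h', -⟩
    exacts [Or.inl (_root_.trans h h'), Or.inl (h' ▸ h)]
  rcases h' with h' | ⟨h0', u, u1, u2, u3⟩
  · exact Or.inl (h0 ▸ h')
  obtain ⟨e1, e2⟩ := Prod.ext_iff.1 h0
  simp only at e1 e2
  rw [← e1, ← e2] at u1 u3
  rw [e] at u2
  refine Or.inr ⟨h0.trans h0', ?_⟩
  rcases trichotomous_of WellOrderingRel u v with k | rfl | k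
  · exact ⟨u, u1, by rw [v3 u u1 k]; exact u2, fun t t1 t2 =>
      (v3 t t1 (_root_.trans t2 k)).trans (u3 t t1 t2)⟩
  · exact ⟨u, u1, fun t ht => S.ord_trans _ _ _ _ (v2 t ht) (u2 t ht), fun t t1 t2 =>
      (v3 t t1 t2).trans (u3 t t1 t2)⟩
  · exact ⟨v, v1, by rw [← u3 v v1 k]; exact v2, fun t t1 t2 =>
      (v3 t t1 t2).trans (u3 t t1 (_root_.trans t2 k))⟩

theorem lt_total {x y : S.Mk} (e : S.A y = S.A x) (h : x ≠ y) : S.lt x y ∨ S.lt y x := by
  rcases trichotomous_of WellOrderingRel (x.w, x.i) (y.w, y.i) with k | k | k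
  · exact Or.inl (Or.inl k)
  swap
  · exact Or.inr (Or.inl k)
  obtain ⟨g, w, i⟩ := x
  obtain ⟨g', w', i'⟩ := y
  obtain ⟨rfl, rfl⟩ : w = w' ∧ i = i' := Prod.ext_iff.1 k
  have hne : {v | v ∈ S.A₀ w i ∧ g • v ≠ g' • v}.Nonempty := by
    by_contra hn
    refine h ?_
    have := S.faith w i (g⁻¹ * g') fun v hv => by
      by_contra k
      refine hn ⟨v, hv, fun k' => k ?_⟩
      rw [mul_smul, ← k', inv_smul_smul]
    rw [inv_mul_eq_one.1 this]
  obtain ⟨v, ⟨v1, v2⟩, v3⟩ :=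
    (IsWellFounded.wf (r := (WellOrderingRel : V → V → Prop))).has_min _ hne
  have v4 : ∀ u ∈ S.A₀ w i, WellOrderingRel u v → g • u = g' • u := fun u u1 u2 =>
    not_not.1 fun k => v3 u ⟨u1, k⟩ u2
  have v5 : g' • v ∈ S.A ⟨g, w, i⟩ := e ▸ (S.mem_A ⟨g', w, i⟩ v).2 v1
  rcases S.ord_tot w i v v1 _ v5 (fun k => v2 (smul_eq_iff_eq_inv_smul g |>.2 k)) with k | k
  · refine Or.inl (Or.inr ⟨rfl, v, v1, fun z hz => ?_, v4⟩)
    simpa using S.ord_smul g _ _ _ (k _ hz)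
  · refine Or.inr (Or.inr ⟨rfl, v, v1, fun z hz => ?_, fun u u1 u2 => (v4 u u1 u2).symm⟩)
    rw [e] at hz
    simpa using S.ord_smul g _ _ _ (k _ hz)

theorem lt_smul (g : Γ) {x y : S.Mk} (h : S.lt x y) : S.lt (g • x) (g • y) := by
  rcases h with h | ⟨h0, v, v1, v2, v3⟩
  · exact Or.inl h
  refine Or.inr ⟨h0, v, v1, fun z hz => ?_, fun u u1 u2 => ?_⟩
  · obtain ⟨z, rfl⟩ := MulAction.surjective g z
    rw [S.A_smul] at hz
    have := S.ord_smul g _ _ _ (v2 z hz)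
    rwa [← mul_smul, ← mul_smul] at this
  · show (g * x.g) • u = (g * y.g) • u
    rw [mul_smul, mul_smul, v3 u u1 u2]

theorem A_image (g : Γ) (x : S.Mk) : S.A (g • x) = (g • ·) '' S.A x := by
  ext v
  obtain ⟨v, rfl⟩ := MulAction.surjective g v
  rw [S.A_smul, (MulAction.injective g).mem_set_image]

theorem Ah_smul' (g : Γ) {x y : S.Mk} (h : S.Ah x y) : S.Ah (g • x) (g • y) := by
  have hi := MulAction.injective (β := V) g
  unfold Ah
  rw [S.A_image, S.A_image, ← Set.image_compl_eq (MulAction.bijective g)]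
  rcases h with h | h | h
  · exact Or.inl (hi.image_strictMono h)
  · exact Or.inr (Or.inl (hi.image_strictMono h))
  · exact Or.inr (Or.inr ⟨by rw [h.1], S.lt_smul g h.2⟩)

theorem Ah_smul (g : Γ) (x y : S.Mk) : S.Ah (g • x) (g • y) ↔ S.Ah x y := by
  refine ⟨fun h => ?_, S.Ah_smul' g⟩
  have := S.Ah_smul' g⁻¹ h
  rwa [inv_smul_smul, inv_smul_smul] at this

theorem Ah_eq {x y : S.Mk} (e : S.A y = S.A x) : S.Ah x y ↔ S.lt x y := by
  refine ⟨?_, fun h => Or.inr (Or.inr ⟨e, h⟩)⟩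
  rintro (h | h | h)
  · exact absurd e h.ne
  · exact absurd (h.1 (e ▸ S.w_not_mem x)) (S.w_not_mem x)
  · exact h.2

theorem Ah_compl {x y : S.Mk} (e : S.A y = (S.A x)ᶜ) : ¬ S.Ah x y := by
  rintro (h | h | h)
  · exact S.w_not_mem x (h.1 (e ▸ S.w_not_mem x))
  · rw [e, compl_compl] at h
    exact h.ne rfl
  · exact S.w_not_mem x (h.1 ▸ e ▸ S.w_not_mem x)

theorem cover {x y : S.Mk} (h : x ≠ y) (v : V) :
    (v ∈ S.A x ↔ S.Ah x y) ∨ (v ∈ S.A y ↔ S.Ah y x) := by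
  have L : ∀ {a b p q : Prop}, (p ∧ ¬ q ∧ (b → a)) ∨ (q ∧ ¬ p ∧ (a → b)) ∨
      (¬ p ∧ ¬ q ∧ (a → ¬ b)) ∨ (p ∧ q ∧ (¬ a → b)) → (a ↔ p) ∨ (b ↔ q) := by
    intro a b p q
    grind
  refine L ?_
  by_cases e : S.A y = S.A x
  · rw [S.Ah_eq e, S.Ah_eq e.symm, e]
    have h2 : ¬ (S.lt x y ∧ S.lt y x) := fun k => S.lt_irr x (S.lt_trans e k.1 k.2)
    rcases S.lt_total e h with k | k
    exacts [Or.inl ⟨k, fun k' => h2 ⟨k, k'⟩, id⟩, Or.inr (Or.inl ⟨k, fun k' => h2 ⟨k', k⟩, id⟩)]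
  have key : ∀ {x y : S.Mk}, S.A x ⊂ S.A y → ¬ S.Ah x y := by
    rintro x y k (k' | k' | k')
    exacts [k.2 k'.1, S.w_not_mem y (k.1 (k'.1 (S.w_not_mem y))), k.ne k'.1.symm]
  have key' : ∀ {x y : S.Mk}, S.A x ⊆ (S.A y)ᶜ → ¬ S.Ah x y := by
    rintro x y k (k' | k' | k')
    exacts [k (k'.1 (S.zz_mem y)) (S.zz_mem y), k'.2 k, k (S.zz_mem x) (k'.1 ▸ S.zz_mem x)]
  by_cases d : S.A x ⊆ (S.A y)ᶜ
  · exact Or.inr (Or.inr (Or.inl ⟨key' d, key' (Set.subset_compl_comm.1 d), @d v⟩))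
  rcases S.nest x y with k | k | k | k
  · have k' : S.A x ⊂ S.A y := ⟨k, fun k' => e (k'.antisymm k)⟩
    exact Or.inr (Or.inl ⟨Or.inl k', key k', @k v⟩)
  · have k' : S.A y ⊂ S.A x := ⟨k, fun k' => e (k.antisymm k')⟩
    exact Or.inl ⟨Or.inl k', key k', @k v⟩
  · exact absurd k d
  · exact Or.inr (Or.inr (Or.inr ⟨Or.inr (Or.inl ⟨Set.compl_subset_comm.1 k, d⟩),
      Or.inr (Or.inl ⟨k, fun k' => d (Set.subset_compl_comm.1 k')⟩), @k v⟩))

theorem exists_not (x : S.Mk) (P : Prop) : ∃ z, ¬ (z ∈ S.A x ↔ P) := by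
  by_cases h : P
  · exact ⟨S.own x, fun e => S.w_not_mem x (e.2 h)⟩
  · exact ⟨S.zz x, fun e => h (e.1 (S.zz_mem x))⟩

theorem tie {x y : S.Mk} {P : Prop} (h : ∀ u, (u ∈ S.A x ↔ S.Ah x y) ↔ (u ∈ S.A y ↔ P)) :
    (S.A y = S.A x ∧ (S.Ah x y ↔ P)) ∨ (¬ S.Ah x y ∧ P) := by
  by_cases e : S.Ah x y ↔ P
  · refine Or.inl ⟨Set.ext fun u => ?_, e⟩
    have := h u
    grind
  · have h1 := S.Ah_compl (x := x) (y := y) (Set.ext fun u => by
      have := h u
      rw [Set.mem_compl_iff]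
      grind)
    exact Or.inr ⟨h1, not_not.1 fun k => e (iff_of_false h1 k)⟩

theorem three {k k' k'' : S.Mk} (h1 : k ≠ k') (h2 : k ≠ k'')
    (n : ¬ (S.Ah k k' ↔ S.Ah k k'')) : S.Ah k' k'' ↔ S.Ah k' k := by
  by_contra n'
  have h3 : k' ≠ k'' := fun e => n (e ▸ Iff.rfl)
  have L : ∀ {a b c p p' q q' r r' : Prop}, ¬ (p ↔ p') → ¬ (q' ↔ q) → ((a ↔ p) ∨ (b ↔ q)) →
      ((a ↔ p') ∨ (c ↔ r)) → ((b ↔ q') ∨ (c ↔ r')) →
      ((r ↔ r') → (c ↔ r)) ∧ (¬ (r ↔ r') → ((a ↔ p) ↔ (b ↔ q')) ∧ ((b ↔ q') ↔ (c ↔ r)) ∧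
        ((c ↔ r) ↔ (a ↔ p))) := by
    intro a b c p p' q q' r r'
    grind
  have c := fun u => L n n' (S.cover h1 u) (S.cover h2 u) (S.cover h3 u)
  have r : ¬ (S.Ah k'' k ↔ S.Ah k'' k') := fun e => by
    obtain ⟨z, hz⟩ := S.exists_not k'' (S.Ah k'' k)
    exact hz ((c z).1 e)
  have L2 : ∀ {p q r e e' e'' : Prop}, ((e ∧ (p ↔ q)) ∨ (¬ p ∧ q)) → ((e' ∧ (q ↔ r)) ∨ (¬ q ∧ r)) →
      ((e'' ∧ (r ↔ p)) ∨ (¬ r ∧ p)) → e ∧ e' ∧ e'' ∧ (p ↔ q) ∧ (q ↔ r) := by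
    intro p q r e e' e''
    grind
  obtain ⟨e1, e2, e3, p1, p2⟩ := L2 (S.tie fun u => ((c u).2 r).1) (S.tie fun u => ((c u).2 r).2.1)
    (S.tie fun u => ((c u).2 r).2.2)
  by_cases p : S.Ah k k'
  · exact S.lt_irr k (S.lt_trans e1 ((S.Ah_eq e1).1 p)
      (S.lt_trans e2 ((S.Ah_eq e2).1 (p1.1 p)) ((S.Ah_eq e3).1 (p2.1 (p1.1 p)))))
  · have q : S.Ah k k'' := not_not.1 fun q => n (iff_of_false p q)
    have q' : S.Ah k' k := not_not.1 fun q => n' (iff_of_false (mt p1.2 p) q)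
    have q'' : S.Ah k'' k' := not_not.1 fun q => r (iff_of_false (mt p2.2 (mt p1.2 p)) q)
    exact S.lt_irr k (S.lt_trans e3.symm ((S.Ah_eq e3.symm).1 q)
      (S.lt_trans e2.symm ((S.Ah_eq e2.symm).1 q'') ((S.Ah_eq e1.symm).1 q')))

end HV

end Pool.Agent.Work.MP_3d425c_gt.Bor
end

-- merged part: Pool.Agent.Work.MP_3d425c_gt.VrH2
section
/-! Trees with half-spaces on the rays are prong trees. -/

namespace Pool.Agent.Work.MP_3d425c_gt.Bor
open Classical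

theorem H2_l1 {a b P : Prop} (h1 : a ↔ P) (h2 : b ↔ ¬ P) : a ↔ ¬ b := by grind

theorem H2_l2 {a b P : Prop} (h1 : ¬ (a ↔ P)) (h2 : b ↔ P) : a ↔ ¬ b := by grind

theorem H2_l3 {a b c P : Prop} (h1 : ¬ (a ↔ P)) (h2 : b ↔ ¬ P) (h3 : b ↔ ¬ c) : a ↔ ¬ c := by
  grind

theorem H2_l4 {a P : Prop} (h1 : a ↔ ¬ P) : ¬ (a ↔ P) := by grind

theorem H2_l5 {a P : Prop} (h1 : ¬ (a ↔ P)) : a ↔ ¬ P := by grind

theorem H2_l6 {a P : Prop} (h1 : ¬ (a ↔ ¬ P)) : a ↔ P := by grind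

theorem par_seg {V : Type} {dir : V → V → ℤ} (t : T1 dir) (hp : Par dir) {p m q : V}
    (hs : Small dir p q) (h : Wb dir p m q) (hq : q ≠ m) : Even (dir m q - dir p q) := by
  by_cases e : p = m
  · simp [e]
  have h1 := hp p m e (hs.left t h)
  have h2 := abs_le.1 (hs m e hq)
  have h3 := (h.btw e hq).2.2
  rw [h.dir_eq t e]
  rw [Int.odd_iff] at h1
  rw [Int.even_iff]
  omega

namespace HV
variable {Γ V : Type} [Group Γ] [MulAction Γ V] (S : HV Γ V)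

theorem Opp.symm {S : HV Γ V} {x : S.Mk} {u v : V} (h : S.Opp x u v) : S.Opp x v u :=
  iff_not_comm.1 h

theorem Opp.ne {S : HV Γ V} {x : S.Mk} {u v : V} (h : S.Opp x u v) : u ≠ v := by
  rintro rfl
  exact iff_not_self h

theorem opp_dir {x : S.Mk} {u v : V} (h : S.Opp x u v) :
    S.dir u v = S.dirP (.inl u) (.inr x) := by
  show _ = if u ∈ S.A x then S.dir u (S.own x) else S.dir u (S.zz x)
  by_contra hn
  by_cases hu : u ∈ S.A x
  · rw [if_pos hu] at hn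
    exact S.cvxA' x v (h.1 hu) _ (S.w_not_mem x) u (Or.inr (Or.inr hn)) hu
  · rw [if_neg hu] at hn
    exact hu (S.cvxA x v (not_not.1 (mt h.2 hu)) _ (S.zz_mem x) u (Or.inr (Or.inr hn)))

theorem both {x x' : S.Mk} (h : x ≠ x') {a : V} (n : ¬ (a ∈ S.A x ↔ S.Ah x x')) :
    S.dirP (.inl a) (.inr x') = S.dirP (.inl a) (.inr x) := by
  obtain ⟨z, hz⟩ := S.exists_not x' (S.Ah x' x)
  have h1 := (S.cover h a).resolve_left n
  have h2 := (S.cover h z).resolve_right hz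
  have o1 : S.Opp x a z := H2_l2 n h2
  have o2 : S.Opp x' a z := Opp.symm (H2_l2 hz h1)
  rw [← S.opp_dir o1, ← S.opp_dir o2]

theorem t1P : T1 S.dirP := by
  rintro (a | a) (v | v) (b | b) h1 h2 h
  · exact S.t1 a v b (fun e => h1 (congrArg _ e)) (fun e => h2 (congrArg _ e)) h
  · by_cases o : S.Opp b a v
    · exact (S.opp_dir o).symm
    · obtain ⟨z, hz⟩ := S.exists_not b (v ∈ S.A b)
      have o1 : S.Opp b v z := Opp.symm (H2_l5 hz)
      have o2 : S.Opp b a z := (H2_l6 o).trans o1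
      rw [← S.opp_dir o1] at h
      rw [← S.opp_dir o2]
      exact S.t1 a v z (fun e => h1 (congrArg _ e)) o1.ne.symm h
  · exact S.opp_dir (H2_l5 fun e => h (if_congr e rfl rfl))
  · exact S.both (fun e => h2 (congrArg _ e.symm)) fun e => h (if_congr e rfl rfl)
  · exact if_congr (H2_l6 fun o => h (S.opp_dir o).symm).symm rfl rfl
  · refine if_congr ?_ rfl rfl
    by_contra n
    exact h (S.both (fun e => h (by rw [e])) fun e => n e.symm).symm
  · exact if_congr ((S.cover (fun e => h1 (congrArg _ e)) b).resolve_right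
      fun e => h (if_congr e.symm rfl rfl)) rfl rfl
  · exact if_congr (S.three (fun e => h1 (congrArg _ e.symm)) (fun e => h2 (congrArg _ e.symm))
      fun e => h (if_congr e rfl rfl)) rfl rfl

theorem smallP (x : S.Mk) (a b : V ⊕ S.Mk) :
    |S.dirP (.inr x) b - S.dirP (.inr x) a| ≤ 1 := by
  have key : ∀ a, S.dirP (.inr x) a = S.idx x ∨ S.dirP (.inr x) a = S.idx x + 1 := by
    rintro (v | x') <;> exact ite_eq_or_eq _ _ _
  rw [abs_le]
  rcases key a with h | h <;> rcases key b with k | k <;> omega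

theorem anchor (p : V ⊕ S.Mk) : ∃ a b : V, ∀ u, p ≠ .inl u →
    ∃ p', (p' = a ∨ p' = b) ∧ p' ≠ u ∧ S.dirP (.inl u) p = S.dir u p' := by
  rcases p with v | x
  · exact ⟨v, v, fun u h => ⟨v, Or.inl rfl, fun e => h (by rw [e]), rfl⟩⟩
  · refine ⟨S.own x, S.zz x, fun u _ => ?_⟩
    by_cases hu : u ∈ S.A x
    · exact ⟨_, Or.inl rfl, fun e => S.w_not_mem x (e ▸ hu), if_pos hu⟩
    · exact ⟨_, Or.inr rfl, fun e => hu (e ▸ S.zz_mem x), if_neg hu⟩

theorem finP : FinB S.dirP := by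
  intro a b
  obtain ⟨a1, a2, ha⟩ := S.anchor a
  obtain ⟨b1, b2, hb⟩ := S.anchor b
  refine ((((S.fin a1 b1).union (S.fin a1 b2)).union ((S.fin a2 b1).union (S.fin a2 b2))).image
    (Sum.inl : V → V ⊕ S.Mk)).subset ?_
  rintro (u | x) ⟨h1, h2, h3⟩
  · obtain ⟨a', ha, ha1, ha2⟩ := ha u h1
    obtain ⟨b', hb, hb1, hb2⟩ := hb u h2
    rw [ha2, hb2] at h3
    refine ⟨u, ?_, rfl⟩
    rcases ha with rfl | rfl <;> rcases hb with rfl | rfl
    exacts [Or.inl (Or.inl ⟨ha1, hb1, h3⟩), Or.inl (Or.inr ⟨ha1, hb1, h3⟩),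
      Or.inr (Or.inl ⟨ha1, hb1, h3⟩), Or.inr (Or.inr ⟨ha1, hb1, h3⟩)]
  · exact absurd (S.smallP x a b) h3

theorem sign {x : S.Mk} {p q : V} (hs : Small S.dir p q) (hp : p ∉ S.A x) (hq : q ∈ S.A x) :
    Even (S.dir p q - S.idx x) := by
  obtain ⟨m, m1, m2, m3⟩ := S.med p (S.own x) q
  have hm : m ∉ S.A x := S.cvxA' x p hp _ (S.w_not_mem x) m m1
  have o1 : S.Opp x m q := iff_of_false hm (not_not.2 hq)
  have o2 : S.Opp x m (S.zz x) := iff_of_false hm (not_not.2 (S.zz_mem x))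
  have e := (S.opp_dir o1).trans (S.opp_dir o2).symm
  have m4 : Wb S.dir (S.own x) m (S.zz x) := by
    rcases m2 with k | k | k
    exacts [Or.inl k, absurd k o1.ne.symm, Or.inr (Or.inr (e ▸ k))]
  have h1 := par_seg S.t1 S.par hs m3.symm o1.ne.symm
  have h2 := par_seg S.t1 S.par (S.zz_small x) m4 o2.ne.symm
  rw [S.zz_dir, ← e] at h2
  rw [Int.even_iff] at h1 h2 ⊢
  omega

theorem sign' {x : S.Mk} {p q : V} (hs : Small S.dir p q) (h : S.Opp x p q) :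
    Even (S.dirP (.inr x) (.inl q) - S.dir p q) := by
  by_cases hq : q ∈ S.A x
  · have e : S.dirP (.inr x) (.inl q) = S.idx x := if_pos hq
    have := S.sign hs (fun k => h.1 k hq) hq
    rw [e]
    rw [Int.even_iff] at this ⊢
    omega
  · have e : S.dirP (.inr x) (.inl q) = S.idx x + 1 := if_neg hq
    have h1 := S.sign hs.symm hq (h.2 hq)
    have h2 := S.par p q h.ne hs
    rw [e]
    rw [Int.even_iff] at h1 ⊢
    rw [Int.odd_iff] at h2
    omega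

theorem pair (x : S.Mk) (P : Prop) :
    ∃ p q, Small S.dir p q ∧ S.Opp x p q ∧ (p ∈ S.A x ↔ P) := by
  have h1 := S.w_not_mem x
  have h2 := S.zz_mem x
  by_cases hP : P
  · exact ⟨S.zz x, S.own x, (S.zz_small x).symm, iff_of_true h2 h1, iff_of_true h2 hP⟩
  · exact ⟨S.own x, S.zz x, S.zz_small x, iff_of_false h1 (not_not.2 h2), iff_of_false h1 hP⟩

theorem par1 (u : V) (x : S.Mk) (hs : Small S.dirP (.inl u) (.inr x)) :
    Odd (S.dirP (.inl u) (.inr x) + S.dirP (.inr x) (.inl u)) := by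
  obtain ⟨p, q, h1, h2, h3⟩ := S.pair x (u ∈ S.A x)
  have o1 : S.Opp x u q := h3.symm.trans h2
  have s1 : Small S.dir u q := by
    intro t t1 t2
    by_cases ht : t ∈ S.A x ↔ u ∈ S.A x
    · rw [S.opp_dir (ht.trans o1)]
      exact hs (.inl t) (fun e => t1 (Sum.inl.inj e)) (by simp)
    · have o3 : S.Opp x t p := H2_l2 ht h3
      rw [S.opp_dir (H2_l5 ht), ← S.opp_dir o3]
      exact h1 t o3.ne.symm t2
  have a1 := S.par u q o1.ne s1
  have a2 := S.sign' s1.symm o1.symm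
  rw [← S.opp_dir o1]
  rw [Int.odd_iff] at a1 ⊢
  rw [Int.even_iff] at a2
  omega

theorem par2 {x x' : S.Mk} (hx : x ≠ x') (hs : Small S.dirP (.inr x) (.inr x')) :
    Odd (S.dirP (.inr x) (.inr x') + S.dirP (.inr x') (.inr x)) := by
  obtain ⟨p, q, h1, h2, h3⟩ := S.pair x (¬ S.Ah x x')
  obtain ⟨p', q', k1, k2, k3⟩ := S.pair x' (¬ S.Ah x' x)
  have c1 : p ∈ S.A x' ↔ S.Ah x' x := (S.cover hx p).resolve_left (H2_l4 h3)
  have c2 : p' ∈ S.A x ↔ S.Ah x x' := (S.cover hx p').resolve_right (H2_l4 k3)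
  have o1 : S.Opp x p p' := H2_l2 (H2_l4 h3) c2
  have o2 : S.Opp x' p' p := H2_l2 (H2_l4 k3) c1
  have s1 : Small S.dir p p' := by
    intro t t1 t2
    by_cases ht : t ∈ S.A x ↔ S.Ah x x'
    · by_cases ht' : t ∈ S.A x' ↔ S.Ah x' x
      · have o3 : S.Opp x t p := H2_l1 ht h3
        have o4 : S.Opp x' t p' := H2_l1 ht' k3
        rw [S.opp_dir o3, S.opp_dir o4]
        exact hs (.inl t) (by simp) (by simp)
      · have o3 : S.Opp x' t p := H2_l2 ht' c1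
        have o4 : S.Opp x' t q' := H2_l3 ht' k3 k2
        rw [S.opp_dir o3, ← S.opp_dir o4]
        exact k1.symm t o4.ne.symm t2
    · have o3 : S.Opp x t p' := H2_l2 ht c2
      have o4 : S.Opp x t q := H2_l3 ht h3 h2
      rw [S.opp_dir o3, ← S.opp_dir o4]
      exact h1 t t1 o4.ne.symm
  have e1 : S.dirP (.inr x) (.inr x') = S.dirP (.inr x) (.inl p') := if_congr c2.symm rfl rfl
  have e2 : S.dirP (.inr x') (.inr x) = S.dirP (.inr x') (.inl p) := if_congr c1.symm rfl rfl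
  have a1 := S.par p p' o1.ne s1
  have a2 := S.sign' s1 o1
  have a3 := S.sign' s1.symm o2
  rw [e1, e2]
  rw [Int.odd_iff] at a1 ⊢
  rw [Int.even_iff] at a2 a3
  omega

theorem parP : Par S.dirP := by
  rintro (u | x) (v | x') h hs
  · refine S.par u v (fun e => h (by rw [e])) fun t t1 t2 => ?_
    exact hs (.inl t) (fun e => t1 (Sum.inl.inj e)) (fun e => t2 (Sum.inl.inj e))
  · exact S.par1 u x' hs
  · rw [add_comm]
    exact S.par1 v x hs.symm
  · exact S.par2 (fun e => h (by rw [e])) hs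

theorem straightP (x : S.Mk) : Small S.dirP (.inl (S.own x)) (.inr x) := by
  rintro (t | x') h1 h2
  · by_cases ht : t ∈ S.A x
    · have e : S.dirP (.inl t) (.inr x) = S.dirP (.inl t) (.inl (S.own x)) := if_pos ht
      simp [e]
    · have e : S.dirP (.inl t) (.inr x) = S.dir t (S.zz x) := if_neg ht
      rw [e]
      exact S.zz_small x t (fun k => h1 (by rw [k])) fun k => ht (k ▸ S.zz_mem x)
  · exact S.smallP x' _ _

theorem equivP (g : Γ) (u v : V ⊕ S.Mk) (h : v ≠ u) :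
    S.dirP (g • u) (g • v) =
      S.dirP u v + Sum.elim (S.c g) (fun x : S.Mk => S.c g (S.own x)) u := by
  rcases u with u | x <;> rcases v with v | x'
  · exact S.equiv g u v fun e => h (congrArg _ e)
  · change S.dirP (.inl (g • u)) (.inr (g • x')) = S.dirP (.inl u) (.inr x') + S.c g u
    obtain ⟨z, hz⟩ := S.exists_not x' (u ∈ S.A x')
    have h1 : S.Opp x' u z := Opp.symm (H2_l5 hz)
    have h2 : S.Opp (g • x') (g • u) (g • z) := by
      unfold Opp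
      rw [S.A_smul, S.A_smul]
      exact h1
    rw [← S.opp_dir h1, ← S.opp_dir h2, S.equiv g _ _ h1.ne.symm]
  · change (if g • v ∈ S.A (g • x) then S.idx (g • x) else S.idx (g • x) + 1) =
      (if v ∈ S.A x then S.idx x else S.idx x + 1) + S.c g (S.own x)
    rw [S.A_smul, S.idx_smul]
    split_ifs <;> ring
  · change (if S.Ah (g • x) (g • x') then S.idx (g • x) else S.idx (g • x) + 1) =
      (if S.Ah x x' then S.idx x else S.idx x + 1) + S.c g (S.own x)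
    rw [S.Ah_smul, S.idx_smul]
    split_ifs <;> ring

theorem dir_own (x : S.Mk) : S.dirP (.inl (S.own x)) (.inr x) = S.idx x :=
  (if_neg (S.w_not_mem x)).trans (S.zz_dir x)

theorem δ_fix (w : V) (l : ℤ) : S.δ w ^ l • w = w ∧ S.c (S.δ w ^ l) w = 0 :=
  (S.mem_δ _ w).1 ⟨l, rfl⟩

theorem own_δ (x : S.Mk) (l : ℤ) : S.own (S.δ (S.own x) ^ l • x) = S.own x := by
  rw [S.own_smul, (S.δ_fix _ l).1]

theorem mem_δA (x : S.Mk) (l : ℤ) (v : V) : v ∈ S.A (S.δ (S.own x) ^ l • x) ↔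
    S.δ x.w ^ (-l) • x.g⁻¹ • v ∈ S.A₀ x.w x.i := by
  show (S.δ (x.g • x.w) ^ l * x.g)⁻¹ • v ∈ S.A₀ x.w x.i ↔ _
  rw [S.δ_conj, conj_zpow, inv_mul_cancel_right, mul_inv_rev, mul_smul, zpow_neg]

theorem lowA (x : S.Mk) {v : V} (h : v ≠ S.own x) (hd : S.dir (S.own x) v = S.idx x) :
    ∃ l : ℤ, v ∈ S.A (S.δ (S.own x) ^ l • x) := by
  obtain ⟨v, rfl⟩ := MulAction.surjective x.g v
  have h' : v ≠ x.w := fun e => h (by rw [e]; rfl)
  rw [own, S.equiv _ _ _ h', idx, add_left_inj] at hd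
  obtain ⟨n, hn⟩ := S.low x.w v h'
  exact ⟨-n, by rwa [S.mem_δA, neg_neg, inv_smul_smul, zpow_natCast, ← hd]⟩

theorem highA (x : S.Mk) (v : V) : ∃ n : ℕ, v ∉ S.A (S.δ (S.own x) ^ (n : ℤ) • x) := by
  obtain ⟨n, hn⟩ := S.high x.w x.i (x.g⁻¹ • v)
  exact ⟨n, by rwa [S.mem_δA, zpow_neg, zpow_natCast]⟩

theorem pushA (x : S.Mk) : S.A (S.δ (S.own x) • x) ⊂ S.A x := by
  have h1 : S.own x ∉ S.A (S.δ (S.own x) • x) := by
    have := S.w_not_mem (S.δ (S.own x) ^ (1 : ℤ) • x)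
    rwa [S.own_δ, zpow_one] at this
  have h2 : S.δ (S.own x) • S.zz x ∈ S.A x := by
    rw [own, zz, S.δ_conj, mul_smul, inv_smul_smul, mul_smul, S.mem_A]
    exact S.z_push _ _
  have h3 := (S.A_smul (S.δ (S.own x)) x _).2 (S.zz_mem x)
  have h4 : ¬ S.A x ⊆ S.A (S.δ (S.own x) • x) := fun k => by
    obtain ⟨n, hn⟩ := S.highA x (S.zz x)
    refine hn ?_
    rw [zpow_natCast]
    clear hn
    induction n with
    | zero => simpa using S.zz_mem x
    | succ n ih =>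
      rw [pow_succ, mul_smul, S.A_image]
      rw [S.A_image] at ih
      exact Set.image_mono k ih
  refine ⟨?_, h4⟩
  rcases S.nest x (S.δ (S.own x) • x) with k | k | k | k
  exacts [absurd k h4, k, absurd h3 (k h2), absurd (k (S.w_not_mem x)) h1]

theorem monoA (x : S.Mk) {l l' : ℤ} (h : l ≤ l') :
    S.A (S.δ (S.own x) ^ l' • x) ⊆ S.A (S.δ (S.own x) ^ l • x) := by
  induction l', h using Int.leInduction with
  | base => exact subset_rfl
  | succ k _ ih =>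
    have := (S.pushA (S.δ (S.own x) ^ k • x)).1
    rw [S.own_δ, ← mul_smul, ← zpow_one_add, add_comm] at this
    exact this.trans ih

theorem sepP {w : V} {x : S.Mk} (hw : w ∉ S.A x) {v : V ⊕ S.Mk} (hv : v ≠ .inr x) :
    PT.Sep S.dirP (.inl w) (.inr x) v ↔ Sum.elim (· ∈ S.A x) (S.Ah x) v := by
  have e : S.dirP (.inr x) (.inl w) = S.idx x + 1 := if_neg hw
  have e' : S.dirP (.inr x) v =
      if Sum.elim (· ∈ S.A x) (S.Ah x) v then S.idx x else S.idx x + 1 := by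
    rcases v with v | v <;> rfl
  unfold PT.Sep
  rw [e, e']
  split_ifs with k
  · exact iff_of_true ⟨Sum.inl_ne_inr, hv, by omega⟩ k
  · exact iff_of_false (fun h => h.2.2 rfl) k

theorem lowP (x : S.Mk) (v : V ⊕ S.Mk) (h1 : v ≠ .inl (S.own x))
    (h2 : S.dirP (.inl (S.own x)) v = S.idx x) :
    ∃ l : ℤ, PT.Sep S.dirP (.inl (S.own x)) (.inr (S.δ (S.own x) ^ l • x)) v := by
  have hw : ∀ l : ℤ, S.own x ∉ S.A (S.δ (S.own x) ^ l • x) := fun l => by
    have := S.w_not_mem (S.δ (S.own x) ^ l • x)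
    rwa [S.own_δ] at this
  rcases v with v | y
  · obtain ⟨l, hl⟩ := S.lowA x (fun e => h1 (congrArg _ e)) h2
    exact ⟨l, (S.sepP (hw l) Sum.inl_ne_inr).2 hl⟩
  obtain ⟨p, q, p1, q1, k⟩ := S.gapA y (S.own x)
  obtain ⟨p2, q2, k⟩ := not_wb.1 k
  have d : S.dir (S.own x) p = S.idx x := by
    by_cases e : S.own x ∈ S.A y
    · rw [← h2, S.opp_dir (iff_of_true e p1)]
    · rw [← h2, k, S.opp_dir (iff_of_false e (not_not.2 q1))]
  obtain ⟨l, hl⟩ := S.lowA x p2 d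
  obtain ⟨l', hl'⟩ := S.lowA x q2 (k ▸ d)
  have a1 := S.monoA x (min_le_left l l') hl
  have a2 := S.monoA x (min_le_right l l') hl'
  have a3 := hw (min l l')
  refine ⟨min l l', (S.sepP a3 fun e => p1 ((Sum.inr_injective e).symm ▸ a1 :)).2 ?_⟩
  rcases S.nest y (S.δ (S.own x) ^ min l l' • x) with k | k | k | k
  · exact Or.inl ⟨k, fun k' => p1 (k' a1)⟩
  · exact absurd (k a1) p1
  · exact absurd a2 (k q1)
  · exact Or.inr (Or.inl ⟨k, fun k' => k' a2 q1⟩)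

theorem highP (x : S.Mk) (v : V ⊕ S.Mk) :
    ∃ l : ℤ, ¬ PT.Sep S.dirP (.inl (S.own x)) (.inr (S.δ (S.own x) ^ l • x)) v := by
  have hw : ∀ l : ℤ, S.own x ∉ S.A (S.δ (S.own x) ^ l • x) := fun l => by
    have := S.w_not_mem (S.δ (S.own x) ^ l • x)
    rwa [S.own_δ] at this
  rcases v with v | y
  · obtain ⟨l, hl⟩ := S.highA x v
    exact ⟨l, fun k => hl ((S.sepP (hw l) Sum.inl_ne_inr).1 k)⟩
  obtain ⟨l, hl⟩ := S.highA x (S.own y)
  obtain ⟨l', hl'⟩ := S.highA x (S.zz y)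
  have a1 := fun k => hl (S.monoA x (le_max_left (l : ℤ) l') k)
  have a2 := fun k => hl' (S.monoA x (le_max_right (l : ℤ) l') k)
  refine ⟨max l l', fun k => ?_⟩
  rcases (S.sepP (hw _) k.2.1).1 k with k | k | k
  exacts [a2 (k.1 (S.zz_mem y)), a1 (k.1 (S.w_not_mem y)), a2 (k.1 ▸ S.zz_mem y)]

theorem prongTree : PT.ProngTree S.dirP S.own S.δ S.e where
  two := S.two
  tree a u b h := S.t1P a u b h.1 h.2.1 h.2.2
  finite a b := by simpa only [not_le] using S.finP a b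
  parity := S.parP
  sides x a b _ _ := S.smallP x a b
  e_mul := S.e_mul
  shift g u := by
    refine ⟨_, ?_, S.equivP g u⟩
    rcases u with u | x
    · exact S.epar g u
    · exact S.epar g _
  own_smul := S.own_smul
  δ_conj := S.δ_conj
  δ_gen g w := by
    rw [S.mem_δ]
    refine and_congr_right fun hg => ⟨fun k v hv => ?_, fun k => ?_⟩
    · have := S.equivP g (.inl w) v hv
      rwa [Sum.smul_inl, hg, Sum.elim_inl, k, add_zero] at this
    · have := S.equivP g (.inl w) (.inr ⟨1, w, 0⟩) Sum.inr_ne_inl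
      rw [Sum.smul_inl, hg, Sum.elim_inl, k _ Sum.inr_ne_inl] at this
      omega
  onto w i := by
    have e : S.own ⟨1, w, i⟩ = w := one_smul Γ w
    have := S.dir_own ⟨1, w, i⟩
    rw [e, idx, S.c_one, add_zero] at this
    exact ⟨⟨1, w, i⟩, e, this⟩
  straight := S.straightP
  push x := (S.sepP (S.w_not_mem x) fun e =>
    (S.pushA x).ne (congrArg S.A (Sum.inr_injective e))).2 (Or.inl (S.pushA x))
  low x v h1 h2 := S.lowP x v h1 (h2.trans (S.dir_own x))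
  high := S.highP

end HV

end Pool.Agent.Work.MP_3d425c_gt.Bor
end

-- merged part: Pool.Agent.Work.MP_3d425c_gt.Vr5
section
/-! Layered veering triangulations: rays and half-spaces. -/

namespace Pool.Agent.Work.MP_3d425c_gt.Bor
open Classical PA Filter

theorem exists_half {V : Type} [Countable V] {dir : V → V → ℤ} (t : T1 dir) (E : V → V → Prop)
    (hne : ∀ p q, E p q → p ≠ q) (sub : ∀ p q, E p q → ∃ c, Btw dir p c q ∧ E p c ∧ E c q)
    {w p q : V} (h : E p q) (hw : Wb dir w p q) :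
    ∃ A : Set V, Cvx dir A ∧ Cvx dir Aᶜ ∧ (∀ v, Wb dir w q v → v ∈ A) ∧
      (∀ v ∈ A, Wb dir w p v) ∧ (∀ m, ∃ p q, p ∉ A ∧ q ∈ A ∧ ¬ Wb dir p m q) ∧
      ∀ a ∈ A, ∀ b ∈ A, ∃ r, Wb dir w r a ∧ Wb dir w r b ∧ ∀ z ∉ A, ¬ Wb dir w r z := by
  have step : ∀ (x : {x : V × V // E x.1 x.2 ∧ Wb dir w x.1 x.2}) (m : V),
      ∃ y : {x : V × V // E x.1 x.2 ∧ Wb dir w x.1 x.2}, Wb dir w x.1.1 y.1.1 ∧
        Wb dir w y.1.2 x.1.2 ∧ ¬ Wb dir y.1.1 m y.1.2 := by
    rintro ⟨⟨p, q⟩, h, hw⟩ m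
    obtain ⟨c, c1, c2, c3⟩ := sub p q h
    have a1 : Wb dir w c q := (c1.wb.symm.trans_left t hw.symm).symm
    have a2 : Wb dir w p c := (c1.wb.symm.trans_right t hw.symm).symm
    by_cases e : Wb dir p m c
    swap
    · exact ⟨⟨(p, c), c2, a2⟩, wb_right _ _, a1, e⟩
    by_cases e' : m = c
    · obtain ⟨d, d1, d2, -⟩ := sub p c c2
      exact ⟨⟨(p, d), d2, (d1.wb.symm.trans_right t a2.symm).symm⟩, wb_right _ _,
        (d1.wb.symm.trans_left t a2.symm).symm.trans_left t a1,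
        fun k => d1.2.1 ((e' ▸ k : Wb dir p c d).antisymm t d1.wb)⟩
    · exact ⟨⟨(c, q), c3, a1⟩, a2, wb_right _ _,
        fun k => e' (k.symm.antisymm t (e.trans_right t c1.wb).symm)⟩
  choose F F1 F2 F3 using step
  have : Nonempty V := ⟨w⟩
  obtain ⟨f, hf⟩ := exists_surjective_nat V
  let s : ℕ → {x : V × V // E x.1 x.2 ∧ Wb dir w x.1 x.2} :=
    fun n => Nat.rec ⟨(p, q), h, hw⟩ (fun n x => F x (f n)) n
  have mono : ∀ {n k}, n ≤ k → Wb dir w (s n).1.1 (s k).1.1 ∧ Wb dir w (s k).1.2 (s n).1.2 := by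
    intro n k hk
    induction hk with
    | refl => exact ⟨wb_right _ _, wb_right _ _⟩
    | step _ ih => exact ⟨ih.1.trans_left t (F1 _ _), (F2 _ _).trans_left t ih.2⟩
  have two : ∀ {a b}, (∃ n, Wb dir w (s n).1.2 a) → (∃ n, Wb dir w (s n).1.2 b) →
      ∃ n, Wb dir w (s n).1.2 a ∧ Wb dir w (s n).1.2 b := fun ⟨n, a1⟩ ⟨k, b1⟩ =>
    ⟨max n k, (mono (le_max_left _ _)).2.trans_left t a1,
      (mono (le_max_right _ _)).2.trans_left t b1⟩
  refine ⟨{v | ∃ n, Wb dir w (s n).1.2 v}, fun u hu v hv m hm => ?_,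
    fun u hu v hv m hm ⟨n, hn⟩ => ?_, fun v hv => ⟨0, hv⟩, fun v ⟨n, hn⟩ =>
      (mono (Nat.zero_le n)).1.trans_left t ((s n).2.2.trans_left t hn), fun m => ?_,
    fun a ha b hb => ?_⟩
  · obtain ⟨n, a1, a2⟩ := two hu hv
    refine ⟨n, by_contra fun k => ?_⟩
    obtain ⟨k1, k2, k3⟩ := not_wb.1 k
    have key : ∀ u, Wb dir w (s n).1.2 u → Wb dir u (s n).1.2 m := fun u hu => by
      rcases hu with e | e | e
      exacts [absurd e k1, Or.inl e, Or.inr (Or.inr (k3 ▸ e.symm))]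
    exact k2 (((key u a1).trans_right t hm).symm.antisymm t (key v a2))
  · obtain ⟨u1, u2, u3⟩ := not_wb.1 fun k => hu ⟨n, k⟩
    obtain ⟨-, v2, v3⟩ := not_wb.1 fun k => hv ⟨n, k⟩
    have hb := hm.btw (fun e => hu ⟨n, e ▸ hn⟩) fun e => hv ⟨n, e ▸ hn⟩
    by_cases e : m = (s n).1.2
    · exact hb.2.2 (e ▸ u3.symm.trans v3)
    · have h1 := (hn.btw u1 e).2.2
      exact hb.2.2 ((t m _ u e u2 (u3 ▸ h1.symm)).trans (t m _ v e v2 (v3 ▸ h1.symm)).symm)
  · obtain ⟨n, rfl⟩ := hf m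
    refine ⟨_, _, fun ⟨k, hk⟩ => ?_, ⟨n + 1, wb_right _ _⟩, F3 (s n) (f n)⟩
    have a1 := (mono (le_max_left k (n + 1))).2.trans_left t hk
    exact hne _ _ (s _).2.1 ((s _).2.2.antisymm t
      (a1.trans_left t (mono (le_max_right k (n + 1))).1))
  · obtain ⟨n, a1, a2⟩ := two ha hb
    exact ⟨_, a1, a2, fun z hz k => hz ⟨n, k⟩⟩

namespace VG
open VC VU
variable {Γ V : Type} [LinearOrder V] [Group Γ] [MulAction Γ V] {S : VG Γ V}

theorem wb_smul (g : Γ) {a m b : V} (h : Wb S.dir a m b) : Wb S.dir (g • a) (g • m) (g • b) := by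
  by_cases h1 : a = m
  · exact Or.inl (by rw [h1])
  by_cases h2 : b = m
  · exact Or.inr (Or.inl (by rw [h2]))
  refine Or.inr (Or.inr ?_)
  rw [equiv g m a h1, equiv g m b h2]
  simpa using (h.btw h1 h2).2.2

theorem G.nbr {w x : V} {g : Γ} (h : S.G w g) (hx : S.E w x) :
    S.E w (g • x) ∧ (S.red w (g • x) ↔ S.red w x) ∧ S.dir w (g • x) = S.dir w x :=
  ⟨(E_fix h.1 hx).1, (E_fix h.1 hx).2, h.dir hx.ne.symm⟩

theorem δ_G (w : V) (n : ℕ) : S.G w (S.δ w ^ n) := by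
  simpa using (δ_spec (S := S) w).1.zpow n

theorem push_blue {w a : V} (ha : S.E w a) (r : ¬ S.red w a) : Wb S.dir w a (S.δ w • a) := by
  obtain ⟨d1, d2, -⟩ := δ_spec (S := S) w
  obtain ⟨a1, a2, a3⟩ := d1.nbr ha
  exact (blue_le a1 ha (mt a2.1 r) r a3 ((dec_bt d1 ha).1 (d2 a ha)).le).2

theorem low_blue {w a v : V} (ha : S.E w a) (r : ¬ S.red w a) (hv : v ≠ w)
    (hd : S.dir w v = S.dir w a) : ∃ n : ℕ, Wb S.dir w a (S.δ w ^ n • v) := by
  obtain ⟨k, -, c, c1, -, c2, -⟩ := death ha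
  have c3 : S.E w c := ⟨k, c1.1⟩
  have c4 : S.dir w a = S.dir w c := by
    rw [tri_dir ⟨k, c1⟩, if_neg fun e => r e.2, add_zero]
  obtain ⟨j, x, y, y1, y2, y3⟩ := (lf_or_rt c3 c2 hv).resolve_left fun e => by
    have := ((mem_Lf c3 c2).1 e).2
    omega
  have y4 : S.E w y := ⟨j, y1.1.2.1⟩
  have y5 := eq_of_Lf y4 y1.2.2 c3 c2 y2
  obtain ⟨k', d, -, -, d1, -, d2, -, d3⟩ := death y4
  have d4 : S.E w d := ⟨k', d1.2.1⟩
  have d5 : S.dir w d = S.dir w y := by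
    rw [tri_dir ⟨k', d1⟩, if_neg fun e => d2 e.2, add_zero]
  have d6 := Hf_btw (S := S.toVU) ⟨(d1.rot (S.layer k')).rot (S.layer k'),
    fun e => d2 (rsymm.1 e), rsymm.1 d3⟩
  obtain ⟨b, -, -, b1, -, b2⟩ := birth ha
  have b3 := Hf_dir (S := S.toVU) ⟨b1, r, b2⟩
  obtain ⟨u, u1, u2, u3, u4⟩ := (mem_Lf (u := v) ⟨_, b1.2.1⟩ b2).2 ⟨hv, by omega⟩
  have u5 := ((mem_Lf (S := S.toVU) ⟨_, b1.2.1⟩ b2).1 ⟨u, u1, u2, u3, Or.inl rfl⟩).2
  have u6 := dir_cle (S := S.toVU) u4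
  obtain ⟨n, hn⟩ := (δ_far ha (max (S.bt w u) (S.bt w d))).2
  obtain ⟨a1, a2, a3⟩ := (δ_G (S := S) w n).inv.nbr ha
  have e1 := (blue_le u1 a1 u2 (mt a2.1 r) (by omega) ((le_max_left _ _).trans hn.le)).1
  have e2 := (blue_le d4 a1 d2 (mt a2.1 r) (by omega) ((le_max_right _ _).trans hn.le)).2
  have e3 : Wb S.dir w ((S.δ w ^ n)⁻¹ • a) v := by
    generalize (S.δ w ^ n)⁻¹ • a = z at a1 a2 e1 e2
    have e4 := ((e2.trans_left t1 d6.wb).btw a1.ne fun e => r (a2.1 (e ▸ y1.2.2))).2.2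
    rcases cle_tr u4 e1 with e5 | e5
    · exact Or.inr (Or.inl e5)
    have e6 := y1.1.2.2.2
    have e7 : cyc z w y := by unfold cle cyc at *; grind
    have e8 : cle z y v := by unfold cle cyc at *; grind
    have := dir_le (S := S.toVU) e7
    have := dir_cle (S := S.toVU) e8
    exact Or.inr (Or.inr (by omega))
  have := wb_smul (S.δ w ^ n) e3
  rw [(δ_G w n).1, smul_inv_smul] at this
  exact ⟨n, this⟩

theorem high_blue {w a : V} (ha : S.E w a) (r : ¬ S.red w a) (v : V) :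
    ∃ n : ℕ, ¬ Wb S.dir w a ((S.δ w ^ n)⁻¹ • v) := by
  suffices H : ∃ n : ℕ, ¬ Wb S.dir w (S.δ w ^ n • a) v from H.imp fun n h k => h (by
    have := wb_smul (S.δ w ^ n) k
    rwa [(δ_G w n).1, smul_inv_smul] at this)
  by_cases hv : v = w
  · exact ⟨0, fun k => ha.ne (Wb.self (dir := S.dir) (by simpa [hv] using k))⟩
  by_cases hd : S.dir w v = S.dir w a
  swap
  · exact ⟨0, fun k => hd (by simpa using Wb.dir_eq t1 (by simpa using k) ha.ne)⟩
  obtain ⟨k, -, c, c1, -, c2, -, c5, -⟩ := death ha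
  have c3 : S.E w c := ⟨k, c1.1⟩
  have c4 : S.dir w a = S.dir w c := by
    rw [tri_dir ⟨k, c1⟩, if_neg fun e => r e.2, add_zero]
  have c6 := (Hf_btw (S := S.toVU) ⟨c1.rot (S.layer k), c5, rsymm.1 c2⟩).symm
  rcases lf_or_rt (S := S.rev) (rev_E.2 ha) r hv with ⟨y, y1, y2, y3, y4⟩ | ⟨j, y, x, x1, x2, x3⟩
  · have y1 := rev_E.1 y1
    have y2 : S.red w y := not_not.1 y2
    have y5 := dir_le (S := S.toVU) y3
    have y6 := dir_cle (S := S.toVU) y4
    obtain ⟨n, hn⟩ := (δ_far c3 (S.bt w y)).1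
    obtain ⟨a1, a2, a3⟩ := (δ_G (S := S) w n).nbr c3
    obtain ⟨e1, e2⟩ := red_le a1 y1 (a2.2 c2) y2 (by omega) hn.le
    have e3 := wb_smul (S.δ w ^ n) c6.wb
    rw [(δ_G w n).1] at e3
    refine ⟨n, fun e4 => ?_⟩
    have e5 := e3.trans_left t1 e4
    generalize S.δ w ^ n • c = z at a1 e1 e2 e5 hn
    have e6 := e1.resolve_left fun e => hn.ne (by rw [e])
    have e7 := cle_cyc y4 e6
    have := dir_le (S := S.toVU) (cyc_rot (cyc_rot e7))
    have := dir_cle (S := S.toVU) (show cle z v y by unfold cle cyc at *; grind)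
    have := (e5.btw a1.ne (cyc_ne e7).2.1).2.2
    exact (cyc_ne e6).2.1 (e2.antisymm t1 (Or.inr (Or.inr (by omega))))
  · have x4 : S.E w x := ⟨_, x1.1.2.1⟩
    have x5 : c ∈ S.rev.Lf w x := x2 ▸ ⟨c, rev_E.2 c3, not_not.2 c2, c1.2.2.2, Or.inl rfl⟩
    have x6 := dir_le (S := S.toVU) (Lf_lt x5)
    have x7 := dir_cle (S := S.toVU) x3
    obtain ⟨n, hn⟩ := (δ_far ha (S.bt w x)).1
    obtain ⟨a1, a2, a3⟩ := (δ_G (S := S) w n).nbr ha
    obtain ⟨e1, e2⟩ := blue_le a1 x4 (mt a2.1 r) x1.2.2 (by omega) hn.le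
    refine ⟨n, fun e5 => ?_⟩
    generalize S.δ w ^ n • a = z at a1 e1 e2 e5 hn
    have e6 := e1.resolve_left fun e => hn.ne (by rw [e])
    have e7 := cyc_cle e6 x3
    have := dir_le (S := S.toVU) (cyc_rot e7)
    have := dir_cle (S := S.toVU) (show cle z x v by unfold cle cyc at *; grind)
    have := (e5.btw a1.ne (cyc_ne e7).2.1.symm).2.2
    exact (cyc_ne e6).2.1 (e2.antisymm t1 (Or.inr (Or.inr (by omega)))).symm

theorem exists_ray [Countable V] (w : V) (i : ℤ) : ∃ (A : Set V) (z : V),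
    Cvx S.dir A ∧ Cvx S.dir Aᶜ ∧ w ∉ A ∧ z ∈ A ∧ Small S.dir w z ∧ S.dir w z = i ∧
    S.δ w • z ∈ A ∧ (∀ m, ∃ p q, p ∉ A ∧ q ∈ A ∧ ¬ Wb S.dir p m q) ∧
    (∀ v, v ≠ w → S.dir w v = i → ∃ n : ℕ, S.δ w ^ n • v ∈ A) ∧
    (∀ v, ∃ n : ℕ, (S.δ w ^ n)⁻¹ • v ∉ A) ∧
    (∀ a ∈ A, ∀ b ∈ A, a ≠ b → (∀ z ∉ A, cyc z a b) ∨ ∀ z ∉ A, cyc z b a) ∧
    ∀ g : Γ, (∀ v ∈ A, g • v = v) → g = 1 := by
  obtain ⟨p, hp, r, rfl⟩ : ∃ p, S.E w p ∧ ¬ S.red w p ∧ S.dir w p = i := by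
    obtain ⟨a, ha, rfl⟩ := surj (S := S) w i
    by_cases r : S.red w a
    · obtain ⟨k, d, -, -, d1, -, d2, -⟩ := death ha
      exact ⟨d, ⟨k, d1.2.1⟩, d2, by rw [tri_dir ⟨k, d1⟩, if_neg fun e => d2 e.2, add_zero]⟩
    · exact ⟨a, ha, r, rfl⟩
  obtain ⟨-, q, q1, -, q2, -⟩ := birth hp
  have f : S.Face w q p := ⟨_, q1⟩
  have q3 : S.dir w q = S.dir w p := by rw [tri_dir f, if_neg fun e => r e.2, add_zero]
  obtain ⟨A, A1, A2, A3, A4, A5, A6⟩ := exists_half t1 S.E (fun _ _ => E.ne) (fun _ _ => subdiv)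
    f.e3.symm (Nx_blue ⟨f, iff_false_intro q2, iff_false_intro r⟩).wb
  have hw : w ∉ A := fun h => hp.ne (A4 w h).self
  refine ⟨A, q, A1, A2, hw, A3 q (wb_right _ _), edge_small f.e1, q3, A3 _ (push_blue f.e1 q2), A5,
    fun v hv hd => (low_blue f.e1 q2 hv (hd.trans q3.symm)).imp fun n => A3 _,
    fun v => (high_blue hp r v).imp fun n h k => h (A4 _ k), fun a ha b hb hne => ?_,
    fun g hg => ?_⟩
  · have key : ∀ a ∈ A, ∀ b ∈ A, a ≠ b → cyc w a b → ∀ z ∉ A, cyc z a b := by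
      intro a ha b hb hne h z hz
      obtain ⟨x, x1, x2, x3⟩ := A6 a ha b hb
      obtain ⟨z1, z2, z3⟩ := not_wb.1 (x3 z hz)
      rcases cyc_total (fun e : z = a => hz (e ▸ ha)) hne (fun e : z = b => hz (e ▸ hb)) with
        t | t
      · exact t
      exfalso
      have : (cyc x w a ∧ cyc x a z) ∨ (cyc x z b ∧ cyc x b w) := by
        unfold cyc at *
        grind
      rcases this with ⟨s1, s2⟩ | ⟨s1, s2⟩
      · have := dir_le (S := S.toVU) s1
        have := dir_le (S := S.toVU) s2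
        have := (x1.btw z1 (cyc_ne s2).1.symm).2.2
        omega
      · have := dir_le (S := S.toVU) s1
        have := dir_le (S := S.toVU) s2
        have := (x2.btw z1 (cyc_ne s2).1.symm).2.2
        omega
    rcases cyc_total (fun e : w = a => hw (e ▸ ha)) hne (fun e : w = b => hw (e ▸ hb)) with t | t
    exacts [Or.inl (key a ha b hb hne t), Or.inr (key b hb a ha hne.symm t)]
  · obtain ⟨b, b1, b2⟩ := surj (S := S) q (S.dir q w + 1)
    exact S.free g q b b1 (hg q (A3 q (wb_right _ _))) (hg b (A3 b (Or.inr (Or.inr (by omega)))))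

theorem exists_tree [Countable V] (S : VG Γ V) : ∃ (X : Type) (_ : MulAction Γ X)
    (dir : V ⊕ X → V ⊕ X → ℤ) (own : X → V) (δ : V → Γ), PT.ProngTree dir own δ S.e ∧
      ∀ u v, dir (.inl u) (.inl v) = S.dir u v := by
  choose A z h1 h2 h3 h4 h5 h6 h7 h8 h9 h10 h11 h12 using exists_ray (S := S)
  let H : HV Γ V :=
    { dir := S.dir, c := S.c, e := S.e, δ := S.δ, ord := cyc, A₀ := A, z₀ := z
      t1 := t1, fin := finB, med := med, par := par, equiv := equiv, e_mul := S.e_mul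
      epar := epar
      two := by
        obtain ⟨a, b, h⟩ := (S.layer 0).ne
        exact ⟨a, b, PB1_ne (S.layer 0) h⟩
      δ_conj := δ_conj, mem_δ := mem_δ, cvx := h1, cvx' := h2, base := h3, z_mem := h4
      z_small := h5, z_dir := h6, z_push := h7, gap := h8
      low := fun w v h => h9 w _ v h rfl
      high := h10, ord_smul := S.cyc_smul
      ord_trans := fun _ _ _ _ => cyc_trans
      ord_irr := fun _ _ h => (cyc_ne h).2.1 rfl
      ord_tot := h11, faith := h12 }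
  exact ⟨H.Mk, inferInstance, H.dirP, H.own, H.δ, H.prongTree, fun _ _ => rfl⟩

end VG

end Pool.Agent.Work.MP_3d425c_gt.Bor
end

-- merged part: Pool.Agent.Work.MP_3d425c_gt.ZC6
section
/-! Trees with heights are prong trees. -/

namespace Pool.Agent.Work.MP_3d425c_gt.Bor
open Classical

namespace MU
variable {Γ V : Type} [Group Γ] [MulAction Γ V] (S : MU Γ V)

theorem PAC6_equiv (g : Γ) (u v : V ⊕ S.Tr) (h : v ≠ u) :
    S.dirP (g • u) (g • v) =
      S.dirP u v + Sum.elim (S.c g) (fun x : S.Tr => S.c g x.w) u := by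
  rcases u with u | x <;> rcases v with v | x'
  · exact S.equiv g u v fun e => h (congrArg _ e)
  · change S.dirP (.inl (g • u)) (.inr (g • x')) = S.dirP (.inl u) (.inr x') + S.c g u
    by_cases hu : u ∈ S.A x'
    · have h1 : S.Opp x' u x'.w := ⟨fun _ => S.w_not_mem x', fun _ => hu⟩
      have h2 : S.Opp (g • x') (g • u) (g • x'.w) := by
        unfold Opp
        rw [S.A_smul, S.A_smul]
        exact h1
      rw [← S.opp_dir h1, ← S.opp_dir h2, S.equiv g _ _ h1.ne.symm]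
    · have h1 : S.Opp x' u (S.zz x') :=
        ⟨fun k => absurd k hu, fun k => absurd (S.zz_mem x') k⟩
      have h2 : S.Opp (g • x') (g • u) (g • S.zz x') := by
        unfold Opp
        rw [S.A_smul, S.A_smul]
        exact h1
      rw [← S.opp_dir h1, ← S.opp_dir h2, S.equiv g _ _ h1.ne.symm]
  · change (if g • v ∈ S.A (g • x) then x.i + S.c g x.w else x.i + S.c g x.w + 1) =
      (if v ∈ S.A x then x.i else x.i + 1) + S.c g x.w
    rw [S.A_smul]
    split_ifs <;> ring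
  · change (if S.Ah (g • x) (g • x') then x.i + S.c g x.w else x.i + S.c g x.w + 1) =
      (if S.Ah x x' then x.i else x.i + 1) + S.c g x.w
    rw [S.Ah_smul]
    split_ifs <;> ring

theorem exists_δ (w : V) : ∃ T : Γ, T • w = w ∧ S.c T w = 0 ∧ 0 < S.deg T ∧
    ∀ g : Γ, g • w = w → S.c g w = 0 → S.deg T ∣ S.deg g := by
  let H : AddSubgroup ℤ :=
    { carrier := {a | ∃ g : Γ, g • w = w ∧ S.c g w = 0 ∧ S.deg g = a}
      add_mem' := by
        rintro _ _ ⟨g, h1, h2, rfl⟩ ⟨g', h3, h4, rfl⟩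
        exact ⟨g * g', by rw [mul_smul, h3, h1], by rw [S.c_mul, h3, h2, h4, add_zero],
          S.deg_mul _ _⟩
      zero_mem' := ⟨1, one_smul _ _, S.c_one _, S.deg_one⟩
      neg_mem' := by
        rintro _ ⟨g, h1, h2, rfl⟩
        obtain ⟨a1, a2, a3⟩ := S.fix_zpow h1 (-1)
        exact ⟨_, a1, by rw [a2, h2, mul_zero], by rw [a3, neg_one_mul]⟩ }
  obtain ⟨a, ha⟩ := Int.subgroup_cyclic H
  have h1 : ∀ x, x ∈ H ↔ a ∣ x := fun x => by
    rw [ha, AddSubgroup.mem_closure_singleton]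
    exact ⟨fun ⟨k, hk⟩ => ⟨k, by rw [← hk, smul_eq_mul, mul_comm]⟩,
      fun ⟨k, hk⟩ => ⟨k, by rw [hk, smul_eq_mul, mul_comm]⟩⟩
  have h2 : a ≠ 0 := by
    rintro rfl
    obtain ⟨T, t1, t2, t3⟩ := S.hyp w
    exact t3.ne' (zero_dvd_iff.1 ((h1 _).1 ⟨T, t1, t2, rfl⟩))
  obtain ⟨T, t1, t2, t3⟩ := (h1 |a|).2 ((dvd_abs _ _).2 dvd_rfl)
  exact ⟨T, t1, t2, t3 ▸ abs_pos.2 h2, fun g g1 g2 =>
    t3 ▸ (abs_dvd _ _).2 ((h1 _).1 ⟨g, g1, g2, rfl⟩)⟩

/-- The degeneracy slope. -/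
noncomputable def δ (w : V) : Γ := (S.exists_δ w).choose

theorem δ_spec (w : V) : S.δ w • w = w ∧ S.c (S.δ w) w = 0 ∧ 0 < S.deg (S.δ w) ∧
    ∀ g : Γ, g • w = w → S.c g w = 0 → S.deg (S.δ w) ∣ S.deg g := (S.exists_δ w).choose_spec

theorem mem_δ (g : Γ) (w : V) : g ∈ Subgroup.zpowers (S.δ w) ↔ g • w = w ∧ S.c g w = 0 := by
  obtain ⟨d1, d2, d3, d4⟩ := S.δ_spec w
  constructor
  · rintro ⟨k, rfl⟩
    obtain ⟨a1, a2, -⟩ := S.fix_zpow d1 k
    exact ⟨a1, by simp only [a2, d2, mul_zero]⟩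
  · rintro ⟨g1, g2⟩
    obtain ⟨k, hk⟩ := d4 g g1 g2
    obtain ⟨a1, a2, a3⟩ := S.fix_zpow d1 (-k)
    have := S.free (g * S.δ w ^ (-k)) w (by rw [mul_smul, a1, g1])
      (by rw [S.c_mul, a1, a2, g2, d2]; ring) (by rw [S.deg_mul, a3, hk]; ring)
    rw [zpow_neg, mul_inv_eq_one] at this
    exact ⟨k, this.symm⟩

theorem conj_spec (g : Γ) {h : Γ} {w : V} (h1 : h • w = w) :
    (g * h * g⁻¹) • g • w = g • w ∧ S.c (g * h * g⁻¹) (g • w) = S.c h w ∧
      S.deg (g * h * g⁻¹) = S.deg h := by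
  refine ⟨by rw [mul_smul, inv_smul_smul, mul_smul, h1], ?_, ?_⟩
  · have := S.c_mul (g * h * g⁻¹) g w
    rw [inv_mul_cancel_right, S.c_mul, h1] at this
    omega
  · have := S.deg_mul (g * h * g⁻¹) g
    rw [inv_mul_cancel_right, S.deg_mul] at this
    omega

theorem δ_conj (g : Γ) (w : V) : S.δ (g • w) = g * S.δ w * g⁻¹ := by
  obtain ⟨d1, d2, d3, d4⟩ := S.δ_spec w
  obtain ⟨e1, e2, e3, e4⟩ := S.δ_spec (g • w)
  obtain ⟨a1, a2, a3⟩ := S.conj_spec g d1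
  obtain ⟨b1, b2, b3⟩ := S.conj_spec g⁻¹ e1
  rw [inv_smul_smul] at b1 b2
  have h1 : S.deg (S.δ (g • w)) = S.deg (S.δ w) :=
    Int.dvd_antisymm e3.le d3.le (a3 ▸ e4 _ a1 (a2.trans d2)) (b3 ▸ d4 _ b1 (b2.trans e2))
  obtain ⟨f1, f2, f3⟩ := S.fix_zpow e1 (-1)
  have := S.free (S.δ (g • w) ^ (-1 : ℤ) * (g * S.δ w * g⁻¹)) (g • w) (by rw [mul_smul, a1, f1])
    (by rw [S.c_mul, a1, f2, a2, e2, d2]; ring) (by rw [S.deg_mul, f3, a3, h1]; ring)
  rwa [zpow_neg_one, inv_mul_eq_one] at this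

theorem δ_tr (x : S.Tr) (k : ℤ) : S.δ x.w ^ k • x = ⟨x.w, x.i, x.l + k * S.deg (S.δ x.w)⟩ := by
  obtain ⟨d1, d2, -⟩ := S.δ_spec x.w
  obtain ⟨a1, a2, a3⟩ := S.fix_zpow d1 k
  rw [S.smul_tr, a1, a2, a3, d2, mul_zero, add_zero]

theorem wb_leP (w : V) (i : ℤ) {l l' : ℤ} (h : l ≤ l') :
    Wb S.dirP (.inl w) (.inr ⟨w, i, l⟩) (.inr ⟨w, i, l'⟩) := by
  induction l', h using Int.leInduction with
  | base => exact wb_right _ _
  | succ k _ ih => exact ih.trans_left S.t1P (S.cut_btwP w i k).wb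

theorem dir_cutP (x : S.Tr) : S.dirP (.inl x.w) (.inr x) = x.i := by
  have h1 : S.Opp x x.w (S.zz x) :=
    ⟨fun k => absurd k (S.w_not_mem x), fun k => absurd (S.zz_mem _) k⟩
  exact (S.opp_dir h1).symm.trans (S.zz_spec x).1.2.1

theorem prongTree : PT.ProngTree S.dirP MU.Tr.w S.δ S.e where
  two := by
    obtain ⟨w⟩ := S.ne
    obtain ⟨v, hv, -⟩ := S.surj w 0
    exact ⟨v, w, hv⟩
  tree a u b h := S.t1P a u b h.1 h.2.1 h.2.2
  finite a b := by simpa only [not_le] using S.finP a b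
  parity := S.parP
  sides x a b _ _ := S.smallP x a b
  e_mul := S.e_mul
  shift g u := by
    refine ⟨_, ?_, S.PAC6_equiv g u⟩
    rcases u with u | x
    · exact S.epar g u
    · exact S.epar g x.w
  own_smul _ _ := rfl
  δ_conj := S.δ_conj
  δ_gen g w := by
    rw [S.mem_δ]
    refine and_congr_right fun hg => ⟨fun k v hv => ?_, fun k => ?_⟩
    · have := S.PAC6_equiv g (.inl w) v hv
      rwa [Sum.smul_inl, hg, Sum.elim_inl, k, add_zero] at this
    · have := S.PAC6_equiv g (.inl w) (.inr ⟨w, 0, 0⟩) Sum.inr_ne_inl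
      rw [Sum.smul_inl, hg, Sum.elim_inl, k _ Sum.inr_ne_inl] at this
      omega
  onto w i := ⟨⟨w, i, 0⟩, rfl, S.dir_cutP ⟨w, i, 0⟩⟩
  straight := S.cut_smallP
  push x := by
    have h1 := S.δ_tr x 1
    have h2 := (S.δ_spec x.w).2.2.1
    rw [zpow_one] at h1
    rw [h1]
    refine ((S.wb_leP x.w x.i (show x.l ≤ x.l + 1 * S.deg (S.δ x.w) by omega)).btw
      Sum.inl_ne_inr fun e => ?_ : Btw _ _ _ _)
    have := congrArg Tr.l (Sum.inr_injective e)
    simp only at this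
    omega
  low x v h1 h2 := by
    obtain ⟨l, hl⟩ := S.lowP x.w v h1
    have h3 := (S.δ_spec x.w).2.2.1
    rw [h2, S.dir_cutP] at hl
    refine ⟨-|x.l - l|, ?_⟩
    rw [S.δ_tr]
    have h4 := S.wb_leP x.w x.i (show x.l + -|x.l - l| * S.deg (S.δ x.w) ≤ l by
      nlinarith [abs_nonneg (x.l - l), le_abs_self (x.l - l)])
    refine ((h4.trans_left S.t1P hl.wb).btw Sum.inl_ne_inr fun e => ?_ : Btw _ _ _ _)
    exact hl.2.1 (e.trans (h4.antisymm S.t1P (e ▸ hl.wb)))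
  high x v := by
    obtain ⟨l, hl⟩ := S.highP x.w x.i v
    have h3 := (S.δ_spec x.w).2.2.1
    refine ⟨|l - x.l|, fun k => hl ?_⟩
    rw [S.δ_tr] at k
    exact (S.wb_leP x.w x.i (show l ≤ x.l + |l - x.l| * S.deg (S.δ x.w) by
      nlinarith [abs_nonneg (l - x.l), le_abs_self (l - x.l)])).trans_left S.t1P (Btw.wb k)

end MU

end Pool.Agent.Work.MP_3d425c_gt.Bor
end

-- merged part: Pool.Agent.Work.MP_3d425c_gt.PB2
section
/-! Prongs as subsets of the geometric realisation. -/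

namespace Pool.Agent.Work.MP_3d425c_gt.Bor
open Classical PA

variable {V : Type} [LinearOrder V]

namespace TH
variable (S : TH V)

/-- The triangles met by the prong. -/
def ChT (w a₀ b₀ : V) (x : V → ℝ) : Prop :=
  OnTri x w a₀ b₀ ∨ ∃ a b c, Leaf S.E S.y w a₀ b₀ a b ∧ cyc a c b ∧ S.E a c ∧ S.E c b ∧
    OnTri x a c b

/-- The prong as a set, without its end point. -/
def Zs (w a₀ b₀ : V) : Set (V → ℝ) :=
  {x | x ∈ Disc S.E ∧ ht S.y x = S.y w ∧ x w < 1 ∧ S.ChT w a₀ b₀ x}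

/-- The level set of `w` without the vertices. -/
def Lv (w : V) : Set (V → ℝ) := {x | x ∈ Disc S.E ∧ ht S.y x = S.y w ∧ ∀ v, x v < 1}

theorem near_apex {w a₀ b₀ a b c : V} (h : Leaf S.E S.y w a₀ b₀ a b) (h1 : S.E a c)
    (h2 : S.E c b) {x : V → ℝ} (hx : OnTri x a c b) : S.ChT w a₀ b₀ x := by
  have hab := (S.leaf_edge h).1
  have sy := S.tri.symm
  rcases cyc_total (S.E_ne h1) (S.E_ne h2) (S.E_ne hab) with k | k
  · exact Or.inr ⟨a, b, c, h, k, h1, h2, hx⟩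
  have k' := cyc_rot k
  cases h with
  | base g1 g2 g3 g4 g5 =>
    obtain rfl := S.apex_unique k' (sy _ _ h2) (sy _ _ h1) (cyc_rot (cyc_rot g4)) (sy _ _ g2) g1
    exact Or.inl fun v hv => by have := hx v hv; tauto
  | @left _ b' _ g0 g1 g2 g3 g4 =>
    obtain rfl := S.apex_unique k' (sy _ _ h2) (sy _ _ h1) (cyc_rot g1) g3
      (sy _ _ (S.leaf_edge g0).1)
    exact Or.inr ⟨_, _, _, g0, g1, g2, g3, fun v hv => by have := hx v hv; tauto⟩
  | @right a' _ _ g0 g1 g2 g3 g4 =>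
    obtain rfl := S.apex_unique k' (sy _ _ h2) (sy _ _ h1) (cyc_rot (cyc_rot g1))
      (sy _ _ (S.leaf_edge g0).1) g2
    exact Or.inr ⟨_, _, _, g0, g1, g2, g3, fun v hv => by have := hx v hv; tauto⟩

theorem PB2_ht_single (y : V → ℝ) (v : V) : ht y (Pi.single v 1) = y v := by
  have h : (Pi.single v 1 : V → ℝ) = bary v v v 1 0 0 := by simp [bary]
  rw [h, ht_bary]
  ring

theorem PB2_ht {x : V → ℝ} (hx : x ∈ Disc S.E) {a b c : V} (h : cyc a b c) (ho : OnTri x a b c) :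
    ht S.y x = x a * S.y a + x b * S.y b + x c * S.y c := by
  rw [← ht_bary, ← (eq_bary S.tri hx h ho).2.2.2.2]

theorem zs_subset {w a₀ b₀ : V} (h : Leaf S.E S.y w a₀ b₀ a₀ b₀) : S.Zs w a₀ b₀ ⊆ S.Lv w := by
  rintro x ⟨h1, h2, h3, h4⟩
  refine ⟨h1, h2, fun v => lt_of_le_of_ne (disc_nonneg S.tri h1 v).2 fun hv => ?_⟩
  have h5 : S.y v = S.y w := by rw [← h2, eq_single S.tri h1 hv, PB2_ht_single]
  have h6 : x v ≠ 0 := by rw [hv]; exact one_ne_zero
  rcases h4 with h4 | ⟨a, b, c, g0, g1, g2, g3, h4⟩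
  · have h7 := S.PAT2_str h
    rcases h4 v h6 with rfl | rfl | rfl
    · exact h3.ne hv
    · simp [h5] at h7
    · simp [h5] at h7
  · have h7 := S.PAT2_str g0
    rcases h4 v h6 with rfl | rfl | rfl
    · simp [h5] at h7
    · exact S.nos _ _ _ _ _ _ g0 g1 g2 g3 h5
    · simp [h5] at h7

/-- The part of a level set in a closed triangle. -/
def PB2K (w a b c : V) : Set (V → ℝ) := {x | x ∈ Disc S.E ∧ ht S.y x = S.y w ∧ OnTri x a b c}

theorem PB2_convex (w : V) {a b c : V} (h : cyc a b c) (h1 : S.E a b) (h2 : S.E b c)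
    (h3 : S.E a c) : Convex ℝ (S.PB2K w a b c) := by
  rintro x ⟨x1, x2, x3⟩ z ⟨z1, z2, z3⟩ s t hs ht' hst
  obtain ⟨p1, p2, p3, p4, p5⟩ := eq_bary S.tri x1 h x3
  obtain ⟨q1, q2, q3, q4, q5⟩ := eq_bary S.tri z1 h z3
  have e : s • x + t • z =
      bary a b c (s * x a + t * z a) (s * x b + t * z b) (s * x c + t * z c) := by
    conv_lhs => rw [p5, q5]
    ext v
    simp only [bary, Pi.add_apply, Pi.smul_apply, smul_eq_mul, Pi.single_apply]
    split_ifs <;> ring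
  rw [S.PB2_ht x1 h x3] at x2
  rw [S.PB2_ht z1 h z3] at z2
  refine ⟨(mem_disc S.tri).2 ⟨a, b, c, _, _, _, h1, h2, h3, h, by positivity, by positivity,
    by positivity, by linear_combination s * p4 + t * q4 + hst, e⟩, ?_, fun v hv => ?_⟩
  · rw [e, ht_bary]
    linear_combination s * x2 + t * z2 + S.y w * hst
  · by_cases hx : x v = 0
    · refine z3 v fun hz => hv ?_
      simp [hx, hz]
    · exact x3 v hx

theorem PB2_convex' (w : V) {a b c : V} (h : cyc a b c) (h1 : S.E a b) (h2 : S.E b c)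
    (h3 : S.E a c) : Convex ℝ (S.PB2K w a b c ∩ {x | x w < 1}) :=
  (S.PB2_convex w h h1 h2 h3).inter
    ((convex_Iio (1 : ℝ)).linear_preimage (LinearMap.proj w : (V → ℝ) →ₗ[ℝ] ℝ))

/-- The point of given height on an edge. -/
theorem PB2_point {w a b : V} (h : S.E a b) (hs : (S.y a - S.y w) * (S.y b - S.y w) < 0) :
    ∃ z ∈ Disc S.E, ht S.y z = S.y w ∧ ∀ v, z v ≠ 0 → v = a ∨ v = b := by
  obtain ⟨c, k, e1, e2⟩ := S.tri.apex a b h
  have hne : S.y a - S.y b ≠ 0 := sub_ne_zero.2 (S.hy a b h)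
  have h1 : 0 ≤ (S.y w - S.y b) / (S.y a - S.y b) := by
    rw [div_nonneg_iff]
    simp only [mul_neg_iff] at hs
    grind
  have h2 : 0 ≤ (S.y a - S.y w) / (S.y a - S.y b) := by
    rw [div_nonneg_iff]
    simp only [mul_neg_iff] at hs
    grind
  refine ⟨bary a c b ((S.y w - S.y b) / (S.y a - S.y b)) 0 ((S.y a - S.y w) / (S.y a - S.y b)),
    (mem_disc S.tri).2 ⟨a, c, b, _, _, _, e1, e2, h, k, h1, le_rfl, h2, ?_, rfl⟩, ?_,
    fun v hv => ?_⟩
  · field_simp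
    ring
  · rw [ht_bary]
    field_simp
    ring
  · by_contra hn
    rw [not_or] at hn
    exact hv (by simp [bary, hn.1, hn.2])

theorem PB2_leaf_point {w a₀ b₀ a b : V} (h : Leaf S.E S.y w a₀ b₀ a b) :
    ∃ z ∈ Disc S.E, ht S.y z = S.y w ∧ z w = 0 ∧ ∀ v, z v ≠ 0 → v = a ∨ v = b := by
  obtain ⟨h1, h2, -⟩ := S.leaf_edge h
  obtain ⟨z, z1, z2, z3⟩ := S.PB2_point h1 (S.PAT2_str h)
  refine ⟨z, z1, z2, ?_, z3⟩
  by_contra hz
  exact (z3 w hz).elim (cyc_ne h2).1 (cyc_ne h2).2.2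

theorem zs_preconnected {w a₀ b₀ : V} (h : Leaf S.E S.y w a₀ b₀ a₀ b₀) :
    IsPreconnected (S.Zs w a₀ b₀) := by
  obtain ⟨x₀, x1, x2, x3, x4⟩ := S.PB2_leaf_point h
  have join : ∀ {K : Set (V → ℝ)} {z x : V → ℝ}, Convex ℝ K → K ⊆ S.Zs w a₀ b₀ → z ∈ K → x ∈ K →
      (∃ t, t ⊆ S.Zs w a₀ b₀ ∧ x₀ ∈ t ∧ z ∈ t ∧ IsPreconnected t) →
      ∃ t, t ⊆ S.Zs w a₀ b₀ ∧ x₀ ∈ t ∧ x ∈ t ∧ IsPreconnected t := by
    rintro K z x hK hKZ hz hx ⟨t, t1, t2, t3, t4⟩
    exact ⟨t ∪ K, Set.union_subset t1 hKZ, Or.inl t2, Or.inr hx,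
      t4.union z t3 hz hK.isPreconnected⟩
  have sub : ∀ {a b c : V}, Leaf S.E S.y w a₀ b₀ a b → cyc a c b → S.E a c → S.E c b →
      S.PB2K w a c b ∩ {x | x w < 1} ⊆ S.Zs w a₀ b₀ := fun g0 g1 g2 g3 x hx =>
    ⟨hx.1.1, hx.1.2.1, hx.2, Or.inr ⟨_, _, _, g0, g1, g2, g3, hx.1.2.2⟩⟩
  have h0 : ∃ t, t ⊆ S.Zs w a₀ b₀ ∧ x₀ ∈ t ∧ x₀ ∈ t ∧ IsPreconnected t :=
    ⟨{x₀}, Set.singleton_subset_iff.2 ⟨x1, x2, by rw [x3]; exact one_pos,
      Or.inl fun v hv => Or.inr (x4 v hv)⟩, rfl, rfl, isPreconnected_singleton⟩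
  have key : ∀ {a b : V}, Leaf S.E S.y w a₀ b₀ a b → ∃ z ∈ Disc S.E, ht S.y z = S.y w ∧ z w < 1 ∧
      (∀ v, z v ≠ 0 → v = a ∨ v = b) ∧
      ∃ t, t ⊆ S.Zs w a₀ b₀ ∧ x₀ ∈ t ∧ z ∈ t ∧ IsPreconnected t := by
    intro a b g
    induction g with
    | base => exact ⟨x₀, x1, x2, by rw [x3]; exact one_pos, x4, h0⟩
    | left g0 g1 g2 g3 g4 ih =>
      obtain ⟨z, z1, z2, z3, z4, z5⟩ := ih
      obtain ⟨u, u1, u2, u3, u4⟩ := S.PB2_leaf_point (g0.left g1 g2 g3 g4)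
      have u5 : u w < 1 := by rw [u3]; exact one_pos
      exact ⟨u, u1, u2, u5, u4, join (S.PB2_convex' w g1 g2 g3 (S.leaf_edge g0).1)
        (sub g0 g1 g2 g3) ⟨⟨z1, z2, fun v hv => by have := z4 v hv; tauto⟩, z3⟩
        ⟨⟨u1, u2, fun v hv => by have := u4 v hv; tauto⟩, u5⟩ z5⟩
    | right g0 g1 g2 g3 g4 ih =>
      obtain ⟨z, z1, z2, z3, z4, z5⟩ := ih
      obtain ⟨u, u1, u2, u3, u4⟩ := S.PB2_leaf_point (g0.right g1 g2 g3 g4)
      have u5 : u w < 1 := by rw [u3]; exact one_pos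
      exact ⟨u, u1, u2, u5, u4, join (S.PB2_convex' w g1 g2 g3 (S.leaf_edge g0).1)
        (sub g0 g1 g2 g3) ⟨⟨z1, z2, fun v hv => by have := z4 v hv; tauto⟩, z3⟩
        ⟨⟨u1, u2, fun v hv => by have := u4 v hv; tauto⟩, u5⟩ z5⟩
  refine isPreconnected_of_forall x₀ ?_
  rintro x ⟨y1, y2, y3, y4 | ⟨a, b, c, g0, g1, g2, g3, y4⟩⟩
  · obtain ⟨⟨e1, e2, e3, e4⟩, -⟩ := S.leaf_base h
    exact join (S.PB2_convex' w e4 e1 e3 e2)
      (fun x hx => ⟨hx.1.1, hx.1.2.1, hx.2, Or.inl hx.1.2.2⟩)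
      ⟨⟨x1, x2, fun v hv => Or.inr (x4 v hv)⟩, show x₀ w < 1 by rw [x3]; exact one_pos⟩
      ⟨⟨y1, y2, y4⟩, y3⟩ h0
  · obtain ⟨z, z1, z2, z3, z4, z5⟩ := key g0
    exact join (S.PB2_convex' w g1 g2 g3 (S.leaf_edge g0).1) (sub g0 g1 g2 g3)
      ⟨⟨z1, z2, fun v hv => by have := z4 v hv; tauto⟩, z3⟩ ⟨⟨y1, y2, y4⟩, y3⟩ z5

/-- A point of the level set on an edge. -/
theorem PB2_straddle {w p q : V} {x : V → ℝ} (hx : x ∈ S.Lv w) (h : S.E p q)
    (hs : ∀ v, x v ≠ 0 → v = p ∨ v = q) :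
    x p ≠ 0 ∧ x q ≠ 0 ∧ (S.y p - S.y w) * (S.y q - S.y w) < 0 := by
  obtain ⟨c, k, -, -⟩ := S.tri.apex p q h
  obtain ⟨x1, x2, x3⟩ := hx
  have ho : OnTri x p c q := fun v hv => by have := hs v hv; tauto
  have hc : x c = 0 := by
    by_contra hc
    exact (hs c hc).elim (cyc_ne k).1.symm (cyc_ne k).2.1
  obtain ⟨-, -, -, p4, -⟩ := eq_bary S.tri x1 k ho
  rw [S.PB2_ht x1 k ho, hc] at x2
  have hp : 0 < x p := by linarith [x3 q]
  have hq : 0 < x q := by linarith [x3 p]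
  refine ⟨hp.ne', hq.ne', ?_⟩
  have e1 : S.y p - S.y w = x q * (S.y p - S.y q) := by
    linear_combination x2 - S.y p * p4 + S.y p * hc
  have e2 : S.y q - S.y w = -(x p * (S.y p - S.y q)) := by
    linear_combination x2 - S.y q * p4 + S.y q * hc
  have e3 := mul_self_pos.2 (sub_ne_zero.2 (S.hy p q h))
  have e4 := mul_pos (mul_pos hp hq) e3
  rw [e1, e2]
  linarith

theorem PB2_edge {w a₀ b₀ p q : V} (h : Leaf S.E S.y w a₀ b₀ p q) {x : V → ℝ}
    (hx : x ∈ Disc S.E) (hp : x p ≠ 0) (hq : x q ≠ 0) : S.ChT w a₀ b₀ x := by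
  obtain ⟨a, b, e1, e2, e3, -, ho⟩ := exists_tri S.tri hx hp
  rcases ho q hq with rfl | rfl | rfl
  · exact absurd rfl (S.E_ne (S.leaf_edge h).1)
  · exact S.near_apex h e2 (S.tri.symm _ _ e3) fun v hv => by have := ho v hv; tauto
  · exact S.near_apex h e1 e3 ho

theorem PB2_three {p q r : V} (k : cyc p q r) {x : V → ℝ} (hx : x ∈ Disc S.E) (hp : x p ≠ 0)
    (hq : x q ≠ 0) (hr : x r ≠ 0) : OnTri x p q r := by
  obtain ⟨a, b, -, -, -, -, ho⟩ := exists_tri S.tri hx hp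
  intro v hv
  have h1 := ho q hq
  have h2 := ho r hr
  have h3 := ho v hv
  have h4 := cyc_ne k
  grind

omit [LinearOrder V] in
theorem PB2_cases {x : V → ℝ} {p q r : V} (ho : OnTri x p q r) :
    (x p ≠ 0 ∧ x q ≠ 0 ∧ x r ≠ 0) ∨ (∀ v, x v ≠ 0 → v = q ∨ v = r) ∨
      (∀ v, x v ≠ 0 → v = p ∨ v = r) ∨ (∀ v, x v ≠ 0 → v = p ∨ v = q) := by
  unfold OnTri at ho
  grind

theorem zs_open {w a₀ b₀ : V} (h : Leaf S.E S.y w a₀ b₀ a₀ b₀) {x : V → ℝ}
    (hx : x ∈ S.Zs w a₀ b₀) : S.Zs w a₀ b₀ ∈ nhdsWithin x (S.Lv w) := by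
  have hL := S.zs_subset h hx
  obtain ⟨x1, x2, x3, x4⟩ := hx
  have main : ∀ z ∈ Disc S.E, (∀ v, x v ≠ 0 → z v ≠ 0) → S.ChT w a₀ b₀ z := by
    intro z hz hs
    rcases x4 with x4 | ⟨a, b, c, g0, g1, g2, g3, x4⟩
    · obtain ⟨⟨e1, e2, e3, e4⟩, -⟩ := S.leaf_base h
      rcases PB2_cases x4 with k | k | k | k
      · exact Or.inl (S.PB2_three e4 hz (hs _ k.1) (hs _ k.2.1) (hs _ k.2.2))
      · obtain ⟨k1, k2, -⟩ := S.PB2_straddle hL e3 k
        exact S.PB2_edge h hz (hs _ k1) (hs _ k2)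
      · simpa using (S.PB2_straddle hL e2 k).2.2
      · simpa using (S.PB2_straddle hL e1 k).2.2
    · rcases PB2_cases x4 with k | k | k | k
      · exact Or.inr ⟨a, b, c, g0, g1, g2, g3,
          S.PB2_three g1 hz (hs _ k.1) (hs _ k.2.1) (hs _ k.2.2)⟩
      · obtain ⟨k1, k2, k3⟩ := S.PB2_straddle hL g3 k
        exact S.PB2_edge (g0.right g1 g2 g3 k3) hz (hs _ k1) (hs _ k2)
      · obtain ⟨k1, k2, -⟩ := S.PB2_straddle hL (S.leaf_edge g0).1 k
        exact S.PB2_edge g0 hz (hs _ k1) (hs _ k2)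
      · obtain ⟨k1, k2, k3⟩ := S.PB2_straddle hL g2 k
        exact S.PB2_edge (g0.left g1 g2 g3 k3) hz (hs _ k1) (hs _ k2)
  have hfin : {v | x v ≠ 0}.Finite := by
    rcases x4 with x4 | ⟨a, b, c, -, -, -, -, x4⟩
    · exact (Set.toFinite {w, a₀, b₀}).subset x4
    · exact (Set.toFinite {a, c, b}).subset x4
  have hev : ∀ᶠ z in nhds x, ∀ v ∈ {v | x v ≠ 0}, z v ≠ 0 :=
    (Filter.eventually_all_finite hfin).2 fun v hv =>
      (continuous_apply v).continuousAt.eventually_ne hv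
  filter_upwards [self_mem_nhdsWithin, mem_nhdsWithin_of_mem_nhds hev] with z hz hs
  exact ⟨hz.1, hz.2.1, hz.2.2 w, main z hz.1 hs⟩

theorem zs_near {w a₀ b₀ : V} (h : Leaf S.E S.y w a₀ b₀ a₀ b₀) :
    (Pi.single w 1 : V → ℝ) ∈ closure (S.Zs w a₀ b₀) := by
  obtain ⟨z, z1, z2, z3, z4⟩ := S.PB2_leaf_point h
  obtain ⟨⟨e1, e2, e3, e4⟩, -⟩ := S.leaf_base h
  refine closure_mono ?_ (segment_subset_closure_openSegment (𝕜 := ℝ) (left_mem_segment ℝ _ z))
  intro x hx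
  have h1 : x ∈ S.PB2K w w a₀ b₀ := by
    refine (S.PB2_convex w e4 e1 e3 e2).openSegment_subset
      ⟨single_mem S.tri w, PB2_ht_single _ _, fun v hv => Or.inl ?_⟩
      ⟨z1, z2, fun v hv => Or.inr (z4 v hv)⟩ hx
    by_contra hn
    exact hv (Pi.single_eq_of_ne hn _)
  refine ⟨h1.1, h1.2.1, ?_, Or.inl h1.2.2⟩
  obtain ⟨s, t, hs, ht', hst, rfl⟩ := hx
  simp only [Pi.add_apply, Pi.smul_apply, Pi.single_eq_same, z3, smul_eq_mul]
  linarith

theorem exists_zs {w : V} {x : V → ℝ} (hx : x ∈ S.Lv w) (h : x w ≠ 0) :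
    ∃ a₀ b₀, Leaf S.E S.y w a₀ b₀ a₀ b₀ ∧ x ∈ S.Zs w a₀ b₀ := by
  obtain ⟨x1, x2, x3⟩ := hx
  obtain ⟨a, b, e1, e2, e3, k, ho⟩ := exists_tri S.tri x1 h
  refine ⟨a, b, .base e1 e2 e3 k ?_, x1, x2, x3 w, Or.inl ho⟩
  obtain ⟨-, p2, p3, p4, -⟩ := eq_bary S.tri x1 k ho
  rw [S.PB2_ht x1 k ho] at x2
  have e : x a * (S.y a - S.y w) + x b * (S.y b - S.y w) = 0 := by
    linear_combination x2 - S.y w * p4
  have ha := sub_ne_zero.2 (S.hy w a e1).symm
  have hb := sub_ne_zero.2 (S.hy w b e2).symm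
  have hw := x3 w
  generalize S.y a - S.y w = α at *
  generalize S.y b - S.y w = β at *
  have h1 : x a * (α * β) = -(x b * (β * β)) := by linear_combination β * e
  have h2 : x b * (α * β) = -(x a * (α * α)) := by linear_combination α * e
  have h3 := mul_self_pos.2 ha
  have h4 := mul_self_pos.2 hb
  by_contra hn
  have hn := not_lt.1 hn
  have h5 := mul_nonneg p2 hn
  have h6 := mul_nonneg p3 hn
  have h7 : x b ≤ 0 := by
    by_contra h8
    have := mul_pos (not_le.1 h8) h4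
    linarith
  have h8 : x a ≤ 0 := by
    by_contra h8
    have := mul_pos (not_le.1 h8) h3
    linarith
  linarith

end TH

end Pool.Agent.Work.MP_3d425c_gt.Bor
end

-- merged part: Pool.Agent.Work.MP_3d425c_gt.PB2b
section
/-! The two sides of a prong in the geometric realisation. -/

namespace Pool.Agent.Work.MP_3d425c_gt.Bor
open Classical PA

variable {V : Type} [LinearOrder V]

namespace TH
variable (S : TH V)

/-- The weights of the vertices used to separate the two sides. -/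
noncomputable def PB2b_phi (w a₀ b₀ v : V) : ℝ :=
  if ∃ a b, Leaf S.E S.y w a₀ b₀ a b ∧ (v = a ∨ v = b) then (S.y a₀ - S.y w) * (S.y v - S.y w)
  else if v ∈ S.Lf w a₀ b₀ then 1 else if v ∈ S.Rt w a₀ b₀ then -1 else 0

theorem PB2b_disj {w a₀ b₀ u : V} (h1 : u ∈ S.Lf w a₀ b₀) (h2 : u ∈ S.Rt w a₀ b₀) : False :=
  (cyc_ne (S.lf_lt_rt h1 h2)).2.1 rfl

theorem PB2b_lf_ne {w a₀ b₀ : V} (h1 : w ∈ S.Lf w a₀ b₀) : False := by
  obtain ⟨a, b, h, h1 | h1⟩ := h1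
  · exact (cyc_ne (S.leaf_edge h).2.1).1 h1
  · exact (cyc_ne h1).1 rfl

theorem PB2b_rt_ne {w a₀ b₀ : V} (h1 : w ∈ S.Rt w a₀ b₀) : False := by
  obtain ⟨a, b, h, h1 | h1⟩ := h1
  · exact (cyc_ne (S.leaf_edge h).2.1).2.2 h1.symm
  · exact (cyc_ne h1).2.2 rfl

theorem PB2b_pos {w a₀ b₀ u : V} (h1 : u ∈ S.Lf w a₀ b₀) : 0 < S.PB2b_phi w a₀ b₀ u := by
  unfold PB2b_phi
  split_ifs with h
  · obtain ⟨a, b, h, rfl | rfl⟩ := h
    · rw [mul_comm]
      exact (S.leaf_edge h).2.2.2.2.1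
    · exact (S.PB2b_disj h1 ⟨a, u, h, Or.inl rfl⟩).elim
  · exact one_pos

theorem PB2b_neg {w a₀ b₀ u : V} (h1 : u ∈ S.Rt w a₀ b₀) : S.PB2b_phi w a₀ b₀ u < 0 := by
  unfold PB2b_phi
  split_ifs with h h2
  · obtain ⟨a, b, h, rfl | rfl⟩ := h
    · exact (S.PB2b_disj ⟨u, b, h, Or.inl rfl⟩ h1).elim
    · have k1 := (S.leaf_edge h).2.2.2.2.2
      have k2 := (S.leaf_base h).2
      by_contra k3
      have k4 := mul_nonneg (not_lt.1 k3) (mul_self_nonneg (S.y b₀ - S.y w))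
      have k5 := mul_neg_of_neg_of_pos k2 k1
      linarith
  · exact (S.PB2b_disj h2 h1).elim
  · norm_num

theorem PB2b_w (w a₀ b₀ : V) : S.PB2b_phi w a₀ b₀ w = 0 := by
  unfold PB2b_phi
  split_ifs with h h2 h3
  · simp
  · exact (S.PB2b_lf_ne h2).elim
  · exact (S.PB2b_rt_ne h3).elim
  · rfl

theorem PB2b_end {w a₀ b₀ a b v : V} (h : Leaf S.E S.y w a₀ b₀ a b) (hv : v = a ∨ v = b) :
    S.PB2b_phi w a₀ b₀ v = (S.y a₀ - S.y w) * (S.y v - S.y w) :=
  if_pos ⟨a, b, h, hv⟩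

theorem PB2b_single (ψ : V → ℝ) (u : V) : ht ψ (Pi.single u 1) = ψ u := by
  have := ht_bary ψ u u u 1 0 0
  simpa [bary] using this

theorem PB2b_tri {ψ : V → ℝ} {x : V → ℝ} (hx : x ∈ Disc S.E) {a b c : V} (h : cyc a b c)
    (ho : OnTri x a b c) : ht ψ x = x a * ψ a + x b * ψ b + x c * ψ c := by
  have := (eq_bary S.tri hx h ho).2.2.2.2
  rw [← ht_bary, ← this]

theorem PB2b_cht {w a₀ b₀ : V} (h : Leaf S.E S.y w a₀ b₀ a₀ b₀) {x : V → ℝ} (hx : x ∈ Disc S.E)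
    (hc : S.ChT w a₀ b₀ x) :
    ht (S.PB2b_phi w a₀ b₀) x = (S.y a₀ - S.y w) * (ht S.y x - S.y w) := by
  rcases hc with ho | ⟨a, b, c, hl, h1, h2, h3, ho⟩
  · have hc := (S.leaf_base h).1.2.2.2
    have e := (eq_bary S.tri hx hc ho).2.2.2.1
    rw [S.PB2b_tri hx hc ho, S.PB2b_tri hx hc ho, S.PB2b_w, S.PB2b_end h (Or.inl rfl),
      S.PB2b_end h (Or.inr rfl)]
    linear_combination (-(S.y a₀ - S.y w) * S.y w) * e
  · have e := (eq_bary S.tri hx h1 ho).2.2.2.1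
    have hn := S.nos w a₀ b₀ a b c hl h1 h2 h3
    have hs := S.PAT2_str hl
    have ec : S.PB2b_phi w a₀ b₀ c = (S.y a₀ - S.y w) * (S.y c - S.y w) := by
      by_cases k : (S.y a - S.y w) * (S.y c - S.y w) < 0
      · exact S.PB2b_end (hl.left h1 h2 h3 k) (Or.inr rfl)
      · refine S.PB2b_end (hl.right h1 h2 h3 ?_) (Or.inl rfl)
        by_contra k'
        have k1 := mul_nonneg (not_lt.1 k) (not_lt.1 k')
        have k2 := mul_neg_of_neg_of_pos hs (mul_self_pos.2 (sub_ne_zero.2 hn))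
        linarith
    rw [S.PB2b_tri hx h1 ho, S.PB2b_tri hx h1 ho, ec, S.PB2b_end hl (Or.inl rfl),
      S.PB2b_end hl (Or.inr rfl)]
    linear_combination (-(S.y a₀ - S.y w) * S.y w) * e

theorem PB2b_ontri {x : V → ℝ} (hx : x ∈ Disc S.E) :
    ∃ a b c, S.E a b ∧ S.E b c ∧ S.E a c ∧ cyc a b c ∧ OnTri x a b c := by
  obtain ⟨a, b, c, s, t, u, h1, h2, h3, h4, -, -, -, -, rfl⟩ := (mem_disc S.tri).1 hx
  refine ⟨a, b, c, h1, h2, h3, h4, fun v hv => ?_⟩
  by_contra k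
  push Not at k
  exact hv (by simp [bary, k.1, k.2.1, k.2.2])

theorem PB2b_sign {ψ : V → ℝ} {σ : ℝ} {w : V} {x : V → ℝ} (hx : x ∈ Disc S.E) (hw : ψ w = 0)
    (hψ : ∀ v, x v ≠ 0 → v ≠ w → 0 < σ * ψ v) (hne : x ≠ Pi.single w 1) : 0 < σ * ht ψ x := by
  obtain ⟨a, b, c, -, -, -, hc, ho⟩ := S.PB2b_ontri hx
  have e := (eq_bary S.tri hx hc ho).2.2.2.1
  have k1 : ∀ v, x v ≠ 0 → v ≠ w → 0 < x v * (σ * ψ v) := fun v h1 h2 =>
    mul_pos (lt_of_le_of_ne (disc_nonneg S.tri hx v).1 h1.symm) (hψ v h1 h2)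
  have k2 : ∀ v, 0 ≤ x v * (σ * ψ v) := by
    intro v
    by_cases h1 : x v = 0
    · simp [h1]
    by_cases h2 : v = w
    · simp [h2, hw]
    · exact (k1 v h1 h2).le
  obtain ⟨v, h1, h2⟩ : ∃ v, x v ≠ 0 ∧ v ≠ w := by
    by_contra k
    push Not at k
    have k' : ∀ v, v ≠ w → x v = 0 := fun v hv => by_contra fun h => hv (k v h)
    obtain ⟨n1, n2, n3⟩ := cyc_ne hc
    refine hne (eq_single S.tri hx ?_)
    by_cases ha : a = w
    · subst ha
      rw [k' b n1.symm, k' c n3.symm] at e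
      linarith
    by_cases hb : b = w
    · subst hb
      rw [k' a ha, k' c n2.symm] at e
      linarith
    by_cases hc : c = w
    · subst hc
      rw [k' a ha, k' b hb] at e
      linarith
    · rw [k' a ha, k' b hb, k' c hc] at e
      norm_num at e
  have k3 := k1 v h1 h2
  have ka := k2 a
  have kb := k2 b
  have kc := k2 c
  rw [S.PB2b_tri hx hc ho]
  rcases ho v h1 with rfl | rfl | rfl <;> linarith

theorem PB2b_third {x : V → ℝ} (hx : x ∈ Disc S.E) {l r : V} (hlr : l ≠ r) (hl : x l ≠ 0)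
    (hr : x r ≠ 0) : ∃ c, S.E l c ∧ S.E c r ∧ OnTri x l c r := by
  obtain ⟨a, b, c, h1, h2, h3, -, ho⟩ := S.PB2b_ontri hx
  have sy := S.tri.symm
  rcases ho l hl with rfl | rfl | rfl <;> rcases ho r hr with rfl | rfl | rfl
  · exact absurd rfl hlr
  · exact ⟨c, h3, sy _ _ h2, fun v hv => by have := ho v hv; tauto⟩
  · exact ⟨b, h1, h2, ho⟩
  · exact ⟨c, h2, sy _ _ h3, fun v hv => by have := ho v hv; tauto⟩
  · exact absurd rfl hlr
  · exact ⟨a, sy _ _ h1, h3, fun v hv => by have := ho v hv; tauto⟩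
  · exact ⟨b, sy _ _ h2, sy _ _ h1, fun v hv => by have := ho v hv; tauto⟩
  · exact ⟨a, sy _ _ h3, h1, fun v hv => by have := ho v hv; tauto⟩
  · exact absurd rfl hlr

theorem PB2b_zero {w a₀ b₀ : V} (h : Leaf S.E S.y w a₀ b₀ a₀ b₀) {x : V → ℝ}
    (hx : x ∈ Disc S.E) :
    ht (S.PB2b_phi w a₀ b₀) x = 0 ↔ x ∈ S.Zs w a₀ b₀ ∨ x = Pi.single w 1 := by
  constructor
  · intro h0
    by_cases hne : x = Pi.single w 1
    · exact Or.inr hne
    left
    by_cases hl : ∃ l ∈ S.Lf w a₀ b₀, x l ≠ 0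
    · by_cases hr : ∃ r ∈ S.Rt w a₀ b₀, x r ≠ 0
      · obtain ⟨l, hl, hl'⟩ := hl
        obtain ⟨r, hr, hr'⟩ := hr
        have hlr : l ≠ r := fun e => S.PB2b_disj hl (e ▸ hr)
        obtain ⟨c, h1, h2, h3⟩ := S.PB2b_third hx hlr hl' hr'
        have hc := S.near_apex (S.leaf_of_edge (adj_of_pos S.tri hx hlr hl' hr') hl hr) h1 h2 h3
        rw [S.PB2b_cht h hx hc] at h0
        have hs : S.y a₀ - S.y w ≠ 0 := left_ne_zero_of_mul (S.leaf_base h).2.ne
        refine ⟨hx, sub_eq_zero.1 ((mul_eq_zero.1 h0).resolve_left hs), ?_, hc⟩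
        exact lt_of_le_of_ne (disc_nonneg S.tri hx w).2 fun e => hne (eq_single S.tri hx e)
      · have := S.PB2b_sign (σ := 1) hx (S.PB2b_w w a₀ b₀) (fun v h1 h2 => by
          rw [one_mul]
          exact S.PB2b_pos ((S.lf_or_rt h h2).resolve_right fun k => hr ⟨v, k, h1⟩)) hne
        linarith
    · have := S.PB2b_sign (σ := -1) hx (S.PB2b_w w a₀ b₀) (fun v h1 h2 => by
        have := S.PB2b_neg ((S.lf_or_rt h h2).resolve_left fun k => hl ⟨v, k, h1⟩)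
        linarith) hne
      linarith
  · rintro (hz | rfl)
    · rw [S.PB2b_cht h hx hz.2.2.2, hz.2.1, sub_self, mul_zero]
    · rw [PB2b_single, S.PB2b_w]

/-- One of the two sides. -/
def PB2b_side (w a₀ b₀ : V) (A : Set V) : Prop := A = S.Lf w a₀ b₀ ∨ A = S.Rt w a₀ b₀

theorem PB2b_mem {w a₀ b₀ : V} (h : Leaf S.E S.y w a₀ b₀ a₀ b₀) {A : Set V}
    (hA : S.PB2b_side w a₀ b₀ A) {x : V → ℝ} (hx : x ∈ Disc S.E) (hs : ∀ v, x v ≠ 0 → v ∈ A) :
    x ∈ Disc S.E \ (S.Zs w a₀ b₀ ∪ {Pi.single w 1}) := by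
  refine ⟨hx, fun k => ?_⟩
  have h0 := (S.PB2b_zero h hx).2 k
  have hw : w ∉ A := by
    rcases hA with rfl | rfl
    · exact S.PB2b_lf_ne
    · exact S.PB2b_rt_ne
  have hne : x ≠ Pi.single w 1 := fun e => hw (hs w (by simp [e]))
  rcases hA with rfl | rfl
  · have := S.PB2b_sign (σ := 1) hx (S.PB2b_w w a₀ b₀) (fun v h1 _ => by
      rw [one_mul]
      exact S.PB2b_pos (hs v h1)) hne
    linarith
  · have := S.PB2b_sign (σ := -1) hx (S.PB2b_w w a₀ b₀) (fun v h1 _ => by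
      have := S.PB2b_neg (hs v h1)
      linarith) hne
    linarith

/-- Joined off the prong. -/
def PB2b_J (w a₀ b₀ u v : V) : Prop :=
  JoinedIn (Disc S.E \ (S.Zs w a₀ b₀ ∪ {Pi.single w 1})) (Pi.single u 1) (Pi.single v 1)

theorem PB2b_refl {w a₀ b₀ : V} (h : Leaf S.E S.y w a₀ b₀ a₀ b₀) {A : Set V}
    (hA : S.PB2b_side w a₀ b₀ A) {u : V} (hu : u ∈ A) : S.PB2b_J w a₀ b₀ u u := by
  refine JoinedIn.refl (S.PB2b_mem h hA (single_mem S.tri u) fun v hv => ?_)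
  by_cases e : v = u
  · exact e ▸ hu
  · exact absurd (Pi.single_eq_of_ne e _) hv

theorem PB2b_edge {w a₀ b₀ : V} (h : Leaf S.E S.y w a₀ b₀ a₀ b₀) {A : Set V}
    (hA : S.PB2b_side w a₀ b₀ A) {p q : V} (he : S.E p q) (hp : p ∈ A) (hq : q ∈ A) :
    S.PB2b_J w a₀ b₀ p q := by
  refine JoinedIn.of_segment_subset fun x hx => S.PB2b_mem h hA ?_ fun v hv => ?_
  · obtain ⟨c, -, h1, h2⟩ := S.tri.apex p q he
    exact ⟨p, q, c, he, S.tri.symm _ _ h2, S.tri.symm _ _ h1,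
      segment_subset_convexHull (by simp) (by simp) hx⟩
  · obtain ⟨s, t, -, -, -, rfl⟩ := hx
    by_cases e : v = p
    · exact e ▸ hp
    by_cases e' : v = q
    · exact e' ▸ hq
    · exact absurd (by simp [e, e']) hv

theorem PB2b_arcR {w a₀ b₀ : V} (h : Leaf S.E S.y w a₀ b₀ a₀ b₀) {A : Set V}
    (hA : S.PB2b_side w a₀ b₀ A) (u : V) : ∀ p q, S.E p q → cyc p u q →
      (∀ z, cyc p z q ∨ z = q → z ∈ A) → S.PB2b_J w a₀ b₀ u q := by
  refine S.desc u _ fun p q c _ h2 h3 _ h5 i1 i2 hz => ?_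
  have e := S.PB2b_edge h hA h5 (hz c (Or.inl h3)) (hz q (Or.inr rfl))
  rcases PAT1_e h2 h3 with rfl | k | k
  · exact e
  · refine JoinedIn.trans (i1 k fun z k' => hz z (Or.inl ?_)) e
    rcases k' with k' | rfl
    · exact PAT1_c h3 k'
    · exact h3
  · exact i2 k fun z k' => hz z (k'.imp_left (PAT1_d h3))

theorem PB2b_arcL {w a₀ b₀ : V} (h : Leaf S.E S.y w a₀ b₀ a₀ b₀) {A : Set V}
    (hA : S.PB2b_side w a₀ b₀ A) (u : V) : ∀ p q, S.E p q → cyc p u q →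
      (∀ z, cyc p z q ∨ z = p → z ∈ A) → S.PB2b_J w a₀ b₀ u p := by
  refine S.desc u _ fun p q c _ h2 h3 h4 _ i1 i2 hz => ?_
  have e := S.PB2b_edge h hA (S.tri.symm _ _ h4) (hz c (Or.inl h3)) (hz p (Or.inr rfl))
  rcases PAT1_e h2 h3 with rfl | k | k
  · exact e
  · exact i1 k fun z k' => hz z (k'.imp_left (PAT1_c h3))
  · refine JoinedIn.trans (i2 k fun z k' => hz z (Or.inl ?_)) e
    rcases k' with k' | rfl
    · exact PAT1_d h3 k'
    · exact h3

theorem PB2b_left {w a₀ b₀ a b : V} (h : Leaf S.E S.y w a₀ b₀ a₀ b₀)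
    (hl : Leaf S.E S.y w a₀ b₀ a b) : ∀ u, u = a ∨ cyc w u a → S.PB2b_J w a₀ b₀ u a₀ := by
  have hA : S.PB2b_side w a₀ b₀ (S.Lf w a₀ b₀) := Or.inl rfl
  induction hl with
  | base h1 =>
    rintro u (rfl | hu)
    · exact S.PB2b_refl h hA ⟨_, _, h, Or.inl rfl⟩
    · exact S.PB2b_arcR h hA u w a₀ h1 hu fun z hz => ⟨_, _, h, hz.symm⟩
  | left _ _ _ _ _ ih => exact ih
  | @right a b c hl h1 h2 h3 h4 ih =>
    have hl' := hl.right h1 h2 h3 h4
    have k := (S.leaf_edge hl).2.1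
    have e : S.PB2b_J w a₀ b₀ c a₀ := JoinedIn.trans (S.PB2b_edge h hA (S.tri.symm _ _ h2)
      ⟨_, _, hl', Or.inl rfl⟩ ⟨_, _, hl, Or.inl rfl⟩) (ih a (Or.inl rfl))
    rintro u (rfl | hu)
    · exact e
    by_cases k1 : u = a ∨ cyc w u a
    · exact ih u k1
    · refine JoinedIn.trans (S.PB2b_arcR h hA u a c h2 ?_ fun z hz => ⟨_, _, hl', ?_⟩) e
      · unfold cyc at *
        grind
      · unfold cyc at *
        grind

theorem PB2b_right {w a₀ b₀ a b : V} (h : Leaf S.E S.y w a₀ b₀ a₀ b₀)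
    (hl : Leaf S.E S.y w a₀ b₀ a b) : ∀ u, b = u ∨ cyc w b u → S.PB2b_J w a₀ b₀ u b₀ := by
  have hA : S.PB2b_side w a₀ b₀ (S.Rt w a₀ b₀) := Or.inr rfl
  induction hl with
  | base _ h1 =>
    rintro u (rfl | hu)
    · exact S.PB2b_refl h hA ⟨_, _, h, Or.inl rfl⟩
    · exact S.PB2b_arcL h hA u b₀ w (S.tri.symm _ _ h1) (cyc_rot hu) fun z hz =>
        ⟨_, _, h, hz.symm.imp Eq.symm fun k => cyc_rot (cyc_rot k)⟩
  | right _ _ _ _ _ ih => exact ih
  | @left a b c hl h1 h2 h3 h4 ih =>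
    have hl' := hl.left h1 h2 h3 h4
    have k := (S.leaf_edge hl).2.1
    have e : S.PB2b_J w a₀ b₀ c b₀ := JoinedIn.trans (S.PB2b_edge h hA h3
      ⟨_, _, hl', Or.inl rfl⟩ ⟨_, _, hl, Or.inl rfl⟩) (ih b (Or.inl rfl))
    rintro u (rfl | hu)
    · exact e
    by_cases k1 : b = u ∨ cyc w b u
    · exact ih u k1
    · refine JoinedIn.trans (S.PB2b_arcL h hA u c b h3 ?_ fun z hz => ⟨_, _, hl', ?_⟩) e
      · unfold cyc at *
        grind
      · unfold cyc at *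
        grind

/-- A continuous function that vanishes exactly on the prong. -/
theorem exists_side (hb : ∀ u, ∃ C, ∀ a, S.E u a → |S.y a| ≤ C) {w a₀ b₀ : V}
    (h : Leaf S.E S.y w a₀ b₀ a₀ b₀) : ∃ f : (V → ℝ) → ℝ, ContinuousOn f (Disc S.E) ∧
      (∀ x ∈ Disc S.E, f x = 0 ↔ x ∈ S.Zs w a₀ b₀ ∨ x = Pi.single w 1) ∧
      (∀ u ∈ S.Lf w a₀ b₀, 0 < f (Pi.single u 1)) ∧ ∀ u ∈ S.Rt w a₀ b₀, f (Pi.single u 1) < 0 := by
  refine ⟨ht (S.PB2b_phi w a₀ b₀), continuousOn_ht S.tri fun u => ?_,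
    fun x hx => S.PB2b_zero h hx, fun u hu => ?_, fun u hu => ?_⟩
  · obtain ⟨C, hC⟩ := hb u
    refine ⟨max 1 (|S.y a₀ - S.y w| * (C + |S.y w|)), fun a ha => ?_⟩
    unfold PB2b_phi
    split_ifs
    · rw [abs_mul]
      refine le_max_of_le_right (mul_le_mul_of_nonneg_left ?_ (abs_nonneg _))
      exact (abs_sub _ _).trans (add_le_add_left (hC a ha) _)
    · simp
    · simp
    · simp
  · rw [PB2b_single]
    exact S.PB2b_pos hu
  · rw [PB2b_single]
    exact S.PB2b_neg hu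

/-- Vertices on one side of the prong can be joined off the prong. -/
theorem joined_side {w a₀ b₀ u v : V} (h : Leaf S.E S.y w a₀ b₀ a₀ b₀)
    (huv : (u ∈ S.Lf w a₀ b₀ ∧ v ∈ S.Lf w a₀ b₀) ∨ (u ∈ S.Rt w a₀ b₀ ∧ v ∈ S.Rt w a₀ b₀)) :
    JoinedIn (Disc S.E \ (S.Zs w a₀ b₀ ∪ {Pi.single w 1})) (Pi.single u 1) (Pi.single v 1) := by
  rcases huv with ⟨⟨a, b, h1, h2⟩, a', b', h3, h4⟩ | ⟨⟨a, b, h1, h2⟩, a', b', h3, h4⟩
  · exact JoinedIn.trans (S.PB2b_left h h1 u h2) (S.PB2b_left h h3 v h4).symm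
  · exact JoinedIn.trans (S.PB2b_right h h1 u h2) (S.PB2b_right h h3 v h4).symm

end TH

end Pool.Agent.Work.MP_3d425c_gt.Bor
end

-- merged part: Pool.Agent.Work.MP_3d425c_gt.PB3
section
/-! Homeomorphisms that preserve the foliation preserve the prongs. -/

namespace Pool.Agent.Work.MP_3d425c_gt.Bor
open Classical PA

variable {V : Type} [LinearOrder V]

theorem PB3_ne {E : V → V → Prop} (hE : IdealTri E) {a b : V} (h : E a b) : a ≠ b := by
  obtain ⟨c, hc, -⟩ := hE.apex a b h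
  exact (cyc_ne hc).2.2

theorem PB3_cof {E : V → V → Prop} (hE : IdealTri E) {w : V} (a : ℤ → V) (ha : ∀ k, E w (a k))
    (hc : ∀ k, cyc w (a k) (a (k + 1))) {u : V} (hu : u ≠ w) :
    ∃ k, cle w (a k) u ∧ cyc w u (a (k + 1)) := by
  have h1 : ∀ k l, k < l → cyc w (a k) (a l) := fun k l hl =>
    Int.leInduction (motive := fun n _ => cyc w (a k) (a n)) (hc k)
      (fun n _ ih => cyc_trans ih (hc n)) l hl
  have h2 : Function.Injective a := fun k l e => by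
    by_contra hn
    rcases lt_or_gt_of_ne hn with q | q
    · exact (cyc_ne (h1 _ _ q)).2.1 e
    · exact (cyc_ne (h1 _ _ q)).2.1 e.symm
  have h3 : ∃ k, cle w u (a k) := by
    by_contra hn
    simp only [cle, not_exists, not_or] at hn
    refine Set.infinite_of_injective_forall_mem (f := fun n : ℕ => (w, a (n + 1)))
      (fun m n e => ?_) (fun n => ?_) (hE.fin (a 0) u)
    · have := h2 (congrArg Prod.snd e)
      omega
    · exact ⟨ha _, h1 _ _ (by omega), cyc_rot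
        ((cyc_total hu.symm (hn _).1 (PB3_ne hE (ha _))).resolve_left (hn _).2)⟩
  have h4 : ∃ k, cle w (a k) u := by
    by_contra hn
    simp only [cle, not_exists, not_or] at hn
    refine Set.infinite_of_injective_forall_mem (f := fun n : ℕ => (w, a (-(n + 1))))
      (fun m n e => ?_) (fun n => ?_) (hE.fin u (a 0))
    · have := h2 (congrArg Prod.snd e)
      omega
    · exact ⟨ha _, (cyc_total (PB3_ne hE (ha _)) (hn _).1 hu.symm).resolve_left (hn _).2,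
        cyc_rot (h1 _ _ (by omega))⟩
  obtain ⟨m, hm⟩ := h3
  obtain ⟨k, hk, hmax⟩ := Int.exists_greatest_of_bdd (P := fun k => cle w (a k) u)
    ⟨m, fun z hz => by
      by_contra hn
      have := h1 m z (by omega)
      unfold cle cyc at *
      (clear * - hm hz this; grind)⟩ h4
  refine ⟨k, hk, ?_⟩
  have h5 : ¬ cle w (a (k + 1)) u := fun q => by
    have := hmax _ q
    omega
  have h6 := PB3_ne hE (ha (k + 1))
  unfold cle cyc at *
  (clear * - h5 hc hu; grind)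

theorem nbr_bound {Γ : Type} [Group Γ] [MulAction Γ V] {E : V → V → Prop} (hE : IdealTri E)
    (y : V → ℝ) (K : Subgroup Γ)
    (hcyc : ∀ (g : Γ) (a b c : V), cyc a b c → cyc (g • a) (g • b) (g • c))
    (hK : ∀ g ∈ K, ∀ a b, E a b → E (g • a) (g • b) ∧ (g • a = a → g • b = b → g = 1) ∧
      |y (g • a) - y (g • b)| = |y a - y b|)
    (hper : ∀ w : V, ∃ g ∈ K, g ≠ 1 ∧ g • w = w) (u : V) : ∃ C, ∀ a, E u a → |y a| ≤ C := by
  by_cases hn : ∃ a₀, E u a₀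
  swap
  · exact ⟨0, fun a ha => (hn ⟨a, ha⟩).elim⟩
  obtain ⟨a₀, h₀⟩ := hn
  obtain ⟨g, hg, hu, hc⟩ : ∃ g ∈ K, g • u = u ∧ cyc u a₀ (g • a₀) := by
    obtain ⟨g, hg, h1, hu⟩ := hper u
    obtain ⟨e1, e2, -⟩ := hK g hg u a₀ h₀
    rw [hu] at e1
    rcases cyc_total (PB3_ne hE h₀) (fun e => h1 (e2 hu e.symm)) (PB3_ne hE e1) with k | k
    · exact ⟨g, hg, hu, k⟩
    · have hu' : g⁻¹ • u = u := by rw [inv_smul_eq_iff, hu]
      refine ⟨g⁻¹, K.inv_mem hg, hu', ?_⟩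
      have := hcyc g⁻¹ _ _ _ k
      rwa [hu', inv_smul_smul] at this
  have hs : ∀ k : ℤ, g ^ k • u = u := fun k =>
    (MulAction.stabilizer Γ u).zpow_mem (MulAction.mem_stabilizer_iff.2 hu) k
  have hfin : {b | E u b ∧ cle u a₀ b ∧ cyc u b (g • a₀)}.Finite := by
    refine (((hE.fin a₀ (g • a₀)).preimage (f := fun x => (u, x))
      fun x _ y _ e => (Prod.ext_iff.1 e).2).insert a₀).subset ?_
    rintro b ⟨h1, rfl | h2, h3⟩
    · exact Or.inl rfl
    · exact Or.inr ⟨h1, h2, cyc_rot h3⟩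
  obtain ⟨C, hC⟩ := (hfin.image fun b => |y u - y b|).bddAbove
  refine ⟨|y u| + C, fun a ha => ?_⟩
  obtain ⟨k, h1, h2⟩ := PB3_cof hE (fun k : ℤ => g ^ k • a₀)
    (fun k => by simpa only [hs] using (hK _ (K.zpow_mem hg k) u a₀ h₀).1)
    (fun k => by
      have := hcyc (g ^ k) _ _ _ hc
      rwa [hs, ← mul_smul, ← zpow_add_one] at this) (PB3_ne hE ha).symm
  obtain ⟨e1, -, e2⟩ := hK _ (K.zpow_mem hg (-k)) u a ha
  rw [hs] at e1 e2
  have e3 : g ^ (-k) • g ^ k • a₀ = a₀ := by rw [zpow_neg, inv_smul_smul]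
  have h3 : |y u - y (g ^ (-k) • a)| ≤ C := by
    refine hC ⟨_, ⟨e1, ?_, ?_⟩, rfl⟩
    · rcases h1 with q | q
      · exact Or.inl (by rw [← q, e3])
      · have := hcyc (g ^ (-k)) _ _ _ q
        rw [hs, e3] at this
        exact Or.inr this
    · have := hcyc (g ^ (-k)) _ _ _ h2
      rwa [hs, ← mul_smul, ← zpow_add, neg_add_cancel_left, zpow_one] at this
  rw [e2] at h3
  have := abs_sub_abs_le_abs_sub (y a) (y u)
  rw [abs_sub_comm] at this
  linarith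

namespace TH
variable (S : TH V)

/-- A vertex as a point of the realisation. -/
noncomputable def PB3_pt (w : V) : Disc S.E := ⟨Pi.single w 1, single_mem S.tri w⟩

theorem PB3_clopen (hb : ∀ u, ∃ C, ∀ a, S.E u a → |S.y a| ≤ C) {w a₀ b₀ : V}
    (h : Leaf S.E S.y w a₀ b₀ a₀ b₀) {A : Set (V → ℝ)} (hA : IsPreconnected A) (hL : A ⊆ S.Lv w)
    {x : V → ℝ} (hx : x ∈ A) (hx' : x ∈ S.Zs w a₀ b₀) : A ⊆ S.Zs w a₀ b₀ := by
  obtain ⟨f, hf, h0, -⟩ := S.exists_side hb h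
  intro z hz
  refine (hA.induction₂' (fun p q => p ∈ S.Zs w a₀ b₀ ↔ q ∈ S.Zs w a₀ b₀) (fun p hp => ?_)
    (fun _ _ _ _ _ _ => Iff.trans) hx hz).1 hx'
  by_cases q : p ∈ S.Zs w a₀ b₀
  · filter_upwards [nhdsWithin_mono p hL (S.zs_open h q)] with r hr
    simp only [q, hr, and_self]
  · have h1 : f p ≠ 0 := fun e => by
      rcases (h0 p (hL hp).1).1 e with k | k
      · exact q k
      · have := (hL hp).2.2 w
        simp [k] at this
    have h2 : ContinuousWithinAt f A p := (hf p (hL hp).1).mono fun r hr => (hL hr).1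
    filter_upwards [h2.eventually_ne h1, self_mem_nhdsWithin] with r hr hr'
    have : r ∉ S.Zs w a₀ b₀ := fun k => hr ((h0 r (hL hr').1).2 (Or.inl k))
    simp only [q, this, and_self]

variable {Γ : Type} [Group Γ] [MulAction Γ V] [MulAction Γ (Disc S.E)]
  (hvert : ∀ (g : Γ) (w : V) (x : Disc S.E), x.1 w = 1 → (g • x).1 (g • w) = 1)
include hvert

theorem PB3_smul_pt (g : Γ) (w : V) : g • S.PB3_pt w = S.PB3_pt (g • w) :=
  Subtype.ext (eq_single S.tri (g • S.PB3_pt w).2 (hvert g w _ (by simp [PB3_pt])))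

theorem PB3_lv (haff : ∀ g : Γ, ∃ r t : ℝ, ∀ x : Disc S.E, ht S.y (g • x).1 = r * ht S.y x.1 + t)
    (g : Γ) (w : V) (x : Disc S.E) (hx : x.1 ∈ S.Lv w) : (g • x).1 ∈ S.Lv (g • w) := by
  have hp : ∀ v, ht S.y (S.PB3_pt v).1 = S.y v := fun v => by
    have := ht_bary S.y v v v 1 0 0
    simpa [bary, PB3_pt] using this
  obtain ⟨r, t, h⟩ := haff g
  refine ⟨(g • x).2, ?_, fun v => ?_⟩
  · rw [h, hx.2.1, ← hp (g • w), ← S.PB3_smul_pt hvert, h, hp]
  · refine lt_of_le_of_ne (disc_nonneg S.tri (g • x).2 v).2 fun e => ?_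
    have := hvert g⁻¹ v _ e
    rw [inv_smul_smul] at this
    exact (hx.2.2 _).ne this

variable [ContinuousConstSMul Γ (Disc S.E)] (hb : ∀ u, ∃ C, ∀ a, S.E u a → |S.y a| ≤ C)
include hb

theorem PB3_map (haff : ∀ g : Γ, ∃ r t : ℝ, ∀ x : Disc S.E, ht S.y (g • x).1 = r * ht S.y x.1 + t)
    (g : Γ) {w w' a₀ b₀ a₁ b₁ : V} (hw : g • w = w') (h₀ : Leaf S.E S.y w a₀ b₀ a₀ b₀)
    (h₁ : Leaf S.E S.y w' a₁ b₁ a₁ b₁) {x₀ : Disc S.E} (e₀ : x₀.1 ∈ S.Zs w a₀ b₀)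
    (e₁ : (g • x₀).1 ∈ S.Zs w' a₁ b₁) (x : Disc S.E) (hx : x.1 ∈ S.Zs w a₀ b₀) :
    (g • x).1 ∈ S.Zs w' a₁ b₁ := by
  subst hw
  have h1 : IsPreconnected (Subtype.val ⁻¹' S.Zs w a₀ b₀ : Set (Disc S.E)) := by
    rw [← Topology.IsInducing.subtypeVal.isPreconnected_image, Subtype.image_preimage_coe,
      Set.inter_eq_right.2 fun z hz => hz.1]
    exact S.zs_preconnected h₀
  have h2 := h1.image (fun z : Disc S.E => (g • z).1)
    (continuous_subtype_val.comp (continuous_const_smul g)).continuousOn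
  refine S.PB3_clopen hb h₁ h2 ?_ ⟨x₀, e₀, rfl⟩ e₁ ⟨x, hx, rfl⟩
  rintro _ ⟨z, hz, rfl⟩
  exact S.PB3_lv hvert haff g w z (S.zs_subset h₀ hz)

theorem PB3_img (haff : ∀ g : Γ, ∃ r t : ℝ, ∀ x : Disc S.E, ht S.y (g • x).1 = r * ht S.y x.1 + t)
    (g : Γ) {w a₀ b₀ : V} (h₀ : Leaf S.E S.y w a₀ b₀ a₀ b₀) :
    ∃ a₁ b₁, Leaf S.E S.y (g • w) a₁ b₁ a₁ b₁ ∧
      ∀ x : Disc S.E, (g • x).1 ∈ S.Zs (g • w) a₁ b₁ → x.1 ∈ S.Zs w a₀ b₀ := by
  have h1 : S.PB3_pt w ∈ closure (Subtype.val ⁻¹' S.Zs w a₀ b₀ : Set (Disc S.E)) := by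
    rw [closure_subtype, Subtype.image_preimage_coe, Set.inter_eq_right.2 fun z hz => hz.1]
    exact S.zs_near h₀
  have h2 : Continuous fun z : Disc S.E => (g • z).1 (g • w) :=
    (continuous_apply _).comp (continuous_subtype_val.comp (continuous_const_smul g))
  obtain ⟨x₀, e₁, e₀⟩ := mem_closure_iff.1 h1 {z | (g • z).1 (g • w) ≠ 0}
    (isOpen_ne_fun h2 continuous_const) (by
      rw [Set.mem_ofPred_eq, hvert g w _ (by simp [PB3_pt])]
      exact one_ne_zero)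
  obtain ⟨a₁, b₁, h₁, e₂⟩ := S.exists_zs (S.PB3_lv hvert haff g w x₀ (S.zs_subset h₀ e₀)) e₁
  refine ⟨a₁, b₁, h₁, fun x hx => ?_⟩
  have := S.PB3_map hvert hb haff g⁻¹ (inv_smul_smul g w) h₁ h₀ e₂
    (by rwa [inv_smul_smul]) _ hx
  rwa [inv_smul_smul] at this

theorem PB3_side (g : Γ) {w a₀ b₀ a₁ b₁ u v : V} (h₀ : Leaf S.E S.y w a₀ b₀ a₀ b₀)
    (h₁ : Leaf S.E S.y (g • w) a₁ b₁ a₁ b₁)
    (h : ∀ x : Disc S.E, (g • x).1 ∈ S.Zs (g • w) a₁ b₁ → x.1 ∈ S.Zs w a₀ b₀)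
    (huv : (u ∈ S.Lf w a₀ b₀ ∧ v ∈ S.Lf w a₀ b₀) ∨ (u ∈ S.Rt w a₀ b₀ ∧ v ∈ S.Rt w a₀ b₀))
    (hu : g • u ∈ S.Lf (g • w) a₁ b₁) (hv : g • v ∈ S.Rt (g • w) a₁ b₁) : False := by
  obtain ⟨f, hf, h0, hl, hr⟩ := S.exists_side hb h₁
  obtain ⟨γ, hγ⟩ := S.joined_side h₀ huv
  let c : unitInterval → Disc S.E := fun t => ⟨γ t, (hγ t).1⟩
  have hc : Continuous c := γ.continuous.subtype_mk _
  have h1 : Continuous fun t => f (g • c t).1 :=
    hf.comp_continuous (continuous_subtype_val.comp (hc.const_smul g)) fun t => (g • c t).2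
  have e0 : c 0 = S.PB3_pt u := Subtype.ext γ.source
  have e1 : c 1 = S.PB3_pt v := Subtype.ext γ.target
  obtain ⟨t, ht⟩ := intermediate_value_univ 1 0 h1 (show (0 : ℝ) ∈ _ from ⟨by
    rw [e1, S.PB3_smul_pt hvert]
    exact (hr _ hv).le, by
    rw [e0, S.PB3_smul_pt hvert]
    exact (hl _ hu).le⟩)
  rcases (h0 _ (g • c t).2).1 ht with k | k
  · exact (hγ t).2 (Or.inl (h _ k))
  · have e : g • c t = g • S.PB3_pt w := by
      rw [S.PB3_smul_pt hvert]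
      exact Subtype.ext k
    exact (hγ t).2 (Or.inr (congrArg Subtype.val (MulAction.injective g e)))

end TH

theorem TH.prong_smul (S : TH V) {Γ : Type} [Group Γ] [MulAction Γ V]
    [MulAction Γ (Disc S.E)] [ContinuousConstSMul Γ (Disc S.E)]
    (hb : ∀ u, ∃ C, ∀ a, S.E u a → |S.y a| ≤ C)
    (hcyc : ∀ (g : Γ) (a b c : V), cyc a b c → cyc (g • a) (g • b) (g • c))
    (hvert : ∀ (g : Γ) (w : V) (x : Disc S.E), x.1 w = 1 → (g • x).1 (g • w) = 1)
    (haff : ∀ g : Γ, ∃ r t : ℝ, ∀ x : Disc S.E, ht S.y (g • x).1 = r * ht S.y x.1 + t)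
    (g : Γ) (w : V) (X : Set V) (h : Prong S.E S.y w X) :
    Prong S.E S.y (g • w) ((g • ·) '' X) := by
  obtain ⟨a₀, b₀, h₀, rfl⟩ := h
  obtain ⟨a₁, b₁, h₁, h⟩ := S.PB3_img hvert hb haff g h₀
  refine ⟨a₁, b₁, h₁, ?_⟩
  change (g • ·) '' S.Lf w a₀ b₀ = S.Lf (g • w) a₁ b₁
  have key := fun u v => S.PB3_side hvert hb g (u := u) (v := v) h₀ h₁ h
  have l₀ : a₀ ∈ S.Lf w a₀ b₀ := ⟨_, _, h₀, Or.inl rfl⟩
  have r₀ : b₀ ∈ S.Rt w a₀ b₀ := ⟨_, _, h₀, Or.inl rfl⟩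
  have l₁ : a₁ ∈ S.Lf (g • w) a₁ b₁ := ⟨_, _, h₁, Or.inl rfl⟩
  have r₁ : b₁ ∈ S.Rt (g • w) a₁ b₁ := ⟨_, _, h₁, Or.inl rfl⟩
  have back : ∀ v, v ≠ g • w → ∃ u, g • u = v ∧ (u ∈ S.Lf w a₀ b₀ ∨ u ∈ S.Rt w a₀ b₀) :=
    fun v hv => ⟨g⁻¹ • v, smul_inv_smul g v, S.lf_or_rt h₀ fun e => hv (by rw [← e, smul_inv_smul])⟩
  have c₀ := S.lf_lt_rt l₀ r₀
  have c₁ := S.lf_lt_rt l₁ r₁
  have c₂ := hcyc g _ _ _ c₀
  have ha : g • a₀ ∈ S.Lf (g • w) a₁ b₁ := by
    refine (S.lf_or_rt h₁ (cyc_ne c₂).1.symm).resolve_right fun qa => ?_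
    have qb := (S.lf_or_rt h₁ (cyc_ne c₂).2.2.symm).resolve_left fun qb =>
      cyc_asymm c₂ (S.lf_lt_rt qb qa)
    obtain ⟨u, rfl, k | k⟩ := back a₁ (cyc_ne c₁).1.symm
    · exact key u a₀ (Or.inl ⟨k, l₀⟩) l₁ qa
    · exact key u b₀ (Or.inr ⟨k, r₀⟩) l₁ qb
  have hb' : g • b₀ ∈ S.Rt (g • w) a₁ b₁ := by
    refine (S.lf_or_rt h₁ (cyc_ne c₂).2.2.symm).resolve_left fun qb => ?_
    obtain ⟨u, rfl, k | k⟩ := back b₁ (cyc_ne c₁).2.2.symm
    · exact key a₀ u (Or.inl ⟨l₀, k⟩) ha r₁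
    · exact key b₀ u (Or.inr ⟨r₀, k⟩) qb r₁
  ext v
  constructor
  · rintro ⟨u, hu, rfl⟩
    exact (S.lf_or_rt h₁ (cyc_ne (hcyc g _ _ _ (S.lf_lt_rt hu r₀))).1.symm).resolve_right
      fun q => key a₀ u (Or.inl ⟨l₀, hu⟩) ha q
  · intro hv
    obtain ⟨u, rfl, k | k⟩ := back v (cyc_ne (S.lf_lt_rt hv r₁)).1.symm
    · exact ⟨u, k, rfl⟩
    · exact (key u b₀ (Or.inr ⟨k, r₀⟩) hv hb').elim

end Pool.Agent.Work.MP_3d425c_gt.Bor
end

-- merged part: Pool.Agent.Work.MP_3d425c_gt.PB5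
section
/-! Fundamental groups of fillings by solid tori: definitions and surjectivity. -/

namespace Pool.Agent.Work.MP_3d425c_gt.Bor
open Classical

/-- A space covered by a free quotient of a simply connected space and by solid tori. -/
structure FS (Γ X M ι : Type) [Group Γ] [TopologicalSpace X] [MulAction Γ X]
    [TopologicalSpace M] where
  p : X → M
  N : ι → ℂ × Circle → M
  cont : ContinuousConstSMul Γ X
  sc : SimplyConnectedSpace X
  loc : IsLocalHomeomorph p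
  fib : ∀ a b, p a = p b ↔ ∃ g : Γ, b = g • a
  free : ∀ (g : Γ) (a : X), g • a = a → g = 1
  emb : ∀ i, Topology.IsOpenEmbedding (N i)
  disj : ∀ i j a b, N i a = N j b → i = j
  core : ∀ i z s, N i (z, s) ∈ Set.range p ↔ z ≠ 0
  cover : ∀ m, m ∈ Set.range p ∨ ∃ i, m ∈ Set.range (N i)

namespace FS
variable {Γ X M ι : Type} [Group Γ] [TopologicalSpace X] [MulAction Γ X] [TopologicalSpace M]
  (S : FS Γ X M ι)

/-- The deck transformations of the meridians. -/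
def Mer : Set Γ := {g | ∃ (i : ι) (l : C(ℝ, X)),
  (∀ t, S.p (l t) = S.N i (Circle.exp (2 * Real.pi * t), 1)) ∧ l 1 = g • l 0}

theorem quotCov : IsQuotientCoveringMap (Set.rangeFactorization S.p) Γ := by
  have h : Topology.IsQuotientMap (Set.rangeFactorization S.p) :=
    (S.loc.isOpenMap.subtype_mk fun x => Set.mem_range_self x).isQuotientMap
      S.loc.continuous.rangeFactorization Set.rangeFactorization_surjective
  refine ⟨h, S.cont, fun {a b} => ?_, fun a => ?_⟩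
  · rw [Subtype.ext_iff, MulAction.mem_orbit_iff]
    change S.p a = S.p b ↔ _
    rw [eq_comm, S.fib]
    exact exists_congr fun g => eq_comm
  · obtain ⟨U, hU, ha, hi⟩ := S.loc.isLocallyInjective a
    refine ⟨U, hU.mem_nhds ha, ?_⟩
    rintro g ⟨_, ⟨b, hb, rfl⟩, hb'⟩
    exact S.free g b (hi hb' hb ((S.fib _ _).2 ⟨g, rfl⟩).symm)

include S in
theorem pathConnected : PathConnectedSpace M := by
  have := S.sc
  obtain ⟨x₀⟩ : Nonempty X := inferInstance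
  have h1 : ∀ m ∈ Set.range S.p, Joined (S.p x₀) m := by
    rintro _ ⟨x, rfl⟩
    exact (PathConnectedSpace.joined x₀ x).map S.loc.continuous
  have h2 : ∀ m, Joined (S.p x₀) m := fun m => by
    rcases S.cover m with h | ⟨i, ⟨z, s⟩, rfl⟩
    · exact h1 m h
    · exact (h1 _ ((S.core i 1 s).2 one_ne_zero)).trans ((PathConnectedSpace.joined 1 z).map
        (f := fun w => S.N i (w, s)) ((S.emb i).continuous.comp (Continuous.prodMk_left s)))
  exact ⟨⟨S.p x₀⟩, fun a b => (h2 a).symm.trans (h2 b)⟩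

/-- The open pieces. -/
def pb5V : Option ι → Set M
  | none => Set.range S.p
  | some i => Set.range (S.N i)

theorem pb5_open (k : Option ι) : IsOpen (S.pb5V k) := by
  cases k with
  | none => exact S.loc.isOpenMap.isOpen_range
  | some i => exact (S.emb i).isOpen_range

theorem pb5_inter {k l : Option ι} (h : k ≠ l) {y : M} (hk : y ∈ S.pb5V k) (hl : y ∈ S.pb5V l) :
    y ∈ Set.range S.p := by
  cases k with
  | none => exact hk
  | some i =>
    cases l with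
    | none => exact hl
    | some j =>
      obtain ⟨a, rfl⟩ := hk
      obtain ⟨b, hb⟩ := hl
      exact absurd (congrArg some (S.disj i j a b hb.symm)) h

/-- A path inside one piece can be pushed off the core. -/
theorem pb5_push {k : Option ι} {z y : M} (e : Path z y) (he : ∀ t, e t ∈ S.pb5V k)
    (hz : z ∈ Set.range S.p) (hy : y ∈ Set.range S.p) :
    ∃ d : Path z y, (∀ t, d t ∈ Set.range S.p) ∧ e.Homotopic d := by
  cases k with
  | none => exact ⟨e, he, .refl e⟩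
  | some i =>
    choose f hf using he
    have hc : Continuous f := by
      rw [(S.emb i).isInducing.continuous_iff]
      exact e.continuous.congr fun t => (hf t).symm
    have h0 : S.N i (f 0) = z := (hf 0).trans e.source
    have h1 : S.N i (f 1) = y := (hf 1).trans e.target
    obtain ⟨q, hq⟩ := (isPathConnected_compl_singleton_of_one_lt_rank (E := ℂ) (by simp) 0).joinedIn
      (f 0).1 ((S.core i _ (f 0).2).1 (h0 ▸ hz)) (f 1).1 ((S.core i _ (f 1).2).1 (h1 ▸ hy))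
    have hN := (S.emb i).continuous
    let d : Path z y := ⟨⟨fun t => S.N i (q t, (f t).2), by fun_prop⟩,
      by simpa using h0, by simpa using h1⟩
    refine ⟨d, fun t => (S.core i _ _).2 (hq t), ⟨⟨⟨⟨fun x =>
      S.N i ((1 - ((x.1 : ℝ) : ℂ)) * (f x.2).1 + ((x.1 : ℝ) : ℂ) * q x.2, (f x.2).2),
      by fun_prop⟩, fun t => by simpa using hf t, fun t => by simp [d]⟩, ?_⟩⟩⟩
    rintro s t (rfl | rfl)
    · simpa [sub_mul] using h0
    · simpa [sub_mul] using h1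

/-- A path in the complement followed by a path in one piece. -/
def pb5Good {a y : M} (γ : Path a y) : Prop :=
  ∃ (z : M) (d : Path a z) (e : Path z y) (k : Option ι), (∀ t, d t ∈ Set.range S.p) ∧
    (∀ t, e t ∈ S.pb5V k) ∧ γ.Homotopic (d.trans e)

theorem pb5_trans {V : Set M} {a b c : M} {d : Path a b} {e : Path b c} (hd : ∀ t, d t ∈ V)
    (he : ∀ t, e t ∈ V) (t) : d.trans e t ∈ V := by
  have h : d.trans e t ∈ Set.range (d.trans e) := Set.mem_range_self t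
  rw [Path.trans_range] at h
  rcases h with ⟨s, h⟩ | ⟨s, h⟩ <;> rw [← h]
  exacts [hd s, he s]

theorem pb5Good.inside {a y : M} {γ : Path a y} (h : S.pb5Good γ) (hy : y ∈ Set.range S.p) :
    ∃ d : Path a y, (∀ t, d t ∈ Set.range S.p) ∧ γ.Homotopic d := by
  obtain ⟨z, d, e, k, hd, he, h⟩ := h
  obtain ⟨e', he', h'⟩ := S.pb5_push e he (d.target ▸ hd 1) hy
  exact ⟨d.trans e', pb5_trans hd he', h.trans ((Path.Homotopic.refl d).hcomp h')⟩

theorem pb5Good.step {a y y' : M} {γ : Path a y} (h : S.pb5Good γ) {f : Path y y'} {l : Option ι}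
    (hf : ∀ t, f t ∈ S.pb5V l) {γ' : Path a y'} (h' : γ'.Homotopic (γ.trans f)) :
    S.pb5Good γ' := by
  obtain ⟨z, d, e, k, hd, he, h1⟩ := id h
  by_cases hk : k = l
  · subst hk
    exact ⟨z, d, e.trans f, k, hd, pb5_trans he hf, h'.trans
      ((h1.hcomp (.refl f)).trans (Path.Homotopic.trans_assoc d e f))⟩
  · obtain ⟨d', hd', h2⟩ := h.inside S (S.pb5_inter hk (e.target ▸ he 1) (f.source ▸ hf 0))
    exact ⟨y, d', f, l, hd', hf, h'.trans (h2.hcomp (.refl f))⟩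

theorem pb5_inside {a b : M} (c : Path a b) (ha : a ∈ Set.range S.p) (hb : b ∈ Set.range S.p) :
    ∃ d : Path a b, (∀ t, d t ∈ Set.range S.p) ∧ c.Homotopic d := by
  obtain ⟨t, h0, hm, ⟨n, hn⟩, ht⟩ := exists_monotone_Icc_subset_open_cover_unitInterval
    (c := fun k => c ⁻¹' S.pb5V k) (fun k => (S.pb5_open k).preimage c.continuous) fun s _ => by
      rcases S.cover (c s) with h | ⟨i, h⟩
      exacts [Set.mem_iUnion.2 ⟨none, h⟩, Set.mem_iUnion.2 ⟨some i, h⟩]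
  have key : ∀ n, S.pb5Good (c.subpath 0 (t n)) := fun n => by
    induction n with
    | zero =>
      rw [h0, Path.subpath_self]
      have h : ∀ s, Path.refl (c 0) s ∈ Set.range S.p := fun s => by simpa using ha
      exact ⟨_, .refl _, .refl _, none, h, h, (Path.Homotopic.refl_trans _).symm⟩
    | succ n ih =>
      obtain ⟨k, hk⟩ := ht n
      refine ih.step S (f := c.subpath (t n) (t (n + 1))) (l := k) (fun s => ?_)
        (Path.Homotopic.symm ⟨Path.Homotopy.subpathTransSubpath c _ _ _⟩)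
      have h := Set.mem_range_self (f := c.subpath (t n) (t (n + 1))) s
      rw [Path.range_subpath_of_le _ _ _ (hm n.le_succ)] at h
      obtain ⟨u, hu, h⟩ := h
      exact h ▸ hk hu
  have h := key n
  rw [hn n le_rfl, Path.subpath_zero_one] at h
  obtain ⟨d, hd, h'⟩ := h.inside S (c.target.symm ▸ hb)
  exact ⟨d.cast c.source.symm c.target.symm, hd, h'.pathCast c.source.symm c.target.symm⟩

/-- Every loop is homotopic to the projection of a path. -/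
theorem exists_lift (x₀ : X) (c : Path (S.p x₀) (S.p x₀)) : ∃ (g : Γ) (δ : Path x₀ (g • x₀)),
    c.Homotopic ((δ.map S.loc.continuous).cast rfl ((S.fib _ _).2 ⟨g, rfl⟩)) := by
  obtain ⟨d, hd, h⟩ := S.pb5_inside c ⟨x₀, rfl⟩ ⟨x₀, rfl⟩
  obtain ⟨L, h1, h0⟩ := S.quotCov.isCoveringMap.exists_path_lifts
    ⟨fun t => ⟨d t, hd t⟩, d.continuous.subtype_mk _⟩ x₀ (Subtype.ext d.source)
  have h2 : ∀ t, S.p (L t) = d t := fun t => congrArg Subtype.val (congrFun h1 t)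
  obtain ⟨g, hg⟩ := (S.fib x₀ (L 1)).1 ((h2 1).trans d.target).symm
  refine ⟨g, ⟨L, h0, hg⟩, ?_⟩
  convert h using 1
  ext t
  exact h2 t

end FS

end Pool.Agent.Work.MP_3d425c_gt.Bor
end

-- merged part: Pool.Agent.Work.MP_3d425c_gt.PB6
section
/-! Fundamental groups of fillings by solid tori: the meridians die. -/

namespace Pool.Agent.Work.MP_3d425c_gt.Bor
open Classical

namespace FS
variable {Γ X M ι : Type} [Group Γ] [TopologicalSpace X] [MulAction Γ X] [TopologicalSpace M]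
  (S : FS Γ X M ι)

/-- Some path from `a` to `b` projects to a null-homotopic loop. -/
def Nl (a b : X) : Prop :=
  ∃ (m : M) (δ : Path a b) (c : Path m m), (∀ t, c t = S.p (δ t)) ∧ c.Homotopic (Path.refl m)

theorem pb6_smul (g : Γ) (a : X) : S.p (g • a) = S.p a := ((S.fib _ _).2 ⟨g, rfl⟩).symm

theorem pb6_indep {a b : X} {m m' : M} (δ δ' : Path a b) (c c' : Path m m')
    (h : ∀ t, c t = S.p (δ t)) (h' : ∀ t, c' t = S.p (δ' t)) : c.Homotopic c' := by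
  have := S.sc
  have hm : m = S.p a := by simpa using h 0
  have hm' : m' = S.p b := by simpa using h 1
  subst hm hm'
  have e : c = δ.map S.loc.continuous := Path.ext (funext h)
  have e' : c' = δ'.map S.loc.continuous := Path.ext (funext h')
  rw [e, e']
  exact (SimplyConnectedSpace.paths_homotopic δ δ').map ⟨S.p, S.loc.continuous⟩

theorem pb6_trans {a b e : X} {m m' m'' : M} {δ : Path a b} {δ' : Path b e} {c : Path m m'}
    {c' : Path m' m''} (h : ∀ t, c t = S.p (δ t)) (h' : ∀ t, c' t = S.p (δ' t)) (t : unitInterval) :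
    (c.trans c') t = S.p ((δ.trans δ') t) := by
  rw [Path.trans_apply, Path.trans_apply]
  split_ifs
  · exact h _
  · exact h' _

theorem Nl.refl (a : X) : S.Nl a a :=
  ⟨S.p a, Path.refl a, Path.refl _, fun _ => rfl, Path.Homotopic.refl _⟩

variable {S}

theorem Nl.symm {a b : X} (h : S.Nl a b) : S.Nl b a := by
  obtain ⟨m, δ, c, h1, h2⟩ := h
  refine ⟨m, δ.symm, c.symm, fun t => h1 _, ?_⟩
  simpa using h2.symm₂

theorem Nl.trans {a b e : X} (h : S.Nl a b) (h' : S.Nl b e) : S.Nl a e := by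
  obtain ⟨m, δ, c, h1, h2⟩ := h
  obtain ⟨m', δ', c', h1', h2'⟩ := h'
  have hm : m = S.p b := by simpa using h1 1
  have hm' : m' = S.p b := by simpa using h1' 0
  subst hm hm'
  exact ⟨_, δ.trans δ', c.trans c', S.pb6_trans h1 h1',
    (h2.hcomp h2').trans (Path.Homotopic.refl_trans _)⟩

theorem Nl.smul {a b : X} (h : S.Nl a b) (g : Γ) : S.Nl (g • a) (g • b) := by
  have := S.cont
  obtain ⟨m, δ, c, h1, h2⟩ := h
  exact ⟨m, δ.map (continuous_const_smul g), c, fun t => (h1 t).trans (S.pb6_smul g _).symm, h2⟩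

theorem Nl.move {a : X} {g : Γ} (h : S.Nl a (g • a)) (x : X) : S.Nl x (g • x) := by
  have := S.cont
  have := S.sc
  obtain ⟨m, δ, c, h1, h2⟩ := h
  have hm : m = S.p a := by simpa using h1 0
  subst hm
  let η : Path x a := PathConnectedSpace.somePath x a
  let η' : Path (S.p x) (S.p a) := η.map S.loc.continuous
  refine ⟨S.p x, η.trans (δ.trans (η.map (continuous_const_smul g)).symm),
    η'.trans (c.trans η'.symm), S.pb6_trans (fun _ => rfl) (S.pb6_trans h1 fun t => ?_), ?_⟩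
  · exact (S.pb6_smul g _).symm
  · exact ((Path.Homotopic.refl η').hcomp ((h2.hcomp (Path.Homotopic.refl _)).trans
      (Path.Homotopic.refl_trans _))).trans (Path.Homotopic.trans_symm η')

variable (S)

/-- The deck transformations whose loops die. -/
def pb6Ker : Subgroup Γ where
  carrier := {g | ∀ x, S.Nl x (g • x)}
  one_mem' x := by
    rw [one_smul]
    exact Nl.refl S x
  mul_mem' {g h} hg hh x := by
    rw [mul_smul]
    exact (hh x).trans (hg _)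
  inv_mem' {g} hg x := by
    have := (hg (g⁻¹ • x)).symm
    rwa [smul_inv_smul] at this

theorem pb6_ker_normal : S.pb6Ker.Normal := ⟨fun g hg h x => by
  have := (hg (h⁻¹ • x)).smul h
  rwa [smul_inv_smul, smul_smul, smul_smul] at this⟩

theorem pb6_mer_subset : S.Mer ⊆ S.pb6Ker := by
  rintro g ⟨i, l, hl, hg⟩ x
  refine Nl.move (a := l 0) ?_ x
  have hN := (S.emb i).continuous
  have e0 : ((Circle.exp (2 * Real.pi * ((0 : unitInterval) : ℝ)) : Circle) : ℂ) = 1 := by simp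
  have e1 : ((Circle.exp (2 * Real.pi * ((1 : unitInterval) : ℝ)) : Circle) : ℂ) = 1 := by simp
  let δ : Path (l 0) (g • l 0) :=
    ⟨⟨fun t => l t, l.continuous.comp continuous_subtype_val⟩, rfl, hg⟩
  let γ : Path (1 : ℂ) 1 :=
    ⟨⟨fun t => (Circle.exp (2 * Real.pi * (t : ℝ)) : Circle), by fun_prop⟩, e0, e1⟩
  let f : C(ℂ, M) := ⟨fun z => S.N i (z, 1), hN.comp (by fun_prop)⟩
  refine ⟨f 1, δ, γ.map f.continuous, fun t => (hl t).symm, ?_⟩
  exact (SimplyConnectedSpace.paths_homotopic γ (Path.refl 1)).map f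

theorem null_of_mem (x₀ : X) {g : Γ} (hg : g ∈ Subgroup.normalClosure S.Mer)
    (δ : Path x₀ (g • x₀)) :
    ((δ.map S.loc.continuous).cast rfl ((S.fib _ _).2 ⟨g, rfl⟩)).Homotopic
      (Path.refl (S.p x₀)) := by
  have := S.pb6_ker_normal
  obtain ⟨m, δ', c, h1, h2⟩ := Subgroup.normalClosure_le_normal S.pb6_mer_subset hg x₀
  have hm : m = S.p x₀ := by simpa using h1 0
  subst hm
  exact (S.pb6_indep δ δ' _ c (fun _ => rfl) h1).trans h2

end FS

end Pool.Agent.Work.MP_3d425c_gt.Bor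
end

-- merged part: Pool.Agent.Work.MP_3d425c_gt.PB7
section
/-! Fundamental groups of fillings by solid tori: the holonomy representation. -/

namespace Pool.Agent.Work.MP_3d425c_gt.Bor
open Classical

section PB7aux
open Set Filter Topology unitInterval Pool.Agent.Work.MP_5036cb_gt

theorem PB7_rep_hom {Y G : Type} [TopologicalSpace Y] [Group G] {R : (I → Y) → G}
    (hR : IsRep univ R) (y : Y) : ∃ α : FundamentalGroup Y y →* Gᵐᵒᵖ,
      ∀ c : Path y y, α (FundamentalGroup.fromPath ⟦c⟧) = MulOpposite.op (R c) := by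
  have h1 : ∀ a b : Path y y, a.Homotopic b → R a = R b := by
    rintro a b ⟨H⟩
    have h := hR.square H H.continuous fun _ => mem_univ _
    simp only [Path.Homotopy.source, Path.Homotopy.target, ContinuousMap.HomotopyWith.apply_zero,
      ContinuousMap.HomotopyWith.apply_one, hR.const y (mem_univ _), one_mul, mul_one] at h
    exact h.symm
  have h2 : ∀ a b : Path y y, R (a.trans b) = R a * R b := by
    intro a b
    obtain ⟨T, hT⟩ := hR.exists_pot (convex_univ (𝕜 := ℝ) (E := ℝ))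
      (Ψ := (a.trans b).extend) (a.trans b).continuous_extend.continuousOn (mapsTo_univ _ _)
    have e0 := hT (fun t => (t : ℝ)) ⟨by fun_prop, fun _ => mem_univ _⟩
    have e1 := hT (fun t => (t : ℝ) / 2) ⟨by fun_prop, fun _ => mem_univ _⟩
    have e2 := hT (fun t => (1 + (t : ℝ)) / 2) ⟨by fun_prop, fun _ => mem_univ _⟩
    have f0 : (fun t : I => (a.trans b).extend t) = a.trans b := funext fun t => by simp
    have f1 : (fun t : I => (a.trans b).extend ((t : ℝ) / 2)) = a := funext fun t => by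
      rw [Path.extend_trans_of_le_half _ _ (by linarith [t.2.2]), mul_div_cancel₀ _ two_ne_zero]
      simp
    have f2 : (fun t : I => (a.trans b).extend ((1 + (t : ℝ)) / 2)) = b := funext fun t => by
      rw [Path.extend_trans_of_half_le _ _ (by linarith [t.2.1]), mul_div_cancel₀ _ two_ne_zero,
        add_sub_cancel_left]
      simp
    rw [f0] at e0
    rw [f1] at e1
    rw [f2] at e2
    rw [e0, e1, e2]
    norm_num
  refine ⟨MonoidHom.mk' (fun q => Quotient.lift (fun c : Path y y => MulOpposite.op (R c))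
    (fun a b h => congrArg _ (h1 a b h)) (FundamentalGroup.toPath q)) fun p q => ?_, fun c => rfl⟩
  obtain ⟨a, rfl⟩ := Path.Homotopic.Quotient.mk_surjective p
  obtain ⟨b, rfl⟩ := Path.Homotopic.Quotient.mk_surjective q
  change MulOpposite.op (R (b.trans a)) = MulOpposite.op (R a) * MulOpposite.op (R b)
  rw [h2, MulOpposite.op_mul]

theorem PB7_shift {A G : Type} [AddCommGroup A] [Group G] {f : A → G} {a : A} {l : G}
    (h : ∀ x, f (x + a) = l * f x) (n : ℤ) (x : A) : f (x + n • a) = l ^ n * f x := by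
  induction n using Int.induction_on with
  | zero => simp
  | succ n ih => rw [add_smul, one_smul, ← add_assoc, h, ih, ← mul_assoc, ← zpow_one_add, add_comm 1]
  | pred n ih =>
    have h1 := h (x + (-(n : ℤ) - 1) • a)
    rw [add_assoc, ← add_one_zsmul, sub_add_cancel, ih] at h1
    rw [← mul_left_cancel_iff (a := l), ← h1, ← mul_assoc, ← zpow_one_add, add_sub_cancel]

theorem PB7_lc {φ ψ : OpenPartialHomeomorph ℝ Circle} (hφ : ⇑Circle.exp = φ)
    (hψ : ⇑Circle.exp = ψ) {w : Circle} (h₁ : w ∈ φ.target) (h₂ : w ∈ ψ.target) :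
    ∃ n : ℤ, ∀ᶠ w' in 𝓝 w, φ.symm w' = ψ.symm w' + n * (2 * Real.pi) := by
  have he : ∀ w' ∈ φ.target ∩ ψ.target, ∃ n : ℤ, φ.symm w' = ψ.symm w' + n * (2 * Real.pi) :=
    fun w' h => Circle.exp_eq_exp.1 <|
      ((congrFun hφ _).trans (φ.right_inv h.1)).trans ((congrFun hψ _).trans (ψ.right_inv h.2)).symm
  obtain ⟨n, hn⟩ := he w ⟨h₁, h₂⟩
  refine ⟨n, ?_⟩
  have hc : ContinuousAt (fun w' => φ.symm w' - ψ.symm w') w :=
    (φ.continuousAt_symm h₁).sub (ψ.continuousAt_symm h₂)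
  filter_upwards [(φ.open_target.inter ψ.open_target).mem_nhds ⟨h₁, h₂⟩,
    Metric.tendsto_nhds.1 hc _ Real.two_pi_pos] with w' h h'
  obtain ⟨m, hm⟩ := he w' h
  rw [hm, hn, Real.dist_eq, add_sub_cancel_left, add_sub_cancel_left, ← sub_mul, abs_mul,
    abs_of_pos Real.two_pi_pos, mul_lt_iff_lt_one_left Real.two_pi_pos, ← Int.cast_sub,
    ← Int.cast_abs, ← Int.cast_one, Int.cast_lt, Int.abs_lt_one_iff, sub_eq_zero] at h'
  rw [hm, h']

variable {Γ X M ι : Type} [Group Γ] [TopologicalSpace X] [MulAction Γ X] [TopologicalSpace M]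
  (S : FS Γ X M ι)

theorem FS.PB7_p_smul (g : Γ) (x : X) : S.p (g • x) = S.p x := ((S.fib _ _).2 ⟨g, rfl⟩).symm

include S in
theorem FS.PB7_k (x₀ : X) : ∃ k : X → Γ, ∀ g x, k (g • x) = g * k x := by
  have : Nonempty X := ⟨x₀⟩
  have h : ∀ x, ∃ g : Γ, x = g • Function.invFun S.p (S.p x) := fun x =>
    (S.fib _ _).1 (Function.invFun_eq ⟨x, rfl⟩)
  choose k hk using h
  refine ⟨k, fun g x => ?_⟩
  have h1 := hk (g • x)
  rw [S.PB7_p_smul] at h1
  have h2 : ((g * k x)⁻¹ * k (g • x)) • Function.invFun S.p (S.p x) =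
      Function.invFun S.p (S.p x) := by
    rw [mul_smul, ← h1, inv_smul_eq_iff, mul_smul, ← hk x]
  exact (inv_mul_eq_one.1 (S.free _ _ h2)).symm

theorem FS.PB7_lift (i : ι) : ∃ L : C(ℂ × ℝ, X),
    (∀ q, S.p (L q) = S.N i (Complex.exp q.1, Circle.exp q.2)) ∧ ∃ c ∈ S.Mer, ∃ l : Γ,
      (∀ q, L (q + (2 * Real.pi * Complex.I, 0)) = c • L q) ∧
        ∀ q, L (q + (0, 2 * Real.pi)) = l • L q := by
  have cov := S.quotCov.isCoveringMap
  have := S.cont
  let f : C(ℂ × ℝ, range S.p) := ⟨fun q => ⟨S.N i (Complex.exp q.1, Circle.exp q.2),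
    (S.core _ _ _).2 (Complex.exp_ne_zero _)⟩,
    Continuous.subtype_mk ((S.emb i).continuous.comp (by fun_prop)) _⟩
  obtain ⟨e, he⟩ := (f 0).2
  obtain ⟨L, ⟨-, hL⟩, -⟩ := cov.existsUnique_continuousMap_lifts f 0 e (Subtype.ext he)
  have hL' : ∀ q, S.p (L q) = S.N i (Complex.exp q.1, Circle.exp q.2) := fun q =>
    congrArg Subtype.val (congrFun hL q)
  have per : ∀ a : ℂ × ℝ, (∀ q, S.p (L q) = S.p (L (q + a))) →
      ∃ c : Γ, ∀ q, L (q + a) = c • L q := fun a ha => by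
    obtain ⟨c, hc⟩ := (S.fib _ _).1 (ha 0)
    refine ⟨c, congrFun (cov.eq_of_comp_eq (g₁ := fun q => L (q + a)) (g₂ := fun q => c • L q)
      (by fun_prop) (by fun_prop) (funext fun q => Subtype.ext ?_) 0 hc)⟩
    exact (ha q).symm.trans (S.PB7_p_smul c _).symm
  obtain ⟨c, hc⟩ := per (2 * Real.pi * Complex.I, 0) fun q => by
    simp [hL', Complex.exp_add]
  obtain ⟨l, hl⟩ := per (0, 2 * Real.pi) fun q => by
    simp [hL']
  refine ⟨L, hL', c, ⟨i, ⟨fun t => L ((2 * Real.pi * t : ℝ) * Complex.I, 0), by fun_prop⟩,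
    fun t => ?_, ?_⟩, l, hc, hl⟩
  · change S.p (L _) = _
    rw [hL', Circle.coe_exp, Circle.exp_zero]
  · simpa using hc (0, 0)

theorem FS.PB7_tau (i : ι) {κ : X → Γ ⧸ Subgroup.normalClosure S.Mer}
    (hκ : ∀ (g : Γ) x, κ (g • x) = g * κ x) :
    ∃ (L : C(ℂ × ℝ, X)) (τ : ℂ × ℝ → Γ ⧸ Subgroup.normalClosure S.Mer)
      (l : Γ ⧸ Subgroup.normalClosure S.Mer),
      (∀ q, S.p (L q) = S.N i (Complex.exp q.1, Circle.exp q.2)) ∧
      (∀ q : ℂ × ℝ, τ (Complex.exp q.1, q.2) = κ (L q)) ∧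
      ∀ z s (n : ℤ), τ (z, s + n * (2 * Real.pi)) = l ^ n * τ (z, s) := by
  obtain ⟨L, hL, c, hc, l, h1, h2⟩ := S.PB7_lift i
  have hc1 : (c : Γ ⧸ Subgroup.normalClosure S.Mer) = 1 :=
    (QuotientGroup.eq_one_iff c).2 (Subgroup.subset_normalClosure hc)
  have e1 := PB7_shift (f := fun q => κ (L q)) (l := 1) fun q => by rw [h1, hκ, hc1]
  have e2 := PB7_shift (f := fun q => κ (L q)) (l := l) fun q => by rw [h2, hκ]
  refine ⟨L, fun q => if q.1 = 0 then (l : Γ ⧸ Subgroup.normalClosure S.Mer) ^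
    ⌊q.2 / (2 * Real.pi)⌋ else κ (L (Complex.log q.1, q.2)), l, hL, fun q => ?_,
    fun z s n => ?_⟩
  · simp only [Complex.exp_ne_zero, if_false]
    obtain ⟨n, hn⟩ := Complex.exp_eq_exp_iff_exists_int.1
      (Complex.exp_log (Complex.exp_ne_zero q.1))
    have h := e1 n q
    rw [one_zpow, one_mul] at h
    rw [← h, hn]
    congr 2
    ext <;> simp
  · by_cases hz : z = 0
    · simp only [hz, if_true]
      rw [add_div, mul_div_cancel_right₀ _ Real.two_pi_pos.ne', Int.floor_add_intCast, add_comm,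
        zpow_add]
    · simp only [hz, if_false]
      rw [← e2 n]
      congr 2
      ext <;> simp

theorem FS.PB7_open (i : ι) {L : C(ℂ × ℝ, X)}
    (hL : ∀ q, S.p (L q) = S.N i (Complex.exp q.1, Circle.exp q.2)) (g : Γ) (q : ℂ × ℝ)
    {A : Set (ℂ × ℝ)} (hA : A ∈ 𝓝 q) : ∀ᶠ x in 𝓝 (g • L q), ∃ a ∈ A, x = g • L a := by
  have := S.cont
  obtain ⟨W, hW, hx, hinj⟩ := S.loc.isLocallyInjective (g • L q)
  have ho : IsOpenMap fun a : ℂ × ℝ => S.N i (Complex.exp a.1, Circle.exp a.2) :=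
    (S.emb i).isOpenMap.comp (Complex.isOpenMap_exp.prodMap isLocalHomeomorph_circleExp.isOpenMap)
  have hc : Continuous fun a : ℂ × ℝ => g • L a := by fun_prop
  have h1 := ho.image_mem_nhds (inter_mem hA (hc.continuousAt.preimage_mem_nhds (hW.mem_nhds hx)))
  rw [← hL, ← S.PB7_p_smul g] at h1
  filter_upwards [hW.mem_nhds hx, S.loc.continuous.continuousAt.preimage_mem_nhds h1] with x h h'
  obtain ⟨a, ⟨ha, ha'⟩, e⟩ := h'
  exact ⟨a, ha, hinj h ha' (by rw [S.PB7_p_smul, hL]; exact e.symm)⟩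

theorem FS.PB7_charts (x₀ : X) {κ : X → Γ ⧸ Subgroup.normalClosure S.Mer}
    (hκ : ∀ (g : Γ) x, κ (g • x) = g * κ x) :
    ∃ (U : X ⊕ ι × ℝ → Set M) (t : X ⊕ ι × ℝ → M → Γ ⧸ Subgroup.normalClosure S.Mer),
      (∀ j, IsOpen (U j)) ∧ (∀ y, ∃ j, y ∈ U j) ∧
      (∀ j x, S.p x ∈ U j → ∃ c, ∀ᶠ x' in 𝓝 x, t j (S.p x') = c * κ x') ∧
      ∀ i j, ∀ y ∈ U i ∩ U j, y ∉ range S.p → ∃ c, ∀ᶠ y' in 𝓝 y, t i y' = c * t j y' := by
  have := S.cont
  have : Nonempty X := ⟨x₀⟩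
  choose W hW hxW hinj using S.loc.isLocallyInjective
  choose φ hφ hφ' using isLocalHomeomorph_circleExp
  choose L τ l hL hτ hl using fun i => S.PB7_tau i hκ
  have hN : ∀ i a, Function.invFun (S.N i) (S.N i a) = a := fun i =>
    Function.leftInverse_invFun (S.emb i).injective
  refine ⟨Sum.elim (fun a => S.p '' W a) fun j => S.N j.1 '' (univ ×ˢ (φ j.2).target),
    Sum.elim (fun a m => κ (Function.invFunOn S.p (W a) m)) fun j m =>
      τ j.1 ((Function.invFun (S.N j.1) m).1, (φ j.2).symm (Function.invFun (S.N j.1) m).2),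
    ?_, fun y => ?_, ?_, ?_⟩
  · rintro (a | j)
    · exact S.loc.isOpenMap _ (hW a)
    · exact (S.emb _).isOpenMap _ (isOpen_univ.prod (φ j.2).open_target)
  · rcases S.cover y with ⟨a, rfl⟩ | ⟨i, ⟨z, w⟩, rfl⟩
    · exact ⟨.inl a, a, hxW a, rfl⟩
    · obtain ⟨r, rfl⟩ := Circle.exp_surjective w
      refine ⟨.inr (i, r), _, ⟨mem_univ _, ?_⟩, rfl⟩
      rw [congrFun (hφ' r) r]
      exact (φ r).map_source (hφ r)
  · rintro (a | ⟨i, r⟩) x hx
    · obtain ⟨w, hw, e⟩ := hx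
      obtain ⟨g, rfl⟩ := (S.fib _ _).1 e
      refine ⟨((g⁻¹ : Γ) : Γ ⧸ Subgroup.normalClosure S.Mer), ?_⟩
      have hc : Continuous fun x' : X => g⁻¹ • x' := by fun_prop
      filter_upwards [hc.continuousAt.preimage_mem_nhds ((hW a).mem_nhds
        (show g⁻¹ • g • w ∈ W a by rwa [inv_smul_smul]))] with x' hx'
      change κ (Function.invFunOn S.p (W a) (S.p x')) = _
      rw [← S.PB7_p_smul g⁻¹ x', (hinj a).leftInvOn_invFunOn hx', hκ]
    · obtain ⟨⟨z, w⟩, ⟨-, hw⟩, e⟩ := hx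
      have hz : z ≠ 0 := (S.core i z w).1 ⟨x, e.symm⟩
      have e' : S.p (L i (Complex.log z, (φ r).symm w)) = S.p x := by
        rw [hL, Complex.exp_log hz, congrFun (hφ' r) _, (φ r).right_inv hw, e]
      obtain ⟨g, rfl⟩ := (S.fib _ _).1 e'
      refine ⟨((g : Γ) : Γ ⧸ Subgroup.normalClosure S.Mer)⁻¹, ?_⟩
      filter_upwards [S.PB7_open i (hL i) g (Complex.log z, (φ r).symm w)
        ((isOpen_univ.prod (φ r).open_source).mem_nhds ⟨mem_univ _, (φ r).map_target hw⟩)]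
        with x' ⟨a, ha, e⟩
      change τ i ((Function.invFun (S.N i) (S.p x')).1,
        (φ r).symm (Function.invFun (S.N i) (S.p x')).2) = _
      rw [e, S.PB7_p_smul, hL, hN, hκ, inv_mul_cancel_left, ← hτ]
      congr 2
      rw [congrFun (hφ' r) _]
      exact (φ r).left_inv ha.2
  · rintro (a | ⟨i, r⟩) (a' | ⟨i', r'⟩) y ⟨h₁, h₂⟩ hy
    · exact absurd (image_subset_range _ _ h₁) hy
    · exact absurd (image_subset_range _ _ h₁) hy
    · exact absurd (image_subset_range _ _ h₂) hy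
    obtain ⟨b, hb, rfl⟩ := h₁
    obtain ⟨b', hb', e⟩ := h₂
    obtain rfl : i' = i := S.disj _ _ _ _ e
    obtain rfl : b' = b := (S.emb _).injective e
    obtain ⟨n, hn⟩ := PB7_lc (hφ' r) (hφ' r') hb.2 hb'.2
    refine ⟨l i' ^ n, ?_⟩
    rw [← (S.emb i').map_nhds_eq, eventually_map]
    filter_upwards [continuous_snd.continuousAt.eventually hn] with a ha
    change τ i' ((Function.invFun (S.N i') (S.N i' a)).1,
        (φ r).symm (Function.invFun (S.N i') (S.N i' a)).2) =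
      l i' ^ n * τ i' ((Function.invFun (S.N i') (S.N i' a)).1,
        (φ r').symm (Function.invFun (S.N i') (S.N i' a)).2)
    rw [hN, ha, hl]

theorem FS.PB7_rep (x₀ : X) {κ : X → Γ ⧸ Subgroup.normalClosure S.Mer}
    (hκ : ∀ (g : Γ) x, κ (g • x) = g * κ x) :
    ∃ R : (I → M) → Γ ⧸ Subgroup.normalClosure S.Mer, IsRep univ R ∧
      ∀ δ : I → X, Continuous δ → κ (δ 0) * R (fun t => S.p (δ t)) * (κ (δ 1))⁻¹ = 1 := by
  obtain ⟨U, t, hU, hcov, hflat, hcore⟩ := S.PB7_charts x₀ hκ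
  have hlc : ∀ i j, ∀ y ∈ U i ∩ U j, ∃ c, ∀ᶠ y' in 𝓝 y, t i y' = c * t j y' := by
    intro i j y hy
    by_cases h : y ∈ range S.p
    · obtain ⟨x, rfl⟩ := h
      obtain ⟨c, hc⟩ := hflat i x hy.1
      obtain ⟨c', hc'⟩ := hflat j x hy.2
      refine ⟨c * c'⁻¹, ?_⟩
      rw [← S.loc.map_nhds_eq, eventually_map]
      filter_upwards [hc, hc'] with x' h h'
      rw [h, h', mul_assoc, inv_mul_cancel_left]
    · exact hcore i j y hy h
  obtain ⟨R, hR, hloc⟩ := exists_rep_of_local_univ U t hU hcov fun i j y hy => by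
    obtain ⟨c, hc⟩ := hlc i j y hy
    filter_upwards [hc] with y' h
    rw [h, hc.self_of_nhds, mul_inv_cancel_right, mul_inv_cancel_right]
  refine ⟨R, hR, fun δ hδ => ?_⟩
  refine ((hR.comp (X := univ) S.loc.continuous.continuousOn (mapsTo_univ _ _)).gauge
    κ).eq_one_of_local (γ := δ) ⟨hδ, fun _ => mem_univ _⟩ fun s => ?_
  obtain ⟨j, hj⟩ := hcov (S.p (δ s))
  obtain ⟨c, hc⟩ := hflat j _ hj
  refine ⟨_, mem_nhdsWithin_of_mem_nhds (inter_mem hc
    (S.loc.continuous.continuousAt.preimage_mem_nhds ((hU j).mem_nhds hj))), fun γ hγ => ?_⟩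
  have h0 : t j (S.p (γ 0)) = c * κ (γ 0) := (hγ.2 0).2.1
  have h1 : t j (S.p (γ 1)) = c * κ (γ 1) := (hγ.2 1).2.1
  rw [hloc j (fun t => S.p (γ t)) ⟨S.loc.continuous.comp hγ.1, fun s => (hγ.2 s).2.2⟩, h0, h1]
  group

end PB7aux

namespace FS
variable {Γ X M ι : Type} [Group Γ] [TopologicalSpace X] [MulAction Γ X] [TopologicalSpace M]
  (S : FS Γ X M ι)

theorem exists_hom (x₀ : X) :
    ∃ α : FundamentalGroup M (S.p x₀) →* (Γ ⧸ Subgroup.normalClosure S.Mer)ᵐᵒᵖ,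
      ∀ (g : Γ) (δ : Path x₀ (g • x₀)), α (FundamentalGroup.fromPath
        ⟦(δ.map S.loc.continuous).cast rfl ((S.fib _ _).2 ⟨g, rfl⟩)⟧) = MulOpposite.op ↑g := by
  obtain ⟨k, hk⟩ := S.PB7_k x₀
  have hκ : ∀ (g : Γ) x, ((k (g • x) * (k x₀)⁻¹ : Γ) : Γ ⧸ Subgroup.normalClosure S.Mer) =
      g * (k x * (k x₀)⁻¹ : Γ) := fun g x => by rw [hk, mul_assoc, QuotientGroup.mk_mul]
  obtain ⟨R, hR, h⟩ := S.PB7_rep x₀ (κ := fun x => (k x * (k x₀)⁻¹ : Γ)) hκ
  obtain ⟨α, hα⟩ := PB7_rep_hom hR (S.p x₀)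
  refine ⟨α, fun g δ => (hα _).trans (congrArg _ ?_)⟩
  have h1 := h δ δ.continuous
  rw [δ.source, δ.target, hk, mul_inv_cancel, mul_inv_cancel_right, QuotientGroup.mk_one, one_mul,
    mul_inv_eq_one] at h1
  exact h1

end FS

end Pool.Agent.Work.MP_3d425c_gt.Bor
end

-- merged part: Pool.Agent.Work.MP_3d425c_gt.PB8
section
/-! Fundamental groups of fillings by solid tori. -/

namespace Pool.Agent.Work.MP_3d425c_gt.Bor
open Classical

theorem FS.PB8_pathConnected {Γ X M ι : Type} [Group Γ] [TopologicalSpace X] [MulAction Γ X]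
    [TopologicalSpace M] (S : FS Γ X M ι) : PathConnectedSpace M := by
  have := S.sc
  obtain ⟨x₀⟩ : Nonempty X := inferInstance
  have hp : ∀ x : X, Joined (S.p x₀) (S.p x) := fun x =>
    ⟨(PathConnectedSpace.somePath x₀ x).map S.loc.continuous⟩
  have key : ∀ m : M, Joined (S.p x₀) m := by
    intro m
    rcases S.cover m with ⟨x, rfl⟩ | ⟨i, ⟨z, s⟩, rfl⟩
    · exact hp x
    · obtain ⟨x, hx⟩ := (S.core i 1 s).2 one_ne_zero
      have hc : Continuous fun w : ℂ => S.N i (w, s) :=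
        (S.emb i).continuous.comp (continuous_id.prodMk continuous_const)
      have hj : Joined (S.N i (1, s)) (S.N i (z, s)) :=
        ⟨(PathConnectedSpace.somePath (1 : ℂ) z).map hc⟩
      exact (hx ▸ hp x).trans hj
  exact ⟨⟨S.p x₀⟩, fun a b => (key a).symm.trans (key b)⟩

theorem FS.pi1 {Γ X M ι : Type} [Group Γ] [TopologicalSpace X] [MulAction Γ X]
    [TopologicalSpace M] (S : FS Γ X M ι) (m : M) :
    Nonempty (FundamentalGroup M m ≃* Γ ⧸ Subgroup.normalClosure S.Mer) := by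
  have := S.sc
  have := S.PB8_pathConnected
  obtain ⟨x₀⟩ : Nonempty X := inferInstance
  obtain ⟨α, hα⟩ := S.exists_hom x₀
  have hsurj : Function.Surjective α := by
    intro y
    obtain ⟨g, hg⟩ := QuotientGroup.mk_surjective (MulOpposite.unop y)
    refine ⟨_, (hα g (PathConnectedSpace.somePath x₀ (g • x₀))).trans ?_⟩
    rw [hg, MulOpposite.op_unop]
  have hinj : Function.Injective α := by
    rw [injective_iff_map_eq_one]
    intro a ha
    obtain ⟨c, rfl⟩ : ∃ c : Path (S.p x₀) (S.p x₀), FundamentalGroup.fromPath ⟦c⟧ = a :=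
      Quotient.exists_rep (FundamentalGroup.toPath a)
    obtain ⟨g, δ, hc⟩ := S.exists_lift x₀ c
    have e : (FundamentalGroup.fromPath ⟦c⟧ : FundamentalGroup M (S.p x₀)) =
        FundamentalGroup.fromPath
          ⟦(δ.map S.loc.continuous).cast rfl ((S.fib _ _).2 ⟨g, rfl⟩)⟧ := Quotient.sound hc
    rw [e, hα g δ] at ha
    have h1 : (g : Γ ⧸ Subgroup.normalClosure S.Mer) = 1 := by
      have := congrArg MulOpposite.unop ha
      simpa using this
    have hg : g ∈ Subgroup.normalClosure S.Mer := (QuotientGroup.eq_one_iff g).1 h1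
    exact Quotient.sound (hc.trans (S.null_of_mem x₀ hg δ))
  exact ⟨((FundamentalGroup.fundamentalGroupMulEquivOfPathConnected m (S.p x₀)).trans
    (MulEquiv.ofBijective α ⟨hinj, hsurj⟩)).trans (MulEquiv.inv' _).symm⟩

end Pool.Agent.Work.MP_3d425c_gt.Bor
end

-- merged part: Pool.Agent.Work.MP_3d425c_gt.PAOrd
section
/-! Left orders on groups of order automorphisms. -/

namespace Pool.Agent.Work.MP_3d425c_gt.Bor

theorem pa_ord_aux {ι Ω : Type} [LinearOrder ι] [WellFoundedLT ι] [LinearOrder Ω]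
    (e : ι → Ω) (he : Function.Surjective e) :
    ∃ _ : LinearOrder (Ω ≃o Ω), MulLeftStrictMono (Ω ≃o Ω) := by
  let F : (Ω ≃o Ω) → Lex (ι → Ω) := fun f => toLex fun i => f (e i)
  have hF : Function.Injective F := fun f g h => by
    ext w
    obtain ⟨i, rfl⟩ := he w
    exact congrFun (toLex.injective h) i
  refine ⟨LinearOrder.lift' F hF, ⟨fun a b c h => ?_⟩⟩
  obtain ⟨i, h1, h2⟩ : F b < F c := h
  refine (⟨i, fun j hj => ?_, ?_⟩ : F (a * b) < F (a * c))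
  · exact congrArg a (h1 j hj)
  · exact a.strictMono h2

theorem pa_ord (Ω : Type) [i : LinearOrder Ω] :
    ∃ _ : LinearOrder (Ω ≃o Ω), MulLeftStrictMono (Ω ≃o Ω) := by
  obtain ⟨w, hw⟩ := exists_wellFoundedLT Ω
  exact @pa_ord_aux Ω Ω w hw i id Function.surjective_id

end Pool.Agent.Work.MP_3d425c_gt.Bor
end

-- merged part: Pool.Agent.Work.MP_3d425c_gt.PB9
section
/-! Left orders on fundamental groups of fillings of pseudo-Anosov mapping tori. -/

namespace Pool.Agent.Work.MP_3d425c_gt.Bor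
open Classical PA

theorem pb9_order {G Γ Ω : Type} [Group G] [Group Γ] [LinearOrder Ω] (ρ : Γ →* (Ω ≃o Ω))
    (K : Subgroup Γ) [K.Normal] (h1 : ρ ≠ 1) (h2 : ∀ g, ρ g = 1 ↔ g ∈ K) (φ : G ≃* Γ ⧸ K) :
    Nontrivial G ∧ ∃ r : G → G → Prop,
      IsStrictTotalOrder _ r ∧ ∀ a b c, r a b ↔ r (c * a) (c * b) := by
  obtain ⟨i, hi⟩ := pa_ord Ω
  let f₀ := QuotientGroup.lift K ρ fun g hg => (h2 g).2 hg
  have hf₀ : Function.Injective f₀ := (injective_iff_map_eq_one f₀).2 fun a =>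
    QuotientGroup.induction_on a fun g hg => (QuotientGroup.eq_one_iff g).2 ((h2 g).1 hg)
  let f := f₀.comp φ.toMonoidHom
  have hf : Function.Injective f := hf₀.comp φ.injective
  refine ⟨?_, fun a b => f a < f b, ?_, fun a b c => ?_⟩
  · by_contra hn
    rw [not_nontrivial_iff_subsingleton] at hn
    exact h1 (MonoidHom.ext fun g => (h2 g).2 ((QuotientGroup.eq_one_iff g).1
      (φ.symm.injective (Subsingleton.elim _ _))))
  · exact
      { trichotomous := fun a b k1 k2 => hf (le_antisymm (not_lt.1 k2) (not_lt.1 k1))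
        irrefl := fun a => lt_irrefl _
        trans := fun a b c => lt_trans }
  · show f a < f b ↔ f (c * a) < f (c * b)
    rw [map_mul, map_mul]
    exact (mul_lt_mul_iff_left _).symm

theorem pb9_ht {V : Type} [LinearOrder V] (y : V → ℝ) (w : V) : ht y (Pi.single w 1) = y w := by
  have := ht_bary y w w w 1 0 0
  simpa [bary] using this

theorem pb9_mid {V : Type} [LinearOrder V] {E : V → V → Prop} (hE : IdealTri E) {a b : V}
    (h : E a b) : a ≠ b ∧ ∃ x : Disc E, x.1 a = 1 / 2 ∧ x.1 b = 1 / 2 ∧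
      ∀ v, v ≠ a → v ≠ b → x.1 v = 0 := by
  obtain ⟨c, hc, h1, h2⟩ := hE.apex a b h
  have hab : a ≠ b := (cyc_ne hc).2.2
  refine ⟨hab, ⟨bary a c b (1 / 2) 0 (1 / 2), (mem_disc hE).2 ⟨a, c, b, 1 / 2, 0, 1 / 2, h1, h2, h,
    hc, by norm_num, le_rfl, by norm_num, by norm_num, rfl⟩⟩, ?_, ?_, fun v k1 k2 => ?_⟩
  · simp [bary, hab]
  · simp [bary, hab.symm]
  · simp [bary, k1, k2]

theorem pb_main {V Γ M ι : Type} [LinearOrder V] [Countable V] [Group Γ] [MulAction Γ V]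
    [TopologicalSpace M] (E : V → V → Prop) [MulAction Γ (Disc E)]
    [ContinuousConstSMul Γ (Disc E)] (y : V → ℝ) (deg e : Γ → ℤ) (lam : ℝ) (γ : V → Γ)
    (hE : IdealTri E) (hy : ∀ a b, E a b → y a ≠ y b)
    (nos : ∀ w a₀ b₀ a b c, Leaf E y w a₀ b₀ a b → cyc a c b → E a c → E c b → y c ≠ y w)
    (hcyc : ∀ (g : Γ) (a b c : V), cyc a b c → cyc (g • a) (g • b) (g • c))
    (hvert : ∀ (g : Γ) (w : V) (x : Disc E), x.1 w = 1 → (g • x).1 (g • w) = 1)
    (hdeg : ∀ g h, deg (g * h) = deg g + deg h) (he : ∀ g h, e (g * h) = e g + e h)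
    (hlam : 1 < lam)
    (haff : ∀ g : Γ, ∃ t : ℝ, ∀ x : Disc E,
      ht y (g • x).1 = (-1) ^ e g * lam ^ deg g * ht y x.1 + t)
    (hfib : ∀ g : Γ, deg g = 0 → ∀ x : Disc E, (∀ v : V, (g • x).1 (g • v) = x.1 v) ∧
      (g • x = x → (∀ w, x.1 w < 1) → g = 1))
    (hper : ∀ w : V, (∃ g : Γ, g • w = w ∧ deg g ≠ 0) ∧ ∃ g : Γ, g ≠ 1 ∧ g • w = w ∧ deg g = 0)
    (hfix : ∀ w : V, γ w • w = w) (hconj : ∀ (g : Γ) (w : V), γ (g • w) = g * γ w * g⁻¹)
    (hprim : ∀ (w : V) (s : Γ) (k l : ℤ), s • w = w → s ^ k = γ w ^ l → k ∣ l)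
    (hslope : ∀ w u : V, u ≠ w →
      0 < |e (γ w)| ∧ |e (γ w)| < (prongs E y w u (γ w • u) : ℤ))
    (p : {x : Disc E // ∀ w, x.1 w < 1} × ℝ → M) (hp : IsLocalHomeomorph p)
    (hpf : ∀ a b, p a = p b ↔ ∃ g : Γ, b.1.1 = g • a.1.1 ∧ b.2 = a.2 + deg g)
    (N : ι → ℂ × Circle → M) (hN : ∀ i, Topology.IsOpenEmbedding (N i))
    (hdisj : ∀ i j a b, N i a = N j b → i = j)
    (hcore : ∀ i z s, N i (z, s) ∈ Set.range p ↔ z ≠ 0)
    (hcover : ∀ m, m ∈ Set.range p ∨ ∃ i, m ∈ Set.range (N i))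
    (hmer : ∀ g : Γ, g ∈ Set.range γ ↔
      ∃ (i : ι) (l : C(ℝ, {x : Disc E // ∀ w, x.1 w < 1} × ℝ)),
        (∀ t, p (l t) = N i (Circle.exp (2 * Real.pi * t), 1)) ∧
        (l 1).1.1 = g • (l 0).1.1 ∧ (l 1).2 = (l 0).2 + deg g) (m : M) :
    Nontrivial (FundamentalGroup M m) ∧
      ∃ r : FundamentalGroup M m → FundamentalGroup M m → Prop,
        IsStrictTotalOrder _ r ∧ ∀ a b c, r a b ↔ r (c * a) (c * b) := by
  have d1 : deg 1 = 0 := by
    have := hdeg 1 1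
    rw [mul_one] at this
    omega
  have di : ∀ g : Γ, deg g⁻¹ = -deg g := fun g => by
    have := hdeg g⁻¹ g
    rw [inv_mul_cancel, d1] at this
    omega
  have haff' : ∀ g : Γ, ∃ t : ℝ, ∀ v : V, y (g • v) = (-1) ^ e g * lam ^ deg g * y v + t := by
    intro g
    obtain ⟨t, h⟩ := haff g
    refine ⟨t, fun v => ?_⟩
    have h1 := h ⟨_, single_mem hE v⟩
    have h2 := eq_single hE (g • (⟨_, single_mem hE v⟩ : Disc E)).2
      (hvert g v ⟨_, single_mem hE v⟩ (by simp))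
    rw [h2, pb9_ht, pb9_ht] at h1
    exact h1
  have hfib' : ∀ g : Γ, deg g = 0 → ∀ a b : V, E a b →
      E (g • a) (g • b) ∧ (g • a = a → g • b = b → g = 1) := by
    intro g hg a b hab
    obtain ⟨hne, x, ha, hb, h0⟩ := pb9_mid hE hab
    obtain ⟨k1, k2⟩ := hfib g hg x
    refine ⟨adj_of_pos hE (g • x).2 (fun h => hne (MulAction.injective g h))
      (by rw [k1, ha]; norm_num) (by rw [k1, hb]; norm_num), fun e1 e2 => k2 ?_ fun w => ?_⟩
    · refine Subtype.ext (funext fun v => ?_)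
      by_cases h1 : v = a
      · rw [h1]
        exact (congrArg _ e1.symm).trans (k1 a)
      by_cases h2 : v = b
      · rw [h2]
        exact (congrArg _ e2.symm).trans (k1 b)
      have := k1 (g⁻¹ • v)
      rw [smul_inv_smul] at this
      rw [this, h0 v h1 h2]
      exact h0 _ (fun h => h1 (by rw [← e1, ← h, smul_inv_smul]))
        fun h => h2 (by rw [← e2, ← h, smul_inv_smul])
    · by_cases h1 : w = a
      · rw [h1, ha]; norm_num
      by_cases h2 : w = b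
      · rw [h2, hb]; norm_num
      rw [h0 w h1 h2]; norm_num
  let K : Subgroup Γ :=
    { carrier := {g | deg g = 0}
      mul_mem' := fun {a b} ha hb => by
        have ha' : deg a = 0 := ha
        have hb' : deg b = 0 := hb
        show deg (a * b) = 0
        rw [hdeg, ha', hb', add_zero]
      one_mem' := d1
      inv_mem' := fun {a} ha => by
        have ha' : deg a = 0 := ha
        show deg a⁻¹ = 0
        rw [di, ha', neg_zero] }
  have hb := nbr_bound hE y K hcyc (fun g hg a b hab => by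
      have hg' : deg g = 0 := hg
      obtain ⟨t, h⟩ := haff' g
      refine ⟨(hfib' g hg a b hab).1, (hfib' g hg a b hab).2, ?_⟩
      rw [h, h, hg', zpow_zero, mul_one, add_sub_add_right_eq_sub, ← mul_sub, abs_mul, abs_zpow,
        abs_neg, abs_one, one_zpow, one_mul])
    (fun w => by
      obtain ⟨g, k1, k2, k3⟩ := (hper w).2
      exact ⟨g, k3, k1, k2⟩)
  have hprong := TH.prong_smul ⟨E, y, hE, hy, nos⟩ hb hcyc hvert
    (fun g => ⟨_, haff g⟩)
  obtain ⟨Ω, _, ρ, h1, h2⟩ := pa_main E y deg e lam γ hE hy nos hcyc hprong hdeg he hlam haff'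
    hfib' hper hfix hconj hprim hslope
  have hnv : ∀ (g : Γ) (x : Disc E), (∀ w, x.1 w < 1) → ∀ w, (g • x).1 w < 1 := by
    intro g x hx w
    refine lt_of_le_of_ne (disc_nonneg hE (g • x).2 w).2 fun h => ?_
    have := hvert g⁻¹ w _ h
    rw [inv_smul_smul] at this
    exact (hx _).ne this
  letI act : MulAction Γ ({x : Disc E // ∀ w, x.1 w < 1} × ℝ) :=
    { smul := fun g a => (⟨g • a.1.1, hnv g _ a.1.2⟩, a.2 + deg g)
      one_smul := fun a => Prod.ext (Subtype.ext (one_smul Γ a.1.1))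
        (show a.2 + (deg 1 : ℝ) = a.2 by rw [d1, Int.cast_zero, add_zero])
      mul_smul := fun g h a => Prod.ext (Subtype.ext (mul_smul g h a.1.1))
        (show a.2 + (deg (g * h) : ℝ) = a.2 + deg h + deg g by rw [hdeg]; push_cast; ring) }
  have hact : ∀ (g : Γ) (a b : {x : Disc E // ∀ w, x.1 w < 1} × ℝ),
      b = g • a ↔ b.1.1 = g • a.1.1 ∧ b.2 = a.2 + deg g := fun g a b =>
    ⟨fun h => ⟨congrArg (fun z => z.1.1) h, congrArg Prod.snd h⟩,
      fun h => Prod.ext (Subtype.ext h.1) h.2⟩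
  let S : FS Γ ({x : Disc E // ∀ w, x.1 w < 1} × ℝ) M ι :=
    { p := p
      N := N
      cont := ⟨fun g => (((continuous_const_smul g).comp
        (continuous_subtype_val.comp continuous_fst)).subtype_mk _).prodMk
          (continuous_snd.add continuous_const)⟩
      sc := fib_simplyConnected hE
      loc := hp
      fib := fun a b => by simp only [hact, hpf]
      free := fun g a h => by
        obtain ⟨k1, k2⟩ := (hact g a a).1 h.symm
        have : deg g = 0 := by exact_mod_cast (by linarith : (deg g : ℝ) = 0)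
        exact (hfib g this a.1.1).2 k1.symm a.1.2
      emb := hN
      disj := hdisj
      core := hcore
      cover := hcover }
  have hM : S.Mer = Set.range γ := by
    ext g
    rw [hmer]
    simp only [FS.Mer, Set.mem_ofPred_eq, hact]
    rfl
  obtain ⟨φ⟩ := S.pi1 m
  exact pb9_order ρ _ h1 (by rw [hM]; exact h2) φ

end Pool.Agent.Work.MP_3d425c_gt.Bor
end

-- merged part: Pool.Agent.Work.MP_3d425c_gt.ZI
section
/-! Pseudo-Anosov mapping tori give prong trees. -/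

namespace Pool.Agent.Work.MP_3d425c_gt.Bor
open Classical PA

theorem zi_tree {V Γ : Type} [LinearOrder V] [Countable V] [Group Γ] [MulAction Γ V]
    (E : V → V → Prop) (y : V → ℝ) (deg e : Γ → ℤ) (lam : ℝ)
    (hE : IdealTri E) (hy : ∀ a b, E a b → y a ≠ y b)
    (nos : ∀ w a₀ b₀ a b c, Leaf E y w a₀ b₀ a b → cyc a c b → E a c → E c b → y c ≠ y w)
    (hcyc : ∀ (g : Γ) (a b c : V), cyc a b c → cyc (g • a) (g • b) (g • c))
    (hprong : ∀ (g : Γ) w S, Prong E y w S → Prong E y (g • w) ((g • ·) '' S))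
    (hdeg : ∀ g h, deg (g * h) = deg g + deg h) (he : ∀ g h, e (g * h) = e g + e h)
    (hlam : 1 < lam) (haff : ∀ g : Γ, ∃ t, ∀ v, y (g • v) = (-1) ^ e g * lam ^ deg g * y v + t)
    (hfib : ∀ g : Γ, deg g = 0 → ∀ a b, E a b → E (g • a) (g • b) ∧ (g • a = a → g • b = b → g = 1))
    (hper : ∀ w : V, (∃ g : Γ, g • w = w ∧ deg g ≠ 0) ∧ ∃ g : Γ, g ≠ 1 ∧ g • w = w ∧ deg g = 0)
    (hc : ∀ w, ∃ (g : Γ) (u : V), g • w = w ∧ u ≠ w ∧ 0 < prongs E y w u (g • u)) :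
    ∃ (X : Type) (_ : MulAction Γ X) (dir : V ⊕ X → V ⊕ X → ℤ) (own : X → V) (δ : V → Γ),
      PT.ProngTree dir own δ e ∧ ∀ w u v, u ≠ w → v ≠ w →
        |dir (.inl w) (.inl v) - dir (.inl w) (.inl u)| = prongs E y w u v := by
  let S : TH V := ⟨E, y, hE, hy, nos⟩
  have h : S.PAT5P Γ := hprong
  have dz : ∀ (g : Γ) (k : ℤ), deg (g ^ k) = k * deg g := fun g k =>
    PAT5_zpow ⊤ deg (fun g _ g' _ => hdeg g g') trivial k
  have di : ∀ g : Γ, deg g⁻¹ = -deg g := fun g =>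
    PAT5_inv ⊤ deg (fun g _ g' _ => hdeg g g') trivial
  have ci : ∀ {g : Γ} {w : V}, g • w = w → S.PAT5c g⁻¹ w = -S.PAT5c g w := fun hg => by
    simpa using TH.PAT5_cz h hg (-1)
  have cz : ∀ {g : Γ} {w : V}, g • w = w → ∀ k : ℤ, S.PAT5c (g ^ k) w = k * S.PAT5c g w :=
    TH.PAT5_cz h
  have fi : ∀ {g : Γ} {w : V}, g • w = w → g⁻¹ • w = w := fun hg => inv_smul_eq_iff.2 hg.symm
  have fz : ∀ {g : Γ} {w : V}, g • w = w → ∀ k : ℤ, g ^ k • w = w := fun hg k =>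
    (MulAction.stabilizer Γ _).zpow_mem (MulAction.mem_stabilizer_iff.2 hg) k
  have sl : ∀ w, ∃ g : Γ, g • w = w ∧ 0 < S.PAT5c g w := fun w => by
    obtain ⟨g, u, h1, h2, h3⟩ := hc w
    have h4 := S.abs_dir h2 (PAT5_ne' h1 h2)
    rw [TH.PAT5_fix h h1 h2, add_sub_cancel_left] at h4
    rcases lt_trichotomy (S.PAT5c g w) 0 with k | k | k
    · exact ⟨g⁻¹, fi h1, by rw [ci h1]; omega⟩
    · rw [k, abs_zero] at h4
      exact absurd (by exact_mod_cast h4) h3.ne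
    · exact ⟨g, h1, k⟩
  have rot : ∀ (g : Γ) w, g • w = w → S.PAT5c g w = 0 → deg g = 0 →
      ¬ cyc w (S.o w) (g • S.o w) := fun g w hg hc hd h0 => by
    obtain ⟨g', g1, g2⟩ := sl w
    have h1 := TH.PAT5_rot h hcyc hg hc (fun k => by
      have := (hfib (g ^ k) (by rw [dz, hd, mul_zero]) _ _ (S.o_spec w)).1
      rwa [fz hg] at this) h0 g1
    omega
  have free : ∀ (g : Γ) w, g • w = w → S.PAT5c g w = 0 → deg g = 0 → g = 1 := by
    intro g w hg hc hd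
    refine (hfib g hd _ _ (S.o_spec w)).2 hg ?_
    by_contra hn
    rcases cyc_total (S.PAT5_o w).symm (Ne.symm hn) (PAT5_ne' hg (S.PAT5_o w)).symm with k | k
    · exact rot g w hg hc hd k
    · refine rot g⁻¹ w (fi hg) (by rw [ci hg, hc, neg_zero]) (by rw [di, hd, neg_zero]) ?_
      have := hcyc g⁻¹ _ _ _ k
      rwa [fi hg, inv_smul_smul] at this
  have hyp : ∀ w, ∃ g : Γ, g • w = w ∧ S.PAT5c g w = 0 ∧ 0 < deg g := by
    intro w
    obtain ⟨⟨g₁, f₁, d₁⟩, g₀, n₀, f₀, d₀⟩ := hper w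
    have c₀ : S.PAT5c g₀ w ≠ 0 := fun k => n₀ (free g₀ w f₀ k d₀)
    obtain ⟨T, hT, cT, dT⟩ : ∃ T : Γ, T • w = w ∧ S.PAT5c T w = 0 ∧ deg T ≠ 0 := by
      refine ⟨g₁ ^ S.PAT5c g₀ w * g₀ ^ (-S.PAT5c g₁ w), by rw [mul_smul, fz f₀, fz f₁], ?_, ?_⟩
      · rw [TH.PAT5_mul h, fz f₀, cz f₀, cz f₁]
        ring
      · rw [hdeg, dz, dz, d₀, mul_zero, add_zero]
        exact mul_ne_zero c₀ d₁
    rcases lt_or_gt_of_ne dT with k | k
    · exact ⟨T⁻¹, fi hT, by rw [ci hT, cT, neg_zero], by rw [di]; omega⟩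
    · exact ⟨T, hT, cT, k⟩
  let M : MU Γ V :=
    { dir := S.dir, y := y, c := S.PAT5c, e := e, deg := deg, lam := lam
      t1 := S.t1, fin := S.finB, med := S.med, mono := S.monoAll
      equiv := TH.PAT5_equiv h
      e_mul := he, deg_mul := hdeg, lam_gt := hlam, y_smul := haff
      surj := fun w => TH.PAT5_surj h (sl w).choose_spec.1 (sl w).choose_spec.2
      free := free, hyp := hyp
      cnt := inferInstance
      ne := ⟨hE.ne.choose⟩ }
  exact ⟨M.Tr, inferInstance, M.dirP, _, _, M.prongTree, fun w u v hu hv => S.abs_dir hu hv⟩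

theorem affine_tree {V Γ : Type} [LinearOrder V] [Countable V] [Group Γ] [MulAction Γ V]
    (E : V → V → Prop) [MulAction Γ (Disc E)]
    [ContinuousConstSMul Γ (Disc E)] (y : V → ℝ) (deg e : Γ → ℤ) (lam : ℝ)
    (hA : Affine E y deg e lam)
    (hc : ∀ w, ∃ (g : Γ) (u : V), g • w = w ∧ u ≠ w ∧ 0 < prongs E y w u (g • u)) :
    ∃ (X : Type) (_ : MulAction Γ X) (dir : V ⊕ X → V ⊕ X → ℤ) (own : X → V) (δ : V → Γ),
      PT.ProngTree dir own δ e ∧ ∀ w u v, u ≠ w → v ≠ w →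
        |dir (.inl w) (.inl v) - dir (.inl w) (.inl u)| = prongs E y w u v := by
  have hE := hA.tri
  have hy := hA.edge
  have nos := hA.nosaddle
  have hcyc := hA.orient
  have hvert := hA.vert
  have hdeg := hA.deg_mul
  have haff := hA.stretch
  have hfib : ∀ g : Γ, deg g = 0 → ∀ x : Disc E, (∀ v : V, (g • x).1 (g • v) = x.1 v) ∧
      (g • x = x → (∀ w, x.1 w < 1) → g = 1) :=
    fun g hg x => ⟨hA.simplicial g hg x, fun h k => hA.free g hg x k h⟩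
  have hper : ∀ w : V, (∃ g : Γ, g • w = w ∧ deg g ≠ 0) ∧
      ∃ g : Γ, g ≠ 1 ∧ g • w = w ∧ deg g = 0 := fun w => ⟨hA.periodic w, hA.cusp w⟩
  have d1 : deg 1 = 0 := by
    have := hdeg 1 1
    rw [mul_one] at this
    omega
  have di : ∀ g : Γ, deg g⁻¹ = -deg g := fun g => by
    have := hdeg g⁻¹ g
    rw [inv_mul_cancel, d1] at this
    omega
  have haff' : ∀ g : Γ, ∃ t : ℝ, ∀ v : V, y (g • v) = (-1) ^ e g * lam ^ deg g * y v + t := by
    intro g
    obtain ⟨t, h⟩ := haff g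
    refine ⟨t, fun v => ?_⟩
    have h1 := h ⟨_, single_mem hE v⟩
    have h2 := eq_single hE (g • (⟨_, single_mem hE v⟩ : Disc E)).2
      (hvert g v ⟨_, single_mem hE v⟩ (by simp))
    rw [h2, pb9_ht, pb9_ht] at h1
    exact h1
  have hfib' : ∀ g : Γ, deg g = 0 → ∀ a b : V, E a b →
      E (g • a) (g • b) ∧ (g • a = a → g • b = b → g = 1) := by
    intro g hg a b hab
    obtain ⟨hne, x, ha, hb, h0⟩ := pb9_mid hE hab
    obtain ⟨k1, k2⟩ := hfib g hg x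
    refine ⟨adj_of_pos hE (g • x).2 (fun h => hne (MulAction.injective g h))
      (by rw [k1, ha]; norm_num) (by rw [k1, hb]; norm_num), fun e1 e2 => k2 ?_ fun w => ?_⟩
    · refine Subtype.ext (funext fun v => ?_)
      by_cases h1 : v = a
      · rw [h1]
        exact (congrArg _ e1.symm).trans (k1 a)
      by_cases h2 : v = b
      · rw [h2]
        exact (congrArg _ e2.symm).trans (k1 b)
      have := k1 (g⁻¹ • v)
      rw [smul_inv_smul] at this
      rw [this, h0 v h1 h2]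
      exact h0 _ (fun h => h1 (by rw [← e1, ← h, smul_inv_smul]))
        fun h => h2 (by rw [← e2, ← h, smul_inv_smul])
    · by_cases h1 : w = a
      · rw [h1, ha]; norm_num
      by_cases h2 : w = b
      · rw [h2, hb]; norm_num
      rw [h0 w h1 h2]; norm_num
  let K : Subgroup Γ :=
    { carrier := {g | deg g = 0}
      mul_mem' := fun {a b} ha hb => by
        have ha' : deg a = 0 := ha
        have hb' : deg b = 0 := hb
        show deg (a * b) = 0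
        rw [hdeg, ha', hb', add_zero]
      one_mem' := d1
      inv_mem' := fun {a} ha => by
        have ha' : deg a = 0 := ha
        show deg a⁻¹ = 0
        rw [di, ha', neg_zero] }
  have hb := nbr_bound hE y K hcyc (fun g hg a b hab => by
      have hg' : deg g = 0 := hg
      obtain ⟨t, h⟩ := haff' g
      refine ⟨(hfib' g hg a b hab).1, (hfib' g hg a b hab).2, ?_⟩
      rw [h, h, hg', zpow_zero, mul_one, add_sub_add_right_eq_sub, ← mul_sub, abs_mul, abs_zpow,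
        abs_neg, abs_one, one_zpow, one_mul])
    (fun w => by
      obtain ⟨g, k1, k2, k3⟩ := (hper w).2
      exact ⟨g, k3, k1, k2⟩)
  have hprong := TH.prong_smul ⟨E, y, hE, hy, nos⟩ hb hcyc hvert
    (fun g => ⟨_, haff g⟩)
  exact zi_tree E y deg e lam hE hy nos hcyc hprong hdeg hA.e_mul hA.one_lt haff' hfib' hper hc

theorem affine_filling {V Γ M ι : Type} [LinearOrder V] [Group Γ] [MulAction Γ V]
    [TopologicalSpace M] (E : V → V → Prop) [MulAction Γ (Disc E)]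
    [ContinuousConstSMul Γ (Disc E)] (y : V → ℝ) (deg e : Γ → ℤ) (lam : ℝ) (γ : V → Γ)
    (p : Cyl E → M) (N : ι → ℂ × Circle → M)
    (hA : Affine E y deg e lam) (hF : Filling E deg γ p N) :
    ∃ (_ : MulAction Γ (Cyl E)) (_ : ContinuousConstSMul Γ (Cyl E)),
      SimplyConnectedSpace (Cyl E) ∧ PT.Filling γ p N := by
  have hE := hA.tri
  have hvert := hA.vert
  have hdeg := hA.deg_mul
  have d1 : deg 1 = 0 := by
    have := hdeg 1 1
    rw [mul_one] at this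
    omega
  have hnv : ∀ (g : Γ) (x : Disc E), (∀ w, x.1 w < 1) → ∀ w, (g • x).1 w < 1 := by
    intro g x hx w
    refine lt_of_le_of_ne (disc_nonneg hE (g • x).2 w).2 fun h => ?_
    have := hvert g⁻¹ w _ h
    rw [inv_smul_smul] at this
    exact (hx _).ne this
  letI act : MulAction Γ ({x : Disc E // ∀ w, x.1 w < 1} × ℝ) :=
    { smul := fun g a => (⟨g • a.1.1, hnv g _ a.1.2⟩, a.2 + deg g)
      one_smul := fun a => Prod.ext (Subtype.ext (one_smul Γ a.1.1))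
        (show a.2 + (deg 1 : ℝ) = a.2 by rw [d1, Int.cast_zero, add_zero])
      mul_smul := fun g h a => Prod.ext (Subtype.ext (mul_smul g h a.1.1))
        (show a.2 + (deg (g * h) : ℝ) = a.2 + deg h + deg g by rw [hdeg]; push_cast; ring) }
  have hact : ∀ (g : Γ) (a b : {x : Disc E // ∀ w, x.1 w < 1} × ℝ),
      b = g • a ↔ b.1.1 = g • a.1.1 ∧ b.2 = a.2 + deg g := fun g a b =>
    ⟨fun h => ⟨congrArg (fun z => z.1.1) h, congrArg Prod.snd h⟩,
      fun h => Prod.ext (Subtype.ext h.1) h.2⟩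
  refine ⟨act, ⟨fun g => (((continuous_const_smul g).comp
        (continuous_subtype_val.comp continuous_fst)).subtype_mk _).prodMk
          (continuous_snd.add continuous_const)⟩, fib_simplyConnected hE, hF.loc,
    fun a b => by simp only [hact, hF.fibre, Moves], fun g a h => ?_, hF.emb, hF.disj, hF.core,
    hF.cover, fun g => by simp only [hact, hF.meridian, Moves]⟩
  obtain ⟨k1, k2⟩ := (hact g a a).1 h.symm
  have : deg g = 0 := by exact_mod_cast (by linarith : (deg g : ℝ) = 0)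
  exact hA.free g this a.1.1 a.1.2 k1.symm

end Pool.Agent.Work.MP_3d425c_gt.Bor
end

-- merged part: Pool.Agent.Work.MP_3d425c_gt.PI0
section
/-! An example for the hypotheses on Dehn fillings: definitions. -/

namespace Pool.Agent.Work.MP_3d425c_gt.Inst
open Classical PA Bor

variable {V : Type} [LinearOrder V]

/-- A positively oriented triangle. -/
def Tri (E : V → V → Prop) (p c q : V) : Prop := cyc p c q ∧ E p c ∧ E c q ∧ E p q

/-- Integral developing map to the triangular lattice: the third vertex of a triangle is obtained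
by the rotation `(x, y) ↦ (-y, x + y)` of order six. -/
structure Dev (E : V → V → Prop) (X Y : V → ℤ) : Prop where
  rule : ∀ p c q, Tri E p c q → X c - X q = -(Y p - Y q) ∧ Y c - Y q = X p - X q + (Y p - Y q)
  dir : ∀ p q, E p q → (X p - X q = 1 ∧ Y p - Y q = 0) ∨ (X p - X q = 0 ∧ Y p - Y q = 1) ∨
    (X p - X q = -1 ∧ Y p - Y q = 1) ∨ (X p - X q = -1 ∧ Y p - Y q = 0) ∨
    (X p - X q = 0 ∧ Y p - Y q = -1) ∨ (X p - X q = 1 ∧ Y p - Y q = -1)

/-- The neighbours of `w` in order. -/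
def Fan (E : V → V → Prop) (w : V) (a : ℤ → V) : Prop := ∀ k, Tri E w (a k) (a (k + 1))

/-- `h` is radially linear near the vertex `w₁`, which goes to `w₂`. -/
def Con {E₁ E₂ : V → V → Prop} (h : Disc E₁ → Disc E₂) (w₁ w₂ : V) : Prop :=
  ∃ δ C : ℝ, 0 < δ ∧ 0 < C ∧ ∀ x : Disc E₁, 1 - δ ≤ x.1 w₁ →
    1 - (h x).1 w₂ ≤ C * (1 - x.1 w₁) ∧ ∀ (s : ℝ) (x' : Disc E₁), 0 ≤ s → s ≤ 1 →
      x'.1 = (1 - s) • Pi.single w₁ 1 + s • x.1 →
      (h x').1 = (1 - s) • Pi.single w₂ 1 + s • (h x).1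

/-- `v` is one of four points. -/
def In4 (a c b d v : V) : Prop := v = a ∨ v = c ∨ v = b ∨ v = d

/-- Two triangulations that subdivide the same family `Q` of quadrilaterals `a c b d`, the first
by the diagonals `a b`, the second by the diagonals `c d`. -/
structure Flip (E₁ E₂ : V → V → Prop) (Q : V → V → V → V → Prop) : Prop where
  t1 : IdealTri E₁
  t2 : IdealTri E₂
  sq1 : ∀ a c b d, Q a c b d → Tri E₁ a c b ∧ Tri E₁ b d a
  sq2 : ∀ a c b d, Q a c b d → Tri E₂ c b d ∧ Tri E₂ d a c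
  cov1 : ∀ p r q, Tri E₁ p r q → ∃ a c b d, Q a c b d ∧ In4 a c b d p ∧ In4 a c b d r ∧
    In4 a c b d q
  cov2 : ∀ p r q, Tri E₂ p r q → ∃ a c b d, Q a c b d ∧ In4 a c b d p ∧ In4 a c b d r ∧
    In4 a c b d q
  uniq1 : ∀ a c b d a' c' b' d', Q a c b d → Q a' c' b' d' → In4 a c b d a' → In4 a c b d b' →
    (a' = a ∧ b' = b) ∨ (a' = b ∧ b' = a)
  uniq2 : ∀ a c b d a' c' b' d', Q a c b d → Q a' c' b' d' → In4 a c b d c' → In4 a c b d d' →
    (c' = c ∧ d' = d) ∨ (c' = d ∧ d' = c)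

/-- The quadrilaterals around the edges on which `X + Y` is constant. -/
def Sq (E : V → V → Prop) (X Y : V → ℤ) (a c b d : V) : Prop :=
  Tri E a c b ∧ Tri E b d a ∧ X a + Y a = X b + Y b

/-- The triangulation obtained by flipping these edges. -/
def FE (E : V → V → Prop) (X Y : V → ℤ) (p q : V) : Prop :=
  (E p q ∧ X p + Y p ≠ X q + Y q) ∨ ∃ a b, Sq E X Y a p b q

variable {E : V → V → Prop}

theorem Tri.rot (hE : IdealTri E) {p c q : V} (h : Tri E p c q) : Tri E c q p :=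
  ⟨cyc_rot h.1, h.2.2.1, hE.symm _ _ h.2.2.2, hE.symm _ _ h.2.1⟩

theorem Tri.uniq (hE : IdealTri E) {p c c' q : V} (h : Tri E p c q) (h' : Tri E p c' q) : c = c' :=
  PB1_apex hE h.1 h.2.1 h.2.2.1 h'.1 h'.2.1 h'.2.2.1

theorem exists_Tri (hE : IdealTri E) {p q : V} (h : E p q) : ∃ c, Tri E p c q :=
  let ⟨c, h1, h2, h3⟩ := hE.apex p q h
  ⟨c, h1, h2, h3, h⟩

theorem Dev.rotate {X Y : V → ℤ} (hE : IdealTri E) (h : Dev E X Y) :
    Dev E (fun v => X v + Y v) (fun v => -X v) where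
  rule p c q k := by have := h.rule p c q k; omega
  dir p q k := by have := h.dir p q k; (clear * - this; lia)

end Pool.Agent.Work.MP_3d425c_gt.Inst
end

-- merged part: Pool.Agent.Work.MP_3d425c_gt.PI7
section
/-! Polar coordinates around a vertex. -/

namespace Pool.Agent.Work.MP_3d425c_gt.Inst
open Classical PA Bor

variable {V : Type} [LinearOrder V] {E : V → V → Prop}

/-- The point with angle `θ` and radius `r` in the fan `a` around `w`. -/
noncomputable def pol (w : V) (a : ℤ → V) (θ r : ℝ) : V → ℝ :=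
  bary w (a ⌊θ⌋) (a (⌊θ⌋ + 1)) (1 - r) (r * (1 - Int.fract θ)) (r * Int.fract θ)

theorem PI7_cyc {w : V} {a : ℤ → V} (hF : Fan E w a) {k l : ℤ} (h : k < l) :
    cyc w (a k) (a l) :=
  Int.leInduction (motive := fun n _ => cyc w (a k) (a n)) (hF k).1
    (fun n _ ih => cyc_trans ih (hF n).1) l h

theorem PI7_inj {w : V} {a : ℤ → V} (hF : Fan E w a) : Function.Injective a := fun k l e => by
  by_contra hn
  rcases lt_or_gt_of_ne hn with q | q
  · exact (cyc_ne (PI7_cyc hF q)).2.1 e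
  · exact (cyc_ne (PI7_cyc hF q)).2.1 e.symm

theorem PI7_surj (hE : IdealTri E) {w : V} {a : ℤ → V} (hF : Fan E w a) {u : V} (hu : E w u) :
    ∃ k, a k = u := by
  obtain ⟨k, h1, h2⟩ := PB3_cof hE a (fun k => (hF k).2.1) (fun k => (hF k).1) (PB1_ne hE hu).symm
  rcases h1 with h1 | h1
  · exact ⟨k, h1⟩
  · exact (hE.nocross _ _ _ _ (hF k).2.2.1 (hE.symm _ _ hu) (cyc_mid h1 h2)
      (cyc_rot (cyc_rot (hF k).1))).elim

theorem PI7_tri (hE : IdealTri E) {w : V} {a : ℤ → V} (hF : Fan E w a) {p q : V}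
    (h : Tri E w p q) : ∃ k, a k = p ∧ a (k + 1) = q := by
  obtain ⟨k, rfl⟩ := PI7_surj hE hF h.2.1
  exact ⟨k, rfl, Tri.uniq hE ((hF k).rot hE) (h.rot hE)⟩

theorem PI7_w {w : V} {a : ℤ → V} (hF : Fan E w a) (θ r : ℝ) : pol w a θ r w = 1 - r :=
  (PB1_val (hF _).1 _ _ _).1

theorem PI7_a {w : V} {a : ℤ → V} (hF : Fan E w a) (θ r : ℝ) (k : ℤ) :
    pol w a θ r (a k) = r * max 0 (1 - |θ - k|) := by
  have h0 := Int.fract_nonneg θ
  have h1 := Int.fract_lt_one θ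
  have h2 := Int.floor_add_fract θ
  obtain ⟨-, e1, e2⟩ := PB1_val (hF ⌊θ⌋).1 (1 - r) (r * (1 - Int.fract θ)) (r * Int.fract θ)
  by_cases c1 : k = ⌊θ⌋
  · rw [c1, pol, e1, abs_of_nonneg (by linarith), max_eq_right (by linarith)]
    rfl
  by_cases c2 : k = ⌊θ⌋ + 1
  · rw [c2, pol, e2]
    push_cast
    rw [abs_of_nonpos (by linarith), max_eq_right (by linarith)]
    congr 1
    linarith
  have hz : pol w a θ r (a k) = 0 := by
    by_contra hn
    rcases PB1_on _ _ _ _ _ _ _ hn with h | h | h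
    · exact (cyc_ne (hF k).1).1 h.symm
    · exact c1 (PI7_inj hF h)
    · exact c2 (PI7_inj hF h)
  have hge : 1 ≤ |θ - k| := by
    rcases (by omega : k + 1 ≤ ⌊θ⌋ ∨ ⌊θ⌋ + 2 ≤ k) with h | h
    · have : (k : ℝ) + 1 ≤ ⌊θ⌋ := by exact_mod_cast h
      exact le_abs.2 (Or.inl (by linarith))
    · have : (⌊θ⌋ : ℝ) + 2 ≤ k := by exact_mod_cast h
      exact le_abs.2 (Or.inr (by linarith))
  rw [hz, max_eq_left (by linarith), mul_zero]

theorem PI7_other {w : V} {a : ℤ → V} (θ r : ℝ) {v : V} (h1 : v ≠ w) (h2 : ¬ ∃ k, a k = v) :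
    pol w a θ r v = 0 := by
  by_contra hn
  rcases PB1_on _ _ _ _ _ _ _ hn with h | h | h
  · exact h1 h
  · exact h2 ⟨_, h.symm⟩
  · exact h2 ⟨_, h.symm⟩

theorem PI7_cont {w : V} {a : ℤ → V} (hF : Fan E w a) :
    Continuous fun q : ℝ × ℝ => pol w a q.1 q.2 := by
  refine continuous_pi fun v => ?_
  by_cases h1 : v = w
  · subst h1
    simp only [PI7_w hF]
    fun_prop
  by_cases h2 : ∃ k, a k = v
  · obtain ⟨k, rfl⟩ := h2
    simp only [PI7_a hF]
    fun_prop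
  · simp only [PI7_other _ _ h1 h2]
    exact continuous_const

theorem PI7_mem (hE : IdealTri E) {w : V} {a : ℤ → V} (hF : Fan E w a) (θ : ℝ) {r : ℝ}
    (h0 : 0 < r) (h1 : r < 1) : pol w a θ r ∈ Disc E := by
  have f0 := Int.fract_nonneg θ
  have f1 := Int.fract_lt_one θ
  obtain ⟨t1, t2, t3, t4⟩ := hF ⌊θ⌋
  exact (mem_disc hE).2 ⟨_, _, _, _, _, _, t2, t3, t4, t1, by linarith,
    mul_nonneg h0.le (by linarith), mul_nonneg h0.le f0, by ring, rfl⟩

theorem PI7_lt {w : V} {a : ℤ → V} (hF : Fan E w a) (θ : ℝ) {r : ℝ} (h0 : 0 < r) (h1 : r < 1)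
    (v : V) : pol w a θ r v < 1 := by
  by_cases c1 : v = w
  · rw [c1, PI7_w hF]
    linarith
  by_cases c2 : ∃ k, a k = v
  · obtain ⟨k, rfl⟩ := c2
    rw [PI7_a hF]
    have : max 0 (1 - |θ - k|) ≤ 1 := max_le zero_le_one (by linarith [abs_nonneg (θ - k)])
    nlinarith
  · rw [PI7_other _ _ c1 c2]
    exact one_pos

theorem PI7_eq (w : V) (a : ℤ → V) (k : ℤ) {s : ℝ} (h0 : 0 ≤ s) (h1 : s ≤ 1) (r : ℝ) :
    pol w a (k + s) r = bary w (a k) (a (k + 1)) (1 - r) (r * (1 - s)) (r * s) := by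
  rcases h1.eq_or_lt with rfl | h1
  · have : (k : ℝ) + 1 = ((k + 1 : ℤ) : ℝ) := by push_cast; rfl
    rw [pol, this, Int.floor_intCast, Int.fract_intCast]
    simp [bary]
  · have e1 : ⌊s⌋ = 0 := Int.floor_eq_zero_iff.2 ⟨h0, h1⟩
    rw [pol, Int.floor_intCast_add, Int.fract_intCast_add, e1, add_zero,
      Int.fract_eq_self.2 ⟨h0, h1⟩]

/-- The index of a vertex in the fan. -/
noncomputable def PI7_idx (a : ℤ → V) (v : V) : ℝ :=
  if h : ∃ k, a k = v then (h.choose : ℝ) else 0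

theorem PI7_idx_a {w : V} {a : ℤ → V} (hF : Fan E w a) (k : ℤ) : PI7_idx a (a k) = k := by
  have h : ∃ l, a l = a k := ⟨k, rfl⟩
  rw [PI7_idx, dif_pos h, PI7_inj hF h.choose_spec]

theorem PI7_idx_w {w : V} {a : ℤ → V} (hF : Fan E w a) : PI7_idx a w = 0 := by
  rw [PI7_idx, dif_neg]
  rintro ⟨k, hk⟩
  exact (cyc_ne (hF k).1).1 hk.symm

theorem PI7_ht {w : V} {a : ℤ → V} (hF : Fan E w a) (θ r : ℝ) :
    ht (PI7_idx a) (pol w a θ r) = r * θ := by
  rw [pol, ht_bary, PI7_idx_a hF, PI7_idx_a hF, PI7_idx_w hF]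
  have h2 := Int.floor_add_fract θ
  push_cast
  linear_combination r * h2

theorem PI7_cont_ht (hE : IdealTri E) (φ : V → ℝ) :
    Continuous fun x : {x : Disc E // ∀ v, x.1 v < 1} => ht φ x.1.1 := by
  rw [continuous_iff_continuousAt]
  intro x
  obtain ⟨W, hW⟩ := loc_finite hE x.1.2 x.2
  have hc : Continuous fun z : V → ℝ => ∑ v ∈ W, z v * φ v := by fun_prop
  have h1 : ContinuousWithinAt (ht φ) (Disc E) x.1.1 :=
    hc.continuousWithinAt.congr_of_eventuallyEq (hW.mono fun z hz => PB1_ht_sum φ W hz)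
      (PB1_ht_sum φ W (hW.self_of_nhdsWithin x.1.2))
  have h2 : Continuous fun z : {x : Disc E // ∀ v, x.1 v < 1} => z.1.1 := by fun_prop
  have h3 := ContinuousWithinAt.comp (f := fun z : {x : Disc E // ∀ v, x.1 v < 1} => z.1.1)
    (s := Set.univ) h1 h2.continuousWithinAt fun z _ => z.1.2
  exact continuousWithinAt_univ _ _ |>.1 h3

theorem exists_polar (hE : IdealTri E) {w : V} {a : ℤ → V} (hF : Fan E w a) :
    ∃ κ : ℝ × Set.Ioo (0 : ℝ) 1 → {x : Disc E // ∀ v, x.1 v < 1}, Topology.IsOpenEmbedding κ ∧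
      (∀ q, (κ q).1.1 = pol w a q.1 q.2) ∧ ∀ x, 0 < x.1.1 w → x ∈ Set.range κ := by
  let κ : ℝ × Set.Ioo (0 : ℝ) 1 → {x : Disc E // ∀ v, x.1 v < 1} := fun q =>
    ⟨⟨pol w a q.1 q.2, PI7_mem hE hF _ q.2.2.1 q.2.2.2⟩, PI7_lt hF _ q.2.2.1 q.2.2.2⟩
  have hκ : Continuous κ := by
    refine Continuous.subtype_mk (Continuous.subtype_mk ?_ _) _
    exact (PI7_cont hF).comp (f := fun q : ℝ × Set.Ioo (0 : ℝ) 1 => (q.1, q.2.1)) (by fun_prop)
  have hsurj : ∀ x : {x : Disc E // ∀ v, x.1 v < 1}, 0 < x.1.1 w → x ∈ Set.range κ := by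
    intro x hx
    obtain ⟨p, q, h1, h2, h3, h4, ho⟩ := exists_tri hE x.1.2 hx.ne'
    obtain ⟨k, rfl, rfl⟩ := PI7_tri hE hF (p := p) (q := q) ⟨h4, h1, h3, h2⟩
    obtain ⟨-, i2, i3, i4, e⟩ := eq_bary hE x.1.2 h4 ho
    have hr : 0 < 1 - x.1.1 w := sub_pos.2 (x.2 w)
    refine ⟨(k + x.1.1 (a (k + 1)) / (1 - x.1.1 w), ⟨1 - x.1.1 w, hr, by linarith⟩), ?_⟩
    refine Subtype.ext (Subtype.ext ?_)
    show pol w a (k + x.1.1 (a (k + 1)) / (1 - x.1.1 w)) (1 - x.1.1 w) = x.1.1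
    rw [PI7_eq w a k (div_nonneg i3 hr.le) ((div_le_one hr).2 (by linarith))]
    refine Eq.trans ?_ e.symm
    congr 1
    · ring
    · field_simp
      linarith
    · field_simp
  let ψ : {x : Disc E // ∀ v, x.1 v < 1} → ℝ × ℝ := fun x =>
    (ht (PI7_idx a) x.1.1 / (1 - x.1.1 w), 1 - x.1.1 w)
  have hw : Continuous fun x : {x : Disc E // ∀ v, x.1 v < 1} => x.1.1 w :=
    (continuous_apply w).comp (continuous_subtype_val.comp continuous_subtype_val)
  have hψ : Continuous ψ :=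
    ((PI7_cont_ht hE _).div (continuous_const.sub hw) fun x => (sub_pos.2 (x.2 w)).ne').prodMk
      (continuous_const.sub hw)
  have hcomp : ψ ∘ κ = Prod.map id Subtype.val := by
    funext q
    have h0 := q.2.2.1
    refine Prod.ext ?_ ?_
    · show ht (PI7_idx a) (pol w a q.1 q.2) / (1 - pol w a q.1 q.2 w) = q.1
      rw [PI7_ht hF, PI7_w hF, sub_sub_cancel]
      field_simp
    · show 1 - pol w a q.1 q.2 w = q.2
      rw [PI7_w hF, sub_sub_cancel]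
  have hemb : Topology.IsEmbedding κ := Topology.IsEmbedding.of_comp hκ hψ (by
    rw [hcomp]
    exact Topology.IsEmbedding.id.prodMap Topology.IsEmbedding.subtypeVal)
  refine ⟨κ, ⟨hemb, ?_⟩, fun q => rfl, hsurj⟩
  have hr : Set.range κ = {x | 0 < x.1.1 w} := by
    ext x
    refine ⟨?_, hsurj x⟩
    rintro ⟨q, rfl⟩
    show 0 < pol w a q.1 q.2 w
    rw [PI7_w hF]
    exact sub_pos.2 q.2.2.2
  rw [hr]
  exact isOpen_lt continuous_const hw

end Pool.Agent.Work.MP_3d425c_gt.Inst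
end

-- merged part: Pool.Agent.Work.MP_3d425c_gt.PI3
section
/-! Flipping all edges of one direction. -/

namespace Pool.Agent.Work.MP_3d425c_gt.Inst
open Classical PA Bor

variable {V : Type} [LinearOrder V] {E : V → V → Prop} {X Y : V → ℤ}

theorem PI3_num (hD : Dev E X Y) {a c b d : V} (h : Sq E X Y a c b d) :
    (X a - X b = -1 ∧ Y a - Y b = 1 ∧ X c - X b = -1 ∧ Y c = Y b ∧ X d - X a = 1 ∧ Y d = Y a) ∨
    (X a - X b = 1 ∧ Y a - Y b = -1 ∧ X c - X b = 1 ∧ Y c = Y b ∧ X d - X a = -1 ∧ Y d = Y a) := by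
  have h1 := hD.rule _ _ _ h.1
  have h2 := hD.rule _ _ _ h.2.1
  have h3 := hD.dir _ _ h.1.2.2.2
  have h4 := h.2.2
  omega

theorem PI3_swap {a c b d : V} (h : Sq E X Y a c b d) : Sq E X Y b d a c :=
  ⟨h.2.1, h.1, h.2.2.symm⟩

theorem PI3_symm (hE : IdealTri E) (p q : V) (h : FE E X Y p q) : FE E X Y q p := by
  rcases h with h | ⟨a, b, h⟩
  · exact Or.inl ⟨hE.symm _ _ h.1, h.2.symm⟩
  · exact Or.inr ⟨b, a, PI3_swap h⟩

/-- A triangle of the flipped triangulation with the properties to be shown. -/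
def PI3_G (E : V → V → Prop) (X Y : V → ℤ) (p c q : V) : Prop :=
  Tri (FE E X Y) p c q ∧
    (X c - Y c - (X q - Y q) = -(Y p - Y q) ∧ Y c - Y q = X p - Y p - (X q - Y q) + (Y p - Y q)) ∧
    ∃ a' c' b' d', Sq E X Y d' a' c' b' ∧ In4 a' c' b' d' p ∧ In4 a' c' b' d' c ∧ In4 a' c' b' d' q

theorem PI3_rot (hE : IdealTri E) {p c q : V} (h : PI3_G E X Y p c q) : PI3_G E X Y c q p := by
  obtain ⟨h1, h2, a', c', b', d', h3, h4, h5, h6⟩ := h
  exact ⟨⟨cyc_rot h1.1, h1.2.2.1, PI3_symm hE _ _ h1.2.2.2, PI3_symm hE _ _ h1.2.1⟩, by omega,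
    a', c', b', d', h3, h5, h6, h4⟩

theorem PI3_c1 {a c b d : V} (h : cyc a c b) (h' : cyc b d a) : cyc c b d := by
  unfold cyc at *; grind

theorem PI3_sq (hD : Dev E X Y) {a c b d : V} (h : Sq E X Y a c b d) : PI3_G E X Y c b d := by
  have hn := PI3_num hD h
  exact ⟨⟨PI3_c1 h.1.1 h.2.1.1, Or.inl ⟨h.1.2.2.1, by omega⟩, Or.inl ⟨h.2.1.2.1, by omega⟩,
    Or.inr ⟨a, b, h⟩⟩, by omega, c, b, d, a, h, Or.inl rfl, Or.inr (Or.inl rfl),
    Or.inr (Or.inr (Or.inl rfl))⟩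

theorem PI3_level (hD : Dev E X Y) {p c q : V} (h : Tri E p c q) :
    X p + Y p = X q + Y q ∨ X p + Y p = X c + Y c ∨ X c + Y c = X q + Y q := by
  have h1 := hD.rule _ _ _ h
  have h3 := hD.dir _ _ h.2.2.2
  omega

theorem PI3_key (hE : IdealTri E) (hD : Dev E X Y) {p q : V} (h : FE E X Y p q) :
    ∃ c, PI3_G E X Y p c q := by
  rcases h with h | ⟨a, b, h⟩
  · obtain ⟨c, hc⟩ := exists_Tri hE h.1
    rcases PI3_level hD hc with k | k | k
    · exact absurd k h.2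
    · obtain ⟨d, hd⟩ := exists_Tri hE hc.2.1
      exact ⟨d, PI3_rot hE (PI3_sq hD (PI3_swap ⟨hd, hc.rot hE, k⟩))⟩
    · obtain ⟨d, hd⟩ := exists_Tri hE hc.2.2.1
      exact ⟨d, PI3_rot hE (PI3_rot hE (PI3_sq hD ⟨hd, (hc.rot hE).rot hE, k⟩))⟩
  · exact ⟨b, PI3_sq hD h⟩

theorem PI3_c2 {a c b d p q : V} (h1 : cyc a c b) (h2 : cyc b d a) (h3 : cyc p c q)
    (h4 : cyc q d p) : p = a ∨ (cyc a p c ∧ cyc c q a) ∨ (cyc d p a ∧ cyc a q d) := by
  unfold cyc at *; grind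

theorem PI3_half (hE : IdealTri E) {a c b d p q : V} (h : E p q) (h1 : Tri E a c b)
    (h2 : Tri E b d a) (h3 : cyc p c q) (h4 : cyc q d p) : p = a := by
  rcases PI3_c2 h1.1 h2.1 h3 h4 with k | k | k
  · exact k
  · exact (hE.nocross a c p q h1.2.1 h k.1 k.2).elim
  · exact (hE.nocross d a p q h2.2.2.1 h k.1 k.2).elim

/-- An old edge that crosses a new diagonal is the old diagonal. -/
theorem PI3_old (hE : IdealTri E) {a c b d p q : V} (h : E p q) (hs : Sq E X Y a c b d)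
    (h3 : cyc p c q) (h4 : cyc q d p) : X p + Y p = X q + Y q := by
  rw [PI3_half hE h hs.1 hs.2.1 h3 h4, PI3_half hE (hE.symm _ _ h) hs.2.1 hs.1 h4 h3]
  exact hs.2.2

theorem PI3_c3 {c p d q : V} (h : cyc c p d) (h' : cyc d q c) : cyc q c p ∧ cyc p d q := by
  unfold cyc at *; grind

theorem PI3_c4 {c b d u v : V} (h1 : cyc c b d) (h3 : cyc c u d) (h4 : cyc d v c) :
    u = b ∨ (cyc c u b ∧ cyc b v c) ∨ (cyc b u d ∧ cyc d v b) := by
  unfold cyc at *; grind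

theorem PI3_new (hE : IdealTri E) (hD : Dev E X Y) {a c b d a' c' b' d' : V}
    (h : Sq E X Y a c b d) (h' : Sq E X Y a' c' b' d') (h3 : cyc c c' d) (h4 : cyc d d' c) :
    c' = b := by
  have hn := PI3_num hD h
  rcases PI3_c4 (PI3_c1 h.1.1 h.2.1.1) h3 h4 with k | k | k
  · exact k
  · have := PI3_old hE h.1.2.2.1 h' k.1 k.2
    omega
  · have := PI3_old hE h.2.1.2.1 h' k.1 k.2
    omega

theorem PI3_fin (hE : IdealTri E) (u v : V) :
    {p : V × V | FE E X Y p.1 p.2 ∧ cyc p.1 u p.2 ∧ cyc p.2 v p.1}.Finite := by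
  have hex : ∀ p q : V, ∃ r, ∀ c, Tri E p c q → r = c := fun p q => by
    by_cases h : ∃ c, Tri E p c q
    · obtain ⟨r, hr⟩ := h
      exact ⟨r, fun c hc => hr.uniq hE hc⟩
    · exact ⟨p, fun c hc => absurd ⟨c, hc⟩ h⟩
  choose ap hap using hex
  have hF := hE.fin u v
  refine (((((hF.union (hF.image fun x => (x.1, ap x.2 (ap x.2 x.1)))).union
    (hF.image fun x => (ap (ap x.2 x.1) x.1, x.2))).union
    (hF.image fun x => (ap x.1 (ap x.1 x.2), x.2))).union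
    (hF.image fun x => (x.1, ap (ap x.1 x.2) x.2))).union
    (Set.finite_singleton (ap v u, ap u v))).subset ?_
  rintro ⟨c, d⟩ ⟨h | ⟨a, b, h⟩, h3, h4⟩
  · exact Or.inl (Or.inl (Or.inl (Or.inl (Or.inl ⟨h.1, h3, h4⟩))))
  have e1 := hap _ _ _ h.1
  have e2 := hap _ _ _ h.2.1
  have e3 := hap _ _ _ (h.1.rot hE)
  have e4 := hap _ _ _ (h.2.1.rot hE)
  have e5 := hap _ _ _ ((h.1.rot hE).rot hE)
  have e6 := hap _ _ _ ((h.2.1.rot hE).rot hE)
  dsimp only at h h3 h4 e1 e2 e3 e4 e5 e6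
  rcases PI3_c4 (PI3_c1 h.1.1 h.2.1.1) h3 h4 with k | k | k
  · rcases PI3_c4 (PI3_c1 h.2.1.1 h.1.1) h4 h3 with l | l | l
    · refine Or.inr ?_
      rw [k, l, e1, e2]
      rfl
    · refine Or.inl (Or.inl (Or.inr ⟨(a, d), ⟨hE.symm _ _ h.2.1.2.2.1, l.2, l.1⟩, ?_⟩))
      simp only [e6, e1]
    · refine Or.inl (Or.inr ⟨(c, a), ⟨hE.symm _ _ h.1.2.1, l.2, l.1⟩, ?_⟩)
      simp only [e3, e2]
  · refine Or.inl (Or.inl (Or.inl (Or.inl (Or.inr ⟨(c, b), ⟨h.1.2.2.1, k.1, k.2⟩, ?_⟩))))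
    simp only [e5, e2]
  · refine Or.inl (Or.inl (Or.inl (Or.inr ⟨(b, d), ⟨h.2.1.2.1, k.1, k.2⟩, ?_⟩)))
    simp only [e4, e1]

theorem flip_tri (hE : IdealTri E) (hD : Dev E X Y) : IdealTri (FE E X Y) := by
  refine ⟨PI3_symm hE, fun a b c d h h' h3 h4 => ?_, fun p q h => ?_, PI3_fin hE, ?_⟩
  · rcases h with h | ⟨x, y, h⟩ <;> rcases h' with h' | ⟨x', y', h'⟩
    · exact hE.nocross a b c d h.1 h'.1 h3 h4
    · exact h.2 (PI3_old hE h.1 h' h3 h4)
    · exact h'.2 (PI3_old hE (hE.symm _ _ h'.1) h (PI3_c3 h3 h4).1 (PI3_c3 h3 h4).2).symm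
    · have e1 := PI3_new hE hD h h' h3 h4
      have e2 := PI3_new hE hD (PI3_swap h) (PI3_swap h') h4 h3
      have h5 := PI3_num hD h'
      have h6 := h.2.2
      rw [← e1, ← e2] at h6
      omega
  · obtain ⟨c, hc, -⟩ := PI3_key hE hD h
    exact ⟨c, hc.1, hc.2.1, hc.2.2.1⟩
  · obtain ⟨a, b, h⟩ := hE.ne
    obtain ⟨c, hc⟩ := exists_Tri hE h
    have h1 := hD.rule _ _ _ hc
    have h2 := hD.dir _ _ h
    by_cases k : X a + Y a = X b + Y b
    · exact ⟨a, c, Or.inl ⟨hc.2.1, by omega⟩⟩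
    · exact ⟨a, b, Or.inl ⟨h, k⟩⟩

theorem PI3_all (hE : IdealTri E) (hD : Dev E X Y) {p c q : V} (h : Tri (FE E X Y) p c q) :
    PI3_G E X Y p c q := by
  obtain ⟨c', hc⟩ := PI3_key hE hD h.2.2.2
  rwa [h.uniq (flip_tri hE hD) hc.1]

theorem flip_dev (hE : IdealTri E) (hD : Dev E X Y) :
    Dev (FE E X Y) (fun v => X v - Y v) Y := by
  refine ⟨fun p c q h => (PI3_all hE hD h).2.1, fun p q h => ?_⟩
  rcases h with h | ⟨a, b, h⟩
  · have h1 := hD.dir _ _ h.1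
    have h2 := h.2
    (clear * - h1 h2; lia)
  · have h1 := PI3_num hD h
    (clear * - h1; lia)

theorem PI3_cov (hE : IdealTri E) {p r q : V} (h : Tri E p r q) (k : X p + Y p = X q + Y q) :
    ∃ a c b d, Sq E X Y d a c b ∧ In4 a c b d p ∧ In4 a c b d r ∧ In4 a c b d q := by
  obtain ⟨d, hd⟩ := exists_Tri hE (hE.symm _ _ h.2.2.2)
  exact ⟨r, q, d, p, ⟨h, hd, k⟩, Or.inr (Or.inr (Or.inr rfl)), Or.inl rfl, Or.inr (Or.inl rfl)⟩

theorem flip_data (hE : IdealTri E) (hD : Dev E X Y) :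
    Flip (FE E X Y) E fun c b d a => Sq E X Y a c b d := by
  refine ⟨flip_tri hE hD, hE, fun a c b d h => ⟨(PI3_sq hD h).1, (PI3_sq hD (PI3_swap h)).1⟩,
    fun a c b d h => ⟨h.2.1, h.1⟩, fun p r q h => (PI3_all hE hD h).2.2, fun p r q h => ?_,
    fun a c b d a' c' b' d' h h' k l => ?_, fun a c b d a' c' b' d' h h' k l => ?_⟩
  · rcases PI3_level hD h with k | k | k
    · exact PI3_cov hE h k
    · obtain ⟨a, c, b, d, h0, h1, h2, h3⟩ := PI3_cov hE (h.rot hE) k.symm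
      exact ⟨a, c, b, d, h0, h3, h1, h2⟩
    · obtain ⟨a, c, b, d, h0, h1, h2, h3⟩ := PI3_cov hE ((h.rot hE).rot hE) k.symm
      exact ⟨a, c, b, d, h0, h2, h3, h1⟩
  · have h1 := PI3_num hD h
    have h2 := PI3_num hD h'
    rcases k with k | k | k | k <;> rcases l with l | l | l | l <;>
      first
        | exact Or.inl ⟨k, l⟩
        | exact Or.inr ⟨k, l⟩
        | (exfalso; rw [k, l] at h2; omega)
  · have h1 := PI3_num hD h
    have h2 := h'.2.2
    have h3 := (cyc_ne h'.1.1).2.2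
    rcases k with k | k | k | k <;> rcases l with l | l | l | l <;>
      first
        | exact Or.inl ⟨k, l⟩
        | exact Or.inr ⟨k, l⟩
        | exact absurd (l.trans k.symm) h3
        | (exfalso; rw [k, l] at h2; omega)

end Pool.Agent.Work.MP_3d425c_gt.Inst
end

-- merged part: Pool.Agent.Work.MP_3d425c_gt.PI4
section
/-! The homeomorphism attached to a flip. -/

namespace Pool.Agent.Work.MP_3d425c_gt.Inst
open Classical PA Bor

variable {V : Type} [LinearOrder V] {E₁ E₂ : V → V → Prop} {Q : V → V → V → V → Prop}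

/-- The direction of the flip. -/
noncomputable def PI4_k (a c b d : V) : V → ℝ :=
  Pi.single c 1 + Pi.single d 1 - Pi.single a 1 - Pi.single b 1

/-- The flip of one quadrilateral. -/
noncomputable def PI4_fl (a c b d : V) (x : V → ℝ) : V → ℝ := x + min (x a) (x b) • PI4_k a c b d

/-- The flip of all quadrilaterals. -/
noncomputable def PI4_tm (Q : V → V → V → V → Prop) (x : V → ℝ) : V → ℝ :=
  if h : ∃ q : V × V × V × V, Q q.1 q.2.1 q.2.2.1 q.2.2.2 ∧ 0 < x q.1 ∧ 0 < x q.2.2.1 then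
    PI4_fl h.choose.1 h.choose.2.1 h.choose.2.2.1 h.choose.2.2.2 x else x

theorem PI4_swap (a c b d : V) (x : V → ℝ) : PI4_fl a c b d x = PI4_fl b d a c x := by
  rw [PI4_fl, PI4_fl, min_comm]
  congr 2
  unfold PI4_k
  abel

theorem PI4_symm (h : Flip E₁ E₂ Q) : Flip E₂ E₁ fun c b d a => Q a c b d where
  t1 := h.t2
  t2 := h.t1
  sq1 c b d a k := h.sq2 a c b d k
  sq2 c b d a k := (h.sq1 a c b d k).symm
  cov1 p r q k := by
    obtain ⟨a, c, b, d, k0, k1, k2, k3⟩ := h.cov2 p r q k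
    unfold In4 at *
    exact ⟨c, b, d, a, k0, by (clear * - k1 k2 k3; grind), by (clear * - k1 k2 k3; grind), by (clear * - k1 k2 k3; grind)⟩
  cov2 p r q k := by
    obtain ⟨a, c, b, d, k0, k1, k2, k3⟩ := h.cov1 p r q k
    unfold In4 at *
    exact ⟨c, b, d, a, k0, by (clear * - k1 k2 k3; grind), by (clear * - k1 k2 k3; grind), by (clear * - k1 k2 k3; grind)⟩
  uniq1 c b d a c' b' d' a' k k' i j :=
    h.uniq2 a c b d a' c' b' d' k k' (by unfold In4 at *; tauto) (by unfold In4 at *; (clear * - i j; grind))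
  uniq2 c b d a c' b' d' a' k k' i j := by
    have := h.uniq1 a c b d a' c' b' d' k k' (by unfold In4 at *; tauto)
      (by unfold In4 at *; tauto)
    tauto

variable {a c b d : V} {x : V → ℝ}

theorem PI4_ne (h : Flip E₁ E₂ Q) (k : Q a c b d) :
    a ≠ c ∧ a ≠ b ∧ a ≠ d ∧ c ≠ b ∧ c ≠ d ∧ b ≠ d := by
  obtain ⟨n1, n2, n3⟩ := cyc_ne (h.sq1 a c b d k).1.1
  obtain ⟨n4, n5, -⟩ := cyc_ne (h.sq1 a c b d k).2.1
  exact ⟨n1, n3, n5.symm, n2, (cyc_ne (h.sq2 a c b d k).1.1).2.2, n4⟩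

theorem PI4_kval (h : Flip E₁ E₂ Q) (k : Q a c b d) : PI4_k a c b d a = -1 ∧
    PI4_k a c b d c = 1 ∧ PI4_k a c b d b = -1 ∧ PI4_k a c b d d = 1 ∧
    ∀ v, ¬In4 a c b d v → PI4_k a c b d v = 0 := by
  obtain ⟨n1, n2, n3, n4, n5, n6⟩ := PI4_ne h k
  refine ⟨by simp [PI4_k, n1, n2, n3], by simp [PI4_k, n1.symm, n4, n5],
    by simp [PI4_k, n2.symm, n4.symm, n6], by simp [PI4_k, n3.symm, n5.symm, n6.symm],
    fun v hv => ?_⟩
  simp only [In4, not_or] at hv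
  simp [PI4_k, hv.1, hv.2.1, hv.2.2.1, hv.2.2.2]

theorem PI4_val (h : Flip E₁ E₂ Q) (k : Q a c b d) (x : V → ℝ) :
    PI4_fl a c b d x a = x a - min (x a) (x b) ∧ PI4_fl a c b d x c = x c + min (x a) (x b) ∧
    PI4_fl a c b d x b = x b - min (x a) (x b) ∧ PI4_fl a c b d x d = x d + min (x a) (x b) := by
  obtain ⟨k1, k2, k3, k4, -⟩ := PI4_kval h k
  simp only [PI4_fl, Pi.add_apply, Pi.smul_apply, smul_eq_mul, k1, k2, k3, k4, mul_one, mul_neg,
    sub_eq_add_neg, and_self]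

theorem PI4_supp (h : Flip E₁ E₂ Q) (k : Q a c b d) (hs : ∀ v, x v ≠ 0 → In4 a c b d v) (v : V)
    (hv : PI4_fl a c b d x v ≠ 0) : In4 a c b d v := by
  by_contra hn
  have h1 : x v = 0 := by_contra fun e => hn (hs v e)
  exact hv (by simp [PI4_fl, h1, (PI4_kval h k).2.2.2.2 v hn])

theorem PI4_spec (h : Flip E₁ E₂ Q) (hx : x ∈ Disc E₁) (k : Q a c b d)
    (hs : ∀ v, x v ≠ 0 → In4 a c b d v) : PI4_tm Q x = PI4_fl a c b d x := by
  unfold PI4_tm
  split_ifs with e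
  · obtain ⟨k', h1, h2⟩ := e.choose_spec
    generalize e.choose = q at k' h1 h2
    obtain ⟨a', c', b', d'⟩ := q
    obtain ⟨s1, s2⟩ := h.sq1 _ _ _ _ k
    obtain ⟨t1, t2⟩ := h.sq1 _ _ _ _ k'
    rcases h.uniq1 _ _ _ _ _ _ _ _ k k' (hs _ h1.ne') (hs _ h2.ne') with ⟨e1, e2⟩ | ⟨e1, e2⟩
    · dsimp only at e1 e2 t1 t2 ⊢
      subst e1 e2
      rw [t1.uniq h.t1 s1, t2.uniq h.t1 s2]
    · dsimp only at e1 e2 t1 t2 ⊢
      subst e1 e2
      rw [t1.uniq h.t1 s2, t2.uniq h.t1 s1, PI4_swap]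
  · have h0 : min (x a) (x b) = 0 := by
      refine le_antisymm (not_lt.1 fun hp => e ⟨(a, c, b, d), k, ?_⟩)
        (le_min (disc_nonneg h.t1 hx a).1 (disc_nonneg h.t1 hx b).1)
      exact lt_min_iff.1 hp
    rw [PI4_fl, h0, zero_smul, add_zero]

theorem PI4_cov (h : Flip E₁ E₂ Q) {p r q : V} (t : Tri E₁ p r q) :
    ∃ a c b d, Q a c b d ∧ ∀ z : V → ℝ, OnTri z p r q → ∀ v, z v ≠ 0 → In4 a c b d v := by
  obtain ⟨a, c, b, d, k, k1, k2, k3⟩ := h.cov1 p r q t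
  refine ⟨a, c, b, d, k, fun z hz v hv => ?_⟩
  rcases hz v hv with rfl | rfl | rfl <;> assumption

theorem PI4_sq (h : Flip E₁ E₂ Q) (hx : x ∈ Disc E₁) :
    ∃ a c b d, Q a c b d ∧ ∀ v, x v ≠ 0 → In4 a c b d v := by
  obtain ⟨p, r, q, s, t, u, h1, h2, h3, k, -, -, -, -, rfl⟩ := (mem_disc h.t1).1 hx
  obtain ⟨a, c, b, d, k0, k1⟩ := PI4_cov h ⟨k, h1, h2, h3⟩
  exact ⟨a, c, b, d, k0, k1 _ (PB1_on _ _ _ _ _ _)⟩

theorem PI4_cd (h : Flip E₁ E₂ Q) (hx : x ∈ Disc E₁) (k : Q a c b d) : x c = 0 ∨ x d = 0 := by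
  by_contra hn
  rw [not_or] at hn
  obtain ⟨s1, s2⟩ := h.sq1 _ _ _ _ k
  exact h.t1.nocross a b c d s1.2.2.2 (adj_of_pos h.t1 hx (PI4_ne h k).2.2.2.2.1 hn.1 hn.2)
    s1.1 s2.1

theorem PI4_sum (h : Flip E₁ E₂ Q) (hx : x ∈ Disc E₁) (k : Q a c b d)
    (hs : ∀ v, x v ≠ 0 → In4 a c b d v) : x a + x c + x b + x d = 1 := by
  obtain ⟨s1, s2⟩ := h.sq1 _ _ _ _ k
  rcases PI4_cd h hx k with e | e
  · have := (eq_bary h.t1 hx s2.1 fun v hv => by
      rcases hs v hv with rfl | rfl | rfl | rfl <;> tauto).2.2.2.1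
    linarith
  · have := (eq_bary h.t1 hx s1.1 fun v hv => by
      rcases hs v hv with rfl | rfl | rfl | rfl <;> tauto).2.2.2.1
    linarith

theorem PI4_disc {E : V → V → Prop} (hE : IdealTri E) {p r q : V} (t : Tri E p r q)
    (ho : OnTri x p r q) (h1 : 0 ≤ x p) (h2 : 0 ≤ x r) (h3 : 0 ≤ x q) (h4 : x p + x r + x q = 1) :
    x ∈ Disc E := by
  refine (mem_disc hE).2 ⟨p, r, q, x p, x r, x q, t.2.1, t.2.2.1, t.2.2.2, t.1, h1, h2, h3, h4, ?_⟩
  obtain ⟨e1, e2, e3⟩ := PB1_val t.1 (x p) (x r) (x q)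
  funext v
  by_cases hv : v = p ∨ v = r ∨ v = q
  · rcases hv with rfl | rfl | rfl
    exacts [e1.symm, e2.symm, e3.symm]
  · have h1 : x v = 0 := by_contra fun k => hv (ho v k)
    have h2 : bary p r q (x p) (x r) (x q) v = 0 := by_contra fun k => hv (PB1_on _ _ _ _ _ _ v k)
    rw [h1, h2]

theorem PI4_mem (h : Flip E₁ E₂ Q) (hx : x ∈ Disc E₁) : PI4_tm Q x ∈ Disc E₂ := by
  obtain ⟨a, c, b, d, k, hs⟩ := PI4_sq h hx
  rw [PI4_spec h hx k hs]
  obtain ⟨v1, v2, v3, v4⟩ := PI4_val h k x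
  obtain ⟨s1, s2⟩ := h.sq2 _ _ _ _ k
  have h0 := PI4_sum h hx k hs
  have ha := (disc_nonneg h.t1 hx a).1
  have hb := (disc_nonneg h.t1 hx b).1
  have hc := (disc_nonneg h.t1 hx c).1
  have hd := (disc_nonneg h.t1 hx d).1
  rcases le_total (x a) (x b) with e | e
  · rw [min_eq_left e] at v1 v2 v3 v4
    refine PI4_disc h.t2 s1 (fun v hv => ?_) (by linarith) (by linarith) (by linarith)
      (by linarith)
    rcases PI4_supp h k hs v hv with rfl | rfl | rfl | rfl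
    · exact absurd (by linarith) hv
    all_goals tauto
  · rw [min_eq_right e] at v1 v2 v3 v4
    refine PI4_disc h.t2 s2 (fun v hv => ?_) (by linarith) (by linarith) (by linarith)
      (by linarith)
    rcases PI4_supp h k hs v hv with rfl | rfl | rfl | rfl
    rotate_left 2
    · exact absurd (by linarith) hv
    all_goals tauto

theorem PI4_inv {Q' : V → V → V → V → Prop} (h : Flip E₁ E₂ Q) (h' : Flip E₂ E₁ Q')
    (hq : ∀ a c b d, Q a c b d → Q' c b d a ∨ Q' d a c b) (hx : x ∈ Disc E₁) :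
    PI4_tm Q' (PI4_tm Q x) = x := by
  obtain ⟨a, c, b, d, k, hs⟩ := PI4_sq h hx
  have hm := PI4_mem h hx
  rw [PI4_spec h hx k hs] at hm ⊢
  have e : PI4_tm Q' (PI4_fl a c b d x) = PI4_fl c b d a (PI4_fl a c b d x) := by
    rcases hq a c b d k with k' | k'
    · refine PI4_spec h' hm k' fun v hv => ?_
      have := PI4_supp h k hs v hv
      unfold In4 at *
      tauto
    · rw [PI4_swap c]
      refine PI4_spec h' hm k' fun v hv => ?_
      have := PI4_supp h k hs v hv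
      unfold In4 at *
      tauto
  obtain ⟨-, v2, -, v4⟩ := PI4_val h k x
  have hc := (disc_nonneg h.t1 hx c).1
  have hd := (disc_nonneg h.t1 hx d).1
  have e2 : min (x c) (x d) = 0 := by
    rcases PI4_cd h hx k with e | e
    · rw [e, min_eq_left hd]
    · rw [e, min_eq_right hc]
  rw [e, PI4_fl, v2, v4, min_add_add_right, e2, zero_add, PI4_fl, add_assoc, ← smul_add]
  have : PI4_k a c b d + PI4_k c b d a = 0 := by
    unfold PI4_k
    abel
  rw [this, smul_zero, add_zero]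

theorem PI4_two {E : V → V → Prop} (hE : IdealTri E) (hx : x ∈ Disc E) {u w : V} (n : u ≠ w) :
    x u + x w ≤ 1 := by
  by_cases hw : x w = 0
  · linarith [(disc_nonneg hE hx u).2]
  by_cases hu : x u = 0
  · linarith [(disc_nonneg hE hx w).2]
  obtain ⟨p, q, -, -, -, k, ho⟩ := exists_tri hE hx hw
  obtain ⟨-, h2, h3, h4, -⟩ := eq_bary hE hx k ho
  rcases ho u hu with rfl | rfl | rfl
  · exact absurd rfl n
  · linarith
  · linarith

theorem PI4_near (h : Flip E₁ E₂ Q) (hx : x ∈ Disc E₁) (w v : V) :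
    |PI4_tm Q x v - x v| ≤ 1 - x w := by
  obtain ⟨a, c, b, d, k, hs⟩ := PI4_sq h hx
  have h0 : 0 ≤ min (x a) (x b) := le_min (disc_nonneg h.t1 hx a).1 (disc_nonneg h.t1 hx b).1
  have h1 : min (x a) (x b) ≤ 1 - x w := by
    by_cases e : a = w
    · have := PI4_two h.t1 hx (u := b) (w := w) (e ▸ (PI4_ne h k).2.1.symm)
      linarith [min_le_right (x a) (x b)]
    · linarith [min_le_left (x a) (x b), PI4_two h.t1 hx e]
  have h2 : |PI4_k a c b d v| ≤ 1 := by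
    obtain ⟨k1, k2, k3, k4, k5⟩ := PI4_kval h k
    by_cases hv : In4 a c b d v
    · rcases hv with rfl | rfl | rfl | rfl <;> simp [k1, k2, k3, k4]
    · simp [k5 v hv]
  rw [PI4_spec h hx k hs, PI4_fl, Pi.add_apply, add_sub_cancel_left, Pi.smul_apply, smul_eq_mul,
    abs_mul, abs_of_nonneg h0]
  exact (mul_le_of_le_one_right h0 h2).trans h1

theorem PI4_fix (h : Flip E₁ E₂ Q) (hx : x ∈ Disc E₁) {w : V} (hw : x w = 1) : PI4_tm Q x = x := by
  funext v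
  have := PI4_near h hx w v
  rw [hw, sub_self] at this
  exact sub_eq_zero.1 (abs_nonpos_iff.1 this)

theorem PI4_cw (h : Flip E₁ E₂ Q) (hx : x ∈ Disc E₁) (k : Q a c b d) :
    ContinuousWithinAt (PI4_tm Q) (Disc E₁ ∩ {z | ∀ v, z v ≠ 0 → In4 a c b d v}) x := by
  by_cases hs : ∀ v, x v ≠ 0 → In4 a c b d v
  · have hc : Continuous (PI4_fl a c b d) := by
      unfold PI4_fl
      fun_prop
    exact hc.continuousWithinAt.congr (fun z hz => PI4_spec h hz.1 k hz.2) (PI4_spec h hx k hs)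
  · refine continuousWithinAt_of_notMem_closure fun hm => hs fun v hv => ?_
    by_contra hn
    exact hv (closure_minimal (t := {z : V → ℝ | z v = 0})
      (fun z hz => by_contra fun e => hn (hz.2 v e))
      (isClosed_eq (continuous_apply v) continuous_const) hm)

theorem PI4_cont (h : Flip E₁ E₂ Q) : ContinuousOn (PI4_tm Q) (Disc E₁) := by
  intro x hx
  by_cases hw : ∀ w, x w < 1
  · obtain ⟨p, q, hpq, hp, hq⟩ : ∃ p q, p ≠ q ∧ 0 < x p ∧ 0 < x q := by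
      obtain ⟨a, b, c, s, t, u, -, -, -, k, k1, k2, k3, k4, e⟩ := (mem_disc h.t1).1 hx
      obtain ⟨e1, e2, e3⟩ := PB1_val k s t u
      rw [← e] at e1 e2 e3
      obtain ⟨n1, n2, n3⟩ := cyc_ne k
      have ha := hw a
      have hb := hw b
      have hc := hw c
      by_cases i1 : 0 < x a
      · by_cases i2 : 0 < x b
        · exact ⟨a, b, n1, i1, i2⟩
        · exact ⟨a, c, n3, i1, by linarith⟩
      · exact ⟨b, c, n2, by linarith, by linarith⟩
    have hE := adj_of_pos h.t1 hx hpq hp.ne' hq.ne'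
    obtain ⟨r, t1⟩ := exists_Tri h.t1 hE
    obtain ⟨r', t2⟩ := exists_Tri h.t1 (h.t1.symm _ _ hE)
    obtain ⟨a, c, b, d, k, hk⟩ := PI4_cov h t1
    obtain ⟨a', c', b', d', k', hk'⟩ := PI4_cov h t2
    refine ((PI4_cw h hx k).union (PI4_cw h hx k')).mono_of_mem_nhdsWithin ?_
    have ev : ∀ v, 0 < x v → ∀ᶠ x' : V → ℝ in nhdsWithin x (Disc E₁), 0 < x' v := fun v hv =>
      nhdsWithin_le_nhds ((continuous_apply v).continuousAt.eventually (lt_mem_nhds hv))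
    filter_upwards [ev p hp, ev q hq, self_mem_nhdsWithin] with z hzp hzq hz
    obtain ⟨s, t, h1, h2, h3, h4, ho⟩ := exists_tri h.t1 hz hzp.ne'
    have t3 : Tri E₁ p s t := ⟨h4, h1, h3, h2⟩
    rcases ho q hzq.ne' with e | rfl | rfl
    · exact absurd e.symm hpq
    · obtain rfl := (t3.rot h.t1).uniq h.t1 t2
      refine Or.inr ⟨hz, hk' z fun v hv => ?_⟩
      have := ho v hv
      tauto
    · obtain rfl := t3.uniq h.t1 t1
      exact Or.inl ⟨hz, hk z ho⟩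
  · obtain ⟨w, hw⟩ := not_forall.1 hw
    have hw1 : x w = 1 := le_antisymm (disc_nonneg h.t1 hx w).2 (not_lt.1 hw)
    rw [ContinuousWithinAt, PI4_fix h hx hw1, tendsto_pi_nhds]
    intro v
    have hc : Continuous fun z : V → ℝ => 1 - z w + |z v - x v| := by fun_prop
    have ht0 : Filter.Tendsto (fun z : V → ℝ => 1 - z w + |z v - x v|) (nhdsWithin x (Disc E₁))
        (nhds 0) := by
      have := (hc.tendsto x).mono_left (nhdsWithin_le_nhds (s := Disc E₁))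
      simpa [hw1] using this
    rw [tendsto_iff_dist_tendsto_zero]
    refine squeeze_zero' (Filter.Eventually.of_forall fun _ => dist_nonneg) ?_ ht0
    filter_upwards [self_mem_nhdsWithin] with z hz
    rw [Real.dist_eq]
    exact (abs_sub_le _ (z v) _).trans (add_le_add (PI4_near h hz w v) le_rfl)

theorem PI4_ray (h : Flip E₁ E₂ Q) (hx : x ∈ Disc E₁) {w : V} (hw : 1 - 1 / 2 ≤ x w) {s : ℝ}
    (h0 : 0 ≤ s) (h1 : s ≤ 1) (hx' : (1 - s) • (Pi.single w 1 : V → ℝ) + s • x ∈ Disc E₁) :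
    PI4_tm Q ((1 - s) • (Pi.single w 1 : V → ℝ) + s • x) =
      (1 - s) • (Pi.single w 1 : V → ℝ) + s • PI4_tm Q x := by
  obtain ⟨a, c, b, d, k, hs⟩ := PI4_sq h hx
  have n := (PI4_ne h k).2.1
  have h2 := PI4_two h.t1 hx n
  have e : min (((1 - s) • (Pi.single w 1 : V → ℝ) + s • x) a)
      (((1 - s) • (Pi.single w 1 : V → ℝ) + s • x) b) = s * min (x a) (x b) := by
    simp only [Pi.add_apply, Pi.smul_apply, smul_eq_mul]
    by_cases ea : a = w
    · subst ea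
      have h3 : x b ≤ x a := by linarith
      rw [Pi.single_eq_same, Pi.single_eq_of_ne n.symm, min_eq_right h3, mul_zero, zero_add]
      exact min_eq_right (by nlinarith)
    by_cases eb : b = w
    · subst eb
      have h3 : x a ≤ x b := by linarith
      rw [Pi.single_eq_same, Pi.single_eq_of_ne n, min_eq_left h3, mul_zero, zero_add]
      exact min_eq_left (by nlinarith)
    rw [Pi.single_eq_of_ne ea, Pi.single_eq_of_ne eb, mul_zero, zero_add, zero_add,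
      mul_min_of_nonneg _ _ h0]
  rw [PI4_spec h hx k hs, PI4_spec h hx' k, PI4_fl, e, PI4_fl, smul_add, smul_smul, add_assoc]
  intro v hv
  by_cases ev : v = w
  · exact hs v (by rw [ev]; linarith)
  · exact hs v fun e => hv (by simp [ev, e])

theorem PI4_ht (h : Flip E₁ E₂ Q) (hx : x ∈ Disc E₁) {φ : V → ℝ}
    (hφ : ∀ a c b d, Q a c b d → φ a + φ b = φ c + φ d) : ht φ (PI4_tm Q x) = ht φ x := by
  obtain ⟨a, c, b, d, k, hs⟩ := PI4_sq h hx
  obtain ⟨n1, n2, n3, n4, n5, n6⟩ := PI4_ne h k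
  obtain ⟨v1, v2, v3, v4⟩ := PI4_val h k x
  have key : ∀ z : V → ℝ, (∀ v, z v ≠ 0 → In4 a c b d v) →
      ht φ z = z a * φ a + (z c * φ c + (z b * φ b + z d * φ d)) := fun z hz => by
    rw [PB1_ht_sum φ {a, c, b, d} fun v hv => by simpa [In4] using hz v hv,
      Finset.sum_insert (by simp [n1, n2, n3]), Finset.sum_insert (by simp [n4, n5]),
      Finset.sum_pair n6]
  rw [PI4_spec h hx k hs, key _ (PI4_supp h k hs), key x hs, v1, v2, v3, v4]
  linear_combination (-min (x a) (x b)) * hφ a c b d k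

theorem exists_flip (h : Flip E₁ E₂ Q) : ∃ T : Disc E₁ ≃ₜ Disc E₂,
    (∀ (x : Disc E₁) a c b d, Q a c b d → (∀ v, x.1 v ≠ 0 → In4 a c b d v) →
      (T x).1 = x.1 + min (x.1 a) (x.1 b) •
        (Pi.single c 1 + Pi.single d 1 - Pi.single a 1 - Pi.single b 1 : V → ℝ)) ∧
    (∀ x : Disc E₁, ∃ a c b d, Q a c b d ∧ ∀ v, x.1 v ≠ 0 → In4 a c b d v) ∧
    (∀ (x : Disc E₁) w, (T x).1 w = 1 ↔ x.1 w = 1) ∧ (∀ w, Con T w w) ∧
    ∀ φ : V → ℝ, (∀ a c b d, Q a c b d → φ a + φ b = φ c + φ d) →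
      ∀ x : Disc E₁, ht φ (T x).1 = ht φ x.1 := by
  have h' := PI4_symm h
  have i1 : ∀ x ∈ Disc E₁, PI4_tm (fun c b d a => Q a c b d) (PI4_tm Q x) = x := fun x hx =>
    PI4_inv h h' (fun _ _ _ _ k => Or.inl k) hx
  refine ⟨{ toFun := fun x => ⟨PI4_tm Q x.1, PI4_mem h x.2⟩
            invFun := fun x => ⟨PI4_tm (fun c b d a => Q a c b d) x.1, PI4_mem h' x.2⟩
            left_inv := fun x => Subtype.ext (i1 x.1 x.2)
            right_inv := fun x => Subtype.ext (PI4_inv h' h (fun _ _ _ _ k => Or.inr k) x.2)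
            continuous_toFun := (continuousOn_iff_continuous_domRestrict.1 (PI4_cont h)).subtype_mk _
            continuous_invFun :=
              (continuousOn_iff_continuous_domRestrict.1 (PI4_cont h')).subtype_mk _ },
    fun x a c b d k hs => PI4_spec h x.2 k hs, fun x => PI4_sq h x.2, fun x w => ⟨fun e => ?_,
      fun e => (congrFun (PI4_fix h x.2 e) w).trans e⟩, fun w => ⟨1 / 2, 2, by norm_num,
      by norm_num, fun x hx => ⟨?_, fun s x' h0 h1 e => ?_⟩⟩, fun φ hφ x => PI4_ht h x.2 hφ⟩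
  · change PI4_tm Q x.1 w = 1 at e
    rw [← i1 x.1 x.2, PI4_fix h' (PI4_mem h x.2) e, e]
  · change 1 - PI4_tm Q x.1 w ≤ _
    linarith [(abs_le.1 (PI4_near h x.2 w w)).1]
  · change PI4_tm Q x'.1 = _ + s • PI4_tm Q x.1
    rw [e]
    exact PI4_ray h x.2 hx h0 h1 (e ▸ x'.2)

end Pool.Agent.Work.MP_3d425c_gt.Inst
end
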