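import Mathlib
import Pool.Agent.Work.MP_3d425c_gt.PI7

-- merged part: Pool.Agent.Work.MP_3d425c_gt.PI8
section
/-! The suspension of a radially linear map of a cone. -/

namespace Pool.Agent.Work.MP_3d425c_gt.Inst

open Set Topology Filter

lemma PI8_emb {T : Type} [TopologicalSpace T] (F : ℝ × T → ℝ) (hF : Continuous F)
    (hm : ∀ t, StrictMono fun u => F (u, t)) :
    IsOpenEmbedding fun q : ℝ × T => (F q, q.2) := by
  refine IsOpenEmbedding.of_continuous_injective_isOpenMap (hF.prodMk continuous_snd) ?_ ?_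
  · rintro ⟨u, t⟩ ⟨u', t'⟩ h
    obtain ⟨h1, h2⟩ := Prod.mk.inj h
    simp only at h2
    subst h2
    rw [(hm t).injective h1]
  · refine isOpenMap_iff_nhds_le.2 ?_
    rintro ⟨u, t⟩ U hU
    obtain ⟨A, hA, W, hW, hAW⟩ := mem_nhds_prod_iff.1 (mem_map.1 hU)
    obtain ⟨l, r, -, hI, hsub⟩ := exists_Icc_mem_subset_of_mem_nhds hA
    obtain ⟨hl, hr⟩ := Icc_mem_nhds_iff.1 hI
    have h1 : ∀ᶠ p : ℝ × T in 𝓝 (F (u, t), t), F (l, p.2) < p.1 :=
      ContinuousAt.eventually_lt (by fun_prop) (by fun_prop) (hm t hl)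
    have h2 : ∀ᶠ p : ℝ × T in 𝓝 (F (u, t), t), p.1 < F (r, p.2) :=
      ContinuousAt.eventually_lt (by fun_prop) (by fun_prop) (hm t hr)
    have h3 : ∀ᶠ p : ℝ × T in 𝓝 (F (u, t), t), p.2 ∈ W := continuousAt_snd.eventually_mem hW
    filter_upwards [h1, h2, h3] with p p1 p2 p3
    obtain ⟨v, hv, e⟩ := intermediate_value_Icc (hl.trans hr).le
      (f := fun v => F (v, p.2)) (by fun_prop) ⟨p1.le, p2.le⟩
    have h4 : (F (v, p.2), p.2) ∈ U := hAW (mk_mem_prod (hsub hv) p3)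
    have h5 : F (v, p.2) = p.1 := e
    rwa [h5] at h4

/-- Time clamped to the unit interval. -/
noncomputable def PI8_a (s : ℝ) : ℝ := min (max s 0) 1

lemma PI8_a0 (s : ℝ) : 0 ≤ PI8_a s := le_min (le_max_right _ _) zero_le_one

lemma PI8_a1 (s : ℝ) : PI8_a s ≤ 1 := min_le_right _ _

lemma PI8_a_cont : Continuous PI8_a := by unfold PI8_a; fun_prop

lemma PI8_a_zero : PI8_a 0 = 0 := by simp [PI8_a]

lemma PI8_a_one : PI8_a 1 = 1 := by simp [PI8_a]

lemma PI8_surj {f : ℝ → ℝ} (hf : Continuous f) (hp : ∀ θ, f (θ + 6) = f θ + 6) :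
    Function.Surjective f := by
  have h1 : ∀ n : ℕ, ∀ θ, f (θ + 6 * n) = f θ + 6 * n := fun n => by
    induction n with
    | zero => simp
    | succ n ih =>
      intro θ
      have : θ + 6 * ((n + 1 : ℕ) : ℝ) = θ + 6 * n + 6 := by push_cast; ring
      rw [this, hp, ih]
      push_cast
      ring
  intro y
  obtain ⟨n, hn⟩ := exists_nat_ge |y - f 0|
  have h2 := abs_le.1 hn
  have hn0 : (0 : ℝ) ≤ n := Nat.cast_nonneg n
  refine mem_range_of_exists_le_of_exists_ge hf ⟨-(6 * n), ?_⟩ ⟨6 * n, ?_⟩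
  · have := h1 n (-(6 * n))
    rw [neg_add_cancel] at this
    linarith
  · have := h1 n 0
    rw [zero_add] at this
    linarith

lemma PI8_bdd {ρ : ℝ → ℝ} (hρ : Continuous ρ) (hρp : ∀ θ, ρ (θ + 6) = ρ θ) :
    ∃ M, 1 ≤ M ∧ ∀ θ, ρ θ ≤ M := by
  obtain ⟨M, hM⟩ := (Function.Periodic.isBounded_of_continuous (f := ρ) (c := 6) hρp
    (by norm_num) hρ).bddAbove
  exact ⟨max M 1, le_max_right _ _, fun θ => (hM ⟨θ, rfl⟩).trans (le_max_left _ _)⟩

lemma PI8_core (f ρ : ℝ → ℝ) (hf : Continuous f) (hm : StrictMono f)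
    (hp : ∀ θ, f (θ + 6) = f θ + 6) (hρ : Continuous ρ) (h0 : ∀ θ, 0 < ρ θ)
    (hρp : ∀ θ, ρ (θ + 6) = ρ θ) : ∃ (Θ τ : ℝ × ℝ → ℝ) (c : ℝ), Continuous Θ ∧ Continuous τ ∧
      (∀ t, StrictMono fun u => Θ (u, t)) ∧ (∀ q, 0 < τ q ∧ τ q ≤ c) ∧
      (∀ u t, Θ (u + 6, t) = Θ (u, t) + 6 ∧ τ (u + 6, t) = τ (u, t)) ∧
      ∀ u t, -1 < t → t < 0 → Θ (u, t + 1) = f (Θ (u, t)) ∧
        τ (u, t + 1) = τ (u, t) * ρ (Θ (u, t)) := by
  let g : ℝ ≃o ℝ := hm.orderIsoOfSurjective f (PI8_surj hf hp)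
  have hg : ∀ y, f (g.symm y) = y := fun y => g.apply_symm_apply y
  have hg' : ∀ y, g.symm (f y) = y := fun y => g.symm_apply_apply y
  have hgp : ∀ y, g.symm (y + 6) = g.symm y + 6 := fun y =>
    hm.injective (by rw [hg, hp, hg])
  have ha := PI8_a_cont
  have hgc : Continuous g.symm := g.symm.continuous
  let W : ℝ × ℝ → ℝ := fun q => (1 - PI8_a q.2) * q.1 + PI8_a q.2 * f q.1
  let w : ℝ × ℝ → ℝ := fun q => (1 - PI8_a q.2) + PI8_a q.2 * ρ q.1
  have hW : Continuous W := by fun_prop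
  have hw : Continuous w := by fun_prop
  have hWm : ∀ t, StrictMono fun u => W (u, t) := fun t u v huv => by
    have h1 := hm huv
    have h2 := PI8_a0 t
    have h3 := PI8_a1 t
    simp only [W]
    rcases h2.eq_or_lt with h4 | h4
    · rw [← h4]
      linarith
    · nlinarith [mul_nonneg (sub_nonneg.2 h3) (sub_nonneg.2 huv.le), mul_pos h4 (sub_pos.2 h1)]
  have hWp : ∀ u t, W (u + 6, t) = W (u, t) + 6 := fun u t => by
    simp only [W, hp]
    ring
  have hwp : ∀ u t, w (u + 6, t) = w (u, t) := fun u t => by simp only [w, hρp]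
  obtain ⟨M, hM1, hM⟩ := PI8_bdd hρ hρp
  obtain ⟨M', hM1', hM'⟩ := PI8_bdd (ρ := fun θ => (ρ θ)⁻¹) (hρ.inv₀ fun θ => (h0 θ).ne')
    fun θ => by rw [hρp]
  have hw0 : ∀ q, 0 < w q ∧ w q ≤ M := fun q => by
    have h2 := PI8_a0 q.2
    have h3 := PI8_a1 q.2
    have h5 := h0 q.1
    have h6 := hM q.1
    simp only [w]
    refine ⟨?_, by nlinarith⟩
    rcases h2.eq_or_lt with h4 | h4
    · rw [← h4]
      linarith
    · nlinarith [mul_pos h4 h5]
  have hsh : Continuous fun q : ℝ × ℝ => (q.1, q.2 + 1) := by fun_prop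
  have hv : Continuous fun q : ℝ × ℝ => g.symm (W (q.1, q.2 + 1)) := hgc.comp (hW.comp hsh)
  refine ⟨fun q => if q.2 ≤ 0 then g.symm (W (q.1, q.2 + 1)) else W q,
    fun q => if q.2 ≤ 0 then w (q.1, q.2 + 1) * (ρ (g.symm (W (q.1, q.2 + 1))))⁻¹ else w q,
    M * M', ?_, ?_, fun t => ?_, fun q => ?_, fun u t => ?_, fun u t h1 h2 => ?_⟩
  · refine Continuous.if_le hv hW continuous_snd continuous_const fun q hq => ?_
    simp [W, hq, PI8_a_zero, PI8_a_one, hg']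
  · refine Continuous.if_le ((hw.comp hsh).mul ((hρ.comp hv).inv₀ fun q => (h0 _).ne')) hw
      continuous_snd continuous_const fun q hq => ?_
    simp [W, w, hq, PI8_a_zero, PI8_a_one, hg', (h0 q.1).ne']
  · by_cases ht : t ≤ 0
    · simp only [ht, if_true]
      exact g.symm.strictMono.comp (hWm (t + 1))
    · simp only [ht, if_false]
      exact hWm t
  · by_cases ht : q.2 ≤ 0
    · simp only [ht, if_true]
      exact ⟨mul_pos (hw0 _).1 (inv_pos.2 (h0 _)), mul_le_mul (hw0 _).2 (hM' _)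
        (inv_pos.2 (h0 _)).le (by linarith)⟩
    · simp only [ht, if_false]
      exact ⟨(hw0 q).1, (hw0 q).2.trans (by nlinarith)⟩
  · by_cases ht : t ≤ 0
    · simp only [ht, if_true, hWp, hwp, hgp, hρp, and_self]
    · simp only [ht, if_false, hWp, hwp, and_self]
  · have h3 : ¬t + 1 ≤ 0 := by linarith
    simp only [h3, h2.le, if_true, if_false, hg, true_and]
    rw [inv_mul_cancel_right₀ (h0 _).ne']

theorem exists_susp (f ρ : ℝ → ℝ) (hf : Continuous f) (hm : StrictMono f)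
    (hp : ∀ θ, f (θ + 6) = f θ + 6) (hρ : Continuous ρ) (h0 : ∀ θ, 0 < ρ θ)
    (hρp : ∀ θ, ρ (θ + 6) = ρ θ) {δ : ℝ} (hδ : 0 < δ) : ∃ Θ R : ℝ × ℝ × ℝ → ℝ,
      Topology.IsOpenEmbedding (fun q : ℝ × ℝ × ℝ => (Θ q, R q, q.2.2)) ∧
      (∀ q, 0 < R q ∧ R q < δ) ∧
      (∀ u x t, Θ (u + 6, x, t) = Θ (u, x, t) + 6 ∧ R (u + 6, x, t) = R (u, x, t)) ∧
      ∀ u x t, -1 < t → t < 0 → Θ (u, x, t + 1) = f (Θ (u, x, t)) ∧
        R (u, x, t + 1) = R (u, x, t) * ρ (Θ (u, x, t)) := by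
  obtain ⟨Θ, τ, c, hΘ, hτ, hmo, hb, hper, hst⟩ := PI8_core f ρ hf hm hp hρ h0 hρp
  have hc : 0 < c := (hb (0, 0)).1.trans_le (hb (0, 0)).2
  have hk : 0 < δ / c := div_pos hδ hc
  refine ⟨fun q => Θ (q.1, q.2.2), fun q => δ / c * τ (q.1, q.2.2) * Real.sigmoid q.2.1, ?_,
    fun q => ⟨mul_pos (mul_pos hk (hb _).1) (Real.sigmoid_pos _), ?_⟩, fun u x t => ?_,
    fun u x t h1 h2 => ?_⟩
  · have hs : Continuous Real.sigmoid := by fun_prop
    have e1 := PI8_emb (T := ℝ × ℝ) (fun q => δ / c * τ q.2 * Real.sigmoid q.1) (by fun_prop)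
      fun t u v huv => mul_lt_mul_of_pos_left (Real.sigmoid_strictMono huv) (mul_pos hk (hb _).1)
    have e2 := PI8_emb (T := ℝ × ℝ) (fun q => Θ (q.1, q.2.2)) (by fun_prop) fun t => hmo t.2
    let sw : ℝ × ℝ × ℝ ≃ₜ ℝ × ℝ × ℝ :=
      { toFun := fun q => (q.2.1, q.1, q.2.2)
        invFun := fun q => (q.2.1, q.1, q.2.2)
        left_inv := fun _ => rfl
        right_inv := fun _ => rfl
        continuous_toFun := by fun_prop
        continuous_invFun := by fun_prop }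
    exact e2.comp (sw.isOpenEmbedding.comp (e1.comp sw.isOpenEmbedding))
  · have h1 : δ / c * τ (q.1, q.2.2) ≤ δ := by
      rw [div_mul_eq_mul_div, div_le_iff₀ hc]
      exact mul_le_mul_of_nonneg_left (hb _).2 hδ.le
    have h2 := Real.sigmoid_lt_one q.2.1
    have h3 := mul_pos hk (hb (q.1, q.2.2)).1
    nlinarith
  · simp only [(hper u t).1, (hper u t).2, and_self]
  · simp only [(hst u t h1 h2).1, (hst u t h1 h2).2, true_and]
    ring

/-- The covering of the solid torus without its core. -/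
noncomputable def cov (q : ℝ × ℝ × ℝ) : ℂ × Circle :=
  (Complex.exp (q.2.1 + 2 * Real.pi * q.2.2 * Complex.I), Circle.exp (2 * Real.pi * (q.1 / 6)))

theorem cov_continuous : Continuous cov := by
  unfold cov
  fun_prop

theorem cov_isOpenMap : IsOpenMap cov := by
  have hpi : (2 * Real.pi) ≠ 0 := Real.two_pi_pos.ne'
  have h1 : IsOpenMap fun u : ℝ => Circle.exp (2 * Real.pi * (u / 6)) :=
    isLocalHomeomorph_circleExp.isOpenMap.comp ((Homeomorph.mulLeft₀ _ hpi).isOpenMap.comp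
      (Homeomorph.mulRight₀ (6 : ℝ)⁻¹ (by norm_num)).isOpenMap)
  have h2 : IsOpenMap fun p : ℝ × ℝ => Complex.exp (p.1 + 2 * Real.pi * p.2 * Complex.I) := by
    have h3 := Complex.isOpenMap_exp.comp (Complex.equivRealProdCLM.symm.isOpenMap.comp
      (IsOpenMap.id.prodMap (Homeomorph.mulLeft₀ _ hpi).isOpenMap))
    convert h3 using 2 with p
    simp [Complex.equivRealProdCLM_symm_apply]
  exact (h2.prodMap h1).comp (Homeomorph.prodComm ℝ (ℝ × ℝ)).isOpenMap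

theorem cov_eq_iff {q q' : ℝ × ℝ × ℝ} : cov q = cov q' ↔
    ∃ m n : ℤ, q'.1 = q.1 + 6 * m ∧ q'.2.1 = q.2.1 ∧ q'.2.2 = q.2.2 + n := by
  have hpi : 0 < Real.pi := Real.pi_pos
  rw [cov, cov, Prod.mk.injEq, eq_comm, Complex.exp_eq_exp_iff_exists_int, eq_comm,
    Circle.exp_eq_exp]
  constructor
  · rintro ⟨⟨n, hn⟩, m, hm⟩
    have h1 := congrArg Complex.re hn
    have h2 := congrArg Complex.im hn
    simp at h1 h2
    refine ⟨m, n, ?_, h1, ?_⟩
    · refine mul_left_cancel₀ hpi.ne' ?_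
      linarith
    · refine mul_left_cancel₀ hpi.ne' ?_
      linarith
  · rintro ⟨m, n, h1, h2, h3⟩
    refine ⟨⟨n, ?_⟩, m, ?_⟩
    · rw [h2, h3]
      push_cast
      ring
    · rw [h1]
      ring

theorem cov_surj (z : ℂ) (s : Circle) :
    (∃ q : ℝ × ℝ × ℝ, -1 < q.2.2 ∧ q.2.2 < 1 ∧ cov q = (z, s)) ↔ z ≠ 0 := by
  have hpi : 0 < Real.pi := Real.pi_pos
  constructor
  · rintro ⟨q, -, -, h⟩
    rw [← (Prod.mk.inj h).1]
    exact Complex.exp_ne_zero _
  · intro hz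
    have h1 := Complex.neg_pi_lt_arg z
    have h2 := Complex.arg_le_pi z
    refine ⟨(6 * (Complex.arg s / (2 * Real.pi)), Real.log ‖z‖, Complex.arg z / (2 * Real.pi)),
      ?_, ?_, Prod.ext ?_ ?_⟩
    · rw [lt_div_iff₀ Real.two_pi_pos]
      linarith
    · rw [div_lt_iff₀ Real.two_pi_pos]
      linarith
    · simp only [cov]
      rw [← Complex.exp_log hz, Complex.exp_log hz]
      conv_rhs => rw [← Complex.exp_log hz, Complex.log]
      have h3 : (Real.pi : ℂ) ≠ 0 := Complex.ofReal_ne_zero.2 hpi.ne'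
      congr 2
      push_cast
      field_simp
    · simp only [cov]
      conv_rhs => rw [← Circle.exp_arg s]
      congr 1
      field_simp

theorem cov_mer (t : ℝ) : cov (0, 0, t) = ((Circle.exp (2 * Real.pi * t) : ℂ), 1) := by
  simp [cov]

end Pool.Agent.Work.MP_3d425c_gt.Inst
end

-- merged part: Pool.Agent.Work.MP_3d425c_gt.PI9
section
/-! Gluing an orbit space and another space along an open set. -/

namespace Pool.Agent.Work.MP_3d425c_gt.Inst

/-- The gluing relation. -/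
def PI9_rel (Γ : Type) {Y S Ω : Type} [Group Γ] [MulAction Γ Y] (J : Ω → Y) (ψ : Ω → S) :
    Y ⊕ S → Y ⊕ S → Prop
  | .inl a, .inl b => ∃ g : Γ, g • a = b
  | .inl a, .inr s => ∃ (q : Ω) (g : Γ), g • a = J q ∧ ψ q = s
  | .inr s, .inl a => ∃ (q : Ω) (g : Γ), g • a = J q ∧ ψ q = s
  | .inr s, .inr t => s = t

theorem PI9_equiv {Γ Y S Ω : Type} [Group Γ] [MulAction Γ Y] {J : Ω → Y} {ψ : Ω → S}
    (compat : ∀ q q', (∃ g : Γ, g • J q = J q') ↔ ψ q = ψ q') : Equivalence (PI9_rel Γ J ψ) := by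
  refine ⟨?_, ?_, ?_⟩
  · rintro (a | s)
    · exact ⟨1, one_smul _ _⟩
    · exact rfl
  · rintro (a | s) (b | t) h
    · obtain ⟨g, rfl⟩ := h
      exact ⟨g⁻¹, inv_smul_smul _ _⟩
    · exact h
    · exact h
    · exact Eq.symm h
  · rintro (a | s) (b | t) (c | u) h h'
    · obtain ⟨g, rfl⟩ := h
      obtain ⟨g', rfl⟩ := h'
      exact ⟨g' * g, mul_smul _ _ _⟩
    · obtain ⟨g, rfl⟩ := h
      obtain ⟨q, g', h1, h2⟩ := h'
      exact ⟨q, g' * g, (mul_smul _ _ _).trans h1, h2⟩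
    · obtain ⟨q, g, h1, h2⟩ := h
      obtain ⟨q', g', h1', h2'⟩ := h'
      obtain ⟨k, hk⟩ := (compat q q').2 (h2.trans h2'.symm)
      exact ⟨g'⁻¹ * (k * g), by rw [mul_smul, mul_smul, h1, hk, ← h1', inv_smul_smul]⟩
    · obtain rfl : t = u := h'
      exact h
    · obtain ⟨g, rfl⟩ := h'
      obtain ⟨q, g', h1, h2⟩ := h
      exact ⟨q, g' * g⁻¹, by rw [mul_smul, inv_smul_smul, h1], h2⟩
    · obtain ⟨q, g, h1, rfl⟩ := h
      obtain ⟨q', g', h1', rfl⟩ := h'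
      exact (compat q q').1 ⟨g' * g⁻¹, by rw [mul_smul, ← h1, inv_smul_smul, h1']⟩
    · obtain rfl : s = t := h
      exact h'
    · exact Eq.trans h h'

theorem PI9_sat (Γ : Type) {Y : Type} [TopologicalSpace Y] [Group Γ] [MulAction Γ Y]
    [ContinuousConstSMul Γ Y] {U : Set Y} (hU : IsOpen U) : IsOpen {a | ∃ g : Γ, g • a ∈ U} := by
  rw [Set.ofPred_exists]
  exact isOpen_iUnion fun g => hU.preimage (continuous_const_smul g)

theorem exists_glue {Y S Ω Γ : Type} [TopologicalSpace Y] [TopologicalSpace S]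
    [TopologicalSpace Ω] [Group Γ] [MulAction Γ Y] [ContinuousConstSMul Γ Y]
    (hloc : ∀ y : Y, ∃ U ∈ nhds y, ∀ z ∈ U, ∀ g : Γ, g • z ∈ U → g • z = z) (J : Ω → Y)
    (ψ : Ω → S) (cJ : Continuous J) (oJ : IsOpenMap J) (cψ : Continuous ψ) (oψ : IsOpenMap ψ)
    (compat : ∀ q q', (∃ g : Γ, g • J q = J q') ↔ ψ q = ψ q') :
    ∃ (M : Type) (_ : TopologicalSpace M) (p : Y → M) (N : S → M), IsLocalHomeomorph p ∧
      (∀ a b, p a = p b ↔ ∃ g : Γ, g • a = b) ∧ Topology.IsOpenEmbedding N ∧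
      (∀ s, N s ∈ Set.range p ↔ s ∈ Set.range ψ) ∧
      (∀ m, m ∈ Set.range p ∨ m ∈ Set.range N) ∧ ∀ q, p (J q) = N (ψ q) := by
  let r : Setoid (Y ⊕ S) := ⟨_, PI9_equiv compat⟩
  have he : ∀ x y, Quotient.mk r x = Quotient.mk r y ↔ PI9_rel Γ J ψ x y := fun _ _ => Quotient.eq
  have cp : Continuous fun a => Quotient.mk r (.inl a) := continuous_quot_mk.comp continuous_inl
  have op : IsOpenMap fun a => Quotient.mk r (.inl a) := by
    intro U hU
    refine isOpen_coinduced.2 (isOpen_sum_iff.2 ⟨?_, ?_⟩)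
    · convert PI9_sat Γ hU using 1
      ext a
      constructor
      · rintro ⟨b, hb, h⟩
        obtain ⟨g, hg⟩ := (he _ _).1 (Eq.symm h)
        exact ⟨g, hg ▸ hb⟩
      · rintro ⟨g, hg⟩
        exact ⟨_, hg, ((he (.inl a) (.inl _)).2 ⟨g, rfl⟩).symm⟩
    · convert oψ _ ((PI9_sat Γ hU).preimage cJ) using 1
      ext s
      constructor
      · rintro ⟨b, hb, h⟩
        obtain ⟨q, g, h1, h2⟩ := (he _ _).1 h
        exact ⟨q, ⟨g⁻¹, by rwa [← h1, inv_smul_smul]⟩, h2⟩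
      · rintro ⟨q, ⟨g, hg⟩, rfl⟩
        exact ⟨_, hg, (he _ (.inr _)).2 ⟨q, g⁻¹, inv_smul_smul _ _, rfl⟩⟩
  have oN : IsOpenMap fun s => Quotient.mk r (.inr s) := by
    intro U hU
    refine isOpen_coinduced.2 (isOpen_sum_iff.2 ⟨?_, ?_⟩)
    · convert PI9_sat Γ (oJ _ (hU.preimage cψ)) using 1
      ext a
      constructor
      · rintro ⟨s, hs, h⟩
        obtain ⟨q, g, h1, rfl⟩ := (he _ _).1 h
        exact ⟨g, q, hs, h1.symm⟩
      · rintro ⟨g, q, hq, h⟩
        exact ⟨_, hq, (he _ (.inl a)).2 ⟨q, g, h.symm, rfl⟩⟩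
    · convert hU using 1
      ext s
      constructor
      · rintro ⟨t, ht, h⟩
        obtain rfl : t = s := (he _ _).1 h
        exact ht
      · exact fun hs => ⟨s, hs, rfl⟩
  refine ⟨Quotient r, inferInstance, fun a => Quotient.mk r (.inl a),
    fun s => Quotient.mk r (.inr s), ?_, fun a b => he _ _,
    .of_continuous_injective_isOpenMap (continuous_quot_mk.comp continuous_inr)
      (fun s t h => (he _ _).1 h) oN, fun s => ⟨?_, ?_⟩, ?_,
    fun q => (he _ _).2 ⟨q, 1, one_smul _ _, rfl⟩⟩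
  · refine isLocalHomeomorph_iff_isOpenEmbedding_restrict.2 fun y => ?_
    obtain ⟨U, hU, h⟩ := hloc y
    refine ⟨interior U, interior_mem_nhds.2 hU, .of_continuous_injective_isOpenMap
      (cp.comp continuous_subtype_val) (fun a b hab => Subtype.ext ?_)
      (op.comp isOpen_interior.isOpenMap_subtype_val)⟩
    obtain ⟨g, hg⟩ := (he _ _).1 hab
    rw [← hg, h _ (interior_subset a.2) g (hg ▸ interior_subset b.2)]
  · rintro ⟨a, h⟩
    obtain ⟨q, -, -, h2⟩ := (he _ _).1 h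
    exact ⟨q, h2⟩
  · rintro ⟨q, rfl⟩
    exact ⟨J q, (he _ _).2 ⟨q, 1, one_smul _ _, rfl⟩⟩
  · rintro ⟨a | s⟩
    · exact Or.inl ⟨a, rfl⟩
    · exact Or.inr ⟨s, rfl⟩

end Pool.Agent.Work.MP_3d425c_gt.Inst
end

-- merged part: Pool.Agent.Work.MP_3d425c_gt.PI10
section
/-! The filling along a peripheral element of degree one. -/

namespace Pool.Agent.Work.MP_3d425c_gt.Inst
open Classical PA Bor Topology Set

variable {V Γ : Type} [LinearOrder V] [Group Γ] [MulAction Γ V] {E : V → V → Prop}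
  [MulAction Γ (Disc E)]

theorem PI10_d1 {deg : Γ → ℤ} (hd : ∀ g h, deg (g * h) = deg g + deg h) : deg 1 = 0 := by
  have := hd 1 1
  rw [mul_one] at this
  omega

theorem PI10_dinv {deg : Γ → ℤ} (hd : ∀ g h, deg (g * h) = deg g + deg h) (g : Γ) :
    deg g⁻¹ = -deg g := by
  have := hd g⁻¹ g
  rw [inv_mul_cancel, PI10_d1 hd] at this
  omega

theorem PI10_dpow {deg : Γ → ℤ} (hd : ∀ g h, deg (g * h) = deg g + deg h) (g : Γ) (m : ℤ) :
    deg (g ^ m) = m * deg g := by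
  induction m using Int.induction_on with
  | zero => rw [zpow_zero, PI10_d1 hd, zero_mul]
  | succ m ih => rw [zpow_add_one, hd, ih]; ring
  | pred m ih => rw [zpow_sub_one, hd, ih, PI10_dinv hd]; ring

theorem PI10_lt (hE : IdealTri E)
    (vert : ∀ (g : Γ) (w : V) (x : Disc E), x.1 w = 1 → (g • x).1 (g • w) = 1) (g : Γ)
    {x : Disc E} (hx : ∀ w, x.1 w < 1) (w : V) : (g • x).1 w < 1 := by
  refine lt_of_le_of_ne (disc_nonneg hE (g • x).2 w).2 fun h => ?_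
  have := vert g⁻¹ w _ h
  rw [inv_smul_smul] at this
  exact (hx _).ne this

/-- The action on the cylinder. -/
@[reducible] def cylAct (hE : IdealTri E) (deg : Γ → ℤ)
    (hd : ∀ g h, deg (g * h) = deg g + deg h)
    (vert : ∀ (g : Γ) (w : V) (x : Disc E), x.1 w = 1 → (g • x).1 (g • w) = 1) :
    MulAction Γ (Cyl E) where
  smul g a := (⟨g • a.1.1, PI10_lt hE vert g a.1.2⟩, a.2 + deg g)
  one_smul a := Prod.ext (Subtype.ext (one_smul Γ a.1.1)) (by
    change a.2 + (deg 1 : ℝ) = a.2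
    rw [PI10_d1 hd]
    simp)
  mul_smul g h a := Prod.ext (Subtype.ext (mul_smul g h a.1.1)) (by
    change a.2 + (deg (g * h) : ℝ) = a.2 + deg h + deg g
    rw [hd]
    push_cast
    ring)

theorem PI10_bary {g : Γ} (hg : ∀ (x : Disc E) (v : V), (g • x).1 (g • v) = x.1 v) {x : Disc E}
    {p q r : V} {s t u : ℝ} (hx : x.1 = bary p q r s t u) :
    (g • x).1 = bary (g • p) (g • q) (g • r) s t u := by
  funext v
  rw [← smul_inv_smul g v, hg, hx]
  simp only [bary, Pi.add_apply, Pi.single_apply, smul_left_cancel_iff]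

theorem PI10_pol_w {w : V} {a : ℤ → V} (hF : Fan E w a) (θ r : ℝ) : pol w a θ r w = 1 - r :=
  (PB1_val (hF ⌊θ⌋).1 _ _ _).1

theorem PI10_pol_smul (w : V) (a : ℤ → V) (θ r s : ℝ) :
    pol w a θ (s * r) = (1 - s) • Pi.single w 1 + s • pol w a θ r := by
  unfold pol
  rw [PB1_smul, PB1_smul]
  module

theorem PI10_per {F : ℝ → ℝ} {c : ℝ} (h : ∀ u, F (u + 6) = F u + c) (u : ℝ) (m : ℤ) :
    F (u + 6 * m) = F u + c * m := by
  induction m using Int.induction_on generalizing u with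
  | zero => simp
  | succ m ih =>
    push_cast at ih ⊢
    rw [show u + 6 * ((m : ℝ) + 1) = u + 6 * m + 6 by ring, h, ih]
    ring
  | pred m ih =>
    push_cast at ih ⊢
    have := h (u + 6 * (-(m : ℝ) - 1))
    rw [show u + 6 * (-(m : ℝ) - 1) + 6 = u + 6 * -(m : ℝ) by ring, ih] at this
    linarith

variable [ContinuousConstSMul Γ (Disc E)]

/-- A radially linear map in polar coordinates. -/
theorem PI10_cone (hE : IdealTri E)
    (vert : ∀ (g : Γ) (w : V) (x : Disc E), x.1 w = 1 → (g • x).1 (g • w) = 1)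
    {w : V} {a : ℤ → V} (hF : Fan E w a)
    {κ : ℝ × Ioo (0 : ℝ) 1 → {x : Disc E // ∀ v, x.1 v < 1}} (hκ : IsOpenEmbedding κ)
    (hp : ∀ q, (κ q).1.1 = pol w a q.1 q.2) (hr : ∀ x, 0 < x.1.1 w → x ∈ range κ) {l μ : Γ}
    (hl : ∀ θ r, l • (κ (θ, r)).1 = (κ (θ + 6, r)).1) (hc : Commute l μ)
    (hcon : Con (fun x : Disc E => μ • x) w w) :
    ∃ (δ : ℝ) (f ρ : ℝ → ℝ), 0 < δ ∧ δ ≤ 1 / 2 ∧ Continuous f ∧ StrictMono f ∧
      (∀ θ, f (θ + 6) = f θ + 6) ∧ Continuous ρ ∧ (∀ θ, 0 < ρ θ) ∧ (∀ θ, ρ (θ + 6) = ρ θ) ∧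
      ∀ θ (r r' : Ioo (0 : ℝ) 1), r.1 ≤ δ → r'.1 = r.1 * ρ θ →
        μ • (κ (θ, r)).1 = (κ (f θ, r')).1 := by
  obtain ⟨δ0, C, h0, hC, hcon⟩ := hcon
  obtain ⟨δ, d0, d1, d2, d3⟩ : ∃ δ : ℝ, 0 < δ ∧ δ ≤ 1 / 2 ∧ δ ≤ δ0 ∧ C * δ < 1 := by
    refine ⟨min (min δ0 (1 / 2)) (1 / (2 * C)), by positivity,
      (min_le_left _ _).trans (min_le_right _ _), (min_le_left _ _).trans (min_le_left _ _), ?_⟩
    calc C * min (min δ0 (1 / 2)) (1 / (2 * C)) ≤ C * (1 / (2 * C)) :=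
          mul_le_mul_of_nonneg_left (min_le_right _ _) hC.le
      _ = 1 / 2 := by field_simp
      _ < 1 := by norm_num
  let r0 : Ioo (0 : ℝ) 1 := ⟨δ, d0, by linarith⟩
  have hw : ∀ θ, (κ (θ, r0)).1.1 w = 1 - δ := fun θ => by rw [hp, PI10_pol_w hF]
  let z : ℝ → {x : Disc E // ∀ v, x.1 v < 1} := fun θ =>
    ⟨μ • (κ (θ, r0)).1, PI10_lt hE vert μ (κ (θ, r0)).2⟩
  have hz : ∀ θ, z θ ∈ range κ := fun θ => hr _ (by
    have := (hcon (κ (θ, r0)).1 (by rw [hw]; linarith)).1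
    rw [hw] at this
    change 0 < (μ • (κ (θ, r0)).1).1 w
    linarith)
  choose F hF' using hz
  have cF : Continuous F := by
    rw [hκ.isEmbedding.continuous_iff, show κ ∘ F = z from funext hF']
    exact Continuous.subtype_mk ((continuous_subtype_val.comp
      (hκ.continuous.comp (by fun_prop))).const_smul μ) _
  have hρ : ∀ θ, 0 < ((F θ).2 : ℝ) / δ := fun θ => div_pos (F θ).2.2.1 d0
  have key : ∀ θ (r r' : Ioo (0 : ℝ) 1), r.1 ≤ δ → r'.1 = r.1 * (((F θ).2 : ℝ) / δ) →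
      μ • (κ (θ, r)).1 = (κ ((F θ).1, r')).1 := by
    intro θ r r' h1 h2
    have e1 : r.1 = r.1 / δ * δ := by field_simp
    have e2 : r'.1 = r.1 / δ * (F θ).2 := by rw [h2]; field_simp
    have h3 := (hcon (κ (θ, r0)).1 (by rw [hw]; linarith)).2 (r.1 / δ) (κ (θ, r)).1
      (div_nonneg r.2.1.le d0.le) ((div_le_one d0).2 h1) (by
        rw [hp, hp, ← PI10_pol_smul]
        exact congrArg _ e1)
    have h4 : (μ • (κ (θ, r0)).1).1 = pol w a (F θ).1 (F θ).2 := by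
      rw [← hp, hF']
    refine Subtype.ext (h3.trans ?_)
    rw [h4, ← PI10_pol_smul, hp, ← e2]
  have per : ∀ θ, F (θ + 6) = ((F θ).1 + 6, (F θ).2) := by
    intro θ
    refine hκ.injective (Subtype.ext ?_)
    rw [hF', ← hl, Prod.mk.eta, hF']
    change μ • (κ (θ + 6, r0)).1 = l • μ • (κ (θ, r0)).1
    rw [← hl, ← mul_smul, ← mul_smul, hc.eq]
  have inj : Function.Injective fun θ => (F θ).1 := by
    intro θ θ' h
    have h : (F θ).1 = (F θ').1 := h
    have a1 := (F θ).2.2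
    have a2 := (F θ').2.2
    have hs : 0 < ((F θ).2 : ℝ) + (F θ').2 := add_pos a1.1 a2.1
    have b1 : δ * ((F θ').2 / ((F θ).2 + (F θ').2)) ≤ δ :=
      mul_le_of_le_one_right d0.le ((div_le_one hs).2 (by linarith [a1.1]))
    have b2 : δ * ((F θ).2 / ((F θ).2 + (F θ').2)) ≤ δ :=
      mul_le_of_le_one_right d0.le ((div_le_one hs).2 (by linarith [a2.1]))
    have b3 : ((F θ).2 : ℝ) * ((F θ').2 / ((F θ).2 + (F θ').2)) ≤ (F θ).2 :=
      mul_le_of_le_one_right a1.1.le ((div_le_one hs).2 (by linarith [a1.1]))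
    let r' : Ioo (0 : ℝ) 1 := ⟨_, mul_pos a1.1 (div_pos a2.1 hs), b3.trans_lt a1.2⟩
    have k1 := key θ ⟨_, mul_pos d0 (div_pos a2.1 hs), by linarith⟩ r' b1 (by
      simp only [r']
      field_simp)
    have k2 := key θ' ⟨_, mul_pos d0 (div_pos a1.1 hs), by linarith⟩ r' b2 (by
      simp only [r']
      field_simp)
    rw [h, ← k2] at k1
    exact congrArg Prod.fst (hκ.injective (Subtype.ext (MulAction.injective μ k1)))
  refine ⟨δ, fun θ => (F θ).1, fun θ => (F θ).2 / δ, d0, d1, cF.fst, ?_,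
    fun θ => by simp only [per], (continuous_subtype_val.comp cF.snd).div_const δ, hρ,
    fun θ => by simp only [per], key⟩
  refine (cF.fst.strictMono_of_inj inj).resolve_right fun h => ?_
  have h1 := h (show (0 : ℝ) < 0 + 6 by norm_num)
  simp only [per] at h1
  linarith

theorem exists_filling (hE : IdealTri E) (deg : Γ → ℤ) (hd : ∀ g h, deg (g * h) = deg g + deg h)
    (vert : ∀ (g : Γ) (w : V) (x : Disc E), x.1 w = 1 → (g • x).1 (g • w) = 1)
    (simpl : ∀ g : Γ, deg g = 0 → ∀ (x : Disc E) (v : V), (g • x).1 (g • v) = x.1 v)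
    (proper : ∀ x : Disc E, (∀ w, x.1 w < 1) → ∃ U ∈ nhds x, ∀ z ∈ U, ∀ g : Γ, deg g = 0 →
      g • z ∈ U → g = 1)
    {w : V} {a : ℤ → V} (hF : Fan E w a) {l μ : Γ} (hl0 : deg l = 0) (hlw : l • w = w)
    (hla : ∀ k, l • a k = a (k + 6))
    (hstab : ∀ g : Γ, deg g = 0 → g • w = w → ∃ m : ℤ, g = l ^ m) (hμ : deg μ = 1)
    (hc : Commute l μ) (hcon : Con (fun x : Disc E => μ • x) w w) (γ : V → Γ)
    (hγ : ∀ g, g ∈ range γ ↔ ∃ k, g = k * μ * k⁻¹) :
    ∃ (M : Type) (_ : TopologicalSpace M) (p : Cyl E → M) (N : Unit → ℂ × Circle → M),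
      Filling E deg γ p N := by
  let _ : MulAction Γ (Cyl E) := cylAct hE deg hd vert
  have s1 : ∀ (g : Γ) (c : Cyl E), (g • c).1.1 = g • c.1.1 := fun _ _ => rfl
  have s2 : ∀ (g : Γ) (c : Cyl E), (g • c).2 = c.2 + deg g := fun _ _ => rfl
  have mv : ∀ (g : Γ) (c c' : Cyl E), Moves E deg g c c' ↔ g • c = c' := fun g c c' =>
    ⟨fun h => Prod.ext (Subtype.ext h.1.symm) h.2.symm, fun h => h ▸ ⟨rfl, rfl⟩⟩
  have : ContinuousConstSMul Γ (Cyl E) := ⟨fun g =>
    (Continuous.subtype_mk ((continuous_subtype_val.comp continuous_fst).const_smul g) _).prodMk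
      (continuous_snd.add continuous_const)⟩
  have hloc : ∀ c : Cyl E, ∃ U ∈ nhds c, ∀ z ∈ U, ∀ g : Γ, g • z ∈ U → g = 1 := by
    intro c
    obtain ⟨U, hU, h⟩ := proper c.1.1 c.1.2
    refine ⟨{z | z.1.1 ∈ U ∧ z.2 ∈ Ioo (c.2 - 1 / 2) (c.2 + 1 / 2)}, Filter.inter_mem
      ((continuous_subtype_val.comp continuous_fst).continuousAt.preimage_mem_nhds hU)
      (continuous_snd.continuousAt.preimage_mem_nhds
        (Ioo_mem_nhds (by linarith) (by linarith))), fun z hz g hg => h _ hz.1 g ?_ hg.1⟩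
    have h1 := hz.2
    have h2 := hg.2
    rw [s2] at h2
    have h3 : (deg g : ℝ) < 1 := by linarith [h1.1, h2.2]
    have h4 : (-1 : ℝ) < deg g := by linarith [h1.2, h2.1]
    have h5 : deg g < 1 := by exact_mod_cast h3
    have h6 : -1 < deg g := by exact_mod_cast h4
    omega
  obtain ⟨κ, hκ, hp, hr⟩ := exists_polar hE hF
  have hl : ∀ θ r, l • (κ (θ, r)).1 = (κ (θ + 6, r)).1 := by
    intro θ r
    refine Subtype.ext ((PI10_bary (simpl l hl0) (hp (θ, r))).trans ?_)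
    rw [hp, pol, hlw, hla, hla, Int.floor_add_ofNat, Int.fract_add_ofNat, add_right_comm]
  obtain ⟨δ, f, ρ, d0, d1, cf, mf, pf, cρ, ρ0, pρ, key⟩ :=
    PI10_cone hE vert hF hκ hp hr hl hc hcon
  obtain ⟨Θ, R, hH, hR, e1, e2⟩ := exists_susp f ρ cf mf pf cρ ρ0 pρ d0
  let H : ℝ × ℝ × ℝ → (ℝ × Ioo (0 : ℝ) 1) × ℝ := fun q =>
    ((Θ q, ⟨R q, (hR q).1, by linarith [(hR q).2]⟩), q.2.2)
  let J : ℝ × ℝ × ℝ → Cyl E := Prod.map κ id ∘ H
  have cH : Continuous H :=
    (hH.continuous.fst.prodMk (hH.continuous.snd.fst.subtype_mk _)).prodMk continuous_snd.snd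
  have oH : IsOpenMap H := by
    intro U hU
    have hι : Continuous fun c : (ℝ × Ioo (0 : ℝ) 1) × ℝ => (c.1.1, c.1.2.1, c.2) := by fun_prop
    convert (hH.isOpenMap U hU).preimage hι using 1
    ext c
    constructor
    · rintro ⟨q, hq, rfl⟩
      exact ⟨q, hq, rfl⟩
    · rintro ⟨q, hq, e⟩
      simp only [Prod.mk.injEq] at e
      exact ⟨q, hq, Prod.ext (Prod.ext e.1 (Subtype.ext e.2.1)) e.2.2⟩
  have cJ : Continuous J := (hκ.continuous.prodMap continuous_id).comp cH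
  have oJ : IsOpenMap J := (hκ.isOpenMap.prodMap IsOpenMap.id).comp oH
  have iJ : Function.Injective J := by
    intro q q' h
    have h1 := hκ.injective (congrArg Prod.fst h)
    have h2 : Θ q = Θ q' := congrArg Prod.fst h1
    have h3 : R q = R q' := congrArg (fun c => c.2.1) h1
    have h4 : q.2.2 = q'.2.2 := congrArg (fun c : Cyl E => c.2) h
    exact hH.injective (Prod.ext h2 (Prod.ext h3 h4))
  have Jl : ∀ u x t, l • J (u, x, t) = J (u + 6, x, t) := by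
    intro u x t
    refine Prod.ext (Subtype.ext ((hl _ _).trans ?_)) (by rw [s2, hl0, Int.cast_zero, add_zero]; rfl)
    exact congrArg (fun c => (κ c).1)
      (Prod.ext (e1 u x t).1.symm (Subtype.ext (e1 u x t).2.symm))
  have Jl' : ∀ (m : ℤ) u x t, l ^ m • J (u, x, t) = J (u + 6 * m, x, t) := by
    intro m
    induction m using Int.induction_on with
    | zero => simp
    | succ m ih =>
      intro u x t
      rw [zpow_add_one, mul_smul, Jl, ih]
      congr 2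
      push_cast
      ring
    | pred m ih =>
      intro u x t
      rw [zpow_sub_one, mul_smul, show J (u, x, t) = J (u - 6 + 6, x, t) by rw [sub_add_cancel],
        ← Jl, inv_smul_smul, ih]
      congr 2
      push_cast
      ring
  have Jμ : ∀ u x t, -1 < t → t < 0 → μ • J (u, x, t) = J (u, x, t + 1) := by
    intro u x t h1 h2
    refine Prod.ext (Subtype.ext ?_) (by rw [s2, hμ]; exact congrArg _ Int.cast_one)
    refine (key _ _ (H (u, x, t + 1)).1.2 (hR _).2.le (e2 u x t h1 h2).2).trans ?_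
    exact congrArg (fun c => (κ c).1) (Prod.ext (e2 u x t h1 h2).1.symm rfl)
  have Jw : ∀ q, 1 / 2 < (J q).1.1.1 w := by
    intro q
    have : (J q).1.1.1 w = 1 - R q := by
      rw [← PI10_pol_w hF (Θ q)]
      exact congrFun (hp _) w
    linarith [(hR q).2]
  have c0 : ∀ (g : Γ) q q', deg g = 0 → g • J q = J q' → cov q = cov q' := by
    rintro g ⟨u, x, t⟩ q' hg h
    have h1 : g • w = w := by
      by_contra hne
      have a1 := Jw q'
      have a2 := Jw (u, x, t)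
      rw [← simpl g hg, ← s1, h] at a2
      obtain ⟨b, c, -, -, -, k, ho⟩ := exists_tri hE (J q').1.1.2 (w := w) (by linarith)
      obtain ⟨-, i2, i3, i4, -⟩ := eq_bary hE (J q').1.1.2 k ho
      rcases ho (g • w) (by linarith) with e | e | e
      · exact hne e
      · rw [e] at a2
        linarith
      · rw [e] at a2
        linarith
    obtain ⟨m, rfl⟩ := hstab g hg h1
    rw [Jl'] at h
    exact cov_eq_iff.2 ⟨m, 0, by rw [← iJ h], by rw [← iJ h], by rw [← iJ h]; simp⟩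
  have c1 : ∀ (g : Γ) q q', q'.2.2 < 1 → -1 < q.2.2 → deg g = 1 → g • J q = J q' →
      cov q = cov q' := by
    rintro g ⟨u, x, t⟩ q' h1 h2 hg h
    have h3 : t + (deg g : ℝ) = q'.2.2 := congrArg Prod.snd h
    rw [hg, Int.cast_one] at h3
    have h4 : (g * μ⁻¹) • J (u, x, t + 1) = J q' := by
      rw [← Jμ u x t h2 (by linarith), mul_smul, inv_smul_smul, h]
    rw [← c0 _ _ _ (by rw [hd, PI10_dinv hd]; omega) h4]
    exact cov_eq_iff.2 ⟨0, 1, by simp, rfl, by simp⟩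
  let Ω := {q : ℝ × ℝ × ℝ // -1 < q.2.2 ∧ q.2.2 < 1}
  have oΩ : IsOpenMap (Subtype.val : Ω → ℝ × ℝ × ℝ) :=
    ((isOpen_lt continuous_const continuous_snd.snd).inter
      (isOpen_lt continuous_snd.snd continuous_const)).isOpenMap_subtype_val
  have compat : ∀ q q' : Ω, (∃ g : Γ, g • J q = J q') ↔ cov q = cov q' := by
    rintro ⟨⟨u, x, t⟩, h1, h2⟩ ⟨⟨u', x', t'⟩, h3, h4⟩
    dsimp only at h1 h2 h3 h4 ⊢
    constructor
    · rintro ⟨g, h⟩
      have h5 : t + (deg g : ℝ) = t' := congrArg Prod.snd h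
      have h6 : deg g < 2 := by exact_mod_cast (show (deg g : ℝ) < 2 by linarith)
      have h7 : -2 < deg g := by exact_mod_cast (show (-2 : ℝ) < deg g by linarith)
      rcases (show deg g = 0 ∨ deg g = 1 ∨ deg g = -1 by omega) with e | e | e
      · exact c0 g _ _ e h
      · exact c1 g _ _ h4 h1 e h
      · exact (c1 g⁻¹ _ _ h2 h3 (by rw [PI10_dinv hd]; omega) (by rw [← h, inv_smul_smul])).symm
    · intro h
      obtain ⟨m, n, k1, k2, k3⟩ := cov_eq_iff.1 h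
      dsimp only at k1 k2 k3
      subst k1 k2 k3
      have h6 : n < 2 := by exact_mod_cast (show (n : ℝ) < 2 by linarith)
      have h7 : -2 < n := by exact_mod_cast (show (-2 : ℝ) < n by linarith)
      rcases (show n = 0 ∨ n = 1 ∨ n = -1 by omega) with rfl | rfl | rfl
      · exact ⟨l ^ m, by rw [Jl']; simp⟩
      · push_cast at h4 ⊢
        exact ⟨l ^ m * μ, by rw [mul_smul, Jμ _ _ _ h1 (by linarith), Jl']⟩
      · push_cast at h3 ⊢
        refine ⟨l ^ m * μ⁻¹, ?_⟩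
        rw [mul_smul, ← Jl', smul_left_cancel_iff, inv_smul_eq_iff, Jμ _ _ _ h3 (by linarith)]
        simp
  obtain ⟨M, _, p, N, q1, q2, q3, q4, q5, q6⟩ := exists_glue (Γ := Γ)
    (fun c => (hloc c).imp fun U hU => ⟨hU.1, fun z hz g hg => by rw [hU.2 z hz g hg, one_smul]⟩)
    (fun q : Ω => J q) (fun q : Ω => cov q) (cJ.comp continuous_subtype_val) (oJ.comp oΩ)
    (cov_continuous.comp continuous_subtype_val) (cov_isOpenMap.comp oΩ) compat
  have pg : ∀ (g : Γ) (c : Cyl E), p (g • c) = p c := fun g c => ((q2 _ _).2 ⟨g, rfl⟩).symm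
  have cl : Continuous fun t : ℝ => μ ^ ⌊t⌋ • J (0, 0, Int.fract t) := by
    refine continuous_iff_continuousAt.2 fun t0 => ?_
    have hc : Continuous fun t : ℝ => μ ^ ⌊t0⌋ • J (0, 0, t - ⌊t0⌋) :=
      (cJ.comp (show Continuous fun t : ℝ => ((0 : ℝ), (0 : ℝ), t - ⌊t0⌋) by fun_prop)).const_smul
        (μ ^ ⌊t0⌋)
    refine hc.continuousAt.congr ?_
    filter_upwards [Ioo_mem_nhds (show (⌊t0⌋ : ℝ) - 1 < t0 by linarith [Int.floor_le t0])
      (Int.lt_floor_add_one t0)] with t ht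
    by_cases h : (⌊t0⌋ : ℝ) ≤ t
    · have e : ⌊t⌋ = ⌊t0⌋ := Int.floor_eq_iff.2 ⟨h, ht.2⟩
      rw [Int.fract, e]
    · have e : ⌊t⌋ = ⌊t0⌋ - 1 := Int.floor_eq_iff.2 ⟨by push_cast; exact ht.1.le, by
        push_cast
        linarith⟩
      rw [Int.fract, e, zpow_sub_one, mul_smul, smul_left_cancel_iff, eq_inv_smul_iff,
        Jμ _ _ _ (by linarith [ht.1]) (by linarith)]
      congr 3
      push_cast
      ring
  let L : C(ℝ, Cyl E) := ⟨_, cl⟩
  have L1 : ∀ t, p (L t) = N (Circle.exp (2 * Real.pi * t), 1) := by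
    intro t
    refine (pg _ _).trans ((q6 ⟨(0, 0, Int.fract t), by linarith [Int.fract_nonneg t],
      Int.fract_lt_one t⟩).trans (congrArg N ?_))
    rw [← cov_mer]
    exact cov_eq_iff.2 ⟨0, ⌊t⌋, by simp, rfl, by simp⟩
  have L2 : L 1 = μ • L 0 := by simp [L]
  refine ⟨M, inferInstance, p, fun _ => N, q1, fun c c' => by simp only [mv, q2], fun _ => q3,
    fun _ _ _ _ _ => rfl, fun _ z s => ?_, fun m => (q5 m).imp id fun h => ⟨(), h⟩, fun g => ?_⟩
  · rw [q4, ← cov_surj z s]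
    exact ⟨fun ⟨q, h⟩ => ⟨q.1, q.2.1, q.2.2, h⟩, fun ⟨q, h1, h2, h⟩ => ⟨⟨q, h1, h2⟩, h⟩⟩
  · rw [hγ]
    constructor
    · rintro ⟨k, rfl⟩
      refine ⟨(), ⟨fun t => k • L t, L.continuous.const_smul k⟩, fun t => (pg _ _).trans (L1 t),
        (mv _ _ _).2 ?_⟩
      change (k * μ * k⁻¹) • k • L 0 = k • L 1
      rw [mul_smul, inv_smul_smul, mul_smul, L2]
    · rintro ⟨-, L', h1, h2⟩
      obtain ⟨k, hk⟩ := (q2 (L 0) (L' 0)).1 ((L1 0).trans (h1 0).symm)
      have h3 : (fun t => k • L t) = L' :=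
        (T2Space.isSeparatedMap p).eq_of_comp_eq q1.isLocallyInjective (L.continuous.const_smul k)
          L'.continuous (funext fun t => ((pg _ _).trans (L1 t)).trans (h1 t).symm) 0 hk
      have h4 : k • L 1 = L' 1 := congrFun h3 1
      rw [mv, ← h4, ← hk, L2] at h2
      obtain ⟨U, hU, h⟩ := hloc (L 0)
      have h5 := h _ (mem_of_mem_nhds hU) ((k * μ)⁻¹ * (g * k)) (by
        rw [mul_smul, mul_smul g, h2, ← mul_smul k, inv_smul_smul]
        exact mem_of_mem_nhds hU)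
      exact ⟨k, by rw [inv_mul_eq_one.1 h5, mul_inv_cancel_right]⟩

end Pool.Agent.Work.MP_3d425c_gt.Inst
end
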