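import Pool.Agent.Work.MP_3d425c_gt.AAGood

/-! The steps in terms of the eight regions around three consecutive crossings. -/

namespace Pool.Agent.Work.MP_3d425c_gt

variable {O : Type} [Group O]

/-- the meridian `x * y⁻¹` is an involution -/
def Iv (x y : O) : Prop := x * y⁻¹ * (x * y⁻¹) = 1

/-- the Dehn relation at a crossing -/
def Dn (a f b g : O) : Prop := a * f⁻¹ * (b * g⁻¹) = 1

theorem cj {r : O} (h : r = 1) (c : O) {x y : O} (e : x = y) : c * r * c⁻¹ * x = y := by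
  rw [h, e]; group

theorem cj' {r : O} (h : r = 1) (c : O) {x y : O} (e : x = y) : c * r⁻¹ * c⁻¹ * x = y := by
  rw [h, e]; group

theorem Dn.symm {a f b g : O} (d : Dn a f b g) : Dn b g a f :=
  (Eq.trans (by group) (cj d (b * g⁻¹) rfl))

theorem Iv.inv {x y : O} (ixy : Iv x y) : Iv x⁻¹ y⁻¹ :=
  (Eq.trans (by group) (cj' ixy (x⁻¹) rfl))

theorem Dn.inv {a f b g : O} (d : Dn a g b f) : Dn a⁻¹ f⁻¹ b⁻¹ g⁻¹ :=
  (Eq.trans (by group) (cj' d (a⁻¹) rfl))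

namespace Cone

variable {C : Cone O} {a f v q b g u p P h w x : O} {kA kB km : ℕ} {R : ℕ → ℕ → ℕ → Prop}

/-- `Good` for the regions `a f v q b g u p` met in turn around the three crossings -/
def T (C : Cone O) (a f v q b g u p : O) (kA kB km : ℕ) (R : ℕ → ℕ → ℕ → Prop) : Prop :=
  C.Good (a * v⁻¹) (u * b⁻¹) (u * v⁻¹) (a * f⁻¹ * u * p⁻¹) (u * p⁻¹ * a * q⁻¹ * b * u⁻¹)
    (v * q⁻¹ * b * g⁻¹) kA kB km R

theorem dv {s t : O} (hs : s ∈ C.E) (ht : t ∈ C.E) : s * t⁻¹ ∈ C.E :=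
  C.E.mul_mem hs (C.E.inv_mem ht)

theorem T.rot (H : C.rev.T a f v q b g u p kA kB km R) (hu : u ∈ C.E) (hv : v ∈ C.E)
    (iaf : Iv a f) (ivq : Iv v q) (ibq : Iv b q) (ibg : Iv b g) (iup : Iv u p) (iap : Iv a p) :
    C.T b g u p a f v q kB kA km (fun i j k => R k j i) :=
  (Good.rot H (dv hu hv)).of_eq
    (by group)
    (by group)
    (by group)
    (Eq.trans (by group) (cj' ivq (g * b⁻¹) (cj' ibg 1 rfl)))
    (Eq.trans (by group) (cj' iap (v * b⁻¹ * q * a⁻¹) (cj' ibq (v * b⁻¹) rfl)))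
    (Eq.trans (by group) (cj' iaf (p * u⁻¹) (cj' iup 1 rfl)))

theorem T.noneR (H : C.T a f v q b g u p kA kB km R)
    (d : Dn v q b g) (ivg : Iv v g) :
    C.T a f v g v g u p kA km km (fun i j k => k = 0 ∧ R i j 0) :=
  (Good.noneR (Good.of_eq H rfl rfl rfl rfl rfl (Eq.trans (by group) (cj d 1 rfl)))).of_eq
    (by group)
    (by group)
    (by group)
    (by group)
    (Eq.trans (by group) (cj' ivg (u * p⁻¹ * a * q⁻¹ * b * v⁻¹) (cj d (u * p⁻¹ * a * q⁻¹ * b * g⁻¹) rfl)))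
    (Eq.trans (by group) (cj' ivg 1 rfl))

theorem T.noneL (H : C.T a f v q b g u p kA kB km R)
    (d : Dn a f u p) (iuf : Iv u f) :
    C.T u f v q b g u f km kB km (fun i j k => i = 0 ∧ R 0 j k) :=
  (Good.noneL (Good.of_eq H rfl rfl rfl (Eq.trans (by group) (cj d 1 rfl)) rfl rfl)).of_eq
    (by group)
    (by group)
    (by group)
    (Eq.trans (by group) (cj' iuf 1 rfl))
    (Eq.trans (by group) (cj d (u * p⁻¹) (cj' iuf 1 rfl)))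
    (by group)

theorem T.base (hu : u ∈ C.E) (hv : v ∈ C.E)
    (ivq : Iv v q) :
    C.T v f v q u g u q 0 0 1 (fun _ j _ => j ≤ 2) :=
  (Good.base (dl := v * f⁻¹ * u * q⁻¹) (dr := v * q⁻¹ * u * g⁻¹) (dv hu hv)).of_eq
    (by group)
    (by group)
    (by group)
    (by group)
    (Eq.trans (by group) (cj' ivq (u * v⁻¹) rfl))
    (by group)

theorem T.kinkB (H : C.T a f v g v g u p kA km km R) (hu : u ∈ C.E) (hv : v ∈ C.E)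
    (ivx : Iv v x) (ivg : Iv v g) :
    C.T a f v x v g u p kA km km (fun i j k => R i (j + k) 0) :=
  Good.kinkB (dv hu hv) (Good.of_eq H rfl rfl rfl rfl
    (Eq.trans (by group) (cj' ivx (u * p⁻¹ * a * v⁻¹) rfl))
    (Eq.trans (by group) (cj ivg 1 rfl)))

theorem T.kinkW (H : C.T a f v g v g u p kA km km R) (hu : u ∈ C.E) (hv : v ∈ C.E)
    (hP : P ∈ C.E)
    (iPg : Iv P g) (ivg : Iv v g) :
    C.T a f v g P g u p kA (km + 1) km (fun i j k => R i (j + k) 0 ∧ k ≤ 2) :=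
  Good.kinkW (r := u * P⁻¹ * v * u⁻¹) (dv hu hv) (dv hu hP) (by group)
    (Eq.trans (by group) (cj' iPg (u * P⁻¹ * v * P⁻¹) rfl))
    (Good.of_eq H rfl rfl rfl rfl
    (by group)
    (Eq.trans (by group) (cj ivg 1 rfl)))

theorem T.stepIn (H : C.T a f v h w g u p kA kB km R) (ha : a ∈ C.E) (hu : u ∈ C.E)
    (hv : v ∈ C.E) (hw : w ∈ C.E)
    (d1 : Dn v h P f) (d2 : Dn u x w g) (iaf : Iv a f) (iPf : Iv P f) (iPh : Iv P h)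
    (iwh : Iv w h) (iwx : Iv w x) (iup : Iv u p) (iap : Iv a p) (iwg : Iv w g) (iug : Iv u g) :
    C.T a f P h w x u p (kA + kB + 1) kB (km + kB + 1)
      (fun i j k => R i j (k + (i + j)) ∧ i + j ≤ 2) :=
  Good.stepIn H (dv ha hv) (dv hu hv) (dv hu hw)
    (Eq.trans (by group) (cj' iwh (a * P⁻¹ * v * h⁻¹ * w * g⁻¹ * w * u⁻¹ * g * w⁻¹) (cj' iap (a * P⁻¹ * v * h⁻¹ * w * g⁻¹ * w * u⁻¹ * g * a⁻¹) (cj iwg (a * P⁻¹ * v * h⁻¹) (cj' iug (a * P⁻¹ * v * h⁻¹) (cj d1 (a * P⁻¹) (cj' iPf (a * P⁻¹) rfl)))))))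
    (Eq.trans (by group) (cj' iwh (u * P⁻¹ * v * h⁻¹ * w * g⁻¹ * w * u⁻¹ * g * w⁻¹) (cj' iap (u * P⁻¹ * v * h⁻¹ * w * g⁻¹ * w * u⁻¹ * g * a⁻¹) (cj iwg (u * P⁻¹ * v * h⁻¹) (cj' iug (u * P⁻¹ * v * h⁻¹) (cj d1 (u * P⁻¹) (cj' iPf (u * P⁻¹) rfl)))))))
    (Eq.trans (by group) (cj' iup (v * h⁻¹ * w * g⁻¹ * u * w⁻¹ * x * w⁻¹ * h * P⁻¹ * h * a⁻¹) (cj' iPh (v * h⁻¹ * w * g⁻¹ * u * w⁻¹ * x * w⁻¹) (cj' iaf (v * h⁻¹ * w * g⁻¹ * u * w⁻¹ * x * w⁻¹ * P * a⁻¹) (cj' iwx (v * h⁻¹ * w * g⁻¹ * u * w⁻¹) (cj d2 (v * h⁻¹ * w * g⁻¹) (cj d1 1 rfl)))))))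
    (Eq.trans (by group) (cj' iwh (v * h⁻¹ * w * g⁻¹ * x * w⁻¹) (cj' iap (v * h⁻¹ * w * g⁻¹ * x * a⁻¹) (cj iwg (v * h⁻¹) (cj' d2 (v * h⁻¹) (cj d1 1 (cj' iPf 1 rfl)))))))

theorem T.stepSw (H : C.T u⁻¹ f⁻¹ v⁻¹ h⁻¹ w⁻¹ g⁻¹ u⁻¹ f⁻¹ km kB km R) (hu : u ∈ C.E)
    (hv : v ∈ C.E) (hw : w ∈ C.E) (hP : P ∈ C.E)
    (d : Dn P x w h) (iuf : Iv u f) (ivh : Iv v h) (iwg : Iv w g) (iwx : Iv w x) :
    C.T v f u g w x P h km (km + 1) (km + kB + 1) (fun i j k => R 0 (i + j + k) j ∧ j + k ≤ 2) :=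
  Good.stepSw (be := w * u⁻¹) (z := f * u⁻¹ * h * w⁻¹) (dr := u * v⁻¹ * h * w⁻¹ * g * u⁻¹)
    ((Good.conj H (C.E.inv_mem hu)).of_eq
    (by group)
    (by group)
    (by group)
    (Eq.trans (by group) (cj' iuf 1 rfl))
    (by group)
    (by group))
    (dv hv hu) (dv hw hu) (dv hP hu)
    (Eq.trans (by group) (cj' d (f * u⁻¹) (cj' iuf 1 rfl)))
    (Eq.trans (by group) (cj' iwg (u * v⁻¹ * h * w⁻¹) (cj' ivh (u * v⁻¹) rfl)))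
    (Eq.trans (by group) (cj' iwx (P * w⁻¹) (cj d 1 rfl)))
    (by group)

theorem T.stepSw' (H : C.T u⁻¹ f⁻¹ v⁻¹ h⁻¹ u⁻¹ g⁻¹ u⁻¹ f⁻¹ km 0 km R) (hu : u ∈ C.E)
    (hv : v ∈ C.E) (hP : P ∈ C.E)
    (d : Dn u g u x) (iuf : Iv u f) (ivh : Iv v h) (iPh : Iv P h) :
    C.T v f u h P x P h km 0 (km + 0 + 1) (fun i j k => R 0 (i + j) (j + k) ∧ j ≤ 2) :=
  (Good.stepSw' (m' := P * u⁻¹) (dl' := v * f⁻¹ * P * h⁻¹) (z' := P * h⁻¹ * v * h⁻¹ * P * P⁻¹)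
    (dr' := u * h⁻¹ * P * x⁻¹) (z := f * u⁻¹ * h * u⁻¹) (dr := u * v⁻¹ * h * u⁻¹ * g * u⁻¹)
    ((Good.conj H (C.E.inv_mem hu)).of_eq
    (by group)
    (by group)
    (by group)
    (Eq.trans (by group) (cj' iuf 1 rfl))
    (by group)
    (by group))
    (dv hv hu) (dv hP hu)
    (Eq.trans (by group) (cj' ivh (f * u⁻¹ * h * P⁻¹) (cj' iPh (f * u⁻¹) (cj' iuf 1 rfl))))
    rfl
    (Eq.trans (by group) (cj' d (u * v⁻¹ * h * u⁻¹ * g * u⁻¹) (cj' iPh (u * v⁻¹) (cj' ivh (u * v⁻¹) rfl))))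
    (Eq.trans (by group) (cj' ivh 1 rfl))).of_eq
    rfl (by group) rfl rfl rfl rfl

end Cone

end Pool.Agent.Work.MP_3d425c_gt
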