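import Pool.Agent.Work.MP_3d425c_gt.AAInv
import Pool.Agent.Work.MP_3d425c_gt.AAStep

/-! The order-theoretic invariant of the built diagrams: local steps. -/

namespace Pool.Agent.Work.MP_3d425c_gt

/-- all relations at a crossing hold -/
def Ex {O : Type} [Group O] (W B : ℕ → O) (c : ℕ × ℕ × ℕ × ℕ) : Prop :=
  Dn (W c.1) (B c.2.1) (W c.2.2.1) (B c.2.2.2) ∧ Iv (W c.1) (B c.2.1) ∧
    Iv (W c.2.2.1) (B c.2.1) ∧ Iv (W c.2.2.1) (B c.2.2.2) ∧ Iv (W c.1) (B c.2.2.2)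

theorem Ex.inv {O : Type} [Group O] {W B : ℕ → O} {c : ℕ × ℕ × ℕ × ℕ}
    (h : Ex W B (c.1, c.2.2.2, c.2.2.1, c.2.1)) : Ex (fun i => (W i)⁻¹) (fun i => (B i)⁻¹) c :=
  ⟨h.1.inv, h.2.2.2.2.inv, h.2.2.2.1.inv, h.2.2.1.inv, h.2.1.inv⟩

/-- the eight outer strands -/
structure Hon {O : Type} [Group O] (a f v q b g u p : O) : Prop where
  af : Iv a f
  vf : Iv v f
  vq : Iv v q
  bq : Iv b q
  bg : Iv b g
  ug : Iv u g
  up : Iv u p
  ap : Iv a p

namespace Diag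

def Z (d : Diag) (w : ℕ) : ℤ := ∑ i ∈ Finset.range d.nw, d.z w i

def Rl (d : Diag) (a b : ℕ) (i j k : ℕ) : Prop :=
  ∀ n, i * (d.z d.v n - d.z a n) + j * (d.z d.v n - d.z d.u n) + k * (d.z b n - d.z d.u n) ≤ 2

def S (d : Diag) (a p b q : ℕ) : Prop :=
  ∀ (O : Type) [Group O] (C : Cone O) (W B : ℕ → O), (∀ i, W i ∈ C.E) →
    (∀ c ∈ d.cr, Ex W B c ∨ c = (a, d.f, d.u, p) ∨ c = (d.u, p, a, d.f) ∨
      c = (d.v, q, b, d.g) ∨ c = (b, d.g, d.v, q)) →
    Hon (W a) (B d.f) (W d.v) (B q) (W b) (B d.g) (W d.u) (B p) →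
    ∃ kA kB km : ℕ, (kA : ℤ) = d.Z d.v - d.Z a ∧ (kB : ℤ) = d.Z b - d.Z d.u ∧
      (km : ℤ) = d.Z d.v - d.Z d.u ∧
      C.T (W a) (B d.f) (W d.v) (B q) (W b) (B d.g) (W d.u) (B p) kA kB km (d.Rl a b)

variable {d : Diag} {a p b q : ℕ}

theorem Z_rot (w : ℕ) : d.rot.Z w = -d.Z w := by
  simp only [Z, rot, Finset.sum_neg_distrib]

theorem S.rot (H : S d a p b q) : S d.rot b q a p := by
  intro O _ C W B hW hc hh
  obtain ⟨kA, kB, km, e1, e2, e3, t⟩ := H O C.rev W B hW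
    (fun c h => by have := hc c h; simp only [Diag.rot] at this; tauto)
    ⟨hh.bg, hh.ug, hh.up, hh.ap, hh.af, hh.vf, hh.vq, hh.bq⟩
  refine ⟨kB, kA, km, ?_, ?_, ?_,
    (Cone.T.rot t (hW _) (hW _) hh.bg hh.up hh.ap hh.af hh.vq hh.bq).mono fun i j k h n => ?_⟩
  · rw [Z_rot, Z_rot, e2]; simp only [Diag.rot]; ring
  · rw [Z_rot, Z_rot, e1]; simp only [Diag.rot]; ring
  · rw [Z_rot, Z_rot, e3]; simp only [Diag.rot]; ring
  · have := h n
    simp only [Diag.rot]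
    linarith

theorem S.noneR (w : Wf d) (hm : (d.v, q, b, d.g) ∈ d.cr ∨ (b, d.g, d.v, q) ∈ d.cr)
    (H : S d a p b q) : S d a p d.v d.g := by
  intro O _ C W B hW hc hh
  have triv : Ex W B (d.v, d.g, d.v, d.g) := ⟨hh.vq, hh.vq, hh.vq, hh.vq, hh.vq⟩
  have hc' : ∀ c ∈ d.cr, Ex W B c ∨ c = (a, d.f, d.u, p) ∨ c = (d.u, p, a, d.f) := fun c h => by
    rcases hc c h with h | h | h | rfl | rfl
    · exact Or.inl h
    · exact Or.inr (Or.inl h)
    · exact Or.inr (Or.inr h)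
    · exact Or.inl triv
    · exact Or.inl triv
  have uv := w.uv
  have fg := w.fg
  have ex : Ex W B (d.v, q, b, d.g) := by
    rcases hm with hm | hm
    · have := w.np _ hm
      refine (hc' _ hm).resolve_right ?_
      simp only [Prod.mk.injEq, and_true, true_and] at this ⊢
      omega
    · have := w.np _ hm
      have e : Ex W B (b, d.g, d.v, q) := by
        refine (hc' _ hm).resolve_right ?_
        simp only [Prod.mk.injEq, and_true, true_and] at this ⊢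
        omega
      exact ⟨e.1.symm, e.2.2.2.1, e.2.2.2.2, e.2.1, e.2.2.1⟩
  obtain ⟨kA, kB, km, e1, -, e3, t⟩ := H O C W B hW (fun c h => by have := hc' c h; tauto)
    ⟨hh.af, hh.vf, ex.2.1, ex.2.2.1, ex.2.2.2.1, hh.ug, hh.up, hh.ap⟩
  refine ⟨kA, km, km, e1, e3, e3, (t.noneR ex.1 hh.vq).mono fun i j k h n => ?_⟩
  have := h.2 n
  rw [h.1]
  push_cast at this ⊢
  linarith

theorem S.noneL (w : Wf d) (hm : (a, d.f, d.u, p) ∈ d.cr ∨ (d.u, p, a, d.f) ∈ d.cr)
    (H : S d a p b q) : S d d.u d.f b q := by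
  intro O _ C W B hW hc hh
  have triv : Ex W B (d.u, d.f, d.u, d.f) := ⟨hh.af, hh.af, hh.af, hh.af, hh.af⟩
  have hc' : ∀ c ∈ d.cr, Ex W B c ∨ c = (d.v, q, b, d.g) ∨ c = (b, d.g, d.v, q) := fun c h => by
    rcases hc c h with h | rfl | rfl | h | h
    · exact Or.inl h
    · exact Or.inl triv
    · exact Or.inl triv
    · exact Or.inr (Or.inl h)
    · exact Or.inr (Or.inr h)
  have uv := w.uv
  have fg := w.fg
  have ex : Ex W B (a, d.f, d.u, p) := by
    rcases hm with hm | hm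
    · have := w.np _ hm
      refine (hc' _ hm).resolve_right ?_
      simp only [Prod.mk.injEq, and_true, true_and] at this ⊢
      omega
    · have := w.np _ hm
      have e : Ex W B (d.u, p, a, d.f) := by
        refine (hc' _ hm).resolve_right ?_
        simp only [Prod.mk.injEq, and_true, true_and] at this ⊢
        omega
      exact ⟨e.1.symm, e.2.2.2.1, e.2.2.2.2, e.2.1, e.2.2.1⟩
  obtain ⟨kA, kB, km, -, e2, e3, t⟩ := H O C W B hW (fun c h => by have := hc' c h; tauto)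
    ⟨ex.2.1, hh.vf, hh.vq, hh.bq, hh.bg, hh.ug, ex.2.2.2.1, ex.2.2.2.2⟩
  refine ⟨km, kB, km, e3, e2, e3, (t.noneL ex.1 hh.af).mono fun i j k h n => ?_⟩
  have := h.2 n
  rw [h.1]
  push_cast at this ⊢
  linarith

theorem fresh_ne (y : ℕ → ℤ) {w : ℕ} (h : w < d.nw) (i : ℕ) : d.fresh y w i = d.z w i :=
  if_neg h.ne

theorem fresh_eq (y : ℕ → ℤ) (i : ℕ) :
    d.fresh y d.nw i = y i + if i = d.nw then 1 else 0 := if_pos rfl

theorem sum_ne (w : Wf d) (y : ℕ → ℤ) {a : ℕ} (h : a < d.nw) :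
    ∑ i ∈ Finset.range (d.nw + 1), d.fresh y a i = d.Z a := by
  rw [Finset.sum_range_succ]
  simp only [fresh_ne y h, w.zz a _ le_rfl, add_zero, Z]

theorem sum_eq {y : ℕ → ℤ} (hy : y d.nw = 0) :
    ∑ i ∈ Finset.range (d.nw + 1), d.fresh y d.nw i = ∑ i ∈ Finset.range d.nw, y i + 1 := by
  rw [Finset.sum_range_succ, fresh_eq, hy, if_pos rfl, zero_add]
  congr 1
  exact Finset.sum_congr rfl fun i hi => by
    rw [fresh_eq, if_neg (Finset.mem_range.mp hi).ne, add_zero]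

/-- adding crossings far from the dealternator changes nothing -/
theorem S.ext {cr : List (ℕ × ℕ × ℕ × ℕ)} {nw nb : ℕ} {z : ℕ → ℕ → ℤ} (w : Wf d)
    (hc : ∀ c ∈ d.cr, c ∈ cr) (hz : ∀ s, s < d.nw → ∀ i, z s i = d.z s i)
    (hZ : ∀ s, s < d.nw → ∑ i ∈ Finset.range nw, z s i = d.Z s) (ha : a < d.nw) (hb : b < d.nw)
    (H : S d a p b q) : S ⟨cr, d.u, d.f, d.v, d.g, nw, nb, z⟩ a p b q := by
  intro O _ C W B hW hc' hh
  obtain ⟨kA, kB, km, e1, e2, e3, t⟩ := H O C W B hW (fun c h => hc' c (hc c h)) hh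
  refine ⟨kA, kB, km, ?_, ?_, ?_, t.mono fun i j k h n => ?_⟩
  · rw [e1, ← hZ _ w.bv, ← hZ _ ha]; rfl
  · rw [e2, ← hZ _ w.bu, ← hZ _ hb]; rfl
  · rw [e3, ← hZ _ w.bv, ← hZ _ w.bu]; rfl
  · have := h n
    simp only [hz _ ha, hz _ hb, hz _ w.bu, hz _ w.bv]
    exact this

theorem S.kinkW (w : Wf d) (ha : a < d.nw) (H : S d a p d.v d.g) : S d.kinkW a p d.nw d.g := by
  intro O _ C W B hW hc hh
  obtain ⟨kA, kB, km, e1, e2, e3, t⟩ := H O C W B hW (fun c h => by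
      have b1 := w.bc c h
      rcases hc c (List.mem_cons_of_mem _ h) with h | h | h | rfl | rfl
      · exact Or.inl h
      · exact Or.inr (Or.inl h)
      · exact Or.inr (Or.inr (Or.inl h))
      · exact absurd b1.2.2.1 (lt_irrefl _)
      · exact absurd b1.1 (lt_irrefl _))
    ⟨hh.af, hh.vf, hh.vq, hh.vq, hh.vq, hh.ug, hh.up, hh.ap⟩
  obtain rfl : kB = km := by omega
  refine ⟨kA, kB + 1, kB, ?_, ?_, ?_,
    (t.kinkW (hW _) (hW _) (hW d.nw) hh.bq hh.vq).mono fun i j k h n => ?_⟩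
  · simp only [Z, Diag.kinkW, sum_ne w _ ha, sum_ne w _ w.bv]; exact e1
  · simp only [Z, Diag.kinkW, sum_ne w _ w.bu, sum_eq (w.zz _ _ le_rfl)] at e3 ⊢
    push_cast
    linarith
  · simp only [Z, Diag.kinkW, sum_ne w _ w.bu, sum_ne w _ w.bv]; exact e3
  · have h1 := h.1 n
    have h2 : (k : ℤ) ≤ 2 := by exact_mod_cast h.2
    simp only [Diag.kinkW, fresh_ne _ ha, fresh_ne _ w.bu, fresh_ne _ w.bv, fresh_eq]
    push_cast at h1
    split_ifs with e
    · simp only [e, w.zz _ _ le_rfl]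
      linarith
    · linarith

theorem S.kinkB (w : Wf d) (H : S d a p d.v d.g) : S d.kinkB a p d.v d.nb := by
  intro O _ C W B hW hc hh
  obtain ⟨kA, kB, km, e1, e2, e3, t⟩ := H O C W B hW (fun c h => by
      have b1 := w.bc c h
      rcases hc c (List.mem_cons_of_mem _ h) with h | h | h | rfl | rfl
      · exact Or.inl h
      · exact Or.inr (Or.inl h)
      · exact Or.inr (Or.inr (Or.inl h))
      · exact absurd b1.2.1 (lt_irrefl _)
      · exact absurd b1.2.2.2 (lt_irrefl _))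
    ⟨hh.af, hh.vf, hh.bg, hh.bg, hh.bg, hh.ug, hh.up, hh.ap⟩
  obtain rfl : kB = km := by omega
  refine ⟨kA, kB, kB, e1, e3, e3,
    (t.kinkB (hW _) (hW _) hh.vq hh.bg).mono fun i j k h n => ?_⟩
  have h1 := h n
  simp only [Diag.kinkB]
  push_cast at h1
  linarith

section Tongue

variable {x : ℕ × ℕ × ℕ × ℕ} {h s : ℕ}

theorem sum_y (d : Diag) (s : ℕ) :
    ∑ i ∈ Finset.range d.nw, (d.z d.v i + d.z s i - d.z d.u i) = d.Z d.v + d.Z s - d.Z d.u := by
  simp only [Z, Finset.sum_sub_distrib, Finset.sum_add_distrib]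

theorem Z_old (w : Wf d) {a : ℕ} (ha : a < d.nw) : (d.tongue x h s).Z a = d.Z a := sum_ne w _ ha

theorem Z_new (w : Wf d) : (d.tongue x h s).Z d.nw = d.Z d.v + d.Z s - d.Z d.u + 1 :=
  (sum_eq (by simp only [w.zz _ _ le_rfl]; rfl)).trans (by rw [sum_y])

theorem S.tongueIn (w : Wf d) (hx : x ∈ d.cr)
    (e : x = (d.v, h, s, d.g) ∨ x = (s, d.g, d.v, h)) (ha : a < d.nw) (H : S d a p s h) :
    S (d.tongue x h s) a p s h := by
  intro O _ C W B hW hc hh
  obtain ⟨b1, b2, b3⟩ := w.nb hx e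
  have := w.bu
  have := w.bv
  have := w.bf
  have := w.fg
  have := w.uv
  have x2 : Ex W B (d.v, h, d.nw, d.f) := by
    refine (hc _ (by simp [Diag.tongue])).resolve_right ?_
    simp only [Diag.tongue, Prod.mk.injEq]
    omega
  have x3 : Ex W B (d.u, d.nb, s, d.g) := by
    refine (hc _ (by simp [Diag.tongue])).resolve_right ?_
    simp only [Diag.tongue, Prod.mk.injEq]
    omega
  obtain ⟨kA, kB, km, e1, e2, e3, t⟩ := H O C W B hW (fun c hm => by
      have b1 := w.bc c hm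
      rcases mem_or_erase (x := x) hm with rfl | hm
      · tauto
      rcases hc c (by simp [Diag.tongue, hm]) with h | h | h | rfl | rfl
      · exact Or.inl h
      · exact Or.inr (Or.inl h)
      · exact Or.inr (Or.inr (Or.inl h))
      · exact absurd b1.1 (lt_irrefl _)
      · exact absurd b1.2.1 (lt_irrefl _))
    ⟨hh.af, x2.2.2.2.2, x2.2.1, hh.bq, x3.2.2.2.1, x3.2.2.2.2, hh.up, hh.ap⟩
  refine ⟨kA + kB + 1, kB, km + kB + 1, ?_, ?_, ?_,
    (t.stepIn (hW _) (hW _) (hW _) (hW _) x2.1 x3.1 hh.af hh.vf hh.vq hh.bq hh.bg hh.up hh.ap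
      x3.2.2.2.1 x3.2.2.2.2).mono fun i j k h n => ?_⟩
  · rw [Z_old w ha, show (d.tongue x h s).v = d.nw from rfl, Z_new w]; push_cast; linarith
  · rw [Z_old w b2, show (d.tongue x h s).u = d.u from rfl, Z_old w w.bu]; exact e2
  · rw [show (d.tongue x h s).u = d.u from rfl, show (d.tongue x h s).v = d.nw from rfl,
      Z_old w w.bu, Z_new w]; push_cast; linarith
  · have h1 := h.1 n
    have h2 : (i : ℤ) + j ≤ 2 := by exact_mod_cast h.2
    simp only [Diag.tongue, fresh_ne _ ha, fresh_ne _ w.bu, fresh_ne _ b2, fresh_eq]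
    push_cast at h1
    split_ifs with e
    · simp only [e, w.zz _ _ le_rfl]
      linarith
    · linarith

theorem Z_sw (a : ℕ) : (d.tongue x h s).flip.rot.Z a = -(d.tongue x h s).Z a := Z_rot a

theorem S.tongueSw (w : Wf d) (hx : x ∈ d.cr)
    (e : x = (d.v, h, s, d.g) ∨ x = (s, d.g, d.v, h)) (H : S d d.u d.f s h) :
    S (d.tongue x h s).flip.rot d.v h s d.g := by
  intro O _ C W B hW hc hh
  obtain ⟨b1, b2, b3⟩ := w.nb hx e
  have := w.bu
  have := w.bv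
  have x1 : Ex W B (d.nw, d.nb, s, h) := by
    refine (hc _ (by simp [Diag.tongue, Diag.flip, Diag.rot])).resolve_right ?_
    simp only [Diag.tongue, Diag.flip, Diag.rot, Prod.mk.injEq]
    omega
  obtain ⟨kA, kB, km, e1, e2, e3, t⟩ := H O C (fun i => (W i)⁻¹) (fun i => (B i)⁻¹)
    (fun i => C.E.inv_mem (hW i)) (fun c hm => by
      have b1 := w.bc c hm
      rcases mem_or_erase (x := x) hm with rfl | hm
      · tauto
      refine Or.inl (Ex.inv ((hc _ (mem_flip (d := d.tongue x h s)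
        (by simp [Diag.tongue, hm]))).resolve_right ?_))
      simp only [Diag.tongue, Diag.flip, Diag.rot, Prod.mk.injEq]
      omega)
    ⟨hh.vf.inv, hh.af.inv, hh.ap.inv, x1.2.2.2.1.inv, hh.bq.inv, hh.vq.inv, hh.vf.inv, hh.vf.inv⟩
  obtain rfl : kA = km := by omega
  have f1 : (d.tongue x h s).flip.rot.u = d.nw := rfl
  have f2 : (d.tongue x h s).flip.rot.v = d.u := rfl
  refine ⟨kA, kA + 1, kA + kB + 1, ?_, ?_, ?_,
    (t.stepSw (hW _) (hW _) (hW _) (hW d.nw) x1.1 hh.vf hh.ap hh.bq hh.bg).mono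
      fun i j k h n => ?_⟩
  · rw [f2, Z_sw, Z_sw, Z_old w w.bu, Z_old w w.bv]; linarith
  · rw [f1, Z_sw, Z_sw, Z_old w b2, Z_new w]; push_cast; linarith
  · rw [f1, f2, Z_sw, Z_sw, Z_old w w.bu, Z_new w]; push_cast; linarith
  · have h1 := h.1 n
    have h2 : (j : ℤ) + k ≤ 2 := by exact_mod_cast h.2
    simp only [Diag.tongue, Diag.flip, Diag.rot, fresh_ne _ w.bv, fresh_ne _ w.bu, fresh_ne _ b2,
      fresh_eq]
    push_cast at h1
    split_ifs with e
    · simp only [e, w.zz _ _ le_rfl]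
      linarith
    · linarith

theorem S.tongueSw' (w : Wf d) (hx : x ∈ d.cr)
    (e : x = (d.v, h, d.u, d.g) ∨ x = (d.u, d.g, d.v, h)) (H : S d d.u d.f d.u h) :
    S (d.tongue x h d.u).flip.rot d.v h d.nw h := by
  intro O _ C W B hW hc hh
  have := w.bu
  have := w.uv
  have x3 : Ex W B (d.u, d.g, d.u, d.nb) := by
    refine (hc _ (by simp [Diag.tongue, Diag.flip, Diag.rot])).resolve_right ?_
    simp only [Diag.tongue, Diag.flip, Diag.rot, Prod.mk.injEq]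
    omega
  obtain ⟨kA, kB, km, e1, e2, e3, t⟩ := H O C (fun i => (W i)⁻¹) (fun i => (B i)⁻¹)
    (fun i => C.E.inv_mem (hW i)) (fun c hm => by
      have b1 := w.bc c hm
      rcases mem_or_erase (x := x) hm with rfl | hm
      · tauto
      refine Or.inl (Ex.inv ((hc _ (mem_flip (d := d.tongue x h d.u)
        (by simp [Diag.tongue, hm]))).resolve_right ?_))
      simp only [Diag.tongue, Diag.flip, Diag.rot, Prod.mk.injEq]
      omega)
    ⟨hh.vf.inv, hh.af.inv, hh.ap.inv, hh.vq.inv, x3.2.1.inv, x3.2.1.inv, hh.vf.inv, hh.vf.inv⟩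
  obtain rfl : kA = km := by omega
  obtain rfl : kB = 0 := by omega
  have f1 : (d.tongue x h d.u).flip.rot.u = d.nw := rfl
  have f2 : (d.tongue x h d.u).flip.rot.v = d.u := rfl
  refine ⟨kA, 0, kA + 0 + 1, ?_, ?_, ?_,
    (t.stepSw' (hW _) (hW _) (hW d.nw) x3.1 hh.vf hh.ap hh.bq).mono fun i j k h n => ?_⟩
  · rw [f2, Z_sw, Z_sw, Z_old w w.bu, Z_old w w.bv]; linarith
  · rw [f1, sub_self]; rfl
  · rw [f1, f2, Z_sw, Z_sw, Z_old w w.bu, Z_new w]; push_cast; linarith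
  · have h1 := h.1 n
    have h2 : (j : ℤ) ≤ 2 := by exact_mod_cast h.2
    simp only [Diag.tongue, Diag.flip, Diag.rot, fresh_ne _ w.bv, fresh_ne _ w.bu, fresh_eq]
    push_cast at h1
    split_ifs with e
    · simp only [e, w.zz _ _ le_rfl]
      linarith
    · linarith

end Tongue

end Diag

end Pool.Agent.Work.MP_3d425c_gt
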