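import Mathlib.Algebra.Group.Subgroup.Lattice
import Mathlib.Algebra.Group.Conj
import Mathlib.Algebra.BigOperators.Group.List.Basic
import Mathlib.Tactic.Group
import Mathlib.Tactic.Ring
import Mathlib.Tactic.Linarith

/-! Cones in a subgroup, bundles of strands. -/

namespace Pool.Agent.Work.MP_3d425c_gt

/-- A cone inside a subgroup, invariant under conjugation by the subgroup. -/
structure Cone (O : Type) [Group O] where
  E : Subgroup O
  P : O → Prop
  one : P 1
  mul : ∀ {a b : O}, P a → P b → P (a * b)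
  ev : ∀ {a : O}, P a → a ∈ E
  cev : ∀ {a h : O}, P a → h ∈ E → P (h * a * h⁻¹)

namespace Cone

variable {O : Type} [Group O] (C : Cone O)

def le (a b : O) : Prop := a ∈ C.E ∧ C.P (a⁻¹ * b)

/-- strictly positive -/
def SP (x : O) : Prop := C.le 1 x ∧ ¬ C.le x 1

variable {C}

theorem le.l {a b : O} (h : C.le a b) : a ∈ C.E := h.1

theorem le.r {a b : O} (h : C.le a b) : b ∈ C.E := by
  simpa using C.E.mul_mem h.1 (C.ev h.2)

theorem refl {a : O} (h : a ∈ C.E) : C.le a a := ⟨h, by simpa using C.one⟩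

theorem refl1 : C.le 1 1 := refl C.E.one_mem

theorem le.trans {a b c : O} (h : C.le a b) (h' : C.le b c) : C.le a c :=
  ⟨h.1, by simpa [mul_assoc] using C.mul h.2 h'.2⟩

theorem le.of_eq {a b a' b' : O} (h : C.le a b) (ha : a = a') (hb : b = b') : C.le a' b' := by
  rw [← ha, ← hb]; exact h

theorem le.mul {a b c d : O} (h : C.le a b) (h' : C.le c d) : C.le (a * c) (b * d) := by
  refine ⟨C.E.mul_mem h.1 h'.1, ?_⟩
  have h1 := C.cev h.2 (h := c⁻¹) (C.E.inv_mem h'.1)
  have h2 := C.mul h1 h'.2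
  convert h2 using 1
  group

theorem le.pow {a b : O} (h : C.le a b) (k : ℕ) : C.le (a ^ k) (b ^ k) := by
  induction k with
  | zero => simpa using refl1
  | succ k ih => rw [pow_succ, pow_succ]; exact ih.mul h

theorem le.one_pow {a : O} (h : C.le 1 a) (k : ℕ) : C.le 1 (a ^ k) := by
  simpa using h.pow k

theorem le.one_mul {a b : O} (h : C.le 1 a) (h' : C.le 1 b) : C.le 1 (a * b) := by
  simpa using h.mul h'

theorem par_inv {a : O} (h : a ∈ C.E) : a⁻¹ ∈ C.E := C.E.inv_mem h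

theorem par_mul {a b : O} (h : a ∈ C.E) (h' : b ∈ C.E) : a * b ∈ C.E := C.E.mul_mem h h'

theorem par_pow {a : O} (h : a ∈ C.E) (k : ℕ) : a ^ k ∈ C.E := C.E.pow_mem h k

theorem le.conj {a b h : O} (H : C.le a b) (hh : h ∈ C.E) :
    C.le (h⁻¹ * a * h) (h⁻¹ * b * h) :=
  ((refl (par_inv hh)).mul H).mul (refl hh)

theorem le.conj1 {a h : O} (H : C.le 1 a) (hh : h ∈ C.E) : C.le 1 (h⁻¹ * a * h) :=
  (H.conj hh).of_eq (by group) rfl

theorem le.cancel {a b c d : O} (H : C.le (c * a * d) (c * b * d)) (hc : c ∈ C.E)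
    (hd : d ∈ C.E) : C.le a b :=
  (((refl (par_inv hc)).mul H).mul (refl (par_inv hd))).of_eq (by group) (by group)

theorem cpow (x h : O) (k : ℕ) : (h⁻¹ * x * h) ^ k = h⁻¹ * x ^ k * h := by
  have := conj_pow (a := h⁻¹) (b := x) (i := k)
  rwa [inv_inv] at this

/-- lower bounds can be transported along the path -/
theorem le.fwd {x g : O} {k : ℕ} (H : C.le (x ^ k) g) : C.le ((g⁻¹ * x * g) ^ k) g :=
  (H.conj H.r).of_eq (cpow _ _ _).symm (by group)

theorem le.bwd {x g : O} {k : ℕ} (H : C.le ((g⁻¹ * x * g) ^ k) g) : C.le (x ^ k) g := by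
  rw [cpow] at H
  exact (H.conj (par_inv H.r)).of_eq (by group) (by group)

theorem le.ufwd {x g : O} {k : ℕ} (H : C.le g (x ^ k)) : C.le g ((g⁻¹ * x * g) ^ k) :=
  (H.conj H.l).of_eq (by group) (cpow _ _ _).symm

theorem le.ubwd {x g : O} {k : ℕ} (H : C.le g ((g⁻¹ * x * g) ^ k)) : C.le g (x ^ k) := by
  rw [cpow] at H
  exact (H.conj (par_inv H.l)).of_eq (by group) (by group)

theorem le.left {a b : O} (ha : a ∈ C.E) (hb : C.le 1 b) : C.le a (a * b) :=
  ((refl ha).mul hb).of_eq (mul_one _) rfl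

theorem le.right {a b : O} (ha : C.le 1 a) (hb : b ∈ C.E) : C.le b (a * b) :=
  (ha.mul (refl hb)).of_eq (_root_.one_mul _) rfl

/-- cancel powers on both sides of an upper bound -/
theorem squeeze {x a g b : O} {i j k : ℕ} (hx : x ∈ C.E) (hg : g ∈ C.E)
    (ha : C.le (x ^ i) a) (hb : C.le (x ^ j) b) (H : C.le (a * g * b) (x ^ (i + k + j))) :
    C.le g (x ^ k) := by
  have h := ((ha.mul (refl hg)).mul hb).trans H
  rw [pow_add, pow_add] at h
  exact h.cancel (par_pow hx _) (par_pow hx _)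

theorem SP.conj {x h : O} (H : C.SP x) (hh : h ∈ C.E) : C.SP (h⁻¹ * x * h) :=
  ⟨H.1.conj1 hh, fun h1 => H.2 ((h1.conj (par_inv hh)).of_eq (by group) (by group))⟩

/-- the reversed cone -/
def rev (C : Cone O) : Cone O where
  E := C.E
  P a := C.P a⁻¹
  one := by simpa using C.one
  mul ha hb := by rw [mul_inv_rev]; exact C.mul hb ha
  ev ha := C.E.inv_mem_iff.mp (C.ev ha)
  cev {a h} ha hh := by
    have := C.cev ha hh
    convert this using 1
    group

theorem le.toRev {a b : O} (H : C.le a b) : C.rev.le a⁻¹ b⁻¹ := by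
  refine ⟨par_inv H.1, ?_⟩
  have := C.cev H.2 H.1
  show C.P _
  convert this using 1
  group

theorem ofRev {a b : O} (H : C.rev.le a b) : C.le a⁻¹ b⁻¹ := by
  refine ⟨par_inv H.1, ?_⟩
  have h1 : C.P (a⁻¹ * b)⁻¹ := H.2
  have := C.cev h1 H.r
  convert this using 1
  group

theorem SP.toRev {x : O} (H : C.SP x) : C.rev.SP x⁻¹ :=
  ⟨H.1.toRev.of_eq inv_one rfl, fun h => H.2 ((ofRev h).of_eq (inv_inv _) inv_one)⟩

theorem one_le_prod {l : List O} (h : ∀ x ∈ l, C.le 1 x) : C.le 1 l.prod := by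
  induction l with
  | nil => exact refl1
  | cons a l ih =>
    rw [List.prod_cons]
    exact (h a (by simp)).one_mul (ih fun x hx => h x (by simp [hx]))

theorem le_prod {l : List O} (h : ∀ x ∈ l, C.le 1 x) {x : O} (hx : x ∈ l) : C.le x l.prod := by
  induction l with
  | nil => simp at hx
  | cons a l ih =>
    rw [List.prod_cons]
    have h1 := one_le_prod (l := l) fun y hy => h y (by simp [hy])
    rcases List.mem_cons.mp hx with rfl | hx
    · exact le.left (h x (by simp)).r h1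
    · exact (ih (fun y hy => h y (by simp [hy])) hx).trans (le.right (h a (by simp)) h1.r)

/-- `d` is a product of `n` strictly positive letters `x`, each with `g ≤ x ^ (k + 1)`. -/
def Bun (C : Cone O) (d g : O) (k n : ℕ) : Prop :=
  ∃ l : List O, l.length = n ∧ l.prod = d ∧ ∀ x ∈ l, C.SP x ∧ C.le g (x ^ (k + 1))

theorem Bun.nil (g : O) (k : ℕ) : C.Bun 1 g k 0 := ⟨[], rfl, rfl, by simp⟩

theorem Bun.mul {d d' g : O} {k n n' : ℕ} (H : C.Bun d g k n) (H' : C.Bun d' g k n') :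
    C.Bun (d * d') g k (n + n') := by
  obtain ⟨l, h1, h2, h3⟩ := H
  obtain ⟨l', h1', h2', h3'⟩ := H'
  refine ⟨l ++ l', by simp [h1, h1'], by simp [h2, h2'], fun x hx => ?_⟩
  rcases List.mem_append.mp hx with hx | hx
  · exact h3 x hx
  · exact h3' x hx

theorem prod_conj (l : List O) (h : O) :
    (l.map fun x => h⁻¹ * x * h).prod = h⁻¹ * l.prod * h := by
  induction l with
  | nil => simp
  | cons a l ih => rw [List.map_cons, List.prod_cons, List.prod_cons, ih]; group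

/-- conjugate the letters and change the bound -/
theorem Bun.map {d g g' h : O} {k k' n : ℕ} (H : C.Bun d g k n) (hh : h ∈ C.E)
    (F : ∀ x, C.SP x → C.le x d → C.le g (x ^ (k + 1)) → C.le g' ((h⁻¹ * x * h) ^ (k' + 1))) :
    C.Bun (h⁻¹ * d * h) g' k' n := by
  obtain ⟨l, h1, rfl, h3⟩ := H
  refine ⟨l.map fun x => h⁻¹ * x * h, by simp [h1], prod_conj l h, fun y hy => ?_⟩
  obtain ⟨x, hx, rfl⟩ := List.mem_map.mp hy
  exact ⟨(h3 x hx).1.conj hh,
    F x (h3 x hx).1 (le_prod (fun y hy => (h3 y hy).1.1) hx) (h3 x hx).2⟩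

theorem Bun.mono {d g g' : O} {k k' n : ℕ} (H : C.Bun d g k n)
    (F : ∀ x, C.SP x → C.le x d → C.le g (x ^ (k + 1)) → C.le g' (x ^ (k' + 1))) :
    C.Bun d g' k' n := by
  obtain ⟨l, h1, rfl, h3⟩ := H
  exact ⟨l, h1, rfl, fun x hx => ⟨(h3 x hx).1,
    F x (h3 x hx).1 (le_prod (fun y hy => (h3 y hy).1.1) hx) (h3 x hx).2⟩⟩

theorem Bun.of_eq {d d' g g' : O} {k n : ℕ} (H : C.Bun d g k n) (h : d = d') (h' : g = g') :
    C.Bun d' g' k n := by rw [← h, ← h']; exact H

theorem Bun.conj {d g h : O} {k n : ℕ} (H : C.Bun d g k n) (hh : h ∈ C.E) :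
    C.Bun (h⁻¹ * d * h) (h⁻¹ * g * h) k n :=
  H.map hh fun _ _ _ h3 => (h3.conj hh).of_eq rfl (cpow _ _ _).symm

theorem Bun.fwd {d g : O} {k n : ℕ} (H : C.Bun d g k n) (hg : g ∈ C.E) :
    C.Bun (g⁻¹ * d * g) g k n := (H.conj hg).of_eq rfl (by group)

theorem Bun.toRev {d g : O} {k n : ℕ} (H : C.Bun d g k n) : C.rev.Bun d⁻¹ g⁻¹ k n := by
  obtain ⟨l, h1, rfl, h3⟩ := H
  refine ⟨(l.map fun x => x⁻¹).reverse, by simp [h1], (List.prod_inv_reverse l).symm,
    fun y hy => ?_⟩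
  obtain ⟨x, hx, rfl⟩ := List.mem_map.mp (List.mem_reverse.mp hy)
  exact ⟨(h3 x hx).1.toRev, (h3 x hx).2.toRev.of_eq rfl (inv_pow _ _).symm⟩

theorem Bun.zero {g : O} {k n : ℕ} (H : C.Bun 1 g k n) : n = 0 := by
  obtain ⟨l, rfl, h2, h3⟩ := H
  cases l with
  | nil => rfl
  | cons a l =>
    have := le_prod (fun y hy => (h3 y hy).1.1) (x := a) (by simp)
    rw [h2] at this
    exact absurd this (h3 a (by simp)).1.2

theorem Bun.two {d : O} {n : ℕ} (H : C.Bun d d 1 n) : n ≤ 2 := by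
  obtain ⟨l, rfl, h2, h3⟩ := H
  by_contra hn
  obtain ⟨a, l, rfl⟩ : ∃ a l', l = a :: l' := by
    cases l with
    | nil => simp at hn
    | cons a l => exact ⟨a, l, rfl⟩
  obtain ⟨b, l, rfl⟩ : ∃ b l', l = b :: l' := by
    cases l with
    | nil => simp at hn
    | cons a l => exact ⟨a, l, rfl⟩
  obtain ⟨l, c, rfl⟩ : ∃ l' c, l = l' ++ [c] := by
    rcases List.eq_nil_or_concat l with rfl | ⟨l', c, rfl⟩
    · simp at hn
    · exact ⟨l', c, by simp⟩
  have ha := h3 a (by simp)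
  have hb := h3 b (by simp)
  have hc := h3 c (by simp)
  have hl := one_le_prod (l := l) fun y hy => (h3 y (by simp [hy])).1.1
  have e : d = a * b * l.prod * c := by rw [← h2]; simp [mul_assoc]
  have k1 : C.le (b * c) a := by
    have h4 : C.le (a * (b * c) * 1) (a * a * 1) := by
      refine le.trans ?_ (ha.2.of_eq e (by simp [pow_succ]))
      exact (((le.left (par_mul ha.1.1.r hb.1.1.r) hl).mul (refl hc.1.1.r))).of_eq
        (by group) rfl
    exact h4.cancel ha.1.1.r C.E.one_mem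
  have k2 : C.le a c := by
    have h4 : C.le (1 * a * c) (1 * c * c) := by
      refine le.trans ?_ (hc.2.of_eq e (by simp [pow_succ]))
      exact ((le.left ha.1.1.r (hb.1.1.one_mul hl)).mul (refl hc.1.1.r)).of_eq
        (by group) (by group)
    exact h4.cancel C.E.one_mem hc.1.1.r
  have k3 : C.le (1 * b * c) (1 * 1 * c) := (k1.trans k2).of_eq (by group) (by group)
  exact hb.1.2 (k3.cancel C.E.one_mem hc.1.1.r)

end Cone

end Pool.Agent.Work.MP_3d425c_gt
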