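import Mathlib.GroupTheory.PresentedGroup
import Mathlib.Order.RelClasses

/-!
Wirtinger presentation of the fundamental group of a Dehn surgery on a closed positive braid.

A positive braid on `n` strands (positions `0, ..., n-1`, left to right, strands oriented
downwards) is a word `w : List ℕ`; the letter `i` is the positive crossing in which the strand at
position `i+1` passes over the strand at position `i`.
-/

namespace Pool.Agent.Work.MP_3d425c_gt

/-- A nontrivial group with a strict total order invariant under left multiplication. -/
def IsLeftOrderable (G : Type) [Group G] : Prop :=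
  Nontrivial G ∧
    ∃ r : G → G → Prop, IsStrictTotalOrder G r ∧ ∀ a b c : G, r a b ↔ r (c * a) (c * b)

/-- One positive crossing `i`.  The state is: the Wirtinger meridians of the strands at the
current level, the position of a point travelling down the braid, and the product of the meridians
of the over-strands it has passed under so far. -/
def cross {G : Type} [Group G] (s : (ℕ → G) × ℕ × G) (i : ℕ) : (ℕ → G) × ℕ × G :=
  (fun j => if j = i then s.1 (i + 1)
      else if j = i + 1 then (s.1 (i + 1))⁻¹ * s.1 i * s.1 (i + 1) else s.1 j,
    if s.2.1 = i then i + 1 else if s.2.1 = i + 1 then i else s.2.1,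
    if s.2.1 = i then s.2.2 * s.1 (i + 1) else s.2.2)

/-- The generators: meridians of the `n` strands at the top of the braid. -/
def gen (n j : ℕ) : FreeGroup (Fin n) :=
  if h : j < n then FreeGroup.of ⟨j, h⟩ else 1

/-- The state at the bottom of the braid word `w`, the travelling point starting at position 0. -/
def run (n : ℕ) (w : List ℕ) : (ℕ → FreeGroup (Fin n)) × ℕ × FreeGroup (Fin n) :=
  w.foldl cross (gen n, 0, 1)

/-- The Seifert (null-homologous) longitude: go `n` times down the braid, that is once around the
closed braid when it is a knot, and correct the blackboard framing by the writhe. -/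
def longitude (n : ℕ) (w : List ℕ) : FreeGroup (Fin n) :=
  (run n (List.replicate n w).flatten).2.2 * (gen n 0 ^ w.length)⁻¹

/-- Relators: closing up the braid, and the filling relation of slope `u / v`. -/
def surgeryRels (n : ℕ) (w : List ℕ) (u : ℤ) (v : ℕ) : Set (FreeGroup (Fin n)) :=
  {r | (∃ j, j < n ∧ r = (gen n j)⁻¹ * (run n w).1 j) ∨ r = gen n 0 ^ u * longitude n w ^ v}

/-- The fundamental group of `u / v` surgery on the closure of the positive braid `w`. -/
abbrev SurgeryGroup (n : ℕ) (w : List ℕ) (u : ℤ) (v : ℕ) : Type :=
  PresentedGroup (surgeryRels n w u v)

/-- `m` positive full twists on the `k` strands at positions `a, ..., a+k-1`. -/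
def twists (a k m : ℕ) : List ℕ :=
  (List.replicate (k * m) (List.range' a (k - 1))).flatten

/-- The `p` left strands pass under the `q` right strands. -/
def switch (p q : ℕ) : List ℕ :=
  ((List.range p).reverse.map fun i => List.range' i q).flatten

/-- The braid on `p + q` strands: `l` full twists on all strands, the switch of the two blocks,
`a` full twists on the block of `p` strands and `b` full twists on the block of `q` strands. -/
def pretzelBraid (p q l a b : ℕ) : List ℕ :=
  twists 0 (p + q) l ++ switch p q ++ twists q p a ++ twists 0 q b

end Pool.Agent.Work.MP_3d425c_gt
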