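import Mathlib.Algebra.BigOperators.Group.Finset.Basic
import Mathlib.Algebra.Ring.Int.Defs
import Pool.Agent.Work.MP_3d425c_gt.Defs

/-!
Almost-alternating diagrams of the unknot built by tongue and twirl moves, and the fundamental
groups of the Dehn surgeries on the knot `K` obtained by lifting the crossing arc of the
dealternator to the double branched cover.

The regions of a diagram are chessboard coloured; white and black regions are numbered separately.
A crossing `(a, f, b, g)` lists the four regions around it in clockwise order, `a, b` white and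
`f, g` black; its over-strand consists of the edge between `a` and `f` and the edge between `b`
and `g`.  At the dealternator `(u, f, v, g)` the over-strand is the other one.
-/

namespace Pool.Agent.Work.MP_3d425c_gt

/-- A diagram: the crossings `cr` other than the dealternator, the regions `u, f, v, g` around the
dealternator, the numbers of white and black regions, and the lattice vectors `z w` attached to
the white regions (they record the changemaker vector). -/
structure Diag where
  cr : List (ℕ × ℕ × ℕ × ℕ)
  u : ℕ
  f : ℕ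
  v : ℕ
  g : ℕ
  nw : ℕ
  nb : ℕ
  z : ℕ → ℕ → ℤ

namespace Diag

/-- The three-crossing diagram. -/
def base : Diag :=
  ⟨[(1, 0, 0, 2), (1, 2, 0, 1)], 0, 0, 1, 1, 2, 3, fun w i => if w = 1 ∧ i = 1 then 1 else 0⟩

/-- The same diagram, the dealternator being read from the opposite side. -/
def rot (d : Diag) : Diag :=
  ⟨d.cr, d.v, d.g, d.u, d.f, d.nw, d.nb, fun w i => -d.z w i⟩

/-- The diagram turned over. -/
def flip (d : Diag) : Diag :=
  ⟨d.cr.map fun c => (c.1, c.2.2.2, c.2.2.1, c.2.1), d.u, d.g, d.v, d.f, d.nw, d.nb, d.z⟩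

/-- The vectors after creating the white region `d.nw`: it gets `y` plus a new basis vector. -/
def fresh (d : Diag) (y : ℕ → ℤ) (w i : ℕ) : ℤ :=
  if w = d.nw then y i + (if i = d.nw then 1 else 0) else d.z w i

/-- A kink with a new white region on the strand between `v` and `g`. -/
def kinkW (d : Diag) : Diag :=
  ⟨(d.v, d.g, d.nw, d.g) :: d.cr, d.u, d.f, d.v, d.g, d.nw + 1, d.nb, d.fresh (d.z d.v)⟩

/-- A kink with a new black region on the strand between `v` and `g`. -/
def kinkB (d : Diag) : Diag :=
  ⟨(d.v, d.nb, d.v, d.g) :: d.cr, d.u, d.f, d.v, d.g, d.nw, d.nb + 1, d.z⟩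

/-- The tongue move at the crossing `x` next to the dealternator along the strand between `v` and
`g`, with further regions `h` (black) and `w` (white). -/
def tongue (d : Diag) (x : ℕ × ℕ × ℕ × ℕ) (h w : ℕ) : Diag :=
  ⟨(d.nw, h, w, d.nb) :: (d.v, h, d.nw, d.f) :: (d.u, d.nb, w, d.g) :: d.cr.erase x,
    d.u, d.f, d.nw, d.nb, d.nw + 1, d.nb + 1, d.fresh fun i => d.z d.v i + d.z w i - d.z d.u i⟩

/-- The diagrams obtained from `base` by the moves (a twirl is a kink followed by a tongue). -/
inductive Built : Diag → Prop
  | base : Built base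
  | rot {d : Diag} : Built d → Built d.rot
  | flip {d : Diag} : Built d → Built d.flip
  | kinkW {d : Diag} : Built d → Built d.kinkW
  | kinkB {d : Diag} : Built d → Built d.kinkB
  | tongue {d : Diag} {x : ℕ × ℕ × ℕ × ℕ} {h w : ℕ} : Built d → x ∈ d.cr →
      (x = (d.v, h, w, d.g) ∨ x = (w, d.g, d.v, h)) → Built (d.tongue x h w)

/-- The changemaker vector. -/
def sigma (d : Diag) (i : ℕ) : ℤ := d.z d.v i - d.z d.u i

/-- The slope `N` of the surgery on `K` which merges the regions `u` and `v`. -/
def slope (d : Diag) : ℤ := ∑ i ∈ Finset.range d.nw, d.sigma i ^ 2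

/-- Twice the genus of `K`. -/
def twoGenus (d : Diag) : ℤ := ∑ i ∈ Finset.range d.nw, d.sigma i * (d.sigma i - 1)

/-- The Dehn generator of a white region. -/
def white (a : ℕ) : FreeGroup (ℕ ⊕ ℕ) := FreeGroup.of (Sum.inl a)

/-- The meridian of a strand between the white region `a` and the black region `f`. -/
def mer (a f : ℕ) : FreeGroup (ℕ ⊕ ℕ) := white a * (FreeGroup.of (Sum.inr f))⁻¹

/-- The meridians of the four strands at each crossing, the dealternator included. -/
def arcs (d : Diag) : List (FreeGroup (ℕ ⊕ ℕ)) :=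
  ((d.u, d.f, d.v, d.g) :: d.cr).flatMap fun c =>
    [mer c.1 c.2.1, mer c.2.2.1 c.2.1, mer c.2.2.1 c.2.2.2, mer c.1 c.2.2.2]

/-- The meridian of `K`: killing it puts the dealternator back. -/
def mu (d : Diag) : FreeGroup (ℕ ⊕ ℕ) := mer d.v d.f * mer d.u d.g

/-- The Seifert longitude of `K`: killing `white u * (white v)⁻¹` is surgery of slope `N`. -/
def lam (d : Diag) : FreeGroup (ℕ ⊕ ℕ) := white d.u * (white d.v)⁻¹ * d.mu ^ (-d.slope)

/-- Dehn presentation of the orbifold group (cone angle `π` along the strands) of the complement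
of the dealternator, with the filling relation of slope `a / b`. -/
def rels (d : Diag) (a : ℤ) (b : ℕ) : Set (FreeGroup (ℕ ⊕ ℕ)) :=
  {r | r = white d.u ∨ (∃ c ∈ d.cr, r = mer c.1 c.2.1 * mer c.2.2.1 c.2.2.2) ∨
    (∃ s ∈ d.arcs, r = s * s) ∨ r = d.mu ^ a * d.lam ^ b}

/-- The fundamental group of the double branched cover, that is of `a / b` surgery on `K`: the
subgroup generated by the products of two meridians. -/
def Cover (d : Diag) (a : ℤ) (b : ℕ) : Subgroup (PresentedGroup (d.rels a b)) :=
  Subgroup.closure {y | ∃ s ∈ d.arcs, ∃ t ∈ d.arcs, y = PresentedGroup.mk _ (s * t)}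

end Diag

end Pool.Agent.Work.MP_3d425c_gt
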