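import Pool.Agent.Work.MP_3d425c_gt.AACone

/-! The inductive statement and its abstract steps. -/

namespace Pool.Agent.Work.MP_3d425c_gt

namespace Cone

variable {O : Type} [Group O] {C : Cone O}

/-- Three paths `al, be, m` with bundles `dl, dr, z`. -/
def Good (C : Cone O) (al be m dl z dr : O) (kA kB km : ℕ) (R : ℕ → ℕ → ℕ → Prop) : Prop :=
  C.le 1 dl → C.le 1 z → C.le 1 dr →
    (C.le (dl ^ kA) al ∧ C.le (dr ^ kB) be ∧ C.le (z ^ km) m) ∧
      ∀ a b c, C.Bun dl al kA a → C.Bun z m km b → C.Bun dr be kB c → R a b c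

variable {al be m dl z dr : O} {kA kB km : ℕ} {R : ℕ → ℕ → ℕ → Prop}

theorem Good.mono {R' : ℕ → ℕ → ℕ → Prop} (H : C.Good al be m dl z dr kA kB km R)
    (h : ∀ a b c, R a b c → R' a b c) : C.Good al be m dl z dr kA kB km R' :=
  fun h1 h2 h3 => ⟨(H h1 h2 h3).1, fun a b c ha hb hc => h a b c ((H h1 h2 h3).2 a b c ha hb hc)⟩

theorem Good.of_eq {al' be' m' dl' z' dr' : O} (H : C.Good al be m dl z dr kA kB km R)
    (h1 : al = al') (h2 : be = be') (h3 : m = m') (h4 : dl = dl') (h5 : z = z') (h6 : dr = dr') :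
    C.Good al' be' m' dl' z' dr' kA kB km R := by
  rw [← h1, ← h2, ← h3, ← h4, ← h5, ← h6]; exact H

theorem Good.conj {h : O} (H : C.Good al be m dl z dr kA kB km R) (hh : h ∈ C.E) :
    C.Good (h⁻¹ * al * h) (h⁻¹ * be * h) (h⁻¹ * m * h) (h⁻¹ * dl * h) (h⁻¹ * z * h)
      (h⁻¹ * dr * h) kA kB km R := by
  intro h1 h2 h3
  have hi := par_inv hh
  have u : ∀ {x : O}, C.le 1 (h⁻¹ * x * h) → C.le 1 x := fun hx =>
    (hx.conj1 hi).of_eq rfl (by group)
  obtain ⟨⟨o1, o2, o3⟩, i⟩ := H (u h1) (u h2) (u h3)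
  refine ⟨⟨(o1.conj hh).of_eq (cpow _ _ _).symm rfl, (o2.conj hh).of_eq (cpow _ _ _).symm rfl,
    (o3.conj hh).of_eq (cpow _ _ _).symm rfl⟩, fun a b c ha hb hc => i a b c ?_ ?_ ?_⟩
  · exact (ha.conj hi).of_eq (by group) (by group)
  · exact (hb.conj hi).of_eq (by group) (by group)
  · exact (hc.conj hi).of_eq (by group) (by group)

theorem Good.rot (H : C.rev.Good al be m dl z dr kA kB km R) (hm : m ∈ C.E) :
    C.Good be⁻¹ al⁻¹ m⁻¹ dr⁻¹ (m⁻¹ * z⁻¹ * m) dl⁻¹ kB kA km (fun a b c => R c b a) := by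
  intro h1 h2 h3
  have hz : C.le 1 z⁻¹ := (h2.conj1 (par_inv hm)).of_eq rfl (by group)
  obtain ⟨⟨o1, o2, o3⟩, i⟩ := H (h3.toRev.of_eq inv_one (inv_inv _))
    (hz.toRev.of_eq inv_one (inv_inv _)) (h1.toRev.of_eq inv_one (inv_inv _))
  refine ⟨⟨(ofRev o2).of_eq (inv_pow _ _).symm rfl, (ofRev o1).of_eq (inv_pow _ _).symm rfl, ?_⟩,
    fun a b c ha hb hc => i c b a ?_ ?_ ?_⟩
  · exact ((ofRev o3).conj hm).of_eq (by rw [cpow, inv_pow]) (by group)
  · exact hc.toRev.of_eq (inv_inv _) (inv_inv _)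
  · exact (hb.conj (par_inv hm)).toRev.of_eq (by group) (by group)
  · exact ha.toRev.of_eq (inv_inv _) (inv_inv _)

/-- forget an exact right neighbour -/
theorem Good.noneR (H : C.Good al be m dl z 1 kA kB km R) :
    C.Good al m m dl z 1 kA km km (fun a b c => c = 0 ∧ R a b 0) := by
  intro h1 h2 h3
  obtain ⟨⟨o1, -, o3⟩, i⟩ := H h1 h2 h3
  exact ⟨⟨o1, ((h2.one_pow km).trans o3).of_eq (_root_.one_pow _).symm rfl, o3⟩,
    fun a b c ha hb hc => ⟨hc.zero, i a b 0 ha hb (Bun.nil _ _)⟩⟩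

/-- forget an exact left neighbour -/
theorem Good.noneL (H : C.Good al be m 1 z dr kA kB km R) :
    C.Good m be m 1 z dr km kB km (fun a b c => a = 0 ∧ R 0 b c) := by
  intro h1 h2 h3
  obtain ⟨⟨-, o2, o3⟩, i⟩ := H h1 h2 h3
  exact ⟨⟨((h2.one_pow km).trans o3).of_eq (_root_.one_pow _).symm rfl, o2, o3⟩,
    fun a b c ha hb hc => ⟨ha.zero, i 0 b c (Bun.nil _ _) hb hc⟩⟩

theorem Good.base (hm : m ∈ C.E) :
    C.Good 1 1 m dl m dr 0 0 1 (fun _ b _ => b ≤ 2) := by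
  intro _ _ _
  exact ⟨⟨refl1.of_eq (pow_zero _).symm rfl, refl1.of_eq (pow_zero _).symm rfl,
    (refl hm).of_eq (pow_one _).symm rfl⟩, fun _ _ _ _ hb _ => hb.two⟩

theorem Good.kinkB (hm : m ∈ C.E)
    (H : C.Good al m m dl (z * (m * dr * m⁻¹)) 1 kA km km R) :
    C.Good al m m dl z dr kA km km (fun a b c => R a (b + c) 0) := by
  intro h1 h2 h3
  have hr : C.le 1 (m * dr * m⁻¹) := (h3.conj1 (par_inv hm)).of_eq rfl (by group)
  obtain ⟨⟨o1, -, o3⟩, i⟩ := H h1 (h2.one_mul hr) refl1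
  refine ⟨⟨o1, ?_, ((le.left h2.r hr).pow km).trans o3⟩, fun a b c ha hb hc =>
    i a (b + c) 0 ha (hb.mul ((hc.conj (par_inv hm)).of_eq (by group) (by group))) (Bun.nil _ _)⟩
  exact (((le.right h2 hr.r).pow km).trans o3).fwd.of_eq (by congr 1; group) rfl

theorem Good.kinkW {r : O} (hm : m ∈ C.E) (hb : be ∈ C.E) (e1 : be = r * m)
    (e2 : r = be * dr * be⁻¹) (H : C.Good al m m dl (z * r) 1 kA km km R) :
    C.Good al be m dl z dr kA (km + 1) km (fun a b c => R a (b + c) 0 ∧ c ≤ 2) := by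
  intro h1 h2 h3
  have hr : C.le 1 r := (h3.conj1 (par_inv hb)).of_eq rfl (by rw [e2]; group)
  obtain ⟨⟨o1, -, o3⟩, i⟩ := H h1 (h2.one_mul hr) refl1
  have o4 : C.le (r ^ km) m := ((le.right h2 hr.r).pow km).trans o3
  have e3 : be⁻¹ * r * be = dr := by rw [e2]; group
  refine ⟨⟨o1, ?_, ((le.left h2.r hr).pow km).trans o3⟩, fun a b c ha hb' hc => ?_⟩
  · have : C.le (r ^ (km + 1)) be := ((refl hr.r).mul o4).of_eq (pow_succ' _ _).symm e1.symm
    exact this.fwd.of_eq (by rw [e3]) rfl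
  · have hc' : C.Bun r be (km + 1) c :=
      (hc.conj (par_inv hb)).of_eq (by rw [e2]; group) (by group)
    refine ⟨i a (b + c) 0 ha (hb'.mul (hc'.mono fun x hx x1 x2 => ?_)) (Bun.nil _ _),
      Bun.two (hc'.mono fun x hx x1 x2 => ?_)⟩
    · refine squeeze (i := 1) (j := 0) (a := r) (b := 1) hx.1.r hm (x1.of_eq (pow_one _).symm rfl)
        (refl1.of_eq (pow_zero _).symm rfl) (x2.of_eq (by rw [e1, mul_one]) (by congr 1; ring))
    · refine squeeze (i := 0) (j := km) (a := 1) (b := m) hx.1.r hr.r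
        (refl1.of_eq (pow_zero _).symm rfl) ((x1.pow km).trans o4)
        (x2.of_eq (by rw [e1, _root_.one_mul]) (by congr 1; ring))

/-- a strand passing first along `g` and then along `Q * b0` -/
theorem pass {x g Q b0 : O} {k kB : ℕ} (hx : x ∈ C.E) (o : C.le (x ^ k) g)
    (h1 : C.le (g⁻¹ * x * g) Q) (h2 : C.le ((g * (Q * b0))⁻¹ * x * (g * (Q * b0))) dr)
    (h3 : C.le (dr ^ kB) b0) :
    C.le (x ^ (k + kB + 1)) (g * (Q * b0)) ∧
      (C.le (g * (Q * b0)) (x ^ (k + kB + 1 + 1)) →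
        C.le g (x ^ (k + 1)) ∧
        C.le b0 (((g * (Q * b0))⁻¹ * x * (g * (Q * b0))) ^ (kB + 1)) ∧
        C.le Q ((g⁻¹ * x * g) ^ (1 + 1))) := by
  have hg := o.r
  have hQ := h1.r
  have hb := h3.r
  have hc := par_mul hQ hb
  set x' := (g * (Q * b0))⁻¹ * x * (g * (Q * b0)) with hx'
  have hx'p : x' ∈ C.E := h2.l
  have a1 : C.le (x' ^ kB) b0 := (h2.pow kB).trans h3
  have a2 : C.le (x' ^ 1) (b0⁻¹ * Q * b0) :=
    (h1.conj hc).of_eq (by rw [hx']; group) (by group)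
  have a3 : C.le (x' ^ k) ((Q * b0)⁻¹ * g * (Q * b0)) :=
    (o.fwd.conj hc).of_eq (by rw [← cpow, hx']; congr 1; group) rfl
  have e : b0 * (b0⁻¹ * Q * b0) * ((Q * b0)⁻¹ * g * (Q * b0)) = g * (Q * b0) := by group
  have p2 := a2.r
  have p3 := a3.r
  constructor
  · apply le.bwd
    exact ((a1.mul a2).mul a3).of_eq (by rw [← pow_add, ← pow_add]; congr 1; ring) e
  · intro H
    have H' := H.ufwd
    rw [← hx'] at H'
    refine ⟨?_, ?_, ?_⟩
    · have b1 : C.le ((Q * b0)⁻¹ * g * (Q * b0)) (x' ^ (k + 1)) :=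
        squeeze (i := kB + 1) (j := 0) (b := 1) hx'p p3
          ((a1.mul a2).of_eq (pow_add _ _ _).symm rfl) (refl1.of_eq (pow_zero _).symm rfl)
          (H'.of_eq (by rw [mul_one, e]) (by congr 1; ring))
      apply le.ubwd
      exact (b1.conj (par_inv hc)).of_eq (by group) (by rw [← cpow, hx']; congr 1; group)
    · exact squeeze (i := 0) (j := 1 + k) (a := 1) hx'p hb (refl1.of_eq (pow_zero _).symm rfl)
        ((a2.mul a3).of_eq (pow_add _ _ _).symm rfl)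
        (H'.of_eq (by rw [← e]; group) (by congr 1; ring))
    · have b1 : C.le (b0⁻¹ * Q * b0) (x' ^ (1 + 1)) :=
        squeeze hx'p p2 a1 a3 (H'.of_eq e.symm (by congr 1; ring))
      apply le.ubwd
      exact (b1.conj (par_inv hb)).of_eq (by group) (by rw [← cpow, hx']; congr 1; group)

/-- a tongue move followed by a move of the same kind -/
theorem Good.stepIn {al' m' dr' : O} (H : C.Good al be m dl z dr kA kB km R)
    (ha : al ∈ C.E) (hm : m ∈ C.E) (hb : be ∈ C.E)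
    (e1 : al' = al * ((al⁻¹ * dl * al) * (m⁻¹ * z * m) * (dr * be * dr⁻¹)))
    (e2 : m' = m * ((al⁻¹ * dl * al) * (m⁻¹ * z * m) * (dr * be * dr⁻¹)))
    (e3 : dr = dl * z * (be * dr' * be⁻¹))
    (e4 : dr = (al'⁻¹ * dl * al') * (m'⁻¹ * z * m') * dr') :
    C.Good al' be m' dl z dr' (kA + kB + 1) kB (km + kB + 1)
      (fun a b c => R a b (c + (a + b)) ∧ a + b ≤ 2) := by
  intro h1 h2 h3
  have hr : C.le 1 dr := by
    rw [e3]
    exact (h1.one_mul h2).one_mul ((h3.conj1 (par_inv hb)).of_eq rfl (by group))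
  obtain ⟨⟨o1, o2, o3⟩, i⟩ := H h1 h2 hr
  set Q := (al⁻¹ * dl * al) * (m⁻¹ * z * m) with hQ
  have l1 := h1.conj1 ha
  have l2 := h2.conj1 hm
  have o2' : C.le (dr ^ kB) (dr * be * dr⁻¹) :=
    (o2.conj (par_inv hr.r)).of_eq (by group) (by group)
  have hc : Q * (dr * be * dr⁻¹) ∈ C.E := par_mul (par_mul l1.r l2.r) o2'.r
  have ha' : al' ∈ C.E := by rw [e1]; exact par_mul ha hc
  have hm' : m' ∈ C.E := by rw [e2]; exact par_mul hm hc
  have l1' := h1.conj1 ha'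
  have l2' := h2.conj1 hm'
  have pA : ∀ x, C.le x dl → C.le (x ^ kA) al → _ := fun x hx ox =>
    pass (Q := Q) (dr := dr) hx.l ox ((hx.conj ha).trans (le.left l1.r l2))
      (by
        rw [← e1]
        refine (hx.conj ha').trans ?_
        rw [e4, mul_assoc (al'⁻¹ * dl * al')]
        exact le.left l1'.r (l2'.one_mul h3)) o2'
  have pM : ∀ x, C.le x z → C.le (x ^ km) m → _ := fun x hx ox =>
    pass (Q := Q) (dr := dr) hx.l ox ((hx.conj hm).trans (le.right l1 l2.r))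
      (by
        rw [← e2]
        refine (hx.conj hm').trans ?_
        rw [e4]
        exact (le.right l1' l2'.r).trans (le.left (par_mul l1'.r l2'.r) h3)) o2'
  rw [← e1] at pA
  rw [← e2] at pM
  have d3 : C.le dr' dr := by rw [e4]; exact le.right (l1'.one_mul l2') h3.r
  refine ⟨⟨(pA dl (refl h1.r) o1).1, (d3.pow kB).trans o2, (pM z (refl h2.r) o3).1⟩,
    fun a b c ba bb bc => ⟨i a b _ ?_ ?_ ?_, Bun.two (C := C) (d := Q) ?_⟩⟩
  · exact ba.mono fun x _ x1 x2 => ((pA x x1 ((x1.pow kA).trans o1)).2 x2).1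
  · exact bb.mono fun x _ x1 x2 => ((pM x x1 ((x1.pow km).trans o3)).2 x2).1
  · have b1 := ba.map ha' fun x _ x1 x2 => ((pA x x1 ((x1.pow kA).trans o1)).2 x2).2.1
    have b2 := bb.map hm' fun x _ x1 x2 => ((pM x x1 ((x1.pow km).trans o3)).2 x2).2.1
    have b3 := ((b1.mul b2).conj hr.r).of_eq rfl (show _ = be by group)
    refine (bc.mul b3).of_eq ?_ rfl
    have e5 : (al'⁻¹ * dl * al') * (m'⁻¹ * z * m') = dr * dr'⁻¹ := by
      conv_rhs => rw [e4]
      group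
    rw [e5]
    group
  · exact (ba.map ha fun x _ x1 x2 => ((pA x x1 ((x1.pow kA).trans o1)).2 x2).2.2).mul
      (bb.map hm fun x _ x1 x2 => ((pM x x1 ((x1.pow km).trans o3)).2 x2).2.2)

/-- a tongue move followed by a move of the other kind -/
theorem Good.stepSw {be' m' dl' z' dr' : O} (H : C.Good m be m 1 z dr km kB km R)
    (hm : m ∈ C.E) (hb : be ∈ C.E) (hm' : m' ∈ C.E)
    (e1 : z = (m⁻¹ * dl' * m) * dr * dr') (e2 : dr = m'⁻¹ * z' * m')
    (e3 : be' = m * dr * dr') (e4 : m' = be' * be) :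
    C.Good m be' m' dl' z' dr' km (km + 1) (km + kB + 1)
      (fun a b c => R 0 (a + b + c) b ∧ b + c ≤ 2) := by
  intro h1 h2 h3
  have l1 := h1.conj1 hm
  have hr : C.le 1 dr := by rw [e2]; exact h2.conj1 hm'
  have hz : C.le 1 z := by rw [e1]; exact (l1.one_mul hr).one_mul h3
  obtain ⟨⟨-, o2, o3⟩, i⟩ := H refl1 hz hr
  have z1 : C.le (m⁻¹ * dl' * m) z := by
    rw [e1, mul_assoc (m⁻¹ * dl' * m)]; exact le.left l1.r (hr.one_mul h3)
  have z2 : C.le dr z := by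
    rw [e1]; exact (le.right l1 hr.r).trans (le.left (par_mul l1.r hr.r) h3)
  have z3 : C.le dr' z := by rw [e1]; exact le.right (l1.one_mul hr) h3.r
  have m2 := (z2.pow km).trans o3
  have m3 := (z3.pow km).trans o3
  have n0 : ∀ x : O, C.le (x ^ 0) 1 := fun x => refl1.of_eq (pow_zero _).symm rfl
  refine ⟨⟨((z1.pow km).trans o3).bwd, ?_, ?_⟩, fun a b c ba bb bc => ?_⟩
  · exact ((m3.mul hr).mul (refl h3.r)).of_eq (by group) e3.symm
  · apply le.bwd
    rw [← e2]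
    exact (((m2.mul (refl hr.r)).mul h3).mul o2).of_eq (by group) (by rw [e4, e3])
  · have bb' : C.Bun dr m' (km + kB + 1) b := (bb.fwd hm').of_eq e2.symm rfl
    refine ⟨i 0 _ b (Bun.nil _ _) ((((ba.fwd hm).mul (bb'.mono fun x hx x1 x2 => ?_)).mul
      (bc.mono fun x hx x1 x2 => ?_)).of_eq e1.symm rfl) (bb'.mono fun x hx x1 x2 => ?_),
      Bun.two (C := C) (d := dr * dr') ((bb'.mono fun x hx x1 x2 => ?_).mul
        (bc.mono fun x hx x1 x2 => ?_))⟩
    · exact squeeze (j := kB + 1) (b := dr * dr' * be) hx.1.r hm (n0 x)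
        (((x1.mul h3).mul ((x1.pow kB).trans o2)).of_eq (by group) rfl)
        (x2.of_eq (by rw [e4, e3]; group) (by congr 1; ring))
    · exact squeeze (j := 1) (b := dr * dr') hx.1.r hm (n0 x)
        ((hr.mul x1).of_eq (by group) rfl) (x2.of_eq (by rw [e3]; group) (by congr 1; ring))
    · exact squeeze (i := km + 1) (a := m * dr * dr') hx.1.r hb
        (((((x1.pow km).trans m2).mul x1).mul h3).of_eq (by group) rfl) (n0 x)
        (x2.of_eq (by rw [e4, e3]; group) (by congr 1; ring))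
    · exact squeeze hx.1.r (par_mul hr.r h3.r) ((x1.pow km).trans m2) ((x1.pow kB).trans o2)
        (x2.of_eq (by rw [e4, e3]; group) (by congr 1; ring))
    · exact squeeze hx.1.r (par_mul hr.r h3.r) ((x1.pow km).trans m3) (n0 x)
        (x2.of_eq (by rw [e3]; group) (by congr 1))

/-- the degenerate form of the previous step -/
theorem Good.stepSw' {m' dl' z' dr' y : O} (H : C.Good m 1 m 1 z dr km 0 km R)
    (hm : m ∈ C.E) (hm' : m' ∈ C.E)
    (e1 : z = (m⁻¹ * dl' * m) * y) (e2 : y = m'⁻¹ * z' * m')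
    (e3 : dr = y * dr') (e4 : m' = m * y) :
    C.Good m 1 m' dl' z' dr' km 0 (km + 0 + 1)
      (fun a b c => R 0 (a + b) (b + c) ∧ b ≤ 2) := by
  intro h1 h2 h3
  have l1 := h1.conj1 hm
  have hy : C.le 1 y := by rw [e2]; exact h2.conj1 hm'
  have hr : C.le 1 dr := by rw [e3]; exact hy.one_mul h3
  have hz : C.le 1 z := by rw [e1]; exact l1.one_mul hy
  obtain ⟨⟨-, -, o3⟩, i⟩ := H refl1 hz hr
  have z1 : C.le (m⁻¹ * dl' * m) z := by rw [e1]; exact le.left l1.r hy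
  have z2 : C.le y z := by rw [e1]; exact le.right l1 hy.r
  have m2 := (z2.pow km).trans o3
  have n0 : ∀ x : O, C.le (x ^ 0) 1 := fun x => refl1.of_eq (pow_zero _).symm rfl
  refine ⟨⟨((z1.pow km).trans o3).bwd, n0 _, ?_⟩, fun a b c ba bb bc => ?_⟩
  · apply le.bwd
    rw [← e2]
    exact (m2.mul (refl hy.r)).of_eq (by group) e4.symm
  · have bb' : C.Bun y m' (km + 0 + 1) b := (bb.fwd hm').of_eq e2.symm rfl
    refine ⟨i 0 _ _ (Bun.nil _ _) (((ba.fwd hm).mul (bb'.mono fun x hx x1 x2 => ?_)).of_eq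
      e1.symm rfl) (((bb'.mono fun x hx _ _ => hx.1.one_pow _).mul bc).of_eq e3.symm rfl),
      Bun.two (bb'.mono fun x hx x1 x2 => ?_)⟩
    · exact squeeze (j := 1) (b := y) hx.1.r hm (n0 x) (x1.of_eq (by group) rfl)
        (x2.of_eq (by rw [e4]; group) (by congr 1; ring))
    · exact squeeze hx.1.r hy.r ((x1.pow km).trans m2) (n0 x)
        (x2.of_eq (by rw [e4]; group) (by congr 1))

end Cone

end Pool.Agent.Work.MP_3d425c_gt
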