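import Pool.Agent.Work.MP_3d425c_gt.AABot

/-! The order-theoretic invariant holds for all built diagrams. -/

namespace Pool.Agent.Work.MP_3d425c_gt

namespace Diag

def LT (d : Diag) (a p : ℕ) : Prop := (a, d.f, d.u, p) ∈ d.cr ∨ (d.u, p, a, d.f) ∈ d.cr

def RT (d : Diag) (b q : ℕ) : Prop := (d.v, q, b, d.g) ∈ d.cr ∨ (b, d.g, d.v, q) ∈ d.cr

def LO (d : Diag) (a p : ℕ) : Prop := d.LT a p ∨ (a = d.u ∧ p = d.f)

def RO (d : Diag) (b q : ℕ) : Prop := d.RT b q ∨ (b = d.v ∧ q = d.g)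

def Bot (d : Diag) : Prop := ∀ a p b q, d.LO a p → d.RO b q → d.S a p b q

variable {d : Diag} {a p b q : ℕ}

theorem LO.lt (w : Wf d) (h : d.LO a p) : a < d.nw := by
  rcases h with (h | h) | h
  · exact (w.bc _ h).1
  · exact (w.bc _ h).2.2.1
  · exact h.1 ▸ w.bu

theorem RO.lt (w : Wf d) (h : d.RO b q) : b < d.nw := by
  rcases h with (h | h) | h
  · exact (w.bc _ h).2.2.1
  · exact (w.bc _ h).1
  · exact h.1 ▸ w.bv

theorem Bot.rot (H : Bot d) : Bot d.rot := fun a p b q hl hr =>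
  (H b q a p (hr.imp Or.symm id) (hl.imp Or.symm id)).rot

theorem rot_rot (d : Diag) : d.rot.rot = d := by
  cases d; simp [Diag.rot]

theorem flip_flip (d : Diag) : d.flip.flip = d := by
  cases d; simp [Diag.flip, Function.comp_def]

theorem bot_of (w : Wf d) {a0 p0 b0 q0 : ℕ} (l0 : d.LT a0 p0) (r0 : d.RT b0 q0)
    (H : ∀ a p b q, d.LT a p → d.RT b q → d.S a p b q) : Bot d := by
  have H1 : ∀ a p b q, d.LT a p → d.RO b q → d.S a p b q := by
    rintro a p b q hl (hr | ⟨rfl, rfl⟩)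
    · exact H a p b q hl hr
    · exact (H a p _ _ hl r0).noneR w r0
  rintro a p b q (hl | ⟨rfl, rfl⟩) hr
  · exact H1 a p b q hl hr
  · exact (H1 _ _ b q l0 hr).noneL w l0

theorem S.start (h1 : d.Z d.v = 1) (h0 : d.Z d.u = 0) (hz : ∀ n, d.z d.u n = 0)
    (hz' : ∀ n, 0 ≤ d.z d.v n ∧ d.z d.v n ≤ 1) : S d d.v q d.u q := by
  intro O _ C W B hW _ hh
  refine ⟨0, 0, 1, by simp, by simp, by rw [h1, h0]; rfl,
    (Cone.T.base (hW _) (hW _) hh.vq).mono fun i j k h n => ?_⟩
  have h2 : (j : ℤ) ≤ 2 := by exact_mod_cast h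
  have := hz' n
  rw [hz n]
  nlinarith [Int.natCast_nonneg j]

theorem base_z (n : ℕ) : 0 ≤ base.z 1 n ∧ base.z 1 n ≤ 1 := by
  simp only [base]; split_ifs <;> simp

theorem Bot.base : Bot base := by
  refine bot_of (a0 := 1) (p0 := 2) (b0 := 0) (q0 := 2) Wf.base (Or.inl (by decide))
    (Or.inl (by decide)) fun a p b q hl hr => ?_
  obtain ⟨rfl, rfl⟩ : a = 1 ∧ p = 2 := by simpa [LT, Diag.base] using hl
  obtain ⟨rfl, rfl⟩ : q = 2 ∧ b = 0 := by simpa [RT, Diag.base] using hr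
  exact S.start (d := Diag.base) (by decide) (by decide) (fun n => by simp [Diag.base]) base_z

theorem Bot.base' : Bot Diag.base.flip := by
  refine bot_of (a0 := 1) (p0 := 2) (b0 := 0) (q0 := 2) Wf.base.flip (Or.inl (by decide))
    (Or.inl (by decide)) fun a p b q hl hr => ?_
  obtain ⟨rfl, rfl⟩ : a = 1 ∧ p = 2 := by simpa [LT, Diag.base, Diag.flip] using hl
  obtain ⟨rfl, rfl⟩ : q = 2 ∧ b = 0 := by simpa [RT, Diag.base, Diag.flip] using hr
  exact S.start (d := Diag.base.flip) (by decide) (by decide)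
    (fun n => by simp [Diag.base, Diag.flip]) base_z

theorem Bot.kinkW (w : Wf d) (H : Bot d) : Bot d.kinkW := by
  intro a p b q hl hr
  have := w.fg
  have := w.uv
  have := w.bv
  have hl' : d.LO a p := by
    simp only [LO, LT, Diag.kinkW, List.mem_cons, Prod.mk.injEq] at hl ⊢
    rcases hl with ((h | h) | (h | h)) | h
    · omega
    · tauto
    · omega
    · tauto
    · tauto
  have hr' : d.RO b q ∨ (b = d.nw ∧ q = d.g) := by
    simp only [RO, RT, Diag.kinkW, List.mem_cons, Prod.mk.injEq] at hr ⊢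
    rcases hr with ((h | h) | (h | h)) | h
    · tauto
    · tauto
    · omega
    · tauto
    · tauto
  rcases hr' with hr' | ⟨rfl, rfl⟩
  · exact (H a p b q hl' hr').ext w (fun c hc => List.mem_cons_of_mem _ hc)
      (fun s hs => fresh_ne _ hs) (fun s hs => sum_ne w _ hs) (hl'.lt w) (hr'.lt w)
  · exact (H a p _ _ hl' (Or.inr ⟨rfl, rfl⟩)).kinkW w (hl'.lt w)

theorem Bot.kinkW' (w : Wf d) (H : Bot d.flip) : Bot d.kinkW.flip := by
  intro a p b q hl hr
  have := w.fg
  have := w.uv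
  have := w.bu
  have hl' : d.flip.LO a p := by
    simp only [LO, LT, Diag.kinkW, Diag.flip, List.map_cons, List.mem_cons, Prod.mk.injEq] at hl ⊢
    rcases hl with ((h | h) | (h | h)) | h
    · omega
    · tauto
    · omega
    · tauto
    · tauto
  have hr' : d.flip.RO b q := by
    simp only [RO, RT, Diag.kinkW, Diag.flip, List.map_cons, List.mem_cons, Prod.mk.injEq] at hr ⊢
    rcases hr with ((h | h) | (h | h)) | h
    · omega
    · tauto
    · omega
    · tauto
    · tauto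
  exact (H a p b q hl' hr').ext w.flip (fun c hc => List.mem_cons_of_mem _ hc)
    (fun s hs => fresh_ne (d := d) _ hs) (fun s hs => sum_ne w _ hs) (hl'.lt w.flip)
    (hr'.lt w.flip)

theorem Bot.kinkB (w : Wf d) (H : Bot d) : Bot d.kinkB := by
  intro a p b q hl hr
  have := w.bg
  have := w.uv
  have hl' : d.LO a p := by
    simp only [LO, LT, Diag.kinkB, List.mem_cons, Prod.mk.injEq] at hl ⊢
    rcases hl with ((h | h) | (h | h)) | h
    · omega
    · tauto
    · omega
    · tauto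
    · tauto
  have hr' : d.RO b q ∨ (b = d.v ∧ q = d.nb) := by
    simp only [RO, RT, Diag.kinkB, List.mem_cons, Prod.mk.injEq] at hr ⊢
    rcases hr with ((h | h) | (h | h)) | h
    · tauto
    · tauto
    · omega
    · tauto
    · tauto
  rcases hr' with hr' | ⟨rfl, rfl⟩
  · exact (H a p b q hl' hr').ext w (fun c hc => List.mem_cons_of_mem _ hc)
      (fun _ _ _ => rfl) (fun _ _ => rfl) (hl'.lt w) (hr'.lt w)
  · exact (H a p _ _ hl' (Or.inr ⟨rfl, rfl⟩)).kinkB w

theorem Bot.kinkB' (w : Wf d) (H : Bot d.flip) : Bot d.kinkB.flip := by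
  intro a p b q hl hr
  have := w.fg
  have := w.uv
  have := w.bf
  have hl' : d.flip.LO a p := by
    simp only [LO, LT, Diag.kinkB, Diag.flip, List.map_cons, List.mem_cons, Prod.mk.injEq] at hl ⊢
    rcases hl with ((h | h) | (h | h)) | h
    · omega
    · tauto
    · omega
    · tauto
    · tauto
  have hr' : d.flip.RO b q := by
    simp only [RO, RT, Diag.kinkB, Diag.flip, List.map_cons, List.mem_cons, Prod.mk.injEq] at hr ⊢
    rcases hr with ((h | h) | (h | h)) | h
    · omega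
    · tauto
    · omega
    · tauto
    · tauto
  exact (H a p b q hl' hr').ext w.flip (fun c hc => List.mem_cons_of_mem _ hc)
    (fun _ _ _ => rfl) (fun _ _ => rfl) (hl'.lt w.flip) (hr'.lt w.flip)

variable {x : ℕ × ℕ × ℕ × ℕ} {h s : ℕ}

theorem ro_x (hx : x ∈ d.cr) (e : x = (d.v, h, s, d.g) ∨ x = (s, d.g, d.v, h)) : d.RO s h := by
  rcases e with rfl | rfl
  · exact Or.inl (Or.inl hx)
  · exact Or.inl (Or.inr hx)

theorem Bot.tongue (w : Wf d) (hx : x ∈ d.cr)
    (e : x = (d.v, h, s, d.g) ∨ x = (s, d.g, d.v, h)) (H : Bot d) : Bot (d.tongue x h s) := by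
  intro a p b q hl hr
  obtain ⟨b1, b2, b3⟩ := w.nb hx e
  have := w.fg
  have := w.uv
  have := w.bu
  have := w.bv
  have := w.bf
  have hl' : d.LO a p := by
    simp only [LO, LT, Diag.tongue, List.mem_cons, Prod.mk.injEq] at hl ⊢
    rcases hl with ((h | h | h | h) | (h | h | h | h)) | h
    · omega
    · omega
    · omega
    · exact Or.inl (Or.inl (List.mem_of_mem_erase h))
    · omega
    · omega
    · omega
    · exact Or.inl (Or.inr (List.mem_of_mem_erase h))
    · tauto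
  have key := (H a p s h hl' (ro_x hx e)).tongueIn w hx e (hl'.lt w)
  have hr' : (b = s ∧ q = h) ∨ (b = d.nw ∧ q = d.nb) := by
    simp only [RO, RT, Diag.tongue, List.mem_cons, Prod.mk.injEq] at hr
    rcases hr with ((h | h | h | h) | (h | h | h | h)) | h
    · tauto
    · omega
    · omega
    · exact absurd (w.bc _ (List.mem_of_mem_erase h)).1 (lt_irrefl _)
    · omega
    · omega
    · omega
    · exact absurd (w.bc _ (List.mem_of_mem_erase h)).2.1 (lt_irrefl _)
    · tauto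
  rcases hr' with ⟨rfl, rfl⟩ | ⟨rfl, rfl⟩
  · exact key
  · exact key.noneR (w.tongue hx e) (Or.inl (by simp [Diag.tongue]))

theorem old_flip (w : Wf d) {c : ℕ × ℕ × ℕ × ℕ}
    (hc : c ∈ (d.cr.erase x).map fun c => (c.1, c.2.2.2, c.2.2.1, c.2.1)) :
    c.1 < d.nw ∧ c.2.1 < d.nb ∧ c.2.2.1 < d.nw ∧ c.2.2.2 < d.nb := by
  obtain ⟨e, he, rfl⟩ := List.mem_map.mp hc
  exact w.flip.bc _ (mem_flip (List.mem_of_mem_erase he))

theorem Bot.tongue' (w : Wf d) (hx : x ∈ d.cr)
    (e : x = (d.v, h, s, d.g) ∨ x = (s, d.g, d.v, h)) (H : Bot d) :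
    Bot (d.tongue x h s).flip := by
  rw [← rot_rot (d.tongue x h s).flip]
  obtain ⟨b1, b2, b3⟩ := w.nb hx e
  have := w.fg
  have := w.uv
  have := w.bu
  have := w.bv
  have := w.bf
  have := w.bg
  refine Bot.rot (bot_of (a0 := d.v) (p0 := h) (b0 := s) (q0 := d.g) (w.tongue hx e).flip.rot
    (Or.inl (by simp [Diag.tongue, Diag.flip, Diag.rot]))
    (Or.inl (by simp [Diag.tongue, Diag.flip, Diag.rot])) fun a p b q hl hr => ?_)
  have key := H d.u d.f s h (Or.inr ⟨rfl, rfl⟩) (ro_x hx e)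
  obtain ⟨rfl, rfl⟩ : a = d.v ∧ p = h := by
    simp only [LT, Diag.tongue, Diag.flip, Diag.rot, List.map_cons, List.mem_cons,
      Prod.mk.injEq] at hl
    rcases hl with (h | h | h | h) | (h | h | h | h)
    · omega
    · tauto
    · omega
    · exact absurd (old_flip w h).2.2.1 (lt_irrefl _)
    · omega
    · omega
    · omega
    · exact absurd (old_flip w h).1 (lt_irrefl _)
  have hr' : (b = s ∧ q = d.g) ∨ (b = d.nw ∧ s = d.u ∧ q = p) := by
    simp only [RT, Diag.tongue, Diag.flip, Diag.rot, List.map_cons, List.mem_cons,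
      Prod.mk.injEq] at hr
    rcases hr with (h | h | h | h) | (h | h | h | h)
    · omega
    · omega
    · tauto
    · exact absurd (old_flip w h).2.2.2 (lt_irrefl _)
    · omega
    · omega
    · omega
    · exact absurd (old_flip w h).2.1 (lt_irrefl _)
  rcases hr' with ⟨rfl, rfl⟩ | ⟨rfl, rfl, rfl⟩
  · exact key.tongueSw w hx e
  · exact key.tongueSw' w hx e

theorem Built.bot (H : Built d) : Bot d ∧ Bot d.flip := by
  induction H with
  | base => exact ⟨Bot.base, Bot.base'⟩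
  | rot _ ih => exact ⟨ih.1.rot, ih.2.rot⟩
  | flip _ ih => exact ⟨ih.2, by rw [flip_flip]; exact ih.1⟩
  | kinkW h ih => exact ⟨ih.1.kinkW h.wf, ih.2.kinkW' h.wf⟩
  | kinkB h ih => exact ⟨ih.1.kinkB h.wf, ih.2.kinkB' h.wf⟩
  | tongue h hx e ih => exact ⟨ih.1.tongue h.wf hx e, ih.1.tongue' h.wf hx e⟩

end Diag

end Pool.Agent.Work.MP_3d425c_gt
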