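import Mathlib.Tactic.Ring
import Mathlib.Tactic.Linarith
import Mathlib.Tactic.LinearCombination
import Mathlib.Algebra.BigOperators.Group.List.Basic
import Pool.Agent.Work.MP_3d425c_gt.AADefs

/-! Combinatorial invariants of the built diagrams. -/

namespace Pool.Agent.Work.MP_3d425c_gt

namespace Diag

/-- the contribution of a crossing to the planar duality identity -/
def term (r q : ℕ → ℤ) (c : ℕ × ℕ × ℕ × ℕ) : ℤ := (r c.1 - r c.2.2.1) * (q c.2.2.2 - q c.2.1)

structure Wf (d : Diag) : Prop where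
  uv : d.u ≠ d.v
  fg : d.f ≠ d.g
  bu : d.u < d.nw
  bv : d.v < d.nw
  bf : d.f < d.nb
  bg : d.g < d.nb
  bc : ∀ c ∈ d.cr, c.1 < d.nw ∧ c.2.1 < d.nb ∧ c.2.2.1 < d.nw ∧ c.2.2.2 < d.nb
  np : ∀ c ∈ d.cr, ¬ (c.2.1 = d.f ∧ c.2.2.2 = d.g) ∧ ¬ (c.2.1 = d.g ∧ c.2.2.2 = d.f)
  zz : ∀ w i, d.nw ≤ i → d.z w i = 0
  en : ∀ r q : ℕ → ℤ, (d.cr.map (term r q)).sum = (r d.u - r d.v) * (q d.f - q d.g)
  cw : ∀ r : ℕ → Prop, (r d.u ↔ r d.v) → (∀ c ∈ d.cr, r c.1 ↔ r c.2.2.1) →
    ∀ a, a < d.nw → (r a ↔ r d.u)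
  cb : ∀ r : ℕ → Prop, (r d.f ↔ r d.g) → (∀ c ∈ d.cr, r c.2.1 ↔ r c.2.2.2) →
    ∀ a, a < d.nb → (r a ↔ r d.f)

variable {d : Diag}

theorem Wf.base : Wf base where
  uv := by decide
  fg := by decide
  bu := by decide
  bv := by decide
  bf := by decide
  bg := by decide
  bc := by decide
  np := by decide
  zz w i h := if_neg (by rintro ⟨-, rfl⟩; exact absurd h (by decide))
  en r q := by simp only [Diag.base, term, List.map, List.sum_cons, List.sum_nil]; ring
  cw r h _ a ha := by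
    have : a = 0 ∨ a = 1 := by have : a < 2 := ha; omega
    rcases this with rfl | rfl
    · rfl
    · exact h.symm
  cb r h h' a ha := by
    have : a = 0 ∨ a = 1 ∨ a = 2 := by have : a < 3 := ha; omega
    rcases this with rfl | rfl | rfl
    · rfl
    · exact h.symm
    · exact (h' (1, 0, 0, 2) (by decide)).symm

theorem Wf.rot (H : Wf d) : Wf d.rot where
  uv := H.uv.symm
  fg := H.fg.symm
  bu := H.bv
  bv := H.bu
  bf := H.bg
  bg := H.bf
  bc := H.bc
  np c hc := (H.np c hc).symm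
  zz w i h := neg_eq_zero.mpr (H.zz w i h)
  en r q := (H.en r q).trans (by simp only [Diag.rot]; ring)
  cw r h h' a ha := (H.cw r h.symm h' a ha).trans h.symm
  cb r h h' a ha := (H.cb r h.symm h' a ha).trans h.symm

theorem sum_flip (r q : ℕ → ℤ) (l : List (ℕ × ℕ × ℕ × ℕ)) :
    ((l.map fun c => (c.1, c.2.2.2, c.2.2.1, c.2.1)).map (term r q)).sum =
      -(l.map (term r q)).sum := by
  induction l with
  | nil => simp
  | cons c l ih => simp only [List.map, List.sum_cons, ih, term]; ring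

theorem mem_flip {c : ℕ × ℕ × ℕ × ℕ} (hc : c ∈ d.cr) :
    (c.1, c.2.2.2, c.2.2.1, c.2.1) ∈ d.flip.cr := List.mem_map.mpr ⟨c, hc, rfl⟩

theorem Wf.flip (H : Wf d) : Wf d.flip where
  uv := H.uv
  fg := H.fg.symm
  bu := H.bu
  bv := H.bv
  bf := H.bg
  bg := H.bf
  bc c hc := by
    obtain ⟨e, he, rfl⟩ := List.mem_map.mp hc
    obtain ⟨h1, h2, h3, h4⟩ := H.bc e he
    exact ⟨h1, h4, h3, h2⟩
  np c hc := by
    obtain ⟨e, he, rfl⟩ := List.mem_map.mp hc
    obtain ⟨h1, h2⟩ := H.np e he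
    exact ⟨fun h => h1 h.symm, fun h => h2 h.symm⟩
  zz := H.zz
  en r q := (sum_flip r q d.cr).trans (by rw [H.en]; simp only [Diag.flip]; ring)
  cw r h h' a ha := H.cw r h (fun c hc => h' (c.1, c.2.2.2, c.2.2.1, c.2.1) (mem_flip hc)) a ha
  cb r h h' a ha :=
    (H.cb r h.symm (fun c hc => (h' (c.1, c.2.2.2, c.2.2.1, c.2.1) (mem_flip hc)).symm) a ha).trans h.symm

theorem fresh_zero (H : Wf d) {y : ℕ → ℤ} (hy : ∀ i, d.nw ≤ i → y i = 0) (w i : ℕ)
    (h : d.nw + 1 ≤ i) : d.fresh y w i = 0 := by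
  unfold fresh
  split_ifs with h1 h2
  · omega
  · rw [hy i (by omega), add_zero]
  · exact H.zz w i (by omega)

theorem Wf.kinkW (H : Wf d) : Wf d.kinkW where
  uv := H.uv
  fg := H.fg
  bu := Nat.lt_succ_of_lt H.bu
  bv := Nat.lt_succ_of_lt H.bv
  bf := H.bf
  bg := H.bg
  bc c hc := by
    rcases List.mem_cons.mp hc with rfl | hc
    · exact ⟨Nat.lt_succ_of_lt H.bv, H.bg, Nat.lt_succ_self _, H.bg⟩
    · obtain ⟨h1, h2, h3, h4⟩ := H.bc c hc
      exact ⟨Nat.lt_succ_of_lt h1, h2, Nat.lt_succ_of_lt h3, h4⟩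
  np c hc := by
    rcases List.mem_cons.mp hc with rfl | hc
    · exact ⟨fun h => H.fg h.1.symm, fun h => H.fg h.2.symm⟩
    · exact H.np c hc
  zz := fresh_zero H (H.zz _)
  en r q := by
    have := H.en r q
    simp only [Diag.kinkW, List.map, List.sum_cons, term] at this ⊢
    linear_combination this
  cw r h h' a ha := by
    rcases Nat.lt_succ_iff_lt_or_eq.mp ha with ha | rfl
    · exact H.cw r h (fun c hc => h' c (List.mem_cons_of_mem _ hc)) a ha
    · exact (h' _ List.mem_cons_self).symm.trans h.symm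
  cb r h h' a ha := H.cb r h (fun c hc => h' c (List.mem_cons_of_mem _ hc)) a ha

theorem Wf.kinkB (H : Wf d) : Wf d.kinkB where
  uv := H.uv
  fg := H.fg
  bu := H.bu
  bv := H.bv
  bf := Nat.lt_succ_of_lt H.bf
  bg := Nat.lt_succ_of_lt H.bg
  bc c hc := by
    rcases List.mem_cons.mp hc with rfl | hc
    · exact ⟨H.bv, Nat.lt_succ_self _, H.bv, Nat.lt_succ_of_lt H.bg⟩
    · obtain ⟨h1, h2, h3, h4⟩ := H.bc c hc
      exact ⟨h1, Nat.lt_succ_of_lt h2, h3, Nat.lt_succ_of_lt h4⟩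
  np c hc := by
    rcases List.mem_cons.mp hc with rfl | hc
    · exact ⟨fun h => H.bf.ne h.1.symm, fun h => H.bg.ne h.1.symm⟩
    · exact H.np c hc
  zz := H.zz
  en r q := by
    have := H.en r q
    simp only [Diag.kinkB, List.map, List.sum_cons, term] at this ⊢
    linear_combination this
  cw r h h' a ha := H.cw r h (fun c hc => h' c (List.mem_cons_of_mem _ hc)) a ha
  cb r h h' a ha := by
    rcases Nat.lt_succ_iff_lt_or_eq.mp ha with ha | rfl
    · exact H.cb r h (fun c hc => h' c (List.mem_cons_of_mem _ hc)) a ha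
    · exact (h' _ List.mem_cons_self).trans h.symm

theorem mem_or_erase {x c : ℕ × ℕ × ℕ × ℕ} {l : List (ℕ × ℕ × ℕ × ℕ)} (hc : c ∈ l) :
    c = x ∨ c ∈ l.erase x := by
  by_cases h : c = x
  · exact Or.inl h
  · exact Or.inr ((List.mem_erase_of_ne h).mpr hc)

theorem Wf.nb (H : Wf d) {x : ℕ × ℕ × ℕ × ℕ} {h w : ℕ} (hx : x ∈ d.cr)
    (e : x = (d.v, h, w, d.g) ∨ x = (w, d.g, d.v, h)) : h < d.nb ∧ w < d.nw ∧ h ≠ d.f := by
  have h1 := H.bc x hx
  have h2 := H.np x hx
  rcases e with rfl | rfl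
  · exact ⟨h1.2.1, h1.2.2.1, fun h => h2.1 ⟨h, rfl⟩⟩
  · exact ⟨h1.2.2.2, h1.1, fun h => h2.2 ⟨rfl, h⟩⟩

theorem Wf.tongue (H : Wf d) {x : ℕ × ℕ × ℕ × ℕ} {h w : ℕ} (hx : x ∈ d.cr)
    (e : x = (d.v, h, w, d.g) ∨ x = (w, d.g, d.v, h)) : Wf (d.tongue x h w) := by
  obtain ⟨b1, b2, b3⟩ := H.nb hx e
  have mem : ∀ c ∈ (d.tongue x h w).cr, c = (d.nw, h, w, d.nb) ∨ c = (d.v, h, d.nw, d.f) ∨
      c = (d.u, d.nb, w, d.g) ∨ c ∈ d.cr := fun c hc => by
    simp only [Diag.tongue, List.mem_cons] at hc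
    rcases hc with hc | hc | hc | hc
    · exact Or.inl hc
    · exact Or.inr (Or.inl hc)
    · exact Or.inr (Or.inr (Or.inl hc))
    · exact Or.inr (Or.inr (Or.inr (List.mem_of_mem_erase hc)))
  have m1 : (d.nw, h, w, d.nb) ∈ (d.tongue x h w).cr := by simp [Diag.tongue]
  have m2 : (d.v, h, d.nw, d.f) ∈ (d.tongue x h w).cr := by simp [Diag.tongue]
  have m3 : (d.u, d.nb, w, d.g) ∈ (d.tongue x h w).cr := by simp [Diag.tongue]
  have m4 : ∀ c ∈ d.cr.erase x, c ∈ (d.tongue x h w).cr := fun c hc => by simp [Diag.tongue, hc]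
  have := H.bu
  have := H.bv
  have := H.bf
  have := H.bg
  have := H.fg
  refine ⟨H.bu.ne, H.bf.ne, Nat.lt_succ_of_lt H.bu, Nat.lt_succ_self _, Nat.lt_succ_of_lt H.bf,
    Nat.lt_succ_self _, fun c hc => ?_, fun c hc => ?_, fresh_zero H fun i hi => ?_,
    fun r q => ?_, fun r k k' a ha => ?_, fun r k k' a ha => ?_⟩
  · rcases mem c hc with rfl | rfl | rfl | hc
    · simp only [Diag.tongue]; omega
    · simp only [Diag.tongue]; omega
    · simp only [Diag.tongue]; omega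
    · have := H.bc c hc
      simp only [Diag.tongue]; omega
  · rcases mem c hc with rfl | rfl | rfl | hc
    · simp only [Diag.tongue]; omega
    · simp only [Diag.tongue]; omega
    · simp only [Diag.tongue]; omega
    · have := H.bc c hc
      simp only [Diag.tongue]; omega
  · rw [H.zz _ i hi, H.zz _ i hi, H.zz _ i hi]; rfl
  · have e1 := H.en r q
    rw [((List.perm_cons_erase hx).map (term r q)).sum_eq] at e1
    have e2 : term r q x = (r d.v - r w) * (q d.g - q h) := by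
      rcases e with rfl | rfl
      · rfl
      · simp only [term]; ring
    rw [List.map_cons, List.sum_cons, e2] at e1
    simp only [Diag.tongue, List.map, List.sum_cons, term] at e1 ⊢
    linear_combination e1
  · have k1 : r d.nw ↔ r w := k' _ m1
    have k2 : r d.v ↔ r d.nw := k' _ m2
    have k0 : r d.u ↔ r d.nw := k
    rcases Nat.lt_succ_iff_lt_or_eq.mp ha with ha | rfl
    · refine H.cw r (k0.trans k2.symm) (fun c hc => ?_) a ha
      rcases mem_or_erase (x := x) hc with rfl | hc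
      · rcases e with rfl | rfl
        · exact k2.trans k1
        · exact (k2.trans k1).symm
      · exact k' c (m4 c hc)
    · exact k0.symm
  · have k1 : r h ↔ r d.nb := k' _ m1
    have k3 : r d.nb ↔ r d.g := k' _ m3
    have k0 : r d.f ↔ r d.nb := k
    rcases Nat.lt_succ_iff_lt_or_eq.mp ha with ha | rfl
    · refine H.cb r (k0.trans k3) (fun c hc => ?_) a ha
      rcases mem_or_erase (x := x) hc with rfl | hc
      · rcases e with rfl | rfl
        · exact k1.trans k3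
        · exact (k1.trans k3).symm
      · exact k' c (m4 c hc)
    · exact k0.symm

theorem Built.wf (H : Built d) : Wf d := by
  induction H with
  | base => exact Wf.base
  | rot _ ih => exact ih.rot
  | flip _ ih => exact ih.flip
  | kinkW _ ih => exact ih.kinkW
  | kinkB _ ih => exact ih.kinkB
  | tongue _ hx e ih => exact ih.tongue hx e

end Diag

end Pool.Agent.Work.MP_3d425c_gt
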