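import Mathlib.Order.UpperLower.CompleteLattice
import Mathlib.Algebra.Order.Monoid.Unbundled.Pow
import Mathlib.Algebra.Group.Action.End
import Mathlib.Tactic.Group
import Mathlib.Tactic.Ring
import Mathlib.Tactic.Linarith
import Pool.Agent.Work.MP_3d425c_gt.Defs

/-! Abstract order-theoretic part: properties D1 and D2 give non-left-orderability. -/

namespace Pool.Agent.Work.MP_3d425c_gt

section Act

variable {G : Type} [Group G] {Ω : Type}

theorem act_mul (ρ : G →* Equiv.Perm Ω) (g h : G) (s : Ω) : ρ (g * h) s = ρ g (ρ h s) := by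
  rw [map_mul]; rfl

theorem act_one (ρ : G →* Equiv.Perm Ω) (s : Ω) : ρ 1 s = s := by
  rw [map_one]; rfl

theorem act_inv_act (ρ : G →* Equiv.Perm Ω) (g : G) (s : Ω) : ρ g⁻¹ (ρ g s) = s := by
  rw [← act_mul, inv_mul_cancel, act_one]

theorem act_act_inv (ρ : G →* Equiv.Perm Ω) (g : G) (s : Ω) : ρ g (ρ g⁻¹ s) = s := by
  rw [← act_mul, mul_inv_cancel, act_one]

theorem fix_inv (ρ : G →* Equiv.Perm Ω) {g : G} {s : Ω} (h : ρ g s = s) : ρ g⁻¹ s = s := by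
  conv_lhs => rw [← h]
  exact act_inv_act ρ g s

theorem fix_mul (ρ : G →* Equiv.Perm Ω) {g h : G} {s : Ω} (hg : ρ g s = s) (hh : ρ h s = s) :
    ρ (g * h) s = s := by
  rw [act_mul, hh, hg]

theorem fix_pow (ρ : G →* Equiv.Perm Ω) {g : G} {s : Ω} (hg : ρ g s = s) (n : ℕ) :
    ρ (g ^ n) s = s := by
  induction n with
  | zero => rw [pow_zero, act_one]
  | succ n ih => rw [pow_succ]; exact fix_mul ρ ih hg

theorem fix_zpow (ρ : G →* Equiv.Perm Ω) {g : G} {s : Ω} (hg : ρ g s = s) (n : ℤ) :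
    ρ (g ^ n) s = s := by
  cases n with
  | ofNat n => rw [Int.ofNat_eq_natCast, zpow_natCast]; exact fix_pow ρ hg n
  | negSucc n => rw [zpow_negSucc]; exact fix_inv ρ (fix_pow ρ hg _)

variable [LinearOrder Ω] (ρ : G →* Equiv.Perm Ω) (hρ : ∀ g, StrictMono (ρ g))
include hρ

theorem up_pow {g : G} {s : Ω} (h : s ≤ ρ g s) (n : ℕ) : s ≤ ρ (g ^ n) s := by
  induction n with
  | zero => rw [pow_zero, act_one]
  | succ n ih =>
    rw [pow_succ', act_mul]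
    exact h.trans ((hρ g).monotone ih)

theorem down_pow {g : G} {s : Ω} (h : ρ g s ≤ s) (n : ℕ) : ρ (g ^ n) s ≤ s := by
  induction n with
  | zero => rw [pow_zero, act_one]
  | succ n ih =>
    rw [pow_succ', act_mul]
    exact ((hρ g).monotone ih).trans h

theorem up_pow' {g : G} {s : Ω} (h : s ≤ ρ g s) {n : ℕ} (hn : 1 ≤ n) :
    ρ g s ≤ ρ (g ^ n) s := by
  obtain ⟨m, rfl⟩ : ∃ m, n = m + 1 := ⟨n - 1, by omega⟩
  rw [pow_succ', act_mul]
  exact (hρ g).monotone (up_pow ρ hρ h m)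

theorem down_pow' {g : G} {s : Ω} (h : ρ g s ≤ s) {n : ℕ} (hn : 1 ≤ n) :
    ρ (g ^ n) s ≤ ρ g s := by
  obtain ⟨m, rfl⟩ : ∃ m, n = m + 1 := ⟨n - 1, by omega⟩
  rw [pow_succ', act_mul]
  exact (hρ g).monotone (down_pow ρ hρ h m)

theorem sup_pow {g : G} {s : Ω} (h : s < ρ g s) {n : ℕ} (hn : 1 ≤ n) : s < ρ (g ^ n) s :=
  h.trans_le (up_pow' ρ hρ h.le hn)

theorem sdown_pow {g : G} {s : Ω} (h : ρ g s < s) {n : ℕ} (hn : 1 ≤ n) : ρ (g ^ n) s < s :=
  (down_pow' ρ hρ h.le hn).trans_lt h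

theorem fix_of_pow {g : G} {s : Ω} {n : ℕ} (hn : 1 ≤ n) (h : ρ (g ^ n) s = s) : ρ g s = s := by
  rcases lt_trichotomy (ρ g s) s with h1 | h1 | h1
  · exact absurd h (sdown_pow ρ hρ h1 hn).ne
  · exact h1
  · exact absurd h (sup_pow ρ hρ h1 hn).ne'

end Act

/-- Property D1: a point fixed by the peripheral elements is a global fixed point. -/
def D1 (G : Type) [Group G] (μ L : G) : Prop :=
  ∀ (Ω : Type) [LinearOrder Ω] (ρ : G →* Equiv.Perm Ω), (∀ g, StrictMono (ρ g)) →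
    ∀ s : Ω, ρ μ s = s → ρ L s = s → ∀ g, ρ g s = s

/-- Property D2. -/
def D2 (G : Type) [Group G] (μ L : G) (N : ℕ) : Prop :=
  ∀ [Preorder G] [MulLeftMono G] [MulRightMono G], 1 ≤ μ → L ≤ μ ^ N → μ ≤ 1

section Main

variable {G : Type} [Group G] {μ L : G} {N c : ℕ} {u : ℤ} {v : ℕ}

theorem rel_pow (hcomm : Commute μ L) (hrel : μ ^ u * (L * (μ ^ c)⁻¹) ^ v = 1) :
    L ^ v = μ ^ ((c : ℤ) * v - u) := by
  have h1 : (L * (μ ^ c)⁻¹) ^ v = L ^ v * ((μ ^ c)⁻¹) ^ v :=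
    Commute.mul_pow (hcomm.symm.pow_right c).inv_right v
  rw [h1] at hrel
  have h2 : L ^ v = (μ ^ u)⁻¹ * (((μ ^ c)⁻¹) ^ v)⁻¹ := by
    have := congrArg (fun t => (μ ^ u)⁻¹ * t * (((μ ^ c)⁻¹) ^ v)⁻¹) hrel
    simpa [mul_assoc] using this
  rw [h2, inv_pow, inv_inv, ← pow_mul, ← zpow_natCast, ← zpow_neg, ← zpow_add]
  congr 1
  push_cast
  ring

theorem no_all_up (hcomm : Commute μ L) (hv : 0 < v) (hrel : μ ^ u * (L * (μ ^ c)⁻¹) ^ v = 1)
    (huv : ((c : ℤ) - N) * v ≤ u) (h2 : D2 G μ L N)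
    (Ω : Type) [LinearOrder Ω] (ρ : G →* Equiv.Perm Ω) (hρ : ∀ g, StrictMono (ρ g))
    (s₀ : Ω) (hup : ∀ s, s < ρ μ s) : False := by
  let P : Preorder G :=
    { le := fun a b => ∀ s, ρ a s ≤ ρ b s
      le_refl := fun _ _ => le_rfl
      le_trans := fun _ _ _ h1 h2 s => (h1 s).trans (h2 s) }
  have : MulLeftMono G := ⟨fun a b d h s => by
    show ρ (a * b) s ≤ ρ (a * d) s
    rw [act_mul, act_mul]
    exact (hρ a).monotone (h s)⟩
  have : MulRightMono G := ⟨fun a b d h s => by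
    show ρ (b * a) s ≤ ρ (d * a) s
    rw [act_mul, act_mul]
    exact h _⟩
  have hL := rel_pow hcomm hrel
  have key : L ≤ μ ^ N := by
    intro s
    by_contra hlt
    push Not at hlt
    have h3 : s < ρ ((μ ^ N)⁻¹ * L) s := by
      rw [act_mul]
      have := hρ (μ ^ N)⁻¹ hlt
      simpa only [act_inv_act] using this
    have h4 := sup_pow ρ hρ h3 hv
    have h5 : ((μ ^ N)⁻¹ * L) ^ v = (μ ^ (u - ((c : ℤ) - N) * v).toNat)⁻¹ := by
      rw [Commute.mul_pow (hcomm.pow_left N).inv_left, hL, inv_pow, ← pow_mul, ← zpow_natCast,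
        ← zpow_natCast, ← zpow_neg, ← zpow_neg, ← zpow_add]
      congr 1
      rw [Int.toNat_of_nonneg (by linarith)]
      push_cast
      ring
    rw [h5] at h4
    have h6 := hρ (μ ^ (u - ((c : ℤ) - N) * v).toNat) h4
    simp only [act_act_inv] at h6
    exact absurd (up_pow ρ hρ (hup s).le _) (not_le.mpr h6)
  have h7 : μ ≤ 1 := h2 (fun s => by rw [act_one]; exact (hup s).le) key
  have h8 := h7 s₀
  rw [act_one] at h8
  exact absurd (hup s₀) (not_lt.mpr h8)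

/-- The induced action on lower sets. -/
def lowerAct {Ω : Type} [LinearOrder Ω] (ρ : G →* Equiv.Perm Ω) (hρ : ∀ g, StrictMono (ρ g)) :
    G →* Equiv.Perm (LowerSet Ω) where
  toFun g :=
    { toFun := fun S => ⟨{y | ρ g⁻¹ y ∈ S}, fun _ _ hab hb => S.lower ((hρ _).monotone hab) hb⟩
      invFun := fun S => ⟨{y | ρ g y ∈ S}, fun _ _ hab hb => S.lower ((hρ _).monotone hab) hb⟩
      left_inv := fun S => by
        ext y
        show ρ g⁻¹ (ρ g y) ∈ S ↔ y ∈ S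
        rw [act_inv_act]
      right_inv := fun S => by
        ext y
        show ρ g (ρ g⁻¹ y) ∈ S ↔ y ∈ S
        rw [act_act_inv] }
  map_one' := by
    ext S y
    show ρ (1 : G)⁻¹ y ∈ S ↔ y ∈ S
    rw [inv_one, act_one]
  map_mul' g h := by
    ext S y
    show ρ (g * h)⁻¹ y ∈ S ↔ ρ h⁻¹ (ρ g⁻¹ y) ∈ S
    rw [mul_inv_rev, act_mul]

theorem mem_lowerAct {Ω : Type} [LinearOrder Ω] (ρ : G →* Equiv.Perm Ω)
    (hρ : ∀ g, StrictMono (ρ g)) (g : G) (S : LowerSet Ω) (y : Ω) :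
    y ∈ lowerAct ρ hρ g S ↔ ρ g⁻¹ y ∈ S := Iff.rfl

theorem lowerAct_strictMono {Ω : Type} [LinearOrder Ω] (ρ : G →* Equiv.Perm Ω)
    (hρ : ∀ g, StrictMono (ρ g)) (g : G) : StrictMono (lowerAct ρ hρ g) := by
  refine Monotone.strictMono_of_injective ?_ (lowerAct ρ hρ g).injective
  intro S T h y hy
  exact h hy

theorem exists_fixed_lower {Ω : Type} [LinearOrder Ω] (ρ : G →* Equiv.Perm Ω)
    (hρ : ∀ g, StrictMono (ρ g)) (ν : G) {a b : Ω} (hab : a < b) (ha : a ≤ ρ ν a)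
    (hb : ρ ν b ≤ b) : ∃ S : LowerSet Ω, a ∈ S ∧ b ∉ S ∧ lowerAct ρ hρ ν S = S := by
  refine ⟨⟨{y | ∃ n : ℕ, y ≤ ρ (ν ^ n) a}, fun y z hyz ⟨n, hn⟩ => ⟨n, hyz.trans hn⟩⟩,
    ⟨0, by rw [pow_zero, act_one]⟩, ?_, ?_⟩
  · rintro ⟨n, hn⟩
    have h1 : ρ (ν ^ n) a < ρ (ν ^ n) b := hρ _ hab
    exact absurd (hn.trans_lt (h1.trans_le (down_pow ρ hρ hb n))) (lt_irrefl _)
  · ext y
    show (∃ n : ℕ, ρ ν⁻¹ y ≤ ρ (ν ^ n) a) ↔ ∃ n : ℕ, y ≤ ρ (ν ^ n) a
    constructor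
    · rintro ⟨n, hn⟩
      refine ⟨n + 1, ?_⟩
      have := (hρ ν).monotone hn
      rwa [act_act_inv, ← act_mul, ← pow_succ'] at this
    · rintro ⟨n, hn⟩
      refine ⟨n, ?_⟩
      have h1 := (hρ ν⁻¹).monotone hn
      refine h1.trans ?_
      have h2 : ρ (ν ^ n) a ≤ ρ (ν ^ n) (ρ ν a) := (hρ _).monotone ha
      have h3 := (hρ ν⁻¹).monotone h2
      have h4 : ρ ν⁻¹ (ρ (ν ^ n) (ρ ν a)) = ρ (ν ^ n) a := by
        rw [← act_mul, ← act_mul]
        congr 2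
        group
      rwa [h4] at h3

theorem not_leftOrderable (hcomm : Commute μ L) (hv : 0 < v)
    (hrel : μ ^ u * (L * (μ ^ c)⁻¹) ^ v = 1) (huv : ((c : ℤ) - N) * v ≤ u)
    (h1 : D1 G μ L) (h2 : D2 G μ L N) : ¬ IsLeftOrderable G := by
  classical
  rintro ⟨hnt, r, hsto, hinv⟩
  let LO : LinearOrder G := linearOrderOfSTO r
  let ρ : G →* Equiv.Perm G := MulAction.toPermHom G G
  have hρe : ∀ g s, ρ g s = g * s := fun _ _ => rfl
  have hρ : ∀ g, StrictMono (ρ g) := fun g a b hab => (hinv a b g).mp hab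
  have hL := rel_pow hcomm hrel
  have hfix : ∀ (Ω : Type) [LinearOrder Ω] (σ : G →* Equiv.Perm Ω), (∀ g, StrictMono (σ g)) →
      ∀ s : Ω, σ μ s = s → ∀ g, σ g s = s := by
    intro Ω _ σ hσ s hs
    refine h1 Ω σ hσ s hs (fix_of_pow σ hσ hv ?_)
    rw [hL]
    exact fix_zpow σ hs _
  have hmix : ∀ ν : G, (ν = μ ∨ ν = μ⁻¹) → ∀ a b : G, a < b → a ≤ ρ ν a → ρ ν b ≤ b → False := by
    intro ν hν a b hab ha hb
    obtain ⟨S, haS, hbS, hS⟩ := exists_fixed_lower ρ hρ ν hab ha hb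
    have hμ : lowerAct ρ hρ μ S = S := by
      rcases hν with rfl | rfl
      · exact hS
      · have := fix_inv _ hS
        rwa [inv_inv] at this
    have h3 := hfix _ _ (lowerAct_strictMono ρ hρ) S hμ (b * a⁻¹)
    apply hbS
    rw [← h3, mem_lowerAct, hρe]
    simpa using haS
  have hne : ∀ s, ρ μ s ≠ s := by
    intro s hs
    obtain ⟨g, hg⟩ := exists_ne (1 : G)
    have := hfix G ρ hρ s hs g
    rw [hρe] at this
    exact hg (by simpa using this)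
  by_cases hup : ∀ s, s < ρ μ s
  · exact no_all_up hcomm hv hrel huv h2 G ρ hρ 1 hup
  by_cases hdown : ∀ s, ρ μ s < s
  · exact no_all_up hcomm hv hrel huv h2 Gᵒᵈ ρ (fun g => (hρ g).dual) 1 hdown
  push Not at hup hdown
  obtain ⟨b, hb⟩ := hup
  obtain ⟨a, ha⟩ := hdown
  rcases lt_trichotomy a b with hab | hab | hab
  · exact hmix μ (Or.inl rfl) a b hab ha hb
  · subst hab
    exact hne a (le_antisymm hb ha)
  · refine hmix μ⁻¹ (Or.inr rfl) b a hab ?_ ?_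
    · have := (hρ μ⁻¹).monotone hb
      rwa [act_inv_act] at this
    · have := (hρ μ⁻¹).monotone ha
      rwa [act_inv_act] at this

end Main

end Pool.Agent.Work.MP_3d425c_gt
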