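import Mathlib.Algebra.Order.BigOperators.Group.List
import Mathlib.Algebra.Order.BigOperators.Group.Finset
import Mathlib.GroupTheory.GroupAction.Defs
import Pool.Agent.Work.MP_3d425c_gt.Assembly
import Pool.Agent.Work.MP_3d425c_gt.AAInd

/-! Properties D1 and D2 for the built diagrams, and the conclusion. -/

namespace Pool.Agent.Work.MP_3d425c_gt

section Ident

variable {O : Type} [Group O] {u f v g a b : O}

theorem id_comm (iuf : Iv u f) (ivf : Iv v f) (ivg : Iv v g) (iug : Iv u g) :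
    Commute (v * f⁻¹ * (u * g⁻¹)) (u * v⁻¹) :=
  show v * f⁻¹ * (u * g⁻¹) * (u * v⁻¹) = u * v⁻¹ * (v * f⁻¹ * (u * g⁻¹)) from
    Eq.trans (by group) (cj iug (v * f⁻¹) (cj' iuf (v * f⁻¹ * g * v⁻¹ * g * u⁻¹)
      (cj' ivg (v * f⁻¹) (cj ivf 1 rfl))))

theorem id_z (iuf : Iv u f) (ivf : Iv v f) (ivg : Iv v g) (iug : Iv u g) :
    u * f⁻¹ * u * g⁻¹ * v * u⁻¹ = v * f⁻¹ * (u * g⁻¹) :=
  Eq.trans (by group) (cj iuf 1 (cj' iug (f * g⁻¹ * v * u⁻¹) (cj ivg (f * g⁻¹) (cj' ivf 1 rfl))))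

theorem id_fg (iug : Iv u g) : f⁻¹ * g = v⁻¹ * (v * f⁻¹ * (u * g⁻¹)) * u :=
  Eq.trans (by group) (cj' iug (f⁻¹) rfl)

theorem id_fg' (ivf : Iv v f) (ivg : Iv v g) (iug : Iv u g) :
    f * g⁻¹ = v * f⁻¹ * (u * g⁻¹) * (u * v⁻¹) :=
  Eq.trans (by group) (cj' iug (f * g⁻¹ * v * u⁻¹) (cj ivg (f * g⁻¹) (cj' ivf 1 rfl)))

theorem id_r (d : Dn a f b g) (ibf : Iv b f) : b * a⁻¹ = f * g⁻¹ :=
  Eq.trans (by group) (cj' d (b * a⁻¹) (cj ibf 1 rfl))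

theorem id_l (d : Dn a f b g) (iaf : Iv a f) : f⁻¹ * g = a⁻¹ * b :=
  Eq.trans (by group) (cj' d (f⁻¹) (cj iaf (f⁻¹) rfl))

theorem id_w (iaf : Iv a f) : b * a⁻¹ = b * f⁻¹ * (a * f⁻¹) :=
  Eq.trans (by group) (cj' iaf (b * a⁻¹) rfl)

theorem id_g (ibg : Iv b g) : a * f⁻¹ * (b * g⁻¹) = a * f⁻¹ * g * b⁻¹ :=
  Eq.trans (by group) (cj ibg (a * f⁻¹) rfl)

theorem iff_r {H : Subgroup O} (h : b * a⁻¹ ∈ H) : a ∈ H ↔ b ∈ H := by
  rw [← H.mul_mem_cancel_left h, inv_mul_cancel_right]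

theorem iff_l {H : Subgroup O} (h : a⁻¹ * b ∈ H) : a ∈ H ↔ b ∈ H := by
  rw [← H.mul_mem_cancel_right h, mul_inv_cancel_left]

end Ident

namespace Diag

variable {d : Diag}

theorem energy (w : Wf d) {Ω : Type} [LinearOrder Ω] (φ ψ : ℕ → Ω)
    (h : ∀ c ∈ d.cr, (φ c.2.2.1 < φ c.1 ↔ ψ c.2.1 < ψ c.2.2.2) ∧
      (φ c.1 < φ c.2.2.1 ↔ ψ c.2.2.2 < ψ c.2.1)) (huv : φ d.u = φ d.v) :
    ∀ a, a < d.nw → φ a = φ d.u := by
  have key : ∀ t t' : Ω, ∀ c ∈ d.cr, term (fun a => if t < φ a then 1 else 0)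
      (fun j => if t' < ψ j then 1 else 0) c ≤ 0 := by
    intro t t' c hc
    have e := w.en (fun a => if t < φ a then 1 else 0) (fun j => if t' < ψ j then 1 else 0)
    simp only [huv, sub_self, zero_mul] at e
    refine (List.single_le_sum (fun y hy => ?_) _ (List.mem_map_of_mem hc)).trans e.le
    obtain ⟨c, hc, rfl⟩ := List.mem_map.mp hy
    have mono : ∀ s y y' : Ω, y < y' →
        (if s < y then (1 : ℤ) else 0) ≤ if s < y' then 1 else 0 := fun s y y' hy => by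
      by_cases h1 : s < y
      · rw [if_pos h1, if_pos (h1.trans hy)]
      · rw [if_neg h1]; split_ifs <;> simp
    unfold term
    rcases lt_trichotomy (φ c.1) (φ c.2.2.1) with h1 | h1 | h1
    · exact mul_nonneg_of_nonpos_of_nonpos (sub_nonpos.mpr (mono _ _ _ h1))
        (sub_nonpos.mpr (mono _ _ _ ((h c hc).2.mp h1)))
    · simp [h1]
    · exact mul_nonneg (sub_nonneg.mpr (mono _ _ _ h1))
        (sub_nonneg.mpr (mono _ _ _ ((h c hc).1.mp h1)))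
  intro a ha
  refine (w.cw (fun a => φ a = φ d.u) (by simp [huv]) (fun c hc => ?_) a ha).mpr rfl
  rcases lt_trichotomy (φ c.1) (φ c.2.2.1) with h1 | h1 | h1
  · have := key (φ c.1) (ψ c.2.2.2) c hc
    simp [term, h1, (h c hc).2.mp h1] at this
  · simp only [h1]
  · have := key (φ c.2.2.1) (ψ c.2.1) c hc
    simp [term, h1, (h c hc).1.mp h1] at this

section Grp

variable {O : Type} [Group O] {W B : ℕ → O}

/-- the relations hold, and `A` is the set of pairs of adjacent regions -/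
structure Rep (d : Diag) (W B : ℕ → O) (E : Subgroup O) (A : ℕ → ℕ → Prop) : Prop where
  one : W d.u = 1
  dn : ∀ c ∈ d.cr, Dn (W c.1) (B c.2.1) (W c.2.2.1) (B c.2.2.2)
  iv : ∀ a j, A a j → Iv (W a) (B j)
  lt : ∀ a j, A a j → a < d.nw ∧ j < d.nb
  cr : ∀ c ∈ (d.u, d.f, d.v, d.g) :: d.cr,
    A c.1 c.2.1 ∧ A c.2.2.1 c.2.1 ∧ A c.2.2.1 c.2.2.2 ∧ A c.1 c.2.2.2
  mem : ∀ a j a' j', A a j → A a' j' → W a * (B j)⁻¹ * (W a' * (B j')⁻¹) ∈ E
  gen : ∀ H : Subgroup O,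
    (∀ a j a' j', A a j → A a' j' → W a * (B j)⁻¹ * (W a' * (B j')⁻¹) ∈ H) → E ≤ H

variable {E : Subgroup O} {A : ℕ → ℕ → Prop}

theorem Rep.e (H : Rep d W B E A) : A d.u d.f ∧ A d.v d.f ∧ A d.v d.g ∧ A d.u d.g :=
  H.cr _ List.mem_cons_self

theorem Rep.ex (H : Rep d W B E A) {c : ℕ × ℕ × ℕ × ℕ} (hc : c ∈ d.cr) : Ex W B c := by
  have := H.cr c (List.mem_cons_of_mem _ hc)
  exact ⟨H.dn c hc, H.iv _ _ this.1, H.iv _ _ this.2.1, H.iv _ _ this.2.2.1, H.iv _ _ this.2.2.2⟩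

theorem Rep.ww (H : Rep d W B E A) {c : ℕ × ℕ × ℕ × ℕ} (hc : c ∈ (d.u, d.f, d.v, d.g) :: d.cr) :
    W c.2.2.1 * (W c.1)⁻¹ ∈ E := by
  have := H.cr c hc
  rw [id_w (H.iv _ _ this.1)]
  exact H.mem _ _ _ _ this.2.1 this.1

theorem Rep.w (w : Wf d) (H : Rep d W B E A) {a : ℕ} (ha : a < d.nw) : W a ∈ E :=
  (w.cw (fun a => W a ∈ E) (iff_r (H.ww List.mem_cons_self))
    (fun _ hc => iff_r (H.ww (List.mem_cons_of_mem _ hc))) a ha).mpr (H.one ▸ E.one_mem)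

theorem Rep.mu (H : Rep d W B E A) : W d.v * (B d.f)⁻¹ * (W d.u * (B d.g)⁻¹) ∈ E :=
  H.mem _ _ _ _ H.e.2.1 H.e.2.2.2

theorem Rep.m (w : Wf d) (H : Rep d W B E A) : W d.u * (W d.v)⁻¹ ∈ E :=
  E.mul_mem (H.w w w.bu) (E.inv_mem (H.w w w.bv))

theorem Rep.b (w : Wf d) (H : Rep d W B E A) {j : ℕ} (hj : j < d.nb) : B j * (B d.f)⁻¹ ∈ E := by
  have aux : ∀ i j, B i * (B j)⁻¹ ∈ E → (B i * (B d.f)⁻¹ ∈ E ↔ B j * (B d.f)⁻¹ ∈ E) :=
    fun i j h => (iff_r (by simpa [mul_assoc] using h)).symm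
  refine (w.cb (fun j => B j * (B d.f)⁻¹ ∈ E) (aux _ _ ?_) (fun c hc => aux _ _ ?_) j hj).mpr
    (by simp)
  · rw [id_fg' (H.iv _ _ H.e.2.1) (H.iv _ _ H.e.2.2.1) (H.iv _ _ H.e.2.2.2)]
    exact E.mul_mem H.mu (H.m w)
  · rw [← id_r (H.ex hc).1 (H.ex hc).2.2.1]
    exact H.ww (List.mem_cons_of_mem _ hc)

theorem Rep.d1 (w : Wf d) (H : Rep d W B E A) : D1 E ⟨_, H.mu⟩ ⟨_, H.m w⟩ := by
  classical
  intro Ω _ ρ hρ s h1 h2
  let St : Subgroup O := ((MulAction.stabilizer (Equiv.Perm Ω) s).comap ρ).map E.subtype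
  have hin : ∀ x : E, ρ x s = s ↔ (x : O) ∈ St := fun x =>
    (Subgroup.mem_map_iff_mem (K := (MulAction.stabilizer (Equiv.Perm Ω) s).comap ρ)
      E.subtype_injective (x := x)).symm
  let X : ℕ → E := fun a => if h : a < d.nw then ⟨W a, H.w w h⟩ else 1
  let Y : ℕ → E := fun j => if h : j < d.nb then ⟨B j * (B d.f)⁻¹, H.b w h⟩ else 1
  have hX : ∀ a, a < d.nw → (X a : O) = W a := fun a h => by simp only [X, dif_pos h]
  have hY : ∀ j, j < d.nb → (Y j : O) = B j * (B d.f)⁻¹ := fun a h => by simp only [Y, dif_pos h]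
  have cmp : ∀ x y : E, ρ x⁻¹ s < ρ y⁻¹ s ↔ s < ρ (x * y⁻¹) s := fun x y => by
    rw [← (hρ x).lt_iff_lt, act_act_inv, act_mul]
  have hw := energy w (fun a => ρ (X a)⁻¹ s) (fun j => ρ (Y j)⁻¹ s) (fun c hc => by
      have b := w.bc c hc
      have e : X c.2.2.1 * (X c.1)⁻¹ = Y c.2.1 * (Y c.2.2.2)⁻¹ := Subtype.ext (by
        push_cast
        rw [hX _ b.1, hX _ b.2.2.1, hY _ b.2.1, hY _ b.2.2.2, id_r (H.ex hc).1 (H.ex hc).2.2.1]
        group)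
      have e' : X c.1 * (X c.2.2.1)⁻¹ = Y c.2.2.2 * (Y c.2.1)⁻¹ := by
        simpa using congrArg (·⁻¹) e
      simp only [cmp, e, e', and_self]) (by
      have e : (⟨_, H.m w⟩ : E) = X d.u * (X d.v)⁻¹ := Subtype.ext (by
        push_cast
        rw [hX _ w.bu, hX _ w.bv])
      rw [e, act_mul] at h2
      conv_lhs => rw [← h2]
      exact act_inv_act _ _ _)
  have sw : ∀ a, a < d.nw → W a ∈ St := fun a ha => by
    have e : X d.u = 1 := Subtype.ext (by rw [hX _ w.bu, H.one]; rfl)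
    have := hw a ha
    simp only [e, inv_one, act_one] at this
    have := St.inv_mem ((hin _).mp this)
    simpa [hX a ha] using this
  have sb : ∀ j, j < d.nb → (B d.f)⁻¹ * B j ∈ St := fun j hj => by
    have aux : ∀ i j, (B i)⁻¹ * B j ∈ St → ((B d.f)⁻¹ * B i ∈ St ↔ (B d.f)⁻¹ * B j ∈ St) :=
      fun i j h => iff_l (by simpa [mul_assoc] using h)
    refine (w.cb (fun j => (B d.f)⁻¹ * B j ∈ St) (aux _ _ ?_) (fun c hc => aux _ _ ?_) j hj).mpr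
      (by simp)
    · rw [id_fg (v := W d.v) (H.iv _ _ H.e.2.2.2)]
      exact St.mul_mem (St.mul_mem (St.inv_mem (sw _ w.bv)) ((hin _).mp h1)) (sw _ w.bu)
    · rw [id_l (H.ex hc).1 (H.ex hc).2.1]
      exact St.mul_mem (St.inv_mem (sw _ (w.bc c hc).1)) (sw _ (w.bc c hc).2.2.1)
  intro g
  refine (hin g).mpr (H.gen St (fun a j a' j' h h' => ?_) g.2)
  have := St.mul_mem (St.mul_mem (St.mul_mem (sw _ (H.lt _ _ h).1)
    (St.inv_mem (sb _ (H.lt _ _ h).2))) (sb _ (H.lt _ _ h').2)) (St.inv_mem (sw _ (H.lt _ _ h').1))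
  rw [id_g (H.iv _ _ h')]
  convert this using 1
  group

theorem Rep.d2 (hd : Built d) (hs : ∃ i, 3 ≤ d.sigma i) (H : Rep d W B E A) :
    D2 E ⟨_, H.mu⟩ ⟨_, H.m hd.wf⟩ ((∑ i ∈ Finset.range d.nw, d.sigma i).toNat + 1) := by
  intro _ _ _ h1 h2
  have w := hd.wf
  by_contra h3
  let C : Cone O :=
    { E := E
      P := fun x => ∃ h : x ∈ E, (1 : E) ≤ ⟨x, h⟩
      one := ⟨E.one_mem, le_rfl⟩
      mul := fun ⟨h, k⟩ ⟨h', k'⟩ => ⟨E.mul_mem h h', one_le_mul k k'⟩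
      ev := fun ⟨h, _⟩ => h
      cev := fun {a h} ⟨ha, k⟩ hh => ⟨E.mul_mem (E.mul_mem hh ha) (E.inv_mem hh), by
        have := mul_le_mul_left (mul_le_mul_right k ⟨h, hh⟩) (⟨h, hh⟩ : E)⁻¹
        rwa [mul_one, mul_inv_cancel] at this⟩ }
  have hle : ∀ x y : E, C.le x y ↔ x ≤ y := fun x y =>
    ⟨fun ⟨_, _, k⟩ => le_inv_mul_iff_le.mp k, fun k => ⟨x.2, (x⁻¹ * y).2, le_inv_mul_iff_le.mpr k⟩⟩
  let W' : ℕ → O := fun a => if a < d.nw then W a else 1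
  have hW : ∀ a, a < d.nw → W' a = W a := fun a h => if_pos h
  have e := H.e
  have iuf := H.iv _ _ e.1
  have ivf := H.iv _ _ e.2.1
  have ivg := H.iv _ _ e.2.2.1
  have iug := H.iv _ _ e.2.2.2
  obtain ⟨kA, kB, km, -, -, e3, t⟩ := hd.bot.1 d.u d.f d.v d.g (Or.inr ⟨rfl, rfl⟩)
    (Or.inr ⟨rfl, rfl⟩) O C W' B
    (fun a => by
      by_cases h : a < d.nw
      · rw [hW a h]; exact H.w w h
      · rw [show W' a = 1 from if_neg h]; exact E.one_mem)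
    (fun c hc => Or.inl (by
      unfold Ex
      rw [hW _ (w.bc c hc).1, hW _ (w.bc c hc).2.2.1]
      exact H.ex hc))
    (by rw [hW _ w.bu, hW _ w.bv]; exact ⟨iuf, ivf, ivg, ivg, ivg, iug, iuf, iuf⟩)
  rw [hW _ w.bu, hW _ w.bv] at t
  have hk : (∑ i ∈ Finset.range d.nw, d.sigma i).toNat = km := by
    simp only [sigma, Finset.sum_sub_distrib]
    rw [show ∑ i ∈ Finset.range d.nw, d.z d.v i - ∑ i ∈ Finset.range d.nw, d.z d.u i = km from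
      e3.symm, Int.toNat_natCast]
  rw [hk] at h2
  have t' := Cone.Good.of_eq t rfl rfl rfl (show _ = 1 from (mul_assoc _ _ _).trans iuf)
    (id_z iuf ivf ivg iug) (show _ = 1 from (mul_assoc _ _ _).trans ivg)
  have p1 := (hle _ _).mpr h1
  obtain ⟨i, hi⟩ := hs
  have := (t' Cone.refl1 p1 Cone.refl1).2 0 1 0 (Cone.Bun.nil _ _)
    ⟨[_], rfl, List.prod_singleton, fun x hx => by
      rw [List.mem_singleton.mp hx]
      exact ⟨⟨p1, fun h => h3 ((hle _ 1).mp h)⟩, (hle _ _).mpr h2⟩⟩ (Cone.Bun.nil _ _) i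
  simp only [sigma] at hi
  push_cast at this
  linarith

theorem Rep.main (hd : Built d) (hs : ∃ i, 3 ≤ d.sigma i) (H : Rep d W B E A) {a : ℤ} {b : ℕ}
    (hb : 0 < b) (hab : (d.twoGenus - 1) * b ≤ a)
    (hrel : (W d.v * (B d.f)⁻¹ * (W d.u * (B d.g)⁻¹)) ^ a * (W d.u * (W d.v)⁻¹ *
      (W d.v * (B d.f)⁻¹ * (W d.u * (B d.g)⁻¹)) ^ (-d.slope)) ^ b = 1) :
    ¬ IsLeftOrderable E := by
  have e := H.e
  have hN : (d.slope.toNat : ℤ) = d.slope :=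
    Int.toNat_of_nonneg (Finset.sum_nonneg fun i _ => sq_nonneg _)
  refine not_leftOrderable (c := d.slope.toNat) (u := a) (Subtype.ext ?_) hb (Subtype.ext ?_) ?_
    (H.d1 hd.wf) (@H.d2 _ _ _ _ _ _ _ hd hs)
  · exact id_comm (H.iv _ _ e.1) (H.iv _ _ e.2.1) (H.iv _ _ e.2.2.1) (H.iv _ _ e.2.2.2)
  · rw [← hN, zpow_neg, zpow_natCast] at hrel
    push_cast
    exact hrel
  · refine le_trans (mul_le_mul_of_nonneg_right ?_ (Int.natCast_nonneg b)) hab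
    have h1 := Int.self_le_toNat (∑ i ∈ Finset.range d.nw, d.sigma i)
    have h2 : d.twoGenus = d.slope - ∑ i ∈ Finset.range d.nw, d.sigma i := by
      simp only [twoGenus, slope, ← Finset.sum_sub_distrib]
      exact Finset.sum_congr rfl fun i _ => by ring
    push_cast
    linarith

end Grp

end Diag

end Pool.Agent.Work.MP_3d425c_gt
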