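import Mathlib

/-! Trees given by a direction function, and the counting function on them. -/

namespace Pool.Agent.Work.MP_3d425c_gt.Bor
open Classical

/-- An invariant counting function with small defect gives an action on a linear order. -/
theorem order_of_count {Γ : Type} [Group Γ] (W : Γ → Γ → ℤ)
    (inv : ∀ x g h, W (x * g) (x * h) = W g h) (anti : ∀ g h, W h g = -W g h)
    (defect : ∀ g h m, W g h + W h m + W m g ≤ 1)
    (zero : ∀ g h, W g h = 0 → ∀ x, W g x = W h x) :
    ∃ (Ω : Type) (_ : LinearOrder Ω) (ρ : Γ →* (Ω ≃o Ω)),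
      ∀ g, ρ g = 1 ↔ ∀ h, W h (g * h) = 0 := by
  have self : ∀ g, W g g = 0 := fun g => by have := anti g g; omega
  let s : Setoid Γ := ⟨fun g h => W g h = 0, self, fun {g h} e => by rw [anti, e, neg_zero],
    fun {g h m} e e' => by rw [zero g h e, e']⟩
  have wd : ∀ g h g' h', W g g' = 0 → W h h' = 0 → W g h = W g' h' := fun g h g' h' e e' => by
    rw [zero g g' e, anti h g', zero h h' e', ← anti]
  let lt : Quotient s → Quotient s → Prop :=
    Quotient.lift₂ (fun g h => 0 < W g h) fun g h g' h' e e' => by rw [wd g h g' h' e e']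
  haveI : IsStrictTotalOrder (Quotient s) lt :=
    { trichotomous := fun a b => Quotient.inductionOn₂ a b fun g h h1 h2 => Quotient.sound (by
        have h1' : ¬ 0 < W g h := h1
        have h2' : ¬ 0 < W h g := h2
        have := anti g h
        show W g h = 0
        omega)
      irrefl := fun a => Quotient.inductionOn a fun g h => by
        have h' : 0 < W g g := h
        rw [self] at h'
        exact lt_irrefl _ h'
      trans := fun a b c => Quotient.inductionOn₃ a b c fun g h m h1 h2 => by
        have h1' : 0 < W g h := h1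
        have h2' : 0 < W h m := h2
        have := defect g h m
        have := anti g m
        show 0 < W g m
        omega }
  letI : LinearOrder (Quotient s) := linearOrderOfSTO lt
  let act : Γ → Quotient s → Quotient s := fun x =>
    Quotient.map (fun g => x * g) fun g h (e : W g h = 0) => (inv x g h).trans e
  have act_mul : ∀ x y a, act (x * y) a = act x (act y a) := fun x y a =>
    Quotient.inductionOn a fun g => congrArg (Quotient.mk s) (mul_assoc x y g)
  have act_one : ∀ a, act 1 a = a := fun a =>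
    Quotient.inductionOn a fun g => congrArg (Quotient.mk s) (one_mul g)
  have mono : ∀ x, StrictMono (act x) := fun x a b =>
    Quotient.inductionOn₂ a b fun g h (e : 0 < W g h) => (show 0 < W (x * g) (x * h) by
      rw [inv]; exact e)
  let iso : Γ → Quotient s ≃o Quotient s := fun x => (mono x).orderIsoOfRightInverse _ (act x⁻¹)
    fun a => by rw [← act_mul, mul_inv_cancel, act_one]
  refine ⟨Quotient s, inferInstance, MonoidHom.mk' iso fun x y => ?_, fun g => ⟨fun e h => ?_,
    fun e => ?_⟩⟩
  · ext a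
    exact act_mul x y a
  · have : act g (Quotient.mk s h) = Quotient.mk s h := DFunLike.congr_fun e (Quotient.mk s h)
    exact Quotient.exact this.symm
  · ext a
    exact Quotient.inductionOn a fun h => (Quotient.sound (e h)).symm

/-- Sum of floor and ceiling of `x / L`. -/
def rr (L x : ℤ) : ℤ := x / L - (-x) / L

theorem rr_neg (L x : ℤ) : rr L (-x) = -rr L x := by simp [rr]

theorem rr_zero (L : ℤ) : rr L 0 = 0 := by simp [rr]

theorem rr_add_mul {L : ℤ} (hL : 0 < L) (x k : ℤ) : rr L (x + L * k) = rr L x + 2 * k := by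
  unfold rr
  rw [Int.add_mul_ediv_left _ _ hL.ne', show -(x + L * k) = -x + L * (-k) by ring,
    Int.add_mul_ediv_left _ _ hL.ne']
  ring

theorem rr_of_mem {L x : ℤ} (h0 : 0 < x) (h1 : x < L) : rr L x = 1 := by
  unfold rr
  have h2 : x / L = 0 := Int.ediv_eq_zero_of_lt h0.le h1
  have h3 : (-x) / L = -1 := by
    have := Int.add_mul_ediv_left (L - x) (-1) (show L ≠ 0 by omega)
    have h4 : (L - x) / L = 0 := Int.ediv_eq_zero_of_lt (by omega) (by omega)
    rw [show -x = L - x + L * -1 by ring, this, h4]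
    simp
  rw [h2, h3]
  simp

theorem rr_spec {L : ℤ} (hL : 0 < L) (x : ℤ) :
    rr L x = 2 * (x / L) + if x % L = 0 then 0 else 1 := by
  have h := Int.emod_add_mul_ediv x L
  have h1 := Int.emod_nonneg x hL.ne'
  have h2 := Int.emod_lt_of_pos x hL
  conv_lhs => rw [← h, rr_add_mul hL]
  split_ifs with h0
  · rw [h0, rr_zero]
    ring
  · rw [rr_of_mem (by omega) h2]
    ring

theorem rr_odd {L x : ℤ} (hL : 0 < L) (h : ¬ L ∣ x) : Odd (rr L x) := by
  rw [rr_spec hL, if_neg fun e => h (Int.dvd_of_emod_eq_zero e)]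
  exact odd_two_mul_add_one _

theorem rr_eq_zero {L x : ℤ} (hL : 0 < L) (h : rr L x = 0) : x = 0 := by
  rw [rr_spec hL] at h
  have h1 := Int.emod_add_mul_ediv x L
  split_ifs at h with h0
  · have : x / L = 0 := by omega
    rw [h0, this] at h1
    omega
  · omega

theorem rr_defect {L : ℤ} (hL : 0 < L) {x y z : ℤ} (h : x + y + z = 0) :
    rr L x + rr L y + rr L z ≤ 1 := by
  rw [rr_spec hL, rr_spec hL, rr_spec hL]
  have a1 := Int.emod_add_mul_ediv x L
  have a2 := Int.emod_nonneg x hL.ne'
  have a3 := Int.emod_lt_of_pos x hL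
  have b1 := Int.emod_add_mul_ediv y L
  have b2 := Int.emod_nonneg y hL.ne'
  have b3 := Int.emod_lt_of_pos y hL
  have c1 := Int.emod_add_mul_ediv z L
  have c2 := Int.emod_nonneg z hL.ne'
  have c3 := Int.emod_lt_of_pos z hL
  have key : x % L + y % L + z % L + L * (x / L + y / L + z / L) = 0 := by linarith
  have k1 : x / L + y / L + z / L ≤ 0 := by
    by_contra hn
    have : L * 1 ≤ L * (x / L + y / L + z / L) := mul_le_mul_of_nonneg_left (by omega) hL.le
    omega
  rcases k1.eq_or_lt with k2 | k2
  · rw [k2] at key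
    rw [if_pos (by omega), if_pos (by omega), if_pos (by omega)]
    omega
  · split_ifs <;> omega

section tree
variable {V : Type} (dir : V → V → ℤ)

/-- The tree property. -/
def T1 : Prop := ∀ a v b, a ≠ v → b ≠ v → dir v a ≠ dir v b → dir a b = dir a v

/-- `u` lies strictly between `a` and `b`. -/
def Btw (a u b : V) : Prop := a ≠ u ∧ b ≠ u ∧ dir u a ≠ dir u b

/-- A straight segment. -/
def Str (a b : V) : Prop :=
  a ≠ b ∧ Odd (dir a b + dir b a) ∧ ∀ u, a ≠ u → b ≠ u → |dir u b - dir u a| ≤ 1

/-- A geodesic made of finitely many straight segments. -/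
inductive Geo (a : V) : V → Prop
  | base {b : V} : Str dir a b → Geo a b
  | step {w b : V} : Geo a w → Str dir w b → Btw dir a w b → Geo a b

variable {dir}

theorem Btw.symm {a u b : V} (h : Btw dir a u b) : Btw dir b u a := ⟨h.2.1, h.1, h.2.2.symm⟩

theorem Btw.ne {a u b : V} (h : Btw dir a u b) : a ≠ b := fun e => h.2.2 (by rw [e])

theorem T1.btw (t : T1 dir) {a u b : V} (h : Btw dir a u b) : dir a b = dir a u :=
  t a u b h.1 h.2.1 h.2.2

theorem T1.key (t : T1 dir) {u u' x : V} (h : u' ≠ u) (hx : x = u ∨ dir u x ≠ dir u u') :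
    x ≠ u' ∧ dir u' x = dir u' u := by
  by_cases e : x = u
  · rw [e]
    exact ⟨h.symm, rfl⟩
  · have h1 := hx.resolve_left e
    exact ⟨fun e' => h1 (by rw [e']), t u' u x h e h1.symm⟩

theorem T1.split (t : T1 dir) {a u b : V} (h : Btw dir a u b) {x : V} (hx : x ≠ u) :
    (a ≠ x ∧ dir x a = dir x u) ∨ (b ≠ x ∧ dir x b = dir x u) := by
  by_cases e : dir u a = dir u x
  · exact Or.inr (t.key hx (Or.inr fun e' => h.2.2 (e.trans e'.symm)))
  · exact Or.inl (t.key hx (Or.inr e))

theorem Geo.ne {a b : V} (h : Geo dir a b) : a ≠ b := by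
  cases h with
  | base h => exact h.1
  | step _ _ h => exact h.ne

theorem Geo.finite (t : T1 dir) {a b : V} (h : Geo dir a b) :
    {u | a ≠ u ∧ b ≠ u ∧ ¬ |dir u b - dir u a| ≤ 1}.Finite := by
  induction h with
  | base h => exact Set.Finite.subset Set.finite_empty fun u hu => hu.2.2 (h.2.2 u hu.1 hu.2.1)
  | @step w b _ h2 h3 ih =>
    refine (ih.insert w).subset fun u hu => ?_
    by_cases e : u = w
    · exact Or.inl e
    · rcases t.split h3 e with h | h
      · exact absurd (h.2 ▸ h2.2.2 u (Ne.symm e) hu.2.1) hu.2.2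
      · exact Or.inr ⟨hu.1, Ne.symm e, h.2 ▸ hu.2.2⟩

end tree

end Pool.Agent.Work.MP_3d425c_gt.Bor
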