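import Mathlib
import Pool.Agent.Work.MP_3d425c_gt.Assembly
import Pool.Agent.Work.MP_3d425c_gt.BorQ1

-- merged part: Pool.Agent.Work.MP_3d425c_gt.BorDefs
section
/-! Surgeries on the Borromean rings: shared definitions. -/

namespace Pool.Agent.Work.MP_3d425c_gt.Bor

variable {H : Type} [Group H]

/-- The meridian `m` and the longitude `l` commute and the slope `p / q` is killed. -/
def Fill (m l : H) (p q : ℤ) : Prop := m * l = l * m ∧ m ^ p * l ^ q = 1

/-- The surgery relations in the working coordinates. -/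
def XYZ (x y z : H) (p₁ q₁ p₂ q₂ p₃ q₃ : ℤ) : Prop :=
  Fill x (z * y⁻¹ * z⁻¹ * y) p₁ q₁ ∧ Fill y (z⁻¹ * x⁻¹ * z * x) p₂ q₂ ∧
    Fill z (x * y * x⁻¹ * y⁻¹) p₃ q₃

/-- The surgery relations written with the cores `α`, `β` of the first two filling tori. -/
def Core (α β T : H) (p₁ q₁ p₂ q₂ p₃ q₃ : ℤ) : Prop :=
  T * β ^ q₂ = β ^ q₂ * α ^ p₁ * T ∧ T * (α ^ q₁ * β ^ p₂) = α ^ q₁ * T ∧
    T ^ p₃ * (α ^ q₁ * β ^ q₂ * (α ^ q₁)⁻¹ * (β ^ q₂)⁻¹) ^ q₃ = 1

end Pool.Agent.Work.MP_3d425c_gt.Bor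
end

-- merged part: Pool.Agent.Work.MP_3d425c_gt.BorNlo
section
namespace Pool.Agent.Work.MP_3d425c_gt.Bor

section Aux

variable {G : Type} [Group G]

/-- `m` and `M` are powers of one element, with exponents `1 ≤ q ≤ p`. -/
def BorNloRoot (m M : G) : Prop := ∃ (ξ : G) (p q : ℕ), 1 ≤ q ∧ q ≤ p ∧ ξ ^ q = m ∧ ξ ^ p = M

/-- The three root conditions. -/
def BorNloRel (x y z : G) : Prop :=
  BorNloRoot x (y⁻¹ * z * y * z⁻¹) ∧ BorNloRoot y (x⁻¹ * z⁻¹ * x * z) ∧
    BorNloRoot z (y * x * y⁻¹ * x⁻¹)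

theorem borNlo_root_of_fill {m l : G} {p q : ℤ} (h : Fill m l p q) (hq : 0 < q)
    (c : IsCoprime p q) (hpq : q ≤ p) : BorNloRoot m l⁻¹ := by
  obtain ⟨a, b, hab⟩ := c
  have hc : Commute m l := h.1
  have h1 : l ^ q = m ^ (-p) := by
    rw [zpow_neg]; exact (eq_inv_of_mul_eq_one_right h.2)
  have h2 : m ^ p = l ^ (-q) := by
    rw [zpow_neg]; exact (eq_inv_of_mul_eq_one_left h.2)
  refine ⟨m ^ b * l ^ (-a), p.toNat, q.toNat, by omega, by omega, ?_, ?_⟩
  · rw [← zpow_natCast, Int.toNat_of_nonneg hq.le, (hc.zpow_zpow _ _).mul_zpow, ← zpow_mul,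
      ← zpow_mul, mul_comm (-a) q, zpow_mul l q, h1, ← zpow_mul, ← zpow_add]
    rw [show b * q + -p * -a = 1 by linarith, zpow_one]
  · rw [← zpow_natCast, Int.toNat_of_nonneg (by omega), (hc.zpow_zpow _ _).mul_zpow, ← zpow_mul,
      ← zpow_mul, mul_comm b p, zpow_mul m p, h2, ← zpow_mul, ← zpow_add]
    rw [show -q * b + -a * p = -1 by linarith, zpow_neg_one]

theorem BorNloRoot.inv {m M : G} (h : BorNloRoot m M) : BorNloRoot m⁻¹ M⁻¹ := by
  obtain ⟨ξ, p, q, h1, h2, rfl, rfl⟩ := h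
  exact ⟨ξ⁻¹, p, q, h1, h2, inv_pow _ _, inv_pow _ _⟩

theorem BorNloRoot.conj {m M : G} (h : BorNloRoot m M) (g : G) :
    BorNloRoot (g⁻¹ * m * g) (g⁻¹ * M * g) := by
  obtain ⟨ξ, p, q, h1, h2, rfl, rfl⟩ := h
  refine ⟨g⁻¹ * ξ * g, p, q, h1, h2, ?_, ?_⟩
  · simpa using conj_pow (a := g⁻¹) (b := ξ) (i := q)
  · simpa using conj_pow (a := g⁻¹) (b := ξ) (i := p)

theorem BorNloRoot.comm {m M : G} (h : BorNloRoot m M) : m * M = M * m := by
  obtain ⟨ξ, p, q, -, -, rfl, rfl⟩ := h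
  exact (Commute.pow_pow_self ξ q p).eq

theorem BorNloRel.cyc {x y z : G} (h : BorNloRel x y z) : BorNloRel y⁻¹ z x⁻¹ := by
  refine ⟨?_, ?_, ?_⟩
  · convert h.2.1.inv using 1; group
  · convert h.2.2 using 1; group
  · convert h.1.inv using 1; group

theorem BorNloRel.iota {x y z : G} (h : BorNloRel x y z) :
    BorNloRel x⁻¹ y⁻¹ ((y * x)⁻¹ * z * (y * x)) := by
  obtain ⟨X, hX⟩ : ∃ X, X = y⁻¹ * z * y * z⁻¹ := ⟨_, rfl⟩
  obtain ⟨Y, hY⟩ : ∃ Y, Y = x⁻¹ * z⁻¹ * x * z := ⟨_, rfl⟩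
  have c1 : x * X = X * x := hX ▸ h.1.comm
  have c2 : y * Y = Y * y := hY ▸ h.2.1.comm
  have e : (y * x)⁻¹ * z * (y * x) = X * z * Y⁻¹ := by
    calc (y * x)⁻¹ * z * (y * x) = x⁻¹ * (X * x) * (x⁻¹ * z * x) := by rw [hX]; group
      _ = X * z * Y⁻¹ := by rw [← c1, hY]; group
  refine ⟨?_, ?_, ?_⟩
  · convert h.1.inv using 1
    rw [e, ← hX]
    calc y⁻¹⁻¹ * (X * z * Y⁻¹) * y⁻¹ * (X * z * Y⁻¹)⁻¹
        = y * X * z * (y * Y)⁻¹ * Y * z⁻¹ * X⁻¹ := by group
      _ = y * X * (z * y⁻¹ * z⁻¹) * X⁻¹ := by rw [c2]; group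
      _ = X⁻¹ := by rw [hX]; group
  · convert h.2.1.inv using 1
    rw [e, ← hY]
    calc x⁻¹⁻¹ * (X * z * Y⁻¹)⁻¹ * x⁻¹ * (X * z * Y⁻¹)
        = x * Y * z⁻¹ * (x * X)⁻¹ * X * z * Y⁻¹ := by group
      _ = x * Y * (z⁻¹ * x⁻¹ * z) * Y⁻¹ := by rw [c1]; group
      _ = Y⁻¹ := by rw [hY]; group
  · convert h.2.2.conj (y * x) using 1; group

variable {Ω : Type} [LinearOrder Ω] (ρ : G →* Equiv.Perm Ω) (hρ : ∀ g, StrictMono (ρ g))
include hρ

theorem BorNloRoot.up {m M : G} (h : BorNloRoot m M) {s : Ω} (hs : s ≤ ρ m s) :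
    ρ m s ≤ ρ M s := by
  obtain ⟨ξ, p, q, h1, h2, rfl, rfl⟩ := h
  have h3 : s ≤ ρ ξ s := by
    by_contra h4
    exact absurd hs (not_le.2 (sdown_pow ρ hρ (not_le.1 h4) h1))
  obtain ⟨k, rfl⟩ := Nat.exists_eq_add_of_le h2
  rw [pow_add, act_mul]
  exact (hρ _).monotone (up_pow ρ hρ h3 k)

theorem BorNloRoot.down {m M : G} (h : BorNloRoot m M) {s : Ω} (hs : ρ m s ≤ s) :
    ρ M s ≤ ρ m s :=
  BorNloRoot.up (Ω := Ωᵒᵈ) ρ (fun g => (hρ g).dual) h hs

theorem borNlo_side {m M z : G} (h : BorNloRoot m M) {s c : Ω} (hz : ρ z s = s)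
    (hc : ρ z c = ρ M c) (hs : s < c) : s < ρ m c := by
  rcases le_total c (ρ m c) with h1 | h1
  · exact hs.trans_le h1
  · refine lt_of_lt_of_le ?_ (h.down ρ hρ h1)
    rw [← hc, ← hz]
    exact hρ z hs

theorem borNlo_side_eq {m M z : G} (h : BorNloRoot m M) {s : Ω} (hz : ρ z s = s)
    (hc : ρ z s = ρ M s) : ρ m s = s := by
  rcases le_total s (ρ m s) with h1 | h1
  · exact le_antisymm ((h.up ρ hρ h1).trans_eq (hc.symm.trans hz)) h1
  · exact le_antisymm h1 ((hc.symm.trans hz).symm.le.trans (h.down ρ hρ h1))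

theorem borNlo_data {x y z : G} (h : BorNloRel x y z) {s : Ω} (hz : ρ z s = s) :
    ρ x⁻¹ (ρ y⁻¹ s) = ρ y⁻¹ (ρ x⁻¹ s) ∧
      ρ z (ρ y⁻¹ s) = ρ (y⁻¹ * z * y * z⁻¹)⁻¹ (ρ y⁻¹ s) ∧
      ρ z⁻¹ (ρ x⁻¹ s) = ρ (x⁻¹ * z⁻¹ * x * z)⁻¹ (ρ x⁻¹ s) := by
  have hZ : ρ (y * x * y⁻¹ * x⁻¹) s = s :=
    le_antisymm ((h.2.2.down ρ hρ hz.le).trans hz.le) (hz.ge.trans (h.2.2.up ρ hρ hz.ge))
  refine ⟨?_, ?_, ?_⟩
  · conv_lhs => rw [← hZ]
    simp only [← act_mul]
    congr 2
    group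
  · conv_lhs => rw [← fix_inv ρ hz]
    simp only [← act_mul]
    congr 2
    group
  · conv_lhs => rw [← hz]
    simp only [← act_mul]
    congr 2
    group

theorem borNlo_half {x y z : G} (h : BorNloRel x y z) {s : Ω} (hz : ρ z s = s)
    (hc : s < ρ y⁻¹ s) (hd : s < ρ x⁻¹ s) : False := by
  obtain ⟨e1, e2, e3⟩ := borNlo_data ρ hρ h hz
  have r1 := h.1.inv
  have r2 := h.2.1.inv
  rcases le_total (ρ x⁻¹ (ρ y⁻¹ s)) (ρ z (ρ x⁻¹ (ρ y⁻¹ s))) with h1 | h1
  · have h2 : ρ x⁻¹ (ρ y⁻¹ s) ≤ ρ x⁻¹ s := by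
      by_contra h3
      have h4 := not_le.1 h3
      have h5 := r2.up ρ hρ (s := ρ x⁻¹ s) (e1 ▸ h4.le)
      rw [← e3, ← e1] at h5
      have h6 := (hρ z).monotone h5
      rw [act_act_inv] at h6
      exact absurd (h1.trans h6) h3
    exact absurd ((hρ _).le_iff_le.1 h2) (not_le.2 hc)
  · have h2 : ρ x⁻¹ (ρ y⁻¹ s) ≤ ρ y⁻¹ s := by
      by_contra h3
      have h4 := not_le.1 h3
      have h5 := r1.up ρ hρ h4.le
      rw [← e2] at h5
      exact absurd (h5.trans_lt (hρ z h4)) (not_lt.2 h1)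
    rw [e1] at h2
    exact absurd ((hρ _).le_iff_le.1 h2) (not_le.2 hd)

theorem borNlo_half' {x y z : G} (h : BorNloRel x y z) {s : Ω} (hz : ρ z s = s) :
    ρ y⁻¹ s ≤ s ∧ ρ x⁻¹ s ≤ s := by
  obtain ⟨e1, e2, e3⟩ := borNlo_data ρ hρ h hz
  have r1 := h.1.inv
  have r2 := h.2.1.inv
  have hz' := fix_inv ρ hz
  constructor
  · by_contra h1
    have hc := not_le.1 h1
    have hw := borNlo_side ρ hρ r1 hz e2 hc
    refine borNlo_half ρ hρ h hz hc ?_
    rcases lt_trichotomy s (ρ x⁻¹ s) with h2 | h2 | h2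
    · exact h2
    · rw [← h2] at e3
      have h3 := borNlo_side_eq ρ hρ r2 hz' e3
      exact absurd h3 hc.ne'
    · have h3 := borNlo_side (Ω := Ωᵒᵈ) ρ (fun g => (hρ g).dual) r2 hz' e3 h2
      rw [e1] at hw
      exact absurd hw (not_lt.2 (le_of_lt h3))
  · by_contra h1
    have hd := not_le.1 h1
    have hw := borNlo_side ρ hρ r2 hz' e3 hd
    refine borNlo_half ρ hρ h hz ?_ hd
    rcases lt_trichotomy s (ρ y⁻¹ s) with h2 | h2 | h2
    · exact h2
    · rw [← h2] at e2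
      have h3 := borNlo_side_eq ρ hρ r1 hz e2
      exact absurd h3 hd.ne'
    · have h3 := borNlo_side (Ω := Ωᵒᵈ) ρ (fun g => (hρ g).dual) r1 hz e2 h2
      rw [← e1] at hw
      exact absurd hw (not_lt.2 (le_of_lt h3))

theorem borNlo_d1 {x y z : G} (h : BorNloRel x y z) {s : Ω} (hz : ρ z s = s) :
    ρ x s = s ∧ ρ y s = s := by
  obtain ⟨h1, h2⟩ := borNlo_half' ρ hρ h hz
  obtain ⟨h3, h4⟩ := borNlo_half' (Ω := Ωᵒᵈ) ρ (fun g => (hρ g).dual) h hz
  have h5 := fix_inv ρ (le_antisymm h1 h3)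
  have h6 := fix_inv ρ (le_antisymm h2 h4)
  rw [inv_inv] at h5 h6
  exact ⟨h6, h5⟩

theorem borNlo_conj_up {g m : G} (h : ∀ s, s < ρ m s) (s : Ω) : s < ρ (g⁻¹ * m * g) s := by
  rw [act_mul, act_mul]
  simpa only [act_inv_act] using hρ g⁻¹ (h (ρ g s))

theorem borNlo_d2 {x y z : G} (h : BorNloRel x y z) (hx : ∀ s, s < ρ x s) (hz : ∀ s, s < ρ z s)
    (s : Ω) : False := by
  have h1 : ∀ t, t ≤ ρ (x⁻¹ * (y⁻¹ * z * y * z⁻¹)) t := fun t => by
    rw [act_mul]
    simpa only [act_inv_act] using (hρ x⁻¹).monotone (h.1.up ρ hρ (hx t).le)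
  have h2 : ∀ t, t ≤ ρ (y * x * y⁻¹ * x⁻¹ * z⁻¹) t := fun t => by
    rw [act_mul]
    simpa only [act_act_inv] using h.2.2.up ρ hρ (hz (ρ z⁻¹ t)).le
  have h3 : ∀ t, t ≤ ρ ((y * x)⁻¹ * (y * x * y⁻¹ * x⁻¹ * z⁻¹) * (y * x)) t := fun t => by
    rw [act_mul, act_mul]
    simpa only [act_inv_act] using (hρ (y * x)⁻¹).monotone (h2 (ρ (y * x) t))
  have h4 := (((borNlo_conj_up ρ hρ (g := y) hx s).trans (hz _)).trans_le (h1 _)).trans_le (h3 _)
  simp only [← act_mul] at h4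
  rw [show (y * x)⁻¹ * (y * x * y⁻¹ * x⁻¹ * z⁻¹) * (y * x) *
    (x⁻¹ * (y⁻¹ * z * y * z⁻¹) * (z * (y⁻¹ * x * y))) = 1 by group, act_one] at h4
  exact lt_irrefl _ h4

theorem borNlo_d2' {x y z : G} (h : BorNloRel x y z) (hx : (∀ s, s < ρ x s) ∨ ∀ s, ρ x s < s)
    (hz : ∀ s, s < ρ z s) (s : Ω) : False := by
  rcases hx with hx | hx
  · exact borNlo_d2 ρ hρ h hx hz s
  · refine borNlo_d2 ρ hρ h.iota (fun t => ?_) (borNlo_conj_up ρ hρ hz) s
    simpa only [act_inv_act] using hρ x⁻¹ (hx t)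

end Aux

theorem borNlo_updown {G : Type} [Group G] [LinearOrder G]
    (hρ : ∀ g, StrictMono (MulAction.toPermHom G G g)) {g₀ : G} (hg : g₀ ≠ 1) {μ : G}
    (hfix : ∀ (Ω : Type) [LinearOrder Ω] (σ : G →* Equiv.Perm Ω), (∀ g, StrictMono (σ g)) →
      ∀ s : Ω, σ μ s = s → ∀ g, σ g s = s) :
    (∀ s, s < MulAction.toPermHom G G μ s) ∨ ∀ s, MulAction.toPermHom G G μ s < s := by
  classical
  set ρ := MulAction.toPermHom G G
  have hρe : ∀ g s, ρ g s = g * s := fun _ _ => rfl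
  have hmix : ∀ ν : G, (ν = μ ∨ ν = μ⁻¹) → ∀ a b : G, a < b → a ≤ ρ ν a → ρ ν b ≤ b → False := by
    intro ν hν a b hab ha hb
    obtain ⟨S, haS, hbS, hS⟩ := exists_fixed_lower ρ hρ ν hab ha hb
    have hμ : lowerAct ρ hρ μ S = S := by
      rcases hν with rfl | rfl
      · exact hS
      · have := fix_inv _ hS
        rwa [inv_inv] at this
    have h3 := hfix _ _ (lowerAct_strictMono ρ hρ) S hμ (b * a⁻¹)
    apply hbS
    rw [← h3, mem_lowerAct, hρe]
    simpa using haS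
  by_contra hno
  push Not at hno
  obtain ⟨⟨b, hb⟩, a, ha⟩ := hno
  rcases lt_trichotomy a b with hab | hab | hab
  · exact hmix μ (Or.inl rfl) a b hab ha hb
  · subst hab
    have := hfix G ρ hρ a (le_antisymm hb ha) g₀
    rw [hρe] at this
    exact hg (by simpa using this)
  · refine hmix μ⁻¹ (Or.inr rfl) b a hab ?_ ?_
    · have := (hρ μ⁻¹).monotone hb
      rwa [act_inv_act] at this
    · have := (hρ μ⁻¹).monotone ha
      rwa [act_inv_act] at this

theorem borNlo_main {G : Type} [Group G] [LinearOrder G]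
    (hρ : ∀ g, StrictMono (MulAction.toPermHom G G g)) {x y z : G} (h : BorNloRel x y z)
    (hgen : Subgroup.closure {x, y, z} = ⊤) (g₀ : G) : g₀ = 1 := by
  by_contra hg
  have hall : ∀ (Ω : Type) (σ : G →* Equiv.Perm Ω) (s : Ω), σ x s = s → σ y s = s → σ z s = s →
      ∀ g, σ g s = s := fun Ω σ s hx hy hz g => by
    have hm : g ∈ Subgroup.closure {x, y, z} := hgen ▸ Subgroup.mem_top g
    induction hm using Subgroup.closure_induction with
    | mem a ha =>
      rcases ha with rfl | rfl | rfl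
      exacts [hx, hy, hz]
    | one => exact act_one σ s
    | mul a b _ _ ha hb => exact fix_mul σ ha hb
    | inv a _ ha => exact fix_inv σ ha
  have hz := borNlo_updown hρ hg (μ := z) fun Ω _ σ hσ s hs =>
    hall Ω σ s (borNlo_d1 σ hσ h hs).1 (borNlo_d1 σ hσ h hs).2 hs
  have hx := borNlo_updown hρ hg (μ := x) fun Ω _ σ hσ s hs => by
    obtain ⟨h1, h2⟩ := borNlo_d1 σ hσ h.cyc (fix_inv σ hs)
    have h3 := fix_inv σ h1
    rw [inv_inv] at h3
    exact hall Ω σ s hs h3 h2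
  rcases hz with hz | hz
  · exact borNlo_d2' _ hρ h hx hz 1
  · exact borNlo_d2' (Ω := Gᵒᵈ) (MulAction.toPermHom G G) (fun g => (hρ g).dual) h hx.symm hz 1

/-- In the L-space range every homomorphism to a left-ordered group is trivial. -/
theorem nlo {H : Type} [Group H] [LinearOrder H] [MulLeftStrictMono H] {x y z : H}
    {p₁ q₁ p₂ q₂ p₃ q₃ : ℤ} (h : XYZ x y z p₁ q₁ p₂ q₂ p₃ q₃) (hq₁ : 0 < q₁) (hq₂ : 0 < q₂)
    (hq₃ : 0 < q₃) (c₁ : IsCoprime p₁ q₁) (c₂ : IsCoprime p₂ q₂) (c₃ : IsCoprime p₃ q₃)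
    (h₁ : q₁ ≤ p₁) (h₂ : q₂ ≤ p₂) (h₃ : q₃ ≤ p₃) : x = 1 ∧ y = 1 ∧ z = 1 := by
  let K := Subgroup.closure ({x, y, z} : Set H)
  let x' : K := ⟨x, Subgroup.subset_closure (by simp)⟩
  let y' : K := ⟨y, Subgroup.subset_closure (by simp)⟩
  let z' : K := ⟨z, Subgroup.subset_closure (by simp)⟩
  have hf : ∀ {m l : K} {p q : ℤ}, Fill (m : H) (l : H) p q → Fill m l p q := fun hh =>
    ⟨Subtype.ext hh.1, Subtype.ext (by simpa using hh.2)⟩
  have hrel : BorNloRel x' y' z' := by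
    refine ⟨?_, ?_, ?_⟩
    · convert borNlo_root_of_fill (hf (m := x') (l := z' * y'⁻¹ * z'⁻¹ * y') h.1) hq₁ c₁ h₁ using 1
      group
    · convert borNlo_root_of_fill (hf (m := y') (l := z'⁻¹ * x'⁻¹ * z' * x') h.2.1) hq₂ c₂ h₂
        using 1
      group
    · convert borNlo_root_of_fill (hf (m := z') (l := x' * y' * x'⁻¹ * y'⁻¹) h.2.2) hq₃ c₃ h₃
        using 1
      group
  have hgen : Subgroup.closure {x', y', z'} = ⊤ := by
    apply Subgroup.map_injective K.subtype_injective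
    rw [MonoidHom.map_closure, ← MonoidHom.range_eq_map, Subgroup.range_subtype]
    simp [Set.image_insert_eq, x', y', z', K]
  have hρ : ∀ g, StrictMono (MulAction.toPermHom K K g) := fun g a b hab =>
    mul_lt_mul_right (show (a : H) < b from hab) (g : H)
  have key := borNlo_main hρ hrel hgen
  exact ⟨congrArg Subtype.val (key x'), congrArg Subtype.val (key y'),
    congrArg Subtype.val (key z')⟩

end Pool.Agent.Work.MP_3d425c_gt.Bor
end

-- merged part: Pool.Agent.Work.MP_3d425c_gt.BorUni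
section
/-! The graph manifold group and the data needed for the tree of lines. -/

namespace Pool.Agent.Work.MP_3d425c_gt.Bor

/-- The relations of the graph manifold group (third slope `0`). -/
structure Rel0 {H : Type} [Group H] (α β T : H) (p₁ q₁ p₂ q₂ : ℤ) : Prop where
  r1 : T * β ^ q₂ = β ^ q₂ * α ^ p₁ * T
  r2 : T * (α ^ q₁ * β ^ p₂) = α ^ q₁ * T
  comm : α ^ q₁ * β ^ q₂ = β ^ q₂ * α ^ q₁

/-- The universal triple with these relations. -/
structure Uni {G : Type} [Group G] (α β T : G) (p₁ q₁ p₂ q₂ : ℤ) : Prop where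
  rel : Rel0 α β T p₁ q₁ p₂ q₂
  gen : Subgroup.closure {α, β, T} = ⊤
  lift : ∀ (H : Type) [Group H] (a b t : H), Rel0 a b t p₁ q₁ p₂ q₂ →
    ∃ f : G →* H, f α = a ∧ f β = b ∧ f T = t

theorem exists_uni (p₁ q₁ p₂ q₂ : ℤ) :
    ∃ (G : Type) (_ : Group G) (α β T : G), Uni α β T p₁ q₁ p₂ q₂ := by
  let x : Fin 3 → FreeGroup (Fin 3) := FreeGroup.of
  let R : Set (FreeGroup (Fin 3)) :=
    {x 2 * x 1 ^ q₂ * (x 1 ^ q₂ * x 0 ^ p₁ * x 2)⁻¹,
      x 2 * (x 0 ^ q₁ * x 1 ^ p₂) * (x 0 ^ q₁ * x 2)⁻¹,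
      x 0 ^ q₁ * x 1 ^ q₂ * (x 1 ^ q₂ * x 0 ^ q₁)⁻¹}
  have key : ∀ a b : FreeGroup (Fin 3), a * b⁻¹ ∈ R →
      PresentedGroup.mk R a = PresentedGroup.mk R b := fun a b h => by
    rw [← mul_inv_eq_one, ← map_inv, ← map_mul]
    exact PresentedGroup.one_of_mem h
  refine ⟨PresentedGroup R, inferInstance, .of 0, .of 1, .of 2, ⟨?_, ?_, ?_⟩, ?_, ?_⟩
  · simpa [PresentedGroup.of] using key _ _ (Or.inl rfl)
  · simpa [PresentedGroup.of] using key _ _ (Or.inr (Or.inl rfl))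
  · simpa [PresentedGroup.of] using key _ _ (Or.inr (Or.inr rfl))
  · rw [← PresentedGroup.closure_range_of R]
    congr 1
    ext g
    simp [Fin.exists_fin_succ, eq_comm]
  · intro H _ a b t h
    refine ⟨PresentedGroup.toGroup (f := ![a, b, t]) ?_, PresentedGroup.toGroup.of _,
      PresentedGroup.toGroup.of _, PresentedGroup.toGroup.of _⟩
    rintro r (rfl | rfl | rfl)
    · simpa [x, mul_inv_eq_one, -mul_inv_rev] using h.r1
    · simpa [x, mul_inv_eq_one, -mul_inv_rev] using h.r2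
    · simpa [x, mul_inv_eq_one, -mul_inv_rev] using h.comm

/-- A positive cone deciding the sign of every non-trivial element of `S`. -/
def LOon {G : Type} [Group G] (S : Set G) : Prop :=
  ∃ P : Set G, (∀ a ∈ P, ∀ b ∈ P, a * b ∈ P) ∧ 1 ∉ P ∧ ∀ g ∈ S, g ≠ 1 → g ∈ P ∨ g⁻¹ ∈ P

/-- A positive cone for `K` which is reversed by conjugation with `T`. -/
def RevCone {G : Type} [Group G] (K : Subgroup G) (T : G) (P : Set G) : Prop :=
  (∀ a ∈ P, ∀ b ∈ P, a * b ∈ P) ∧ 1 ∉ P ∧ (∀ g ∈ K, g ≠ 1 → g ∈ P ∨ g⁻¹ ∈ P) ∧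
    ∀ g, g ∈ P ↔ T * g⁻¹ * T⁻¹ ∈ P

/-- A locally finite subset of a linear order. -/
def LF {L : Type} [LinearOrder L] (D : Set L) : Prop := ∀ y y', (D ∩ Set.Ioo y y').Finite

/-- The data for the tree of lines. -/
structure XD {G : Type} (L : Type) [Group G] [LinearOrder L] [MulAction G L] (α β T : G)
    (p₁ q₁ p₂ q₂ : ℤ) where
  ex : G → ℤ
  y₀ : L
  εa : L → Bool
  εb : L → Bool
  rel : Rel0 α β T p₁ q₁ p₂ q₂
  gen : Subgroup.closure {α, β, T} = ⊤
  ex_mul : ∀ g h, ex (g * h) = ex g + ex h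
  exα : ex α = 0
  exβ : ex β = 0
  exT : ex T = 1
  mono : ∀ g, Even (ex g) → StrictMono fun y : L => g • y
  anti : ∀ g, Odd (ex g) → StrictAnti fun y : L => g • y
  trans : ∀ y, ∃ g : G, g • y₀ = y
  fix : T • y₀ = y₀
  stab : ∀ g : G, g • y₀ = y₀ → g * T = T * g
  inva : ∀ y, εa (α • y) = εa y
  invb : ∀ y, εb (β • y) = εb y
  lf1 : LF {y | εa y ≠ εb y}
  lf2 : LF {y | εa (T • y) = εb y}
  ltA : (α ^ q₁)⁻¹ • y₀ < y₀
  ltB : y₀ < (β ^ q₂)⁻¹ • y₀
  gap1 : ∀ y, (α ^ q₁)⁻¹ • y₀ < y → y < (β ^ q₂)⁻¹ • y₀ → εa y = εb y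
  gap2 : ∀ y, y₀ < y → (y ≤ (β ^ q₂)⁻¹ • y₀ ∨ y ≤ (α ^ q₁ * β ^ p₂)⁻¹ • y₀) → εa (T • y) ≠ εb y
  val0 : εa y₀ = true
  valA : εb ((α ^ q₁)⁻¹ • y₀) = false

end Pool.Agent.Work.MP_3d425c_gt.Bor
end

-- merged part: Pool.Agent.Work.MP_3d425c_gt.BorFG
section
/-! First letters in free groups, and counting functions on Cayley trees. -/

namespace Pool.Agent.Work.MP_3d425c_gt.Bor
open Classical FreeGroup

variable {E : Type}

/-- A letter as a group element. -/
def lt (l : E × Bool) : FreeGroup E := mk [l]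

/-- The inverse letter. -/
def linv (l : E × Bool) : E × Bool := (l.1, !l.2)

/-- The first letter of the reduced word. -/
noncomputable def fl (g : FreeGroup E) : Option (E × Bool) := g.toWord.head?

theorem linv_linv (l : E × Bool) : linv (linv l) = l := by simp [linv]

theorem lt_linv (l : E × Bool) : lt (linv l) = (lt l)⁻¹ := by
  simp [lt, linv, inv_mk, invRev]

theorem lt_true (e : E) : lt (e, true) = of e := rfl

theorem lt_false (e : E) : lt (e, false) = (of e)⁻¹ := lt_linv (e, true)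

theorem toWord_lt (l : E × Bool) : (lt l).toWord = [l] := by simp [lt, toWord_mk]

theorem fl_lt (l : E × Bool) : fl (lt l) = some l := by simp [fl, toWord_lt]

theorem fl_eq_none {g : FreeGroup E} : fl g = none ↔ g = 1 := by
  rw [fl, List.head?_eq_none_iff, toWord_eq_nil_iff]

theorem fl_one : fl (1 : FreeGroup E) = none := fl_eq_none.2 rfl

theorem lt_ne_one (l : E × Bool) : lt l ≠ 1 := fun h => by
  have := fl_lt l
  rw [h, fl_one] at this
  cases this

theorem exists_fl {g : FreeGroup E} (h : g ≠ 1) : ∃ l, fl g = some l :=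
  Option.ne_none_iff_exists'.1 fun e => h (fl_eq_none.1 e)

theorem toWord_mul_of {u h : FreeGroup E} (H : ∀ l, fl u⁻¹ = some l → fl h ≠ some l) :
    (u * h).toWord = u.toWord ++ h.toWord := by
  rw [toWord_mul]
  refine IsReduced.reduce_eq (List.IsChain.append isReduced_toWord isReduced_toWord ?_)
  intro x hx y hy e
  by_contra hn
  refine H (linv x) ?_ ?_
  · rw [fl, toWord_inv, invRev, List.head?_reverse, List.getLast?_map, Option.mem_def.1 hx]
    rfl
  · rw [fl, Option.mem_def.1 hy]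
    congr 1
    refine Prod.ext e.symm ?_
    show y.2 = !x.2
    revert hn
    cases x.2 <;> cases y.2 <;> simp

theorem fl_mul_of {u h : FreeGroup E} (hu : u ≠ 1) (H : fl u⁻¹ ≠ fl h) : fl (u * h) = fl u := by
  rw [fl, toWord_mul_of fun l h1 h2 => H (h1.trans h2.symm), fl, List.head?_append_of_ne_nil]
  exact fun e => hu (toWord_eq_nil_iff.1 e)

/-- The tree property of the Cayley graph. -/
theorem fl_t1 {a v b : FreeGroup E} (h : a ≠ v) (H : fl (v⁻¹ * a) ≠ fl (v⁻¹ * b)) :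
    fl (a⁻¹ * b) = fl (a⁻¹ * v) := by
  rw [show a⁻¹ * b = a⁻¹ * v * (v⁻¹ * b) by group]
  exact fl_mul_of (fun e => h (inv_mul_eq_one.1 e)) (by simpa using H)

theorem fl_step {g : FreeGroup E} {l : E × Bool} (h : fl g = some l) :
    g.toWord = l :: ((lt l)⁻¹ * g).toWord := by
  obtain ⟨t, ht⟩ : ∃ t, g.toWord = l :: t := by
    unfold fl at h
    cases hw : g.toWord with
    | nil => rw [hw] at h; cases h
    | cons a t => rw [hw] at h; cases h; exact ⟨t, rfl⟩
  have h1 : g = lt l * mk t := by rw [lt, mul_mk, ← mk_toWord (x := g), ht]; rfl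
  have h2 : IsReduced t := List.IsChain.tail (l := l :: t) (ht ▸ isReduced_toWord (x := g))
  rw [ht, h1, inv_mul_cancel_left, toWord_mk, h2.reduce_eq]

theorem norm_step {g : FreeGroup E} {l : E × Bool} (h : fl g = some l) :
    norm ((lt l)⁻¹ * g) + 1 = norm g := by
  unfold FreeGroup.norm
  conv_rhs => rw [fl_step h]
  simp

theorem fl_step_ne {g : FreeGroup E} {l : E × Bool} (h : fl g = some l) :
    fl ((lt l)⁻¹ * g) ≠ some (linv l) := fun e => by
  have h1 := norm_step h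
  have h2 := norm_step e
  rw [lt_linv, inv_inv, mul_inv_cancel_left] at h2
  omega

theorem fl_lt_mul {g : FreeGroup E} {l : E × Bool} (h : fl g ≠ some (linv l)) :
    fl (lt l * g) = some l := by
  rw [fl_mul_of (lt_ne_one l) (by rw [← lt_linv, fl_lt]; exact h.symm), fl_lt]

theorem fl_mul_lt {u : FreeGroup E} {l : E × Bool} (h1 : u ≠ 1) (h2 : u * lt l ≠ 1) :
    fl (u * lt l) = fl u := by
  by_cases e : fl u⁻¹ = some l
  · have h3 := fl_step_ne e
    rw [← mul_inv_rev] at h3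
    have := fl_mul_of (h := lt (linv l)) h2 (by rw [fl_lt]; exact h3)
    rw [← this, lt_linv, mul_inv_cancel_right]
  · exact fl_mul_of h1 (by rw [fl_lt]; exact e)

theorem fl_map {E' : Type} {σ : E → E'} (hσ : Function.Injective σ) (g : FreeGroup E) :
    fl (map σ g) = (fl g).map fun l => (σ l.1, l.2) := by
  have : (map σ g).toWord = g.toWord.map fun l => (σ l.1, l.2) := by
    conv_lhs => rw [← mk_toWord (x := g), map.mk, toWord_mk]
    refine IsReduced.reduce_eq ?_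
    exact (List.isChain_map _).2 (List.IsChain.imp (fun a b h e => h (hσ e)) isReduced_toWord)
  rw [fl, this, List.head?_map, fl]

theorem lt_induction {P : FreeGroup E → Prop} (h1 : P 1)
    (hs : ∀ l g, fl g ≠ some (linv l) → P g → P (lt l * g)) (g : FreeGroup E) : P g := by
  induction hn : norm g generalizing g with
  | zero => rw [norm_eq_zero.1 hn]; exact h1
  | succ n ih =>
    obtain ⟨l, hl⟩ := exists_fl (g := g) fun e => by rw [e, FreeGroup.norm_one] at hn; cases hn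
    have := hs l _ (fl_step_ne hl) (ih _ (by have := norm_step hl; omega))
    rwa [mul_inv_cancel_left] at this

theorem between_finite (a b : FreeGroup E) : {u | fl (u⁻¹ * a) ≠ fl (u⁻¹ * b)}.Finite := by
  obtain ⟨g, rfl⟩ : ∃ g, b = a * g := ⟨a⁻¹ * b, by group⟩
  induction g using lt_induction generalizing a with
  | h1 => simp
  | hs l g _ ih =>
    refine (((ih (a * lt l)).insert a).insert (a * lt l)).subset fun u hu => ?_
    by_contra hn
    simp only [Set.mem_insert_iff, Set.mem_setOf_eq, not_or, not_not] at hn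
    refine hu ?_
    rw [← mul_assoc a, ← hn.2.2, ← mul_assoc]
    exact (fl_mul_lt (fun e => hn.2.1 (inv_mul_eq_one.1 e))
      fun e => hn.1 (inv_mul_eq_one.1 (by rw [← e, mul_assoc]))).symm

section count
variable (τ : FreeGroup E → Option (E × Bool) → Option (E × Bool) → ℤ)

/-- The counting function of local comparison functions. -/
noncomputable def WW (a b : FreeGroup E) : ℤ := ∑ᶠ u, τ u (fl (u⁻¹ * a)) (fl (u⁻¹ * b))

variable {τ} (anti : ∀ u x y, τ u y x = -τ u x y)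
include anti

theorem tau_self (u : FreeGroup E) (x : Option (E × Bool)) : τ u x x = 0 := by
  have := anti u x x
  omega

theorem WW_finite (a b : FreeGroup E) :
    (Function.support fun u => τ u (fl (u⁻¹ * a)) (fl (u⁻¹ * b))).Finite :=
  (between_finite a b).subset fun u hu e => hu (by
    simp only
    rw [e, tau_self anti])

theorem WW_anti (a b : FreeGroup E) : WW τ b a = -WW τ a b := by
  unfold WW
  simp only [anti _ (fl (_ * a)), finsum_neg_distrib]

theorem WW_sum (a b c : FreeGroup E) : WW τ a b + WW τ b c + WW τ c a =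
    ∑ᶠ u, (τ u (fl (u⁻¹ * a)) (fl (u⁻¹ * b)) + τ u (fl (u⁻¹ * b)) (fl (u⁻¹ * c)) +
      τ u (fl (u⁻¹ * c)) (fl (u⁻¹ * a))) := by
  rw [finsum_add_distrib _ (WW_finite anti c a), finsum_add_distrib (WW_finite anti a b)
    (WW_finite anti b c)]
  · rfl
  · exact ((WW_finite anti a b).union (WW_finite anti b c)).subset (Function.support_add _ _)

theorem tau_zero (u : FreeGroup E) {x y z : Option (E × Bool)} (h : x = y ∨ y = z ∨ z = x) :
    τ u x y + τ u y z + τ u z x = 0 := by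
  rcases h with rfl | rfl | rfl
  · rw [tau_self anti, anti u x z]; ring
  · rw [tau_self anti, anti u x y]; ring
  · rw [tau_self anti, anti u z y]; ring

theorem WW_active {a b c w : FreeGroup E} (h1 : fl (w⁻¹ * a) ≠ fl (w⁻¹ * b))
    (h2 : fl (w⁻¹ * b) ≠ fl (w⁻¹ * c)) (h3 : fl (w⁻¹ * c) ≠ fl (w⁻¹ * a)) :
    WW τ a b + WW τ b c + WW τ c a = τ w (fl (w⁻¹ * a)) (fl (w⁻¹ * b)) +
      τ w (fl (w⁻¹ * b)) (fl (w⁻¹ * c)) + τ w (fl (w⁻¹ * c)) (fl (w⁻¹ * a)) := by
  rw [WW_sum anti]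
  refine finsum_eq_single _ w fun u hu => tau_zero anti u ?_
  have key : ∀ x y, fl (w⁻¹ * u) ≠ fl (w⁻¹ * x) → fl (w⁻¹ * u) ≠ fl (w⁻¹ * y) →
      fl (u⁻¹ * x) = fl (u⁻¹ * y) := fun x y hx hy => (fl_t1 hu hx).trans (fl_t1 hu hy).symm
  by_cases ea : fl (w⁻¹ * u) = fl (w⁻¹ * a)
  · exact Or.inr (Or.inl (key b c (ea ▸ h1) (ea ▸ h3.symm)))
  · by_cases eb : fl (w⁻¹ * u) = fl (w⁻¹ * b)
    · exact Or.inr (Or.inr (key c a (eb ▸ h2) ea))
    · exact Or.inl (key a b ea eb)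

theorem WW_defect {a b c : FreeGroup E} (h : ∀ w, fl (w⁻¹ * a) ≠ fl (w⁻¹ * b) →
    fl (w⁻¹ * b) ≠ fl (w⁻¹ * c) → fl (w⁻¹ * c) ≠ fl (w⁻¹ * a) →
    τ w (fl (w⁻¹ * a)) (fl (w⁻¹ * b)) + τ w (fl (w⁻¹ * b)) (fl (w⁻¹ * c)) +
      τ w (fl (w⁻¹ * c)) (fl (w⁻¹ * a)) ≤ 1) : WW τ a b + WW τ b c + WW τ c a ≤ 1 := by
  by_cases e : ∃ w, fl (w⁻¹ * a) ≠ fl (w⁻¹ * b) ∧ fl (w⁻¹ * b) ≠ fl (w⁻¹ * c) ∧
      fl (w⁻¹ * c) ≠ fl (w⁻¹ * a)
  · obtain ⟨w, h1, h2, h3⟩ := e
    rw [WW_active anti h1 h2 h3]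
    exact h w h1 h2 h3
  · rw [WW_sum anti, finsum_eq_zero_of_forall_eq_zero fun u => tau_zero anti u (by
      by_contra hn
      push Not at hn
      exact e ⟨u, hn⟩)]
    exact zero_le_one

theorem WW_self (a : FreeGroup E) : WW τ a a = 0 := by
  have := WW_anti anti a a
  omega

theorem WW_edge (b : FreeGroup E) (l : E × Bool) :
    WW τ b (b * lt l) = τ b none (some l) + τ (b * lt l) (some (linv l)) none := by
  have hne : b ≠ b * lt l := fun e => lt_ne_one l (by simpa using e.symm)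
  unfold WW
  rw [finsum_eq_sum_of_support_subset (s := {b, b * lt l}) _ fun u hu => by
    by_contra hn
    simp only [Finset.coe_insert, Finset.coe_singleton, Set.mem_insert_iff,
      Set.mem_singleton_iff, not_or] at hn
    refine hu ?_
    simp only
    rw [← mul_assoc, fl_mul_lt (fun e => hn.1 (inv_mul_eq_one.1 e))
      fun e => hn.2 (inv_mul_eq_one.1 (by rw [← e, mul_assoc])), tau_self anti],
    Finset.sum_pair hne]
  rw [inv_mul_cancel, inv_mul_cancel, inv_mul_cancel_left, mul_inv_rev, inv_mul_cancel_right,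
    fl_one, fl_lt, ← lt_linv, fl_lt]

theorem WW_step {a b : FreeGroup E} {l : E × Bool} (h : fl (b⁻¹ * a) ≠ some l) :
    WW τ a (b * lt l) = WW τ a b + τ (b * lt l) (some (linv l)) none -
      τ b (fl (b⁻¹ * a)) none + τ b (fl (b⁻¹ * a)) (some l) := by
  by_cases e : a = b
  · rw [e, WW_edge anti, WW_self anti, inv_mul_cancel, fl_one, tau_self anti]
    ring
  have h1 : fl (b⁻¹ * b) = none := by rw [inv_mul_cancel, fl_one]
  have h2 : fl (b⁻¹ * (b * lt l)) = some l := by rw [inv_mul_cancel_left, fl_lt]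
  have := WW_active anti (a := a) (b := b) (c := b * lt l) (w := b)
    (by rw [h1]; exact fun e' => e (inv_mul_eq_one.1 (fl_eq_none.1 e')).symm)
    (by rw [h1, h2]; simp) (by rw [h2]; exact h.symm)
  rw [h1, h2, WW_edge anti, WW_anti anti a, anti b (fl (b⁻¹ * a)) (some l)] at this
  omega

end count

/-- The local comparison built from comparisons of letters of equal sign. -/
def tau (cm : FreeGroup E → E × Bool → E × Bool → ℤ) (u : FreeGroup E) :
    Option (E × Bool) → Option (E × Bool) → ℤ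
  | none, none => 0
  | none, some l => if l.2 then 1 else 0
  | some l, none => if l.2 then -1 else 0
  | some l, some l' => if l.2 = l'.2 then cm u l l' else 0

section tau
variable {cm : FreeGroup E → E × Bool → E × Bool → ℤ} (anti : ∀ u l l', cm u l' l = -cm u l l')
include anti

theorem tau_anti (u : FreeGroup E) (x y : Option (E × Bool)) :
    tau cm u y x = -tau cm u x y := by
  rcases x with _ | ⟨x, _ | _⟩ <;> rcases y with _ | ⟨y, _ | _⟩ <;> simp [tau] <;> exact anti _ _ _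

theorem tau_defect {u : FreeGroup E} {x y z : Option (E × Bool)} (h1 : x ≠ y) (h2 : y ≠ z)
    (h3 : z ≠ x) (hb : ∀ l l', cm u l l' ≤ 1)
    (ht : ∀ a b c, x = some a → y = some b → z = some c → a.2 = b.2 → b.2 = c.2 →
      cm u a b + cm u b c + cm u c a ≤ 1) :
    tau cm u x y + tau cm u y z + tau cm u z x ≤ 1 := by
  rcases x with _ | ⟨x, _ | _⟩ <;> rcases y with _ | ⟨y, _ | _⟩ <;>
    rcases z with _ | ⟨z, _ | _⟩ <;> simp [tau, hb] at * <;> exact ht

/-- Parity of the counting function. -/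
theorem WW_parity {P : Set (FreeGroup E)}
    (conv : ∀ a ∈ P, ∀ b ∈ P, ∀ u, fl (u⁻¹ * a) ≠ fl (u⁻¹ * b) → u ∈ P)
    (ho : ∀ u ∈ P, ∀ a ∈ P, ∀ b ∈ P, ∀ l l', fl (u⁻¹ * a) = some l → fl (u⁻¹ * b) = some l' →
      l ≠ l' → l.2 = l'.2 → Odd (cm u l l')) {a b : FreeGroup E} (ha : a ∈ P) (hb : b ∈ P)
    (hne : a ≠ b) : Odd (WW (tau cm) a b) := by
  obtain ⟨g, rfl⟩ : ∃ g, a = b * g := ⟨b⁻¹ * a, by group⟩
  generalize hx : b * g = a at ha hne
  induction g using lt_induction generalizing b with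
  | h1 => exact absurd (by rw [← hx, mul_one]) hne
  | hs l g hl ih =>
    have e1 : (b * lt l)⁻¹ * a = g := by rw [← hx]; group
    have e2 : b * lt l * lt (linv l) = b := by rw [lt_linv]; group
    have e3 : fl ((b * lt l)⁻¹ * b) = some (linv l) := by
      rw [← fl_lt, lt_linv]
      congr 1
      group
    have hP : b * lt l ∈ P := conv a ha b hb _ (by rw [e1, e3]; exact hl)
    have key := WW_step (tau_anti anti) (a := a) (b := b * lt l) (l := linv l) (by rwa [e1])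
    rw [e2, e1, linv_linv] at key
    by_cases e : a = b * lt l
    · have hg : g = 1 := by rw [← e1, e, inv_mul_cancel]
      rw [key, e, WW_self (tau_anti anti), hg, fl_one]
      rcases l with ⟨l, _ | _⟩ <;> simp [tau, linv]
    · obtain ⟨i, hi⟩ := ih hP (by rw [← hx, mul_assoc]) e
      obtain ⟨l', hl'⟩ := exists_fl (g := g) fun e' => e (by rw [← hx, e', mul_one])
      have := ho _ hP a ha b hb l' (linv l) (by rw [e1, hl']) e3 fun e' => hl (by rw [hl', e'])
      rw [key, hi, hl', Int.odd_iff]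
      rcases l with ⟨l, _ | _⟩ <;> rcases l' with ⟨l', _ | _⟩ <;>
        simp [tau, linv, Int.odd_iff] at this ⊢ <;> omega

end tau

end Pool.Agent.Work.MP_3d425c_gt.Bor
end

-- merged part: Pool.Agent.Work.MP_3d425c_gt.BorPiece
section
/-! The two Seifert pieces are left-orderable. -/

namespace Pool.Agent.Work.MP_3d425c_gt.Bor

open Classical in
theorem lo_free (E : Type) : LOon (Set.univ : Set (FreeGroup E)) := by
  let _ : LinearOrder E := linearOrderOfSTO WellOrderingRel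
  let cm : FreeGroup E → E × Bool → E × Bool → ℤ := fun _ l l' =>
    if l.1 < l'.1 then 1 else if l'.1 < l.1 then -1 else 0
  have anti : ∀ u l l', cm u l' l = -cm u l l' := fun u l l' => by
    simp only [cm]
    rcases lt_trichotomy l.1 l'.1 with h | h | h
    · simp [h, h.not_gt]
    · simp [h]
    · simp [h, h.not_gt]
  have inv : ∀ x a b, WW (tau cm) (x * a) (x * b) = WW (tau cm) a b := fun x a b => by
    unfold WW
    rw [← finsum_comp_equiv (Equiv.mulLeft x)]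
    refine finsum_congr fun u => ?_
    simp only [Equiv.coe_mulLeft, mul_inv_rev, mul_assoc, inv_mul_cancel_left]
    rcases fl (u⁻¹ * a) with _ | l <;> rcases fl (u⁻¹ * b) with _ | l' <;> rfl
  refine ⟨{g | 0 < WW (tau cm) 1 g}, fun a ha b hb => ?_, ?_, fun g _ hg => ?_⟩
  · have h1 := WW_defect (tau_anti anti) (a := 1) (b := a) (c := a * b) fun w h1 h2 h3 =>
      tau_defect anti h1 h2 h3 (fun l l' => by simp only [cm]; split_ifs <;> omega)
        fun a b c _ _ _ _ _ => by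
          simp only [cm]
          split_ifs <;> first | omega | order
    have h2 := inv a 1 b
    rw [mul_one] at h2
    have h3 := WW_anti (tau_anti anti) 1 (a * b)
    simp only [Set.mem_ofPred_eq] at ha hb ⊢
    omega
  · simp [WW_self (tau_anti anti)]
  · have h1 := WW_parity anti (P := Set.univ) (fun _ _ _ _ _ _ => trivial)
      (fun u _ a _ b _ l l' _ _ h h' => by
        simp only [cm]
        rcases lt_trichotomy l.1 l'.1 with k | k | k
        · simp [k]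
        · exact absurd (Prod.ext k h') h
        · simp [k, k.not_gt]) (a := 1) (b := g) trivial trivial hg.symm
    have h2 := inv g 1 g⁻¹
    rw [mul_one, mul_inv_cancel] at h2
    have h3 := WW_anti (tau_anti anti) 1 g
    simp only [Set.mem_ofPred_eq]
    obtain ⟨k, hk⟩ := h1
    omega

theorem glue {H : Type} [Group H] {x y x' y' : H} (c : Commute x y) (c' : Commute x' y')
    (f : ∀ i j : ℤ, x ^ i * y ^ j = 1 → i = 0 ∧ j = 0)
    (f' : ∀ i j : ℤ, x' ^ i * y' ^ j = 1 → i = 0 ∧ j = 0) :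
    ∃ (H' : Type) (_ : Group H') (ι : H →* H') (t : H'), Function.Injective ι ∧
      t * ι x = ι x' * t ∧ t * ι y = ι y' * t := by
  have key : ∀ x y : H, Commute x y → (∀ i j : ℤ, x ^ i * y ^ j = 1 → i = 0 ∧ j = 0) →
      ∃ g : Multiplicative ℤ × Multiplicative ℤ →* H, Function.Injective g ∧
        g (.ofAdd 1, 1) = x ∧ g (1, .ofAdd 1) = y := fun x y c f => by
    refine ⟨(zpowersHom H x).noncommCoprod (zpowersHom H y) fun m n => c.zpow_zpow _ _,
      (injective_iff_map_eq_one _).2 fun v hv => ?_, by simp, by simp⟩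
    obtain ⟨h1, h2⟩ := f _ _ hv
    exact Prod.ext (toAdd_eq_zero.1 h1) (toAdd_eq_zero.1 h2)
  obtain ⟨g, g1, g2, g3⟩ := key x y c f
  obtain ⟨g', g1', g2', g3'⟩ := key x' y' c' f'
  let φ : g.range ≃* g'.range := (MonoidHom.ofInjective g1).symm.trans (MonoidHom.ofInjective g1')
  have h : ∀ v, (HNNExtension.t : HNNExtension H _ _ φ) * HNNExtension.of (g v) =
      HNNExtension.of (g' v) * HNNExtension.t := fun v => by
    have := HNNExtension.t_mul_of (φ := φ) (MonoidHom.ofInjective g1 v)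
    simpa [φ, MonoidHom.ofInjective_apply] using this
  exact ⟨HNNExtension H _ _ φ, inferInstance, HNNExtension.of, HNNExtension.t,
    HNNExtension.of_injective φ, by rw [← g2, ← g2', h], by rw [← g3, ← g3', h]⟩

/-- The shift action on the free group. -/
def pieceAct (n : ℕ) : Multiplicative ℤ →* MulAut (FreeGroup (ZMod n)) :=
  MonoidHom.mk' (fun k => FreeGroup.freeGroupCongr (Equiv.addRight ((k.toAdd : ℤ) : ZMod n)))
    fun k l => by
      refine MulEquiv.toMonoidHom_injective (FreeGroup.ext_hom _ _ fun i => ?_)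
      show FreeGroup.of (i + (((k * l).toAdd : ℤ) : ZMod n)) =
        FreeGroup.of (i + ((l.toAdd : ℤ) : ZMod n) + ((k.toAdd : ℤ) : ZMod n))
      rw [toAdd_mul, Int.cast_add, add_right_comm, add_assoc]

theorem pieceAct_of (n : ℕ) (k : ℤ) (i : ZMod n) :
    pieceAct n (.ofAdd k) (FreeGroup.of i) = FreeGroup.of (i + k) := rfl

/-- The model group of a piece. -/
abbrev PieceM (n : ℕ) : Type := FreeGroup (ZMod n) ⋊[pieceAct n] Multiplicative ℤ

/-- The first generator of the model. -/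
def pieceA (n : ℕ) : PieceM n := .inr (.ofAdd 1)

/-- The second generator of the model. -/
def pieceX (n : ℕ) : PieceM n := .inl (.of 0)

theorem pieceA_zpow (n : ℕ) (m : ℤ) : pieceA n ^ m = .inr (.ofAdd m) := by
  rw [pieceA, ← map_zpow, ← ofAdd_zsmul, smul_eq_mul, mul_one]

theorem piece_conj (n : ℕ) (m : ℤ) :
    pieceA n ^ m * pieceX n * (pieceA n ^ m)⁻¹ = .inl (.of (m : ZMod n)) := by
  rw [pieceA_zpow, pieceX, ← map_inv, ← SemidirectProduct.inl_aut, pieceAct_of, zero_add]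

theorem piece_comm (n : ℕ) : Commute (pieceA n ^ (n : ℤ)) (pieceX n) := by
  have := piece_conj n n
  rw [Int.cast_natCast, ZMod.natCast_self, mul_inv_eq_iff_eq_mul] at this
  exact this

theorem piece_ext {n : ℕ} {H : Type} [Group H] {f g : PieceM n →* H}
    (h1 : f (pieceA n) = g (pieceA n)) (h2 : f (pieceX n) = g (pieceX n)) : f = g := by
  refine SemidirectProduct.hom_ext (FreeGroup.ext_hom _ _ fun i => ?_) (MonoidHom.ext_mint h1)
  obtain ⟨m, rfl⟩ := ZMod.intCast_surjective i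
  simp only [MonoidHom.comp_apply, ← piece_conj, map_mul, map_inv, map_zpow, h1, h2]

theorem piece_lift {n : ℕ} {G : Type} [Group G] {a x : G} (c : Commute (a ^ (n : ℤ)) x) :
    ∃ g : PieceM n →* G, g (pieceA n) = a ∧ g (pieceX n) = x := by
  have h1 : ∀ m m' : ℤ, (m : ZMod n) = m' → a ^ m * x * (a ^ m)⁻¹ = a ^ m' * x * (a ^ m')⁻¹ := by
    intro m m' h
    obtain ⟨k, hk⟩ := (ZMod.intCast_eq_intCast_iff_dvd_sub _ _ _).1 h
    rw [show m' = m + n * k by omega, zpow_add, zpow_mul, mul_assoc (a ^ m) _ x,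
      (c.zpow_left k).eq]
    group
  choose r hr using ZMod.intCast_surjective (n := n)
  let j : FreeGroup (ZMod n) →* G := FreeGroup.lift fun i => a ^ r i * x * (a ^ r i)⁻¹
  refine ⟨SemidirectProduct.lift j (zpowersHom G a) fun k => FreeGroup.ext_hom _ _ fun i => ?_,
    by simp [pieceA], ?_⟩
  · show j (FreeGroup.of (i + ((k.toAdd : ℤ) : ZMod n))) =
      a ^ k.toAdd * j (FreeGroup.of i) * (a ^ k.toAdd)⁻¹
    simp only [j, FreeGroup.lift_apply_of]
    rw [h1 _ (k.toAdd + r i) (by rw [hr, Int.cast_add, hr, add_comm])]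
    group
  · simp only [pieceX, SemidirectProduct.lift_inl, j, FreeGroup.lift_apply_of]
    rw [h1 _ 0 (by rw [hr, Int.cast_zero])]
    simp

theorem piece_model (n : ℕ) : LOon (Set.univ : Set (PieceM n)) := by
  obtain ⟨P, p1, p2, p3⟩ := lo_free (ZMod n)
  refine ⟨{g | 0 < g.right.toAdd ∨ (g.right = 1 ∧ g.left ∈ P)}, ?_, by simpa using p2,
    fun g _ hg => ?_⟩
  · rintro a (ha | ⟨ha, ha'⟩) b (hb | ⟨hb, hb'⟩)
    · exact Or.inl (by rw [SemidirectProduct.mul_right, toAdd_mul]; omega)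
    · exact Or.inl (by rwa [SemidirectProduct.mul_right, hb, mul_one])
    · exact Or.inl (by rwa [SemidirectProduct.mul_right, ha, one_mul])
    · refine Or.inr ⟨by rw [SemidirectProduct.mul_right, ha, hb, mul_one], ?_⟩
      rw [SemidirectProduct.mul_left, ha, map_one]
      exact p1 _ ha' _ hb'
  · rcases lt_trichotomy 0 g.right.toAdd with h | h | h
    · exact Or.inl (Or.inl h)
    · have h' : g.right = 1 := toAdd_eq_zero.1 h.symm
      rcases p3 g.left trivial fun k => hg (SemidirectProduct.ext k h') with k | k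
      · exact Or.inl (Or.inr ⟨h', k⟩)
      · refine Or.inr (Or.inr ⟨by rw [SemidirectProduct.inv_right, h', inv_one], ?_⟩)
        rw [SemidirectProduct.inv_left, h', inv_one, map_one]
        exact k
    · exact Or.inr (Or.inl (by rw [SemidirectProduct.inv_right, toAdd_inv]; omega))

/-- The pair `a`, `x` generates a copy of the model group. -/
def IsPiece {H : Type} [Group H] (n : ℕ) (a x : H) : Prop :=
  ∃ ι : PieceM n →* H, Function.Injective ι ∧ ι (pieceA n) = a ∧ ι (pieceX n) = x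

theorem IsPiece.map {H H' : Type} [Group H] [Group H'] {n : ℕ} {a x : H} (h : IsPiece n a x)
    (f : H →* H') (hf : Function.Injective f) : IsPiece n (f a) (f x) := by
  obtain ⟨ι, h1, rfl, rfl⟩ := h
  exact ⟨f.comp ι, hf.comp h1, rfl, rfl⟩

theorem IsPiece.comm {H : Type} [Group H] {n : ℕ} {a x : H} (h : IsPiece n a x) (m : ℤ) :
    Commute (a ^ (n : ℤ)) (x * a ^ m) := by
  obtain ⟨ι, h1, rfl, rfl⟩ := h
  refine Commute.mul_right ?_ (Commute.zpow_zpow_self _ _ _)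
  rw [← map_zpow]
  exact (piece_comm n).map ι

theorem IsPiece.indep {H : Type} [Group H] {n : ℕ} {a x : H} (h : IsPiece n a x) (hn : n ≠ 0)
    (m i j : ℤ) (e : (a ^ (n : ℤ)) ^ i * (x * a ^ m) ^ j = 1) : i = 0 ∧ j = 0 := by
  obtain ⟨ι, h1, rfl, rfl⟩ := h
  have e' : (pieceA n ^ (n : ℤ)) ^ i * (pieceX n * pieceA n ^ m) ^ j = 1 := h1 (by simpa using e)
  obtain ⟨g, g1, g2⟩ := piece_lift (n := n) (a := Multiplicative.ofAdd (1 : ℤ)) (x := 1)
    (Commute.all _ _)
  obtain ⟨g', g1', g2'⟩ := piece_lift (n := n) (x := Multiplicative.ofAdd (1 : ℤ)) (a := 1)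
    (Commute.all _ _)
  have k1 := congrArg (fun v => (g v).toAdd) e'
  have k2 := congrArg (fun v => (g' v).toAdd) e'
  simp only [map_mul, map_zpow, g1, g2, g1', g2', map_one, toAdd_mul, toAdd_zpow, toAdd_ofAdd,
    toAdd_one, smul_eq_mul, mul_one, mul_zero, zero_add, add_zero] at k1 k2
  subst k2
  simpa [hn] using k1

theorem IsPiece.indep' {H : Type} [Group H] {n : ℕ} {a x : H} (h : IsPiece n a x) (hn : n ≠ 0)
    (m i j : ℤ) (e : (x * a ^ m) ^ i * (a ^ (n : ℤ)) ^ j = 1) : i = 0 ∧ j = 0 :=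
  (h.indep hn m j i (by rwa [((h.comm m).zpow_zpow j i).eq])).symm

theorem IsPiece.lo {G H : Type} [Group G] [Group H] {n : ℕ} {a x : G} (f : G →* H)
    (h : IsPiece n (f a) (f x)) (c : Commute (a ^ (n : ℤ)) x) :
    LOon (Subgroup.closure {a, x} : Set G) := by
  obtain ⟨ι, h1, h2, h3⟩ := h
  obtain ⟨g, g1, g2⟩ := piece_lift c
  have e : f.comp g = ι := piece_ext (by simp [g1, h2]) (by simp [g2, h3])
  have hg : Function.Injective g := Function.Injective.of_comp (f := f) (by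
    rw [← MonoidHom.coe_comp, e]
    exact h1)
  obtain ⟨P, p1, p2, p3⟩ := piece_model n
  have hr : Subgroup.closure {a, x} ≤ g.range := (Subgroup.closure_le _).2 (by
    rintro _ (rfl | rfl)
    exacts [⟨_, g1⟩, ⟨_, g2⟩])
  refine ⟨g '' P, ?_, ?_, fun v hv hv' => ?_⟩
  · rintro _ ⟨u, hu, rfl⟩ _ ⟨w, hw, rfl⟩
    exact ⟨_, p1 u hu w hw, map_mul _ _ _⟩
  · rintro ⟨u, hu, k⟩
    exact p2 (hg (k.trans (map_one g).symm) ▸ hu)
  · obtain ⟨u, rfl⟩ := hr hv
    rcases p3 u trivial fun k => hv' (by rw [k, map_one]) with k | k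
    exacts [Or.inl ⟨u, k, rfl⟩, Or.inr ⟨_, k, map_inv _ _⟩]

theorem piece_lo {G : Type} [Group G] {α β T : G} {p₁ q₁ p₂ q₂ : ℤ} (U : Uni α β T p₁ q₁ p₂ q₂)
    (h₁ : 0 < q₁) (h₂ : 0 < q₂) :
    LOon (Subgroup.closure {α, β ^ q₂} : Set G) ∧ LOon (Subgroup.closure {β, α ^ q₁} : Set G) := by
  lift q₁ to ℕ using h₁.le with n₁
  lift q₂ to ℕ using h₂.le with n₂
  have k₁ : n₁ ≠ 0 := by omega
  have k₂ : n₂ ≠ 0 := by omega
  obtain ⟨a₁, x₁, a₂, x₂, i₁, i₂⟩ : ∃ a₁ x₁ a₂ x₂ : PieceM n₁ × PieceM n₂,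
      IsPiece n₁ a₁ x₁ ∧ IsPiece n₂ a₂ x₂ :=
    ⟨_, _, _, _, ⟨MonoidHom.inl _ _, fun _ _ h => congrArg Prod.fst h, rfl, rfl⟩,
      ⟨MonoidHom.inr _ _, fun _ _ h => congrArg Prod.snd h, rfl, rfl⟩⟩
  obtain ⟨H, _, ι, u, hι, u1, u2⟩ := glue (i₂.comm 0) (i₁.comm 0).symm (i₂.indep k₂ 0)
    (i₁.indep' k₁ 0)
  simp only [zpow_zero, mul_one, map_zpow] at u1 u2
  have j₁ := i₁.map ι hι
  have j₂ := (i₂.map ι hι).map (MulAut.conj u).toMonoidHom (MulAut.conj u).injective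
  simp only [MulEquiv.coe_toMonoidHom, MulAut.conj_apply] at j₂
  rw [u2, mul_inv_cancel_right] at j₂
  rw [← mul_inv_eq_iff_eq_mul, ← conj_zpow] at u1
  rw [← u1] at j₁
  generalize ι a₁ = a at j₁ j₂
  generalize u * ι a₂ * u⁻¹ = b at j₁ j₂
  obtain ⟨H', _, ι', t, hι', t1, t2⟩ := glue (j₂.comm p₂).symm (j₁.comm p₁) (j₂.indep' k₂ p₂)
    (j₁.indep k₁ p₁)
  have c := j₁.comm 0
  rw [zpow_zero, mul_one] at c
  obtain ⟨f, f1, f2, -⟩ := U.lift H' (ι' a) (ι' b) t
    ⟨by simpa using t2, by simpa using t1, by simpa using congrArg ι' c.eq⟩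
  exact ⟨IsPiece.lo f (by simpa [f1, f2] using j₁.map ι' hι') U.rel.comm,
    IsPiece.lo f (by simpa [f1, f2] using j₂.map ι' hι') U.rel.comm.symm⟩

end Pool.Agent.Work.MP_3d425c_gt.Bor
end

-- merged part: Pool.Agent.Work.MP_3d425c_gt.BorEps
section
/-! The side functions. -/

namespace Pool.Agent.Work.MP_3d425c_gt.Bor

theorem BorEps_sheet {G L : Type} [Group G] [MulAction G L] (s : ℤ → ℤ → L)
    (inj : ∀ i j i' j', s i j = s i' j' → i = i' ∧ j = j') (g : G)
    (hg : ∀ i j, g • s i j = s i (j + 1)) (φ : ℤ → ℤ → Prop)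
    (hφ : ∀ i j, (φ i (j + 1) ↔ φ i j) ↔ j ≠ -1) (y : L) :
    ¬ ((∃ i j, g • y = s i j ∧ φ i j) ↔ ∃ i j, y = s i j ∧ φ i j) ↔ ∃ i, y = s i (-1) := by
  have val : ∀ i j, (∃ i' j', s i j = s i' j' ∧ φ i' j') ↔ φ i j := fun i j =>
    ⟨fun ⟨i', j', h, h'⟩ => by
      obtain ⟨rfl, rfl⟩ := inj _ _ _ _ h
      exact h', fun h => ⟨i, j, rfl, h⟩⟩
  by_cases hy : ∃ i j, y = s i j
  · obtain ⟨i, j, rfl⟩ := hy
    rw [hg, val, val, hφ, not_not]
    exact ⟨fun h => ⟨i, by rw [h]⟩, fun ⟨i', h⟩ => (inj _ _ _ _ h).2⟩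
  · refine iff_of_false (not_not.2 (iff_of_false ?_ ?_)) ?_
    · rintro ⟨i, j, h, -⟩
      refine hy ⟨i, j - 1, MulAction.injective g ?_⟩
      show g • y = g • s i (j - 1)
      rw [h, hg, sub_add_cancel]
    · rintro ⟨i, j, h, -⟩
      exact hy ⟨i, j, h⟩
    · rintro ⟨i, h⟩
      exact hy ⟨i, _, h⟩

theorem BorEps_jump {G L : Type} [Group G] [MulAction G L] (X Y : G) (hc : X * Y = Y * X) (y₀ : L)
    (inj : ∀ i j i' j' : ℤ, (X ^ i * Y ^ j) • y₀ = (X ^ i' * Y ^ j') • y₀ → i = i' ∧ j = j')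
    (φ : ℤ → ℤ → Prop) (h1 : ∀ i j, (φ i (j + 1) ↔ φ i j) ↔ j ≠ -1)
    (h2 : ∀ i j, (φ (i + 1) j ↔ φ i j) ↔ i ≠ -1) :
    ∃ d : L → Bool, (∀ y, d y = true ↔ ∃ i j : ℤ, y = (X ^ i * Y ^ j) • y₀ ∧ φ i j) ∧
      (∀ y, xor (d y) (d (Y • y)) = true ↔ ∃ i : ℤ, y = (X ^ i * Y⁻¹) • y₀) ∧
      ∀ y, xor (d y) (d (X • y)) = true ↔ ∃ j : ℤ, y = (X⁻¹ * Y ^ j) • y₀ := by
  classical
  have hC : Commute X Y := hc
  have bx : ∀ P Q : Prop, xor (decide P) (decide Q) = true ↔ ¬ (Q ↔ P) := fun P Q => by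
    by_cases P <;> by_cases Q <;> simp [*]
  refine ⟨fun y => decide (∃ i j : ℤ, y = (X ^ i * Y ^ j) • y₀ ∧ φ i j), fun y => by simp,
    fun y => ?_, fun y => ?_⟩
  · rw [bx]
    have := BorEps_sheet (fun i j => (X ^ i * Y ^ j) • y₀) inj Y (fun i j => by
      rw [← mul_smul, ← mul_assoc, ← (hC.zpow_left i).eq, mul_assoc, ← zpow_one_add, add_comm])
      φ h1 y
    simpa only [zpow_neg_one] using this
  · rw [bx]
    have := BorEps_sheet (fun j i => (X ^ i * Y ^ j) • y₀)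
      (fun j i j' i' h => (inj _ _ _ _ h).symm) X (fun j i => by
      rw [← mul_smul, ← mul_assoc, ← zpow_one_add, add_comm]) (fun j i => φ i j)
      (fun j i => h2 i j) y
    rw [exists_comm, exists_comm (p := fun j i => y = (X ^ i * Y ^ j) • y₀ ∧ φ i j)] at this
    simpa only [zpow_neg_one] using this

/-- A skew permutation of the double cover. -/
def BorEps_sk {G L : Type} [Group G] [MulAction G L] (g : G) (c : L → Bool) :
    Equiv.Perm (L × Bool) where
  toFun p := (g • p.1, xor p.2 (c p.1))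
  invFun p := (g⁻¹ • p.1, xor p.2 (c (g⁻¹ • p.1)))
  left_inv p := by simp
  right_inv p := by simp

theorem BorEps_sk_apply {G L : Type} [Group G] [MulAction G L] (g : G) (c : L → Bool)
    (p : L × Bool) : BorEps_sk g c p = (g • p.1, xor p.2 (c p.1)) := rfl

theorem BorEps_sk_mul {G L : Type} [Group G] [MulAction G L] (g h : G) (c e : L → Bool) :
    BorEps_sk g c * BorEps_sk h e = BorEps_sk (g * h) fun y => xor (e y) (c (h • y)) := by
  ext p
  · simp [BorEps_sk_apply, mul_smul]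
  · simp [BorEps_sk_apply]

/-- The trivial lift. -/
def BorEps_lift (G L : Type) [Group G] [MulAction G L] : G →* Equiv.Perm (L × Bool) :=
  MonoidHom.mk' (fun g => BorEps_sk g fun _ => false) fun g h => by
    rw [BorEps_sk_mul]; rfl

theorem BorEps_zpow {G L : Type} [Group G] [MulAction G L] (g : G) (k : ℤ) :
    (BorEps_sk g fun _ : L => false) ^ k = BorEps_sk (g ^ k) fun _ => false :=
  (map_zpow (BorEps_lift G L) g k).symm

theorem BorEps_zpow' {G L : Type} [Group G] [MulAction G L] (g : G) (d : L → Bool) (k : ℤ) :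
    (BorEps_sk g fun y => xor (d y) (d (g • y))) ^ k =
      BorEps_sk (g ^ k) fun y => xor (d y) (d (g ^ k • y)) := by
  have hD : (BorEps_sk (1 : G) d)⁻¹ = BorEps_sk (1 : G) d := by
    rw [inv_eq_iff_mul_eq_one]
    ext p
    · simp [BorEps_sk_apply]
    · simp [BorEps_sk_apply]
  have key : ∀ h : G, (BorEps_sk h fun y => xor (d y) (d (h • y))) =
      BorEps_sk (1 : G) d * (BorEps_sk h fun _ => false) * (BorEps_sk (1 : G) d)⁻¹ := fun h => by
    rw [hD, BorEps_sk_mul, BorEps_sk_mul]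
    simp
  rw [key, key, conj_zpow, BorEps_zpow]

theorem exists_eps {G L : Type} [Group G] [MulAction G L] {α β T : G} {p₁ q₁ p₂ q₂ : ℤ}
    (U : Uni α β T p₁ q₁ p₂ q₂) (y₀ : L) (trans : ∀ y, ∃ g : G, g • y₀ = y)
    (stab : ∀ g : G, g • y₀ = y₀ ↔ g ∈ Subgroup.zpowers T)
    (inj1 : ∀ i j i' j' : ℤ, ((α ^ q₁) ^ i * (β ^ q₂) ^ j) • y₀ =
      ((α ^ q₁) ^ i' * (β ^ q₂) ^ j') • y₀ → i = i' ∧ j = j')
    (inj2 : ∀ i j i' j' : ℤ, ((α ^ q₁ * β ^ p₂) ^ i * (β ^ q₂) ^ j) • y₀ =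
      ((α ^ q₁ * β ^ p₂) ^ i' * (β ^ q₂) ^ j') • y₀ → i = i' ∧ j = j') :
    ∃ εa εb : L → Bool, (∀ y, εa (α • y) = εa y) ∧ (∀ y, εb (β • y) = εb y) ∧ εa y₀ = true ∧
      (∀ y, εa y ≠ εb y ↔
        ∃ i j : ℤ, y = ((α ^ q₁) ^ i * (β ^ q₂) ^ j) • y₀ ∧ ¬ (0 ≤ i ↔ 0 ≤ j)) ∧
      ∀ y, εa (T • y) = εb y ↔
        ∃ i j : ℤ, y = ((α ^ q₁ * β ^ p₂) ^ i * (β ^ q₂) ^ j) • y₀ ∧ (0 ≤ i ↔ 0 ≤ j) := by
  obtain ⟨⟨r1, r2, comm⟩, gen, lift⟩ := U
  have hT : T • y₀ = y₀ := (stab T).2 (Subgroup.mem_zpowers T)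
  have comm2 : α ^ q₁ * β ^ p₂ * β ^ q₂ = β ^ q₂ * (α ^ q₁ * β ^ p₂) := by
    rw [mul_assoc, zpow_mul_comm β p₂ q₂, ← mul_assoc, comm, mul_assoc]
  obtain ⟨d1, a1, a2, a3⟩ := BorEps_jump _ _ comm y₀ inj1 (fun i j => ¬ (0 ≤ i ↔ 0 ≤ j))
    (fun i j => by omega) (fun i j => by omega)
  obtain ⟨d2, b1, b2, b3⟩ := BorEps_jump _ _ comm2 y₀ inj2 (fun i j => (0 ≤ i ↔ 0 ≤ j))
    (fun i j => by omega) (fun i j => by omega)
  have c0 : ∀ y, xor (d1 (α ^ q₁ • y)) (d1 (β ^ q₂ • α ^ q₁ • y)) =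
      xor (d1 y) (d1 (β ^ q₂ • y)) := fun y => by
    rw [Bool.eq_iff_iff, a2, a2]
    constructor
    · rintro ⟨i, h⟩
      refine ⟨i - 1, MulAction.injective (α ^ q₁) ?_⟩
      show α ^ q₁ • y = α ^ q₁ • _
      rw [h, ← mul_smul, ← mul_assoc, ← zpow_one_add, add_sub_cancel]
    · rintro ⟨i, h⟩
      refine ⟨1 + i, ?_⟩
      rw [h, ← mul_smul, ← mul_assoc, ← zpow_one_add]
  have c1 : ∀ y, xor (d1 ((α ^ p₁ * T) • y)) (d1 (β ^ q₂ • (α ^ p₁ * T) • y)) =
      xor (d2 y) (d2 (β ^ q₂ • y)) := fun y => by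
    rw [Bool.eq_iff_iff, a2, b2]
    refine exists_congr fun i => ?_
    have e1 : T * (α ^ q₁ * β ^ p₂) ^ i = (α ^ q₁) ^ i * T :=
      (SemiconjBy.zpow_right (show SemiconjBy T _ _ from r2) i).eq
    have e2 : T * (β ^ q₂)⁻¹ = (β ^ q₂ * α ^ p₁)⁻¹ * T :=
      (SemiconjBy.inv_right (show SemiconjBy T _ _ from r1)).eq
    have e3 : α ^ p₁ * (α ^ q₁) ^ i = (α ^ q₁) ^ i * α ^ p₁ := by
      rw [← zpow_mul, zpow_mul_comm]
    have e : (α ^ p₁ * T) • ((α ^ q₁ * β ^ p₂) ^ i * (β ^ q₂)⁻¹) • y₀ =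
        ((α ^ q₁) ^ i * (β ^ q₂)⁻¹) • y₀ := by
      rw [← mul_smul, mul_assoc, ← mul_assoc T, e1, mul_assoc, e2, ← mul_assoc, e3,
        ← mul_assoc, mul_smul _ T, hT]
      congr 1
      group
    rw [← e]
    exact (MulAction.injective (α ^ p₁ * T)).eq_iff
  have c2 : ∀ y, xor (d1 (β ^ p₂ • y)) (d1 (α ^ q₁ • β ^ p₂ • y)) =
      xor (d2 y) (d2 ((α ^ q₁ * β ^ p₂) • y)) := fun y => by
    rw [Bool.eq_iff_iff, a3, b3]
    refine exists_congr fun j => ?_
    have e : β ^ p₂ • ((α ^ q₁ * β ^ p₂)⁻¹ * (β ^ q₂) ^ j) • y₀ =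
        ((α ^ q₁)⁻¹ * (β ^ q₂) ^ j) • y₀ := by
      rw [← mul_smul]
      congr 1
      group
    rw [← e]
    exact (MulAction.injective (β ^ p₂)).eq_iff
  obtain ⟨f, fα, fβ, fT⟩ := lift (Equiv.Perm (L × Bool)) (BorEps_sk α fun _ => false)
    (BorEps_sk β fun y => xor (d1 y) (d1 (β • y)))
    (BorEps_sk T fun y => !(xor (d1 y) (d2 y))) (by
      refine ⟨?_, ?_, ?_⟩
      · simp only [BorEps_zpow, BorEps_zpow', BorEps_sk_mul]
        rw [r1]
        congr 1
        funext y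
        have := c1 y
        rw [mul_smul] at this
        revert this
        generalize d1 (α ^ p₁ • T • y) = x1
        generalize d1 (β ^ q₂ • α ^ p₁ • T • y) = x2
        generalize d1 y = x3
        generalize d2 y = x4
        generalize d1 (β ^ q₂ • y) = x5
        generalize d2 (β ^ q₂ • y) = x6
        revert x1 x2 x3 x4 x5 x6
        decide
      · simp only [BorEps_zpow, BorEps_zpow', BorEps_sk_mul]
        rw [r2]
        congr 1
        funext y
        have := c2 y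
        simp only [mul_smul] at this ⊢
        revert this
        generalize d1 (α ^ q₁ • β ^ p₂ • y) = x1
        generalize d2 (α ^ q₁ • β ^ p₂ • y) = x2
        generalize d1 y = x3
        generalize d2 y = x4
        generalize d1 (β ^ p₂ • y) = x5
        revert x1 x2 x3 x4 x5
        decide
      · simp only [BorEps_zpow, BorEps_zpow', BorEps_sk_mul]
        rw [comm]
        congr 1
        funext y
        rw [c0]
        simp)
  have cover : ∀ g p, (f g p).1 = g • p.1 := by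
    intro g
    have hg : g ∈ Subgroup.closure {α, β, T} := gen ▸ Subgroup.mem_top g
    induction hg using Subgroup.closure_induction with
    | mem x hx =>
      rcases hx with rfl | rfl | rfl
      · intro p; rw [fα]; rfl
      · intro p; rw [fβ]; rfl
      · intro p; rw [fT]; rfl
    | one => intro p; simp
    | mul x y _ _ hx hy => intro p; rw [map_mul, Equiv.Perm.mul_apply, hx, hy, mul_smul]
    | inv x _ hx =>
      intro p
      have := hx (f x⁻¹ p)
      rw [← Equiv.Perm.mul_apply, ← map_mul, mul_inv_cancel, map_one] at this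
      rw [eq_inv_smul_iff, ← this]; rfl
  have v1 : d1 y₀ = false := by
    rw [← Bool.not_eq_true, a1]
    rintro ⟨i, j, h, h'⟩
    obtain ⟨rfl, rfl⟩ := inj1 0 0 i j (by simpa using h)
    exact h' Iff.rfl
  have v2 : d2 y₀ = true := (b1 y₀).2 ⟨0, 0, by simp, Iff.rfl⟩
  have fix : ∀ g : G, g • y₀ = y₀ → f g (y₀, true) = (y₀, true) := by
    intro g hg
    obtain ⟨k, rfl⟩ := (stab g).1 hg
    have : f T (y₀, true) = (y₀, true) := by
      rw [fT, BorEps_sk_apply]; simp [hT, v1, v2]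
    show f (T ^ k) (y₀, true) = _
    rw [map_zpow]
    exact Equiv.Perm.zpow_apply_eq_self_of_apply_eq_self this k
  choose γ hγ using trans
  have k1 : ∀ g : G, f g (y₀, true) = (g • y₀, (f (γ (g • y₀)) (y₀, true)).2) := fun g => by
    have h := fix ((γ (g • y₀))⁻¹ * g) (by rw [mul_smul, inv_smul_eq_iff, hγ])
    have h' : f g (y₀, true) = f (γ (g • y₀)) (y₀, true) := by
      conv_rhs => rw [← h, ← Equiv.Perm.mul_apply, ← map_mul, mul_inv_cancel_left]
    exact Prod.ext (cover g _) (by rw [h'])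
  set ε : L → Bool := fun y => (f (γ y) (y₀, true)).2 with hε
  have k2 : ∀ (g : G) (y : L), f g (y, ε y) = (g • y, ε (g • y)) := fun g y => by
    have h1 := k1 (γ y)
    have h2 := k1 (g * γ y)
    rw [hγ] at h1
    rw [map_mul, Equiv.Perm.mul_apply, h1, mul_smul, hγ] at h2
    exact h2
  refine ⟨ε, fun y => xor (ε y) (d1 y), fun y => ?_, fun y => ?_, ?_, fun y => ?_, fun y => ?_⟩
  · have := congrArg Prod.snd (k2 α y)
    rw [fα, BorEps_sk_apply] at this
    simpa using this.symm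
  · have := congrArg Prod.snd (k2 β y)
    rw [fβ, BorEps_sk_apply] at this
    simp only at this ⊢
    rw [← this]
    simp
  · simp only [hε]
    rw [fix _ (hγ y₀)]
  · rw [← a1]
    show ε y ≠ xor (ε y) (d1 y) ↔ _
    cases ε y <;> cases d1 y <;> simp
  · have := congrArg Prod.snd (k2 T y)
    rw [fT, BorEps_sk_apply] at this
    simp only at this ⊢
    rw [← b1, ← this]
    cases ε y <;> cases d1 y <;> cases d2 y <;> simp

end Pool.Agent.Work.MP_3d425c_gt.Bor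
end

-- merged part: Pool.Agent.Work.MP_3d425c_gt.BorX1
section
/-! The tree of lines over a linear order. -/

namespace Pool.Agent.Work.MP_3d425c_gt.Bor
open Classical FreeGroup

variable {L : Type}

/-- Directions: a line, a height, and down or up. -/
abbrev DW (L : Type) := FreeGroup L × L × Bool

/-- Directions at one vertex. -/
def vs (L : Type) : Setoid (DW L) where
  r w w' := w.2.1 = w'.2.1 ∧ ∃ k : ℤ, w'.1 = w.1 * of w.2.1 ^ k
  iseqv := ⟨fun w => ⟨rfl, 0, by simp⟩, fun {w w'} ⟨h, k, e⟩ => ⟨h.symm, -k, by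
    rw [e, h]; group⟩, fun {w w' w''} ⟨h, k, e⟩ ⟨h', k', e'⟩ => ⟨h.trans h', k + k', by
    rw [e', e, ← h]; group⟩⟩

/-- Vertices. -/
abbrev VV (L : Type) := Quotient (vs L)

/-- The vertex of a direction. -/
def vw (w : DW L) : VV L := Quotient.mk (vs L) w

/-- The vertex at height `y` on the line `m`. -/
def vt (m : FreeGroup L) (y : L) : VV L := vw (m, y, false)

theorem vw_eq {w w' : DW L} :
    vw w = vw w' ↔ w.2.1 = w'.2.1 ∧ ∃ k : ℤ, w'.1 = w.1 * of w.2.1 ^ k := Quotient.eq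

theorem vw_vt (m : FreeGroup L) (y : L) (b : Bool) : vw (m, y, b) = vt m y :=
  vw_eq.2 ⟨rfl, 0, by simp⟩

theorem vt_lt (m : FreeGroup L) (l : L × Bool) : vt (m * lt l) l.1 = vt m l.1 := by
  rcases l with ⟨y, _ | _⟩
  · exact vw_eq.2 ⟨rfl, 1, by simp [lt_false]⟩
  · exact vw_eq.2 ⟨rfl, -1, by simp [lt_true]⟩

theorem vt_ne {m m' : FreeGroup L} {y y' : L} (h : y ≠ y') : vt m y ≠ vt m' y' :=
  fun e => h (vw_eq.1 e).1

theorem exists_vt (a : VV L) : ∃ m y, a = vt m y :=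
  Quotient.inductionOn a fun w => ⟨w.1, w.2.1, vw_vt _ _ _⟩

/-- The height of the first letter, with a default. -/
noncomputable def nx0 (u : FreeGroup L) (y : L) : L := ((fl u).map Prod.fst).getD y

theorem nx0_one (y : L) : nx0 1 y = y := by simp [nx0, fl_one]

theorem nx0_some {u : FreeGroup L} {l : L × Bool} (h : fl u = some l) (y : L) : nx0 u y = l.1 := by
  simp [nx0, h]

theorem nx0_lt (u : FreeGroup L) (l : L × Bool) : nx0 (u * lt l) l.1 = nx0 u l.1 := by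
  by_cases h1 : u = 1
  · rw [h1, one_mul, nx0_one, nx0_some (fl_lt l)]
  by_cases h2 : u * lt l = 1
  · rw [h2, nx0_one, eq_inv_of_mul_eq_one_left h2, ← lt_linv, nx0_some (fl_lt _)]
    rfl
  · rw [nx0, fl_mul_lt h1 h2, nx0]

theorem nx0_pow (u : FreeGroup L) (y : L) (k : ℤ) : nx0 (u * of y ^ k) y = nx0 u y := by
  induction k using Int.induction_on with
  | zero => simp
  | succ k ih => rw [zpow_add_one, ← mul_assoc, ← ih]; exact nx0_lt _ (y, true)
  | pred k ih => rw [zpow_sub_one, ← mul_assoc, ← ih, ← lt_false]; exact nx0_lt _ (y, false)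

/-- The height at which the path to a vertex leaves the line `m`. -/
noncomputable def nx (m : FreeGroup L) : VV L → L :=
  Quotient.lift (fun w : DW L => nx0 (m⁻¹ * w.1) w.2.1) fun w w' ⟨h, k, e⟩ => by
    rw [e, ← h, ← mul_assoc, nx0_pow]

theorem nx_vt (m n : FreeGroup L) (y : L) : nx m (vt n y) = nx0 (m⁻¹ * n) y := rfl

theorem nx_self (m : FreeGroup L) (y : L) : nx m (vt m y) = y := by
  rw [nx_vt, inv_mul_cancel, nx0_one]

theorem nx_congr {m k : FreeGroup L} (h : m ≠ k) (y y' : L) : nx m (vt k y) = nx m (vt k y') := by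
  obtain ⟨l, hl⟩ := exists_fl (g := m⁻¹ * k) fun e => h (inv_mul_eq_one.1 e)
  rw [nx_vt, nx_vt, nx0_some hl, nx0_some hl]

theorem nx_far {m k : FreeGroup L} (h : m ≠ k) {b : VV L} {y : L} (H : nx k b ≠ nx k (vt m y))
    (y' : L) : nx m b = nx m (vt k y') := by
  obtain ⟨n, t, rfl⟩ := exists_vt b
  obtain ⟨l, hl⟩ := exists_fl (g := m⁻¹ * k) fun e => h (inv_mul_eq_one.1 e)
  obtain ⟨l', hl'⟩ := exists_fl (g := k⁻¹ * m) fun e => h (inv_mul_eq_one.1 e).symm
  have := fl_t1 (b := n) h fun e => H (by rw [nx_vt, nx_vt, nx0_some hl', nx0_some (e ▸ hl')])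
  rw [nx_vt, nx_vt, nx0_some hl, nx0_some (this.trans hl)]

theorem nx_other {m k : FreeGroup L} {y : L} (e : vt m y = vt k y) (h : m ≠ k) {b : VV L}
    (H : nx k b ≠ y) : nx m b = y := by
  rw [nx_far h (y := y) (by rwa [e, nx_self]) y, ← e, nx_self]

/-- Word length. -/
noncomputable def nm (u : FreeGroup L) : ℕ := norm u

theorem nm_lt {m n : FreeGroup L} {l : L × Bool} (h : fl (m⁻¹ * n) = some l) :
    nm ((m * lt l)⁻¹ * n) < nm (m⁻¹ * n) := by
  have := norm_step h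
  rw [mul_inv_rev, mul_assoc, nm, nm]
  omega

variable [LinearOrder L]

/-- The direction `w` points to `b`. -/
def Pt (w : DW L) (b : VV L) : Prop := nx w.1 b ≠ w.2.1 ∧ w.2.2 = decide (w.2.1 < nx w.1 b)

theorem exists_pt {a b : VV L} (h : a ≠ b) : ∃ w, vw w = a ∧ Pt w b := by
  obtain ⟨n, t, rfl⟩ := exists_vt b
  obtain ⟨m, y, rfl⟩ := exists_vt a
  induction hn : nm (m⁻¹ * n) using Nat.strong_induction_on generalizing m with
  | _ N ih =>
    by_cases e : nx m (vt n t) = y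
    · obtain ⟨l, hl⟩ := exists_fl (g := m⁻¹ * n) fun e' => h (by
        rw [nx_vt, e', nx0_one] at e
        rw [inv_mul_eq_one.1 e', e])
      rw [nx_vt, nx0_some hl] at e
      subst e
      rw [← vt_lt] at h ⊢
      exact ih _ (hn ▸ nm_lt hl) _ h rfl
    · exact ⟨(m, y, decide (y < nx m (vt n t))), vw_vt _ _ _, e, rfl⟩

theorem Pt.uniq {w w' : DW L} {b : VV L} (h : Pt w b) (h' : Pt w' b) (e : vw w = vw w') :
    w = w' := by
  obtain ⟨m, y, c⟩ := w
  obtain ⟨m', y', c'⟩ := w'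
  obtain rfl : y = y' := (vw_eq.1 e).1
  rw [vw_vt, vw_vt] at e
  obtain rfl : m = m' := by
    by_contra hn
    exact h.1 (nx_other e hn h'.1)
  rw [show c = c' from h.2.trans h'.2.symm]

/-- The direction from `a` to `b`. -/
noncomputable def Dir (a b : VV L) : DW L :=
  if h : ∃ w, vw w = a ∧ Pt w b then h.choose else a.out

theorem Dir_spec {a b : VV L} (h : a ≠ b) : vw (Dir a b) = a ∧ Pt (Dir a b) b := by
  rw [Dir, dif_pos (exists_pt h)]
  exact (exists_pt h).choose_spec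

theorem Pt.ne {w : DW L} {b : VV L} (h : Pt w b) : vw w ≠ b := fun e =>
  h.1 (by rw [← e, show vw w = vt w.1 w.2.1 from vw_vt _ _ _, nx_self])

theorem Pt.dir {w : DW L} {b : VV L} (h : Pt w b) : Dir (vw w) b = w :=
  (Dir_spec h.ne).2.uniq h (Dir_spec h.ne).1

theorem Dir_line (m : FreeGroup L) {y y' : L} (h : y ≠ y') :
    Dir (vt m y) (vt m y') = (m, y, decide (y < y')) := by
  rw [← vw_vt m y (decide (y < y'))]
  exact Pt.dir ⟨by rw [nx_self]; exact h.symm, by rw [nx_self]⟩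

theorem Dir_t1 {a v b : VV L} (ha : a ≠ v) (hb : b ≠ v) (H : Dir v a ≠ Dir v b) :
    Dir a b = Dir a v := by
  obtain ⟨e, h⟩ := Dir_spec ha
  obtain ⟨e1, h1⟩ := Dir_spec ha.symm
  obtain ⟨e2, h2⟩ := Dir_spec hb.symm
  generalize Dir a v = w at *
  generalize Dir v a = w1 at *
  generalize Dir v b = w2 at *
  obtain ⟨m, y, c⟩ := w
  obtain ⟨k1, u, c1⟩ := w1
  obtain ⟨k2, u', c2⟩ := w2
  obtain rfl : u = u' := (vw_eq.1 (e1.trans e2.symm)).1
  rw [vw_vt] at e e1 e2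
  subst e e1
  rw [← vw_vt m y c]
  refine Pt.dir ?_
  simp only [Pt] at h h1 h2 ⊢
  have key : k1 ≠ k2 → nx k1 b = u := fun hk => nx_other e2.symm hk h2.1
  by_cases hm : m = k1
  · subst hm
    rw [nx_self] at h h1
    by_cases hk : m = k2
    · subst hk
      have hc : c1 ≠ c2 := fun e => H (by rw [e])
      rw [h1.2, h2.2] at hc
      rw [h.2]
      rcases lt_or_gt_of_ne h.1 with h3 | h3
      · have h4 : nx m b < u := lt_of_le_of_ne (not_lt.1 fun h5 => hc (by simp [h3, h5])) h2.1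
        exact ⟨(h4.trans h3).ne, by simp [h3.not_gt, (h4.trans h3).not_gt]⟩
      · have h4 : u < nx m b := by
          by_contra h5
          exact hc (by simp [h3.not_gt, h5])
        exact ⟨(h3.trans h4).ne', by simp [h3, h3.trans h4]⟩
    · rwa [key hk]
  · rwa [nx_far hm (b := b) (y := y) ?_ u]
    by_cases hk : k1 = k2
    · subst hk
      exact fun e => H (by rw [h1.2, h2.2, e])
    · rw [key hk]
      exact h1.1.symm

theorem line_ind {a : VV L} {Q : VV L → Prop}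
    (base : ∀ m y y', a = vt m y → y ≠ y' → Q (vt m y'))
    (step : ∀ m y y', vt m y ≠ a → y ≠ y' → Q (vt m y) →
      Dir (vt m y) a ≠ Dir (vt m y) (vt m y') → Q (vt m y')) {b : VV L} (h : b ≠ a) : Q b := by
  obtain ⟨n, t, rfl⟩ := exists_vt a
  obtain ⟨m, y, rfl⟩ := exists_vt b
  induction hn : nm (m⁻¹ * n) using Nat.strong_induction_on generalizing m y with
  | _ N ih =>
    by_cases e : m = n
    · subst e
      exact base m t y rfl fun e => h (by rw [e])
    obtain ⟨l, hl⟩ := exists_fl (g := m⁻¹ * n) fun e' => e (inv_mul_eq_one.1 e')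
    have ih' : vt m l.1 ≠ vt n t → Q (vt m l.1) := fun h' => by
      rw [← vt_lt] at h' ⊢
      exact ih _ (hn ▸ nm_lt hl) _ _ h' rfl
    by_cases e1 : l.1 = y
    · exact e1 ▸ ih' (e1 ▸ h)
    by_cases e2 : vt m l.1 = vt n t
    · exact base m l.1 y e2.symm e1
    · refine step m l.1 y e2 e1 (ih' e2) fun e3 => ?_
      have := (Dir_spec e2).2
      rw [e3, Dir_line m e1] at this
      exact this.1 (nx0_some hl t)

/-- Exponent sum. -/
def len (n : FreeGroup L) : ℤ := (FreeGroup.lift (fun _ => Multiplicative.ofAdd (1 : ℤ)) n).toAdd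

omit [LinearOrder L] in
theorem len_mul (m n : FreeGroup L) : len (m * n) = len m + len n := by simp [len]

omit [LinearOrder L] in
theorem len_of (y : L) : len (of y) = 1 := by simp [len]

/-- The index of a direction. -/
def idx (ε : L → Bool) (w : DW L) : ℤ :=
  2 * len w.1 + if w.2.2 then (if ε w.2.1 then 1 else -1) else 0

/-- Rotation by one step about the vertex. -/
noncomputable def spin (ε : L → Bool) : Equiv.Perm (DW L) where
  toFun w := (if w.2.2 = ε w.2.1 then w.1 * of w.2.1 else w.1, w.2.1, !w.2.2)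
  invFun w := (if w.2.2 = ε w.2.1 then w.1 else w.1 * (of w.2.1)⁻¹, w.2.1, !w.2.2)
  left_inv := fun ⟨n, y, b⟩ => by cases b <;> cases h : ε y <;> simp [h]
  right_inv := fun ⟨n, y, b⟩ => by cases b <;> cases h : ε y <;> simp [h]

section
omit [LinearOrder L]
variable (ε : L → Bool)

theorem rot_apply (n : FreeGroup L) (y : L) (b : Bool) :
    spin ε (n, y, b) = (if b = ε y then n * of y else n, y, !b) := rfl

theorem idx_rot (w : DW L) : idx ε (spin ε w) = idx ε w + 1 := by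
  obtain ⟨n, y, b⟩ := w
  cases b <;> cases h : ε y <;> simp [rot_apply, idx, h, len_mul, len_of] <;> ring

theorem idx_rot_zpow (k : ℤ) (w : DW L) : idx ε ((spin ε ^ k) w) = idx ε w + k := by
  induction k using Int.induction_on generalizing w with
  | zero => simp
  | succ k ih => rw [zpow_add_one, Equiv.Perm.mul_apply, ih, idx_rot]; ring
  | pred k ih =>
    have := idx_rot ε ((spin ε)⁻¹ w)
    rw [zpow_sub_one, Equiv.Perm.mul_apply, ih]
    rw [← Equiv.Perm.mul_apply, mul_inv_cancel, Equiv.Perm.one_apply] at this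
    omega

theorem vw_rot (w : DW L) : vw (spin ε w) = vw w := by
  obtain ⟨n, y, b⟩ := w
  rw [rot_apply, vw_vt, vw_vt]
  split_ifs
  · exact vt_lt n (y, true)
  · rfl

theorem vw_rot_zpow (k : ℤ) (w : DW L) : vw ((spin ε ^ k) w) = vw w := by
  induction k using Int.induction_on generalizing w with
  | zero => simp
  | succ k ih => rw [zpow_add_one, Equiv.Perm.mul_apply, ih, vw_rot]
  | pred k ih =>
    rw [zpow_sub_one, Equiv.Perm.mul_apply, ih, ← vw_rot ε, ← Equiv.Perm.mul_apply,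
      mul_inv_cancel, Equiv.Perm.one_apply]

theorem rot_two (n : FreeGroup L) (y : L) (b : Bool) :
    spin ε (spin ε (n, y, b)) = (n * of y, y, b) := by
  cases b <;> cases h : ε y <;> simp [rot_apply, h]

theorem exists_rot {w w' : DW L} (h : vw w = vw w') : ∃ k : ℤ, (spin ε ^ k) w = w' := by
  obtain ⟨n, y, b⟩ := w
  obtain ⟨n', y', b'⟩ := w'
  obtain ⟨rfl, k, rfl⟩ : y = y' ∧ ∃ k : ℤ, n' = n * of y ^ k := vw_eq.1 h
  have r : Equivalence fun w w' : DW L => ∃ k : ℤ, (spin ε ^ k) w = w' :=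
    ⟨fun w => ⟨0, rfl⟩, fun ⟨k, e⟩ => ⟨-k, by rw [← e, zpow_neg]; simp⟩,
      fun ⟨k, e⟩ ⟨k', e'⟩ => ⟨k' + k, by rw [zpow_add, Equiv.Perm.mul_apply, e, e']⟩⟩
  have two : ∀ n, ∃ k : ℤ, (spin ε ^ k) (n, y, b') = (n * of y, y, b') := fun n =>
    ⟨2, by rw [zpow_two, Equiv.Perm.mul_apply, rot_two]⟩
  refine r.trans (y := (n, y, b')) ?_ ?_
  · by_cases e : b = b'
    · exact ⟨0, by rw [e]; rfl⟩
    · by_cases e' : b = ε y
      · exact r.symm ⟨1, by
          rw [zpow_one, rot_apply, if_neg (fun h => e (e'.trans h.symm))]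
          revert e
          cases b <;> cases b' <;> simp⟩
      · exact ⟨1, by
          rw [zpow_one, rot_apply, if_neg e']
          revert e
          cases b <;> cases b' <;> simp⟩
  · clear h
    induction k using Int.induction_on with
    | zero => exact ⟨0, by simp⟩
    | succ k ih => exact r.trans ih (by rw [zpow_add_one, ← mul_assoc]; exact two _)
    | pred k ih =>
      refine r.trans ih (r.symm ?_)
      have := two (n * of y ^ (-(k : ℤ) - 1))
      rwa [mul_assoc, ← zpow_add_one, sub_add_cancel] at this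

theorem idx_inj {w w' : DW L} (h : vw w = vw w') (e : idx ε w = idx ε w') : w = w' := by
  obtain ⟨k, rfl⟩ := exists_rot ε h
  rw [idx_rot_zpow] at e
  rw [show k = 0 by omega]
  rfl

theorem idx_odd (w : DW L) : Odd (idx ε w) ↔ w.2.2 = true := by
  rw [idx, Int.odd_iff]
  cases w.2.2 <;> cases ε w.2.1 <;> simp

end

variable (ε : L → Bool)

/-- The integral direction function. -/
noncomputable def dirI (a b : VV L) : ℤ := idx ε (Dir a b)

theorem dirI_t1 : T1 (dirI ε) := fun a v b ha hb H => by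
  rw [dirI, Dir_t1 ha hb fun e => H (by rw [dirI, e, dirI]), dirI]

theorem dirI_str (m : FreeGroup L) {y y' : L} (h : y ≠ y') : Str (dirI ε) (vt m y) (vt m y') := by
  refine ⟨vt_ne h, ?_, fun u h1 h2 => ?_⟩
  · rw [dirI, dirI, Int.odd_add, ← Int.not_odd_iff_even, idx_odd, idx_odd, Dir_line m h,
      Dir_line m h.symm]
    simpa using ⟨le_of_lt, fun e => lt_of_le_of_ne e h⟩
  · obtain ⟨e, hp⟩ := Dir_spec h1.symm
    unfold dirI
    generalize Dir u (vt m y) = w at *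
    obtain ⟨k, t, c⟩ := w
    subst e
    by_cases hk : k = m
    · subst hk
      rw [vw_vt] at h2 ⊢
      rw [Dir_line k fun e => h2 (by rw [e])]
      simp only [idx]
      cases c <;> cases ε t <;> cases decide (t < y') <;> simp
    · rw [Pt.dir (b := vt m y') (by simpa only [Pt, nx_congr hk y y'] using hp)]
      simp

theorem dirI_geo (a b : VV L) (h : a ≠ b) : Geo (dirI ε) a b := by
  refine line_ind (Q := Geo (dirI ε) a) (fun m y y' e h => ?_) (fun m y y' h1 h2 h3 h4 => ?_) h.symm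
  · rw [e]
    exact .base (dirI_str ε m h)
  · exact .step h3 (dirI_str ε m h2) ⟨h1.symm, vt_ne h2.symm, fun e => h4 (idx_inj ε
      ((Dir_spec h1).1.trans (Dir_spec (vt_ne h2)).1.symm) e)⟩

end Pool.Agent.Work.MP_3d425c_gt.Bor
end

-- merged part: Pool.Agent.Work.MP_3d425c_gt.BorX2
section
/-! Morphisms of trees of lines. -/

namespace Pool.Agent.Work.MP_3d425c_gt.Bor
open Classical FreeGroup

variable {L : Type} [LinearOrder L]

/-- The height `t` lies below the half point `z`. -/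
def bel (z : L × Bool) (t : L) : Prop := t < z.1 ∨ (t = z.1 ∧ z.2 = true)

theorem bel_false {y t : L} : bel (y, false) t ↔ t < y := by simp [bel]

theorem bel_true {y t : L} : bel (y, true) t ↔ t ≤ y := by simp [bel, le_iff_lt_or_eq]

theorem bel.mono {z : L × Bool} {t u : L} (h : bel z t) (hu : u ≤ t) : bel z u := by
  rcases hu.eq_or_lt with rfl | hu
  · exact h
  · exact Or.inl (h.elim hu.trans fun e => e.1 ▸ hu)

theorem LF.mono {D D' : Set L} (h : LF D) (hs : D' ⊆ D) : LF D' := fun y y' =>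
  (h y y').subset (Set.inter_subset_inter_left _ hs)

theorem LF.union {D D' : Set L} (h : LF D) (h' : LF D') : LF (D ∪ D') := fun y y' => by
  rw [Set.union_inter_distrib_right]
  exact (h y y').union (h' y y')

theorem LF.empty : LF (∅ : Set L) := fun _ _ => by simp

theorem LF.half {D : Set L} (h : LF D) (z z' : L × Bool) :
    {t | t ∈ D ∧ bel z t ∧ ¬ bel z' t}.Finite := by
  refine (((h z'.1 z.1).insert z.1).insert z'.1).subset fun t ⟨h1, h2, h3⟩ => ?_
  by_contra hn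
  simp only [Set.mem_insert_iff, not_or] at hn
  exact hn.2.2 ⟨h1, lt_of_le_of_ne (not_lt.1 fun e => h3 (Or.inl e)) (Ne.symm hn.1),
    h2.resolve_right fun e => hn.2.1 e.1⟩

theorem chain {X : Sort*} {D : Set L} (hD : LF D) {c : L × Bool → X}
    (gap : ∀ z z', (∀ t ∈ D, bel z t ↔ bel z' t) → c z = c z') {J : L → Prop}
    (jump : ∀ t, J t → c (t, false) = c (t, true)) {z z' : L × Bool}
    (h : ∀ t, ¬ (bel z t ↔ bel z' t) → J t) : c z = c z' := by
  obtain ⟨s, hs⟩ : ∃ s : Finset L, ∀ t ∈ D, ¬ (bel z t ↔ bel z' t) → t ∈ s :=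
    ⟨((hD.half z z').union (hD.half z' z)).toFinset, fun t h1 h2 => by
      simp only [Set.Finite.mem_toFinset, Set.mem_union, Set.mem_ofPred_eq]
      tauto⟩
  induction s using Finset.induction_on generalizing z z' with
  | empty => exact gap z z' fun t ht => by_contra fun hn => by simpa using hs t ht hn
  | insert t s _ ih =>
    have key : ∀ z z' : L × Bool, (∀ t, ¬ (bel z t ↔ bel z' t) → J t) →
        (∀ u ∈ D, ¬ (bel z u ↔ bel z' u) → u ∈ insert t s) → ¬ bel z t → bel z' t →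
        c z = c z' := fun z z' h hs h1 h2 => by
      have a1 : ∀ u, ¬ (bel z u ↔ bel (t, false) u) → ¬ (bel z u ↔ bel z' u) ∧ u ≠ t :=
        fun u hu => by
          rw [bel_false] at hu
          have b1 : bel z u → u < t := fun e => not_le.1 fun e' => h1 (e.mono e')
          have b2 : u < t := by tauto
          exact ⟨fun e => hu ⟨b1, fun _ => e.2 (h2.mono b2.le)⟩, b2.ne⟩
      have a2 : ∀ u, ¬ (bel (t, true) u ↔ bel z' u) → ¬ (bel z u ↔ bel z' u) ∧ u ≠ t :=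
        fun u hu => by
          rw [bel_true] at hu
          have b1 : u ≤ t → bel z' u := h2.mono
          have b2 : ¬ u ≤ t := by tauto
          have b3 : bel z' u := by_contra fun b3 => hu ⟨b1, fun e => absurd e b3⟩
          exact ⟨fun e => h1 ((e.2 b3).mono (not_le.1 b2).le), fun e => b2 e.le⟩
      rw [ih (fun u hu => h u (a1 u hu).1) fun u h3 hu =>
          (Finset.mem_insert.1 (hs u h3 (a1 u hu).1)).resolve_left (a1 u hu).2,
        jump t (h t (by tauto)), ih (fun u hu => h u (a2 u hu).1) fun u h3 hu =>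
          (Finset.mem_insert.1 (hs u h3 (a2 u hu).1)).resolve_left (a2 u hu).2]
    by_cases e : bel z t ↔ bel z' t
    · exact ih h fun u h1 h2 => (Finset.mem_insert.1 (hs u h1 h2)).resolve_left
        fun e' => h2 (e' ▸ e)
    · by_cases e' : bel z t
      · exact (key z' z (fun t ht => h t fun e => ht e.symm)
          (fun u h1 h2 => hs u h1 fun e => h2 e.symm) (by tauto) e').symm
      · exact key z z' h hs e' (by_contra fun h2 => e (iff_of_false e' h2))

theorem lf_ind {D : Set L} (hD : LF D) {Q : L → L → Prop}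
    (base : ∀ y y', y < y' → (∀ t ∈ D, ¬ (y < t ∧ t < y')) → Q y y')
    (step : ∀ y t y', y < t → t < y' → Q y t → Q t y' → Q y y') {y y' : L} (h : y < y') :
    Q y y' := by
  obtain ⟨s, hs⟩ : ∃ s : Finset L, ∀ t ∈ D, y < t ∧ t < y' → t ∈ s :=
    ⟨(hD y y').toFinset, fun t h1 h2 => by simpa using ⟨h1, h2⟩⟩
  induction s using Finset.induction_on generalizing y y' with
  | empty => exact base y y' h fun t ht hn => by simpa using hs t ht hn
  | insert t s _ ih =>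
    by_cases e : y < t ∧ t < y'
    · exact step y t y' e.1 e.2
        (ih e.1 fun u h1 h2 => (Finset.mem_insert.1 (hs u h1 ⟨h2.1, h2.2.trans e.2⟩)).resolve_left
          h2.2.ne)
        (ih e.2 fun u h1 h2 => (Finset.mem_insert.1 (hs u h1 ⟨e.1.trans h2.1, h2.2⟩)).resolve_left
          h2.1.ne')
    · exact ih h fun u h1 h2 => (Finset.mem_insert.1 (hs u h1 h2)).resolve_left
        fun e' => e (e' ▸ h2)

theorem exists_path {X : Type} [Group X] {D : Set L} (hD : LF D) (j : L → X) (z₀ : L × Bool) :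
    ∃ c : L × Bool → X, (∀ t ∈ D, c (t, true) = c (t, false) * j t) ∧
      ∀ z z', (∀ t ∈ D, bel z t ↔ bel z' t) → c z = c z' := by
  let up : L × Bool → Finset L := fun z => (hD.half z z₀).toFinset
  let dn : L × Bool → Finset L := fun z => (hD.half z₀ z).toFinset
  have mup : ∀ z t, t ∈ up z ↔ t ∈ D ∧ bel z t ∧ ¬ bel z₀ t := fun z t => Set.Finite.mem_toFinset _
  have mdn : ∀ z t, t ∈ dn z ↔ t ∈ D ∧ bel z₀ t ∧ ¬ bel z t := fun z t => Set.Finite.mem_toFinset _
  refine ⟨fun z => ((((dn z).sort (· ≤ ·)).map j).prod)⁻¹ *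
    ((((up z).sort (· ≥ ·)).map fun t => (j t)⁻¹).prod)⁻¹, fun t ht => ?_, fun z z' h => ?_⟩
  · by_cases e : bel z₀ t
    · have h1 : ∀ b, up (t, b) = ∅ := fun b => Finset.eq_empty_of_forall_notMem fun u hu => by
        obtain ⟨-, h2, h3⟩ := (mup _ _).1 hu
        exact h3 (e.mono (h2.elim le_of_lt fun e => e.1.le))
      have h2 : dn (t, false) = insert t (dn (t, true)) := by
        ext u
        rw [Finset.mem_insert, mdn, mdn, bel_false, bel_true]
        rcases eq_or_ne u t with rfl | hu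
        · simp [ht, e]
        · simp [hu, hu.le_iff_lt]
      simp only [h1, h2]
      rw [Finset.sort_insert _ (fun u hu => (not_le.1 (bel_true.not.1 ((mdn _ _).1 hu).2.2)).le)
        fun hu => ((mdn _ _).1 hu).2.2 (bel_true.2 le_rfl)]
      simp
    · have h1 : ∀ b, dn (t, b) = ∅ := fun b => Finset.eq_empty_of_forall_notMem fun u hu => by
        obtain ⟨-, h2, h3⟩ := (mdn _ _).1 hu
        exact e (h2.mono (not_lt.1 fun e => h3 (Or.inl e)))
      have h2 : up (t, true) = insert t (up (t, false)) := by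
        ext u
        rw [Finset.mem_insert, mup, mup, bel_false, bel_true]
        rcases eq_or_ne u t with rfl | hu
        · simp [ht, e]
        · simp [hu, hu.le_iff_lt]
      simp only [h1, h2]
      rw [Finset.sort_insert _ (fun u hu => (bel_false.1 ((mup _ _).1 hu).2.1).le)
        fun hu => lt_irrefl _ (bel_false.1 ((mup _ _).1 hu).2.1)]
      simp
  · have h1 : up z = up z' := by
      ext u
      rw [mup, mup]
      exact and_congr_right fun hu => by rw [h u hu]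
    have h2 : dn z = dn z' := by
      ext u
      rw [mdn, mdn]
      exact and_congr_right fun hu => by rw [h u hu]
    simp only [h1, h2]

/-- Increasing or decreasing bijections. -/
structure Ori (g : L → L) (o : Bool) : Prop where
  lt : ∀ y y', g y < g y' ↔ if o then y' < y else y < y'
  surj : Function.Surjective g

theorem Ori.inj {g : L → L} {o : Bool} (h : Ori g o) : Function.Injective g := fun y y' e => by
  have h1 := h.lt y y'
  have h2 := h.lt y' y
  rw [e] at h1 h2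
  cases o <;> simp at h1 h2 <;> order

theorem Ori.bel {g : L → L} {o : Bool} (h : Ori g o) (z : L × Bool) (t : L) :
    bel (g z.1, xor z.2 o) (g t) ↔ if o then ¬ bel z t else bel z t := by
  obtain ⟨y, b⟩ := z
  simp only [Bor.bel, h.lt t y, h.inj.eq_iff]
  rcases lt_trichotomy t y with e | rfl | e
  · cases o <;> simp [e, e.ne, e.not_gt]
  · cases o <;> simp
  · cases o <;> simp [e, e.ne', e.not_gt]

theorem Ori.lf {g : L → L} {o : Bool} (h : Ori g o) {D : Set L} (hD : LF D) : LF (g ⁻¹' D) :=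
  fun y y' => ((hD (g y) (g y')).union (hD (g y') (g y))).preimage h.inj.injOn |>.subset
    fun t ht => by
      cases o
      · exact Or.inl ⟨ht.1, (h.lt _ _).2 ht.2.1, (h.lt _ _).2 ht.2.2⟩
      · exact Or.inr ⟨ht.1, (h.lt _ _).2 ht.2.2, (h.lt _ _).2 ht.2.1⟩

theorem Ori.comp {g g' : L → L} {o o' : Bool} (h : Ori g o) (h' : Ori g' o') :
    Ori (fun y => g' (g y)) (xor o o') := ⟨fun y y' => by
  rw [h'.lt]
  cases o' <;> simp [h.lt], h'.surj.comp h.surj⟩

theorem Ori.id : Ori (fun y : L => y) false := ⟨fun _ _ => by simp, fun y => ⟨y, rfl⟩⟩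

theorem Ori.symm {g g' : L → L} {o : Bool} (h : Ori g o) (l : ∀ y, g' (g y) = y) : Ori g' o := by
  refine ⟨fun y y' => ?_, fun y => ⟨_, l y⟩⟩
  obtain ⟨y, rfl⟩ := h.surj y
  obtain ⟨y', rfl⟩ := h.surj y'
  cases o <;> simp [l, h.lt]

/-- Morphisms covering `g`, from the frame `ε` to the frame `ε'`. -/
structure Mor (ε ε' : L → Bool) (g : L → L) (o : Bool) (f : DW L → DW L) : Prop where
  ori : Ori g o
  snd : ∀ w, (f w).2 = (g w.2.1, xor w.2.2 o)
  comm : ∀ w, f (spin ε w) = spin ε' (f w)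
  gap : ∃ D, LF D ∧ ∀ n z z', (∀ t ∈ D, bel z t ↔ bel z' t) → (f (n, z)).1 = (f (n, z')).1

theorem Mor.left (ε : L → Bool) (m : FreeGroup L) :
    Mor ε ε (fun y => y) false fun w => (m * w.1, w.2) :=
  ⟨Ori.id, fun w => by simp, fun ⟨n, y, b⟩ => by
    simp only [rot_apply]
    split_ifs <;> simp [mul_assoc], ∅, LF.empty, fun _ _ _ _ => rfl⟩

theorem Mor.id (ε : L → Bool) : Mor ε ε (fun y => y) false fun w => w := by
  simpa using Mor.left ε 1

theorem Mor.map {ε ε' : L → Bool} {g : L → L} {o : Bool} (h : Ori g o)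
    (e : ∀ y, ε' (g y) = xor (ε y) o) :
    Mor ε ε' g o fun w => (FreeGroup.map g w.1, g w.2.1, xor w.2.2 o) :=
  ⟨h, fun w => rfl, fun ⟨n, y, b⟩ => by
    simp only [rot_apply, e]
    cases b <;> cases ε y <;> cases o <;> simp, ∅, LF.empty, fun _ _ _ _ => rfl⟩

namespace Mor
variable {ε ε' ε'' : L → Bool} {g g' : L → L} {o o' : Bool} {f f' : DW L → DW L}

theorem eq (h : Mor ε ε' g o f) (w : DW L) : f w = ((f w).1, g w.2.1, xor w.2.2 o) :=
  Prod.ext rfl (h.snd w)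

theorem comp (h : Mor ε ε' g o f) (h' : Mor ε' ε'' g' o' f') :
    Mor ε ε'' (fun y => g' (g y)) (xor o o') fun w => f' (f w) := by
  obtain ⟨D, hD, gap⟩ := h.gap
  obtain ⟨D', hD', gap'⟩ := h'.gap
  refine ⟨h.ori.comp h'.ori, fun w => by rw [h'.snd, h.snd, Bool.xor_assoc],
    fun w => by rw [h.comm, h'.comm], D ∪ g ⁻¹' D', hD.union (h.ori.lf hD'), fun n z z' e => ?_⟩
  rw [h.eq (n, z), h.eq (n, z'), gap n z z' fun t ht => e t (Or.inl ht)]
  refine gap' _ _ _ fun t ht => ?_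
  obtain ⟨t, rfl⟩ := h.ori.surj t
  rw [h.ori.bel, h.ori.bel, e t (Or.inr ht)]

theorem jump (h : Mor ε ε' g o f) (n : FreeGroup L) (y : L) : (f (n, y, ε y)).1 =
    (f (n, y, !ε y)).1 * if ε' (g y) = xor (ε y) o then 1 else of (g y) := by
  have := h.comm (n, y, !ε y)
  rw [h.eq (n, y, !ε y), rot_apply, rot_apply, if_neg (by simp), Bool.not_not] at this
  rw [this]
  cases ε y <;> cases o <;> cases ε' (g y) <;> simp

theorem turn (h : Mor ε ε' g o f) (n : FreeGroup L) (y : L) (b : Bool) :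
    (f (n * of y, y, b)).1 = (f (n, y, b)).1 * of (g y) := by
  rw [← rot_two ε, h.comm, h.comm, h.eq (n, y, b), rot_two]

theorem const (h : Mor ε ε' g o f) (n : FreeGroup L) {z z' : L × Bool}
    (e : ∀ t, ¬ (bel z t ↔ bel z' t) → ε' (g t) = xor (ε t) o) :
    (f (n, z)).1 = (f (n, z')).1 := by
  obtain ⟨D, hD, gap⟩ := h.gap
  refine chain hD (c := fun z => (f (n, z)).1) (gap n) (fun t ht => ?_) e
  have := h.jump n t
  rw [if_pos ht, mul_one] at this
  revert this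
  cases ε t <;> simp +contextual

theorem uniq (h : Mor ε ε' g o f) (h' : Mor ε ε' g o f') {w : DW L} (e : (f w).1 = (f' w).1) :
    f = f' := by
  obtain ⟨D, hD, gap⟩ := h.gap
  obtain ⟨D', hD', gap'⟩ := h'.gap
  have key : ∀ n z z', (f (n, z)).1 = (f' (n, z)).1 → (f (n, z')).1 = (f' (n, z')).1 :=
    fun n z z' e => by
      refine (chain (hD.union hD') (c := fun z => (f (n, z)).1 = (f' (n, z)).1) (J := fun _ => True)
        (fun z z' e => ?_) (fun t _ => ?_) fun _ _ => trivial).mp e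
      · simp only [gap n z z' fun t ht => e t (Or.inl ht), gap' n z z' fun t ht => e t (Or.inr ht)]
      · have h1 := h.jump n t
        have h2 := h'.jump n t
        generalize (if ε' (g t) = xor (ε t) o then 1 else of (g t)) = x at h1 h2
        revert h1 h2
        cases ε t <;> simp +contextual
  have step : ∀ u n, (∀ z, (f (n, z)).1 = (f' (n, z)).1) → ∀ z, (f (n * u, z)).1 =
      (f' (n * u, z)).1 := fun u => by
    induction u using FreeGroup.induction_on with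
    | C1 => simp
    | of y => exact fun n e z => key _ (y, true) _ (by rw [h.turn, h'.turn, e])
    | inv_of y _ =>
      refine fun n e z => key _ (y, true) _ (mul_right_cancel (b := of (g y)) ?_)
      rw [← h.turn, ← h'.turn, inv_mul_cancel_right, e]
    | mul u v hu hv => exact fun n e => mul_assoc n u v ▸ hv _ (hu n e)
  funext ⟨n, z⟩
  have := step (w.1⁻¹ * n) w.1 (fun z => key _ w.2 z e) z
  rw [mul_inv_cancel_left] at this
  rw [h.eq, h'.eq, this]

theorem lf (h : Mor ε ε' g o f) : LF {t | ε' (g t) ≠ xor (ε t) o} := by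
  obtain ⟨D, hD, gap⟩ := h.gap
  refine hD.mono fun t ht => by_contra fun hn => ?_
  have h1 := h.jump 1 t
  rw [if_neg ht, gap 1 (t, ε t) (t, !ε t) fun u hu => by
    have : u ≠ t := fun e => hn (e ▸ hu)
    simp [bel, this]] at h1
  exact of_ne_one _ (left_eq_mul.1 h1)

end Mor

theorem exists_mor {ε ε' : L → Bool} {g : L → L} {o : Bool} (h : Ori g o)
    (hD : LF {t | ε' (g t) ≠ xor (ε t) o}) (w : DW L) (m : FreeGroup L) :
    ∃ f, Mor ε ε' g o f ∧ (f w).1 = m := by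
  obtain ⟨c, jump, gap⟩ := exists_path hD
    (fun t => if ε t then of (g t) else (of (g t))⁻¹) w.2
  let ψ : FreeGroup L →* FreeGroup L :=
    FreeGroup.lift fun y => c (y, !ε y) * of (g y) * (c (y, !ε y))⁻¹
  have M : Mor ε ε' g o fun w => (ψ w.1 * c w.2, g w.2.1, xor w.2.2 o) := by
    refine ⟨h, fun w => rfl, fun ⟨n, y, b⟩ => ?_, _, hD, fun n z z' e => by rw [gap z z' e]⟩
    simp only [rot_apply]
    by_cases e : ε' (g y) = xor (ε y) o
    · have h1 : c (y, true) = c (y, false) := gap _ _ fun u hu => by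
        have : u ≠ y := fun e' => hu (e' ▸ e)
        simp [bel, this]
      rw [e]
      cases b <;> cases hy : ε y <;> cases o <;> simp [ψ, h1, hy, mul_assoc]
    · have h1 := jump y e
      have e' : ε' (g y) = !xor (ε y) o := Bool.eq_not_iff.2 e
      rw [e']
      cases b <;> cases hy : ε y <;> cases o <;> simp [ψ, h1, hy, mul_assoc]
  refine ⟨_, by simpa using M.comp (Mor.left ε' (m * (ψ w.1 * c w.2)⁻¹)), by group⟩

namespace Mor
variable {ε ε' ε'' : L → Bool} {g g' : L → L} {o o' : Bool} {f f' : DW L → DW L}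

theorem inverse (h : Mor ε ε' g o f) (l : ∀ y, g' (g y) = y) (w : DW L) :
    ∃ f', Mor ε' ε g' o f' ∧ (∀ w, f' (f w) = w) ∧ ∀ w, f (f' w) = w := by
  have r : ∀ y, g (g' y) = y := fun y => by
    obtain ⟨y, rfl⟩ := h.ori.surj y
    rw [l]
  obtain ⟨f', h', e⟩ := exists_mor (ε := ε') (ε' := ε) (h.ori.symm l)
    (((h.ori.symm l).lf h.lf).mono fun t ht e => ht (by
      rw [r] at e
      rw [e]
      simp)) (f w) w.1
  have h1 := congrFun ((show Mor ε ε (fun y => y) false _ by simpa [l] using h.comp h').uniq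
    (Mor.id ε) e)
  refine ⟨f', h', h1, congrFun ((show Mor ε' ε' (fun y => y) false _ by
    simpa [r] using h'.comp h).uniq (Mor.id ε') (w := f w) (by rw [h1]))⟩

theorem symm {F : Equiv.Perm (DW L)} (h : Mor ε ε' g o F) (l : ∀ y, g' (g y) = y) (w : DW L) :
    Mor ε' ε g' o ⇑F⁻¹ := by
  obtain ⟨f', h', -, e⟩ := h.inverse l w
  rwa [show ⇑F⁻¹ = f' from funext fun w => by rw [Equiv.Perm.inv_eq_iff_eq, e]]

theorem perm (h : Mor ε ε' g o f) (w : DW L) : ∃ F : Equiv.Perm (DW L), ⇑F = f := by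
  haveI : Nonempty L := ⟨w.2.1⟩
  obtain ⟨f', -, e, e'⟩ := h.inverse (Function.leftInverse_invFun h.ori.inj) w
  exact ⟨⟨f, f', e, e'⟩, rfl⟩

theorem comm_zpow (h : Mor ε ε' g o f) (k : ℤ) (w : DW L) :
    f ((spin ε ^ k) w) = (spin ε' ^ k) (f w) := by
  induction k using Int.induction_on generalizing w with
  | zero => simp
  | succ k ih => rw [zpow_add_one, zpow_add_one, Equiv.Perm.mul_apply, ih, h.comm]; rfl
  | pred k ih =>
    have := h.comm ((spin ε)⁻¹ w)
    rw [← Equiv.Perm.mul_apply, mul_inv_cancel, Equiv.Perm.one_apply] at this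
    rw [zpow_sub_one, zpow_sub_one, Equiv.Perm.mul_apply, ih, this, ← Equiv.Perm.mul_apply _ (spin ε'),
      inv_mul_cancel_right]

theorem vw_congr (h : Mor ε ε' g o f) {w w' : DW L} (e : vw w = vw w') : vw (f w) = vw (f w') := by
  obtain ⟨k, rfl⟩ := exists_rot ε e
  rw [h.comm_zpow, vw_rot_zpow]

theorem vw_inj (h : Mor ε ε' g o f) {w w' : DW L} (e : vw (f w) = vw (f w')) : vw w = vw w' := by
  obtain ⟨F, rfl⟩ := h.perm w
  obtain ⟨k, e⟩ := exists_rot ε' e
  rw [← h.comm_zpow] at e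
  rw [← F.injective e, vw_rot_zpow]

theorem dir_line (h : Mor ε ε' g o f) (m : FreeGroup L) {y y' : L} (hy : y < y') :
    Dir (vw (f (m, y, false))) (vw (f (m, y', false))) = f (m, y, true) ∧
      Dir (vw (f (m, y', false))) (vw (f (m, y, false))) = f (m, y', false) := by
  obtain ⟨D, hD, gap⟩ := h.gap
  have ne : ∀ {y y' : L}, y ≠ y' → vw (f (m, y, false)) ≠ vw (f (m, y', false)) :=
    fun e e' => vt_ne e (h.vw_inj e')
  refine lf_ind hD (Q := fun y y' => Dir (vw (f (m, y, false))) (vw (f (m, y', false))) =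
    f (m, y, true) ∧ Dir (vw (f (m, y', false))) (vw (f (m, y, false))) = f (m, y', false))
    (fun y y' hy e => ?_) (fun y t y' h1 h2 ⟨a1, a2⟩ ⟨a3, a4⟩ => ?_) hy
  · have h1 := gap m (y, true) (y', false) fun t ht => by
      rw [bel_true, bel_false]
      exact ⟨fun h => h.trans_lt hy, fun h => not_lt.1 fun h' => e t ht ⟨h', h⟩⟩
    have h2 : g y ≠ g y' := h.ori.inj.ne hy.ne
    rw [h.vw_congr (w' := (m, y, true)) (vw_vt _ _ _).symm, h.eq (m, y, true), h.eq (m, y', false),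
      h1, vw_vt, vw_vt, Dir_line _ h2, Dir_line _ h2.symm]
    cases o <;> simp [h.ori.lt, hy, hy.le]
  · have : Dir (vw (f (m, t, false))) (vw (f (m, y, false))) ≠
        Dir (vw (f (m, t, false))) (vw (f (m, y', false))) := fun e => by
      rw [a2, a3, h.eq (m, t, false), h.eq (m, t, true)] at e
      simpa using congrArg (fun w : DW L => w.2.2) e
    exact ⟨(Dir_t1 (ne h1.ne) (ne h2.ne') this).trans a1,
      (Dir_t1 (ne h2.ne') (ne h1.ne) this.symm).trans a4⟩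

theorem dir_line' (h : Mor ε ε' g o f) (m : FreeGroup L) {y y' : L} (hy : y ≠ y') :
    Dir (vw (f (m, y, false))) (vw (f (m, y', false))) = f (Dir (vt m y) (vt m y')) := by
  rw [Dir_line m hy]
  rcases lt_or_gt_of_ne hy with e | e
  · rw [(h.dir_line m e).1, decide_eq_true e]
  · rw [(h.dir_line m e).2, decide_eq_false e.not_gt]

theorem dir (h : Mor ε ε' g o f) {w w' : DW L} (hw : vw w' ≠ vw w) :
    Dir (vw (f w)) (vw (f w')) = f (Dir (vw w) (vw w')) := by
  obtain ⟨F, rfl⟩ := h.perm w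
  refine (line_ind (Q := fun b => ∀ w', vw w' = b → Dir (vw (F w)) (vw (F w')) =
    F (Dir (vw w) b) ∧ Dir (vw (F w')) (vw (F w)) = F (Dir b (vw w)))
    (fun m y y' e hy w' e' => ?_) (fun m y y' h1 hy ih h2 w' e' => ?_) hw w' rfl).1
  · rw [h.vw_congr e, h.vw_congr e', e]
    exact ⟨h.dir_line' m hy, h.dir_line' m hy.symm⟩
  · obtain ⟨a1, a2⟩ := ih _ rfl
    have h3 : Dir (vw (F (m, y, false))) (vw (F w)) ≠
        Dir (vw (F (m, y, false))) (vw (F (m, y', false))) := by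
      rw [a2, h.dir_line' m hy]
      exact F.injective.ne h2
    have n1 : vw (F w) ≠ vw (F (m, y, false)) := fun e => h1 (h.vw_inj e).symm
    have n2 : vw (F (m, y', false)) ≠ vw (F (m, y, false)) := fun e => vt_ne hy (h.vw_inj e).symm
    rw [h.vw_congr e', Dir_t1 n1 n2 h3, Dir_t1 n2 n1 h3.symm, a1, h.dir_line' m hy.symm,
      Dir_t1 h1.symm (vt_ne hy.symm) h2, Dir_t1 (vt_ne hy.symm) h1.symm h2.symm]
    exact ⟨rfl, rfl⟩

end Mor

end Pool.Agent.Work.MP_3d425c_gt.Bor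
end

-- merged part: Pool.Agent.Work.MP_3d425c_gt.BorQ2
section
/-! The counting function of a tree with integral directions. -/

namespace Pool.Agent.Work.MP_3d425c_gt.Bor
open Classical

/-- A group acting on a tree whose directions at each point form a copy of `ℤ`. -/
structure QS (Γ V : Type) [Group Γ] [MulAction Γ V] where
  dir : V → V → ℤ
  c : Γ → V → ℤ
  e : Γ → ℤ
  v₀ : V
  γ : Γ
  p : ℤ
  q : ℤ
  t1 : T1 dir
  geo : ∀ a b, a ≠ b → Geo dir a b
  equiv : ∀ (g : Γ) u v, v ≠ u → dir (g • u) (g • v) = dir u v + c g u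
  c_mul : ∀ (g h : Γ) u, c (g * h) u = c g (h • u) + c h u
  e_mul : ∀ g h, e (g * h) = e g + e h
  par : ∀ g u, Even (e g - c g u)
  trans : ∀ v, ∃ g : Γ, g • v₀ = v
  fix : γ • v₀ = v₀
  cγ : c γ v₀ = 2 * q - p
  eγ : e γ = p
  cent : ∀ g : Γ, g • v₀ = v₀ → g * γ = γ * g
  hq : 0 < q
  hpq : p < q
  h3 : 3 ≤ 2 * q - p
  cop : IsCoprime p q

namespace QS
variable {Γ V : Type} [Group Γ] [MulAction Γ V] (S : QS Γ V)

/-- Number of prongs. -/
def n : ℤ := 2 * S.q - S.p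

/-- Position of the marked point `g` seen from `u`. -/
noncomputable def P (u : V) (g : Γ) : ℤ :=
  if g • S.v₀ = u then 2 * (S.n * S.e g - S.p * S.c g S.v₀)
  else 4 * (S.q - S.p) * S.dir u (g • S.v₀) + 1

/-- Index of the marked point `g` seen from `u`. -/
noncomputable def idx (u : V) (g : Γ) : ℤ :=
  if g • S.v₀ = u then S.e g else S.dir u (g • S.v₀)

/-- Local contribution. -/
noncomputable def loc (u : V) (g h : Γ) : ℤ :=
  rr (4 * S.n) (S.P u h - S.P u g) - (S.idx u h - S.idx u g)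

/-- The counting function. -/
noncomputable def W (g h : Γ) : ℤ := S.e h - S.e g + ∑ᶠ u, S.loc u g h

/-- Both points are seen in one direction. -/
def Same (u : V) (g h : Γ) : Prop :=
  g • S.v₀ ≠ u ∧ h • S.v₀ ≠ u ∧ S.dir u (g • S.v₀) = S.dir u (h • S.v₀)

theorem n3 : 3 ≤ S.n := S.h3

theorem L_pos : 0 < 4 * S.n := by have := S.n3; omega

theorem e_one : S.e 1 = 0 := by have := S.e_mul 1 1; rw [mul_one] at this; omega

theorem c_one (u : V) : S.c 1 u = 0 := by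
  have := S.c_mul 1 1 u
  rw [mul_one, one_smul] at this
  omega

theorem P_at {u : V} {g : Γ} (h : g • S.v₀ = u) :
    S.P u g = 2 * (S.n * S.e g - S.p * S.c g S.v₀) := if_pos h

theorem P_off {u : V} {g : Γ} (h : g • S.v₀ ≠ u) :
    S.P u g = 4 * (S.q - S.p) * S.dir u (g • S.v₀) + 1 := if_neg h

theorem idx_at {u : V} {g : Γ} (h : g • S.v₀ = u) : S.idx u g = S.e g := if_pos h

theorem idx_off {u : V} {g : Γ} (h : g • S.v₀ ≠ u) : S.idx u g = S.dir u (g • S.v₀) := if_neg h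

variable {S}

theorem Same.P_eq {u : V} {g h : Γ} (s : S.Same u g h) : S.P u g = S.P u h := by
  rw [S.P_off s.1, S.P_off s.2.1, s.2.2]

theorem Same.idx_eq {u : V} {g h : Γ} (s : S.Same u g h) : S.idx u g = S.idx u h := by
  rw [S.idx_off s.1, S.idx_off s.2.1, s.2.2]

theorem Same.symm {u : V} {g h : Γ} (s : S.Same u g h) : S.Same u h g := ⟨s.2.1, s.1, s.2.2.symm⟩

variable (S)

theorem loc_anti (u : V) (g h : Γ) : S.loc u h g = -S.loc u g h := by
  unfold loc
  rw [← neg_sub (S.P u h), rr_neg]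
  ring

theorem loc_small {u : V} {g h : Γ} (h1 : g • S.v₀ ≠ u) (h2 : h • S.v₀ ≠ u)
    (h3 : |S.dir u (h • S.v₀) - S.dir u (g • S.v₀)| ≤ 1) : S.loc u g h = 0 := by
  unfold loc
  rw [S.P_off h1, S.P_off h2, S.idx_off h1, S.idx_off h2]
  have r1 : rr (4 * S.n) (4 * (S.q - S.p)) = 1 :=
    rr_of_mem (by have := S.hpq; omega) (by have := S.hq; unfold n; omega)
  rw [show ∀ x y : ℤ, 4 * (S.q - S.p) * x + 1 - (4 * (S.q - S.p) * y + 1) =
    4 * (S.q - S.p) * (x - y) by intro x y; ring]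
  generalize S.dir u (h • S.v₀) - S.dir u (g • S.v₀) = t at h3 ⊢
  obtain rfl | rfl | rfl : t = -1 ∨ t = 0 ∨ t = 1 := by have := abs_le.1 h3; omega
  · rw [mul_neg, mul_one, rr_neg, r1]; rfl
  · rw [mul_zero, rr_zero]; rfl
  · rw [mul_one, r1]; rfl

theorem loc_finite (g h : Γ) : (Function.support fun u => S.loc u g h).Finite := by
  have key : {u | g • S.v₀ ≠ u ∧ h • S.v₀ ≠ u ∧
      ¬ |S.dir u (h • S.v₀) - S.dir u (g • S.v₀)| ≤ 1}.Finite := by
    by_cases e : g • S.v₀ = h • S.v₀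
    · exact Set.Finite.subset Set.finite_empty fun u hu => hu.2.2 (by rw [e]; simp)
    · exact (S.geo _ _ e).finite S.t1
  refine ((key.insert (g • S.v₀)).insert (h • S.v₀)).subset fun u hu => ?_
  by_contra hn
  simp only [Set.mem_insert_iff, Set.mem_setOf_eq, not_or, not_and, not_not] at hn
  exact hu (S.loc_small (Ne.symm hn.2.1) (Ne.symm hn.1) (hn.2.2 (Ne.symm hn.2.1) (Ne.symm hn.1)))

theorem W_anti (g h : Γ) : S.W h g = -S.W g h := by
  unfold W
  simp only [S.loc_anti _ g h, finsum_neg_distrib]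
  ring

theorem loc_smul (x : Γ) (u : V) (g h : Γ) : S.loc (x • u) (x * g) (x * h) = S.loc u g h := by
  obtain ⟨r, hr⟩ := S.par x u
  have key : ∀ g : Γ, S.P (x • u) (x * g) = S.P u g + 4 * (S.q - S.p) * S.c x u +
      4 * S.n * (if g • S.v₀ = u then r else 0) ∧
      S.idx (x • u) (x * g) = S.idx u g + S.c x u + 2 * (if g • S.v₀ = u then r else 0) := by
    intro g
    by_cases e : g • S.v₀ = u
    · have e' : (x * g) • S.v₀ = x • u := by rw [mul_smul, e]
      rw [S.P_at e, S.P_at e', S.idx_at e, S.idx_at e', if_pos e, S.e_mul, S.c_mul, e,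
        show S.e x = S.c x u + 2 * r by omega]
      unfold n
      constructor <;> ring
    · have e' : (x * g) • S.v₀ ≠ x • u := by
        rw [mul_smul]
        exact fun h => e (MulAction.injective x h)
      rw [S.P_off e, S.P_off e', S.idx_off e, S.idx_off e', if_neg e, mul_smul, S.equiv x u _ e]
      constructor <;> ring
  unfold loc
  rw [(key g).1, (key g).2, (key h).1, (key h).2]
  generalize (if g • S.v₀ = u then r else 0) = a
  generalize (if h • S.v₀ = u then r else 0) = b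
  rw [show ∀ x y z : ℤ, x + z + 4 * S.n * b - (y + z + 4 * S.n * a) = x - y + 4 * S.n * (b - a) by
    intro x y z; ring, rr_add_mul S.L_pos]
  ring

theorem W_smul (x g h : Γ) : S.W (x * g) (x * h) = S.W g h := by
  unfold W
  rw [S.e_mul, S.e_mul, ← finsum_comp_equiv (MulAction.toPerm x)]
  simp only [MulAction.toPerm_apply, S.loc_smul]
  ring

/-- The local defect. -/
noncomputable def df (u : V) (g h m : Γ) : ℤ :=
  rr (4 * S.n) (S.P u h - S.P u g) + rr (4 * S.n) (S.P u m - S.P u h) +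
    rr (4 * S.n) (S.P u g - S.P u m)

theorem W_sum (g h m : Γ) : S.W g h + S.W h m + S.W m g = ∑ᶠ u, S.df u g h m := by
  have : ∀ u, S.df u g h m = S.loc u g h + S.loc u h m + S.loc u m g := fun u => by
    unfold df loc
    ring
  simp only [this]
  rw [finsum_add_distrib _ (S.loc_finite m g), finsum_add_distrib (S.loc_finite g h)
    (S.loc_finite h m)]
  · unfold W
    ring
  · exact ((S.loc_finite g h).union (S.loc_finite h m)).subset (Function.support_add _ _)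

theorem df_eq_zero {u : V} {g h m : Γ} (s : S.Same u g h ∨ S.Same u h m ∨ S.Same u m g) :
    S.df u g h m = 0 := by
  unfold df
  rcases s with s | s | s <;> rw [s.P_eq, sub_self, rr_zero]
  · rw [← neg_sub (S.P u m), rr_neg]; ring
  · rw [← neg_sub (S.P u m), rr_neg]; ring
  · rw [← neg_sub (S.P u g), rr_neg]; ring

theorem same_of_active {w u : V} {g h m : Γ} (h1 : ¬ S.Same w g h) (h2 : ¬ S.Same w h m)
    (h3 : ¬ S.Same w m g) (hu : u ≠ w) : S.Same u g h ∨ S.Same u h m ∨ S.Same u m g := by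
  have key : ∀ x y : Γ, (x • S.v₀ = w ∨ S.dir w (x • S.v₀) ≠ S.dir w u) →
      (y • S.v₀ = w ∨ S.dir w (y • S.v₀) ≠ S.dir w u) → S.Same u x y := fun x y hx hy =>
    ⟨(S.t1.key hu hx).1, (S.t1.key hu hy).1, (S.t1.key hu hx).2.trans (S.t1.key hu hy).2.symm⟩
  have k2 : ∀ x y : Γ, ¬ S.Same w x y → ¬ (x • S.v₀ = w ∨ S.dir w (x • S.v₀) ≠ S.dir w u) →
      (y • S.v₀ = w ∨ S.dir w (y • S.v₀) ≠ S.dir w u) := fun x y hs hx => by
    by_contra hy
    push Not at hx hy
    exact hs ⟨hx.1, hy.1, hx.2.trans hy.2.symm⟩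
  by_cases a : g • S.v₀ = w ∨ S.dir w (g • S.v₀) ≠ S.dir w u
  · by_cases b : h • S.v₀ = w ∨ S.dir w (h • S.v₀) ≠ S.dir w u
    · exact Or.inl (key g h a b)
    · exact Or.inr (Or.inr (key m g (k2 h m h2 b) a))
  · exact Or.inr (Or.inl (key h m (k2 g h h1 a) (k2 g m (fun s => h3 s.symm) a)))

theorem W_active {w : V} {g h m : Γ} (h1 : ¬ S.Same w g h) (h2 : ¬ S.Same w h m)
    (h3 : ¬ S.Same w m g) : S.W g h + S.W h m + S.W m g = S.df w g h m := by
  rw [S.W_sum]
  exact finsum_eq_single _ w fun u hu => S.df_eq_zero (S.same_of_active h1 h2 h3 hu)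

theorem W_defect (g h m : Γ) : S.W g h + S.W h m + S.W m g ≤ 1 := by
  by_cases e : ∃ w, ¬ S.Same w g h ∧ ¬ S.Same w h m ∧ ¬ S.Same w m g
  · obtain ⟨w, h1, h2, h3⟩ := e
    rw [S.W_active h1 h2 h3]
    exact rr_defect S.L_pos (by ring)
  · rw [S.W_sum, finsum_eq_zero_of_forall_eq_zero fun u => S.df_eq_zero (by
      by_contra hn
      push Not at hn
      exact e ⟨u, hn⟩)]
    exact zero_le_one

theorem W_same {g h : Γ} (e : g • S.v₀ = h • S.v₀) :
    S.W g h = rr (4 * S.n) (S.P (g • S.v₀) h - S.P (g • S.v₀) g) := by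
  unfold W
  rw [finsum_eq_single _ (g • S.v₀) fun u hu => S.loc_small (Ne.symm hu) (e ▸ Ne.symm hu)
    (by rw [e]; simp)]
  unfold loc
  rw [S.idx_at rfl, S.idx_at e.symm]
  ring

/-- Changing the second point without changing its position. -/
theorem W_congr (g : Γ) {h h' : Γ} (e : h • S.v₀ = h' • S.v₀)
    (hP : S.P (h • S.v₀) h = S.P (h • S.v₀) h') : S.W g h = S.W g h' := by
  have h1 : S.W h h' = 0 := by rw [S.W_same e, hP, sub_self, rr_zero]
  have h2 : S.W g h + S.W h h' + S.W h' g = 0 := by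
    rw [S.W_sum]
    refine finsum_eq_zero_of_forall_eq_zero fun u => ?_
    by_cases hu : h • S.v₀ = u
    · unfold df
      rw [← hu, hP, sub_self, rr_zero, ← neg_sub (S.P _ h'), rr_neg]
      ring
    · exact S.df_eq_zero (Or.inr (Or.inl ⟨hu, e ▸ hu, by rw [e]⟩))
  have := S.W_anti g h'
  omega

theorem rr_odd_of_parity {x : ℤ} (h : Odd x) : Odd (rr (4 * S.n) x) :=
  rr_odd S.L_pos fun ⟨k, hk⟩ => by
    obtain ⟨j, hj⟩ := h
    have : x = 2 * (2 * S.n * k) := by rw [hk]; ring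
    omega

theorem P_diff_odd {u : V} {g h : Γ} (h1 : g • S.v₀ = u) (h2 : h • S.v₀ ≠ u) :
    Odd (S.P u h - S.P u g) := by
  rw [S.P_at h1, S.P_off h2]
  exact ⟨2 * (S.q - S.p) * S.dir u (h • S.v₀) - (S.n * S.e g - S.p * S.c g S.v₀), by ring⟩

theorem cop_n : IsCoprime S.n (S.q - S.p) := by
  obtain ⟨a, b, h⟩ := S.cop
  exact ⟨a + b, -(2 * a + b), by unfold n; linear_combination h⟩

/-- No turn between `a` and `b` is a nonzero multiple of `n`. -/
def Red (a b : V) : Prop :=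
  ∀ u, a ≠ u → b ≠ u → S.n ∣ S.dir u b - S.dir u a → S.dir u b = S.dir u a

theorem Red.left {a w b : V} (h : S.Red a b) (hw : Btw S.dir a w b) : S.Red a w := by
  intro u h1 h2 h3
  rcases S.t1.split hw (Ne.symm h2) with k | k
  · exact k.2.symm
  · rw [← k.2] at h3 ⊢
    exact h u h1 k.1 h3

theorem W_odd {a b : V} (hg : Geo S.dir a b) : S.Red a b → ∀ g h : Γ, g • S.v₀ = a →
    h • S.v₀ = b → Odd (S.W g h) := by
  have base : ∀ {a b : V}, Str S.dir a b → ∀ g h : Γ, g • S.v₀ = a → h • S.v₀ = b →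
      Odd (S.W g h) := by
    intro a b hs g h e1 e2
    have n1 : h • S.v₀ ≠ a := e2 ▸ hs.1.symm
    have n2 : g • S.v₀ ≠ b := e1 ▸ hs.1
    unfold W
    rw [finsum_eq_sum_of_support_subset (s := {a, b}) _ fun u hu => by
      by_contra hn
      simp only [Finset.coe_insert, Finset.coe_singleton, Set.mem_insert_iff,
        Set.mem_singleton_iff, not_or] at hn
      refine hu (S.loc_small (e1 ▸ Ne.symm hn.1) (e2 ▸ Ne.symm hn.2) ?_)
      rw [e1, e2]
      exact hs.2.2 u (Ne.symm hn.1) (Ne.symm hn.2), Finset.sum_pair hs.1]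
    unfold loc
    obtain ⟨i, hi⟩ := S.rr_odd_of_parity (S.P_diff_odd e1 n1)
    obtain ⟨j, hj⟩ := S.rr_odd_of_parity (S.P_diff_odd e2 n2)
    obtain ⟨k, hk⟩ := hs.2.1
    rw [← neg_sub (S.P b g), rr_neg, hi, hj, S.idx_at e1, S.idx_at e2, S.idx_off n1, S.idx_off n2,
      e1, e2, Int.odd_iff]
    omega
  induction hg with
  | base h => exact fun _ => base h
  | @step w b _ h2 h3 ih =>
    intro hr g h e1 e2
    obtain ⟨m, e3⟩ := S.trans w
    have n1 : g • S.v₀ ≠ w := e1 ▸ h3.1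
    have n2 : h • S.v₀ ≠ w := e2 ▸ h3.2.1
    have key := S.W_active (w := w) (g := g) (h := m) (m := h) (fun s => s.2.1 e3)
      (fun s => s.1 e3) fun s => h3.2.2 (by rw [← e1, ← e2]; exact s.2.2.symm)
    obtain ⟨i, hi⟩ := ih (hr.left S h3) g m e1 e3
    obtain ⟨j, hj⟩ := base h2 m h e3 e2
    obtain ⟨k, hk⟩ := S.rr_odd_of_parity (S.P_diff_odd e3 n1)
    obtain ⟨l, hl⟩ := S.rr_odd_of_parity (S.P_diff_odd e3 n2)
    obtain ⟨o, ho⟩ : Odd (rr (4 * S.n) (S.P w g - S.P w h)) := by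
      refine rr_odd S.L_pos fun hd => h3.2.2 (hr w h3.1 h3.2.1 ?_).symm
      rw [S.P_off n1, S.P_off n2, e1, e2, show ∀ x y : ℤ, 4 * (S.q - S.p) * x + 1 -
        (4 * (S.q - S.p) * y + 1) = 4 * ((S.q - S.p) * -(y - x)) by intro x y; ring] at hd
      exact (dvd_neg.1 (S.cop_n.dvd_of_dvd_mul_left
        (Int.dvd_of_mul_dvd_mul_left (by norm_num) hd)))
    unfold df at key
    rw [← neg_sub (S.P w g), rr_neg, hi, hj, hk, hl, ho, S.W_anti g h] at key
    rw [Int.odd_iff]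
    omega

end QS

end Pool.Agent.Work.MP_3d425c_gt.Bor
end

-- merged part: Pool.Agent.Work.MP_3d425c_gt.BorQ3
section
/-! The rotating family and the quotient order. -/

namespace Pool.Agent.Work.MP_3d425c_gt.Bor
open Classical

namespace QS
variable {Γ V : Type} [Group Γ] [MulAction Γ V] (S : QS Γ V)

/-- The rotation about `w`. -/
noncomputable def rot (w : V) : Γ := (S.trans w).choose * S.γ * ((S.trans w).choose)⁻¹

theorem rot_eq {g : Γ} {w : V} (h : g • S.v₀ = w) : S.rot w = g * S.γ * g⁻¹ := by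
  have h1 := (S.trans w).choose_spec
  unfold rot
  generalize (S.trans w).choose = k at h1
  have h2 := S.cent (g⁻¹ * k) (by rw [mul_smul, h1, ← h, inv_smul_smul])
  calc k * S.γ * k⁻¹ = g * (g⁻¹ * k * S.γ) * k⁻¹ := by group
    _ = _ := by rw [h2]; group

theorem rot_smul (k : Γ) (w : V) : S.rot (k • w) = k * S.rot w * k⁻¹ := by
  obtain ⟨g, hg⟩ := S.trans w
  rw [S.rot_eq hg, S.rot_eq (g := k * g) (by rw [mul_smul, hg])]
  group

theorem rot_spec (w : V) (i : ℤ) : S.rot w ^ i • w = w ∧ S.c (S.rot w ^ i) w = i * S.n ∧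
    S.e (S.rot w ^ i) = i * S.p := by
  obtain ⟨g, hg⟩ := S.trans w
  have hg' : g⁻¹ • w = S.v₀ := by rw [← hg, inv_smul_smul]
  have h1 : S.rot w • w = w := by rw [S.rot_eq hg, mul_smul, mul_smul, hg', S.fix, hg]
  have h2 : S.c (S.rot w) w = S.n := by
    have := S.c_mul g g⁻¹ w
    rw [mul_inv_cancel, S.c_one, hg'] at this
    rw [S.rot_eq hg, S.c_mul, S.c_mul, hg', S.fix, S.cγ]
    unfold n
    omega
  have h3 : S.e (S.rot w) = S.p := by
    have := S.e_mul g g⁻¹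
    rw [mul_inv_cancel, S.e_one] at this
    rw [S.rot_eq hg, S.e_mul, S.e_mul, S.eγ]
    omega
  induction i using Int.induction_on with
  | zero => simp [S.c_one, S.e_one]
  | succ i ih =>
    rw [zpow_add_one, mul_smul, S.c_mul, S.e_mul, h1, h2, h3, ih.1, ih.2.1, ih.2.2]
    exact ⟨rfl, by ring, by ring⟩
  | pred i ih =>
    have e : S.rot w ^ (-(i : ℤ)) = S.rot w ^ (-(i : ℤ) - 1) * S.rot w := by
      rw [← zpow_add_one]; simp
    rw [e, mul_smul, S.c_mul, S.e_mul, h1, h2, h3] at ih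
    exact ⟨ih.1, by linarith [ih.2.1], by linarith [ih.2.2]⟩

theorem rot_ne {w y : V} (i : ℤ) (h : y ≠ w) : S.rot w ^ i • y ≠ w := fun e =>
  h (MulAction.injective (S.rot w ^ i) (e.trans (S.rot_spec w i).1.symm))

theorem dir_rot {w y : V} (i : ℤ) (h : y ≠ w) :
    S.dir w (S.rot w ^ i • y) = S.dir w y + i * S.n := by
  conv_lhs => rw [← (S.rot_spec w i).1]
  rw [(S.rot_spec w i).1, ← (S.rot_spec w i).2.1, ← S.equiv _ _ _ h, (S.rot_spec w i).1]

theorem W_rot_right (g h : Γ) (i : ℤ) : S.W g (S.rot (h • S.v₀) ^ i * h) = S.W g h := by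
  have e : (S.rot (h • S.v₀) ^ i * h) • S.v₀ = h • S.v₀ := by
    rw [mul_smul, (S.rot_spec _ i).1]
  refine (S.W_congr g e.symm ?_).symm
  rw [S.P_at rfl, S.P_at e, S.e_mul, S.c_mul, (S.rot_spec _ i).2.1, (S.rot_spec _ i).2.2]
  ring

theorem W_rot_left (g h : Γ) (i : ℤ) : S.W g (S.rot (g • S.v₀) ^ i * h) = S.W g h := by
  rw [← S.W_smul (S.rot (g • S.v₀) ^ (-i)), ← mul_assoc, ← zpow_add, neg_add_cancel, zpow_zero,
    one_mul, S.W_anti, S.W_rot_right, ← S.W_anti]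

theorem W_rot_btw {g h : Γ} {w : V} {i : ℤ} (h1 : Btw S.dir (g • S.v₀) w (h • S.v₀))
    (h2 : S.dir w (g • S.v₀) ≠ S.dir w (h • S.v₀) + i * S.n) :
    S.W g (S.rot w ^ i * h) = S.W g h := by
  obtain ⟨m, rfl⟩ := S.trans w
  have n1 : (S.rot (m • S.v₀) ^ i * h) • S.v₀ ≠ m • S.v₀ := by
    rw [mul_smul]
    exact S.rot_ne i h1.2.1
  have d1 : S.dir (m • S.v₀) ((S.rot (m • S.v₀) ^ i * h) • S.v₀) =
      S.dir (m • S.v₀) (h • S.v₀) + i * S.n := by rw [mul_smul, S.dir_rot i h1.2.1]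
  have k1 := S.W_active (w := m • S.v₀) (g := g) (h := m) (m := h) (fun s => s.2.1 rfl)
    (fun s => s.1 rfl) fun s => h1.2.2 s.2.2.symm
  have k2 := S.W_active (w := m • S.v₀) (g := g) (h := m) (m := S.rot (m • S.v₀) ^ i * h)
    (fun s => s.2.1 rfl) (fun s => s.1 rfl) fun s => h2 (s.2.2.symm.trans d1)
  have k3 : S.P (m • S.v₀) (S.rot (m • S.v₀) ^ i * h) =
      S.P (m • S.v₀) h + 4 * S.n * ((S.q - S.p) * i) := by
    rw [S.P_off n1, S.P_off h1.2.1, d1]
    ring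
  unfold df at k1 k2
  rw [k3, S.W_rot_left, show ∀ x y z : ℤ, x + z - y = x - y + z by intro x y z; ring,
    show ∀ x y z : ℤ, x - (y + 4 * S.n * z) = x - y + 4 * S.n * -z by intro x y z; ring,
    rr_add_mul S.L_pos, rr_add_mul S.L_pos] at k2
  rw [S.W_anti, S.W_anti h g]
  omega

/-- The subgroup generated by all rotations. -/
def N : Subgroup Γ := Subgroup.closure (Set.range S.rot)

theorem rot_mem (w : V) (i : ℤ) : S.rot w ^ i ∈ S.N :=
  S.N.zpow_mem (Subgroup.subset_closure ⟨w, rfl⟩) i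

theorem conj_mem (x : Γ) {k : Γ} (h : k ∈ S.N) : x * k * x⁻¹ ∈ S.N := by
  induction h using Subgroup.closure_induction with
  | mem k hk =>
    obtain ⟨w, rfl⟩ := hk
    rw [← S.rot_smul]
    exact Subgroup.subset_closure ⟨_, rfl⟩
  | one => simp
  | mul a b _ _ ha hb =>
    rw [show x * (a * b) * x⁻¹ = x * a * x⁻¹ * (x * b * x⁻¹) by group]
    exact S.N.mul_mem ha hb
  | inv a _ ha =>
    rw [show x * a⁻¹ * x⁻¹ = (x * a * x⁻¹)⁻¹ by group]
    exact S.N.inv_mem ha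

/-- The window of directions at `w` for the root `a`. -/
def win (a w : V) (t : ℤ) : Prop :=
  (if w = a then 0 else S.dir w a - 1) ≤ t ∧ t < (if w = a then 0 else S.dir w a - 1) + S.n

/-- The fundamental domain. -/
def D (a y : V) : Prop := ∀ u, y ≠ u → S.win a u (S.dir u y)

theorem exists_win (a w : V) (t : ℤ) : ∃ i : ℤ, S.win a w (t + i * S.n) := by
  unfold win
  generalize (if w = a then 0 else S.dir w a - 1) = l
  have h := S.n3
  have h1 := Int.emod_add_mul_ediv (t - l) S.n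
  have h2 := Int.emod_nonneg (t - l) (show S.n ≠ 0 by omega)
  have h3 := Int.emod_lt_of_pos (t - l) (show 0 < S.n by omega)
  refine ⟨-((t - l) / S.n), ?_, ?_⟩ <;> linarith

theorem win_eq {a w : V} {t t' : ℤ} (h : S.win a w t) (h' : S.win a w t') (hd : S.n ∣ t' - t) :
    t' = t := by
  have := Int.eq_zero_of_abs_lt_dvd hd (abs_lt.2 ⟨by linarith [h.2, h'.1], by linarith [h.1, h'.2]⟩)
  omega

theorem win_near {a w : V} (h : w ≠ a) {t : ℤ} (ht : |t - S.dir w a| ≤ 1) : S.win a w t := by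
  have := S.n3
  have := abs_le.1 ht
  unfold win
  rw [if_neg h]
  omega

theorem D_root (a : V) : S.D a a := fun u hu => S.win_near hu.symm (by simp)

theorem D.red {a y y' : V} (h : S.D a y) (h' : S.D a y') : S.Red y y' := fun u h1 h2 h3 =>
  S.win_eq (h u h1) (h' u h2) h3

theorem D.btw {a u y : V} (h : S.D a y) (hb : Btw S.dir a u y) : S.D a u := by
  intro x hx
  rcases S.t1.split hb hx.symm with k | k
  · exact S.win_near k.1.symm (by rw [k.2]; simp)
  · exact k.2 ▸ h x k.1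

theorem Str_smul (g : Γ) {a b : V} (h : Str S.dir a b) : Str S.dir (g • a) (g • b) := by
  refine ⟨fun e => h.1 (MulAction.injective g e), ?_, fun u h1 h2 => ?_⟩
  · rw [S.equiv g a b h.1.symm, S.equiv g b a h.1]
    obtain ⟨i, hi⟩ := h.2.1
    obtain ⟨j, hj⟩ := S.par g a
    obtain ⟨k, hk⟩ := S.par g b
    rw [Int.odd_iff]
    omega
  · obtain ⟨u, rfl⟩ := MulAction.surjective g u
    have h3 : a ≠ u := fun e => h1 (by rw [e])
    have h4 : b ≠ u := fun e => h2 (by rw [e])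
    simp only at *
    rw [S.equiv g u a h3, S.equiv g u b h4, add_sub_add_right_eq_sub]
    exact h.2.2 u h3 h4

theorem Btw_smul (g : Γ) {a u b : V} (h : Btw S.dir a u b) :
    Btw S.dir (g • a) (g • u) (g • b) :=
  ⟨fun e => h.1 (MulAction.injective g e), fun e => h.2.1 (MulAction.injective g e), by
    rw [S.equiv g u a h.1, S.equiv g u b h.2.1]
    exact fun e => h.2.2 (add_right_cancel e)⟩

/-- A point with small turns from a point of the domain, leaving it in an outward direction. -/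
theorem D_of_out {a u x : V} (hu : S.D a u) (hx : x ≠ u) (hw : S.win a u (S.dir u x))
    (hb : u = a ∨ S.dir u a ≠ S.dir u x)
    (hs : ∀ v, u ≠ v → x ≠ v → |S.dir v x - S.dir v u| ≤ 1) : S.D a x := by
  intro v hv
  by_cases e : v = u
  · exact e ▸ hw
  by_cases e' : u = a
  · subst e'
    exact S.win_near e (hs v (Ne.symm e) hv)
  rcases S.t1.split ⟨Ne.symm e', hx, hb.resolve_left e'⟩ e with k | k
  · exact S.win_near k.1.symm (k.2 ▸ hs v (Ne.symm e) hv)
  · exact k.2 ▸ hu v (Ne.symm e)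

theorem small_rot {y u x : V} (hs : Str S.dir y x) (hb : Btw S.dir y u x) (i : ℤ) :
    ∀ v, u ≠ v → S.rot u ^ i • x ≠ v → |S.dir v (S.rot u ^ i • x) - S.dir v u| ≤ 1 := by
  intro v h1 h2
  obtain ⟨v, rfl⟩ := MulAction.surjective (S.rot u ^ i) v
  have h3 : u ≠ v := fun e => h1 (by rw [← e]; exact (S.rot_spec u i).1.symm)
  have h4 : x ≠ v := fun e => h2 (by rw [e])
  simp only at *
  have h5 := S.equiv (S.rot u ^ i) v u h3
  rw [(S.rot_spec u i).1] at h5
  rw [S.equiv _ v x h4, h5, add_sub_add_right_eq_sub]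
  rcases S.t1.split hb h3.symm with k | k
  · exact k.2 ▸ hs.2.2 v k.1 h4
  · rw [k.2]; simp

/-- The subgroup generated by the rotations about points of the domain. -/
def ND (a : V) : Subgroup Γ := Subgroup.closure (S.rot '' {w | S.D a w})

theorem rot_mem_ND {a w : V} (h : S.D a w) (i : ℤ) : S.rot w ^ i ∈ S.ND a :=
  (S.ND a).zpow_mem (Subgroup.subset_closure ⟨w, h, rfl⟩) i

theorem exists_D_step {a y x : V} (hy : S.D a y) (hs : Str S.dir y x) :
    ∃ k ∈ S.ND a, S.D a (k • x) := by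
  obtain ⟨i, hi⟩ := S.exists_win a y (S.dir y x)
  have s1 := S.Str_smul (S.rot y ^ i) hs
  rw [(S.rot_spec y i).1] at s1
  rw [← S.dir_rot i hs.1.symm] at hi
  by_cases hD : S.D a (S.rot y ^ i • x)
  · exact ⟨_, S.rot_mem_ND hy i, hD⟩
  simp only [D, not_forall] at hD
  obtain ⟨u, h1, h2⟩ := hD
  have h3 : y ≠ u := fun e => h2 (e ▸ hi)
  have hb : Btw S.dir y u (S.rot y ^ i • x) := ⟨h3, h1, fun e => h2 (e ▸ hy u h3)⟩
  have h4 := abs_le.1 (s1.2.2 u h3 h1)
  obtain ⟨j, hj⟩ := S.exists_win a u (S.dir u (S.rot y ^ i • x))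
  have hu : S.D a u ∧ (u = a ∨ S.dir u a ≠ S.dir u (S.rot y ^ i • x) + j * S.n) := by
    by_cases e : u = a
    · exact ⟨e ▸ S.D_root a, Or.inl e⟩
    have h5 : S.dir u a ≠ S.dir u y := fun e' => h2 (S.win_near e (e' ▸ s1.2.2 u h3 h1))
    refine ⟨hy.btw S ⟨Ne.symm e, h3, h5⟩, Or.inr fun e' => h2 ?_⟩
    have h6 := hy u h3
    have h7 := S.n3
    unfold win at h6
    rw [if_neg e] at h6
    have := Int.eq_zero_of_abs_lt_dvd (m := S.n) (x := S.dir u (S.rot y ^ i • x) - S.dir u a)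
      ⟨-j, by rw [e']; ring⟩ (abs_lt.2 ⟨by omega, by omega⟩)
    exact S.win_near e (by rw [this]; simp)
  refine ⟨S.rot u ^ j * S.rot y ^ i, (S.ND a).mul_mem (S.rot_mem_ND hu.1 j) (S.rot_mem_ND hy i), ?_⟩
  rw [mul_smul]
  rw [← S.dir_rot j h1] at hj hu
  exact S.D_of_out hu.1 (S.rot_ne j h1) hj hu.2 (S.small_rot s1 hb j)

theorem exists_D (a x : V) : ∃ k ∈ S.ND a, S.D a (k • x) := by
  by_cases e : a = x
  · exact ⟨1, one_mem _, by rw [one_smul, ← e]; exact S.D_root a⟩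
  have h := S.geo a x e
  clear e
  induction h with
  | base h => exact S.exists_D_step (S.D_root a) h
  | step _ h _ ih =>
    obtain ⟨k, h1, h2⟩ := ih
    obtain ⟨k', h3, h4⟩ := S.exists_D_step h2 (S.Str_smul k h)
    exact ⟨k' * k, mul_mem h3 h1, by rw [mul_smul]; exact h4⟩

theorem ND_eq (a : V) : S.ND a = S.N := by
  refine le_antisymm (Subgroup.closure_mono (Set.image_subset_range _ _))
    ((Subgroup.closure_le _).2 ?_)
  rintro _ ⟨v, rfl⟩
  obtain ⟨k, h1, h2⟩ := S.exists_D a v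
  have := S.rot_mem_ND h2 1
  rw [zpow_one, S.rot_smul] at this
  have h3 := mul_mem (mul_mem (inv_mem h1) this) h1
  rwa [show k⁻¹ * (k * S.rot v * k⁻¹) * k = S.rot v by group] at h3

/-- Reduced products of rotations, with first and last centre. -/
inductive PP (a : V) : Γ → V → V → Prop
  | base {w : V} {j : ℤ} : S.D a w → j ≠ 0 → PP a (S.rot w ^ j) w w
  | step {w w' z : V} {j : ℤ} {k : Γ} : S.D a w → j ≠ 0 → w ≠ w' → PP a k w' z →
      PP a (S.rot w ^ j * k) w z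

theorem PP.left {a w z : V} {k : Γ} (h : S.PP a k w z) : S.D a w := by
  cases h <;> assumption

theorem PP.right {a w z : V} {k : Γ} (h : S.PP a k w z) : S.D a z := by
  induction h <;> assumption

theorem out_rot {a w y : V} {j : ℤ} (hj : j ≠ 0) (h1 : y ≠ w) (h2 : S.win a w (S.dir w y)) :
    S.rot w ^ j • y ≠ w ∧ ¬ S.win a w (S.dir w (S.rot w ^ j • y)) := by
  refine ⟨S.rot_ne j h1, fun h => ?_⟩
  rw [S.dir_rot j h1] at h
  have := S.win_eq h2 h ⟨j, by ring⟩
  have h3 := S.n3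
  have : j * S.n = 0 := by omega
  rcases mul_eq_zero.1 this with h | h <;> omega

theorem out_step {a w w' y : V} {j : ℤ} (hw : S.D a w) (hw' : S.D a w') (hj : j ≠ 0)
    (hn : w ≠ w') (h : y ≠ w' ∧ ¬ S.win a w' (S.dir w' y)) :
    S.rot w ^ j • y ≠ w ∧ ¬ S.win a w (S.dir w (S.rot w ^ j • y)) := by
  have hb : Btw S.dir w w' y := ⟨hn, h.1, fun e => h.2 (e ▸ hw w' hn)⟩
  exact S.out_rot hj hb.ne.symm (S.t1.btw hb ▸ hw' w hn.symm)

theorem PP.out {a w z : V} {k : Γ} (h : S.PP a k w z) {y : V} (hy : S.D a y) :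
    (y = z ∧ w = z ∧ ∃ j : ℤ, k = S.rot z ^ j) ∨ (k • y ≠ w ∧ ¬ S.win a w (S.dir w (k • y))) := by
  induction h with
  | @base w j _ hj =>
    by_cases e : y = w
    · exact Or.inl ⟨e, rfl, j, rfl⟩
    · exact Or.inr (S.out_rot hj e (hy w e))
  | @step w w' z j k hw hj hn hk ih =>
    right
    rw [mul_smul]
    rcases ih with ⟨e1, e2, i, e3⟩ | ih
    · rw [e3, e1, (S.rot_spec z i).1]
      exact S.out_rot hj (e2 ▸ hn.symm) (hk.right S w (e2 ▸ hn.symm))
    · exact S.out_step hw (hk.left S) hj hn ih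

theorem exists_PP {a : V} {k : Γ} (h : k ∈ S.ND a) : k = 1 ∨ ∃ w z, S.PP a k w z := by
  have key : ∀ x, S.D a x → ∀ (j : ℤ) (k : Γ), (k = 1 ∨ ∃ w z, S.PP a k w z) →
      (S.rot x ^ j * k = 1 ∨ ∃ w z, S.PP a (S.rot x ^ j * k) w z) := by
    intro x hx j k hk
    by_cases hj : j = 0
    · simpa [hj] using hk
    rcases hk with rfl | ⟨w, z, hk⟩
    · exact Or.inr ⟨x, x, by rw [mul_one]; exact PP.base hx hj⟩
    by_cases e : x = w
    · subst e
      cases hk with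
      | @base _ i h1 h2 =>
        rw [← zpow_add]
        by_cases e : j + i = 0
        · exact Or.inl (by rw [e, zpow_zero])
        · exact Or.inr ⟨x, x, PP.base hx e⟩
      | @step _ w' _ i k h1 h2 h3 h4 =>
        rw [← mul_assoc, ← zpow_add]
        by_cases e : j + i = 0
        · exact Or.inr ⟨w', z, by rw [e, zpow_zero, one_mul]; exact h4⟩
        · exact Or.inr ⟨x, z, PP.step hx e h3 h4⟩
    · exact Or.inr ⟨x, z, PP.step hx hj e hk⟩
  induction h using Subgroup.closure_induction_left with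
  | one => exact Or.inl rfl
  | mul_left x hx k _ ih =>
    obtain ⟨w, hw, rfl⟩ := hx
    simpa using key w hw 1 k ih
  | inv_mul_cancel x hx k _ ih =>
    obtain ⟨w, hw, rfl⟩ := hx
    simpa using key w hw (-1) k ih

theorem W_eq_of_D {g h k : Γ} (hk : k ∈ S.N) (h1 : S.D (g • S.v₀) (h • S.v₀))
    (h2 : S.D (g • S.v₀) (k • h • S.v₀)) : S.W g (k * h) = S.W g h := by
  rw [← S.ND_eq (g • S.v₀)] at hk
  rcases S.exists_PP hk with rfl | ⟨w, z, hp⟩
  · rw [one_mul]
  rcases hp.out S h1 with ⟨e1, -, j, e⟩ | ⟨e1, e2⟩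
  · rw [e, ← e1, S.W_rot_right]
  · exact absurd (h2 w e1) e2

theorem normalise {g : Γ} {b : V} (hg : Geo S.dir (g • S.v₀) b) : S.Red (g • S.v₀) b →
    ∃ k ∈ S.N, S.D (g • S.v₀) (k • b) ∧ g • S.v₀ ≠ k • b ∧
      S.dir (k • b) (g • S.v₀) = S.dir (k • b) (k • g • S.v₀) ∧
      ∀ h : Γ, (h • S.v₀ = b ∨ Btw S.dir (g • S.v₀) b (h • S.v₀)) → S.W g (k * h) = S.W g h := by
  induction hg with
  | @base b h =>
    intro _
    obtain ⟨i, hi⟩ := S.exists_win (g • S.v₀) (g • S.v₀) (S.dir (g • S.v₀) b)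
    have s1 := S.Str_smul (S.rot (g • S.v₀) ^ i) h
    rw [(S.rot_spec _ i).1] at s1
    rw [← S.dir_rot i h.1.symm] at hi
    exact ⟨_, S.rot_mem _ i, S.D_of_out (S.D_root _) s1.1.symm hi (Or.inl rfl) s1.2.2, s1.1,
      by rw [(S.rot_spec _ i).1], fun h _ => S.W_rot_left g h i⟩
  | @step w b _ hs hb ih =>
    intro hr
    obtain ⟨k, k1, k2, k3, k4, k5⟩ := ih (hr.left S hb)
    have s0 := S.Str_smul k hs
    obtain ⟨i, hi⟩ := S.exists_win (g • S.v₀) (k • w) (S.dir (k • w) (k • b))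
    have s1 := S.Str_smul (S.rot (k • w) ^ i) s0
    rw [(S.rot_spec _ i).1] at s1
    have hne : ∀ j : ℤ, S.dir (k • w) (g • S.v₀) ≠ S.dir (k • w) (k • b) + j * S.n := by
      intro j e
      rw [k4, S.equiv k w _ hb.1, S.equiv k w _ hb.2.1] at e
      exact hb.2.2 (hr w hb.1 hb.2.1 ⟨-j, by linarith⟩).symm
    have hd := S.dir_rot i s0.1.symm
    rw [← hd] at hi
    have b1 : Btw S.dir (g • S.v₀) (k • w) (S.rot (k • w) ^ i • k • b) :=
      ⟨k3, s1.1.symm, hd ▸ hne i⟩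
    refine ⟨S.rot (k • w) ^ i * k, mul_mem (S.rot_mem _ i) k1, ?_, ?_, ?_, fun h hh => ?_⟩
    · rw [mul_smul]
      exact S.D_of_out k2 s1.1.symm hi (Or.inr b1.2.2) s1.2.2
    · rw [mul_smul]
      exact b1.ne
    · have b2 := S.Btw_smul (S.rot (k • w) ^ i * k) hb
      rw [S.t1.btw b2.symm, mul_smul, mul_smul, (S.rot_spec _ i).1, S.t1.btw b1.symm]
    · have b3 : h • S.v₀ ≠ w ∧ S.dir w (h • S.v₀) = S.dir w b := by
        rcases hh with hh | hh
        · rw [hh]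
          exact ⟨hb.2.1, rfl⟩
        · exact S.t1.key hs.1 (Or.inr fun e => hh.2.2 ((S.t1.btw hb.symm).trans e.symm))
      have b4 : S.dir (k • w) ((k * h) • S.v₀) = S.dir (k • w) (k • b) := by
        rw [mul_smul, S.equiv k w _ b3.1, S.equiv k w _ hb.2.1, b3.2]
      rw [mul_assoc, S.W_rot_btw ⟨k3, by
          rw [mul_smul]
          exact fun e => b3.1 (MulAction.injective k e), by
          rw [b4]
          simpa using hne 0⟩ (b4 ▸ hne i)]
      exact k5 h (Or.inr ⟨hb.1, b3.1, b3.2 ▸ hb.2.2⟩)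

theorem exists_W_D {g h : Γ} (hr : S.Red (g • S.v₀) (h • S.v₀)) :
    ∃ k ∈ S.N, S.D (g • S.v₀) (k • h • S.v₀) ∧ S.W g (k * h) = S.W g h := by
  by_cases e : g • S.v₀ = h • S.v₀
  · exact ⟨1, one_mem _, by rw [one_smul, ← e]; exact S.D_root _, by rw [one_mul]⟩
  · obtain ⟨k, k1, k2, -, -, k5⟩ := S.normalise (S.geo _ _ e) hr
    exact ⟨k, k1, k2, k5 h (Or.inl rfl)⟩

theorem exists_D' (a x : V) : ∃ k, k ∈ S.N ∧ S.D a (k • x) := S.ND_eq a ▸ S.exists_D a x

/-- The counting function on the quotient. -/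
noncomputable def Ws (g h : Γ) : ℤ := S.W g ((S.exists_D' (g • S.v₀) (h • S.v₀)).choose * h)

theorem Ws_eq {g h k : Γ} (hk : k ∈ S.N) (hr : S.Red (g • S.v₀) (k • h • S.v₀)) :
    S.Ws g h = S.W g (k * h) := by
  obtain ⟨h1, h2⟩ := (S.exists_D' (g • S.v₀) (h • S.v₀)).choose_spec
  unfold Ws
  generalize (S.exists_D' (g • S.v₀) (h • S.v₀)).choose = k0 at h1 h2
  rw [← mul_smul] at hr h2
  obtain ⟨k', k1, k2, k3⟩ := S.exists_W_D hr
  have e : k' * (k * h) = k' * k * k0⁻¹ * (k0 * h) := by group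
  rw [← k3, e, S.W_eq_of_D (mul_mem (mul_mem k1 hk) (inv_mem h1)) h2]
  rwa [← mul_smul, ← e, mul_smul]

theorem Red_smul (x : Γ) {a b : V} (h : S.Red a b) : S.Red (x • a) (x • b) := by
  intro u h1 h2
  obtain ⟨u, rfl⟩ := MulAction.surjective x u
  have h3 : a ≠ u := fun e => h1 (by rw [e])
  have h4 : b ≠ u := fun e => h2 (by rw [e])
  simp only at *
  rw [S.equiv x u a h3, S.equiv x u b h4, add_sub_add_right_eq_sub]
  exact fun hd => by rw [h u h3 h4 hd]

theorem Red.symm {a b : V} (h : S.Red a b) : S.Red b a := fun u h1 h2 h3 =>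
  (h u h2 h1 (by rw [← dvd_neg, neg_sub]; exact h3)).symm

theorem exists_Red (g h : Γ) : ∃ k ∈ S.N, S.Red (g • S.v₀) (k • h • S.v₀) :=
  let ⟨k, h1, h2⟩ := S.exists_D' (g • S.v₀) (h • S.v₀)
  ⟨k, h1, (S.D_root _).red S h2⟩

theorem Ws_smul (x g h : Γ) : S.Ws (x * g) (x * h) = S.Ws g h := by
  obtain ⟨k, h1, h2⟩ := S.exists_Red g h
  rw [S.Ws_eq h1 h2, S.Ws_eq (S.conj_mem x h1), ← S.W_smul x g]
  · congr 1
    group
  · have := S.Red_smul x h2
    simpa [mul_smul] using this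

theorem Ws_right {k : Γ} (hk : k ∈ S.N) (g h : Γ) : S.Ws g (k * h) = S.Ws g h := by
  obtain ⟨k', h1, h2⟩ := S.exists_Red g (k * h)
  rw [S.Ws_eq h1 h2, S.Ws_eq (mul_mem h1 hk), mul_assoc]
  simpa [mul_smul] using h2

theorem Ws_left {k : Γ} (hk : k ∈ S.N) (g h : Γ) : S.Ws (k * g) h = S.Ws g h := by
  rw [← S.Ws_smul k⁻¹, inv_mul_cancel_left, S.Ws_right (inv_mem hk)]

theorem Ws_of_red {g h : Γ} (hr : S.Red (g • S.v₀) (h • S.v₀)) : S.Ws g h = S.W g h := by
  rw [S.Ws_eq (one_mem _) (by rwa [one_smul]), one_mul]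

theorem Ws_anti (g h : Γ) : S.Ws h g = -S.Ws g h := by
  obtain ⟨k, h1, h2⟩ := S.exists_Red g h
  rw [← mul_smul] at h2
  rw [← S.Ws_left h1, ← S.Ws_right h1 g h, S.Ws_of_red h2, S.Ws_of_red (h2.symm S), S.W_anti]

theorem Ws_defect (g h m : Γ) : S.Ws g h + S.Ws h m + S.Ws m g ≤ 1 := by
  obtain ⟨k, h1, h2⟩ := S.exists_D' (g • S.v₀) (h • S.v₀)
  obtain ⟨k', h3, h4⟩ := S.exists_D' (g • S.v₀) (m • S.v₀)
  rw [← mul_smul] at h2 h4
  rw [← S.Ws_right h1 g h, ← S.Ws_left h1 h m, ← S.Ws_right h3 (k * h) m, ← S.Ws_left h3 m g,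
    S.Ws_of_red ((S.D_root _).red S h2), S.Ws_of_red (h2.red S h4),
    S.Ws_of_red (h4.red S (S.D_root _))]
  exact S.W_defect _ _ _

theorem Ws_zero (g h : Γ) (h0 : S.Ws g h = 0) (x : Γ) : S.Ws g x = S.Ws h x := by
  obtain ⟨k, h1, h2⟩ := S.exists_Red g h
  rw [← mul_smul] at h2
  rw [← S.Ws_right h1, S.Ws_of_red h2] at h0
  rw [← S.Ws_left h1 h, S.Ws_anti x g, S.Ws_anti x (k * h)]
  generalize k * h = h' at h0 h2
  have e : g • S.v₀ = h' • S.v₀ := by
    by_contra e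
    have := S.W_odd (S.geo _ _ e) h2 g h' rfl rfl
    rw [h0] at this
    simp at this
  rw [S.W_same e] at h0
  have h3 := rr_eq_zero S.L_pos h0
  obtain ⟨k', h4, h5⟩ := S.exists_Red g x
  rw [← mul_smul] at h5
  rw [← S.Ws_left h4 x g, ← S.Ws_left h4 x h', S.Ws_of_red (h5.symm S),
    S.Ws_of_red (e ▸ h5.symm S), S.W_congr _ e (by omega)]

/-- The action on a linear order. -/
theorem exists_order : ∃ (Ω : Type) (_ : LinearOrder Ω) (ρ : Γ →* (Ω ≃o Ω)), ρ S.γ = 1 ∧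
    ∀ t, t • S.v₀ = S.v₀ → S.c t S.v₀ = -1 → S.e t = 1 → ρ t ≠ 1 := by
  obtain ⟨Ω, _, ρ, h⟩ := order_of_count S.Ws S.Ws_smul S.Ws_anti S.Ws_defect S.Ws_zero
  refine ⟨Ω, inferInstance, ρ, (h _).2 fun g => ?_, fun t h1 h2 h3 h4 => ?_⟩
  · have : S.γ ∈ S.N := by
      have := S.rot_mem S.v₀ 1
      rwa [zpow_one, S.rot_eq (one_smul Γ _), one_mul, inv_one, mul_one] at this
    rw [S.Ws_right this]
    have := S.Ws_anti g g
    omega
  · have h5 := (h t).1 h4 1
    have e : (1 : Γ) • S.v₀ = t • S.v₀ := by rw [one_smul, h1]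
    rw [mul_one, S.Ws_of_red (by rw [e]; exact fun _ _ _ _ => rfl), S.W_same e] at h5
    have h6 := rr_eq_zero S.L_pos h5
    rw [S.P_at rfl, S.P_at e.symm, h2, h3, S.e_one, S.c_one] at h6
    have := S.hq
    unfold n at h6
    omega

end QS

end Pool.Agent.Work.MP_3d425c_gt.Bor
end

-- merged part: Pool.Agent.Work.MP_3d425c_gt.BorBig
section
/-! Actions coming from the tree of lines. -/

namespace Pool.Agent.Work.MP_3d425c_gt.Bor
open Classical FreeGroup

/-- Left multiplication on lines. -/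
def lm {L : Type} (m : FreeGroup L) : Equiv.Perm (DW L) := (Equiv.mulLeft m).prodCongr (.refl _)

theorem Mor.congr {L : Type} [LinearOrder L] {ε ε' : L → Bool} {g g' : L → L} {o o' : Bool}
    {f f' : DW L → DW L} (h : Mor ε ε' g o f) (hg : ∀ y, g' y = g y) (ho : o' = o)
    (hf : ∀ w, f' w = f w) : Mor ε ε' g' o' f' := by
  rwa [funext hg, ho, funext hf]

namespace XD
variable {G L : Type} [Group G] [LinearOrder L] [MulAction G L] {α β T : G} {p₁ q₁ p₂ q₂ : ℤ}
  (X : XD L α β T p₁ q₁ p₂ q₂)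

/-- Parity of the level. -/
def od (g : G) : Bool := decide (Odd (X.ex g))

theorem ex_one : X.ex 1 = 0 := by have := X.ex_mul 1 1; rw [mul_one] at this; omega

theorem ex_zpow (g : G) (k : ℤ) : X.ex (g ^ k) = k * X.ex g := by
  induction k using Int.induction_on with
  | zero => simpa using X.ex_one
  | succ k ih => rw [zpow_add_one, X.ex_mul, ih]; ring
  | pred k ih =>
    have := X.ex_mul (g ^ (-(k : ℤ) - 1)) g
    rw [← zpow_add_one, sub_add_cancel, ih] at this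
    linarith

theorem od_zero {g : G} (h : X.ex g = 0) : X.od g = false := by simp [od, h]

theorem od_mul (g h : G) : X.od (g * h) = xor (X.od h) (X.od g) := by
  simp only [od, X.ex_mul, Int.odd_add, ← Int.not_odd_iff_even]
  by_cases Odd (X.ex g) <;> by_cases Odd (X.ex h) <;> simp [*]

theorem od_inv (g : G) : X.od g⁻¹ = X.od g := by
  have := X.od_mul g g⁻¹
  rw [mul_inv_cancel, X.od_zero X.ex_one] at this
  revert this
  cases X.od g <;> simp

theorem ori (g : G) : Ori (fun y : L => g • y) (X.od g) := by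
  refine ⟨fun y y' => ?_, MulAction.surjective g⟩
  by_cases h : Odd (X.ex g)
  · simpa [od, h] using (X.anti g h).lt_iff_gt
  · simpa [od, h] using (X.mono g (Int.not_odd_iff_even.1 h)).lt_iff_lt

/-- The tautological lift. -/
def mp : G →* Equiv.Perm (DW L) := MonoidHom.toHomPerm
  { toFun := fun g w => (FreeGroup.map (fun y => g • y) w.1, g • w.2.1, xor w.2.2 (X.od g))
    map_one' := funext fun w => by simp [X.od_zero X.ex_one, Function.End.one_def]
    map_mul' := fun g h => funext fun w => by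
      simp [X.od_mul, mul_smul, FreeGroup.map.comp, Function.comp_def, Function.End.mul_def] }

theorem mp_apply (g : G) (w : DW L) :
    X.mp g w = (FreeGroup.map (fun y => g • y) w.1, g • w.2.1, xor w.2.2 (X.od g)) := rfl

theorem mp_even {g : G} (h : X.ex g = 0) (n : FreeGroup L) (y : L) (b : Bool) :
    X.mp g (n, y, b) = (FreeGroup.map (fun y => g • y) n, g • y, b) := by
  simp [mp_apply, X.od_zero h]

/-- The group of all lifts. -/
def Γ : Subgroup (Equiv.Perm (DW L) × G) where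
  carrier := {x | Mor X.εa X.εa (fun y => x.2 • y) (X.od x.2) x.1}
  one_mem' := (Mor.id X.εa).congr (one_smul G) (X.od_zero X.ex_one) fun _ => rfl
  mul_mem' := fun {x y} hx hy =>
    (Mor.comp hy hx).congr (mul_smul x.2 y.2) (X.od_mul _ _) fun _ => rfl
  inv_mem' := fun {x} hx => by
    simpa [X.od_inv] using Mor.symm hx (inv_smul_smul x.2) (1, X.y₀, false)

theorem mor (x : X.Γ) : Mor X.εa X.εa (fun y => x.1.2 • y) (X.od x.1.2) x.1.1 := x.2

theorem ext {x y : X.Γ} (h : x.1.2 = y.1.2) (w : DW L) (e : x.1.1 w = y.1.1 w) : x = y :=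
  Subtype.ext (Prod.ext (DFunLike.coe_injective ((X.mor x).uniq (h ▸ X.mor y)
    (congrArg Prod.fst e))) h)

instance : MulAction X.Γ (VV L) where
  smul x := Quotient.map x.1.1 fun _ _ e => vw_eq.1 ((X.mor x).vw_congr (vw_eq.2 e))
  one_smul a := Quotient.inductionOn a fun _ => rfl
  mul_smul _ _ a := Quotient.inductionOn a fun _ => rfl

theorem smul_vw (x : X.Γ) (w : DW L) : x • vw w = vw (x.1.1 w) := rfl

/-- The shift of indices. -/
noncomputable def sh (x : X.Γ) (u : VV L) : ℤ := idx X.εa (x.1.1 u.out) - idx X.εa u.out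

theorem idx_smul (x : X.Γ) (w : DW L) : idx X.εa (x.1.1 w) = idx X.εa w + X.sh x (vw w) := by
  obtain ⟨k, e⟩ := exists_rot X.εa (w := (vw w).out) (w' := w) (Quotient.out_eq _)
  conv_lhs => rw [← e, (X.mor x).comm_zpow, idx_rot_zpow]
  conv_rhs => rw [sh]; congr; rw [← e, idx_rot_zpow]
  ring

theorem sh_mul (x y : X.Γ) (u : VV L) : X.sh (x * y) u = X.sh x (y • u) + X.sh y u := by
  induction u using Quotient.inductionOn with
  | h w =>
    have h1 := X.idx_smul (x * y) w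
    have h2 := X.idx_smul x (y.1.1 w)
    have h3 := X.idx_smul y w
    change idx X.εa (x.1.1 (y.1.1 w)) = _ at h1
    change X.sh _ (vw w) = X.sh x (vw (y.1.1 w)) + X.sh y (vw w)
    omega

theorem sh_zpow {x : X.Γ} {u : VV L} (h : x • u = u) (k : ℤ) : X.sh (x ^ k) u = k * X.sh x u := by
  induction k using Int.induction_on with
  | zero => simp [sh]
  | succ k ih => rw [zpow_add_one, X.sh_mul, h, ih]; ring
  | pred k ih =>
    have := X.sh_mul (x ^ (-(k : ℤ) - 1)) x u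
    rw [← zpow_add_one, sub_add_cancel, ih, h] at this
    linarith

/-- Deck transformations. -/
def dk (m : FreeGroup L) : X.Γ :=
  ⟨(lm m, 1), (Mor.left X.εa m).congr (one_smul G) (X.od_zero X.ex_one) fun _ => rfl⟩

theorem exA : X.ex (α ^ q₁) = 0 := by rw [X.ex_zpow, X.exα, mul_zero]

theorem exB : X.ex (β ^ q₂) = 0 := by rw [X.ex_zpow, X.exβ, mul_zero]

theorem mono0 {g : G} (h : X.ex g = 0) : StrictMono fun y : L => g • y :=
  X.mono g (h ▸ Even.zero)

theorem ex_inv {g : G} (h : X.ex g = 0) : X.ex g⁻¹ = 0 := by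
  rw [← zpow_neg_one, X.ex_zpow, h, mul_zero]

theorem odT : X.od T = true := by simp [od, X.exT]

theorem exists_Φ : ∃ Φ : Equiv.Perm (DW L), Mor X.εb X.εa (fun y => y) false Φ ∧
    (∀ z, bel z ((α ^ q₁)⁻¹ • X.y₀) → ¬ bel z ((β ^ q₂)⁻¹ • X.y₀) → Φ (1, z) = (1, z)) ∧
    Φ (1, (α ^ q₁)⁻¹ • X.y₀, false) =
      (of ((α ^ q₁)⁻¹ • X.y₀), (α ^ q₁)⁻¹ • X.y₀, false) := by
  obtain ⟨f, h, e⟩ := exists_mor (ε := X.εb) (ε' := X.εa) Ori.id (by simpa using X.lf1)
    (1, X.y₀, false) 1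
  obtain ⟨Φ, rfl⟩ := h.perm (1, X.y₀, false)
  have key : ∀ z, bel z ((α ^ q₁)⁻¹ • X.y₀) → ¬ bel z ((β ^ q₂)⁻¹ • X.y₀) → Φ (1, z) = (1, z) :=
    fun z h1 h2 => by
      rw [h.eq, h.const 1 (z' := (X.y₀, false)) fun t ht => ?_, e, Bool.xor_false]
      rw [Bool.xor_false]
      refine X.gap1 t (not_le.1 fun e => ht (iff_of_true (h1.mono e) ?_))
        (not_le.1 fun e => ht (iff_of_false (fun e' => h2 (e'.mono e)) ?_))
      · exact bel_false.2 (e.trans_lt X.ltA)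
      · exact fun e' => (bel_false.1 e').not_ge (X.ltB.le.trans e)
  refine ⟨Φ, h, key, ?_⟩
  have h1 := h.jump 1 ((α ^ q₁)⁻¹ • X.y₀)
  have h2 : ∀ (k : ℤ) y, X.εa (α ^ k • y) = X.εa y := fun k => by
    induction k using Int.induction_on with
    | zero => simp
    | succ k ih => exact fun y => by rw [zpow_add_one, mul_smul, ih, X.inva]
    | pred k ih => exact fun y => by rw [zpow_sub_one, mul_smul, ih, ← X.inva, smul_inv_smul]
  rw [X.valA, Bool.not_false, key _ (bel_true.2 le_rfl)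
    (fun e => (bel_true.1 e).not_gt (X.ltA.trans X.ltB)), ← zpow_neg, h2, X.val0, zpow_neg] at h1
  rw [h.eq, h1]
  simp

theorem exists_Ψ : ∃ Ψ : Equiv.Perm (DW L), Mor X.εb X.εa (fun y => T • y) true Ψ ∧
    ∀ y, X.y₀ ≤ y → (y ≤ (β ^ q₂)⁻¹ • X.y₀ ∨ y ≤ (α ^ q₁ * β ^ p₂)⁻¹ • X.y₀) →
      Ψ (1, y, true) = (1, T • y, false) := by
  obtain ⟨f, h, e⟩ := exists_mor (ε := X.εb) (ε' := X.εa) (X.odT ▸ X.ori T)
    (by simpa using X.lf2) (1, X.y₀, true) 1
  obtain ⟨Ψ, rfl⟩ := h.perm (1, X.y₀, false)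
  refine ⟨Ψ, h, fun y h1 h2 => ?_⟩
  rw [h.eq, h.const 1 (z' := (X.y₀, true)) fun t ht => ?_, e]
  · rfl
  rw [bel_true, bel_true] at ht
  have h3 : X.y₀ < t := not_le.1 fun e => ht (iff_of_true (e.trans h1) e)
  have h4 : t ≤ y := by_contra fun e => ht (iff_of_false e h3.not_ge)
  rw [Bool.xor_true]
  exact Bool.eq_not_iff.2 (X.gap2 t h3 (h2.imp h4.trans h4.trans))

theorem exists_lifts : ∃ a b t : X.Γ, a.1.2 = α ∧ b.1.2 = β ∧ t.1.2 = T ∧
    t * b ^ q₂ = b ^ q₂ * a ^ p₁ * t ∧ t * (a ^ q₁ * b ^ p₂) = a ^ q₁ * t ∧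
    a ^ q₁ * b ^ q₂ = X.dk (of X.y₀) * (b ^ q₂ * a ^ q₁) ∧
    t.1.1 (1, X.y₀, true) = (1, X.y₀, false) := by
  obtain ⟨Φ, hΦ, Φ1, Φ2⟩ := X.exists_Φ
  obtain ⟨Ψ, hΨ, Ψ1⟩ := X.exists_Ψ
  have hΦ' := hΦ.symm (fun _ => rfl) (1, X.y₀, false)
  have Φ3 : ∀ z, bel z ((α ^ q₁)⁻¹ • X.y₀) → ¬ bel z ((β ^ q₂)⁻¹ • X.y₀) → Φ⁻¹ (1, z) = (1, z) :=
    fun z h1 h2 => by rw [Equiv.Perm.inv_eq_iff_eq, Φ1 z h1 h2]
  let a : X.Γ := ⟨(X.mp α, α), Mor.map (X.ori α) fun y => by rw [X.inva, X.od_zero X.exα]; simp⟩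
  let b : X.Γ := ⟨(Φ * X.mp β * Φ⁻¹, β), ((hΦ'.comp (Mor.map (X.ori β) fun y => by
      rw [X.invb, X.od_zero X.exβ]; simp)).comp hΦ).congr (fun _ => rfl) (by simp) fun _ => rfl⟩
  let t : X.Γ := ⟨(Ψ * Φ⁻¹, T), (hΦ'.comp hΨ).congr (fun _ => rfl) X.odT fun _ => rfl⟩
  have ha : ∀ k : ℤ, (a ^ k).1 = (X.mp (α ^ k), α ^ k) := fun k => by simp [a]
  have hb : ∀ k : ℤ, (b ^ k).1 = (Φ * X.mp (β ^ k) * Φ⁻¹, β ^ k) := fun k => by simp [b]
  have l0 := X.ltA
  have l1 := X.ltB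
  have b0 : ∀ c, bel (X.y₀, c) ((α ^ q₁)⁻¹ • X.y₀) := fun c => Or.inl l0
  have b1 : ∀ c, ¬ bel (X.y₀, c) ((β ^ q₂)⁻¹ • X.y₀) := fun c h =>
    h.elim l1.not_gt fun e => l1.ne' e.1
  have eα : ∀ k : ℤ, X.ex (α ^ k) = 0 := fun k => by rw [X.ex_zpow, X.exα, mul_zero]
  have eβ : ∀ k : ℤ, X.ex (β ^ k) = 0 := fun k => by rw [X.ex_zpow, X.exβ, mul_zero]
  refine ⟨a, b, t, rfl, rfl, rfl, ?_, ?_, ?_, ?_⟩
  · refine X.ext (by simpa [ha, hb] using X.rel.r1) (Φ (1, (β ^ q₂)⁻¹ • X.y₀, true)) ?_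
    have e1 : α ^ p₁ • T • (β ^ q₂)⁻¹ • X.y₀ = (β ^ q₂)⁻¹ • X.y₀ := by
      rw [← mul_smul, ← mul_smul, show α ^ p₁ * T * (β ^ q₂)⁻¹ = (β ^ q₂)⁻¹ * T by
        rw [eq_inv_mul_iff_mul_eq, ← mul_assoc, ← mul_assoc, ← X.rel.r1, mul_inv_cancel_right],
        mul_smul, X.fix]
    simp only [Subgroup.coe_mul, Prod.fst_mul, ha, hb, t, Equiv.Perm.mul_apply,
      Equiv.Perm.coe_inv, Equiv.symm_apply_apply]
    rw [Ψ1 _ l1.le (Or.inl le_rfl), X.mp_even (eβ _), X.mp_even (eα _), _root_.map_one, _root_.map_one, e1,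
      smul_inv_smul, Ψ1 _ le_rfl (Or.inl l1.le), X.fix, ← Equiv.Perm.coe_inv,
      Φ3 _ (Or.inl (l0.trans l1)) (by simp [bel]), X.mp_even (eβ _), _root_.map_one, smul_inv_smul,
      Φ1 _ (b0 _) (b1 _)]
  · refine X.ext (by simpa [ha, hb] using X.rel.r2) (Φ (1, (α ^ q₁ * β ^ p₂)⁻¹ • X.y₀, true)) ?_
    have e1 : T • (α ^ q₁ * β ^ p₂)⁻¹ • X.y₀ = (α ^ q₁)⁻¹ • X.y₀ := by
      rw [← mul_smul, show T * (α ^ q₁ * β ^ p₂)⁻¹ = (α ^ q₁)⁻¹ * T by
        rw [eq_inv_mul_iff_mul_eq, ← mul_assoc, ← X.rel.r2, mul_inv_cancel_right],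
        mul_smul, X.fix]
    have l2 : X.y₀ < (α ^ q₁ * β ^ p₂)⁻¹ • X.y₀ :=
      (X.anti T (X.exT ▸ odd_one)).lt_iff_gt.1 (by simpa only [e1, X.fix] using l0)
    simp only [Subgroup.coe_mul, Prod.fst_mul, ha, hb, t, Equiv.Perm.mul_apply,
      Equiv.Perm.coe_inv, Equiv.symm_apply_apply]
    rw [Ψ1 _ l2.le (Or.inr le_rfl), e1, X.mp_even (eβ _), _root_.map_one, mul_inv_rev, mul_smul,
      smul_inv_smul, Φ1 _ (bel_true.2 le_rfl) fun e => (bel_true.1 e).not_gt (l0.trans l1),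
      X.mp_even (eα _), X.mp_even (eα _), _root_.map_one, smul_inv_smul, ← Equiv.Perm.coe_inv,
      Φ3 _ (b0 _) (b1 _), Ψ1 _ le_rfl (Or.inl l1.le), X.fix]
  · refine X.ext (by simpa [ha, hb, dk] using X.rel.comm)
      (1, (α ^ q₁)⁻¹ • (β ^ q₂)⁻¹ • X.y₀, false) ?_
    have e1 : (α ^ q₁)⁻¹ • (β ^ q₂)⁻¹ • X.y₀ = (β ^ q₂)⁻¹ • (α ^ q₁)⁻¹ • X.y₀ := by
      rw [← mul_smul, ← mul_smul, ← mul_inv_rev, ← mul_inv_rev, X.rel.comm]
    simp only [Subgroup.coe_mul, Prod.fst_mul, ha, hb, dk, Equiv.Perm.mul_apply]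
    rw [Φ3 ((α ^ q₁)⁻¹ • (β ^ q₂)⁻¹ • X.y₀, false)
      (bel_false.2 (X.mono0 (X.ex_inv (eα _)) l1)) fun e => (bel_false.1 e).not_gt
      (e1.trans_lt (X.mono0 (X.ex_inv (eβ _)) l0)), X.mp_even (eβ _), X.mp_even (eα _) 1, _root_.map_one, _root_.map_one,
      smul_inv_smul, e1, smul_inv_smul, Φ2, Φ3 _ (Or.inl (l0.trans l1)) (by simp [bel]),
      X.mp_even (eβ _), X.mp_even (eα _), _root_.map_one, smul_inv_smul, smul_inv_smul,
      Φ1 _ (b0 _) (b1 _)]
    simp [lm]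
  · simp only [t, Equiv.Perm.mul_apply]
    rw [Φ3 _ (b0 _) (b1 _), Ψ1 _ le_rfl (Or.inl l1.le), X.fix]

end XD

theorem XD.good {G L : Type} [Group G] [LinearOrder L] [MulAction G L] {α β T : G}
    {p₁ q₁ p₂ q₂ p₃ q₃ : ℤ} (X : XD L α β T p₁ q₁ p₂ q₂) (hq₃ : 0 < q₃) (h3 : p₃ < q₃)
    (h0 : p₃ ≠ 0) (cop : IsCoprime p₃ q₃) :
    ∃ (Ω : Type) (_ : LinearOrder Ω) (a b t : Ω ≃o Ω), Core a b t p₁ q₁ p₂ q₂ p₃ q₃ ∧ t ≠ 1 := by
  obtain ⟨a, b, t, ha, hb, ht, r1, r2, r3, t0⟩ := X.exists_lifts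
  have surj : ∀ g, ∃ x : X.Γ, x.1.2 = g := fun g => by
    have : g ∈ X.Γ.map (MonoidHom.snd _ _) := by
      refine (X.gen.ge.trans ((Subgroup.closure_le _).2 ?_)) (Subgroup.mem_top g)
      rintro _ (rfl | rfl | rfl)
      · exact ⟨_, a.2, ha⟩
      · exact ⟨_, b.2, hb⟩
      · exact ⟨_, t.2, ht⟩
    obtain ⟨x, hx, e⟩ := this
    exact ⟨⟨x, hx⟩, e⟩
  have ft : t • vt 1 X.y₀ = vt 1 X.y₀ := by rw [← vw_vt 1 X.y₀ true, X.smul_vw, t0, vw_vt, vw_vt]
  have d0 : (X.dk (of X.y₀)).1.1 (1, X.y₀, false) = (1 * of X.y₀, X.y₀, false) := by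
    simp [XD.dk, lm]
  have fd : X.dk (of X.y₀) • vt 1 X.y₀ = vt 1 X.y₀ := by
    rw [vt, X.smul_vw, d0]
    exact vt_lt 1 (X.y₀, true)
  have ct : X.sh t (vt 1 X.y₀) = -1 := by
    have := X.idx_smul t (1, X.y₀, true)
    rw [t0, vw_vt] at this
    simp [idx, X.val0] at this
    omega
  have cd : X.sh (X.dk (of X.y₀)) (vt 1 X.y₀) = 2 := by
    have := X.idx_smul (X.dk (of X.y₀)) (1, X.y₀, false)
    rw [d0, vw_vt] at this
    simp only [idx, len_mul, len_of] at this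
    omega
  have fz : ∀ {x : X.Γ}, x • vt 1 X.y₀ = vt 1 X.y₀ → ∀ k : ℤ, x ^ k • vt 1 X.y₀ = vt 1 X.y₀ :=
    fun {x} h k => (MulAction.stabilizer X.Γ (vt 1 X.y₀)).zpow_mem h k
  have fγ : (t ^ p₃ * X.dk (of X.y₀) ^ q₃) • vt 1 X.y₀ = vt 1 X.y₀ := by
    rw [mul_smul, fz fd, fz ft]
  let S : QS X.Γ (VV L) :=
    { dir := dirI X.εa
      c := X.sh
      e := fun x => X.ex x.1.2
      v₀ := vt 1 X.y₀
      γ := t ^ p₃ * X.dk (of X.y₀) ^ q₃
      p := p₃
      q := q₃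
      t1 := dirI_t1 _
      geo := dirI_geo _
      equiv := fun x u v => Quotient.inductionOn₂ u v fun w w' h => by
        change idx _ (Dir (vw (x.1.1 w)) (vw (x.1.1 w'))) = idx _ (Dir (vw w) (vw w')) +
          X.sh x (vw w)
        rw [(X.mor x).dir h, X.idx_smul, (Dir_spec (a := vw w) (b := vw w') (Ne.symm h)).1]
      c_mul := X.sh_mul
      e_mul := fun x y => X.ex_mul _ _
      par := fun x u => by
        rw [XD.sh, Int.even_sub, Int.even_sub, ← Int.not_odd_iff_even, ← Int.not_odd_iff_even,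
          ← Int.not_odd_iff_even, idx_odd, idx_odd, (X.mor x).snd, XD.od]
        cases u.out.2.2 <;> simp
      trans := fun v => by
        obtain ⟨m, y, rfl⟩ := exists_vt v
        obtain ⟨g, rfl⟩ := X.trans y
        obtain ⟨x, rfl⟩ := surj g
        refine ⟨X.dk (m * (x.1.1 (1, X.y₀, false)).1⁻¹) * x, ?_⟩
        rw [mul_smul, vt, X.smul_vw, X.smul_vw, (X.mor x).eq, ← vw_vt m _ (xor false (X.od x.1.2))]
        simp [XD.dk, lm]
      fix := fγ
      cγ := by rw [X.sh_mul, fz fd, X.sh_zpow ft, X.sh_zpow fd, ct, cd]; ring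
      eγ := by simp [XD.dk, ht, X.ex_zpow, X.exT]
      cent := fun x hx => by
        obtain ⟨i, hi⟩ := exists_rot X.εa (hx.symm : vw _ = vw (x.1.1 _))
        obtain ⟨j, hj⟩ := exists_rot X.εa
          (fγ.symm : vw _ = vw ((t ^ p₃ * X.dk (of X.y₀) ^ q₃).1.1 _))
        have h1 : x.1.2 • X.y₀ = X.y₀ := by
          have := (vw_eq.1 (hx : vw (x.1.1 _) = vw _)).1
          rwa [(X.mor x).snd] at this
        refine X.ext (by simpa [XD.dk, ht] using (Commute.zpow_right (X.stab _ h1) p₃).eq)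
          (1, X.y₀, false) ?_
        generalize t ^ p₃ * X.dk (of X.y₀) ^ q₃ = y at hj ⊢
        change x.1.1 (y.1.1 _) = y.1.1 (x.1.1 _)
        conv_lhs => rw [← hj, (X.mor x).comm_zpow, ← hi]
        conv_rhs => rw [← hi, (X.mor y).comm_zpow, ← hj]
        rw [← Equiv.Perm.mul_apply, ← Equiv.Perm.mul_apply (spin _ ^ i), zpow_mul_comm]
      hq := hq₃
      hpq := h3
      h3 := by
        rcases (show q₃ = 1 ∨ 2 ≤ q₃ by omega) with h | h <;> omega
      cop := cop }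
  obtain ⟨Ω, _, ρ, h1, h2⟩ := S.exists_order
  refine ⟨Ω, inferInstance, ρ a, ρ b, ρ t, ⟨?_, ?_, ?_⟩, h2 t ft ct ((congrArg X.ex ht).trans X.exT)⟩
  · simpa using congrArg ρ r1
  · simpa using congrArg ρ r2
  · rw [← h1, show S.γ = t ^ p₃ * (a ^ q₁ * b ^ q₂ * (a ^ q₁)⁻¹ * (b ^ q₂)⁻¹) ^ q₃ by
      rw [r3, show ∀ x y z : X.Γ, x * (y * z) * z⁻¹ * y⁻¹ = x by intros; group]]
    simp

end Pool.Agent.Work.MP_3d425c_gt.Bor
end
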