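import Mathlib
import Pool.Agent.Work.MP_3d425c_gt.BorBig

-- merged part: Pool.Agent.Work.MP_3d425c_gt.BorSmall
section
-- merged part: Pool.Agent.Work.MP_3d425c_gt.BorLiftDefs
section
/-! Lifts of two by two matrices to order automorphisms of the line of angles. -/

namespace Pool.Agent.Work.MP_3d425c_gt.Bor
open Real

/-- Real two by two matrices. -/
abbrev M2 : Type := Matrix (Fin 2) (Fin 2) ℝ

/-- The unit vector of angle `θ`. -/
noncomputable def vec (θ : ℝ) : Fin 2 → ℝ := ![cos θ, sin θ]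

/-- The rotation of angle `ψ`. -/
noncomputable def rot (ψ : ℝ) : M2 := !![cos ψ, -sin ψ; sin ψ, cos ψ]

/-- The translation of the line of angles. -/
noncomputable def tra (ψ : ℝ) : ℝ ≃o ℝ := OrderIso.addRight ψ

/-- `f` lifts the action of `M` on directions. -/
def Lifts (M : M2) (f : ℝ ≃o ℝ) : Prop :=
  ∀ θ, ∃ r : ℝ, 0 < r ∧ M.mulVec (vec θ) = r • vec (f θ)

/-- `f` moves every angle by less than a right angle. -/
def SmallB (f : ℝ ≃o ℝ) : Prop := ∀ θ, |f θ - θ| < π / 2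

end Pool.Agent.Work.MP_3d425c_gt.Bor
end

-- merged part: Pool.Agent.Work.MP_3d425c_gt.BorLift
section
namespace Pool.Agent.Work.MP_3d425c_gt.Bor
open Real

theorem tra_apply (ψ θ : ℝ) : tra ψ θ = θ + ψ := rfl

theorem tra_mul (ψ φ : ℝ) : tra ψ * tra φ = tra (ψ + φ) := by
  ext θ
  rw [RelIso.mul_apply, tra_apply, tra_apply, tra_apply]
  ring

theorem tra_zero : tra 0 = 1 := by
  ext θ
  rw [tra_apply, add_zero]
  rfl

theorem tra_inv (ψ : ℝ) : (tra ψ)⁻¹ = tra (-ψ) := by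
  refine inv_eq_of_mul_eq_one_right ?_
  rw [tra_mul, add_neg_cancel, tra_zero]

theorem tra_zpow (ψ : ℝ) (k : ℤ) : tra ψ ^ k = tra (k * ψ) := by
  induction k using Int.induction_on with
  | zero => simp [tra_zero]
  | succ n ih =>
    rw [zpow_add_one, ih, tra_mul]
    congr 1
    push_cast
    ring
  | pred n ih =>
    rw [zpow_sub_one, ih, tra_inv, tra_mul]
    congr 1
    push_cast
    ring

theorem BorLift_vec0 (θ : ℝ) : vec θ 0 = cos θ := rfl

theorem BorLift_vec1 (θ : ℝ) : vec θ 1 = sin θ := rfl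

theorem BorLift_ext {u v : Fin 2 → ℝ} (h0 : u 0 = v 0) (h1 : u 1 = v 1) : u = v := by
  funext i
  fin_cases i
  exacts [h0, h1]

theorem BorLift_mulVec0 (M : M2) (v : Fin 2 → ℝ) : M.mulVec v 0 = M 0 0 * v 0 + M 0 1 * v 1 := by
  simp [Matrix.mulVec, dotProduct, Fin.sum_univ_two]

theorem BorLift_mulVec1 (M : M2) (v : Fin 2 → ℝ) : M.mulVec v 1 = M 1 0 * v 0 + M 1 1 * v 1 := by
  simp [Matrix.mulVec, dotProduct, Fin.sum_univ_two]

theorem lifts_rot (ψ : ℝ) : Lifts (rot ψ) (tra ψ) := by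
  intro θ
  refine ⟨1, one_pos, ?_⟩
  rw [one_smul, tra_apply]
  refine BorLift_ext ?_ ?_
  · rw [BorLift_mulVec0, BorLift_vec0, BorLift_vec0, BorLift_vec1, cos_add]
    simp [rot]
    ring
  · rw [BorLift_mulVec1, BorLift_vec0, BorLift_vec1, BorLift_vec1, sin_add]
    simp [rot]
    ring

theorem Lifts.mul {M N : M2} {f g : ℝ ≃o ℝ} (h : Lifts M f) (h' : Lifts N g) :
    Lifts (M * N) (f * g) := by
  intro θ
  obtain ⟨r, hr, e⟩ := h' θ
  obtain ⟨s, hs, e'⟩ := h (g θ)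
  refine ⟨r * s, mul_pos hr hs, ?_⟩
  rw [← Matrix.mulVec_mulVec, e, Matrix.mulVec_smul, e', smul_smul, RelIso.mul_apply]

theorem Lifts.inv {M N : M2} {f : ℝ ≃o ℝ} (h : Lifts M f) (hN : N * M = 1) : Lifts N f⁻¹ := by
  intro θ
  obtain ⟨r, hr, e⟩ := h (f⁻¹ θ)
  have e1 : f (f⁻¹ θ) = θ := f.apply_symm_apply θ
  have e2 := congrArg N.mulVec e
  rw [Matrix.mulVec_mulVec, hN, Matrix.one_mulVec, e1, Matrix.mulVec_smul] at e2
  refine ⟨r⁻¹, inv_pos.2 hr, ?_⟩
  rw [e2, smul_smul, inv_mul_cancel₀ hr.ne', one_smul]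

theorem BorLift_int {a b r s : ℝ} (hr : 0 < r) (hs : 0 < s) (e : r • vec a = s • vec b) :
    ∃ k : ℤ, b = a + k * (2 * π) := by
  have e0 : r * cos a = s * cos b := congrFun e 0
  have e1 : r * sin a = s * sin b := congrFun e 1
  have ha := sin_sq_add_cos_sq a
  have hb := sin_sq_add_cos_sq b
  have hrs : r = s := by
    have : r ^ 2 = s ^ 2 := by
      linear_combination (r * cos a + s * cos b) * e0 + (r * sin a + s * sin b) * e1
        - r ^ 2 * ha + s ^ 2 * hb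
    exact (pow_left_inj₀ hr.le hs.le two_ne_zero).1 this
  subst hrs
  have c0 := mul_left_cancel₀ hr.ne' e0
  have c1 := mul_left_cancel₀ hr.ne' e1
  have : cos (b - a) = 1 := by
    rw [cos_sub, ← c0, ← c1]
    linear_combination ha
  obtain ⟨k, hk⟩ := (cos_eq_one_iff _).1 this
  exact ⟨k, by linarith only [hk]⟩

/-- Two lifts of one matrix differ by a full number of turns. -/
theorem Lifts.exists_int {M : M2} {f g : ℝ ≃o ℝ} (h : Lifts M f) (h' : Lifts M g) :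
    ∃ k : ℤ, ∀ θ, g θ = f θ + k * (2 * π) := by
  have key : ∀ θ, ∃ k : ℤ, (g θ - f θ) / (2 * π) = k := fun θ => by
    obtain ⟨r, hr, e⟩ := h θ
    obtain ⟨s, hs, e'⟩ := h' θ
    obtain ⟨k, hk⟩ := BorLift_int hr hs (e.symm.trans e')
    exact ⟨k, by rw [hk, add_sub_cancel_left, mul_div_cancel_right₀ _ two_pi_pos.ne']⟩
  have hc : Continuous fun θ => (g θ - f θ) / (2 * π) :=
    (g.continuous.sub f.continuous).div_const _
  have mono : ∀ (a b : ℝ) (k l : ℤ), (g a - f a) / (2 * π) = k → (g b - f b) / (2 * π) = l →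
      l ≤ k := by
    intro a b k l ha hb
    by_contra hlt
    have h1 : ((k + 1 : ℤ) : ℝ) ≤ l := by exact_mod_cast (by omega : k + 1 ≤ l)
    push_cast at h1
    obtain ⟨t, ht⟩ := intermediate_value_univ a b hc
      (show (k : ℝ) + 1 / 2 ∈ Set.Icc ((g a - f a) / (2 * π)) ((g b - f b) / (2 * π)) by
        rw [ha, hb]; constructor <;> linarith only [h1])
    obtain ⟨j, hj⟩ := key t
    have h2 : ((2 * j : ℤ) : ℝ) = ((2 * k + 1 : ℤ) : ℝ) := by
      push_cast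
      beta_reduce at ht
      linarith only [ht, hj]
    have h3 : 2 * j = 2 * k + 1 := by exact_mod_cast h2
    omega
  obtain ⟨k, hk⟩ := key 0
  refine ⟨k, fun θ => ?_⟩
  obtain ⟨l, hl⟩ := key θ
  have e : l = k := le_antisymm (mono 0 θ k l hk hl) (mono θ 0 l k hl hk)
  rw [e, div_eq_iff two_pi_pos.ne'] at hl
  linarith only [hl]

theorem Lifts.eq_of_lt {M : M2} {f g : ℝ ≃o ℝ} (h : Lifts M f) (h' : Lifts M g) {θ : ℝ}
    (hθ : |f θ - g θ| < 2 * π) : f = g := by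
  obtain ⟨k, hk⟩ := h.exists_int h'
  rw [hk θ, abs_lt] at hθ
  have h1 : (k : ℝ) < 1 := by (refine lt_of_not_ge fun h_nl => ?_; linarith only [h_nl, hθ, two_pi_pos, hθ.1, mul_nonneg_of_nonpos_of_nonpos (le_of_lt (Mathlib.Tactic.Linarith.sub_neg_of_lt hθ.left)) (Mathlib.Tactic.Linarith.sub_nonpos_of_le h_nl), mul_nonneg_of_nonpos_of_nonpos (le_of_lt (Mathlib.Tactic.Linarith.sub_neg_of_lt hθ.right)) (Mathlib.Tactic.Linarith.sub_nonpos_of_le h_nl)])
  have h2 : (-1 : ℝ) < k := by (refine lt_of_not_ge fun h_nl => ?_; linarith only [h_nl, hθ, h1, two_pi_pos, hθ.2, mul_nonneg_of_nonpos_of_nonpos (le_of_lt (Mathlib.Tactic.Linarith.sub_neg_of_lt hθ.left)) (Mathlib.Tactic.Linarith.sub_nonpos_of_le h_nl), mul_pos_of_neg_of_neg (Mathlib.Tactic.Linarith.sub_neg_of_lt hθ.right) (Mathlib.Tactic.Linarith.sub_neg_of_lt h1)])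
  have h3 : k < 1 := by exact_mod_cast h1
  have h4 : -1 < k := by exact_mod_cast h2
  have h5 : k = 0 := by omega
  ext t
  rw [hk t, h5]
  simp

theorem BorLift_vec_pi (θ : ℝ) : vec (θ + π) = -vec θ :=
  BorLift_ext (cos_add_pi θ) (sin_add_pi θ)

theorem BorLift_inj {M : M2} {f : ℝ ≃o ℝ} (h : Lifts M f) {w : Fin 2 → ℝ} (hw : M.mulVec w = 0) :
    w = 0 := by
  by_contra hne
  let z : ℂ := ⟨w 0, w 1⟩
  have hz : z ≠ 0 := fun e => hne (BorLift_ext (congrArg Complex.re e) (congrArg Complex.im e))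
  have e : w = ‖z‖ • vec (Complex.arg z) :=
    BorLift_ext (Complex.norm_mul_cos_arg z).symm (Complex.norm_mul_sin_arg z).symm
  obtain ⟨r, hr, e'⟩ := h (Complex.arg z)
  rw [e, Matrix.mulVec_smul, e', smul_smul] at hw
  have hp : ‖z‖ * r ≠ 0 := mul_ne_zero (norm_ne_zero_iff.2 hz) hr.ne'
  have e0 : ‖z‖ * r * cos (f (Complex.arg z)) = 0 := congrFun hw 0
  have e1 : ‖z‖ * r * sin (f (Complex.arg z)) = 0 := congrFun hw 1
  have := sin_sq_add_cos_sq (f (Complex.arg z))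
  rw [(mul_eq_zero.1 e0).resolve_left hp, (mul_eq_zero.1 e1).resolve_left hp] at this
  norm_num at this

/-- Every lift commutes with the half turn. -/
theorem Lifts.add_pi {M : M2} {f : ℝ ≃o ℝ} (h : Lifts M f) (θ : ℝ) : f (θ + π) = f θ + π := by
  obtain ⟨r, hr, e⟩ := h θ
  obtain ⟨s, hs, e'⟩ := h (θ + π)
  have e2 : r • vec (f θ + π) = s • vec (f (θ + π)) := by
    rw [← e', BorLift_vec_pi, BorLift_vec_pi, Matrix.mulVec_neg, e, smul_neg]
  obtain ⟨k, hk⟩ := BorLift_int hr hs e2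
  have h1 : f θ < f (θ + π) := f.strictMono (by linarith [pi_pos])
  have h2 : (-1 : ℝ) < k := by (refine lt_of_not_ge fun h_nl => ?_; linarith only [h_nl, hk, h1, pi_pos, mul_nonneg_of_nonpos_of_nonpos (Mathlib.Tactic.Linarith.sub_nonpos_of_le h_nl) (le_of_lt (Mathlib.Tactic.Linarith.sub_neg_of_lt pi_pos))])
  have h3 : -1 < k := by exact_mod_cast h2
  rcases (show k = 0 ∨ 1 ≤ k by omega) with h4 | h4
  · rw [hk, h4]; simp
  exfalso
  have h5 : (1 : ℝ) ≤ k := by exact_mod_cast h4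
  obtain ⟨t, ht⟩ := f.surjective (f θ + π)
  have h6 : θ < t := f.lt_iff_lt.1 (by rw [ht]; linarith only [pi_pos])
  have h7 : t < θ + π := f.lt_iff_lt.1 (by rw [ht, hk]; (refine lt_of_not_ge fun h_nl => ?_; linarith only [h_nl, hk, h1, h2, h5, pi_pos, Mathlib.Tactic.Linarith.zero_mul_eq (sub_eq_zero_of_eq hk) (Mathlib.Tactic.Linarith.sub_neg_of_lt h2), mul_nonneg_of_nonpos_of_nonpos (le_of_lt (Mathlib.Tactic.Linarith.sub_neg_of_lt h1)) (Mathlib.Tactic.Linarith.sub_nonpos_of_le h5), mul_nonneg_of_nonpos_of_nonpos (le_of_lt (Mathlib.Tactic.Linarith.sub_neg_of_lt h2)) (Mathlib.Tactic.Linarith.sub_nonpos_of_le h_nl), mul_nonneg_of_nonpos_of_nonpos (Mathlib.Tactic.Linarith.sub_nonpos_of_le h5) (Mathlib.Tactic.Linarith.sub_nonpos_of_le h_nl)]))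
  obtain ⟨q, hq, e3⟩ := h t
  have e4 : M.mulVec (r • vec t + q • vec θ) = 0 := by
    rw [Matrix.mulVec_add, Matrix.mulVec_smul, Matrix.mulVec_smul, e3, e, ht, BorLift_vec_pi,
      smul_smul, smul_smul, smul_neg, mul_comm, neg_add_cancel]
  have e5 := BorLift_inj h e4
  have a0 : r * cos t + q * cos θ = 0 := congrFun e5 0
  have a1 : r * sin t + q * sin θ = 0 := congrFun e5 1
  have a2 : r * sin (t - θ) = 0 := by
    rw [sin_sub]
    linear_combination cos θ * a1 - sin θ * a0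
  exact (mul_pos hr (sin_pos_of_pos_of_lt_pi (by linarith) (by linarith))).ne' a2

/-- A positive definite symmetric matrix has a small lift. -/
theorem exists_small {M : M2} (hs : M 0 1 = M 1 0) (h0 : 0 < M 0 0) (hd : 0 < M.det) :
    ∃ f : ℝ ≃o ℝ, Lifts M f ∧ SmallB f := by
  rw [Matrix.det_fin_two] at hd
  let E : ℝ → ℝ := fun t => cos t * (M 0 0 * cos t + M 0 1 * sin t) +
    sin t * (M 1 0 * cos t + M 1 1 * sin t)
  let D : ℝ → ℝ := fun t => cos t * (M 1 0 * cos t + M 1 1 * sin t) -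
    sin t * (M 0 0 * cos t + M 0 1 * sin t)
  have hE : ∀ t, 0 < E t := fun t => by
    have h1 : M 0 0 * E t = (M 0 0 * cos t + M 0 1 * sin t) ^ 2 +
        (M 0 0 * M 1 1 - M 0 1 * M 1 0) * sin t ^ 2 := by
      simp only [E, ← hs]
      ring
    have h2 : 0 < M 0 0 * E t := by
      rw [h1]
      by_cases hsin : sin t = 0
      · have h3 := sin_sq_add_cos_sq t
        rw [hsin] at h3 ⊢
        linarith only [h0, h3, mul_pos h0 h0, Mathlib.Tactic.Linarith.mul_zero_eq (Mathlib.Tactic.Linarith.sub_nonpos_of_le (mul_self_nonneg (M (0 : Fin (2 : ℕ)) (0 : Fin (2 : ℕ))))) (sub_eq_zero_of_eq h3)]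
      · have := mul_pos hd (pow_pos (abs_pos.2 hsin) 2)
        rw [sq_abs] at this
        positivity
    exact (mul_pos_iff_of_pos_left h0).1 h2
  let F : ℝ → ℝ := fun t => t + arctan (D t / E t)
  have hsm : ∀ t, |F t - t| < π / 2 := fun t => by
    simp only [F, add_sub_cancel_left]
    exact abs_lt.2 ⟨neg_pi_div_two_lt_arctan _, arctan_lt_pi_div_two _⟩
  have hc : Continuous F := by
    refine continuous_id.add (continuous_arctan.comp (Continuous.div ?_ ?_ fun t => (hE t).ne'))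
    · simp only [D]; fun_prop
    · simp only [E]; fun_prop
  have hl : ∀ t, ∃ r : ℝ, 0 < r ∧ M.mulVec (vec t) = r • vec (F t) := fun t => by
    have hca := cos_arctan_pos (D t / E t)
    have h1 : E t / cos (arctan (D t / E t)) * cos (arctan (D t / E t)) = E t :=
      div_mul_cancel₀ _ hca.ne'
    have h2 : E t / cos (arctan (D t / E t)) * sin (arctan (D t / E t)) = D t := by
      rw [div_mul_eq_mul_div, mul_div_assoc, ← tan_eq_sin_div_cos, tan_arctan,
        mul_div_cancel₀ _ (hE t).ne']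
    have h3 := sin_sq_add_cos_sq t
    refine ⟨_, div_pos (hE t) hca, BorLift_ext ?_ ?_⟩
    · rw [BorLift_mulVec0, Pi.smul_apply, smul_eq_mul, BorLift_vec0, BorLift_vec0, BorLift_vec1]
      simp only [F]
      rw [cos_add]
      have h4 : M 0 0 * cos t + M 0 1 * sin t = cos t * E t - sin t * D t := by
        simp only [E, D]
        linear_combination (-(M 0 0 * cos t + M 0 1 * sin t)) * h3
      rw [h4]
      linear_combination (-cos t) * h1 + sin t * h2
    · rw [BorLift_mulVec1, Pi.smul_apply, smul_eq_mul, BorLift_vec0, BorLift_vec1, BorLift_vec1]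
      simp only [F]
      rw [sin_add]
      have h4 : M 1 0 * cos t + M 1 1 * sin t = sin t * E t + cos t * D t := by
        simp only [E, D]
        linear_combination (-(M 1 0 * cos t + M 1 1 * sin t)) * h3
      rw [h4]
      linear_combination (-sin t) * h1 - cos t * h2
  have hinj : Function.Injective F := by
    intro s t hst
    obtain ⟨r, hr, e⟩ := hl s
    obtain ⟨q, hq, e'⟩ := hl t
    rw [hst] at e
    have a0 := congrFun e 0
    have a1 := congrFun e 1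
    have b0 := congrFun e' 0
    have b1 := congrFun e' 1
    rw [BorLift_mulVec0, Pi.smul_apply, smul_eq_mul, BorLift_vec0, BorLift_vec1] at a0 b0
    rw [BorLift_mulVec1, Pi.smul_apply, smul_eq_mul, BorLift_vec0, BorLift_vec1] at a1 b1
    have c : (M 0 0 * M 1 1 - M 0 1 * M 1 0) * sin (t - s) = 0 := by
      rw [sin_sub]
      linear_combination (M 1 0 * cos t + M 1 1 * sin t) * a0 + r * vec (F t) 0 * b1
        - (M 0 0 * cos t + M 0 1 * sin t) * a1 - r * vec (F t) 1 * b0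
    have c1 := (mul_eq_zero.1 c).resolve_left hd.ne'
    have d1 := abs_lt.1 (hsm s)
    have d2 := abs_lt.1 (hsm t)
    rw [hst] at d1
    have := (sin_eq_zero_iff_of_lt_of_lt (by linarith only [d1, d2, d1.1, d1.2, d2.1, d2.2])
      (by linarith only [d1, d2, d1.1, d1.2, d2.1, d2.2])).1 c1
    linarith only [this]
  have hmono : StrictMono F := by
    refine (hc.strictMono_of_inj hinj).resolve_right fun ha => ?_
    have h1 := ha pi_pos
    have d1 := abs_lt.1 (hsm 0)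
    have d2 := abs_lt.1 (hsm π)
    linarith only [h1, d1, d2, d1.2, d2.1]
  have hsurj : Function.Surjective F := fun y => by
    have d1 := abs_lt.1 (hsm (y - π / 2))
    have d2 := abs_lt.1 (hsm (y + π / 2))
    exact intermediate_value_univ (y - π / 2) (y + π / 2) hc ⟨by linarith only [d1, d1.2], by linarith only [d2, d2.1]⟩
  exact ⟨hmono.orderIsoOfSurjective F hsurj, hl, hsm⟩

/-- Direction of the displacement of a small lift. -/
theorem Lifts.lt_iff {M : M2} {f : ℝ ≃o ℝ} (h : Lifts M f) (hf : SmallB f) (θ : ℝ) :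
    (θ < f θ ↔ 0 < cos θ * M.mulVec (vec θ) 1 - sin θ * M.mulVec (vec θ) 0) ∧
      (f θ < θ ↔ cos θ * M.mulVec (vec θ) 1 - sin θ * M.mulVec (vec θ) 0 < 0) := by
  obtain ⟨r, hr, e⟩ := h θ
  have e1 : cos θ * M.mulVec (vec θ) 1 - sin θ * M.mulVec (vec θ) 0 = r * sin (f θ - θ) := by
    rw [e, Pi.smul_apply, Pi.smul_apply, smul_eq_mul, smul_eq_mul, BorLift_vec0, BorLift_vec1,
      sin_sub]
    ring
  have d := abs_lt.1 (hf θ)
  have p1 : θ < f θ → 0 < r * sin (f θ - θ) := fun hlt =>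
    mul_pos hr (sin_pos_of_pos_of_lt_pi (by linarith only [hlt]) (by linarith only [d, hlt, d.2, pi_pos]))
  have p2 : f θ < θ → r * sin (f θ - θ) < 0 := fun hlt =>
    mul_neg_of_pos_of_neg hr (sin_neg_of_neg_of_neg_pi_lt (by linarith only [hlt]) (by linarith only [d, hlt, d.1, pi_pos]))
  have p3 : f θ = θ → r * sin (f θ - θ) = 0 := fun he => by rw [he]; simp
  rw [e1]
  refine ⟨⟨p1, fun hp => ?_⟩, ⟨p2, fun hp => ?_⟩⟩
  · rcases lt_trichotomy θ (f θ) with a | a | a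
    · exact a
    · linarith only [hp, p3, a, p3 a.symm]
    · linarith only [hp, p2, a, p2 a]
  · rcases lt_trichotomy θ (f θ) with a | a | a
    · linarith only [hp, p1, a, p1 a]
    · linarith only [hp, p3, a, p3 a.symm]
    · exact a

end Pool.Agent.Work.MP_3d425c_gt.Bor
end

-- merged part: Pool.Agent.Work.MP_3d425c_gt.BorEll
section
namespace Pool.Agent.Work.MP_3d425c_gt.Bor
open Real

theorem BorEll_angle {u v : ℝ} (h : u ^ 2 + v ^ 2 = 1) : ∃ ψ, cos ψ = u ∧ sin ψ = v := by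
  have h1 : -1 ≤ u := by (refine le_of_not_gt fun h_nl => ?_; linarith only [h_nl, h, sq_nonneg v, sq_nonneg v, mul_pos_of_neg_of_neg (Mathlib.Tactic.Linarith.sub_neg_of_lt h_nl) (Mathlib.Tactic.Linarith.sub_neg_of_lt h_nl)])
  have h2 : u ≤ 1 := by (refine le_of_not_gt fun h_nl => ?_; linarith only [h_nl, h, sq_nonneg v, sq_nonneg v, mul_pos_of_neg_of_neg (Mathlib.Tactic.Linarith.sub_neg_of_lt h_nl) (Mathlib.Tactic.Linarith.sub_neg_of_lt h_nl)])
  have h3 : sin (arccos u) = |v| := by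
    rw [sin_arccos, ← sqrt_sq_eq_abs]
    congr 1
    linarith only [h]
  rcases le_total 0 v with hv | hv
  · exact ⟨arccos u, cos_arccos h1 h2, by rw [h3, abs_of_nonneg hv]⟩
  · exact ⟨-arccos u, by rw [cos_neg, cos_arccos h1 h2], by
      rw [sin_neg, h3, abs_of_nonpos hv, neg_neg]⟩

theorem BorEll_rot {u v θ : ℝ} {F : ℝ ≃o ℝ} (h : u ^ 2 + v ^ 2 = 1) (hF : Lifts !![u, -v; v, u] F)
    (h1 : θ - π < F θ) (h2 : F θ < θ) : F = tra (-arccos u) := by
  obtain ⟨ψ, rfl, rfl⟩ := BorEll_angle h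
  obtain ⟨k, hk⟩ := (lifts_rot ψ).exists_int hF
  simp only [tra_apply] at hk
  rw [hk] at h1 h2
  have e : arccos (cos ψ) = -(ψ + k * (2 * π)) := by
    rw [← cos_add_int_mul_two_pi ψ k, ← cos_neg, arccos_cos (by linarith only [h2]) (by linarith)]
  ext x
  rw [hk, tra_apply, e]
  ring

theorem BorEll_conj {M : M2} (hM : M.det = 1) (htr : |M.trace| < 2) :
    ∃ (P : M2) (σ : ℝ), P 0 1 = P 1 0 ∧ 0 < P 0 0 ∧ 0 < P.det ∧ σ ≠ 0 ∧
      M * P = P * !![M.trace / 2, -σ; σ, M.trace / 2] := by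
  rw [Matrix.det_fin_two] at hM
  rw [Matrix.trace_fin_two] at htr ⊢
  rw [Matrix.eta_fin_two M]
  simp only [Matrix.of_apply, Matrix.cons_val', Matrix.cons_val_zero, Matrix.cons_val_one,
    Matrix.cons_val_fin_one]
  generalize M 0 0 = a, M 0 1 = b, M 1 0 = c, M 1 1 = d at hM htr
  have ht : 0 < 1 - ((a + d) / 2) ^ 2 := by
    have := abs_lt.1 htr
    linarith only [this, mul_pos_of_neg_of_neg (Mathlib.Tactic.Linarith.sub_neg_of_lt this.left) (Mathlib.Tactic.Linarith.sub_neg_of_lt this.right)]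
  have hbc : b * c < 0 := by linarith only [hM, ht, sq_nonneg (a - d), sq_nonneg (a - d)]
  obtain ⟨σ, h0, h1, h2, h3⟩ : ∃ σ : ℝ, σ ≠ 0 ∧ σ ^ 2 = 1 - ((a + d) / 2) ^ 2 ∧ σ * b < 0 ∧
      0 < σ * c := by
    have s0 := sqrt_pos.2 ht
    have s1 := sq_sqrt ht.le
    rcases mul_neg_iff.1 hbc with ⟨hb, hc⟩ | ⟨hb, hc⟩
    · exact ⟨-√(1 - ((a + d) / 2) ^ 2), neg_ne_zero.2 s0.ne', by rw [neg_sq, s1], by linarith only [s0, hb, mul_pos_of_neg_of_neg (Mathlib.Tactic.Linarith.sub_neg_of_lt s0) (Mathlib.Tactic.Linarith.sub_neg_of_lt hb)],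
        by linarith only [s0, hc, mul_pos_of_neg_of_neg (Mathlib.Tactic.Linarith.sub_neg_of_lt s0) (Mathlib.Tactic.Linarith.sub_neg_of_lt hc)]⟩
    · exact ⟨√(1 - ((a + d) / 2) ^ 2), s0.ne', s1, by linarith only [s0, hb, mul_pos_of_neg_of_neg (Mathlib.Tactic.Linarith.sub_neg_of_lt s0) (Mathlib.Tactic.Linarith.sub_neg_of_lt hb)], by linarith only [s0, hc, mul_pos_of_neg_of_neg (Mathlib.Tactic.Linarith.sub_neg_of_lt s0) (Mathlib.Tactic.Linarith.sub_neg_of_lt hc)]⟩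
  have p2 : 0 < σ ^ 2 := by positivity
  refine ⟨!![σ * (σ - b), σ * ((a - d) / 2); σ * ((a - d) / 2), σ * (c + σ)], σ, rfl, ?_, ?_, h0,
    ?_⟩
  · change 0 < σ * (σ - b)
    linarith only [h2, sq_nonneg σ]
  · rw [Matrix.det_fin_two_of]
    have : σ * (σ - b) * (σ * (c + σ)) - σ * ((a - d) / 2) * (σ * ((a - d) / 2)) =
        σ ^ 2 * (σ * c - σ * b + 2 * σ ^ 2) := by
      linear_combination σ ^ 2 * hM - σ ^ 2 * h1
    rw [this]
    exact mul_pos p2 (by linarith only [h2, h3, p2])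
  · rw [Matrix.mul_fin_two, Matrix.mul_fin_two]
    congr 1
    ext i j
    fin_cases i <;> fin_cases j <;> simp
    · ring
    · linear_combination σ * h1 - σ * hM
    · linear_combination σ * hM - σ * h1
    · ring

theorem BorEll_comm {R : M2} {t σ : ℝ} (h0 : σ ≠ 0)
    (h : !![t, -σ; σ, t] * R = R * !![t, -σ; σ, t]) :
    R = !![R.trace / 2, -R 1 0; R 1 0, R.trace / 2] := by
  have a := congrFun (congrFun h 0) 0
  have b := congrFun (congrFun h 0) 1
  simp [Matrix.mul_apply, Fin.sum_univ_two] at a b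
  have a' : R 0 1 = -R 1 0 := mul_left_cancel₀ h0 (by linarith only [a])
  have b' : R 0 0 = R 1 1 := mul_left_cancel₀ h0 (by linarith only [b])
  rw [Matrix.trace_fin_two]
  ext i j
  fin_cases i <;> fin_cases j <;> simp [a', b']

/-- Two commuting lifts, the first one elliptic, are simultaneously conjugate to translations. -/
theorem elliptic_pair {M N : M2} {f h : ℝ ≃o ℝ} (hf : Lifts M f) (hh : Lifts N h)
    (hM : M.det = 1) (hN : N.det = 1) (htr : |M.trace| < 2) (hc : M * N = N * M)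
    {θ₁ θ₂ : ℝ} (h1 : θ₁ - π < f θ₁) (h2 : f θ₁ < θ₁) (h3 : θ₂ - π < h θ₂) (h4 : h θ₂ < θ₂) :
    ∃ g : ℝ ≃o ℝ, (∀ θ, g (θ + π) = g θ + π) ∧ f = g * tra (-arccos (M.trace / 2)) * g⁻¹ ∧
      h = g * tra (-arccos (N.trace / 2)) * g⁻¹ := by
  obtain ⟨P, σ, p1, p2, p3, h0, hP⟩ := BorEll_conj hM htr
  obtain ⟨g, hg, -⟩ := exists_small p1 p2 p3
  have hu : IsUnit P.det := p3.ne'.isUnit
  have q1 := Matrix.nonsing_inv_mul P hu
  have q2 := Matrix.mul_nonsing_inv P hu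
  have hg' := hg.inv q1
  have eM : P⁻¹ * M * P = !![M.trace / 2, -σ; σ, M.trace / 2] := by
    rw [mul_assoc, hP, ← mul_assoc, q1, one_mul]
  have key : ∀ (A : M2) (F : ℝ ≃o ℝ) (θ : ℝ), Lifts A F → A.det = 1 → M * A = A * M →
      θ - π < F θ → F θ < θ → F = g * tra (-arccos (A.trace / 2)) * g⁻¹ := by
    intro A F θ hF hA hcm a b
    have cm : P⁻¹ * M * P * (P⁻¹ * A * P) = P⁻¹ * A * P * (P⁻¹ * M * P) := by
      simp only [mul_assoc, Matrix.mul_nonsing_inv_cancel_left P _ hu]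
      rw [← mul_assoc M, hcm, mul_assoc]
    rw [eM] at cm
    have e := BorEll_comm h0 cm
    have tr : (P⁻¹ * A * P).trace = A.trace := by
      rw [Matrix.trace_mul_comm, ← mul_assoc, q2, one_mul]
    have dt : (P⁻¹ * A * P).det = 1 := by
      rw [Matrix.det_mul_comm, ← mul_assoc, q2, one_mul, hA]
    have L := (hg'.mul hF).mul hg
    rw [tr] at e
    rw [e, Matrix.det_fin_two_of] at dt
    rw [e] at L
    have gg : g (g⁻¹ θ) = θ := g.apply_symm_apply θ
    have pi := hg'.add_pi (θ - π)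
    rw [sub_add_cancel] at pi
    have := BorEll_rot (θ := g⁻¹ θ) (by linarith only [dt]) L
      (by
        change _ < g⁻¹ (F (g (g⁻¹ θ)))
        rw [gg, pi, add_sub_cancel_right]
        exact g⁻¹.strictMono a)
      (by
        change g⁻¹ (F (g (g⁻¹ θ))) < _
        rw [gg]
        exact g⁻¹.strictMono b)
    rw [← this]
    group
  exact ⟨g, hg.add_pi, key M f θ₁ hf hM rfl h1 h2, key N h θ₂ hh hN hc h3 h4⟩

end Pool.Agent.Work.MP_3d425c_gt.Bor
end

-- merged part: Pool.Agent.Work.MP_3d425c_gt.BorParam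
section
namespace Pool.Agent.Work.MP_3d425c_gt.Bor
open Real

theorem BorParam_tanh_strictMono : StrictMono Real.tanh := by
  intro x y hxy
  rw [Real.tanh_eq_sinh_div_cosh, Real.tanh_eq_sinh_div_cosh,
    div_lt_div_iff₀ (cosh_pos x) (cosh_pos y)]
  have h : 0 < sinh (y - x) := sinh_pos_iff.2 (by linarith)
  rw [sinh_sub] at h
  linarith

theorem BorParam_tanh_pos {x : ℝ} (hx : 0 < x) : 0 < tanh x := by
  have := BorParam_tanh_strictMono hx
  rwa [tanh_zero] at this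

theorem BorParam_tanh_cont : Continuous Real.tanh := by
  have : Real.tanh = fun x => sinh x / cosh x := funext Real.tanh_eq_sinh_div_cosh
  rw [this]
  exact continuous_sinh.div continuous_cosh fun x => (cosh_pos x).ne'

/-- The function whose level sets give the curve of parameters. -/
noncomputable def BorParam_F (r x : ℝ) : ℝ := tanh (x * r / 2) * tanh x

theorem BorParam_F_lt {r x y : ℝ} (hr : 0 < r) (hx : 0 < x) (hxy : x < y) :
    BorParam_F r x < BorParam_F r y := by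
  unfold BorParam_F
  have h1 : tanh (x * r / 2) < tanh (y * r / 2) := BorParam_tanh_strictMono (by linarith only [hr, hxy, mul_pos_of_neg_of_neg (Mathlib.Tactic.Linarith.sub_neg_of_lt hr) (Mathlib.Tactic.Linarith.sub_neg_of_lt hxy)])
  have h2 : tanh x < tanh y := BorParam_tanh_strictMono hxy
  have h3 : 0 < tanh (x * r / 2) := BorParam_tanh_pos (by positivity)
  have h4 : 0 < tanh x := BorParam_tanh_pos hx
  linarith only [h1, h2, h4, h3, mul_pos_of_neg_of_neg (Mathlib.Tactic.Linarith.sub_neg_of_lt h1) (Mathlib.Tactic.Linarith.sub_neg_of_lt h2), mul_pos_of_neg_of_neg (Mathlib.Tactic.Linarith.sub_neg_of_lt h1) (Mathlib.Tactic.Linarith.sub_neg_of_lt h4), mul_pos_of_neg_of_neg (Mathlib.Tactic.Linarith.sub_neg_of_lt h2) (Mathlib.Tactic.Linarith.sub_neg_of_lt h3)]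

theorem BorParam_F_mem {r x : ℝ} (hr : 0 < r) (hx : 0 < x) :
    0 < BorParam_F r x ∧ BorParam_F r x < 1 := by
  unfold BorParam_F
  have h3 : 0 < tanh (x * r / 2) := BorParam_tanh_pos (by positivity)
  have h4 : 0 < tanh x := BorParam_tanh_pos hx
  have h5 := tanh_lt_one (x * r / 2)
  have h6 := tanh_lt_one x
  exact ⟨by positivity, by linarith only [h5, h3, h6, mul_pos_of_neg_of_neg (Mathlib.Tactic.Linarith.sub_neg_of_lt h3) (Mathlib.Tactic.Linarith.sub_neg_of_lt h6)]⟩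

theorem BorParam_F_surj {r y : ℝ} (hr : 0 < r) (hy0 : 0 < y) (hy1 : y < 1) :
    ∃ u : ℝ, BorParam_F r (exp u) = y := by
  have hs0 : 0 < √y := sqrt_pos.2 hy0
  have hs1 : √y < 1 := by rw [sqrt_lt' one_pos]; linarith
  have ht : tanh (artanh √y) = √y := tanh_artanh ⟨by linarith, hs1⟩
  have ht0 : 0 < artanh √y := artanh_pos ⟨hs0, hs1⟩
  set t := artanh √y
  set X := max t (2 * t / r) with hX
  have hX0 : 0 ≤ X := le_trans ht0.le (le_max_left _ _)
  have h1 : √y ≤ tanh X := ht ▸ BorParam_tanh_strictMono.monotone (le_max_left _ _)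
  have h2 : √y ≤ tanh (X * r / 2) := by
    rw [← ht]
    apply BorParam_tanh_strictMono.monotone
    have : 2 * t / r ≤ X := le_max_right _ _
    rw [div_le_iff₀ hr] at this
    linarith only [this]
  have h3 : y ≤ BorParam_F r X := by
    unfold BorParam_F
    have := mul_self_sqrt hy0.le
    (refine le_of_not_gt fun h_nl => ?_; linarith only [h_nl, this, hy0, hy1, hs0, h1, h2, mul_pos_of_neg_of_neg (Mathlib.Tactic.Linarith.sub_neg_of_lt hy0) (Mathlib.Tactic.Linarith.sub_neg_of_lt h_nl), mul_pos_of_neg_of_neg (Mathlib.Tactic.Linarith.sub_neg_of_lt hy1) (Mathlib.Tactic.Linarith.sub_neg_of_lt h_nl), mul_nonneg_of_nonpos_of_nonpos (le_of_lt (Mathlib.Tactic.Linarith.sub_neg_of_lt hs0)) (Mathlib.Tactic.Linarith.sub_nonpos_of_le h1), mul_nonneg_of_nonpos_of_nonpos (le_of_lt (Mathlib.Tactic.Linarith.sub_neg_of_lt hs0)) (Mathlib.Tactic.Linarith.sub_nonpos_of_le h2), mul_nonneg_of_nonpos_of_nonpos (Mathlib.Tactic.Linarith.sub_nonpos_of_le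 h1) (Mathlib.Tactic.Linarith.sub_nonpos_of_le h2)])
  have hc : Continuous (BorParam_F r) := by
    unfold BorParam_F
    exact (BorParam_tanh_cont.comp (by fun_prop)).mul BorParam_tanh_cont
  have h0 : BorParam_F r 0 = 0 := by simp [BorParam_F]
  obtain ⟨x, ⟨hx0, -⟩, hx⟩ := intermediate_value_Icc hX0 hc.continuousOn
    (show y ∈ Set.Icc (BorParam_F r 0) (BorParam_F r X) from ⟨by linarith only [hy0, h0], h3⟩)
  have hx1 : 0 < x := by
    rcases hx0.eq_or_lt with h | h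
    · subst h; linarith only [hy0, h0, hx]
    · exact h
  exact ⟨log x, by rw [exp_log hx1, hx]⟩

theorem BorParam_curve {r₁ r₂ : ℝ} (h₁ : 0 < r₁) (h₂ : 0 < r₂) :
    ∃ B : ℝ → ℝ, Monotone B ∧ Function.Surjective B ∧
      ∀ u, BorParam_F r₂ (exp (B u)) = BorParam_F r₁ (exp u) := by
  have hex : ∀ u : ℝ, ∃ v : ℝ, BorParam_F r₂ (exp v) = BorParam_F r₁ (exp u) := fun u =>
    BorParam_F_surj h₂ (BorParam_F_mem h₁ (exp_pos u)).1 (BorParam_F_mem h₁ (exp_pos u)).2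
  choose B hB using hex
  have hm : ∀ {r : ℝ}, 0 < r → StrictMono fun u => BorParam_F r (exp u) := fun hr u v huv =>
    BorParam_F_lt hr (exp_pos u) (exp_lt_exp.2 huv)
  refine ⟨B, fun u v huv => ?_, fun v => ?_, hB⟩
  · apply (hm h₂).le_iff_le.1
    simp only [hB]
    exact (hm h₁).monotone huv
  · obtain ⟨u, hu⟩ := BorParam_F_surj h₁ (BorParam_F_mem h₂ (exp_pos v)).1
      (BorParam_F_mem h₂ (exp_pos v)).2
    refine ⟨u, (hm h₂).injective ?_⟩
    simp only [hB, hu]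

/-- The basic facts at a point of the curve. -/
theorem BorParam_point {r₁ r₂ a b : ℝ} (h₁ : 0 < r₁) (h₂ : 0 < r₂) (h4 : r₁ * r₂ < 4)
    (ha : 0 < a) (hb : 0 < b) (hF : BorParam_F r₂ b = BorParam_F r₁ a) :
    0 < tanh (a * r₁ / 2) / tanh b ∧ tanh (a * r₁ / 2) / tanh b < 1 ∧
      sinh (a * r₁ / 2) * cosh b = tanh (a * r₁ / 2) / tanh b * sinh b * cosh (a * r₁ / 2) ∧
      sinh (b * r₂ / 2) * cosh a = tanh (a * r₁ / 2) / tanh b * sinh a * cosh (b * r₂ / 2) := by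
  unfold BorParam_F at hF
  have t1 : 0 < tanh (a * r₁ / 2) := BorParam_tanh_pos (by positivity)
  have t2 : 0 < tanh (b * r₂ / 2) := BorParam_tanh_pos (by positivity)
  have ta : 0 < tanh a := BorParam_tanh_pos ha
  have tb : 0 < tanh b := BorParam_tanh_pos hb
  have hk : tanh (a * r₁ / 2) / tanh b = tanh (b * r₂ / 2) / tanh a := by
    rw [div_eq_div_iff tb.ne' ta.ne', hF]
  have sa : 0 < sinh a := sinh_pos_iff.2 ha
  have sb : 0 < sinh b := sinh_pos_iff.2 hb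
  refine ⟨by positivity, ?_, ?_, ?_⟩
  · by_contra hc
    push Not at hc
    have hc' := hk ▸ hc
    rw [one_le_div tb] at hc
    rw [one_le_div ta] at hc'
    have e1 := BorParam_tanh_strictMono.le_iff_le.1 hc
    have e2 := BorParam_tanh_strictMono.le_iff_le.1 hc'
    linarith only [e2, h₂, e1, h4, ha, mul_nonneg_of_nonpos_of_nonpos (le_of_lt (Mathlib.Tactic.Linarith.sub_neg_of_lt h₂)) (Mathlib.Tactic.Linarith.sub_nonpos_of_le e1), mul_pos_of_neg_of_neg (Mathlib.Tactic.Linarith.sub_neg_of_lt h4) (Mathlib.Tactic.Linarith.sub_neg_of_lt ha)]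
  · rw [Real.tanh_eq_sinh_div_cosh, Real.tanh_eq_sinh_div_cosh]
    have := cosh_pos b
    have := cosh_pos (a * r₁ / 2)
    field_simp
  · rw [hk, Real.tanh_eq_sinh_div_cosh, Real.tanh_eq_sinh_div_cosh]
    have := cosh_pos a
    have := cosh_pos (b * r₂ / 2)
    field_simp

theorem BorParam_id1 {x b k n : ℝ} (hn : n ^ 2 = 1 - k ^ 2)
    (h : sinh x * cosh b = k * sinh b * cosh x) :
    cosh x ^ 2 * (1 + n ^ 2 * sinh b ^ 2) = cosh b ^ 2 := by
  have e1 := cosh_sq x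
  have e2 := cosh_sq b
  have e3 : (sinh x * cosh b) ^ 2 = (k * sinh b * cosh x) ^ 2 := by rw [h]
  rw [hn]
  linear_combination e3 + cosh b ^ 2 * e1 - cosh x ^ 2 * e2

theorem BorParam_id3 {x y a b k n : ℝ} (hn : n ^ 2 = 1 - k ^ 2)
    (h : sinh x * cosh b = k * sinh b * cosh x) (h' : sinh y * cosh a = k * sinh a * cosh y) :
    (1 - (n * cosh x * cosh y) ^ 2) * ((1 + n ^ 2 * sinh a ^ 2) * (1 + n ^ 2 * sinh b ^ 2)) =
      k ^ 2 * (1 - (n * sinh a * sinh b) ^ 2) := by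
  have e1 := BorParam_id1 hn h
  have e2 := BorParam_id1 hn h'
  have e3 := cosh_sq a
  have e4 := cosh_sq b
  have e5 : (n * cosh x * cosh y) ^ 2 * ((1 + n ^ 2 * sinh a ^ 2) * (1 + n ^ 2 * sinh b ^ 2)) =
      n ^ 2 * ((sinh a ^ 2 + 1) * (sinh b ^ 2 + 1)) := by
    rw [← e3, ← e4, ← e1, ← e2]; ring
  have hk : k ^ 2 = 1 - n ^ 2 := by linarith only [hn]
  rw [sub_mul, e5, hk]
  ring

theorem BorParam_big {x a b k n : ℝ} (hn : n ^ 2 = 1 - k ^ 2) (hn0 : 0 ≤ n) (hx : 0 ≤ x)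
    (h : sinh x * cosh b = k * sinh b * cosh x) (ha : 1 ≤ a) (hb : x + 1 ≤ b) :
    1 ≤ n * sinh a * sinh b := by
  have e1 := BorParam_id1 hn h
  have c1 : cosh (x + 1) ≤ cosh b := by
    rw [cosh_le_cosh, abs_of_nonneg (by linarith only [hx]), abs_of_nonneg (by linarith)]
    exact hb
  have s1 : (1 : ℝ) ≤ sinh 1 := self_le_sinh_iff.2 zero_le_one
  have sx : 0 ≤ sinh x := sinh_nonneg_iff.2 hx
  have c2 : cosh x * cosh 1 ≤ cosh b := by
    rw [cosh_add] at c1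
    linarith only [c1, sx, s1, mul_nonneg_of_nonpos_of_nonpos (Mathlib.Tactic.Linarith.sub_nonpos_of_le s1) (Mathlib.Tactic.Linarith.sub_nonpos_of_le sx)]
  have cx := cosh_pos x
  have c3 : (cosh x * cosh 1) ^ 2 ≤ cosh b ^ 2 :=
    pow_le_pow_left₀ (mul_pos cx (cosh_pos 1)).le c2 2
  have c4 : cosh 1 ^ 2 ≤ 1 + n ^ 2 * sinh b ^ 2 := by
    rw [← e1, mul_pow] at c3
    exact le_of_mul_le_mul_left c3 (by positivity)
  have sb : 0 ≤ sinh b := sinh_nonneg_iff.2 (by linarith only [hx, hb])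
  have c5 : 1 ^ 2 ≤ (n * sinh b) ^ 2 := by
    have := cosh_sq 1
    linarith only [s1, c4, this, mul_nonneg_of_nonpos_of_nonpos (Mathlib.Tactic.Linarith.sub_nonpos_of_le s1) (Mathlib.Tactic.Linarith.sub_nonpos_of_le s1)]
  have c6 : 1 ≤ n * sinh b := (pow_le_pow_iff_left₀ zero_le_one (by positivity) two_ne_zero).1 c5
  have sa : 1 ≤ sinh a := le_trans ha (self_le_sinh_iff.2 (by linarith only [ha]))
  linarith only [c6, sa, mul_nonneg_of_nonpos_of_nonpos (Mathlib.Tactic.Linarith.sub_nonpos_of_le c6) (Mathlib.Tactic.Linarith.sub_nonpos_of_le sa)]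

theorem BorParam_sinh_le {x : ℝ} (h0 : 0 ≤ x) (h1 : x ≤ 1) : sinh x ≤ 2 * x := by
  have e1 := Real.abs_exp_sub_one_le (x := x) (by rwa [abs_of_nonneg h0])
  have e2 := Real.abs_exp_sub_one_le (x := -x) (by rwa [abs_neg, abs_of_nonneg h0])
  rw [abs_neg] at e2
  rw [abs_of_nonneg h0] at e1 e2
  rw [sinh_eq]
  have := (abs_le.1 e1).2
  have := (abs_le.1 e2).1
  linarith

theorem BorParam_ratio {r a : ℝ} (hr : 0 < r) (ha : 0 < a) (h1 : a ≤ 1) :
    r / (4 * cosh (r / 2)) * tanh a ≤ tanh (a * r / 2) := by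
  have e1 : tanh a ≤ 2 * a := by
    rw [Real.tanh_eq_sinh_div_cosh, div_le_iff₀ (cosh_pos a)]
    have := BorParam_sinh_le ha.le h1
    have := one_le_cosh a
    nlinarith
  have e2 : cosh (a * r / 2) ≤ cosh (r / 2) := by
    rw [cosh_le_cosh, abs_of_nonneg (by positivity), abs_of_nonneg (by positivity)]
    linarith only [hr, h1, mul_nonneg_of_nonpos_of_nonpos (le_of_lt (Mathlib.Tactic.Linarith.sub_neg_of_lt hr)) (Mathlib.Tactic.Linarith.sub_nonpos_of_le h1)]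
  have e3 : a * r / 2 ≤ sinh (a * r / 2) := self_le_sinh_iff.2 (by positivity)
  have c := cosh_pos (r / 2)
  have c' := cosh_pos (a * r / 2)
  calc r / (4 * cosh (r / 2)) * tanh a ≤ r / (4 * cosh (r / 2)) * (2 * a) := by gcongr
    _ = (a * r / 2) / cosh (r / 2) := by field_simp; ring
    _ ≤ sinh (a * r / 2) / cosh (a * r / 2) := by gcongr
    _ = _ := (Real.tanh_eq_sinh_div_cosh _).symm

theorem BorParam_arcsin_le {m : ℝ} (h0 : 0 ≤ m) (h1 : m ≤ 1) : arcsin m ≤ 2 * m := by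
  have e := Real.mul_le_sin (arcsin_nonneg.2 h0) (arcsin_le_pi_div_two m)
  rw [sin_arcsin (by linarith only [h0]) h1, div_mul_eq_mul_div, div_le_iff₀ pi_pos] at e
  have := pi_le_four
  linarith only [e, h0, this, mul_nonneg_of_nonpos_of_nonpos (Mathlib.Tactic.Linarith.sub_nonpos_of_le h0) (Mathlib.Tactic.Linarith.sub_nonpos_of_le this)]

/-- The parameters of the representation of a given slope. -/
theorem exists_param {r₁ r₂ p q : ℝ} (h₁ : 0 < r₁) (h₂ : 0 < r₂) (h4 : r₁ * r₂ < 4) (hq : 0 < q)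
    (hp : p < q) (h0 : p ≠ 0) :
    ∃ a b ω : ℝ, 0 < a ∧ 0 < b ∧ 0 < ω ∧ ω < π / 2 ∧
      sinh (a * r₁ / 2) * cosh b = sin ω * sinh b * cosh (a * r₁ / 2) ∧
      sinh (b * r₂ / 2) * cosh a = sin ω * sinh a * cosh (b * r₂ / 2) ∧
      cos ω * sinh a * sinh b < 1 ∧
      cos ω * cosh (a * r₁ / 2) * cosh (b * r₂ / 2) < 1 ∧
      p * ((if 0 < p then π else 0) - arccos (cos ω * cosh (a * r₁ / 2) * cosh (b * r₂ / 2))) =
        q * (2 * arcsin (cos ω * sinh a * sinh b)) := by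
  obtain ⟨B, hBm, hBs, hB⟩ := BorParam_curve h₁ h₂
  have hBc : Continuous B := hBm.continuous_of_surjective hBs
  set k : ℝ → ℝ := fun u => tanh (exp u * r₁ / 2) / tanh (exp (B u)) with hk
  have hkc : Continuous k :=
    (BorParam_tanh_cont.comp (by fun_prop)).div (BorParam_tanh_cont.comp (by fun_prop))
      fun u => (BorParam_tanh_pos (exp_pos _)).ne'
  have hP : ∀ u, 0 < k u ∧ k u < 1 ∧
      sinh (exp u * r₁ / 2) * cosh (exp (B u)) =
        k u * sinh (exp (B u)) * cosh (exp u * r₁ / 2) ∧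
      sinh (exp (B u) * r₂ / 2) * cosh (exp u) =
        k u * sinh (exp u) * cosh (exp (B u) * r₂ / 2) := fun u =>
    BorParam_point h₁ h₂ h4 (exp_pos u) (exp_pos (B u)) (hB u)
  set n : ℝ → ℝ := fun u => cos (arcsin (k u)) with hn
  have hnc : Continuous n := continuous_cos.comp (continuous_arcsin.comp hkc)
  have hn0 : ∀ u, 0 ≤ n u := fun u => cos_arcsin_nonneg _
  have hn1 : ∀ u, n u ≤ 1 := fun u => cos_le_one _
  have hn2 : ∀ u, n u ^ 2 = 1 - k u ^ 2 := fun u => by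
    obtain ⟨k0, k1, -, -⟩ := hP u
    simp only [hn]
    rw [cos_arcsin, sq_sqrt (by linarith only [k1, k0, mul_pos_of_neg_of_neg (Mathlib.Tactic.Linarith.sub_neg_of_lt k0) (Mathlib.Tactic.Linarith.sub_neg_of_lt k1)])]
  set m : ℝ → ℝ := fun u => n u * sinh (exp u) * sinh (exp (B u)) with hm
  set c : ℝ → ℝ := fun u => n u * cosh (exp u * r₁ / 2) * cosh (exp (B u) * r₂ / 2) with hc
  have hmc : Continuous m := by simp only [hm]; fun_prop
  have hcc : Continuous c := by simp only [hc]; fun_prop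
  have hsa : ∀ v, 0 < sinh (exp v) := fun v => sinh_pos_iff.2 (exp_pos v)
  have hm0 : ∀ u, 0 ≤ m u := fun u =>
    mul_nonneg (mul_nonneg (hn0 u) (hsa u).le) (hsa (B u)).le
  have hc0 : ∀ u, 0 ≤ c u := fun u =>
    mul_nonneg (mul_nonneg (hn0 u) (cosh_pos _).le) (cosh_pos _).le
  have hid : ∀ u, (1 - c u ^ 2) *
      ((1 + n u ^ 2 * sinh (exp u) ^ 2) * (1 + n u ^ 2 * sinh (exp (B u)) ^ 2)) =
      k u ^ 2 * (1 - m u ^ 2) := fun u =>
    BorParam_id3 (hn2 u) (hP u).2.2.1 (hP u).2.2.2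
  set H : ℝ → ℝ := fun u =>
    p * ((if 0 < p then π else 0) - arccos (c u)) - q * (2 * arcsin (m u)) with hH
  have hHc : Continuous H :=
    (continuous_const.mul (continuous_const.sub (continuous_arccos.comp hcc))).sub
      (continuous_const.mul (continuous_const.mul (continuous_arcsin.comp hmc)))
  have hneg : ∀ u, 1 ≤ m u → H u < 0 := fun u hu => by
    clear * - m u n B hu k c r₁ hid hc0 r₂ H p q hH hp hq
    have e1 : 1 - m u ^ 2 ≤ 0 := by linarith only [hu, mul_nonneg_of_nonpos_of_nonpos (Mathlib.Tactic.Linarith.sub_nonpos_of_le hu) (Mathlib.Tactic.Linarith.sub_nonpos_of_le hu)]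
    have e2 : k u ^ 2 * (1 - m u ^ 2) ≤ 0 := mul_nonpos_of_nonneg_of_nonpos (sq_nonneg _) e1
    have e3 : 0 < (1 + n u ^ 2 * sinh (exp u) ^ 2) * (1 + n u ^ 2 * sinh (exp (B u)) ^ 2) := by
      positivity
    have e4 : 1 - c u ^ 2 ≤ 0 := by
      by_contra hh
      push Not at hh
      have := mul_pos hh e3
      rw [hid u] at this
      linarith only [e2, this]
    have e5 : 1 ≤ c u := by
      have := hc0 u
      (refine le_of_not_gt fun h_nl => ?_; linarith only [h_nl, e4, this, mul_nonneg_of_nonpos_of_nonpos (Mathlib.Tactic.Linarith.sub_nonpos_of_le this) (le_of_lt (Mathlib.Tactic.Linarith.sub_neg_of_lt h_nl))])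
    simp only [hH]
    rw [arccos_eq_zero.2 e5, arcsin_of_one_le hu]
    have := pi_pos
    split_ifs <;> linarith only [hp, this, hq, mul_pos_of_neg_of_neg (Mathlib.Tactic.Linarith.sub_neg_of_lt hp) (Mathlib.Tactic.Linarith.sub_neg_of_lt this), mul_pos_of_neg_of_neg (Mathlib.Tactic.Linarith.sub_neg_of_lt hq) (Mathlib.Tactic.Linarith.sub_neg_of_lt this)]
  -- a point with `H < 0`
  have hlarge : ∃ u, H u < 0 := by
    clear * - B H hBs r₂ r₁ h4 h₂ hBm hneg m k n hn2 hn0 h₁ hP hm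
    obtain ⟨u₀, hu₀⟩ := hBs 0
    set A : ℝ := (r₂ / 2 + 1) / (1 - r₁ * r₂ / 4) + 1 with hA
    have hd : 0 < 1 - r₁ * r₂ / 4 := by linarith only [h4]
    have hA0 : 0 < (r₂ / 2 + 1) / (1 - r₁ * r₂ / 4) := by positivity
    set u := max u₀ (log A)
    have ha : A ≤ exp u := by
      rw [← exp_log (show 0 < A by linarith only [hA0])]
      exact exp_le_exp.2 (le_max_right _ _)
    have hb : 1 ≤ exp (B u) := one_le_exp (hu₀ ▸ hBm (le_max_left _ _))
    refine ⟨u, hneg u ?_⟩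
    have ea := exp_pos u
    have eb := exp_pos (B u)
    by_cases hh : exp u * r₁ / 2 + 1 ≤ exp (B u)
    · exact BorParam_big (hn2 u) (hn0 u) (by positivity) (hP u).2.2.1 (by linarith only [hA0, ha]) hh
    · have hh' : exp (B u) * r₂ / 2 + 1 ≤ exp u := by
        push Not at hh
        have e1 : (r₂ / 2 + 1) / (1 - r₁ * r₂ / 4) ≤ exp u := by linarith only [ha]
        rw [div_le_iff₀ hd] at e1
        linarith only [e1, h₂, hh, mul_pos_of_neg_of_neg (Mathlib.Tactic.Linarith.sub_neg_of_lt h₂) (Mathlib.Tactic.Linarith.sub_neg_of_lt hh)]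
      have := BorParam_big (hn2 u) (hn0 u) (by positivity) (hP u).2.2.2 hb hh'
      simp only [hm]
      linarith only [this]
  -- a point with `0 < H`
  have hsmall : ∃ u, 0 < H u := by
    set k₀ : ℝ := r₁ / (4 * cosh (r₁ / 2)) * (r₂ / (4 * cosh (r₂ / 2))) with hk₀
    have hk₀0 : 0 < k₀ := by
      have := cosh_pos (r₁ / 2)
      have := cosh_pos (r₂ / 2)
      positivity
    set L : ℝ := min (π / 2) √(k₀ / 8) with hL
    have hL0 : 0 < L := lt_min (by positivity) (by positivity)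
    have hp0 : 0 < |p| := abs_pos.2 h0
    set δ : ℝ := min (1 / 4) (|p| * L / (8 * q)) with hδ
    have hδ0 : 0 < δ := lt_min (by norm_num) (by positivity)
    have hδ1 : δ ≤ 1 / 4 := min_le_left _ _
    have hδ2 : δ * (8 * q) ≤ |p| * L := (le_div_iff₀ (by positivity)).1 (min_le_right _ _)
    obtain ⟨u₀, hu₀⟩ := hBs (log δ)
    set u := min u₀ (log δ)
    have ha : exp u ≤ δ := by
      rw [← exp_log hδ0]
      exact exp_le_exp.2 (min_le_right _ _)
    have hb : exp (B u) ≤ δ := by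
      rw [← exp_log hδ0]
      exact exp_le_exp.2 (hu₀ ▸ hBm (min_le_left _ _))
    have ea := exp_pos u
    have eb := exp_pos (B u)
    have sa : sinh (exp u) ≤ 2 * δ :=
      (BorParam_sinh_le ea.le (by linarith only [hδ0, hδ1, ha])).trans (by linarith only [ha])
    have sb : sinh (exp (B u)) ≤ 2 * δ :=
      (BorParam_sinh_le eb.le (by linarith only [hδ0, hδ1, hb])).trans (by linarith only [hb])
    have sa0 := hsa u
    have sb0 := hsa (B u)
    have m1 : m u ≤ δ := by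
      clear * - n u hn0 hn1 m δ B hm sa sb p L q h0 k₀ r₁ r₂ h₁ h₂ hq hδ0 hδ1
      have n0 := hn0 u
      have n1 := hn1 u
      calc m u ≤ 1 * (2 * δ) * (2 * δ) := by simp only [hm]; gcongr
        _ ≤ δ := by linarith only [hδ0, hδ1, mul_nonneg_of_nonpos_of_nonpos (le_of_lt (Mathlib.Tactic.Linarith.sub_neg_of_lt hδ0)) (Mathlib.Tactic.Linarith.sub_nonpos_of_le hδ1)]
    have m0 := hm0 u
    have as1 : arcsin (m u) ≤ 2 * δ :=
      (BorParam_arcsin_le m0 (by linarith only [hδ0, hδ1, m1])).trans (by linarith only [m1])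
    have kk : k₀ ≤ k u ^ 2 := by
      clear * - r₁ u h₁ ea δ hδ0 hδ1 ha r₂ B h₂ eb hb hB k hk k₀
      have e1 := BorParam_ratio h₁ ea (by linarith only [hδ0, hδ1, ha])
      have e2 := BorParam_ratio h₂ eb (by linarith only [hδ0, hδ1, hb])
      have ta := BorParam_tanh_pos ea
      have tb := BorParam_tanh_pos eb
      have e3 := hB u
      unfold BorParam_F at e3
      have e4 : k u = tanh (exp (B u) * r₂ / 2) / tanh (exp u) := by
        simp only [hk]
        rw [div_eq_div_iff tb.ne' ta.ne', e3]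
      have e5 : k u ^ 2 = tanh (exp u * r₁ / 2) / tanh (exp u) *
          (tanh (exp (B u) * r₂ / 2) / tanh (exp (B u))) := by
        clear * - k u r₁ B r₂ e4 hk ta tb
        rw [sq]
        nth_rewrite 2 [e4]
        simp only [hk]
        field_simp
      rw [e5]
      have := cosh_pos (r₁ / 2)
      have := cosh_pos (r₂ / 2)
      rw [← le_div_iff₀ ta] at e1
      rw [← le_div_iff₀ tb] at e2
      exact mul_le_mul e1 e2 (by positivity) (le_trans (by positivity) e1)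
    have cc : k₀ / 8 ≤ 1 - c u ^ 2 := by
      clear * - n u hn0 hn1 δ hδ0 hδ1 sa B sb m sa0 k₀ k kk c r₁ r₂ hk₀0 hid
      have n0 := hn0 u
      have n1 := hn1 u
      have b1 : 1 + n u ^ 2 * sinh (exp u) ^ 2 ≤ 2 := by
        have : n u ^ 2 * sinh (exp u) ^ 2 ≤ 1 ^ 2 * 1 ^ 2 := by gcongr; linarith only [hδ0, hδ1, sa]
        linarith only [this]
      have b2 : 1 + n u ^ 2 * sinh (exp (B u)) ^ 2 ≤ 2 := by
        clear * - n u B n0 n1 δ hδ0 hδ1 sb
        have : n u ^ 2 * sinh (exp (B u)) ^ 2 ≤ 1 ^ 2 * 1 ^ 2 := by gcongr; linarith only [hδ0, hδ1, sb]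
        linarith only [this]
      have b3 : (1 + n u ^ 2 * sinh (exp u) ^ 2) * (1 + n u ^ 2 * sinh (exp (B u)) ^ 2) ≤
          2 * 2 := by clear * - n u B b1 b2; gcongr
      have b4 : 0 < (1 + n u ^ 2 * sinh (exp u) ^ 2) * (1 + n u ^ 2 * sinh (exp (B u)) ^ 2) := by
        clear * - n u B
        positivity
      have b5 : 1 / 2 ≤ 1 - m u ^ 2 := by clear * - m u δ n B hδ1 b2 hδ0 sa sa0; (refine le_of_not_gt fun h_nl => ?_; linarith only [h_nl, hδ1, b2, hδ0, sa, sa0, mul_nonneg_of_nonpos_of_nonpos (Mathlib.Tactic.Linarith.sub_nonpos_of_le (sq_nonneg ((1 : ℝ) * m u))) (Mathlib.Tactic.Linarith.sub_nonpos_of_le hδ1), mul_nonneg_of_nonpos_of_nonpos (Mathlib.Tactic.Linarith.sub_nonpos_of_le (sq_nonneg (sinh (rexp u)))) (Mathlib.Tactic.Linarith.sub_nonpos_of_le b2), mul_pos_of_neg_of_neg (Mathlib.Tactic.Linarith.sub_neg_of_lt hδ0) (Mathlib.Tactic.Linarith.sub_neg_of_lt hδ0), mul_nonneg_of_nonpos_of_nonpos (le_of_lt (Mathlib.Tactic.Linarith.sub_neg_of_lt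 hδ0)) (Mathlib.Tactic.Linarith.sub_nonpos_of_le hδ1), mul_nonneg_of_nonpos_of_nonpos (le_of_lt (Mathlib.Tactic.Linarith.sub_neg_of_lt hδ0)) (Mathlib.Tactic.Linarith.sub_nonpos_of_le sa), mul_pos_of_neg_of_neg (Mathlib.Tactic.Linarith.sub_neg_of_lt hδ0) (Mathlib.Tactic.Linarith.sub_neg_of_lt h_nl), mul_nonneg_of_nonpos_of_nonpos (Mathlib.Tactic.Linarith.sub_nonpos_of_le sa) (le_of_lt (Mathlib.Tactic.Linarith.sub_neg_of_lt sa0))])
      have b6 : k₀ * (1 / 2) ≤ k u ^ 2 * (1 - m u ^ 2) := by clear * - k₀ k u m kk b5; gcongr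
      rw [← hid u] at b6
      have b7 : 0 < 1 - c u ^ 2 := by
        by_contra hh
        push Not at hh
        have := mul_nonpos_of_nonpos_of_nonneg hh b4.le
        linarith only [hk₀0, b6, this]
      (refine le_of_not_gt fun h_nl => ?_; clear * - k₀ c u n B δ r₁ r₂ b6 hδ0 h_nl hδ1 b3 b7; linarith only [h_nl, b6, hδ0, hδ1, b3, b7, mul_pos_of_neg_of_neg (Mathlib.Tactic.Linarith.sub_neg_of_lt hδ0) (Mathlib.Tactic.Linarith.sub_neg_of_lt h_nl), mul_nonneg_of_nonpos_of_nonpos (Mathlib.Tactic.Linarith.sub_nonpos_of_le hδ1) (le_of_lt (Mathlib.Tactic.Linarith.sub_neg_of_lt h_nl)), mul_nonneg_of_nonpos_of_nonpos (Mathlib.Tactic.Linarith.sub_nonpos_of_le b3) (le_of_lt (Mathlib.Tactic.Linarith.sub_neg_of_lt b7))])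
    have ac : √(k₀ / 8) ≤ arccos (c u) := by
      refine le_trans ?_ (sin_le (arccos_nonneg _))
      rw [sin_arccos]
      exact sqrt_le_sqrt cc
    have ac' : arccos (c u) ≤ π / 2 := arccos_le_pi_div_two.2 (hc0 u)
    have L1 : L ≤ π / 2 := min_le_left _ _
    have L2 : L ≤ √(k₀ / 8) := min_le_right _ _
    have f1 : q * (2 * arcsin (m u)) ≤ q * (2 * (2 * δ)) := by clear * - q m u δ as1 hq; gcongr
    have f2 : 0 < δ * q := by positivity
    refine ⟨u, ?_⟩
    simp only [hH]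
    split_ifs with hh
    · rw [abs_of_pos hh] at hδ2
      have : p * L ≤ p * (π - arccos (c u)) := by clear * - p L c u ac' L1 hh; gcongr; linarith only [ac', L1]
      linarith only [hδ2, f1, f2, this]
    · have hh' : p < 0 := lt_of_le_of_ne (not_lt.1 hh) h0
      rw [abs_of_neg hh'] at hδ2
      have : -p * L ≤ -p * arccos (c u) :=
        mul_le_mul_of_nonneg_left (by linarith only [ac, L2]) (by linarith only [hh'])
      linarith only [hδ2, f1, f2, this]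
  obtain ⟨u₁, hu₁⟩ := hlarge
  obtain ⟨u₂, hu₂⟩ := hsmall
  obtain ⟨u, hu⟩ := intermediate_value_univ u₁ u₂ hHc
    (show (0 : ℝ) ∈ Set.Icc (H u₁) (H u₂) from ⟨hu₁.le, hu₂.le⟩)
  obtain ⟨k0, k1, P1, P2⟩ := hP u
  have m1 : m u < 1 := by
    by_contra hh
    have := hneg u (not_lt.1 hh)
    linarith only [hu, this]
  have c1 : c u < 1 := by
    clear * - m u hm0 k k0 n B r₁ m1 k1 c hid hc0 r₂
    have m0 := hm0 u
    have e1 : 0 < k u ^ 2 * (1 - m u ^ 2) := mul_pos (by positivity) (by linarith only [k0, m1, k1, m0, mul_pos_of_neg_of_neg (Mathlib.Tactic.Linarith.sub_neg_of_lt k0) (Mathlib.Tactic.Linarith.sub_neg_of_lt m1), mul_pos_of_neg_of_neg (Mathlib.Tactic.Linarith.sub_neg_of_lt k1) (Mathlib.Tactic.Linarith.sub_neg_of_lt m1), mul_nonneg_of_nonpos_of_nonpos (le_of_lt (Mathlib.Tactic.Linarith.sub_neg_of_lt m1)) (Mathlib.Tactic.Linarith.sub_nonpos_of_le m0)])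
    rw [← hid u] at e1
    have e2 : 0 < 1 - c u ^ 2 := pos_of_mul_pos_left e1 (by positivity)
    have := hc0 u
    (refine lt_of_not_ge fun h_nl => ?_; linarith only [h_nl, e2, this, mul_nonneg_of_nonpos_of_nonpos (Mathlib.Tactic.Linarith.sub_nonpos_of_le this) (Mathlib.Tactic.Linarith.sub_nonpos_of_le h_nl)])
  have hs : sin (arcsin (k u)) = k u := sin_arcsin (by linarith only [k0, k1]) k1.le
  refine ⟨exp u, exp (B u), arcsin (k u), exp_pos _, exp_pos _, arcsin_pos.2 k0,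
    arcsin_lt_pi_div_two.2 k1, by rw [hs, P1], by rw [hs, P2], m1, c1, ?_⟩
  exact sub_eq_zero.1 hu

end Pool.Agent.Work.MP_3d425c_gt.Bor
end

-- merged part: Pool.Agent.Work.MP_3d425c_gt.BorSmall
section
namespace Pool.Agent.Work.MP_3d425c_gt.Bor
open Real

namespace BorSmall

/-- The diagonal one parameter group. -/
noncomputable def Dm (t : ℝ) : M2 := !![cosh t + sinh t, 0; 0, cosh t - sinh t]

/-- The rotated one parameter group. -/
noncomputable def Ym (ω t : ℝ) : M2 :=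
  !![cosh t - sin ω * sinh t, cos ω * sinh t; cos ω * sinh t, cosh t + sin ω * sinh t]

theorem mk_eq {a b c d a' b' c' d' : ℝ} (h1 : a = a') (h2 : b = b') (h3 : c = c') (h4 : d = d') :
    (!![a, b; c, d] : M2) = !![a', b'; c', d'] := by rw [h1, h2, h3, h4]

theorem det_Dm (t : ℝ) : (Dm t).det = 1 := by
  rw [Dm, Matrix.det_fin_two_of]
  linear_combination cosh_sq t

theorem det_rot (ψ : ℝ) : (rot ψ).det = 1 := by
  rw [rot, Matrix.det_fin_two_of]
  linear_combination sin_sq_add_cos_sq ψ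

theorem det_Ym (ω t : ℝ) : (Ym ω t).det = 1 := by
  rw [Ym, Matrix.det_fin_two_of]
  linear_combination cosh_sq t - sinh t ^ 2 * sin_sq_add_cos_sq ω

theorem Dm_mul (s t : ℝ) : Dm s * Dm t = Dm (s + t) := by
  simp only [Dm, Matrix.mul_fin_two, cosh_add, sinh_add]
  apply mk_eq <;> ring

theorem rot_Dm (ω t : ℝ) :
    rot (π / 4 + ω / 2) * Dm t * rot (-(π / 4 + ω / 2)) = Ym ω t := by
  have h1 := sin_sq_add_cos_sq (π / 4 + ω / 2)
  have hc : cos (π / 4 + ω / 2) ^ 2 - sin (π / 4 + ω / 2) ^ 2 = -sin ω := by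
    rw [← cos_two_mul', show 2 * (π / 4 + ω / 2) = ω + π / 2 by ring, cos_add_pi_div_two]
  have hs : 2 * sin (π / 4 + ω / 2) * cos (π / 4 + ω / 2) = cos ω := by
    rw [← sin_two_mul, show 2 * (π / 4 + ω / 2) = ω + π / 2 by ring, sin_add_pi_div_two]
  simp only [rot, cos_neg, sin_neg, Dm, Ym, Matrix.mul_fin_two]
  generalize cos (π / 4 + ω / 2) = c at *
  generalize sin (π / 4 + ω / 2) = s at *
  apply mk_eq
  · linear_combination cosh t * h1 + sinh t * hc
  · linear_combination sinh t * hs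
  · linear_combination sinh t * hs
  · linear_combination cosh t * h1 - sinh t * hc

theorem exists_d (t : ℝ) : ∃ f : ℝ ≃o ℝ, Lifts (Dm t) f ∧ SmallB f :=
  exists_small (by simp [Dm]) (by simp [Dm, cosh_add_sinh, exp_pos]) (by rw [det_Dm]; norm_num)

/-- The small lift of the diagonal matrix. -/
noncomputable def dd (t : ℝ) : ℝ ≃o ℝ := (exists_d t).choose

theorem dd_lifts (t : ℝ) : Lifts (Dm t) (dd t) := (exists_d t).choose_spec.1

theorem dd_small (t : ℝ) : SmallB (dd t) := (exists_d t).choose_spec.2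

theorem mul_app (f g : ℝ ≃o ℝ) (θ : ℝ) : (f * g) θ = f (g θ) := Eq.trans rfl rfl

theorem dd_mul (s t : ℝ) : dd s * dd t = dd (s + t) := by
  have h := (dd_lifts s).mul (dd_lifts t)
  rw [Dm_mul] at h
  refine h.eq_of_lt (dd_lifts _) (θ := 0) ?_
  have h1 := abs_lt.1 (dd_small s (dd t 0))
  have h2 := abs_lt.1 (dd_small t 0)
  have h3 := abs_lt.1 (dd_small (s + t) 0)
  rw [mul_app, abs_lt]
  constructor <;> linarith only [h1, h2, h3, pi_pos]

theorem dd_zero : dd 0 = 1 := by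
  have h := dd_mul 0 0
  rw [add_zero] at h
  exact mul_left_cancel (h.trans (mul_one _).symm)

theorem dd_inv (t : ℝ) : (dd t)⁻¹ = dd (-t) := by
  rw [inv_eq_iff_mul_eq_one, dd_mul, add_neg_cancel, dd_zero]

theorem dd_zpow (t : ℝ) (k : ℤ) : dd t ^ k = dd (k * t) := by
  induction k using Int.induction_on with
  | zero => simp [dd_zero]
  | succ n ih => rw [zpow_add_one, ih, dd_mul]; congr 1; push_cast; ring
  | pred n ih => rw [zpow_sub_one, ih, dd_inv, dd_mul]; congr 1; push_cast; ring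

theorem dd_comm (s t : ℝ) : dd s * dd t = dd t * dd s := by rw [dd_mul, dd_mul, add_comm]

theorem dd_lt_iff (t θ : ℝ) : (θ < dd t θ ↔ cos θ * sin θ * sinh t < 0) ∧
    (dd t θ < θ ↔ 0 < cos θ * sin θ * sinh t) := by
  have h := (dd_lifts t).lt_iff (dd_small t) θ
  have e : cos θ * (Dm t).mulVec (vec θ) 1 - sin θ * (Dm t).mulVec (vec θ) 0
      = -2 * (cos θ * sin θ * sinh t) := by
    simp only [Dm, vec, Matrix.mulVec, dotProduct, Fin.sum_univ_two, Matrix.of_apply,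
      Matrix.cons_val', Matrix.cons_val_zero, Matrix.cons_val_one, Matrix.cons_val_fin_one]
    ring
  rw [e] at h
  refine ⟨h.1.trans ⟨fun a => ?_, fun a => ?_⟩, h.2.trans ⟨fun a => ?_, fun a => ?_⟩⟩ <;> linarith only [a]

theorem dd_fix {t θ : ℝ} (h : cos θ * sin θ = 0) : dd t θ = θ := by
  obtain ⟨h1, h2⟩ := dd_lt_iff t θ
  rw [h, zero_mul] at h1 h2
  exact le_antisymm (not_lt.1 fun a => lt_irrefl _ (h1.1 a)) (not_lt.1 fun a => lt_irrefl _ (h2.1 a))

/-- The lift of the rotated one parameter group. -/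
noncomputable def ee (ω t : ℝ) : ℝ ≃o ℝ :=
  tra (π / 4 + ω / 2) * dd t * (tra (π / 4 + ω / 2))⁻¹

theorem ee_apply (ω t θ : ℝ) : ee ω t θ = dd t (θ - (π / 4 + ω / 2)) + (π / 4 + ω / 2) := by
  rw [ee, tra_inv, mul_app, mul_app, tra_apply, tra_apply, ← sub_eq_add_neg]

theorem ee_lifts (ω t : ℝ) : Lifts (Ym ω t) (ee ω t) := by
  rw [← rot_Dm, ee, tra_inv]
  exact ((lifts_rot _).mul (dd_lifts t)).mul (lifts_rot _)

theorem ee_small (ω t : ℝ) : SmallB (ee ω t) := fun θ => by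
  have h := dd_small t (θ - (π / 4 + ω / 2))
  rw [ee_apply]
  convert h using 2
  ring

theorem ee_mul (ω s t : ℝ) : ee ω s * ee ω t = ee ω (s + t) := by
  rw [ee, ee, ee, ← dd_mul]; group

theorem ee_inv (ω t : ℝ) : (ee ω t)⁻¹ = ee ω (-t) := by
  rw [ee, ee, ← dd_inv]; group

theorem ee_zpow (ω t : ℝ) (k : ℤ) : ee ω t ^ k = ee ω (k * t) := by
  rw [ee, ee, conj_zpow, dd_zpow]

theorem ee_comm (ω s t : ℝ) : ee ω s * ee ω t = ee ω t * ee ω s := by
  rw [ee_mul, ee_mul, add_comm]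

theorem mat1 {ω u b : ℝ} (h : sinh u * cosh b = sin ω * sinh b * cosh u) :
    rot (-ω) * Ym ω b * rot ω = Dm u * Ym ω b * Dm u := by
  have h1 := sin_sq_add_cos_sq ω
  have h2 := cosh_sq u
  simp only [rot, cos_neg, sin_neg, Dm, Ym, Matrix.mul_fin_two]
  generalize cos ω = c at *
  generalize sin ω = s at *
  apply mk_eq
  · linear_combination (cosh b + s * sinh b) * h1 - (cosh b + s * sinh b) * h2
      - 2 * (cosh u + sinh u) * h
  · linear_combination (c * sinh b) * h1 - (c * sinh b) * h2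
  · linear_combination (c * sinh b) * h1 - (c * sinh b) * h2
  · linear_combination (cosh b - s * sinh b) * h1 - (cosh b - s * sinh b) * h2
      + 2 * (cosh u - sinh u) * h

theorem mat2 {ω v a : ℝ} (h : sinh v * cosh a = sin ω * sinh a * cosh v) :
    Ym ω v * Dm a * Ym ω v = rot ω * Dm a * rot (-ω) := by
  have h1 := sin_sq_add_cos_sq ω
  have h2 := cosh_sq v
  simp only [rot, cos_neg, sin_neg, Dm, Ym, Matrix.mul_fin_two]
  generalize cos ω = c at *
  generalize sin ω = s at *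
  apply mk_eq
  · linear_combination (sinh v ^ 2 * (cosh a + sinh a) - (cosh a + sinh a)
      - 2 * sinh v ^ 2 * sinh a) * h1 + (cosh a + sinh a - 2 * s ^ 2 * sinh a) * h2
      + 2 * (sinh v - s * cosh v) * h
  · linear_combination (2 * s * c * sinh a) * h2 + 2 * c * cosh v * h
  · linear_combination (2 * s * c * sinh a) * h2 + 2 * c * cosh v * h
  · linear_combination (sinh v ^ 2 * (cosh a - sinh a) - (cosh a - sinh a)
      + 2 * sinh v ^ 2 * sinh a) * h1 + (cosh a - sinh a + 2 * s ^ 2 * sinh a) * h2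
      + 2 * (sinh v + s * cosh v) * h

theorem tr_T (ω u v : ℝ) : (Dm (-u) * rot (-ω) * Ym ω v).trace = 2 * (cos ω * cosh u * cosh v) := by
  simp only [rot, cos_neg, sin_neg, cosh_neg, sinh_neg, Dm, Ym, Matrix.mul_fin_two,
    Matrix.trace_fin_two_of]
  ring

theorem tr_L (ω a b : ℝ) : (Dm a * Ym ω b * Dm (-a) * Ym ω (-b)).trace
    = 2 * (1 - 2 * (cos ω * sinh a * sinh b) ^ 2) := by
  have h1 := sin_sq_add_cos_sq ω
  have h2 := cosh_sq a
  have h3 := cosh_sq b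
  simp only [cosh_neg, sinh_neg, Dm, Ym, Matrix.mul_fin_two, Matrix.trace_fin_two_of]
  generalize cos ω = c at *
  generalize sin ω = s at *
  linear_combination (2 * cosh b ^ 2 - 2 * s ^ 2 * sinh b ^ 2 - 2 * c ^ 2 * sinh b ^ 2) * h2
    + 2 * h3 - 2 * sinh b ^ 2 * h1

theorem arccos_two {m : ℝ} (h0 : 0 ≤ m) (h1 : m ≤ 1) : arccos (1 - 2 * m ^ 2) = 2 * arcsin m := by
  have a0 := arcsin_nonneg.2 h0
  have a1 := arcsin_le_pi_div_two m
  rw [← arccos_cos (x := 2 * arcsin m) (by linarith only [a0]) (by linarith only [a1]), cos_two_mul, cos_sq',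
    sin_arcsin (by linarith only [h0]) h1]
  congr 1
  ring

theorem eq_of_lifts {M N : M2} {f : ℝ ≃o ℝ} (hM : Lifts M f) (hN : Lifts N f) (dM : M.det = 1)
    (dN : N.det = 1) : M = N := by
  have hi : N.adjugate * N = 1 := by rw [Matrix.adjugate_mul, dN, one_smul]
  have hi' : N * N.adjugate = 1 := by rw [Matrix.mul_adjugate, dN, one_smul]
  have h := (hN.inv hi).mul hM
  rw [inv_mul_cancel] at h
  have dK : (N.adjugate * M).det = 1 := by
    rw [Matrix.det_mul, Matrix.det_adjugate, dN, dM]; simp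
  suffices hK : N.adjugate * M = 1 by
    rw [← Matrix.one_mul M, ← hi', Matrix.mul_assoc, hK, Matrix.mul_one]
  generalize N.adjugate * M = K at h dK
  obtain ⟨r, hr, e1⟩ := h 0
  obtain ⟨s, hs, e2⟩ := h (π / 2)
  obtain ⟨t, ht, e3⟩ := h (π / 4)
  have a0 := congrFun e1 0
  have a1 := congrFun e1 1
  have b0 := congrFun e2 0
  have b1 := congrFun e2 1
  have c0 := congrFun e3 0
  have c1 := congrFun e3 1
  simp [vec, Matrix.mulVec, dotProduct, Fin.sum_univ_two] at a0 a1 b0 b1 c0 c1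
  rw [Matrix.det_fin_two] at dK
  have q : (0 : ℝ) < √2 := by positivity
  have hrs : r = s := by
    clear * - r s t K b0 a0 c0 b1 a1 c1 q h
    rw [a0, b0] at c0
    rw [a1, b1] at c1
    have : (r - s) * √2 = 0 := by linarith only [c0, c1]
    rcases mul_eq_zero.1 this with h | h <;> linarith only [h, q]
  have hr1 : r = 1 := by
    clear * - r s hrs K b1 b0 a1 a0 dK hr
    rw [a0, a1, b0, b1, ← hrs] at dK
    nlinarith
  ext i j
  fin_cases i <;> fin_cases j <;> simp <;> linarith only [a0, hr1, b0, a1, b1, hrs]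

theorem tra_comm {M : M2} {f : ℝ ≃o ℝ} (h : Lifts M f) : tra π * f = f * tra π := by
  ext θ
  rw [mul_app, mul_app, tra_apply, tra_apply, h.add_pi]

variable {G : Type} [Group G]

theorem alg1 {A1 B B1 w : G} (h : w⁻¹ * B * w = A1 * B * A1) (hB : B1 * B = B * B1) :
    A1⁻¹ * w⁻¹ * B1 * B = B * (A1 * A1) * (A1⁻¹ * w⁻¹ * B1) := by
  calc _ = A1⁻¹ * w⁻¹ * (B1 * B) := by group
    _ = A1⁻¹ * (w⁻¹ * B * w) * w⁻¹ * B1 := by rw [hB]; group
    _ = _ := by rw [h]; group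

theorem alg2 {A A1 B1 w : G} (h : B1 * A * B1 = w * A * w⁻¹) (hA : A1 * A = A * A1) :
    A1⁻¹ * w⁻¹ * B1 * (A * (B1 * B1)) = A * (A1⁻¹ * w⁻¹ * B1) := by
  calc _ = A1⁻¹ * w⁻¹ * (B1 * A * B1) * B1 := by group
    _ = A1⁻¹ * (A * A1) * A1⁻¹ * w⁻¹ * B1 := by rw [h]; group
    _ = _ := by rw [← hA]; group

theorem alg3 {A B P Q T : G} (h1 : T * B = B * P * T) (h2 : T * (A * Q) = A * T)
    (hA : P * A = A * P) (hB : Q * B = B * Q) :
    T * (A * B * A⁻¹ * B⁻¹) = A * B * A⁻¹ * B⁻¹ * T := by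
  have e1 : T * A = A * T * Q⁻¹ := by rw [← h2]; group
  have e3 : Q⁻¹ * B = B * Q⁻¹ := by
    calc _ = Q⁻¹ * (B * Q) * Q⁻¹ := by group
      _ = _ := by rw [← hB]; group
  have e4 : T * Q⁻¹ * A⁻¹ = (T * (A * Q)⁻¹ * T⁻¹) * T := by group
  have e5 : T * (A * Q)⁻¹ * T⁻¹ = A⁻¹ := by
    have : T * (A * Q) * T⁻¹ = A := by rw [h2]; group
    calc _ = (T * (A * Q) * T⁻¹)⁻¹ := by group
      _ = _ := by rw [this]
  have e6 : T * B⁻¹ = P⁻¹ * B⁻¹ * T := by
    have : T * B * T⁻¹ = B * P := by rw [h1]; group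
    calc _ = (T * B * T⁻¹)⁻¹ * T := by group
      _ = _ := by rw [this]; group
  have e7 : P * A⁻¹ * P⁻¹ = A⁻¹ := by
    calc _ = A⁻¹ * (A * P) * A⁻¹ * P⁻¹ := by group
      _ = _ := by rw [← hA]; group
  calc _ = T * A * B * A⁻¹ * B⁻¹ := by group
    _ = A * T * (Q⁻¹ * B) * A⁻¹ * B⁻¹ := by rw [e1]; group
    _ = A * (T * B) * T⁻¹ * (T * Q⁻¹ * A⁻¹) * B⁻¹ := by rw [e3]; group
    _ = A * B * P * A⁻¹ * (T * B⁻¹) := by rw [h1, e4, e5]; group
    _ = A * B * (P * A⁻¹ * P⁻¹) * B⁻¹ * T := by rw [e6]; group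
    _ = _ := by rw [e7]

theorem rel1 {ω u b : ℝ} (h : sinh u * cosh b = sin ω * sinh b * cosh u) :
    (tra ω)⁻¹ * ee ω b * tra ω = dd u * ee ω b * dd u := by
  rw [tra_inv]
  have l1 := ((lifts_rot (-ω)).mul (ee_lifts ω b)).mul (lifts_rot ω)
  rw [mat1 h] at l1
  refine l1.eq_of_lt (((dd_lifts u).mul (ee_lifts ω b)).mul (dd_lifts u)) (θ := 0) ?_
  simp only [mul_app, tra_apply]
  have h1 := abs_lt.1 (ee_small ω b (0 + ω))
  have h2 := abs_lt.1 (dd_small u 0)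
  have h3 := abs_lt.1 (ee_small ω b (dd u 0))
  have h4 := abs_lt.1 (dd_small u (ee ω b (dd u 0)))
  rw [abs_lt]
  constructor <;> linarith only [h1, h2, h3, h4]

theorem rel2 {ω v a : ℝ} (h : sinh v * cosh a = sin ω * sinh a * cosh v) :
    ee ω v * dd a * ee ω v = tra ω * dd a * (tra ω)⁻¹ := by
  rw [tra_inv]
  have l1 := ((ee_lifts ω v).mul (dd_lifts a)).mul (ee_lifts ω v)
  rw [mat2 h] at l1
  refine l1.eq_of_lt (((lifts_rot ω).mul (dd_lifts a)).mul (lifts_rot (-ω))) (θ := 0) ?_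
  simp only [mul_app, tra_apply]
  have h1 := abs_lt.1 (dd_small a (0 + -ω))
  have h2 := abs_lt.1 (ee_small ω v 0)
  have h3 := abs_lt.1 (dd_small a (ee ω v 0))
  have h4 := abs_lt.1 (ee_small ω v (dd a (ee ω v 0)))
  rw [abs_lt]
  constructor <;> linarith only [h1, h2, h3, h4]

theorem bound_T {ω u v : ℝ} (h0 : 0 < ω) (h1 : ω < π / 2) (hu : 0 < u) :
    (ω / 2 - π / 4) - π < (dd (-u) * tra (-ω) * ee ω v) (ω / 2 - π / 4) ∧
      (dd (-u) * tra (-ω) * ee ω v) (ω / 2 - π / 4) < ω / 2 - π / 4 := by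
  have e : ee ω v (ω / 2 - π / 4) = ω / 2 - π / 4 := by
    rw [ee_apply, show ω / 2 - π / 4 - (π / 4 + ω / 2) = -(π / 2) by ring, dd_fix (by simp)]
    ring
  simp only [mul_app, tra_apply, e]
  have a1 : dd (-u) (-(π / 2)) < dd (-u) (ω / 2 - π / 4 + -ω) :=
    (dd (-u)).strictMono (by linarith only [h1])
  rw [dd_fix (by simp)] at a1
  have c0 : 0 < cos (ω / 2 - π / 4 + -ω) :=
    cos_pos_of_mem_Ioo ⟨by linarith only [h1], by linarith only [h0, h1, pi_pos]⟩
  have s0 : sin (ω / 2 - π / 4 + -ω) < 0 :=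
    sin_neg_of_neg_of_neg_pi_lt (by linarith only [h0, h1, pi_pos]) (by linarith only [h0, h1, pi_pos])
  have h2 : sinh (-u) < 0 := sinh_neg_iff.2 (by linarith only [hu])
  have a2 := (dd_lt_iff (-u) (ω / 2 - π / 4 + -ω)).2.2
    (mul_pos_of_neg_of_neg (mul_neg_of_pos_of_neg c0 s0) h2)
  constructor <;> linarith only [h0, a1, a2, pi_pos]

theorem bound_L {ω a b : ℝ} (h0 : 0 < ω) (h1 : ω < π / 2) (ha : 0 < a) (hb : 0 < b) :
    ee ω b 0 - π < (dd a * ee ω b * dd (-a) * ee ω (-b)) (ee ω b 0) ∧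
      (dd a * ee ω b * dd (-a) * ee ω (-b)) (ee ω b 0) < ee ω b 0 := by
  have e : ee ω (-b) (ee ω b 0) = 0 := by
    rw [← mul_app, ← ee_inv, inv_mul_cancel]; rfl
  have z (t : ℝ) : dd t 0 = 0 := dd_fix (by simp)
  simp only [mul_app, e, z]
  have c0 : 0 < cos (0 - (π / 4 + ω / 2)) :=
    cos_pos_of_mem_Ioo ⟨by linarith only [h1], by linarith only [h0, h1, pi_pos]⟩
  have s0 : sin (0 - (π / 4 + ω / 2)) < 0 :=
    sin_neg_of_neg_of_neg_pi_lt (by linarith only [h0, h1, pi_pos]) (by linarith only [h0, h1, pi_pos])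
  have a1 := (dd_lt_iff b (0 - (π / 4 + ω / 2))).1.2
    (mul_neg_of_neg_of_pos (mul_neg_of_pos_of_neg c0 s0) (sinh_pos_iff.2 hb))
  have a2 : dd b (0 - (π / 4 + ω / 2)) < dd b 0 := (dd b).strictMono (by linarith only [h0, h1, pi_pos])
  rw [z] at a2
  have b1 : 0 < ee ω b 0 := by rw [ee_apply]; linarith only [a1]
  have b2 : ee ω b 0 < π / 2 := by rw [ee_apply]; linarith only [h1, a2]
  generalize ee ω b 0 = θ at b1 b2
  have a3 : dd a 0 < dd a θ := (dd a).strictMono b1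
  rw [z] at a3
  have a4 := (dd_lt_iff a θ).2.2 (mul_pos (mul_pos (cos_pos_of_mem_Ioo ⟨by linarith only [h0, h1, b1], b2⟩)
    (sin_pos_of_pos_of_lt_pi b1 (by linarith only [h0, h1, b2]))) (sinh_pos_iff.2 ha))
  constructor <;> linarith only [b2, a3, a4]

end BorSmall

open BorSmall

/-- Actions on the line coming from the universal cover of `PSL(2, ℝ)`. -/
theorem good_small {p₁ q₁ p₂ q₂ p₃ q₃ : ℤ} (hp₁ : 0 < p₁) (hq₁ : 0 < q₁) (hp₂ : 0 < p₂)
    (hq₂ : 0 < q₂) (hq₃ : 0 < q₃) (h4 : p₁ * p₂ < 4 * (q₁ * q₂)) (h3 : p₃ < q₃) (h0 : p₃ ≠ 0) :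
    ∃ α β T : ℝ ≃o ℝ, Core α β T p₁ q₁ p₂ q₂ p₃ q₃ ∧ T ≠ 1 := by
  have P₁ : (0 : ℝ) < p₁ := by exact_mod_cast hp₁
  have Q₁ : (0 : ℝ) < q₁ := by exact_mod_cast hq₁
  have P₂ : (0 : ℝ) < p₂ := by exact_mod_cast hp₂
  have Q₂ : (0 : ℝ) < q₂ := by exact_mod_cast hq₂
  have H4 : (p₁ : ℝ) * p₂ < 4 * (q₁ * q₂) := by exact_mod_cast h4
  obtain ⟨a, b, ω, ha, hb, w0, w1, c1, c2, m1, k1, heq⟩ := exists_param (r₁ := (p₁ : ℝ) / q₁)
    (r₂ := (p₂ : ℝ) / q₂) (p := p₃) (q := q₃) (by positivity) (by positivity)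
    (by rw [div_mul_div_comm, div_lt_iff₀ (by positivity)]; exact H4) (by exact_mod_cast hq₃)
    (by exact_mod_cast h3) (by exact_mod_cast h0)
  set u := a * ((p₁ : ℝ) / q₁) / 2 with hu
  set v := b * ((p₂ : ℝ) / q₂) / 2 with hv
  have u0 : 0 < u := by positivity
  set ε : ℝ := if (0 : ℝ) < p₃ then π else 0 with hε
  have eA : dd (a / q₁) ^ q₁ = dd a := by rw [dd_zpow]; congr 1; field_simp
  have eA1 : dd (a / q₁) ^ p₁ = dd u * dd u := by
    rw [dd_zpow, dd_mul]; congr 1; rw [hu]; field_simp; norm_num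
  have eB : ee ω (b / q₂) ^ q₂ = ee ω b := by rw [ee_zpow]; congr 1; field_simp
  have eB1 : ee ω (b / q₂) ^ p₂ = ee ω v * ee ω v := by
    rw [ee_zpow, ee_mul]; congr 1; rw [hv]; field_simp; norm_num
  have r1 := alg1 (rel1 c1) (ee_comm ω v b)
  have r2 := alg2 (rel2 c2) (dd_comm u a)
  have r3 := alg3 r1 r2 (by rw [dd_mul, dd_comm]) (by rw [ee_mul, ee_comm])
  rw [dd_inv, tra_inv] at r1 r2
  simp only [dd_inv, tra_inv, ee_inv] at r3
  have lT := ((dd_lifts (-u)).mul (lifts_rot (-ω))).mul (ee_lifts ω v)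
  have lL := (((dd_lifts a).mul (ee_lifts ω b)).mul (dd_lifts (-a))).mul (ee_lifts ω (-b))
  have dT : (Dm (-u) * rot (-ω) * Ym ω v).det = 1 := by
    simp only [Matrix.det_mul, det_Dm, det_rot, det_Ym, mul_one]
  have dL : (Dm a * Ym ω b * Dm (-a) * Ym ω (-b)).det = 1 := by
    simp only [Matrix.det_mul, det_Dm, det_Ym, mul_one]
  have cw : 0 < cos ω := cos_pos_of_mem_Ioo ⟨by linarith only [w0, w1], w1⟩
  have k0 : 0 < cos ω * cosh u * cosh v := by positivity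
  have m0 : 0 ≤ cos ω * sinh a * sinh b :=
    (mul_pos (mul_pos cw (sinh_pos_iff.2 ha)) (sinh_pos_iff.2 hb)).le
  obtain ⟨g, hg, gT, gL⟩ := elliptic_pair lT lL dT dL
    (by rw [tr_T, abs_lt]; constructor <;> linarith only [k1, k0])
    (eq_of_lifts (lT.mul lL) (r3 ▸ lL.mul lT) (by rw [Matrix.det_mul, dT, dL, mul_one])
      (by rw [Matrix.det_mul, dT, dL, mul_one]))
    (bound_T w0 w1 u0).1 (bound_T w0 w1 u0).2 (bound_L w0 w1 ha hb).1 (bound_L w0 w1 ha hb).2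
  rw [tr_T, mul_div_cancel_left₀ _ two_ne_zero] at gT
  rw [tr_L, mul_div_cancel_left₀ _ two_ne_zero, arccos_two m0 m1.le] at gL
  have cε : ∀ {M : M2} {f : ℝ ≃o ℝ}, Lifts M f → tra ε * f = f * tra ε := fun h => by
    rw [hε]
    split_ifs
    · exact tra_comm h
    · rw [tra_zero, one_mul, mul_one]
  have gε : tra ε * g = g * tra ε := by
    rw [hε]
    split_ifs
    · ext θ
      rw [mul_app, mul_app, tra_apply, tra_apply, hg]
    · rw [tra_zero, one_mul, mul_one]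
  set T0 := dd (-u) * tra (-ω) * ee ω v with hT0
  have hT : T0 * tra ε = g * tra (ε - arccos (cos ω * cosh u * cosh v)) * g⁻¹ := by
    rw [gT, sub_eq_neg_add, ← tra_mul]
    calc _ = g * tra (-arccos (cos ω * cosh u * cosh v)) * g⁻¹ * (tra ε * g) * g⁻¹ := by group
      _ = _ := by rw [gε]; group
  refine ⟨dd (a / q₁), ee ω (b / q₂), T0 * tra ε, ⟨?_, ?_, ?_⟩, fun h => ?_⟩
  · rw [eB, eA1, mul_assoc T0, cε (ee_lifts ω b), ← mul_assoc, r1, mul_assoc _ T0]
  · rw [eA, eB1, mul_assoc T0, cε ((dd_lifts a).mul ((ee_lifts ω v).mul (ee_lifts ω v))),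
      ← mul_assoc, r2, mul_assoc _ T0]
  · rw [eA, eB, dd_inv, ee_inv, gL, hT, conj_zpow, conj_zpow, tra_zpow, tra_zpow, heq]
    calc _ = g * (tra (q₃ * (2 * arcsin (cos ω * sinh a * sinh b))) *
          tra (q₃ * -(2 * arcsin (cos ω * sinh a * sinh b)))) * g⁻¹ := by group
      _ = 1 := by rw [tra_mul, mul_neg, add_neg_cancel, tra_zero]; group
  · rw [hT] at h
    have h1 : tra (ε - arccos (cos ω * cosh u * cosh v)) = 1 := by
      calc _ = g⁻¹ * (g * tra (ε - arccos (cos ω * cosh u * cosh v)) * g⁻¹) * g := by group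
        _ = 1 := by rw [h]; group
    have h2 := tra_apply (ε - arccos (cos ω * cosh u * cosh v)) 0
    rw [h1] at h2
    have h3 : (0 : ℝ) = 0 + (ε - arccos (cos ω * cosh u * cosh v)) := h2
    have a1 := arccos_pos.2 k1
    have a2 := arccos_lt_pi_div_two.2 k0
    rw [hε] at h3
    split_ifs at h3 <;> linarith only [w0, w1, a2, h3, a1, pi_pos]

end Pool.Agent.Work.MP_3d425c_gt.Bor
end
end

-- merged part: Pool.Agent.Work.MP_3d425c_gt.BorFinal
section
-- merged part: Pool.Agent.Work.MP_3d425c_gt.BorRay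
section
/-! A reversed cone from an action on a Cayley tree. -/

namespace Pool.Agent.Work.MP_3d425c_gt.Bor
open Classical

/-- Representatives of the orbits of a subgroup. -/
theorem BorRay_rep {G X : Type} [Group G] (φ : G →* Equiv.Perm X) (S : Subgroup G) :
    ∃ (ρ : X → X) (γ : X → G), (∀ x, γ x ∈ S) ∧ (∀ x, φ (γ x) (ρ x) = x) ∧
      ∀ g ∈ S, ∀ x, ρ (φ g x) = ρ x := by
  let R : Setoid X := ⟨fun x y => ∃ g ∈ S, φ g x = y, fun x => ⟨1, S.one_mem, by simp⟩,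
    fun ⟨g, hg, e⟩ => ⟨g⁻¹, S.inv_mem hg, by rw [← e]; simp⟩,
    fun ⟨g, hg, e⟩ ⟨g', hg', e'⟩ => ⟨g' * g, S.mul_mem hg' hg, by rw [← e', ← e]; simp⟩⟩
  have h : ∀ x, ∃ g ∈ S, φ g (Quotient.mk R x).out = x := fun x => Quotient.mk_out (s := R) x
  choose γ h1 h2 using h
  refine ⟨fun x => (Quotient.mk R x).out, γ, h1, h2, fun g hg x => ?_⟩
  have : Quotient.mk R x = Quotient.mk R (φ g x) := Quotient.sound ⟨g, hg, rfl⟩
  simp only [this]

/-- The comparison function of a strict total order. -/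
structure BorRayCmp {E : Type} (c : E → E → ℤ) : Prop where
  anti : ∀ a b, c b a = -c a b
  val : ∀ a b, a ≠ b → c a b = 1 ∨ c a b = -1
  tri : ∀ a b d, c a b + c b d + c d a ≤ 1

theorem BorRayCmp.neg {E : Type} {c : E → E → ℤ} (h : BorRayCmp c) :
    BorRayCmp fun a b => -c a b := by
  refine ⟨fun a b => by rw [h.anti], fun a b e => by have := h.val a b e; omega, fun a b d => ?_⟩
  have := h.tri a d b
  rw [h.anti a b, h.anti b d, h.anti d a] at this
  omega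

theorem BorRayCmp.comp {E : Type} {c : E → E → ℤ} (h : BorRayCmp c) {f : E → E}
    (hf : Function.Injective f) : BorRayCmp fun a b => c (f a) (f b) :=
  ⟨fun _ _ => h.anti _ _, fun _ _ e => h.val _ _ fun e' => e (hf e'), fun _ _ _ => h.tri _ _ _⟩

theorem BorRayCmp.le {E : Type} {c : E → E → ℤ} (h : BorRayCmp c) (a b : E) : c a b ≤ 1 := by
  by_cases e : a = b
  · have := h.anti a b
    rw [e] at this ⊢
    omega
  · have := h.val a b e
    omega

theorem BorRay_cmp {E : Type} (r : E → E → Prop) (irr : ∀ a, ¬ r a a)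
    (tr : ∀ a b d, r a b → r b d → r a d) (tot : ∀ a b, a ≠ b → r a b ∨ r b a) :
    BorRayCmp fun a b => if r a b then (1 : ℤ) else if r b a then -1 else 0 := by
  have asym : ∀ a b, r a b → ¬ r b a := fun a b h h' => irr a (tr _ _ _ h h')
  refine ⟨fun a b => ?_, fun a b e => ?_, fun a b d => ?_⟩
  · have := asym a b
    split_ifs <;> simp_all
  · have := tot a b e
    split_ifs <;> simp_all
  · have h1 := tr a b d
    have h2 := asym a d
    have h3 := tot a b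
    have h4 := tot b d
    have h5 := tot d a
    have h6 := asym a b
    have h7 := asym b d
    by_cases e1 : a = b
    · subst e1
      split_ifs <;> simp_all
    by_cases e2 : b = d
    · subst e2
      split_ifs <;> simp_all
    by_cases e3 : d = a
    · subst e3
      split_ifs <;> simp_all
    split_ifs <;> simp_all

/-- A group with a cone acting freely preserves a strict total order. -/
theorem BorRay_order {G E : Type} [Group G] [MulAction G E] (S : Subgroup G) {A : Set G}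
    (lo : LOon A) (hA : ∀ g ∈ S, g ∈ A) (free : ∀ k ∈ S, ∀ e : E, k • e = e → k = 1) :
    ∃ c : E → E → ℤ, BorRayCmp c ∧ ∀ k ∈ S, ∀ a b, c (k • a) (k • b) = c a b := by
  obtain ⟨P, hm, h1, ht⟩ := lo
  obtain ⟨ρ, γ, hγ, hρ, hinv⟩ := BorRay_rep (MulAction.toPermHom G E) S
  simp only [MulAction.toPermHom_apply, MulAction.toPerm_apply] at hρ hinv
  have hk : ∀ k ∈ S, ∀ a, γ (k • a) = k * γ a := fun k hk a => by
    have := free ((γ (k • a))⁻¹ * (k * γ a))
      (S.mul_mem (S.inv_mem (hγ _)) (S.mul_mem hk (hγ _))) (ρ a) (by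
        rw [mul_smul, mul_smul, hρ, inv_smul_eq_iff, ← hinv k hk a, hρ])
    exact inv_mul_eq_one.1 this
  let r : E → E → Prop := fun a b =>
    WellOrderingRel (ρ a) (ρ b) ∨ (ρ a = ρ b ∧ (γ a)⁻¹ * γ b ∈ P)
  refine ⟨_, BorRay_cmp r (fun a => ?_) (fun a b d => ?_) (fun a b e => ?_), fun k hk' a b => ?_⟩
  · rintro (h | h)
    · exact irrefl_of WellOrderingRel _ h
    · exact h1 (by simpa using h.2)
  · rintro (h | h) (h' | h')
    · exact Or.inl (trans_of WellOrderingRel h h')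
    · exact Or.inl (h'.1 ▸ h)
    · exact Or.inl (h.1 ▸ h')
    · exact Or.inr ⟨h.1.trans h'.1, by simpa [mul_assoc] using hm _ h.2 _ h'.2⟩
  · rcases trichotomous_of WellOrderingRel (ρ a) (ρ b) with h | h | h
    · exact Or.inl (Or.inl h)
    · have hne : (γ a)⁻¹ * γ b ≠ 1 := fun e' => e (by
        rw [← hρ a, ← hρ b, h, inv_mul_eq_one.1 e'])
      rcases ht _ (hA _ (S.mul_mem (S.inv_mem (hγ a)) (hγ b))) hne with h' | h'
      · exact Or.inl (Or.inr ⟨h, h'⟩)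
      · exact Or.inr (Or.inr ⟨h.symm, by simpa using h'⟩)
    · exact Or.inr (Or.inl h)
  · have : ∀ a b, r (k • a) (k • b) ↔ r a b := fun a b => by
      simp only [r, hinv k hk', hk k hk', mul_inv_rev, mul_assoc, inv_mul_cancel_left]
    simp only [this]
    congr

/-- The sign of an integer parity. -/
def BorRayChi (n : ℤ) : ℤ := if Odd n then -1 else 1

theorem BorRayChi_add (m n : ℤ) : BorRayChi (m + n) = BorRayChi m * BorRayChi n := by
  unfold BorRayChi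
  simp only [Int.odd_iff]
  split_ifs <;> omega

/-- Equivariant comparison functions at all vertices. -/
theorem BorRay_local {G E X : Type} [Group G] [MulAction G E] (ex : G → ℤ)
    (ex_mul : ∀ g h, ex (g * h) = ex g + ex h) (act : G →* Equiv.Perm X)
    (lo : ∀ u, LOon {g | act g u = u}) (H : Subgroup G)
    (hH : ∀ h ∈ H, ∀ u, act h u = u → ex h = 0 ∧ ∀ e : E, h • e = e → h = 1) :
    ∃ c : X → E → E → ℤ, (∀ u, BorRayCmp (c u)) ∧
      ∀ h ∈ H, ∀ u a b, c (act h u) (h • a) (h • b) = BorRayChi (ex h) * c u a b := by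
  let S : X → Subgroup G := fun u =>
    { carrier := {g | g ∈ H ∧ act g u = u}
      mul_mem' := fun ha hb => ⟨H.mul_mem ha.1 hb.1, by
        rw [map_mul, Equiv.Perm.mul_apply, hb.2, ha.2]⟩
      one_mem' := ⟨H.one_mem, by simp⟩
      inv_mem' := fun ha => ⟨H.inv_mem ha.1, by
        rw [map_inv, Equiv.Perm.inv_eq_iff_eq, ha.2]⟩ }
  have h0 : ∀ u, ∃ c : E → E → ℤ, BorRayCmp c ∧ ∀ k ∈ S u, ∀ a b, c (k • a) (k • b) = c a b :=
    fun u => BorRay_order (S u) (lo u) (fun g hg => hg.2) fun k hk => (hH k hk.1 u hk.2).2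
  choose c0 hc hi using h0
  obtain ⟨ρ, t, ht, hρ, hinv⟩ := BorRay_rep act H
  refine ⟨fun u a b => BorRayChi (ex (t u)) * c0 (ρ u) ((t u)⁻¹ • a) ((t u)⁻¹ • b),
    fun u => ?_, fun h hh u a b => ?_⟩
  · have := (hc (ρ u)).comp (MulAction.injective (t u)⁻¹)
    by_cases e : Odd (ex (t u))
    · simpa [BorRayChi, e] using this.neg
    · simpa [BorRayChi, e] using this
  · have hk : (t (act h u))⁻¹ * (h * t u) ∈ S (ρ u) :=
      ⟨H.mul_mem (H.inv_mem (ht _)) (H.mul_mem hh (ht _)), by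
        rw [map_mul, map_mul, Equiv.Perm.mul_apply, Equiv.Perm.mul_apply, hρ, map_inv,
          Equiv.Perm.inv_eq_iff_eq, ← hinv h hh u, hρ]⟩
    have e1 : ex (t (act h u)) = ex h + ex (t u) := by
      have := ex_mul (t (act h u)) ((t (act h u))⁻¹ * (h * t u))
      rw [mul_inv_cancel_left, ex_mul, (hH _ hk.1 _ hk.2).1] at this
      omega
    have e2 := hi _ _ hk ((t u)⁻¹ • a) ((t u)⁻¹ • b)
    simp only [mul_smul, smul_inv_smul] at e2
    simp only [hinv h hh, e1, e2, BorRayChi_add, mul_assoc]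

section ray
variable {E : Type} {a : ℕ → FreeGroup E} {l : ℕ → E × Bool}
  (ha : ∀ m, a (m + 1) = a m * lt (l m)) (inj : Function.Injective a)
include ha inj

theorem BorRay_fwd {m j : ℕ} (h : m < j) : fl ((a m)⁻¹ * a j) = some (l m) := by
  induction j, h using Nat.le_induction with
  | base => rw [ha, inv_mul_cancel_left, fl_lt]
  | succ j hj ih =>
    rw [ha, ← mul_assoc, fl_mul_lt, ih]
    · intro e
      have := inj (inv_mul_eq_one.1 e)
      omega
    · intro e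
      rw [mul_assoc, ← ha] at e
      have := inj (inv_mul_eq_one.1 e)
      omega

theorem BorRay_ne (m : ℕ) : linv (l m) ≠ l (m + 1) := fun e => by
  have : a (m + 2) = a m := by rw [ha, ha, ← e, lt_linv, mul_inv_cancel_right]
  have := inj this
  omega

theorem BorRay_back (t : FreeGroup E) :
    ∃ M, ∀ m, M ≤ m → fl ((a (m + 1))⁻¹ * t) = some (linv (l m)) := by
  have e0 : ∀ m, (a (m + 1))⁻¹ * t = (lt (l m))⁻¹ * ((a m)⁻¹ * t) := fun m => by
    rw [ha, mul_inv_rev, mul_assoc]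
  obtain ⟨M, hM⟩ : ∃ M, fl ((a M)⁻¹ * t) ≠ some (l M) := by
    by_contra hn
    push Not at hn
    have : ∀ m, FreeGroup.norm ((a m)⁻¹ * t) + m = FreeGroup.norm ((a 0)⁻¹ * t) := fun m => by
      induction m with
      | zero => rfl
      | succ m ih =>
        have := norm_step (hn m)
        rw [← e0] at this
        omega
    have := this (FreeGroup.norm ((a 0)⁻¹ * t) + 1)
    omega
  have step : ∀ m, fl ((a m)⁻¹ * t) ≠ some (l m) →
      fl ((a (m + 1))⁻¹ * t) = some (linv (l m)) := fun m h => by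
    rw [e0, ← lt_linv, fl_lt_mul (by rwa [linv_linv])]
  refine ⟨M, fun m hm => ?_⟩
  induction m, hm using Nat.le_induction with
  | base => exact step M hM
  | succ m _ ih =>
    exact step _ (by rw [ih]; exact fun e => BorRay_ne ha inj m (Option.some.inj e))

theorem BorRay_two {b : ℕ → FreeGroup E} {l' : ℕ → E × Bool}
    (hb : ∀ m, b (m + 1) = b m * lt (l' m)) {N : ℕ} (hN : ∀ m, N ≤ m → ∀ j, a m ≠ b j) :
    ∃ M, ∀ m, M ≤ m → ∀ j, fl ((a (m + 1))⁻¹ * b j) = some (linv (l m)) := by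
  obtain ⟨M, hM⟩ := BorRay_back ha inj (b 0)
  refine ⟨max M N, fun m hm j => ?_⟩
  have h1 : N ≤ m + 1 := by omega
  induction j with
  | zero => exact hM m (by omega)
  | succ j ih =>
    rw [hb, ← mul_assoc, fl_mul_lt, ih]
    · exact fun e => hN _ h1 _ (inv_mul_eq_one.1 e)
    · intro e
      rw [mul_assoc, ← hb] at e
      exact hN _ h1 _ (inv_mul_eq_one.1 e)

end ray

theorem BorRay_stable {E : Type} {τ : FreeGroup E → Option (E × Bool) → Option (E × Bool) → ℤ}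
    (anti : ∀ u x y, τ u y x = -τ u x y) {a : ℕ → FreeGroup E} {l : ℕ → E × Bool}
    (ha : ∀ m, a (m + 1) = a m * lt (l m)) (inj : Function.Injective a)
    {f : FreeGroup E → FreeGroup E} (finj : Function.Injective f) {s : E × Bool → E × Bool}
    (hf : ∀ u x, f (u * lt x) = f u * lt (s x)) (hs : ∀ x, s (linv x) = linv (s x))
    (hτ : ∀ u x y, τ (f u) (x.map s) (y.map s) = τ u x y) {N : ℕ}
    (hN : ∀ m, N ≤ m → ∀ j, a m ≠ f (a j) ∧ f (a m) ≠ a j) :
    ∃ M, ∀ m, M ≤ m → WW τ (a m) (f (a m)) = WW τ (a M) (f (a M)) := by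
  have hb : ∀ m, f (a (m + 1)) = f (a m) * lt (s (l m)) := fun m => by rw [ha, hf]
  have injb : Function.Injective fun m => f (a m) := finj.comp inj
  obtain ⟨M1, h1⟩ := BorRay_two ha inj (b := fun m => f (a m)) hb fun m hm j => (hN m hm j).1
  obtain ⟨M2, h2⟩ := BorRay_two (a := fun m => f (a m)) hb injb ha fun m hm j => (hN m hm j).2
  refine ⟨max M1 M2 + 1, fun m hm => ?_⟩
  induction m, hm using Nat.le_induction with
  | base => rfl
  | succ m hm ih =>
    obtain ⟨m, rfl⟩ : ∃ m', m = m' + 1 := ⟨m - 1, by omega⟩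
    have e1 := h1 m (by omega) (m + 1)
    have e2 := h2 m (by omega) (m + 1 + 1)
    have s1 := WW_step anti (a := f (a (m + 1))) (b := a (m + 1)) (l := l (m + 1))
      (by rw [e1]; exact fun e => BorRay_ne ha inj m (Option.some.inj e))
    have s2 := WW_step anti (a := a (m + 1 + 1)) (b := f (a (m + 1))) (l := s (l (m + 1)))
      (by rw [e2]; exact fun e => BorRay_ne hb injb m (Option.some.inj e))
    rw [e1, ← ha, WW_anti anti (a (m + 1 + 1)), WW_anti anti (a (m + 1))] at s1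
    rw [e2, ← hb] at s2
    have t1 := hτ (a (m + 1 + 1)) (some (linv (l (m + 1)))) none
    have t2 := hτ (a (m + 1)) (some (linv (l m))) none
    have t3 := hτ (a (m + 1)) (some (linv (l m))) (some (l (m + 1)))
    simp only [Option.map_some, Option.map_none, hs] at t1 t2 t3
    rw [← ih]
    omega

theorem BorRay_fl {E : Type} (σ : FreeGroup E →* FreeGroup E) {s : E × Bool → E × Bool}
    (hσ : ∀ l, σ (lt l) = lt (s l)) (inj : Function.Injective s)
    (hs : ∀ x, s (linv x) = linv (s x)) (n : FreeGroup E) : fl (σ n) = (fl n).map s := by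
  induction n using lt_induction with
  | h1 => rw [map_one, fl_one]; rfl
  | hs l g hl ih =>
    rw [map_mul, hσ, fl_lt_mul hl, fl_lt_mul]
    · rfl
    · rw [ih, ← hs]
      exact fun e => hl (Option.map_injective inj e)

theorem BorRay_W {E : Type} {τ : FreeGroup E → Option (E × Bool) → Option (E × Bool) → ℤ}
    (anti : ∀ u x y, τ u y x = -τ u x y) (f : Equiv.Perm (FreeGroup E))
    {s : E × Bool → E × Bool} (hf : ∀ u v, fl ((f u)⁻¹ * f v) = (fl (u⁻¹ * v)).map s)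
    (hτ : ∀ u x y, τ (f u) (x.map s) (y.map s) = -τ u x y +
      ((if x = none then 1 else 0) - if y = none then 1 else 0)) (a b : FreeGroup E) :
    WW τ (f a) (f b) = -WW τ a b := by
  have one : ∀ a : FreeGroup E, (Function.support fun u =>
      if fl (u⁻¹ * a) = none then (1 : ℤ) else 0).Finite ∧
      ∑ᶠ u, (if fl (u⁻¹ * a) = none then (1 : ℤ) else 0) = 1 := fun a => by
    have z : ∀ u, u ≠ a → (if fl (u⁻¹ * a) = none then (1 : ℤ) else 0) = 0 := fun u hu =>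
      if_neg fun e => hu (inv_mul_eq_one.1 (fl_eq_none.1 e))
    refine ⟨(Set.finite_singleton a).subset fun u hu => by_contra fun e => hu (z u e), ?_⟩
    rw [finsum_eq_single _ a z, inv_mul_cancel, fl_one, if_pos rfl]
  unfold WW
  rw [← finsum_comp_equiv f]
  simp only [hf, hτ]
  rw [finsum_add_distrib, finsum_sub_distrib (one a).1 (one b).1, (one a).2, (one b).2,
    finsum_neg_distrib]
  · simp
  · exact (WW_finite anti a b).subset fun u hu e => hu (by simp only at e ⊢; rw [e, neg_zero])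
  · exact ((one a).1.union (one b).1).subset (Function.support_sub _ _)

theorem ray_cone {G E : Type} [Group G] [MulAction G E] (ex : G → ℤ)
    (ex_mul : ∀ g h, ex (g * h) = ex g + ex h) (σ : G → FreeGroup E →* FreeGroup E)
    (hσ : ∀ g l, σ g (lt l) = lt (g • l.1, xor l.2 (decide (Odd (ex g)))))
    (act : G →* Equiv.Perm (FreeGroup E)) (hact : ∀ g u n, act g (u * n) = act g u * σ g n)
    (lev : FreeGroup E → ℤ) (hlev : ∀ g u, lev (act g u) = lev u + 2 * ex g)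
    (lo : ∀ u, LOon {g | act g u = u}) (K : Subgroup G) [K.Normal] (hK : ∀ k ∈ K, ex k = 0)
    (free : ∀ k ∈ K, ∀ e : E, k • e = e → k = 1) (T : G) (hT : ex T = 1) (l₀ l₁ : E × Bool)
    (hl : act T 1 = lt l₀ * lt l₁) (lev0 : lev 1 = 0) (lev1 : lev (lt l₀) = 1) :
    ∃ P, RevCone K T P := by
  have hN : K.Normal := inferInstance
  let s : G → E × Bool → E × Bool := fun g l => (g • l.1, xor l.2 (decide (Odd (ex g))))
  have sinj : ∀ g, Function.Injective (s g) := fun g x y e => by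
    obtain ⟨e1, e2⟩ := Prod.ext_iff.1 e
    exact Prod.ext (MulAction.injective g e1) (Bool.xor_left_inj.1 e2)
  have slinv : ∀ g x, s g (linv x) = linv (s g x) := fun g x => by simp [s, linv]
  have hfl : ∀ g u v, fl ((act g u)⁻¹ * act g v) = (fl (u⁻¹ * v)).map (s g) := fun g u v => by
    rw [← BorRay_fl (σ g) (hσ g) (sinj g) (slinv g)]
    congr 1
    rw [inv_mul_eq_iff_eq_mul, ← hact, mul_inv_cancel_left]
  have ex1 : ex 1 = 0 := by
    have := ex_mul 1 1
    rw [mul_one] at this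
    omega
  have exT : ∀ n : ℤ, ex (T ^ n) = n := fun n => by
    induction n using Int.induction_on with
    | zero => simpa using ex1
    | succ n ih => rw [zpow_add_one, ex_mul, ih, hT]
    | pred n ih =>
      have := ex_mul (T ^ (-(n : ℤ) - 1)) T
      rw [← zpow_add_one, sub_add_cancel] at this
      omega
  let H : Subgroup G :=
    { carrier := {g | ∃ n : ℤ, g * T ^ n ∈ K}
      mul_mem' := fun {g h} ⟨n, hn⟩ ⟨m, hm⟩ => ⟨m + n, by
        have := K.mul_mem (hN.conj_mem _ hm g) hn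
        rwa [show g * (h * T ^ m) * g⁻¹ * (g * T ^ n) = g * h * T ^ (m + n) by group] at this⟩
      one_mem' := ⟨0, by simp⟩
      inv_mem' := fun {g} ⟨n, hn⟩ => ⟨-n, by
        have := hN.conj_mem _ (K.inv_mem hn) g⁻¹
        rwa [show g⁻¹ * (g * T ^ n)⁻¹ * g⁻¹⁻¹ = g⁻¹ * T ^ (-n) by group] at this⟩ }
  have hKH : ∀ k ∈ K, k ∈ H := fun k hk => ⟨0, by simpa using hk⟩
  have hTH : T ∈ H := ⟨-1, by simp⟩
  obtain ⟨c, hc, hci⟩ := BorRay_local (E := E) ex ex_mul act lo H fun h ⟨n, hn⟩ u hu => by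
    have e0 : ex h = 0 := by
      have := hlev h u
      rw [hu] at this
      omega
    have e1 := hK _ hn
    rw [ex_mul, exT, e0, zero_add] at e1
    rw [e1, zpow_zero, mul_one] at hn
    exact ⟨e0, free h hn⟩
  let cm : FreeGroup E → E × Bool → E × Bool → ℤ := fun u x y => c u x.1 y.1
  have canti : ∀ u x y, cm u y x = -cm u x y := fun u x y => (hc u).anti _ _
  have anti := tau_anti canti
  have tK : ∀ k ∈ K, ∀ u x y, tau cm (act k u) (x.map (s k)) (y.map (s k)) = tau cm u x y := by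
    intro k hk u x y
    have := hci k (hKH k hk) u
    rcases x with _ | ⟨x, _ | _⟩ <;> rcases y with _ | ⟨y, _ | _⟩ <;>
      simp [tau, s, cm, this, hK k hk, BorRayChi]
  have tT : ∀ u x y, tau cm (act T u) (x.map (s T)) (y.map (s T)) = -tau cm u x y +
      ((if x = none then 1 else 0) - if y = none then 1 else 0) := by
    intro u x y
    have := hci T hTH u
    rcases x with _ | ⟨x, _ | _⟩ <;> rcases y with _ | ⟨y, _ | _⟩ <;>
      simp [tau, s, cm, this, hT, BorRayChi]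
  have WK : ∀ k ∈ K, ∀ x y, WW (tau cm) (act k x) (act k y) = WW (tau cm) x y := by
    intro k hk x y
    unfold WW
    rw [← finsum_comp_equiv (act k)]
    simp only [hfl, tK k hk]
  have WT := BorRay_W anti (act T) (hfl T) tT
  have Wd : ∀ x y z, WW (tau cm) x y + WW (tau cm) y z + WW (tau cm) z x ≤ 1 := fun x y z =>
    WW_defect anti fun w h1 h2 h3 => tau_defect canti h1 h2 h3 (fun _ _ => (hc w).le _ _)
      fun _ _ _ _ _ _ _ _ => (hc w).tri _ _ _
  have Wo : ∀ x y, x ≠ y → Odd (WW (tau cm) x y) := fun x y e =>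
    WW_parity canti (P := Set.univ) (fun _ _ _ _ _ _ => trivial)
      (fun u _ _ _ _ _ x y _ _ h1 h2 => by
        rcases (hc u).val x.1 y.1 fun e => h1 (Prod.ext e h2) with h | h <;>
          simp [cm, h]) trivial trivial e
  obtain ⟨a, a0, a1, a2⟩ : ∃ a : ℕ → FreeGroup E, a 0 = 1 ∧ a 1 = lt l₀ ∧
      ∀ m, a (m + 2) = act T (a m) :=
    ⟨fun m => Nat.twoStepInduction 1 (lt l₀) (fun _ x _ => act T x) m, rfl, rfl, fun _ => rfl⟩
  obtain ⟨l, l0, l1, l2⟩ : ∃ l : ℕ → E × Bool, l 0 = l₀ ∧ l 1 = l₁ ∧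
      ∀ m, l (m + 2) = s T (l m) :=
    ⟨fun m => Nat.twoStepInduction l₀ l₁ (fun _ x _ => s T x) m, rfl, rfl, fun _ => rfl⟩
  have hf : ∀ g u x, act g (u * lt x) = act g u * lt (s g x) := fun g u x => by rw [hact, hσ]
  have ha : ∀ m, a (m + 1) = a m * lt (l m) := fun m => by
    induction m using Nat.twoStepInduction with
    | zero => rw [a0, l0, one_mul, zero_add, a1]
    | one => rw [a2 0, a0, a1, l1, hl]
    | more m ih _ => rw [a2 (m + 1), ih, hf, a2, l2]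
  have la : ∀ m, lev (a m) = m := fun m => by
    induction m using Nat.twoStepInduction with
    | zero => rw [a0, lev0]; rfl
    | one => rw [a1, lev1]; rfl
    | more m ih _ => rw [a2, hlev, ih, hT]; push_cast; ring
  have inj : Function.Injective a := fun m j e => by
    have := la m
    rw [e, la] at this
    omega
  have stab : ∀ k ∈ K, k ≠ 1 → ∃ M w, Odd w ∧ ∀ m, M ≤ m →
      WW (tau cm) (a m) (act k (a m)) = w := fun k hk hk1 => by
    obtain ⟨N, hN⟩ : ∃ N, ∀ m, N ≤ m → a m ≠ act k (a m) := by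
      by_cases e : ∃ m, a m = act k (a m)
      · obtain ⟨m, e⟩ := e
        refine ⟨m + 1, fun j hj e' => hk1 (free k hk (l m).1 ?_)⟩
        have := hfl k (a m) (a j)
        rw [← e, ← e', BorRay_fwd ha inj hj] at this
        exact (congrArg Prod.fst (Option.some.inj this)).symm
      · exact ⟨0, fun m _ e' => e ⟨m, e'⟩⟩
    have hj : ∀ m j, a m = act k (a j) → m = j := fun m j e => by
      have := la m
      rw [e, hlev, la, hK k hk] at this
      omega
    obtain ⟨M, hM⟩ := BorRay_stable anti ha inj (act k).injective (hf k) (slinv k) (tK k hk)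
      (N := N) fun m hm j => ⟨fun e => hN m hm (by rwa [← hj _ _ e] at e),
        fun e => hN m hm (by rw [hj _ _ e.symm] at e; exact e.symm)⟩
    refine ⟨M, _, ?_, hM⟩
    rw [← hM (max M N) (le_max_left _ _)]
    exact Wo _ _ (hN _ (le_max_right _ _))
  have Winv : ∀ k ∈ K, ∀ x, WW (tau cm) x (act k⁻¹ x) = -WW (tau cm) x (act k x) := by
    intro k hk x
    rw [← WK k hk, ← Equiv.Perm.mul_apply, ← map_mul, mul_inv_cancel, map_one,
      Equiv.Perm.one_apply, WW_anti anti]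
  refine ⟨{k | k ∈ K ∧ ∃ M, ∀ m, M ≤ m → 0 < WW (tau cm) (a m) (act k (a m))}, ?_, ?_, ?_, ?_⟩
  · rintro g ⟨hg, M, hM⟩ h ⟨hh, M', hM'⟩
    refine ⟨K.mul_mem hg hh, max M M', fun m hm => ?_⟩
    have h1 := hM m (by omega)
    have h2 := hM' m (by omega)
    have h3 := Wd (a m) (act g (a m)) (act g (act h (a m)))
    rw [WK g hg, WW_anti anti (a m) (act g (act h (a m)))] at h3
    rw [map_mul, Equiv.Perm.mul_apply]
    omega
  · rintro ⟨-, M, hM⟩
    have := hM M le_rfl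
    rw [map_one, Equiv.Perm.one_apply, WW_self anti] at this
    exact lt_irrefl _ this
  · intro g hg hg1
    obtain ⟨M, w, hw, hM⟩ := stab g hg hg1
    rcases lt_trichotomy w 0 with h | h | h
    · exact Or.inr ⟨K.inv_mem hg, M, fun m hm => by rw [Winv g hg, hM m hm]; omega⟩
    · rw [h] at hw
      exact absurd hw (by decide)
    · exact Or.inl ⟨hg, M, fun m hm => by rw [hM m hm]; exact h⟩
  · intro g
    have key : g ∈ K → ∀ m, WW (tau cm) (a (m + 2)) (act (T * g⁻¹ * T⁻¹) (a (m + 2))) =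
        WW (tau cm) (a m) (act g (a m)) := fun hg m => by
      rw [a2, ← Equiv.Perm.mul_apply, ← map_mul, inv_mul_cancel_right, map_mul,
        Equiv.Perm.mul_apply, WT, Winv g hg, neg_neg]
    constructor
    · rintro ⟨hg, M, hM⟩
      refine ⟨hN.conj_mem _ (K.inv_mem hg) T, M + 2, fun m hm => ?_⟩
      obtain ⟨m, rfl⟩ : ∃ m', m = m' + 2 := ⟨m - 2, by omega⟩
      rw [key hg]
      exact hM m (by omega)
    · rintro ⟨hg, M, hM⟩
      have hg' : g ∈ K := by
        have := K.inv_mem (hN.conj_mem _ hg T⁻¹)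
        rwa [show (T⁻¹ * (T * g⁻¹ * T⁻¹) * T⁻¹⁻¹)⁻¹ = g by group] at this
      refine ⟨hg', M, fun m hm => ?_⟩
      rw [← key hg']
      exact hM _ (by omega)

end Pool.Agent.Work.MP_3d425c_gt.Bor
end

-- merged part: Pool.Agent.Work.MP_3d425c_gt.BorTree
section
/-! The tree of pieces of the graph manifold group. -/

namespace Pool.Agent.Work.MP_3d425c_gt.Bor

open SemidirectProduct

section
variable {G E : Type} [Group G] (ex : G → ℤ) (ex_mul : ∀ g h, ex (g * h) = ex g + ex h)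
include ex_mul

theorem tree_ex_one : ex 1 = 0 := by have := ex_mul 1 1; rw [one_mul] at this; omega

theorem tree_ex_inv (g : G) : ex g⁻¹ = -ex g := by
  have := ex_mul g g⁻¹
  rw [mul_inv_cancel, tree_ex_one ex ex_mul] at this
  omega

theorem tree_ex_zpow {g : G} (hg : ex g = 0) (n : ℤ) : ex (g ^ n) = 0 := by
  induction n using Int.induction_on with
  | zero => rw [zpow_zero, tree_ex_one ex ex_mul]
  | succ n ih => rw [zpow_add_one, ex_mul, ih, hg, add_zero]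
  | pred n ih => rw [zpow_sub_one, ex_mul, ih, tree_ex_inv ex ex_mul, hg]; rfl

theorem tree_ex_closure {a b : G} (ha : ex a = 0) (hb : ex b = 0) {g : G}
    (hg : g ∈ Subgroup.closure {a, b}) : ex g = 0 := by
  induction hg using Subgroup.closure_induction with
  | mem x hx => rcases hx with rfl | rfl <;> assumption
  | one => exact tree_ex_one ex ex_mul
  | mul x y _ _ h1 h2 => rw [ex_mul, h1, h2, add_zero]
  | inv x _ h => rw [tree_ex_inv ex ex_mul, h, neg_zero]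

theorem tree_sigma [MulAction G E] : ∃ σ : G →* MulAut (FreeGroup E),
    ∀ g l, σ g (lt l) = lt (g • l.1, xor l.2 (decide (Odd (ex g)))) := by
  let s : G → FreeGroup E →* FreeGroup E := fun g =>
    FreeGroup.lift fun e => lt (g • e, xor true (decide (Odd (ex g))))
  have h1 : ∀ g l, s g (lt l) = lt (g • l.1, xor l.2 (decide (Odd (ex g)))) := by
    rintro g ⟨e, _ | _⟩
    · rw [lt_false, map_inv, FreeGroup.lift_apply_of, ← lt_linv]
      simp [linv]
    · rw [lt_true, FreeGroup.lift_apply_of]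
  have h2 : ∀ g h u, s (g * h) u = s g (s h u) := fun g h =>
    DFunLike.congr_fun (show s (g * h) = (s g).comp (s h) from FreeGroup.ext_hom _ _ fun e => by
      rw [MonoidHom.comp_apply, ← lt_true, h1, h1, h1, mul_smul, ex_mul]
      congr 2
      by_cases a : Odd (ex g) <;> by_cases b : Odd (ex h) <;>
        simp [Int.odd_add, a, b, ← Int.not_odd_iff_even])
  have h3 : ∀ u, s 1 u = u := DFunLike.congr_fun (show s 1 = MonoidHom.id _ from
    FreeGroup.ext_hom _ _ fun e => by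
      rw [MonoidHom.id_apply, ← lt_true, h1, one_smul, tree_ex_one ex ex_mul]
      simp)
  exact ⟨{ toFun := fun g =>
            { toFun := s g
              invFun := s g⁻¹
              left_inv := fun u => by rw [← h2, inv_mul_cancel, h3]
              right_inv := fun u => by rw [← h2, mul_inv_cancel, h3]
              map_mul' := map_mul _ }
           map_one' := MulEquiv.ext h3
           map_mul' := fun g h => MulEquiv.ext (h2 g h) }, h1⟩

theorem tree_core {V : Type} [MulAction G E] [MulAction G V] {α β T : G} {p₁ q₁ p₂ q₂ : ℤ}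
    (U : Uni α β T p₁ q₁ p₂ q₂) (exα : ex α = 0) (exβ : ex β = 0) (exT : ex T = 1)
    (o t : E → V) (ho : ∀ (g : G) e, o (g • e) = g • o e) (ht : ∀ (g : G) e, t (g • e) = g • t e)
    (e₀ e₁ : E) (a0 : α ^ q₁ • e₀ = e₀) (b0 : β ^ q₂ • e₀ = e₀) (a1 : α ^ q₁ • e₁ = e₁)
    (b1 : (β ^ q₂ * α ^ p₁) • e₁ = e₁) (hα : α • o e₀ = o e₀) (hβ : β • t e₀ = t e₀)
    (h1 : o e₁ = T • t e₀) (h2 : t e₁ = o e₀) :
    ∃ (σ : G → FreeGroup E →* FreeGroup E) (act : G →* Equiv.Perm (FreeGroup E))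
      (en : FreeGroup E → V),
      (∀ g l, σ g (lt l) = lt (g • l.1, xor l.2 (decide (Odd (ex g))))) ∧
      (∀ g u n, act g (u * n) = act g u * σ g n) ∧ (∀ g u, en (act g u) = g • en u) ∧
      act T 1 = lt (e₁, true) * lt (T • e₀, true) ∧ en 1 = o e₀ ∧ en (lt (e₁, true)) = o e₁ := by
  classical
  obtain ⟨σ, hσ⟩ := tree_sigma (E := E) ex ex_mul
  have hc : ∀ (g : G) (e : E), ex g = 0 → g • e = e → Commute (inr g : FreeGroup E ⋊[σ] G)
      (inl (lt (e, true))) := by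
    intro g e h0 h
    have : σ g (lt (e, true)) = lt (e, true) := by rw [hσ, h, h0]; simp
    have h' := inl_aut (φ := σ) g (lt (e, true))
    rw [this, map_inv, eq_mul_inv_iff_mul_eq] at h'
    exact h'.symm
  have zA := tree_ex_zpow ex ex_mul exα q₁
  have zB := tree_ex_zpow ex ex_mul exβ q₂
  have cA0 := hc _ _ zA a0
  have cB0 := hc _ _ zB b0
  have cA1 := hc _ _ zA a1
  have cb1 := hc _ _ (by rw [ex_mul, zB, tree_ex_zpow ex ex_mul exα, add_zero]) b1
  set x : FreeGroup E ⋊[σ] G := inl (lt (e₀, true)) with hx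
  set y : FreeGroup E ⋊[σ] G := inl (lt (e₁, true)) with hy
  have eB : (x * inr β * x⁻¹) ^ q₂ = inr (β ^ q₂) := by
    rw [conj_zpow, ← map_zpow, ← cB0.eq, mul_inv_cancel_right]
  obtain ⟨θ, t1, t2, t3⟩ := U.lift _ (inr α) (x * inr β * x⁻¹) (y * inr T * x⁻¹) ⟨by
    rw [eB, ← map_zpow, ← map_mul, mul_assoc, ← cB0.inv_right.eq, ← mul_assoc, mul_assoc y,
      ← map_mul, U.rel.r1, map_mul _ _ T, ← mul_assoc y, ← cb1.eq]
    simp only [mul_assoc], by
    rw [conj_zpow, ← map_zpow, ← map_zpow, ← mul_assoc (inr _), ← mul_assoc (inr _), cA0.eq,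
      ← mul_assoc (inr _), ← mul_assoc (inr _), cA1.eq, mul_assoc y (inr _) (inr T), ← map_mul,
      ← U.rel.r2, map_mul, map_mul]
    simp only [mul_assoc, inv_mul_cancel_left], by
    rw [eB, ← map_zpow, ← map_mul, ← map_mul, U.rel.comm]⟩
  have hθ : ∀ g, (θ g).right = g := DFunLike.congr_fun (show rightHom.comp θ = MonoidHom.id G from
    MonoidHom.eq_of_eqOn_dense U.gen (by
      rintro g (rfl | rfl | rfl) <;> simp [t1, t2, t3, hx, hy]))
  let ρ : FreeGroup E ⋊[σ] G →* Equiv.Perm (FreeGroup E) :=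
    lift (MulAction.toPermHom _ _) ((MulAut.toPerm _).comp σ) fun g => MonoidHom.ext fun n =>
      Equiv.ext fun u => by simp [MulAut.toPerm]
  have hρ : ∀ g u, ρ (θ g) u = (θ g).left * σ g u := fun g u => by
    conv_rhs => rw [← hθ g]
    rw [hθ]
    conv_lhs => rw [← inl_left_mul_inr_right (θ g), map_mul, lift_inl, lift_inr, hθ]
    rfl
  let π : FreeGroup E →* Equiv.Perm V := FreeGroup.lift fun e => Equiv.swap (o e) (t e)
  have hπ : ∀ l, π (lt l) = Equiv.swap (o l.1) (t l.1) := by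
    rintro ⟨e, _ | _⟩
    · rw [lt_false, map_inv, FreeGroup.lift_apply_of, Equiv.swap_inv]
    · rw [lt_true, FreeGroup.lift_apply_of]
  have hπσ : ∀ g, π.comp (σ g).toMonoidHom =
      (MulAut.conj (MulAction.toPermHom G V g)).toMonoidHom.comp π := fun g =>
    FreeGroup.ext_hom _ _ fun e => by
      change π (σ g (lt (e, true))) = _ * π (lt (e, true)) * _
      rw [hσ, hπ, hπ, ← Equiv.swap_apply_apply, ho, ht]
      rfl
  let Pi : FreeGroup E ⋊[σ] G →* Equiv.Perm V := lift π (MulAction.toPermHom G V) hπσ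
  have px : Pi x = Equiv.swap (o e₀) (t e₀) := (lift_inl _ _ _ _).trans (hπ _)
  have py : Pi y = Equiv.swap (o e₁) (t e₁) := (lift_inl _ _ _ _).trans (hπ _)
  have pr : ∀ g v, Pi (inr g) v = g • v := fun g v => by rw [lift_inr]; rfl
  have hfix : ∀ g, Pi (θ g) (o e₀) = o e₀ := by
    intro g
    have : Subgroup.closure {α, β, T} ≤
        (MulAction.stabilizer (Equiv.Perm V) (o e₀)).comap (Pi.comp θ) := by
      rw [Subgroup.closure_le]
      rintro g (rfl | rfl | rfl) <;> change Pi (θ _) (o e₀) = o e₀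
      · rw [t1, pr, hα]
      · rw [t2, map_mul, map_mul, map_inv, px, Equiv.swap_inv, Equiv.Perm.mul_apply,
          Equiv.Perm.mul_apply, Equiv.swap_apply_left, pr, hβ, Equiv.swap_apply_right]
      · rw [t3, map_mul, map_mul, map_inv, px, py, Equiv.swap_inv, Equiv.Perm.mul_apply,
          Equiv.Perm.mul_apply, Equiv.swap_apply_left, pr, ← h1, Equiv.swap_apply_left, h2]
    exact this (U.gen ▸ Subgroup.mem_top g)
  refine ⟨fun g => (σ g).toMonoidHom, ρ.comp θ, fun u => (π u)⁻¹ (o e₀), hσ, fun g u n => ?_,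
    fun g u => ?_, ?_, by simp, ?_⟩
  · rw [MonoidHom.comp_apply, hρ, hρ, map_mul, mul_assoc]
    rfl
  · have a := hfix g
    rw [← inl_left_mul_inr_right (θ g), map_mul, lift_inl, hθ, Equiv.Perm.mul_apply, pr,
      ← Equiv.Perm.eq_inv_iff_eq] at a
    have b : π (σ g u) = _ * π u * _ := DFunLike.congr_fun (hπσ g) u
    simp only [MonoidHom.comp_apply, hρ, map_mul, mul_inv_rev, Equiv.Perm.mul_apply, ← a, b]
    simp
  · rw [MonoidHom.comp_apply, hρ, map_one, mul_one, t3, hx, hy]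
    simp only [mul_left, left_inl, right_inl, left_inr, map_one, mul_one, mul_right, right_inr,
      one_mul, ← map_inv]
    rw [← lt_linv, hσ, exT]
    simp [linv]
  · simp only [hπ, Equiv.swap_inv, ← h2, Equiv.swap_apply_right]

end

theorem tree_pair {G : Type} [Group G] {a b g : G} (h : Commute a b)
    (hg : g ∈ Subgroup.closure {a, b}) : ∃ i j : ℤ, g = a ^ i * b ^ j := by
  induction hg using Subgroup.closure_induction with
  | mem x hx =>
    rcases hx with rfl | rfl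
    · exact ⟨1, 0, by simp⟩
    · exact ⟨0, 1, by simp⟩
  | one => exact ⟨0, 0, by simp⟩
  | mul x y _ _ h1 h2 =>
    obtain ⟨i, j, rfl⟩ := h1
    obtain ⟨k, l, rfl⟩ := h2
    exact ⟨i + k, j + l, by rw [zpow_add, zpow_add, (h.zpow_zpow k j).mul_mul_mul_comm]⟩
  | inv x _ h1 =>
    obtain ⟨i, j, rfl⟩ := h1
    exact ⟨-i, -j, by rw [mul_inv_rev, (h.zpow_zpow _ _).eq, zpow_neg, zpow_neg]⟩

theorem tree_free {G : Type} [Group G] {a b : G} (h : Commute a b) {K : Subgroup G} [hK : K.Normal]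
    (f : ∀ i j : ℤ, a ^ i * b ^ j ∈ K → i = 0 ∧ j = 0) {k : G} (hk : k ∈ K)
    (e : G ⧸ Subgroup.closure {a, b}) (he : k • e = e) : k = 1 := by
  obtain ⟨g, rfl⟩ := QuotientGroup.mk_surjective e
  rw [MulAction.Quotient.smul_mk, eq_comm, QuotientGroup.eq, smul_eq_mul, ← mul_assoc] at he
  obtain ⟨i, j, h1⟩ := tree_pair h he
  obtain ⟨rfl, rfl⟩ := f i j (h1 ▸ hK.conj_mem' k hk g)
  simpa [mul_assoc, inv_mul_eq_one] using h1

theorem tree_lo {G : Type} [Group G] {H : Subgroup G} (lo : LOon (H : Set G)) (v : G ⧸ H)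
    {S : Set G} (hS : ∀ g ∈ S, g • v = v) : LOon S := by
  obtain ⟨h, rfl⟩ := QuotientGroup.mk_surjective v
  obtain ⟨P, h1, h2, h3⟩ := lo
  refine ⟨{g | h⁻¹ * g * h ∈ P}, fun a ha b hb => ?_, by simpa using h2, fun g hg hg' => ?_⟩
  · have := h1 _ ha _ hb
    simpa [mul_assoc] using this
  · have a := hS g hg
    rw [MulAction.Quotient.smul_mk, eq_comm, QuotientGroup.eq, smul_eq_mul, ← mul_assoc] at a
    have := h3 _ a fun c => hg' (by simpa [mul_assoc, inv_mul_eq_one] using c)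
    simpa [mul_assoc] using this

/-- an equivariant map of coset spaces -/
theorem tree_map {G : Type} [Group G] (C P : Subgroup G) (s : G) (h : ∀ c ∈ C, s⁻¹ * c * s ∈ P) :
    ∃ f : G ⧸ C → G ⧸ P, (∀ (g : G) e, f (g • e) = g • f e) ∧ f (1 : G) = (s : G ⧸ P) := by
  refine ⟨Quotient.lift (fun g => ((g * s : G) : G ⧸ P)) fun a b hab => ?_, fun g e => ?_, ?_⟩
  · have := h _ (QuotientGroup.leftRel_apply.1 hab)
    rw [QuotientGroup.eq]
    simpa [mul_assoc] using this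
  · obtain ⟨a, rfl⟩ := QuotientGroup.mk_surjective e
    change ((g * a * s : G) : G ⧸ P) = ((g * (a * s) : G) : G ⧸ P)
    rw [mul_assoc]
  · change ((1 * s : G) : G ⧸ P) = _
    rw [one_mul]

theorem tree_fix {G : Type} [Group G] {C : Subgroup G} {g : G} (h : g ∈ C) :
    g • ((1 : G) : G ⧸ C) = (1 : G) := by
  rw [MulAction.Quotient.smul_mk, eq_comm, QuotientGroup.eq]
  simpa using h

theorem tree_cone {G : Type} [Group G] {α β T : G} {p₁ q₁ p₂ q₂ : ℤ} (U : Uni α β T p₁ q₁ p₂ q₂)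
    (ex : G → ℤ) (ex_mul : ∀ g h, ex (g * h) = ex g + ex h) (exα : ex α = 0) (exβ : ex β = 0)
    (exT : ex T = 1) (K : Subgroup G) [K.Normal] (hK : ∀ k ∈ K, ex k = 0)
    (f1 : ∀ i j : ℤ, (α ^ q₁) ^ i * (β ^ q₂) ^ j ∈ K → i = 0 ∧ j = 0)
    (f2 : ∀ i j : ℤ, (α ^ q₁ * β ^ p₂) ^ i * (β ^ q₂) ^ j ∈ K → i = 0 ∧ j = 0)
    (lo1 : LOon (Subgroup.closure {α, β ^ q₂} : Set G))
    (lo2 : LOon (Subgroup.closure {β, α ^ q₁} : Set G)) : ∃ P, RevCone K T P := by
  have m1 : ∀ a b : G, a ∈ Subgroup.closure {a, b} := fun a b =>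
    Subgroup.subset_closure (Or.inl rfl)
  have m2 : ∀ a b : G, b ∈ Subgroup.closure {a, b} := fun a b =>
    Subgroup.subset_closure (Or.inr rfl)
  have cl : ∀ (a b s : G) (P : Subgroup G), s⁻¹ * a * s ∈ P → s⁻¹ * b * s ∈ P →
      ∀ c ∈ Subgroup.closure {a, b}, s⁻¹ * c * s ∈ P := by
    intro a b s P ha hb c hc
    have : Subgroup.closure {a, b} ≤ P.comap (MulAut.conj s⁻¹).toMonoidHom := by
      rw [Subgroup.closure_le]
      rintro g (rfl | rfl)
      · simpa using ha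
      · simpa using hb
    simpa using this hc
  have c1 : Commute (α ^ q₁) (β ^ q₂) := U.rel.comm
  have c2 : Commute (α ^ q₁ * β ^ p₂) (β ^ q₂) := c1.mul_left (Commute.zpow_zpow_self _ _ _)
  obtain ⟨o1, ho1, ho1'⟩ := tree_map _ (Subgroup.closure {α, β ^ q₂}) 1 (cl (α ^ q₁) (β ^ q₂) 1 _
    (by simpa using zpow_mem (m1 _ _) _) (by simpa using m2 _ _))
  obtain ⟨t1, ht1, ht1'⟩ := tree_map _ (Subgroup.closure {β, α ^ q₁}) 1 (cl (α ^ q₁) (β ^ q₂) 1 _
    (by simpa using m2 _ _) (by simpa using zpow_mem (m1 _ _) _))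
  obtain ⟨o2, ho2, ho2'⟩ := tree_map _ (Subgroup.closure {β, α ^ q₁}) 1
    (cl (α ^ q₁ * β ^ p₂) (β ^ q₂) 1 _
      (by simpa using mul_mem (m2 _ _) (zpow_mem (m1 _ _) _)) (by simpa using zpow_mem (m1 _ _) _))
  obtain ⟨t2, ht2, ht2'⟩ := tree_map _ (Subgroup.closure {α, β ^ q₂}) T⁻¹
    (cl (α ^ q₁ * β ^ p₂) (β ^ q₂) T⁻¹ _
      (by rw [inv_inv, U.rel.r2, mul_inv_cancel_right]; exact zpow_mem (m1 _ _) _)
      (by rw [inv_inv, U.rel.r1, mul_inv_cancel_right]
          exact mul_mem (m2 _ _) (zpow_mem (m1 _ _) _)))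
  have l1 : ∀ a b : G, ex a = 0 → ex b = 0 → ∃ f : G ⧸ Subgroup.closure {a, b} → ℤ,
      (∀ (g : G) v, f (g • v) = f v + 2 * ex g) ∧ f (1 : G) = 0 := by
    intro a b ha hb
    refine ⟨Quotient.lift (fun g => 2 * ex g) fun x y h => ?_, fun g v => ?_, ?_⟩
    · have := tree_ex_closure ex ex_mul ha hb (QuotientGroup.leftRel_apply.1 h)
      rw [ex_mul, tree_ex_inv ex ex_mul] at this
      omega
    · obtain ⟨x, rfl⟩ := QuotientGroup.mk_surjective v
      change 2 * ex (g * x) = 2 * ex x + _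
      rw [ex_mul]
      ring
    · change 2 * ex 1 = 0
      rw [tree_ex_one ex ex_mul, mul_zero]
  obtain ⟨v1, hv1, hv1'⟩ := l1 α (β ^ q₂) exα (tree_ex_zpow ex ex_mul exβ _)
  obtain ⟨v2, hv2, hv2'⟩ := l1 β (α ^ q₁) exβ (tree_ex_zpow ex ex_mul exα _)
  obtain ⟨σ, act, en, h1, h2, h3, h4, h5, h6⟩ := tree_core ex ex_mul U exα exβ exT
    (Sum.elim (Sum.inl ∘ o1) (Sum.inr ∘ o2)) (Sum.elim (Sum.inr ∘ t1) (Sum.inl ∘ t2))
    (by rintro g (e | e) <;> simp [ho1, ho2]) (by rintro g (e | e) <;> simp [ht1, ht2])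
    (Sum.inl (1 : G)) (Sum.inr (T • ((1 : G) : G ⧸ _)))
    (by rw [Sum.smul_inl, tree_fix (m1 _ _)]) (by rw [Sum.smul_inl, tree_fix (m2 _ _)])
    (by rw [Sum.smul_inr, ← mul_smul, ← U.rel.r2, mul_smul, tree_fix (m1 _ _)])
    (by rw [Sum.smul_inr, ← mul_smul, ← U.rel.r1, mul_smul, tree_fix (m2 _ _)])
    (by simp only [Sum.elim_inl, Function.comp, ho1', Sum.smul_inl, tree_fix (m1 _ _)])
    (by simp only [Sum.elim_inl, Function.comp, ht1', Sum.smul_inr, tree_fix (m1 _ _)])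
    (by simp only [Sum.elim_inl, Sum.elim_inr, Function.comp, ht1', ho2, ho2', Sum.smul_inr])
    (by simp only [Sum.elim_inl, Sum.elim_inr, Function.comp, ho1', ht2, ht2']
        rw [MulAction.Quotient.smul_mk, smul_eq_mul, mul_inv_cancel])
  refine ray_cone ex ex_mul σ h1 act h2 (fun u => Sum.elim v1 (fun v => v2 v - 1) (en u))
    (fun g u => ?_) (fun u => ?_) K hK (fun k hk e he => ?_) T exT _ _ h4 ?_ ?_
  · rw [h3]
    rcases en u with v | v
    · simp [hv1]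
    · simp only [Sum.smul_inr, Sum.elim_inr, hv2]
      ring
  · have : ∀ g ∈ {g | act g u = u}, g • en u = en u := fun g hg => by rw [← h3, hg]
    rcases hu : en u with v | v <;> rw [hu] at this
    · exact tree_lo lo1 v fun g hg => Sum.inl_injective (this g hg)
    · exact tree_lo lo2 v fun g hg => Sum.inr_injective (this g hg)
  · rcases e with e | e
    · exact tree_free c1 f1 hk e (Sum.inl_injective he)
    · exact tree_free c2 f2 hk e (Sum.inr_injective he)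
  · simp only [h5, Sum.elim_inl, Function.comp, ho1', hv1']
  · simp only [h6, Sum.elim_inr, Function.comp, ho2, ho2', hv2, hv2', exT]
    rfl

end Pool.Agent.Work.MP_3d425c_gt.Bor
end

-- merged part: Pool.Agent.Work.MP_3d425c_gt.BorAff
section
/-! The affine action on the lexicographic plane, and the order on the cosets of `T`. -/

namespace Pool.Agent.Work.MP_3d425c_gt.Bor

theorem borAff_ex_one {G : Type} [Group G] {ex : G → ℤ}
    (ex_mul : ∀ g h, ex (g * h) = ex g + ex h) : ex 1 = 0 := by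
  have := ex_mul 1 1
  rw [mul_one] at this
  omega

theorem borAff_ex_inv {G : Type} [Group G] {ex : G → ℤ}
    (ex_mul : ∀ g h, ex (g * h) = ex g + ex h) (g : G) : ex g⁻¹ = -ex g := by
  have := ex_mul g g⁻¹
  rw [mul_inv_cancel, borAff_ex_one ex_mul] at this
  omega

theorem borAff_ex_zpow {G : Type} [Group G] {ex : G → ℤ}
    (ex_mul : ∀ g h, ex (g * h) = ex g + ex h) (g : G) (n : ℤ) : ex (g ^ n) = n * ex g := by
  induction n using Int.induction_on with
  | zero => simpa using borAff_ex_one ex_mul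
  | succ n ih => rw [zpow_add_one, ex_mul, ih]; ring
  | pred n ih => rw [zpow_sub_one, ex_mul, ih, borAff_ex_inv ex_mul]; ring

theorem borAff_sign {G Y : Type} [Group G] [LinearOrder Y] (ρ : G →* Equiv.Perm Y) {ex : G → ℤ}
    (ex_mul : ∀ g h, ex (g * h) = ex g + ex h) {S : Set G} (gen : Subgroup.closure S = ⊤)
    (hS : ∀ g ∈ S, (Even (ex g) ∧ StrictMono (ρ g)) ∨ (Odd (ex g) ∧ StrictAnti (ρ g))) (g : G) :
    (Even (ex g) ∧ StrictMono (ρ g)) ∨ (Odd (ex g) ∧ StrictAnti (ρ g)) := by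
  have hg : g ∈ Subgroup.closure S := gen ▸ Subgroup.mem_top g
  induction hg using Subgroup.closure_induction with
  | mem x hx => exact hS x hx
  | one =>
    left
    rw [borAff_ex_one ex_mul, map_one]
    exact ⟨Even.zero, strictMono_id⟩
  | mul x y _ _ hx hy =>
    rw [ex_mul, map_mul, Equiv.Perm.coe_mul]
    rcases hx with ⟨e1, m1⟩ | ⟨e1, m1⟩ <;> rcases hy with ⟨e2, m2⟩ | ⟨e2, m2⟩
    · exact Or.inl ⟨e1.add e2, m1.comp m2⟩
    · exact Or.inr ⟨e1.add_odd e2, m1.comp_strictAnti m2⟩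
    · exact Or.inr ⟨e1.add_even e2, m1.comp_strictMono m2⟩
    · exact Or.inl ⟨e1.add_odd e2, m1.comp m2⟩
  | inv x _ hx =>
    rw [borAff_ex_inv ex_mul, map_inv]
    rcases hx with ⟨e1, m1⟩ | ⟨e1, m1⟩
    · refine Or.inl ⟨e1.neg, fun u v huv => ?_⟩
      rw [← m1.lt_iff_lt]
      simpa using huv
    · refine Or.inr ⟨e1.neg, fun u v huv => ?_⟩
      rw [← m1.lt_iff_gt]
      simpa using huv

/-- The additive permutations of an additive group. -/
def borAffAdd (Y : Type) [AddCommGroup Y] : Subgroup (Equiv.Perm Y) where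
  carrier := {π | ∀ x y, π (x + y) = π x + π y}
  one_mem' := fun _ _ => rfl
  mul_mem' := fun {π σ} hπ hσ x y => by
    simp only [Equiv.Perm.coe_mul, Function.comp_apply]
    rw [hσ, hπ]
  inv_mem' := fun {π} hπ x y => by
    apply π.injective
    rw [hπ]
    simp

theorem borAff_lin {G Y : Type} [Group G] [AddCommGroup Y] (ρ : G →* Equiv.Perm Y) {ex : G → ℤ}
    (ex_mul : ∀ g h, ex (g * h) = ex g + ex h) {τ : Equiv.Perm Y} (hτ : τ ∈ borAffAdd Y)
    {S : Set G} (gen : Subgroup.closure S = ⊤)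
    (hS : ∀ g ∈ S, ∃ v, ∀ y, ρ g y = (τ ^ ex g) y + v) (g : G) :
    ∃ v, ∀ y, ρ g y = (τ ^ ex g) y + v := by
  have hg : g ∈ Subgroup.closure S := gen ▸ Subgroup.mem_top g
  have hn : ∀ (n : ℤ) x y, (τ ^ n) (x + y) = (τ ^ n) x + (τ ^ n) y := fun n =>
    (borAffAdd Y).zpow_mem hτ n
  induction hg using Subgroup.closure_induction with
  | mem x hx => exact hS x hx
  | one => exact ⟨0, fun y => by simp [borAff_ex_one ex_mul]⟩
  | mul x y _ _ hx hy =>
    obtain ⟨v, hv⟩ := hx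
    obtain ⟨w, hw⟩ := hy
    refine ⟨(τ ^ ex x) w + v, fun z => ?_⟩
    rw [map_mul, ex_mul, zpow_add, Equiv.Perm.mul_apply, Equiv.Perm.mul_apply, hv, hw, hn,
      add_assoc]
  | inv x _ hx =>
    obtain ⟨v, hv⟩ := hx
    refine ⟨(τ ^ (-ex x)) (-v), fun z => ?_⟩
    rw [borAff_ex_inv ex_mul, ← hn, map_inv, Equiv.Perm.inv_eq_iff_eq, hv,
      ← Equiv.Perm.mul_apply, ← zpow_add]
    simp

/-- Translations of the lexicographic plane. -/
def borAffTr (c d : ℝ) : Equiv.Perm (ℝ ×ₗ ℝ) where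
  toFun v := toLex ((ofLex v).1 + c, (ofLex v).2 + d)
  invFun v := toLex ((ofLex v).1 - c, (ofLex v).2 - d)
  left_inv v := by simp
  right_inv v := by simp

theorem borAffTr_apply (c d x y : ℝ) : borAffTr c d (toLex (x, y)) = toLex (x + c, y + d) := rfl

theorem borAffTr_mul (c d c' d' : ℝ) :
    borAffTr c d * borAffTr c' d' = borAffTr (c + c') (d + d') := by
  ext v
  obtain ⟨⟨x, y⟩, rfl⟩ := toLex.surjective v
  simp only [Equiv.Perm.mul_apply, borAffTr_apply]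
  congr 2 <;> ring

theorem borAffTr_zero : borAffTr 0 0 = 1 := by
  ext v
  obtain ⟨⟨x, y⟩, rfl⟩ := toLex.surjective v
  simp [borAffTr_apply]

theorem borAffTr_zpow (c d : ℝ) (n : ℤ) : borAffTr c d ^ n = borAffTr (n * c) (n * d) := by
  have hinv : (borAffTr c d)⁻¹ = borAffTr (-c) (-d) := by
    rw [inv_eq_iff_mul_eq_one, borAffTr_mul]
    simpa using borAffTr_zero
  induction n using Int.induction_on with
  | zero => simpa using borAffTr_zero.symm
  | succ n ih =>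
    rw [zpow_add_one, ih, borAffTr_mul]
    congr 1 <;> push_cast <;> ring
  | pred n ih =>
    rw [zpow_sub_one, ih, hinv, borAffTr_mul]
    congr 1 <;> push_cast <;> ring

theorem borAffTr_mono (c d : ℝ) : StrictMono (borAffTr c d) := by
  intro v w h
  obtain ⟨⟨x, y⟩, rfl⟩ := toLex.surjective v
  obtain ⟨⟨x', y'⟩, rfl⟩ := toLex.surjective w
  simp only [borAffTr_apply, Prod.Lex.toLex_lt_toLex] at h ⊢
  rcases h with h | ⟨h1, h2⟩
  · left; linarith only [h]
  · right; constructor <;> linarith only [h1, h2]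

/-- A triangular linear map of the lexicographic plane. -/
noncomputable def borAffM (s t r : ℝ) (hs : s ≠ 0) (ht : t ≠ 0) : Equiv.Perm (ℝ ×ₗ ℝ) where
  toFun v := toLex (s * (ofLex v).1, t * (ofLex v).2 - r * (ofLex v).1)
  invFun v := toLex ((ofLex v).1 / s, ((ofLex v).2 + r * ((ofLex v).1 / s)) / t)
  left_inv v := by
    obtain ⟨⟨x, y⟩, rfl⟩ := toLex.surjective v
    simp only [ofLex_toLex]
    congr 2 <;> field_simp
    ring
  right_inv v := by
    obtain ⟨⟨x, y⟩, rfl⟩ := toLex.surjective v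
    simp only [ofLex_toLex]
    congr 2 <;> field_simp
    ring

theorem borAffM_apply (s t r : ℝ) (hs : s ≠ 0) (ht : t ≠ 0) (x y : ℝ) :
    borAffM s t r hs ht (toLex (x, y)) = toLex (s * x, t * y - r * x) := rfl

theorem borAff_param {r₁ r₂ : ℝ} (h1 : 0 < r₁) (h4 : 4 ≤ r₁ * r₂) :
    ∃ a : ℝ, 0 < a ∧ a < r₂ ∧ 1 - r₁ * a < 0 ∧ 1 - r₁ * r₂ + r₁ * a < 0 ∧
      (1 - r₁ * a) * (a - r₂) = a := by
  set P := r₁ * r₂ with hP
  have hD : 0 ≤ P ^ 2 - 4 * P := by linarith only [h4, mul_nonneg_of_nonpos_of_nonpos (Mathlib.Tactic.Linarith.sub_nonpos_of_le h4) (Mathlib.Tactic.Linarith.sub_nonpos_of_le h4)]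
  set D := Real.sqrt (P ^ 2 - 4 * P) with hDdef
  have hD0 : 0 ≤ D := Real.sqrt_nonneg _
  have hD2 : D ^ 2 = P ^ 2 - 4 * P := Real.sq_sqrt hD
  have hDP : D < P - 2 := by
    by_contra hc
    push Not at hc
    linarith only [hD2, hc, h4, hD0, mul_nonneg_of_nonpos_of_nonpos (Mathlib.Tactic.Linarith.sub_nonpos_of_le h4) (Mathlib.Tactic.Linarith.sub_nonpos_of_le hc), mul_nonneg_of_nonpos_of_nonpos (Mathlib.Tactic.Linarith.sub_nonpos_of_le hD0) (Mathlib.Tactic.Linarith.sub_nonpos_of_le hc)]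
  have hra : r₁ * ((P + D) / (2 * r₁)) = (P + D) / 2 := by field_simp
  have hr2 : r₂ = P / r₁ := by rw [hP]; field_simp
  refine ⟨(P + D) / (2 * r₁), by positivity, ?_, ?_, ?_, ?_⟩
  · rw [hr2, div_lt_div_iff₀ (by positivity) h1]
    linarith only [h1, hDP, mul_pos_of_neg_of_neg (Mathlib.Tactic.Linarith.sub_neg_of_lt h1) (Mathlib.Tactic.Linarith.sub_neg_of_lt hDP)]
  · rw [hra]; linarith only [h4, hD0]
  · rw [hra]; linarith only [hDP]
  · rw [hra, hr2]
    field_simp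
    nlinarith

theorem exists_aff {G : Type} [Group G] {α β T : G} {p₁ q₁ p₂ q₂ : ℤ} (U : Uni α β T p₁ q₁ p₂ q₂)
    (hp₁ : 0 < p₁) (hq₁ : 0 < q₁) (hp₂ : 0 < p₂) (hq₂ : 0 < q₂) (h4 : 4 * (q₁ * q₂) ≤ p₁ * p₂) :
    ∃ (ex : G → ℤ) (ρ : G →* Equiv.Perm (ℝ ×ₗ ℝ)) (a b : ℝ), 0 < a ∧ 0 < b ∧
      (∀ g h, ex (g * h) = ex g + ex h) ∧ ex α = 0 ∧ ex β = 0 ∧ ex T = 1 ∧
      (∀ g, Even (ex g) → StrictMono (ρ g)) ∧ (∀ g, Odd (ex g) → StrictAnti (ρ g)) ∧
      ρ T (toLex (0, 0)) = toLex (0, 0) ∧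
      (∀ g, ex g = 0 → ρ g (toLex (0, 0)) = toLex (0, 0) → ρ g = 1) ∧
      (∀ i j : ℤ, ρ ((α ^ q₁) ^ i * (β ^ q₂) ^ j) (toLex (0, 0)) = toLex (a * i - j, (i : ℝ))) ∧
      ∀ i j : ℤ, ρ ((α ^ q₁ * β ^ p₂) ^ i * (β ^ q₂) ^ j) (toLex (0, 0)) =
        toLex (-(b * i) - j, (i : ℝ)) := by
  have hP₁ : (0 : ℝ) < p₁ := by exact_mod_cast hp₁
  have hQ₁ : (0 : ℝ) < q₁ := by exact_mod_cast hq₁
  have hP₂ : (0 : ℝ) < p₂ := by exact_mod_cast hp₂
  have hQ₂ : (0 : ℝ) < q₂ := by exact_mod_cast hq₂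
  have h4' : (4 : ℝ) * (q₁ * q₂) ≤ p₁ * p₂ := by exact_mod_cast h4
  set r₁ : ℝ := p₁ / q₁ with hr₁
  set r₂ : ℝ := p₂ / q₂ with hr₂
  have hr : 4 ≤ r₁ * r₂ := by
    rw [hr₁, hr₂, div_mul_div_comm, le_div_iff₀ (by positivity)]
    exact h4'
  obtain ⟨a, ha0, ha2, hs, ht, hid⟩ := borAff_param (r₁ := r₁) (r₂ := r₂) (by positivity) hr
  set s := 1 - r₁ * a with hsdef
  set t := 1 - r₁ * r₂ + r₁ * a with htdef
  set A := borAffTr (a / q₁) (1 / q₁) with hA
  set B := borAffTr (-1 / q₂) 0 with hB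
  set M := borAffM s t r₁ hs.ne ht.ne with hM
  have hAq : A ^ q₁ = borAffTr a 1 := by
    rw [hA, borAffTr_zpow]
    congr 1 <;> field_simp
  have hAp : A ^ p₁ = borAffTr (r₁ * a) r₁ := by
    rw [hA, borAffTr_zpow, hr₁]
    congr 1 <;> field_simp
  have hBq : B ^ q₂ = borAffTr (-1) 0 := by
    rw [hB, borAffTr_zpow]
    congr 1
    · field_simp
    · simp
  have hBp : B ^ p₂ = borAffTr (-r₂) 0 := by
    rw [hB, borAffTr_zpow, hr₂]
    congr 1
    · field_simp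
    · simp
  have hrel : Rel0 A B M p₁ q₁ p₂ q₂ := by
    refine ⟨?_, ?_, ?_⟩
    · rw [hBq, hAp]
      ext v
      obtain ⟨⟨x, y⟩, rfl⟩ := toLex.surjective v
      simp only [Equiv.Perm.mul_apply, borAffTr_apply, hM, borAffM_apply]
      congr 2
      · rw [hsdef]; ring
      · ring
    · rw [hBp, hAq]
      ext v
      obtain ⟨⟨x, y⟩, rfl⟩ := toLex.surjective v
      simp only [Equiv.Perm.mul_apply, borAffTr_apply, hM, borAffM_apply]
      congr 2
      · linear_combination hid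
      · rw [htdef]; ring
    · rw [hAq, hBq, borAffTr_mul, borAffTr_mul]
      congr 1 <;> ring
  obtain ⟨ρ, hρα, hρβ, hρT⟩ := U.lift _ A B M hrel
  obtain ⟨f, hfα, hfβ, hfT⟩ := U.lift (Multiplicative ℤ) 1 1 (Multiplicative.ofAdd 1)
    ⟨by simp, by simp, by simp⟩
  have ex_mul : ∀ g h, (f (g * h)).toAdd = (f g).toAdd + (f h).toAdd := fun g h => by
    rw [map_mul, toAdd_mul]
  have eα : (f α).toAdd = 0 := by rw [hfα]; rfl
  have eβ : (f β).toAdd = 0 := by rw [hfβ]; rfl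
  have eT : (f T).toAdd = 1 := by rw [hfT]; rfl
  have hManti : StrictAnti M := by
    intro v w h
    obtain ⟨⟨x, y⟩, rfl⟩ := toLex.surjective v
    obtain ⟨⟨x', y'⟩, rfl⟩ := toLex.surjective w
    simp only [hM, borAffM_apply, Prod.Lex.toLex_lt_toLex] at h ⊢
    rcases h with h | ⟨h1, h2⟩
    · left; linarith only [hs, h, mul_pos_of_neg_of_neg (Mathlib.Tactic.Linarith.sub_neg_of_lt hs) (Mathlib.Tactic.Linarith.sub_neg_of_lt h)]
    · right
      subst h1
      exact ⟨rfl, by (refine lt_of_not_ge fun h_nl => ?_; linarith only [h_nl, ha0, ha2, h2, hid, mul_nonneg_of_nonpos_of_nonpos (le_of_lt (Mathlib.Tactic.Linarith.sub_neg_of_lt ha0)) (Mathlib.Tactic.Linarith.sub_nonpos_of_le h_nl), mul_pos_of_neg_of_neg (Mathlib.Tactic.Linarith.sub_neg_of_lt ha2) (Mathlib.Tactic.Linarith.sub_neg_of_lt h2), Mathlib.Tactic.Linarith.zero_mul_eq (sub_eq_zero_of_eq hid) (Mathlib.Tactic.Linarith.sub_neg_of_lt h2)])⟩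
  have hsign := borAff_sign ρ (ex := fun g => (f g).toAdd) ex_mul U.gen (by
    rintro g (rfl | rfl | rfl)
    · left
      rw [hρα, eα]
      exact ⟨Even.zero, borAffTr_mono _ _⟩
    · left
      rw [hρβ, eβ]
      exact ⟨Even.zero, borAffTr_mono _ _⟩
    · right
      rw [hρT, eT]
      exact ⟨odd_one, hManti⟩)
  have hMadd : M ∈ borAffAdd (ℝ ×ₗ ℝ) := by
    intro v w
    obtain ⟨⟨x, y⟩, rfl⟩ := toLex.surjective v
    obtain ⟨⟨x', y'⟩, rfl⟩ := toLex.surjective w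
    change toLex (s * (x + x'), t * (y + y') - r₁ * (x + x')) =
      toLex (s * x + s * x', (t * y - r₁ * x) + (t * y' - r₁ * x'))
    congr 2 <;> ring
  have hlin := borAff_lin ρ (ex := fun g => (f g).toAdd) ex_mul hMadd U.gen (by
    rintro g (rfl | rfl | rfl)
    · refine ⟨toLex (a / q₁, 1 / q₁), fun y => ?_⟩
      rw [hρα, eα, zpow_zero]
      rfl
    · refine ⟨toLex (-1 / q₂, 0), fun y => ?_⟩
      rw [hρβ, eβ, zpow_zero]
      rfl
    · refine ⟨0, fun y => ?_⟩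
      rw [hρT, eT, zpow_one, add_zero])
  refine ⟨fun g => (f g).toAdd, ρ, a, r₂ - a, ha0, by linarith only [ha2], ex_mul, eα, eβ, eT, ?_, ?_, ?_, ?_,
    ?_, ?_⟩
  · intro g hg
    rcases hsign g with h | h
    · exact h.2
    · exact absurd hg (Int.not_even_iff_odd.2 h.1)
  · intro g hg
    rcases hsign g with h | h
    · exact absurd h.1 (Int.not_even_iff_odd.2 hg)
    · exact h.2
  · rw [hρT, hM, borAffM_apply]
    simp
  · intro g hg h0
    obtain ⟨v, hv⟩ := hlin g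
    simp only [hg, zpow_zero, Equiv.Perm.coe_one, id_eq] at hv
    have hv0 : v = 0 := by
      have := hv (toLex (0, 0))
      rw [h0] at this
      exact left_eq_add.1 this
    ext y
    rw [hv, hv0, add_zero]
    rfl
  · intro i j
    rw [map_mul, map_zpow, map_zpow, map_zpow, map_zpow, hρα, hρβ, hAq, hBq, borAffTr_zpow,
      borAffTr_zpow, borAffTr_mul, borAffTr_apply]
    congr 2 <;> ring
  · intro i j
    rw [map_mul, map_zpow, map_mul, map_zpow, map_zpow, map_zpow, map_zpow, hρα, hρβ, hAq, hBq,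
      hBp, borAffTr_mul, borAffTr_zpow, borAffTr_zpow, borAffTr_mul, borAffTr_apply]
    congr 2 <;> ring

theorem borAff_conj {G : Type} [Group G] {K : Subgroup G} {T : G} {P : Set G}
    (hP : RevCone K T P) (n : ℤ) (x : G) :
    (Even n → (T ^ n * x * (T ^ n)⁻¹ ∈ P ↔ x ∈ P)) ∧
      (Odd n → (T ^ n * x * (T ^ n)⁻¹ ∈ P ↔ x⁻¹ ∈ P)) := by
  have h1 : ∀ y, T * y * T⁻¹ ∈ P ↔ y⁻¹ ∈ P := fun y => by
    simpa using (hP.2.2.2 y⁻¹).symm
  let N : Subgroup G :=
    { carrier := {u | ∀ y, u * y * u⁻¹ ∈ P ↔ y ∈ P}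
      one_mem' := fun y => by simp
      mul_mem' := fun {u v} hu hv y => by
        rw [← hv y, ← hu (v * y * v⁻¹)]
        simp [mul_assoc]
      inv_mem' := fun {u} hu y => by
        rw [← hu (u⁻¹ * y * u⁻¹⁻¹)]
        simp [mul_assoc] }
  have h2 : T ^ (2 : ℤ) ∈ N := fun y => by
    have e : T ^ (2 : ℤ) * y * (T ^ (2 : ℤ))⁻¹ = T * (T * y * T⁻¹) * T⁻¹ := by
      rw [zpow_two]
      simp [mul_assoc]
    have e' : (T * y * T⁻¹)⁻¹ = T * y⁻¹ * T⁻¹ := by simp [mul_assoc]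
    rw [e, h1, e', h1, inv_inv]
  have h3 : ∀ m : ℤ, T ^ (2 * m) ∈ N := fun m => by
    rw [zpow_mul]
    exact N.zpow_mem h2 m
  constructor
  · rintro ⟨m, rfl⟩
    rw [← two_mul]
    exact h3 m x
  · rintro ⟨m, rfl⟩
    have e : T ^ (2 * m + 1) * x * (T ^ (2 * m + 1))⁻¹ =
        T ^ (2 * m) * (T * x * T⁻¹) * (T ^ (2 * m))⁻¹ := by
      rw [zpow_add_one]
      simp [mul_assoc]
    rw [e, h3 m, h1]

theorem exists_ord {G Y : Type} [Group G] [LinearOrder Y] (ρ : G →* Equiv.Perm Y) (ex : G → ℤ)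
    (ex_mul : ∀ g h, ex (g * h) = ex g + ex h) (mono : ∀ g, Even (ex g) → StrictMono (ρ g))
    (anti : ∀ g, Odd (ex g) → StrictAnti (ρ g)) {T : G} (exT : ex T = 1) {o : Y} (fix : ρ T o = o)
    {K : Subgroup G} (hK : ∀ g, ex g = 0 → ρ g o = o → g ∈ K) {P : Set G} (hP : RevCone K T P) :
    ∃ (L : Type) (_ : LinearOrder L) (_ : MulAction G L) (y₀ : L), (∀ y, ∃ g : G, g • y₀ = y) ∧
      (∀ g : G, g • y₀ = y₀ ↔ g ∈ Subgroup.zpowers T) ∧
      (∀ g, Even (ex g) → StrictMono fun y : L => g • y) ∧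
      (∀ g, Odd (ex g) → StrictAnti fun y : L => g • y) ∧
      (∀ g g' : G, ρ g o < ρ g' o → g • y₀ < g' • y₀) := by
  classical
  have exTn : ∀ n : ℤ, ex (T ^ n) = n := fun n => by rw [borAff_ex_zpow ex_mul, exT, mul_one]
  have fixn : ∀ n : ℤ, ρ (T ^ n) o = o := fun n => by
    rw [map_zpow]
    exact Equiv.Perm.zpow_apply_eq_self_of_apply_eq_self fix n
  let L := {k : G // ex k = 0}
  let r : L → L → Prop := fun k k' => ρ k.1 o < ρ k'.1 o ∨ (ρ k.1 o = ρ k'.1 o ∧ k.1⁻¹ * k'.1 ∈ P)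
  have tri : ∀ k k' : L, ρ k.1 o = ρ k'.1 o → k ≠ k' → k.1⁻¹ * k'.1 ∈ P ∨ k'.1⁻¹ * k.1 ∈ P := by
    intro k k' h hne
    have hk : k.1⁻¹ * k'.1 ∈ K := by
      apply hK
      · rw [ex_mul, borAff_ex_inv ex_mul, k.2, k'.2]; rfl
      · rw [map_mul, map_inv, Equiv.Perm.mul_apply, ← h]
        simp
    have := hP.2.2.1 _ hk (fun h1 => hne (Subtype.ext (inv_mul_eq_one.1 h1)))
    simpa using this
  have : IsStrictTotalOrder L r :=
    { trichotomous := fun k k' h1 h2 => by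
        by_contra hne
        rcases lt_trichotomy (ρ k.1 o) (ρ k'.1 o) with h | h | h
        · exact h1 (Or.inl h)
        · rcases tri k k' h hne with h' | h'
          · exact h1 (Or.inr ⟨h, h'⟩)
          · exact h2 (Or.inr ⟨h.symm, h'⟩)
        · exact h2 (Or.inl h)
      irrefl := fun k h => by
        rcases h with h | h
        · exact lt_irrefl _ h
        · exact hP.2.1 (by simpa using h.2)
      trans := fun k k' k'' h h' => by
        rcases h with h | h <;> rcases h' with h' | h'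
        · exact Or.inl (h.trans h')
        · exact Or.inl (h'.1 ▸ h)
        · exact Or.inl (h.1 ▸ h')
        · refine Or.inr ⟨h.1.trans h'.1, ?_⟩
          simpa [mul_assoc] using hP.1 _ h.2 _ h'.2 }
  let sm : G → L → L := fun g k => ⟨g * k.1 * (T ^ ex g)⁻¹, by
    rw [ex_mul, ex_mul, borAff_ex_inv ex_mul, exTn, k.2]; ring⟩
  let act : MulAction G L :=
    { smul := sm
      one_smul := fun k => Subtype.ext (by
        change 1 * k.1 * (T ^ ex 1)⁻¹ = k.1
        rw [borAff_ex_one ex_mul]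
        simp)
      mul_smul := fun g h k => Subtype.ext (by
        change g * h * k.1 * (T ^ ex (g * h))⁻¹ = g * (h * k.1 * (T ^ ex h)⁻¹) * (T ^ ex g)⁻¹
        rw [ex_mul, zpow_add]
        simp [mul_assoc]) }
  have hsm : ∀ g (k : L), ρ (sm g k).1 o = ρ g (ρ k.1 o) := fun g k => by
    change ρ (g * k.1 * (T ^ ex g)⁻¹) o = _
    rw [← zpow_neg, map_mul, map_mul, Equiv.Perm.mul_apply, Equiv.Perm.mul_apply, fixn]
  have hq : ∀ g (k k' : L),
      (sm g k).1⁻¹ * (sm g k').1 = T ^ ex g * (k.1⁻¹ * k'.1) * (T ^ ex g)⁻¹ := fun g k k' => by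
    change (g * k.1 * (T ^ ex g)⁻¹)⁻¹ * (g * k'.1 * (T ^ ex g)⁻¹) = _
    simp [mul_assoc]
  let y₀ : L := ⟨1, borAff_ex_one ex_mul⟩
  refine ⟨L, linearOrderOfSTO r, act, y₀, ?_, ?_, ?_, ?_, ?_⟩
  · intro y
    refine ⟨y.1, Subtype.ext ?_⟩
    change y.1 * 1 * (T ^ ex y.1)⁻¹ = y.1
    rw [y.2]
    simp
  · intro g
    rw [Subtype.ext_iff]
    change g * 1 * (T ^ ex g)⁻¹ = 1 ↔ _
    rw [mul_one, mul_inv_eq_one, Subgroup.mem_zpowers_iff]
    constructor
    · intro h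
      exact ⟨_, h.symm⟩
    · rintro ⟨n, rfl⟩
      rw [exTn]
  · intro g hg k k' h
    change r (sm g k) (sm g k')
    rcases h with h | h
    · left
      rw [hsm, hsm]
      exact mono g hg h
    · right
      rw [hsm, hsm, hq, h.1]
      exact ⟨rfl, ((borAff_conj hP _ _).1 hg).2 h.2⟩
  · intro g hg k k' h
    change r (sm g k') (sm g k)
    rcases h with h | h
    · left
      rw [hsm, hsm]
      exact anti g hg h
    · right
      rw [hsm, hsm, hq, h.1]
      exact ⟨rfl, ((borAff_conj hP _ _).2 hg).2 (by simpa using h.2)⟩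
  · intro g g' h
    change r (sm g y₀) (sm g' y₀)
    left
    rw [hsm, hsm]
    simpa [y₀] using h

end Pool.Agent.Work.MP_3d425c_gt.Bor
end

-- merged part: Pool.Agent.Work.MP_3d425c_gt.BorXDex
section
/-! Existence of the data for the tree of lines. -/

namespace Pool.Agent.Work.MP_3d425c_gt.Bor

theorem BorXDex_fin {L : Type} (w : ℤ → ℤ → L) {c : ℝ} (hc : 0 < c) (M : ℝ) :
    {y | ∃ i j : ℤ, y = w i j ∧ c * |(i : ℝ)| + |(j : ℝ)| ≤ M}.Finite := by
  obtain ⟨N, hN⟩ := exists_nat_ge (max (M / c) M)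
  have h1 : M ≤ c * N := by
    have := le_trans (le_max_left _ _) hN
    rwa [div_le_iff₀' hc] at this
  have h2 : M ≤ N := le_trans (le_max_right _ _) hN
  refine (((Set.finite_Icc (-(N : ℤ)) N).prod (Set.finite_Icc (-(N : ℤ)) N)).image
    fun p => w p.1 p.2).subset ?_
  rintro _ ⟨i, j, rfl, h⟩
  have h3 : |(i : ℝ)| ≤ N :=
    le_of_mul_le_mul_left (by linarith only [h1, h, abs_nonneg (j : ℝ)]) hc
  have h4 : |(j : ℝ)| ≤ N := by
    have := mul_nonneg hc.le (abs_nonneg (i : ℝ))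
    linarith only [h2, h, this]
  have h5 : |i| ≤ (N : ℤ) := by exact_mod_cast h3
  have h6 : |j| ≤ (N : ℤ) := by exact_mod_cast h4
  exact ⟨(i, j), ⟨abs_le.1 h5, abs_le.1 h6⟩, rfl⟩

theorem BorXDex_inv {G L : Type} [Group G] [MulAction G L] {α : G} {ε : L → Bool}
    (h : ∀ y, ε (α • y) = ε y) (n : ℤ) (y : L) : ε (α ^ n • y) = ε y := by
  induction n using Int.induction_on with
  | zero => simp
  | succ n ih => rw [add_comm, zpow_add, zpow_one, mul_smul, h, ih]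
  | pred n ih =>
    rw [← h, ← mul_smul, ← ih]
    congr 2
    group

theorem exists_xd {p₁ q₁ p₂ q₂ : ℤ} (hp₁ : 0 < p₁) (hq₁ : 0 < q₁) (hp₂ : 0 < p₂) (hq₂ : 0 < q₂)
    (h4 : 4 * (q₁ * q₂) ≤ p₁ * p₂) :
    ∃ (G L : Type) (_ : Group G) (_ : LinearOrder L) (_ : MulAction G L) (α β T : G),
      Nonempty (XD L α β T p₁ q₁ p₂ q₂) := by
  obtain ⟨G, _, α, β, T, U⟩ := exists_uni p₁ q₁ p₂ q₂
  obtain ⟨lo1, lo2⟩ := piece_lo U hq₁ hq₂
  obtain ⟨ex, ρ, a, b, ha, hb, ex_mul, exα, exβ, exT, mono, anti, fix, free, e1, e2⟩ :=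
    exists_aff U hp₁ hq₁ hp₂ hq₂ h4
  have ex_one : ex 1 = 0 := by
    have := ex_mul 1 1
    rw [one_mul] at this
    omega
  have ex_inv : ∀ g, ex g⁻¹ = -ex g := fun g => by
    have := ex_mul g g⁻¹
    rw [mul_inv_cancel, ex_one] at this
    omega
  let K : Subgroup G :=
    { carrier := {g | ex g = 0 ∧ ρ g = 1}
      mul_mem' := fun {g h} hg hh => ⟨by rw [ex_mul, hg.1, hh.1, add_zero],
        by rw [map_mul, hg.2, hh.2, one_mul]⟩
      one_mem' := ⟨ex_one, map_one ρ⟩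
      inv_mem' := fun {g} hg => ⟨by rw [ex_inv, hg.1, neg_zero], by rw [map_inv, hg.2, inv_one]⟩ }
  have hKn : K.Normal := ⟨fun g hg h => ⟨by rw [ex_mul, ex_mul, ex_inv, hg.1]; ring,
    by rw [map_mul, map_mul, hg.2, mul_one, ← map_mul, mul_inv_cancel, map_one]⟩⟩
  have f1 : ∀ i j : ℤ, (α ^ q₁) ^ i * (β ^ q₂) ^ j ∈ K → i = 0 ∧ j = 0 := by
    intro i j h
    have h1 := e1 i j
    rw [h.2, Equiv.Perm.one_apply, toLex_inj, Prod.mk.injEq] at h1
    obtain rfl : i = 0 := by exact_mod_cast h1.2.symm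
    exact ⟨rfl, by simpa using h1.1⟩
  have f2 : ∀ i j : ℤ, (α ^ q₁ * β ^ p₂) ^ i * (β ^ q₂) ^ j ∈ K → i = 0 ∧ j = 0 := by
    intro i j h
    have h1 := e2 i j
    rw [h.2, Equiv.Perm.one_apply, toLex_inj, Prod.mk.injEq] at h1
    obtain rfl : i = 0 := by exact_mod_cast h1.2.symm
    exact ⟨rfl, by simpa using h1.1⟩
  obtain ⟨P, hP⟩ := tree_cone U ex ex_mul exα exβ exT K (fun k hk => hk.1) f1 f2 lo1 lo2
  obtain ⟨L, _, _, y₀, trans, stab, monoL, antiL, hlt⟩ :=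
    exists_ord ρ ex ex_mul mono anti exT fix (K := K) (fun g h1 h2 => ⟨h1, free g h1 h2⟩) hP
  have hle : ∀ g g' : G, g • y₀ ≤ g' • y₀ → ρ g (toLex (0, 0)) ≤ ρ g' (toLex (0, 0)) :=
    fun g g' h => not_lt.1 fun h' => not_lt.2 h (hlt _ _ h')
  have heq : ∀ g g' : G, g • y₀ = g' • y₀ → ρ g (toLex (0, 0)) = ρ g' (toLex (0, 0)) :=
    fun g g' h => le_antisymm (hle _ _ h.le) (hle _ _ h.ge)
  have hfst : ∀ g g' : G, g • y₀ ≤ g' • y₀ →
      (ofLex (ρ g (toLex (0, 0)))).1 ≤ (ofLex (ρ g' (toLex (0, 0)))).1 :=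
    fun g g' h => Prod.Lex.monotone_fst _ _ (hle _ _ h)
  have inj1 : ∀ i j i' j' : ℤ, ((α ^ q₁) ^ i * (β ^ q₂) ^ j) • y₀ =
      ((α ^ q₁) ^ i' * (β ^ q₂) ^ j') • y₀ → i = i' ∧ j = j' := by
    intro i j i' j' h
    have h1 := heq _ _ h
    rw [e1, e1, toLex_inj, Prod.mk.injEq] at h1
    obtain rfl : i = i' := by exact_mod_cast h1.2
    exact ⟨rfl, by simpa using h1.1⟩
  have inj2 : ∀ i j i' j' : ℤ, ((α ^ q₁ * β ^ p₂) ^ i * (β ^ q₂) ^ j) • y₀ =
      ((α ^ q₁ * β ^ p₂) ^ i' * (β ^ q₂) ^ j') • y₀ → i = i' ∧ j = j' := by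
    intro i j i' j' h
    have h1 := heq _ _ h
    rw [e2, e2, toLex_inj, Prod.mk.injEq] at h1
    obtain rfl : i = i' := by exact_mod_cast h1.2
    exact ⟨rfl, by simpa using h1.1⟩
  obtain ⟨εa, εb, inva, invb, val0, d1, d2⟩ := exists_eps U y₀ trans stab inj1 inj2
  have r1 : ρ 1 (toLex (0, 0)) = toLex (0, 0) := by simp
  have rA : ρ (α ^ q₁)⁻¹ (toLex (0, 0)) = toLex (-a, -1) := by simpa using e1 (-1) 0
  have rB : ρ (β ^ q₂)⁻¹ (toLex (0, 0)) = toLex (1, 0) := by simpa using e1 0 (-1)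
  have rC : ρ (α ^ q₁ * β ^ p₂)⁻¹ (toLex (0, 0)) = toLex (b, -1) := by
    simpa [-mul_inv_rev] using e2 (-1) 0
  refine ⟨G, L, inferInstance, inferInstance, inferInstance, α, β, T, ⟨⟨ex, y₀, εa, εb, U.rel,
    U.gen, ex_mul, exα, exβ, exT, monoL, antiL, trans, (stab T).2 (Subgroup.mem_zpowers T),
    fun g hg => ?_, inva, invb, fun y y' => ?_, fun y y' => ?_, ?_, ?_, fun y h1 h2 => ?_,
    fun y h1 h2 h3 => ?_, val0, ?_⟩⟩⟩
  · obtain ⟨n, rfl⟩ := Subgroup.mem_zpowers_iff.1 ((stab g).1 hg)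
    exact (Commute.refl T).zpow_left n
  · obtain ⟨g, rfl⟩ := trans y
    obtain ⟨g', rfl⟩ := trans y'
    refine (BorXDex_fin (fun i j => ((α ^ q₁) ^ i * (β ^ q₂) ^ j) • y₀) ha
      (|(ofLex (ρ g (toLex (0, 0)))).1| + |(ofLex (ρ g' (toLex (0, 0)))).1|)).subset ?_
    rintro z ⟨hz, h1, h2⟩
    obtain ⟨i, j, rfl, hij⟩ := (d1 z).1 hz
    refine ⟨i, j, rfl, ?_⟩
    have h3 := hfst _ _ h1.le
    have h4 := hfst _ _ h2.le
    rw [e1, ofLex_toLex] at h3 h4
    have h5 := neg_abs_le (ofLex (ρ g (toLex (0, 0)))).1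
    have h6 := le_abs_self (ofLex (ρ g' (toLex (0, 0)))).1
    have h7 := abs_nonneg (ofLex (ρ g (toLex (0, 0)))).1
    have h8 := abs_nonneg (ofLex (ρ g' (toLex (0, 0)))).1
    rcases le_or_gt 0 i with hi | hi
    · have hj : j < 0 := by omega
      rw [abs_of_nonneg (show (0 : ℝ) ≤ i by exact_mod_cast hi),
        abs_of_neg (show (j : ℝ) < 0 by exact_mod_cast hj)]
      linarith only [h4, h6, h7]
    · have hj : 0 ≤ j := by omega
      rw [abs_of_neg (show (i : ℝ) < 0 by exact_mod_cast hi),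
        abs_of_nonneg (show (0 : ℝ) ≤ j by exact_mod_cast hj)]
      linarith only [h3, h5, h8]
  · obtain ⟨g, rfl⟩ := trans y
    obtain ⟨g', rfl⟩ := trans y'
    refine (BorXDex_fin (fun i j => ((α ^ q₁ * β ^ p₂) ^ i * (β ^ q₂) ^ j) • y₀) hb
      (|(ofLex (ρ g (toLex (0, 0)))).1| + |(ofLex (ρ g' (toLex (0, 0)))).1|)).subset ?_
    rintro z ⟨hz, h1, h2⟩
    obtain ⟨i, j, rfl, hij⟩ := (d2 z).1 hz
    refine ⟨i, j, rfl, ?_⟩
    have h3 := hfst _ _ h1.le
    have h4 := hfst _ _ h2.le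
    rw [e2, ofLex_toLex] at h3 h4
    have h5 := neg_abs_le (ofLex (ρ g (toLex (0, 0)))).1
    have h6 := le_abs_self (ofLex (ρ g' (toLex (0, 0)))).1
    have h7 := abs_nonneg (ofLex (ρ g (toLex (0, 0)))).1
    have h8 := abs_nonneg (ofLex (ρ g' (toLex (0, 0)))).1
    rcases le_or_gt 0 i with hi | hi
    · have hj : 0 ≤ j := by omega
      rw [abs_of_nonneg (show (0 : ℝ) ≤ i by exact_mod_cast hi),
        abs_of_nonneg (show (0 : ℝ) ≤ j by exact_mod_cast hj)]
      linarith only [h3, h5, h8]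
    · have hj : j < 0 := by omega
      rw [abs_of_neg (show (i : ℝ) < 0 by exact_mod_cast hi),
        abs_of_neg (show (j : ℝ) < 0 by exact_mod_cast hj)]
      linarith only [h4, h6, h7]
  · have h1 := hlt (α ^ q₁)⁻¹ 1 (by rw [rA, r1, Prod.Lex.toLex_lt_toLex]; left; simpa using ha)
    rwa [one_smul] at h1
  · have h1 := hlt 1 (β ^ q₂)⁻¹ (by rw [rB, r1, Prod.Lex.toLex_lt_toLex]; left; simp)
    rwa [one_smul] at h1
  · by_contra h
    obtain ⟨i, j, rfl, hij⟩ := (d1 y).1 h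
    have h3 := hfst _ _ h1.le
    have h4 := hfst _ _ h2.le
    rw [e1, ofLex_toLex] at h3 h4
    rw [rA, ofLex_toLex] at h3
    rw [rB, ofLex_toLex] at h4
    simp only at h3 h4
    rcases le_or_gt 0 i with hi | hi
    · have hj : j ≤ -1 := by omega
      have hi' : (0 : ℝ) ≤ i := by exact_mod_cast hi
      have hj' : (j : ℝ) ≤ -1 := by exact_mod_cast hj
      have h5 := mul_nonneg ha.le hi'
      have h6 : (i : ℝ) = 0 := (mul_eq_zero.1 (show a * i = 0 by linarith only [h5, h4, hj'])).resolve_left ha.ne'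
      have h7 : (j : ℝ) = -1 := by linarith only [h4, h5, hj']
      obtain rfl : i = 0 := by exact_mod_cast h6
      obtain rfl : j = -1 := by exact_mod_cast h7
      simp at h2
    · have hj : 0 ≤ j := by omega
      have hi' : (i : ℝ) ≤ -1 := by exact_mod_cast (show i ≤ -1 by omega)
      have hj' : (0 : ℝ) ≤ j := by exact_mod_cast hj
      have h5 := mul_le_mul_of_nonneg_left hi' ha.le
      have h6 : (i : ℝ) = -1 := mul_left_cancel₀ ha.ne' (by linarith only [h3, hj', h5])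
      have h7 : (j : ℝ) = 0 := by linarith only [hj', h3, h5]
      obtain rfl : i = -1 := by exact_mod_cast h6
      obtain rfl : j = 0 := by exact_mod_cast h7
      simp at h1
  · obtain ⟨i, j, rfl, hij⟩ := (d2 y).1 h3
    rcases le_or_gt 0 i with hi | hi
    · have hj : 0 ≤ j := by omega
      have hi' : (0 : ℝ) ≤ i := by exact_mod_cast hi
      have hj' : (0 : ℝ) ≤ j := by exact_mod_cast hj
      have h4 := hfst 1 _ (le_trans (one_smul G y₀).le h1.le)
      rw [e2, r1, ofLex_toLex, ofLex_toLex] at h4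
      simp only at h4
      have h5 := mul_nonneg hb.le hi'
      have h6 : (i : ℝ) = 0 := (mul_eq_zero.1 (show b * i = 0 by linarith only [h5, hj', h4])).resolve_left hb.ne'
      have h7 : (j : ℝ) = 0 := by linarith only [hj', h4, h5]
      obtain rfl : i = 0 := by exact_mod_cast h6
      obtain rfl : j = 0 := by exact_mod_cast h7
      simp at h1
    · have hj : j ≤ -1 := by omega
      have hi' : (i : ℝ) ≤ -1 := by exact_mod_cast (show i ≤ -1 by omega)
      have hj' : (j : ℝ) ≤ -1 := by exact_mod_cast hj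
      have h5 := mul_le_mul_of_nonneg_left hi' hb.le
      rcases h2 with h2 | h2
      · have h4 := hfst _ _ h2
        rw [e2, rB, ofLex_toLex, ofLex_toLex] at h4
        simp only at h4
        linarith only [hb, hj', h5, h4]
      · have h4 := hfst _ _ h2
        rw [e2, rC, ofLex_toLex, ofLex_toLex] at h4
        simp only at h4
        linarith only [hj', h5, h4]
  · have h1 : εa ((α ^ q₁)⁻¹ • y₀) = true := by rw [← zpow_neg, BorXDex_inv inva, val0]
    have h2 := (d1 ((α ^ q₁)⁻¹ • y₀)).2 ⟨-1, 0, by simp, by decide⟩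
    rw [h1] at h2
    simpa using h2.symm

end Pool.Agent.Work.MP_3d425c_gt.Bor
end

-- merged part: Pool.Agent.Work.MP_3d425c_gt.BorFinal
section
/-! Symmetries and the final case distinction. -/

namespace Pool.Agent.Work.MP_3d425c_gt.Bor

/-- The surgery relations in the symmetric presentation of the Borromean rings. -/
def HLM {H : Type} [Group H] (a b c : H) (p₁ q₁ p₂ q₂ p₃ q₃ : ℤ) : Prop :=
  Fill a (b * c⁻¹ * b⁻¹ * c) p₁ q₁ ∧ Fill b (c * a⁻¹ * c⁻¹ * a) p₂ q₂ ∧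
    Fill c (a * b⁻¹ * a⁻¹ * b) p₃ q₃

theorem borFinal_ord_aux {ι Ω : Type} [LinearOrder ι] [WellFoundedLT ι] [LinearOrder Ω]
    (e : ι → Ω) (he : Function.Surjective e) :
    ∃ _ : LinearOrder (Ω ≃o Ω), MulLeftStrictMono (Ω ≃o Ω) := by
  let F : (Ω ≃o Ω) → Lex (ι → Ω) := fun f => toLex fun i => f (e i)
  have hF : Function.Injective F := fun f g h => by
    ext w
    obtain ⟨i, rfl⟩ := he w
    exact congrFun (toLex.injective h) i
  refine ⟨LinearOrder.lift' F hF, ⟨fun a b c h => ?_⟩⟩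
  obtain ⟨i, h1, h2⟩ : F b < F c := h
  refine (⟨i, fun j hj => ?_, ?_⟩ : F (a * b) < F (a * c))
  · exact congrArg a (h1 j hj)
  · exact a.strictMono h2

theorem borFinal_ord (Ω : Type) [i : LinearOrder Ω] :
    ∃ _ : LinearOrder (Ω ≃o Ω), MulLeftStrictMono (Ω ≃o Ω) := by
  obtain ⟨w, hw⟩ := exists_wellFoundedLT Ω
  exact @borFinal_ord_aux Ω Ω w hw i id Function.surjective_id

section Alg

variable {H : Type} [Group H]

theorem borFinal_inv_left {m l : H} {p q : ℤ} (h : Fill m l p q) : Fill m⁻¹ l (-p) q := by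
  have hc : Commute m l := h.1
  refine ⟨hc.inv_left.eq, ?_⟩
  rw [inv_zpow', neg_neg]
  exact h.2

theorem borFinal_inv_right {m l : H} {p q : ℤ} (h : Fill m l p q) : Fill m l⁻¹ (-p) q := by
  have hc : Commute m l := h.1
  refine ⟨hc.inv_right.eq, ?_⟩
  rw [inv_zpow', zpow_neg, zpow_neg, ← mul_inv_rev, ← (hc.zpow_zpow p q).eq, h.2, inv_one]

theorem borFinal_conj {m l : H} {p q : ℤ} (h : Fill m l p q) (g : H) :
    Fill (g⁻¹ * m * g) (g⁻¹ * l * g) p q := by
  have e : ∀ (x : H) (n : ℤ), (g⁻¹ * x * g) ^ n = g⁻¹ * x ^ n * g := fun x n => by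
    simpa using conj_zpow (a := g⁻¹) (b := x) (i := n)
  refine ⟨?_, ?_⟩
  · calc _ = g⁻¹ * (m * l) * g := by group
      _ = _ := by rw [h.1]; group
  · rw [e, e]
    calc _ = g⁻¹ * (m ^ p * l ^ q) * g := by group
      _ = 1 := by rw [h.2]; group

theorem borFinal_xyz_hlm {x y z : H} {p₁ q₁ p₂ q₂ p₃ q₃ : ℤ} (h : XYZ x y z p₁ q₁ p₂ q₂ p₃ q₃) :
    HLM x y⁻¹ z⁻¹ (-p₁) q₁ (-p₂) q₂ (-p₃) q₃ := by
  refine ⟨?_, ?_, ?_⟩
  · convert borFinal_inv_right h.1 using 1; group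
  · convert borFinal_inv_left h.2.1 using 1; group
  · convert borFinal_inv_left h.2.2 using 1; group

theorem borFinal_hlm_xyz {a b c : H} {p₁ q₁ p₂ q₂ p₃ q₃ : ℤ} (h : HLM a b c p₁ q₁ p₂ q₂ p₃ q₃) :
    XYZ a b⁻¹ c⁻¹ (-p₁) q₁ (-p₂) q₂ (-p₃) q₃ := by
  refine ⟨?_, ?_, ?_⟩
  · convert borFinal_inv_right h.1 using 1; group
  · convert borFinal_inv_left h.2.1 using 1; group
  · convert borFinal_inv_left h.2.2 using 1; group

theorem borFinal_mirror {a b c : H} {p₁ q₁ p₂ q₂ p₃ q₃ : ℤ} (h : HLM a b c p₁ q₁ p₂ q₂ p₃ q₃) :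
    HLM a⁻¹ b (a⁻¹ * c * a) (-p₁) q₁ (-p₂) q₂ (-p₃) q₃ := by
  refine ⟨?_, ?_, ?_⟩
  · convert borFinal_inv_left h.1 using 1
    calc _ = b * c⁻¹ * (b * (c * a⁻¹ * c⁻¹ * a))⁻¹ * (b * (c * a⁻¹ * c⁻¹ * a)) *
          ((c * a⁻¹ * c⁻¹ * a) * (c * a⁻¹ * c⁻¹ * a * b)⁻¹) * c := by group
      _ = _ := by rw [← h.2.1.1]; group
  · convert borFinal_inv_right h.2.1 using 1; group
  · convert borFinal_conj (borFinal_inv_right h.2.2) a using 1; group

theorem borFinal_core {α β T : H} {p₁ q₁ p₂ q₂ p₃ q₃ : ℤ} (h : Core α β T p₁ q₁ p₂ q₂ p₃ q₃) :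
    XYZ (α ^ q₁) (β ^ q₂) T p₁ q₁ p₂ q₂ p₃ q₃ := by
  obtain ⟨h1, h2, h3⟩ := h
  have e1 : T * β ^ q₂ * T⁻¹ = β ^ q₂ * α ^ p₁ := by rw [h1]; group
  have e2 : T⁻¹ * α ^ q₁ * T = α ^ q₁ * β ^ p₂ := by rw [mul_assoc, ← h2]; group
  have e3 : T * (α ^ q₁ * β ^ p₂) * T⁻¹ = α ^ q₁ := by rw [h2]; group
  have l1 : T * (β ^ q₂)⁻¹ * T⁻¹ * β ^ q₂ = α ^ (-p₁) := by
    calc _ = (T * β ^ q₂ * T⁻¹)⁻¹ * β ^ q₂ := by group
      _ = _ := by rw [e1]; group
  have l2 : T⁻¹ * (α ^ q₁)⁻¹ * T * α ^ q₁ = β ^ (-p₂) := by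
    calc _ = (T⁻¹ * α ^ q₁ * T)⁻¹ * α ^ q₁ := by group
      _ = _ := by rw [e2]; group
  refine ⟨?_, ?_, ?_, h3⟩
  · rw [l1]
    exact ⟨by group, by group⟩
  · rw [l2]
    exact ⟨by group, by group⟩
  · calc _ = (T * (α ^ q₁ * β ^ p₂) * T⁻¹) * (T * β ^ q₂ * T⁻¹) *
          (T * (α ^ q₁ * β ^ p₂) * T⁻¹)⁻¹ * (T * β ^ q₂ * T⁻¹)⁻¹ * T := by group
      _ = _ := by rw [e1, e3]; group

end Alg

/-- There is a non-trivial homomorphism from the surgery group to a left-ordered group. -/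
def BorFinalGood (p₁ q₁ p₂ q₂ p₃ q₃ : ℤ) : Prop :=
  ∃ (H : Type) (_ : Group H) (_ : LinearOrder H) (_ : MulLeftStrictMono H) (a b c : H),
    HLM a b c p₁ q₁ p₂ q₂ p₃ q₃ ∧ ¬ (a = 1 ∧ b = 1 ∧ c = 1)

theorem BorFinalGood.rot {p₁ q₁ p₂ q₂ p₃ q₃ : ℤ} (h : BorFinalGood p₁ q₁ p₂ q₂ p₃ q₃) :
    BorFinalGood p₂ q₂ p₃ q₃ p₁ q₁ := by
  obtain ⟨H, i1, i2, i3, a, b, c, h1, h2⟩ := h
  exact ⟨H, i1, i2, i3, b, c, a, ⟨h1.2.1, h1.2.2, h1.1⟩, fun h => h2 ⟨h.2.2, h.1, h.2.1⟩⟩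

theorem BorFinalGood.mirror {p₁ q₁ p₂ q₂ p₃ q₃ : ℤ} (h : BorFinalGood (-p₁) q₁ (-p₂) q₂ (-p₃) q₃) :
    BorFinalGood p₁ q₁ p₂ q₂ p₃ q₃ := by
  obtain ⟨H, i1, i2, i3, a, b, c, h1, h2⟩ := h
  refine ⟨H, i1, i2, i3, a⁻¹, b, a⁻¹ * c * a, by simpa using borFinal_mirror h1, fun h => h2 ?_⟩
  obtain ⟨h3, h4, h5⟩ := h
  have h6 : a = 1 := inv_eq_one.1 h3
  exact ⟨h6, h4, by simpa [h6] using h5⟩

theorem borFinal_of_core {Ω : Type} [LinearOrder Ω] {α β T : Ω ≃o Ω} {p₁ q₁ p₂ q₂ p₃ q₃ : ℤ}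
    (h : Core α β T p₁ q₁ p₂ q₂ p₃ q₃) (hT : T ≠ 1) : BorFinalGood p₁ q₁ p₂ q₂ p₃ q₃ := by
  obtain ⟨i2, i3⟩ := borFinal_ord Ω
  exact BorFinalGood.mirror ⟨Ω ≃o Ω, inferInstance, i2, i3, _, _, _,
    borFinal_xyz_hlm (borFinal_core h), fun h => hT (inv_eq_one.1 h.2.2)⟩

theorem borFinal_zero (p₁ q₁ p₂ q₂ q₃ : ℤ) : BorFinalGood p₁ q₁ p₂ q₂ 0 q₃ := by
  refine ⟨Multiplicative ℤ, inferInstance, inferInstance, inferInstance, 1, 1,
    Multiplicative.ofAdd 1, ?_, fun h => ?_⟩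
  · simp [HLM, Fill]
  · simpa using h.2.2

theorem borFinal_pos {p₁ q₁ p₂ q₂ p₃ q₃ : ℤ} (hq₁ : 0 < q₁) (hq₂ : 0 < q₂) (hq₃ : 0 < q₃)
    (c₃ : IsCoprime p₃ q₃) (hp₁ : 0 < p₁) (hp₂ : 0 < p₂) (h3 : p₃ < q₃) :
    BorFinalGood p₁ q₁ p₂ q₂ p₃ q₃ := by
  rcases eq_or_ne p₃ 0 with rfl | h0
  · exact borFinal_zero _ _ _ _ _
  rcases lt_or_ge (p₁ * p₂) (4 * (q₁ * q₂)) with h4 | h4
  · obtain ⟨α, β, T, h, hT⟩ := good_small hp₁ hq₁ hp₂ hq₂ hq₃ h4 h3 h0
    exact borFinal_of_core h hT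
  · obtain ⟨G, L, _, _, _, α, β, T, ⟨X⟩⟩ := exists_xd hp₁ hq₁ hp₂ hq₂ h4
    obtain ⟨Ω, _, a, b, t, h, ht⟩ := X.good hq₃ h3 h0 c₃
    exact borFinal_of_core h ht

theorem borFinal_two {p₁ q₁ p₂ q₂ p₃ q₃ : ℤ} (hq₁ : 0 < q₁) (hq₂ : 0 < q₂) (hq₃ : 0 < q₃)
    (c₁ : IsCoprime p₁ q₁) (c₂ : IsCoprime p₂ q₂) (c₃ : IsCoprime p₃ q₃) (hp₁ : 0 < p₁)
    (hp₂ : 0 < p₂) (h : ¬ (q₁ ≤ p₁ ∧ q₂ ≤ p₂ ∧ q₃ ≤ p₃)) : BorFinalGood p₁ q₁ p₂ q₂ p₃ q₃ := by
  rcases lt_or_ge p₃ q₃ with h3 | h3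
  · exact borFinal_pos hq₁ hq₂ hq₃ c₃ hp₁ hp₂ h3
  rcases lt_or_ge p₂ q₂ with h2 | h2
  · exact (borFinal_pos hq₃ hq₁ hq₂ c₂ (by omega) hp₁ h2).rot
  · exact (borFinal_pos hq₂ hq₃ hq₁ c₁ hp₂ (by omega) (by omega)).rot.rot

theorem hlm_iff {p₁ q₁ p₂ q₂ p₃ q₃ : ℤ} (hq₁ : 0 < q₁) (hq₂ : 0 < q₂) (hq₃ : 0 < q₃)
    (c₁ : IsCoprime p₁ q₁) (c₂ : IsCoprime p₂ q₂) (c₃ : IsCoprime p₃ q₃) :
    (∃ (H : Type) (_ : Group H) (_ : LinearOrder H) (_ : MulLeftStrictMono H) (a b c : H),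
      HLM a b c p₁ q₁ p₂ q₂ p₃ q₃ ∧ ¬ (a = 1 ∧ b = 1 ∧ c = 1)) ↔
    ¬ (q₁ ≤ p₁ ∧ q₂ ≤ p₂ ∧ q₃ ≤ p₃) ∧ ¬ (p₁ ≤ -q₁ ∧ p₂ ≤ -q₂ ∧ p₃ ≤ -q₃) := by
  change BorFinalGood p₁ q₁ p₂ q₂ p₃ q₃ ↔ _
  have neg : ∀ {p₁ p₂ p₃ : ℤ}, IsCoprime p₁ q₁ → IsCoprime p₂ q₂ → IsCoprime p₃ q₃ →
      BorFinalGood p₁ q₁ p₂ q₂ p₃ q₃ → ¬ (p₁ ≤ -q₁ ∧ p₂ ≤ -q₂ ∧ p₃ ≤ -q₃) := by
    rintro p₁ p₂ p₃ c₁ c₂ c₃ ⟨H, i1, i2, i3, a, b, c, h1, h2⟩ ⟨h3, h4, h5⟩
    obtain ⟨e1, e2, e3⟩ := nlo (borFinal_hlm_xyz h1) hq₁ hq₂ hq₃ c₁.neg_left c₂.neg_left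
      c₃.neg_left (by omega) (by omega) (by omega)
    exact h2 ⟨e1, inv_eq_one.1 e2, inv_eq_one.1 e3⟩
  constructor
  · intro h
    refine ⟨fun h' => ?_, neg c₁ c₂ c₃ h⟩
    refine neg c₁.neg_left c₂.neg_left c₃.neg_left (BorFinalGood.mirror ?_) (by omega)
    simpa using h
  · rintro ⟨h1, h2⟩
    rcases lt_trichotomy p₁ 0 with a1 | rfl | a1
    · rcases lt_trichotomy p₂ 0 with a2 | rfl | a2
      · exact (borFinal_two hq₁ hq₂ hq₃ c₁.neg_left c₂.neg_left c₃.neg_left (by omega) (by omega)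
          (by omega)).mirror
      · exact (borFinal_zero _ _ _ _ _).rot
      · rcases lt_trichotomy p₃ 0 with a3 | rfl | a3
        · exact (borFinal_two hq₃ hq₁ hq₂ c₃.neg_left c₁.neg_left c₂.neg_left (by omega) (by omega)
            (by omega)).mirror.rot
        · exact borFinal_zero _ _ _ _ _
        · exact (borFinal_two hq₂ hq₃ hq₁ c₂ c₃ c₁ a2 a3 (by omega)).rot.rot
    · exact (borFinal_zero _ _ _ _ _).rot.rot
    · rcases lt_trichotomy p₂ 0 with a2 | rfl | a2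
      · rcases lt_trichotomy p₃ 0 with a3 | rfl | a3
        · exact (borFinal_two hq₂ hq₃ hq₁ c₂.neg_left c₃.neg_left c₁.neg_left (by omega) (by omega)
            (by omega)).mirror.rot.rot
        · exact borFinal_zero _ _ _ _ _
        · exact (borFinal_two hq₃ hq₁ hq₂ c₃ c₁ c₂ a3 a1 (by omega)).rot
      · exact (borFinal_zero _ _ _ _ _).rot
      · exact borFinal_two hq₁ hq₂ hq₃ c₁ c₂ c₃ a1 a2 h1

end Pool.Agent.Work.MP_3d425c_gt.Bor
end
end
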