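import Pool.Agent.Work.MP_3d425c_gt.ZMain

/-! Left orders on fundamental groups of Dehn fillings of veering triangulations
(pseudo-Anosov flows without perfect fits). -/

namespace Pool.Agent.Work.MP_3d425c_gt.ProngTreeFillings
open Pool.Agent.Work.MP_3d425c_gt Pool.Agent.Work.MP_3d425c_gt.PT

theorem result {V X Γ Y M ι : Type} [Group Γ] [MulAction Γ V] [MulAction Γ X] [MulAction Γ Y]
    [TopologicalSpace Y] [SimplyConnectedSpace Y] [ContinuousConstSMul Γ Y] [TopologicalSpace M]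
    (dir : V ⊕ X → V ⊕ X → ℤ) (own : X → V) (δ γ : V → Γ) (e : Γ → ℤ)
    (p : Y → M) (N : ι → ℂ × Circle → M)
    (hT : ProngTree dir own δ e) (hS : Slopes γ) (hF : Filling γ p N)
    (hslope : ∀ (w : V) (v : V ⊕ X), v ≠ .inl w →
      |e (γ w)| < |dir (.inl w) (γ w • v) - dir (.inl w) v| ∧ (e (γ w) ≠ 0 ∨
        ∀ g : Γ, g • w = w → dir (.inl w) (g • v) ≠ dir (.inl w) v + 2)) (m : M) :
    Nontrivial (FundamentalGroup M m) ∧
      ∃ r : FundamentalGroup M m → FundamentalGroup M m → Prop,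
        IsStrictTotalOrder _ r ∧ ∀ a b c, r a b ↔ r (c * a) (c * b) :=
  Bor.z_main dir own δ γ e p N hT hS hF hslope m

/-- Every pseudo-Anosov mapping torus drilled along its singular orbits (`PA.Affine`, the flat
model on the universal cover of the fibre) satisfies the hypotheses of `result`. -/
theorem mapping_tori {V Γ M ι : Type} [LinearOrder V] [Countable V] [Group Γ] [MulAction Γ V]
    [TopologicalSpace M] (E : V → V → Prop) [MulAction Γ (PA.Disc E)]
    [ContinuousConstSMul Γ (PA.Disc E)] (y : V → ℝ) (deg e : Γ → ℤ) (lam : ℝ) (γ : V → Γ)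
    (p : PA.Cyl E → M) (N : ι → ℂ × Circle → M)
    (hA : PA.Affine E y deg e lam) (hS : PA.Slopes γ) (hF : PA.Filling E deg γ p N)
    (hslope : ∀ w u : V, u ≠ w → |e (γ w)| < (PA.prongs E y w u (γ w • u) : ℤ) ∧
      (e (γ w) ≠ 0 ∨ ∀ g : Γ, g • w = w → PA.prongs E y w u (g • u) ≠ 2)) :
    ∃ (X : Type) (_ : MulAction Γ X) (_ : MulAction Γ (PA.Cyl E))
      (_ : SimplyConnectedSpace (PA.Cyl E)) (_ : ContinuousConstSMul Γ (PA.Cyl E))
      (dir : V ⊕ X → V ⊕ X → ℤ) (own : X → V) (δ : V → Γ),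
      ProngTree dir own δ e ∧ Slopes γ ∧ Filling γ p N ∧
      ∀ (w : V) (v : V ⊕ X), v ≠ .inl w →
        |e (γ w)| < |dir (.inl w) (γ w • v) - dir (.inl w) v| ∧ (e (γ w) ≠ 0 ∨
          ∀ g : Γ, g • w = w → dir (.inl w) (g • v) ≠ dir (.inl w) v + 2) :=
  Bor.z_affine E y deg e lam γ p N hA hS hF hslope

/-- The hypotheses of `result` can be satisfied: a filling of the once-punctured torus bundle
with monodromy `[[2, 1], [1, 1]]`. -/
theorem nonvacuous : ∃ (V X Γ Y M ι : Type) (_ : Group Γ) (_ : MulAction Γ V) (_ : MulAction Γ X)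
    (_ : MulAction Γ Y) (_ : TopologicalSpace Y) (_ : SimplyConnectedSpace Y)
    (_ : ContinuousConstSMul Γ Y) (_ : TopologicalSpace M) (dir : V ⊕ X → V ⊕ X → ℤ)
    (own : X → V) (δ γ : V → Γ) (e : Γ → ℤ) (p : Y → M) (N : ι → ℂ × Circle → M),
    ProngTree dir own δ e ∧ Slopes γ ∧ Filling γ p N ∧
    ∀ (w : V) (v : V ⊕ X), v ≠ .inl w →
      |e (γ w)| < |dir (.inl w) (γ w • v) - dir (.inl w) v| ∧ (e (γ w) ≠ 0 ∨
        ∀ g : Γ, g • w = w → dir (.inl w) (g • v) ≠ dir (.inl w) v + 2) := by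
  obtain ⟨V, Γ, M, ι, _, _, _, _, _, E, _, _, y, deg, e, lam, γ, p, N, h1, h2, h3, h4⟩ :=
    Inst.nonvacuous
  obtain ⟨X, _, _, _, _, dir, own, δ, h⟩ := mapping_tori E y deg e lam γ p N h1 h2 h3
    fun w u hu => ⟨(h4 w u hu).2, Or.inl (abs_pos.1 (h4 w u hu).1)⟩
  exact ⟨V, X, Γ, PA.Cyl E, M, ι, _, _, _, _, _, inferInstance, inferInstance, _, dir, own, δ, γ,
    e, p, N, h⟩

end Pool.Agent.Work.MP_3d425c_gt.ProngTreeFillings
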