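import Pool.Agent.Work.MP_3d425c_gt.ZMain

/-! Left orders on fundamental groups of Dehn fillings of pseudo-Anosov mapping tori. -/

namespace Pool.Agent.Work.MP_3d425c_gt.PseudoAnosovFillings
open Pool.Agent.Work.MP_3d425c_gt Pool.Agent.Work.MP_3d425c_gt.PA

/-- The hypotheses of `result` can be satisfied: a filling of the once-punctured torus bundle
with monodromy `[[2, 1], [1, 1]]`. -/
theorem nonvacuous : ∃ (V Γ M ι : Type) (_ : LinearOrder V) (_ : Countable V) (_ : Group Γ)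
    (_ : MulAction Γ V) (_ : TopologicalSpace M) (E : V → V → Prop) (_ : MulAction Γ (Disc E))
    (_ : ContinuousConstSMul Γ (Disc E)) (y : V → ℝ) (deg e : Γ → ℤ) (lam : ℝ) (γ : V → Γ)
    (p : Cyl E → M) (N : ι → ℂ × Circle → M),
    Affine E y deg e lam ∧ Slopes γ ∧ Filling E deg γ p N ∧
    (∀ w u : V, u ≠ w → |e (γ w)| < (prongs E y w u (γ w • u) : ℤ) ∧
      (e (γ w) ≠ 0 ∨ ∀ g : Γ, g • w = w → prongs E y w u (g • u) ≠ 2)) := by
  obtain ⟨V, Γ, M, ι, _, _, _, _, _, E, _, _, y, deg, e, lam, γ, p, N, h1, h2, h3, h4⟩ :=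
    Inst.nonvacuous
  exact ⟨V, Γ, M, ι, _, inferInstance, _, _, _, E, _, inferInstance, y, deg, e, lam, γ, p, N,
    h1, h2, h3, fun w u hu => ⟨(h4 w u hu).2, Or.inl (abs_pos.1 (h4 w u hu).1)⟩⟩

theorem result {V Γ M ι : Type} [LinearOrder V] [Countable V] [Group Γ] [MulAction Γ V]
    [TopologicalSpace M] (E : V → V → Prop) [MulAction Γ (Disc E)]
    [ContinuousConstSMul Γ (Disc E)] (y : V → ℝ) (deg e : Γ → ℤ) (lam : ℝ) (γ : V → Γ)
    (p : Cyl E → M) (N : ι → ℂ × Circle → M)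
    (hA : Affine E y deg e lam) (hS : Slopes γ) (hF : Filling E deg γ p N)
    (hslope : ∀ w u : V, u ≠ w → |e (γ w)| < (prongs E y w u (γ w • u) : ℤ) ∧
      (e (γ w) ≠ 0 ∨ ∀ g : Γ, g • w = w → prongs E y w u (g • u) ≠ 2)) (m : M) :
    Nontrivial (FundamentalGroup M m) ∧
      ∃ r : FundamentalGroup M m → FundamentalGroup M m → Prop,
        IsStrictTotalOrder _ r ∧ ∀ a b c, r a b ↔ r (c * a) (c * b) := by
  obtain ⟨X, _, _, _, _, dir, own, δ, h1, h2, h3, h4⟩ :=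
    Bor.z_affine E y deg e lam γ p N hA hS hF hslope
  exact Bor.z_main dir own δ γ e p N h1 h2 h3 h4 m

end Pool.Agent.Work.MP_3d425c_gt.PseudoAnosovFillings
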